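import Pool.Agent.Helper85.HT.Defs3

set_option autoImplicit false

/-!
# Module AI1: the simulating process of an arithmetical operator is local
-/

namespace Pool.Agent.HT

open Ordinal

/-- reading a bit of a finite list -/
def ai1_rd (l : List Bool) : Cantor := fun k => l.getD k false

theorem ai1_rd_primrec : Primrec₂ (fun (l : List Bool) (k : ℕ) => ai1_rd l k) :=
  Primrec.list_getD false

theorem ai1_cf_primrec : Primrec cf := by
  unfold cf
  exact Primrec.nat_add.comp (Primrec.nat_mul.comp (Primrec.const 4) Primrec.id) (Primrec.const 3)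

theorem ai1_cW_primrec : Primrec cW := by
  unfold cW
  exact Primrec.nat_mul.comp (Primrec.const 4) Primrec.id

theorem ai1_cw_primrec : Primrec cw := by
  unfold cw
  exact Primrec.nat_add.comp (Primrec.nat_mul.comp (Primrec.const 4) Primrec.id) (Primrec.const 1)

theorem ai1_cc_primrec : Primrec₂ cc := by
  unfold cc
  exact Primrec.nat_add.comp (Primrec.nat_mul.comp (Primrec.const 4) Primrec₂.natPair)
    (Primrec.const 2)

theorem ai1_find_primrec (n : ℕ) :
    Primrec (fun l : List Bool => (List.range n).find? (fun i => ai1_rd l (cf (3 + i)))) := by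
  induction n with
  | zero => exact Primrec.const none
  | succ n ih =>
    have h1 : Primrec (fun l : List Bool =>
        (bif ai1_rd l (cf (3 + n)) then some n else none : Option ℕ)) :=
      Primrec.cond (ai1_rd_primrec.comp Primrec.id (Primrec.const _)) (Primrec.const _)
        (Primrec.const _)
    have h2 := Primrec.option_orElse.comp ih h1
    refine h2.of_eq (fun l => ?_)
    rw [List.range_succ, List.find?_append]
    cases (List.range n).find? (fun i => ai1_rd l (cf (3 + i))) with
    | none =>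
      cases h : ai1_rd l (cf (3 + n)) <;> simp [h]
    | some a => simp

theorem ai1_phase_primrec (n : ℕ) : Primrec (fun l : List Bool => phase n (ai1_rd l)) :=
  ai1_find_primrec (n + 1)

theorem ai1_kind_primrec (n : ℕ) : Primrec (fun l : List Bool => kind n (ai1_rd l)) := by
  have hf : ∀ k : ℕ, Primrec (fun l : List Bool => ai1_rd l (cf k)) := fun k =>
    ai1_rd_primrec.comp Primrec.id (Primrec.const _)
  have h0 : Primrec (fun l : List Bool => (phase n (ai1_rd l)).isNone) :=
    (Primrec.not.comp (Primrec.option_isSome.comp (ai1_phase_primrec n))).of_eq (fun l => by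
      cases phase n (ai1_rd l) <;> rfl)
  have h1 : Primrec (fun l : List Bool =>
      (bif ai1_rd l (cf 0) && ai1_rd l (cf 1) then (bif ai1_rd l (cf 2) then 0 else 1)
      else bif ai1_rd l (cf 2) then 2
      else bif (phase n (ai1_rd l)).isNone then 3 else 4 : ℕ)) :=
    Primrec.cond (Primrec.and.comp (hf 0) (hf 1))
      (Primrec.cond (hf 2) (Primrec.const 0) (Primrec.const 1))
      (Primrec.cond (hf 2) (Primrec.const 2)
        (Primrec.cond h0 (Primrec.const 3) (Primrec.const 4)))
  refine h1.of_eq (fun l => ?_)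
  unfold kind
  simp only [cond_eq_ite]

/-- the update rule -/
def ai1_g (n : ℕ) (g0 : ℕ × List Bool × List Bool → Bool) (h0 : ℕ → ℕ)
    (p : ℕ × List Bool × List Bool) : Bool :=
  aiNext n (fun W m => g0 (m, pre W (h0 m), pre (ai1_rd p.2.2) (h0 m))) (ai1_rd p.2.1) p.1

theorem ai1_g_primrec (n : ℕ) (g0 : ℕ × List Bool × List Bool → Bool) (h0 : ℕ → ℕ)
    (hg : Primrec g0) (hh : Primrec h0) : Primrec (ai1_g n g0 h0) := by
  have hm : Primrec (fun p : ℕ × List Bool × List Bool => p.1 / 4) :=
    Primrec.nat_div.comp Primrec.fst (Primrec.const 4)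
  have hr : Primrec (fun p : ℕ × List Bool × List Bool => p.1 % 4) :=
    Primrec.nat_mod.comp Primrec.fst (Primrec.const 4)
  have hlw : Primrec (fun p : ℕ × List Bool × List Bool => p.2.1) :=
    Primrec.fst.comp Primrec.snd
  have hly : Primrec (fun p : ℕ × List Bool × List Bool => p.2.2) :=
    Primrec.snd.comp Primrec.snd
  have hk : Primrec (fun p : ℕ × List Bool × List Bool => kind n (ai1_rd p.2.1)) :=
    (ai1_kind_primrec n).comp hlw
  have hi : Primrec (fun p : ℕ × List Bool × List Bool => (phase n (ai1_rd p.2.1)).getD 0) :=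
    (Primrec.option_getD).comp ((ai1_phase_primrec n).comp hlw) (Primrec.const 0)
  have hrd : ∀ {f : ℕ × List Bool × List Bool → ℕ}, Primrec f →
      Primrec (fun p : ℕ × List Bool × List Bool => ai1_rd p.2.1 (f p)) := fun hf =>
    ai1_rd_primrec.comp hlw hf
  -- the pieces
  have hW := hrd (ai1_cW_primrec.comp hm)
  have hw := hrd (ai1_cw_primrec.comp hm)
  have hc0 := hrd (ai1_cc_primrec.comp hm (Primrec.const 0))
  have hc1 := hrd (ai1_cc_primrec.comp (Primrec.fst.comp (Primrec.unpair.comp hm))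
    (Primrec.succ.comp (Primrec.snd.comp (Primrec.unpair.comp hm))))
  have hf0 := hrd (Primrec.const (cf 0))
  have hfm := hrd (ai1_cf_primrec.comp hm)
  have hh0 : Primrec (fun p : ℕ × List Bool × List Bool => h0 (p.1 / 4)) := hh.comp hm
  have hpW : Primrec (fun p : ℕ × List Bool × List Bool =>
      pre (fun j => ai1_rd p.2.1 (cW j)) (h0 (p.1 / 4))) := by
    unfold pre
    exact Primrec.list_map (Primrec.list_range.comp hh0)
      (ai1_rd_primrec.comp (hlw.comp Primrec.fst) (ai1_cW_primrec.comp Primrec.snd))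
  have hpy : Primrec (fun p : ℕ × List Bool × List Bool =>
      pre (ai1_rd p.2.2) (h0 (p.1 / 4))) := by
    unfold pre
    exact Primrec.list_map (Primrec.list_range.comp hh0)
      (ai1_rd_primrec.comp (hly.comp Primrec.fst) Primrec.snd)
  have ha0 : Primrec (fun p : ℕ × List Bool × List Bool =>
      g0 (p.1 / 4, pre (fun j => ai1_rd p.2.1 (cW j)) (h0 (p.1 / 4)),
        pre (ai1_rd p.2.2) (h0 (p.1 / 4)))) := hg.comp (hm.pair (hpW.pair hpy))
  have eqc : ∀ {f : ℕ × List Bool × List Bool → ℕ}, Primrec f → ∀ c : ℕ,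
      PrimrecPred (fun p => f p = c) := fun hf c => Primrec.eq.comp hf (Primrec.const c)
  have hin : PrimrecPred (fun p : ℕ × List Bool × List Bool =>
      (phase n (ai1_rd p.2.1)).getD 0 = n) := eqc hi n
  have hiln : PrimrecPred (fun p : ℕ × List Bool × List Bool =>
      (phase n (ai1_rd p.2.1)).getD 0 < n) := Primrec.nat_lt.comp hi (Primrec.const n)
  have hfalse : Primrec (fun _ : ℕ × List Bool × List Bool => false) := Primrec.const false
  have htrue : Primrec (fun _ : ℕ × List Bool × List Bool => true) := Primrec.const true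
  -- part 0
  have q0 := Primrec.ite ((eqc hk 1).and hin) hc0 hW
  have q1 := Primrec.ite ((eqc hk 1).and hiln) hc0
    (Primrec.ite (eqc hk 2) ha0 (Primrec.ite (eqc hk 4) hw hfalse))
  have q2 := Primrec.ite (eqc hk 4) (Primrec.or.comp (Primrec.not.comp hw) hc1) hfalse
  have d1 : Primrec (fun p : ℕ × List Bool × List Bool =>
      decide (kind n (ai1_rd p.2.1) = 0 ∨ kind n (ai1_rd p.2.1) = 3 ∨
        (kind n (ai1_rd p.2.1) = 1 ∧ (phase n (ai1_rd p.2.1)).getD 0 = n))) :=
    ((eqc hk 0).or ((eqc hk 3).or ((eqc hk 1).and hin))).decide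
  have d2 : Primrec (fun p : ℕ × List Bool × List Bool => decide (p.1 / 4 = 3)) :=
    (eqc hm 3).decide
  have d3 : Primrec (fun p : ℕ × List Bool × List Bool =>
      decide (p.1 / 4 = 3 + (phase n (ai1_rd p.2.1)).getD 0 + 1)) :=
    (Primrec.eq.comp hm (Primrec.succ.comp (Primrec.nat_add.comp (Primrec.const 3) hi))).decide
  have q3 := Primrec.ite (eqc hm 0)
      (Primrec.ite ((eqc hk 2).or (eqc hk 4)) (Primrec.not.comp hf0) htrue)
      (Primrec.ite (eqc hm 1) (Primrec.ite ((eqc hk 2).or (eqc hk 4)) hf0 hfalse)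
        (Primrec.ite (eqc hm 2) d1
          (Primrec.ite (eqc hk 4) hfm
            (Primrec.ite (eqc hk 2) d2
              (Primrec.ite ((eqc hk 1).and hiln) d3 hfalse)))))
  have q := Primrec.ite (eqc hr 0) q0 (Primrec.ite (eqc hr 1) q1 (Primrec.ite (eqc hr 2) q2 q3))
  exact q.of_eq (fun p => rfl)

/-- the bound for the cells which are read -/
def ai1_h (n : ℕ) (h0 : ℕ → ℕ) (idx : ℕ) : ℕ :=
  h0 (idx / 4) + cW (h0 (idx / 4)) + cW (idx / 4) + cw (idx / 4) + cc (idx / 4) 0 +
    cc (idx / 4).unpair.1 ((idx / 4).unpair.2 + 1) + cf (idx / 4) + cf (3 + n) + 40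

theorem ai1_h_primrec (n : ℕ) (h0 : ℕ → ℕ) (hh : Primrec h0) : Primrec (ai1_h n h0) := by
  have hm : Primrec (fun idx : ℕ => idx / 4) := Primrec.nat_div.comp Primrec.id (Primrec.const 4)
  have a1 := hh.comp hm
  have a2 := ai1_cW_primrec.comp a1
  have a3 := ai1_cW_primrec.comp hm
  have a4 := ai1_cw_primrec.comp hm
  have a5 := ai1_cc_primrec.comp hm (Primrec.const 0)
  have a6 := ai1_cc_primrec.comp (Primrec.fst.comp (Primrec.unpair.comp hm))
    (Primrec.succ.comp (Primrec.snd.comp (Primrec.unpair.comp hm)))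
  have a7 := ai1_cf_primrec.comp hm
  have a8 : Primrec (fun _ : ℕ => cf (3 + n)) := Primrec.const _
  have a9 : Primrec (fun _ : ℕ => 40) := Primrec.const _
  exact Primrec.nat_add.comp (Primrec.nat_add.comp (Primrec.nat_add.comp (Primrec.nat_add.comp
    (Primrec.nat_add.comp (Primrec.nat_add.comp (Primrec.nat_add.comp (Primrec.nat_add.comp
      a1 a2) a3) a4) a5) a6) a7) a8) a9

theorem ai1_rd_pre (w : Cantor) (N k : ℕ) (h : k < N) : ai1_rd (pre w N) k = w k := by
  unfold ai1_rd
  rw [List.getD_eq_getElem?_getD, getElem?_pre, if_pos h]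
  rfl

theorem ai1_find_congr (n : ℕ) (p q : ℕ → Bool) (h : ∀ i < n, p i = q i) :
    (List.range n).find? p = (List.range n).find? q := by
  induction n with
  | zero => rfl
  | succ n ih =>
    rw [List.range_succ, List.find?_append, List.find?_append,
      ih (fun i hi => h i (Nat.lt_succ_of_lt hi))]
    congr 1
    rw [List.find?_singleton, List.find?_singleton, h n (Nat.lt_succ_self n)]

theorem ai1_phase_congr (n : ℕ) (s t : Cantor) (h : ∀ k ≤ cf (3 + n), s k = t k) :
    phase n s = phase n t := by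
  unfold phase
  apply ai1_find_congr
  intro i hi
  apply h
  unfold cf
  omega

theorem ai1_kind_congr (n : ℕ) (s t : Cantor) (h : ∀ k ≤ cf (3 + n), s k = t k) :
    kind n s = kind n t := by
  unfold kind
  rw [ai1_phase_congr n s t h, h (cf 0) (by unfold cf; omega), h (cf 1) (by unfold cf; omega),
    h (cf 2) (by unfold cf; omega)]

theorem ai1_pre_congr (s t : Cantor) (N : ℕ) (h : ∀ k < N, s k = t k) : pre s N = pre t N := by
  unfold pre
  apply List.map_congr_left
  intro k hk
  exact h k (List.mem_range.1 hk)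

theorem ai_proc (n : ℕ) (g0 : ℕ × List Bool × List Bool → Bool) (h0 : ℕ → ℕ) (hg : Primrec g0)
    (hh : Primrec h0) : ∃ P : LProc, ∀ y st,
      Loc P y st = aiNext n (fun W m => g0 (m, pre W (h0 m), pre y (h0 m))) st := by
  refine ⟨⟨ai1_g n g0 h0, ai1_g_primrec n g0 h0 hg hh, ai1_h n h0, ai1_h_primrec n h0 hh⟩, ?_⟩
  intro y st
  funext idx
  obtain ⟨N, hN⟩ : ∃ N, N = ai1_h n h0 idx := ⟨_, rfl⟩
  show aiNext n (fun W m => g0 (m, pre W (h0 m), pre (ai1_rd (pre y (ai1_h n h0 idx))) (h0 m)))
    (ai1_rd (pre st (ai1_h n h0 idx))) idx = _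
  rw [← hN]
  have e1 : ∀ k < N, ai1_rd (pre st N) k = st k := fun k hk => ai1_rd_pre st N k hk
  have e2 : ∀ k < N, ai1_rd (pre y N) k = y k := fun k hk => ai1_rd_pre y N k hk
  have hNv : N = h0 (idx / 4) + cW (h0 (idx / 4)) + cW (idx / 4) + cw (idx / 4) + cc (idx / 4) 0 +
    cc (idx / 4).unpair.1 ((idx / 4).unpair.2 + 1) + cf (idx / 4) + cf (3 + n) + 40 := hN
  have f1 : ∀ k ≤ cf (3 + n), ai1_rd (pre st N) k = st k := fun k hk => e1 k (by omega)
  have k1 : kind n (ai1_rd (pre st N)) = kind n st := ai1_kind_congr n _ _ f1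
  have k2 : phase n (ai1_rd (pre st N)) = phase n st := ai1_phase_congr n _ _ f1
  have k3 : pre (ai1_rd (pre y N)) (h0 (idx / 4)) = pre y (h0 (idx / 4)) :=
    ai1_pre_congr _ _ _ (fun k hk => e2 k (by omega))
  have k4 : pre (fun j => ai1_rd (pre st N) (cW j)) (h0 (idx / 4)) =
      pre (fun j => st (cW j)) (h0 (idx / 4)) :=
    ai1_pre_congr _ _ _ (fun k hk => e1 _ (by unfold cW at *; omega))
  have c1 := e1 (cc (idx / 4) 0) (by omega)
  have c2 := e1 (cW (idx / 4)) (by omega)
  have c3 := e1 (cw (idx / 4)) (by omega)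
  have c4 := e1 (cc (idx / 4).unpair.1 ((idx / 4).unpair.2 + 1)) (by omega)
  have c5 := e1 (cf 0) (by unfold cf at *; omega)
  have c6 := e1 (cf (idx / 4)) (by omega)
  simp only [aiNext, k1, k2, k3, k4, c1, c2, c3, c4, c5, c6]

end Pool.Agent.HT
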