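import Pool.Agent.Helper85.HT.Defs3

set_option autoImplicit false

/-!
# Module AI2: one macro step of the simulating process
-/

namespace Pool.Agent.HT

open Ordinal

/-- `k` alternations -/
def alt : ℕ → (ℕ → Prop) → ℕ → Prop
  | 0, a, m => a m
  | k + 1, a, m => ∃ b, ¬ alt k a (Nat.pair m b)

/-- fresh state with main array `W` -/
structure Fresh (st W : Cantor) : Prop where
  p0 : st (cf 0) = true
  p1 : st (cf 1) = false
  e : st (cf 2) = true
  f : ∀ i, st (cf (3 + i)) = false
  W : ∀ m, st (cW m) = W m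
  c : ∀ m j, st (cc m j) = false

/-! ### limits of length `ω` -/

theorem ai2_isSuccLimit (s : Ordinal.{0}) : Order.IsSuccLimit (s + ω) :=
  Ordinal.isSuccLimit_add s Ordinal.isSuccLimit_omega0

theorem ai2_cases {s t : Ordinal.{0}} (h1 : s ≤ t) (h2 : t < s + ω) : ∃ k : ℕ, t = s + (k : Ordinal.{0}) := by
  have h3 : s + (t - s) = t := Ordinal.add_sub_cancel_of_le h1
  have h4 : t - s < ω := by
    have : s + (t - s) < s + ω := by rw [h3]; exact h2
    exact lt_of_add_lt_add_left this
  obtain ⟨k, hk⟩ := Ordinal.lt_omega0.1 h4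
  exact ⟨k, by rw [← hk, h3]⟩

theorem ai2_omega (F : Cantor → Cantor) (s : Ordinal.{0}) (m : ℕ) :
    titer F (s + ω) m = true ↔
      ∀ N : ℕ, ∃ k : ℕ, N ≤ k ∧ titer F (s + (k : Ordinal.{0})) m = true := by
  rw [titer_limit F (ai2_isSuccLimit s)]
  constructor
  · intro h N
    obtain ⟨b, h1, h2, h3⟩ := h (s + (N : Ordinal.{0}))
      (by exact (add_lt_add_iff_left s).2 (Ordinal.natCast_lt_omega0 N))
    obtain ⟨k, rfl⟩ := ai2_cases (le_trans (by simp) h1) h2
    refine ⟨k, ?_, h3⟩
    have h4 : (N : Ordinal.{0}) ≤ (k : Ordinal.{0}) := le_of_add_le_add_left h1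
    exact_mod_cast h4
  · intro h a ha
    by_cases has : s ≤ a
    · obtain ⟨N, rfl⟩ := ai2_cases has ha
      obtain ⟨k, h1, h2⟩ := h N
      refine ⟨s + (k : Ordinal.{0}), ?_, ?_, h2⟩
      · have : (N : Ordinal.{0}) ≤ (k : Ordinal.{0}) := by exact_mod_cast h1
        gcongr
      · exact (add_lt_add_iff_left s).2 (Ordinal.natCast_lt_omega0 k)
    · obtain ⟨k, h1, h2⟩ := h 0
      refine ⟨s + (k : Ordinal.{0}), ?_, ?_, h2⟩
      · exact le_trans (le_of_lt (not_le.1 has)) (by simp)
      · exact (add_lt_add_iff_left s).2 (Ordinal.natCast_lt_omega0 k)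

/-- a cell which is constant from time `s` on keeps its value at time `s + ω` -/
theorem ai2_omega_const (F : Cantor → Cantor) (s : Ordinal.{0}) (m : ℕ) (v : Bool)
    (h : ∀ k : ℕ, titer F (s + (k : Ordinal.{0})) m = v) : titer F (s + ω) m = v := by
  cases v with
  | true => exact (ai2_omega F s m).2 (fun N => ⟨N, le_rfl, h N⟩)
  | false =>
    by_contra hc
    have hc' : titer F (s + ω) m = true := by simpa using hc
    obtain ⟨k, _, hk⟩ := (ai2_omega F s m).1 hc' 0
    rw [h k] at hk
    exact Bool.noConfusion hk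

/-! ### running states -/

/-- running state: phase `i`, clock `k`, arrays `W`, `w` -/
structure AI2Run (i k : ℕ) (st W w : Cantor) : Prop where
  p : st (cf 1) = !st (cf 0)
  e : st (cf 2) = false
  f : ∀ j, st (cf (3 + j)) = decide (j = i)
  W : ∀ m, st (cW m) = W m
  hw : ∀ m, st (cw m) = w m
  c : ∀ m j, st (cc m j) = true ↔ ∃ j', j ≤ j' ∧ j' < j + k ∧ w (Nat.pair m j') = false

/-- end of a phase -/
structure AI2End (i : ℕ) (st W w : Cantor) : Prop where
  p0 : st (cf 0) = true
  p1 : st (cf 1) = true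
  e : st (cf 2) = false
  f : ∀ j, st (cf (3 + j)) = decide (j = i)
  W : ∀ m, st (cW m) = W m
  c : ∀ m, st (cc m 0) = true ↔ ∃ j, w (Nat.pair m j) = false

theorem ai2_phase {n i : ℕ} {st : Cantor} (hi : i ≤ n)
    (hf : ∀ j, st (cf (3 + j)) = decide (j = i)) : phase n st = some i := by
  unfold phase
  rw [List.find?_eq_some_iff_getElem]
  refine ⟨by rw [hf]; simp, i, by simp; omega, by simp, ?_⟩
  intro j hj
  simp only [List.getElem_range, hf]
  simp; omega

theorem ai2_kind_fresh {n : ℕ} {st W : Cantor} (h : Fresh st W) : kind n st = 2 := by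
  unfold kind
  rw [h.p0, h.p1, h.e]; simp

theorem ai2_kind_run {n i k : ℕ} {st W w : Cantor} (hi : i ≤ n) (h : AI2Run i k st W w) :
    kind n st = 4 := by
  unfold kind
  rw [h.p, h.e, ai2_phase hi h.f]; simp

theorem ai2_kind_end {n i : ℕ} {st W w : Cantor} (h : AI2End i st W w) :
    kind n st = 1 := by
  unfold kind
  rw [h.p0, h.p1, h.e]; simp

/-! ### evaluation of the next state -/

theorem ai2_next_W (n : ℕ) (a0 : Cantor → ℕ → Bool) (st : Cantor) (m : ℕ) :
    aiNext n a0 st (cW m) =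
      if kind n st = 1 ∧ (phase n st).getD 0 = n then st (cc m 0) else st (cW m) := by
  unfold aiNext
  have h1 : cW m % 4 = 0 := by unfold cW; omega
  have h2 : cW m / 4 = m := by unfold cW; omega
  simp only [h1, h2, if_true]

theorem ai2_next_w (n : ℕ) (a0 : Cantor → ℕ → Bool) (st : Cantor) (m : ℕ) :
    aiNext n a0 st (cw m) =
      if kind n st = 1 ∧ (phase n st).getD 0 < n then st (cc m 0)
      else if kind n st = 2 then a0 (fun j => st (cW j)) m
      else if kind n st = 4 then st (cw m) else false := by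
  unfold aiNext
  have h1 : cw m % 4 = 1 := by unfold cw; omega
  have h2 : cw m / 4 = m := by unfold cw; omega
  simp only [h1, h2, if_true, one_ne_zero, if_false]

theorem ai2_next_c (n : ℕ) (a0 : Cantor → ℕ → Bool) (st : Cantor) (m j : ℕ) :
    aiNext n a0 st (cc m j) =
      if kind n st = 4 then (!st (cw (Nat.pair m j))) || st (cc m (j + 1)) else false := by
  unfold aiNext
  have h1 : cc m j % 4 = 2 := by unfold cc; omega
  have h2 : cc m j / 4 = Nat.pair m j := by unfold cc; omega
  simp only [h1, h2, if_true, Nat.unpair_pair]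
  simp

theorem ai2_next_f (n : ℕ) (a0 : Cantor → ℕ → Bool) (st : Cantor) (m : ℕ) :
    aiNext n a0 st (cf m) =
      (if m = 0 then (if kind n st = 2 ∨ kind n st = 4 then !st (cf 0) else true)
     else if m = 1 then (if kind n st = 2 ∨ kind n st = 4 then st (cf 0) else false)
     else if m = 2 then decide (kind n st = 0 ∨ kind n st = 3 ∨
        (kind n st = 1 ∧ (phase n st).getD 0 = n))
     else if kind n st = 4 then st (cf m)
     else if kind n st = 2 then decide (m = 3)
     else if kind n st = 1 ∧ (phase n st).getD 0 < n then decide (m = 3 + (phase n st).getD 0 + 1)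
     else false) := by
  unfold aiNext
  have h1 : cf m % 4 = 3 := by unfold cf; omega
  have h2 : cf m / 4 = m := by unfold cf; omega
  simp only [h1, h2]
  simp

theorem ai2_fresh_step {n : ℕ} {a0 : Cantor → ℕ → Bool} {st W : Cantor} (h : Fresh st W) :
    AI2Run 0 0 (aiNext n a0 st) W (a0 W) := by
  have hk : kind n st = 2 := ai2_kind_fresh h
  have hW : (fun j => st (cW j)) = W := funext h.W
  refine ⟨?_, ?_, ?_, ?_, ?_, ?_⟩
  · rw [ai2_next_f, ai2_next_f, hk]; simp
  · rw [ai2_next_f, hk]; simp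
  · intro j
    rw [ai2_next_f, hk]
    have h0 : (3 + j = 0) = False := by simp
    have h1 : (3 + j = 1) = False := by simp; omega
    have h2 : (3 + j = 2) = False := by simp; omega
    simp [h1, h2]
  · intro m; rw [ai2_next_W, hk]; simp [h.W]
  · intro m; rw [ai2_next_w, hk, hW]; simp
  · intro m j; rw [ai2_next_c, hk]
    constructor
    · intro h; simp at h
    · rintro ⟨j', h1, h2, _⟩; omega

theorem ai2_run_step {n i k : ℕ} {a0 : Cantor → ℕ → Bool} {st W w : Cantor} (hi : i ≤ n)
    (h : AI2Run i k st W w) :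
    AI2Run i (k + 1) (aiNext n a0 st) W w ∧ aiNext n a0 st (cf 0) = !st (cf 0) := by
  have hk : kind n st = 4 := ai2_kind_run hi h
  refine ⟨⟨?_, ?_, ?_, ?_, ?_, ?_⟩, ?_⟩
  · rw [ai2_next_f, ai2_next_f, hk]; simp
  · rw [ai2_next_f, hk]; simp
  · intro j
    rw [ai2_next_f, hk]
    have h1 : (3 + j = 1) = False := by simp; omega
    have h2 : (3 + j = 2) = False := by simp; omega
    simp [h1, h2, h.f]
  · intro m; rw [ai2_next_W, hk]; simp [h.W]
  · intro m; rw [ai2_next_w, hk]; simp [h.hw]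
  · intro m j; rw [ai2_next_c, hk]
    simp only [if_true, Bool.or_eq_true, Bool.not_eq_true', h.hw, h.c]
    constructor
    · rintro (h1 | ⟨j', h1, h2, h3⟩)
      · exact ⟨j, le_rfl, by omega, h1⟩
      · exact ⟨j', by omega, by omega, h3⟩
    · rintro ⟨j', h1, h2, h3⟩
      rcases Nat.eq_or_lt_of_le h1 with h4 | h4
      · left; rw [h4]; exact h3
      · right; exact ⟨j', by omega, by omega, h3⟩
  · rw [ai2_next_f, hk]; simp

theorem ai2_end_step_lt {n i : ℕ} {a0 : Cantor → ℕ → Bool} {st W w w' : Cantor} (hi : i < n)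
    (h : AI2End i st W w) (hw : ∀ m, w' m = true ↔ ∃ j, w (Nat.pair m j) = false) :
    AI2Run (i + 1) 0 (aiNext n a0 st) W w' := by
  have hk : kind n st = 1 := ai2_kind_end h
  have hp : (phase n st).getD 0 = i := by rw [ai2_phase hi.le h.f]; rfl
  refine ⟨?_, ?_, ?_, ?_, ?_, ?_⟩
  · rw [ai2_next_f, ai2_next_f, hk]; simp
  · rw [ai2_next_f, hk, hp]; simp; omega
  · intro j
    rw [ai2_next_f, hk, hp]
    have h1 : (3 + j = 1) = False := by simp; omega
    have h2 : (3 + j = 2) = False := by simp; omega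
    have h3 : (3 + j = 3 + i + 1) ↔ (j = i + 1) := by omega
    simp [h1, h2, hi, h3]
  · intro m; rw [ai2_next_W, hk, hp]
    have : ¬ (i = n) := by omega
    simp [this, h.W]
  · intro m; rw [ai2_next_w, hk, hp]
    simp only [hi, and_self, if_true]
    rw [Bool.eq_iff_iff, h.c, hw]
  · intro m j; rw [ai2_next_c, hk]
    constructor
    · intro h; simp at h
    · rintro ⟨j', h1, h2, _⟩; omega

theorem ai2_end_step_eq {n : ℕ} {a0 : Cantor → ℕ → Bool} {st W w w' : Cantor}
    (h : AI2End n st W w) (hw : ∀ m, w' m = true ↔ ∃ j, w (Nat.pair m j) = false) :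
    Fresh (aiNext n a0 st) w' := by
  have hk : kind n st = 1 := ai2_kind_end h
  have hp : (phase n st).getD 0 = n := by rw [ai2_phase le_rfl h.f]; rfl
  refine ⟨?_, ?_, ?_, ?_, ?_, ?_⟩
  · rw [ai2_next_f, hk]; simp
  · rw [ai2_next_f, hk]; simp
  · rw [ai2_next_f, hk, hp]; simp
  · intro j
    rw [ai2_next_f, hk, hp]
    have h1 : (3 + j = 1) = False := by simp; omega
    have h2 : (3 + j = 2) = False := by simp; omega
    simp [h1, h2]
  · intro m; rw [ai2_next_W, hk, hp]
    simp only [and_self, if_true]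
    rw [Bool.eq_iff_iff, h.c, hw]
  · intro m j; rw [ai2_next_c, hk]; simp

/-! ### one phase -/

theorem ai2_add_succ (s : Ordinal.{0}) (k : ℕ) :
    s + ((k + 1 : ℕ) : Ordinal.{0}) = (s + (k : Ordinal.{0})) + 1 := by
  rw [Nat.cast_succ, add_assoc]

theorem ai2_run_iter {n i : ℕ} {a0 : Cantor → ℕ → Bool} {W w : Cantor} (hi : i ≤ n)
    {s : Ordinal.{0}} (h : AI2Run i 0 (titer (aiNext n a0) s) W w) (k : ℕ) :
    AI2Run i k (titer (aiNext n a0) (s + (k : Ordinal.{0}))) W w := by
  induction k with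
  | zero => simpa using h
  | succ k ih =>
    rw [ai2_add_succ, titer_add_one]
    exact (ai2_run_step hi ih).1

theorem ai2_run_toggle {n i : ℕ} {a0 : Cantor → ℕ → Bool} {W w : Cantor} (hi : i ≤ n)
    {s : Ordinal.{0}} (h : AI2Run i 0 (titer (aiNext n a0) s) W w) (k : ℕ) :
    titer (aiNext n a0) (s + ((k + 1 : ℕ) : Ordinal.{0})) (cf 0) =
      !titer (aiNext n a0) (s + (k : Ordinal.{0})) (cf 0) := by
  rw [ai2_add_succ, titer_add_one]
  exact (ai2_run_step hi (ai2_run_iter hi h k)).2

theorem ai2_run_limit {n i : ℕ} {a0 : Cantor → ℕ → Bool} {W w : Cantor} (hi : i ≤ n)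
    {s : Ordinal.{0}} (h : AI2Run i 0 (titer (aiNext n a0) s) W w) :
    AI2End i (titer (aiNext n a0) (s + ω)) W w := by
  have hr := ai2_run_iter hi h
  have ht := ai2_run_toggle hi h
  refine ⟨?_, ?_, ?_, ?_, ?_, ?_⟩
  · rw [ai2_omega]
    intro N
    by_cases hN : titer (aiNext n a0) (s + (N : Ordinal.{0})) (cf 0) = true
    · exact ⟨N, le_rfl, hN⟩
    · refine ⟨N + 1, by omega, ?_⟩
      rw [ht]; simpa using hN
  · rw [ai2_omega]
    intro N
    by_cases hN : titer (aiNext n a0) (s + (N : Ordinal.{0})) (cf 1) = true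
    · exact ⟨N, le_rfl, hN⟩
    · refine ⟨N + 1, by omega, ?_⟩
      rw [(hr (N + 1)).p, ht, Bool.not_not]
      rw [(hr N).p] at hN
      simpa using hN
  · exact ai2_omega_const _ _ _ _ (fun k => (hr k).e)
  · intro j; exact ai2_omega_const _ _ _ _ (fun k => (hr k).f j)
  · intro m; exact ai2_omega_const _ _ _ _ (fun k => (hr k).W m)
  · intro m
    rw [ai2_omega]
    constructor
    · intro h1
      obtain ⟨k, _, hk⟩ := h1 0
      obtain ⟨j, _, _, hj⟩ := ((hr k).c m 0).1 hk
      exact ⟨j, hj⟩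
    · rintro ⟨j, hj⟩ N
      refine ⟨N + j + 1, by omega, ?_⟩
      rw [(hr (N + j + 1)).c]
      exact ⟨j, by omega, by omega, hj⟩

/-! ### all phases -/

open Classical in
theorem ai2_phases (n : ℕ) (a0 : Cantor → ℕ → Bool) (b : Ordinal.{0}) (W : Cantor)
    (hW : Fresh (titer (aiNext n a0) (b + 1)) W) (i : ℕ) (hi : i ≤ n) :
    ∃ r : ℕ, 
      AI2Run i 0 (titer (aiNext n a0) (b + ω * (i : Ordinal.{0}) + (r : Ordinal.{0}))) W
        (fun m => decide (alt i (fun j => a0 W j = true) m)) ∧
      ∀ t, b < t → t ≤ b + ω * (i : Ordinal.{0}) + (r : Ordinal.{0}) →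
        ∀ m, titer (aiNext n a0) t (cW m) = W m := by
  induction i with
  | zero =>
    refine ⟨2, ?_, ?_⟩
    · have h1 : b + ω * ((0 : ℕ) : Ordinal.{0}) + ((2 : ℕ) : Ordinal.{0}) = (b + 1) + 1 := by
        simp only [Nat.cast_zero, mul_zero, add_zero]
        rw [add_assoc]; norm_num
      rw [h1, titer_add_one]
      have h2 : (fun m => decide (alt 0 (fun j => a0 W j = true) m)) = a0 W := by
        funext m; simp [alt]
      rw [h2]
      exact ai2_fresh_step hW
    · intro t ht1 ht2 m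
      simp only [Nat.cast_zero, mul_zero, add_zero] at ht2
      have h3 : b + 1 ≤ t := by
        exact Order.add_one_le_of_lt ht1
      rcases lt_or_eq_of_le ht2 with h4 | h4
      · have h5 : t = b + 1 := by
          apply le_antisymm _ h3
          have h6 : t < (b + 1) + 1 := by
            refine lt_of_lt_of_eq h4 ?_
            rw [add_assoc]; norm_num
          exact Order.lt_add_one_iff.1 h6
        rw [h5]; exact hW.W m
      · have h5 : t = (b + 1) + 1 := by rw [h4, add_assoc]; norm_num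
        rw [h5, titer_add_one]
        exact (ai2_fresh_step hW).W m
  | succ i ih =>
    obtain ⟨r, h1, h2⟩ := ih (by omega)
    have hlim : b + ω * (i : Ordinal.{0}) + (r : Ordinal.{0}) + ω =
        b + ω * ((i + 1 : ℕ) : Ordinal.{0}) := by
      rw [add_assoc, Ordinal.natCast_add_omega0, Nat.cast_succ, mul_add, mul_one, add_assoc]
    have hE := ai2_run_limit (by omega : i ≤ n) h1
    rw [hlim] at hE
    have hstep : AI2Run (i + 1) 0
        (titer (aiNext n a0) (b + ω * ((i + 1 : ℕ) : Ordinal.{0}) + ((1 : ℕ) : Ordinal.{0}))) W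
        (fun m => decide (alt (i + 1) (fun j => a0 W j = true) m)) := by
      rw [Nat.cast_one, titer_add_one]
      apply ai2_end_step_lt (by omega) hE
      intro m
      simp only [decide_eq_true_eq, decide_eq_false_iff_not]
      exact Iff.rfl
    refine ⟨1, hstep, ?_⟩
    intro t ht1 ht2 m
    by_cases hts : t ≤ b + ω * (i : Ordinal.{0}) + (r : Ordinal.{0})
    · exact h2 t ht1 hts m
    push Not at hts
    by_cases htl : t < b + ω * (i : Ordinal.{0}) + (r : Ordinal.{0}) + ω
    · obtain ⟨k, rfl⟩ := ai2_cases hts.le htl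
      exact (ai2_run_iter (by omega : i ≤ n) h1 k).W m
    · push Not at htl
      rw [hlim] at htl
      rcases lt_or_eq_of_le htl with h5 | h5
      · have h6 : t = b + ω * ((i + 1 : ℕ) : Ordinal.{0}) + ((1 : ℕ) : Ordinal.{0}) := by
          apply le_antisymm ht2
          rw [Nat.cast_one]
          exact Order.add_one_le_of_lt h5
        rw [h6]; exact hstep.W m
      · rw [← h5]; exact hE.W m

theorem ai_block (n : ℕ) (a0 : Cantor → ℕ → Bool) (G : Cantor → Cantor)
    (hG : ∀ W m, G W m = true ↔ alt (n + 1) (fun j => a0 W j = true) m)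
    (b : Ordinal.{0}) (hb : b = 0 ∨ Order.IsSuccLimit b) (W : Cantor)
    (hW : Fresh (titer (aiNext n a0) (b + 1)) W) :
    (∀ t, b < t → t ≤ b + ω * ((n + 1 : ℕ) : Ordinal.{0}) →
      ∀ m, titer (aiNext n a0) t (cW m) = W m) ∧
    Fresh (titer (aiNext n a0) (b + ω * ((n + 1 : ℕ) : Ordinal.{0}) + 1)) (G W) := by
  classical
  obtain ⟨r, h1, h2⟩ := ai2_phases n a0 b W hW n le_rfl
  have hlim : b + ω * (n : Ordinal.{0}) + (r : Ordinal.{0}) + ω =
      b + ω * ((n + 1 : ℕ) : Ordinal.{0}) := by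
    rw [add_assoc, Ordinal.natCast_add_omega0, Nat.cast_succ, mul_add, mul_one, add_assoc]
  have hE := ai2_run_limit le_rfl h1
  rw [hlim] at hE
  refine ⟨?_, ?_⟩
  · intro t ht1 ht2 m
    by_cases hts : t ≤ b + ω * (n : Ordinal.{0}) + (r : Ordinal.{0})
    · exact h2 t ht1 hts m
    push Not at hts
    by_cases htl : t < b + ω * (n : Ordinal.{0}) + (r : Ordinal.{0}) + ω
    · obtain ⟨k, rfl⟩ := ai2_cases hts.le htl
      exact (ai2_run_iter le_rfl h1 k).W m
    · push Not at htl
      rw [hlim] at htl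
      rw [le_antisymm ht2 htl]; exact hE.W m
  · rw [titer_add_one]
    apply ai2_end_step_eq hE
    intro m
    rw [hG]
    simp only [decide_eq_false_iff_not]
    exact Iff.rfl

end Pool.Agent.HT
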