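import Pool.Agent.Helper85.HT.AI2

set_option autoImplicit false

/-!
# Module AI3: the whole run of the simulating process
-/

namespace Pool.Agent.HT

open Ordinal

/-- length of a macro step -/
noncomputable def ai3D (n : ℕ) : Ordinal.{0} := ω * ((n + 1 : ℕ) : Ordinal.{0})

theorem ai3_D_limit (n : ℕ) : Order.IsSuccLimit (ai3D n) := by
  unfold ai3D
  apply Ordinal.isSuccLimit_mul_left Ordinal.isSuccLimit_omega0
  exact_mod_cast Nat.succ_pos n

theorem ai3_D_pos (n : ℕ) : 0 < ai3D n := (ai3_D_limit n).bot_lt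

theorem ai3_T_succ (n : ℕ) (ν : Ordinal.{0}) :
    ai3D n * (ν + 1) = ai3D n * ν + ω * ((n + 1 : ℕ) : Ordinal.{0}) := by
  rw [mul_add, mul_one]; rfl

theorem ai3_T_hb (n : ℕ) (ν : Ordinal.{0}) :
    ai3D n * ν = 0 ∨ Order.IsSuccLimit (ai3D n * ν) := by
  rcases eq_or_ne ν 0 with h | h
  · left; rw [h, mul_zero]
  · right; exact Ordinal.isSuccLimit_mul_left (ai3_D_limit n) (pos_iff_ne_zero.2 h)

theorem ai3_T_lt {n : ℕ} {μ ν : Ordinal.{0}} : ai3D n * μ < ai3D n * ν ↔ μ < ν :=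
  (Ordinal.isNormal_mul_right (ai3_D_pos n)).strictMono.lt_iff_lt

theorem ai3_T_le {n : ℕ} {μ ν : Ordinal.{0}} : ai3D n * μ ≤ ai3D n * ν ↔ μ ≤ ν :=
  (Ordinal.isNormal_mul_right (ai3_D_pos n)).strictMono.le_iff_le

theorem ai3_le_T (n : ℕ) (μ : Ordinal.{0}) : μ ≤ ai3D n * μ :=
  (Ordinal.isNormal_mul_right (ai3_D_pos n)).strictMono.le_apply

/-- the state at time `ai3D n * ν` and one step later -/
def AI3P (n : ℕ) (a0 : Cantor → ℕ → Bool) (G : Cantor → Cantor) (ν : Ordinal.{0}) : Prop :=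
  Fresh (titer (aiNext n a0) (ai3D n * ν + 1)) (titer G ν) ∧
    ((ν = 0 ∨ Order.IsSuccLimit ν) → ∀ m, titer (aiNext n a0) (ai3D n * ν) (cW m) = titer G ν m)

theorem ai3_value (n : ℕ) (a0 : Cantor → ℕ → Bool) (G : Cantor → Cantor)
    (hG : ∀ W m, G W m = true ↔ alt (n + 1) (fun j => a0 W j = true) m)
    (t : Ordinal.{0}) (hP : ∀ μ, ai3D n * μ ≤ t → AI3P n a0 G μ) :
    ∃ μ, ai3D n * μ ≤ t ∧ t ≤ ai3D n * (μ + 1) ∧
      ∀ m, titer (aiNext n a0) t (cW m) = titer G μ m := by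
  have hD : ai3D n ≠ 0 := (ai3_D_pos n).ne'
  have h1 : ai3D n * (t / ai3D n) ≤ t := Ordinal.mul_div_le t (ai3D n)
  have h2 : t < ai3D n * (t / ai3D n + 1) := by
    have := Ordinal.lt_mul_succ_div t hD
    exact this
  have hkey : ∀ μ, ai3D n * μ < t → t ≤ ai3D n * (μ + 1) →
      ∀ m, titer (aiNext n a0) t (cW m) = titer G μ m := by
    intro μ h3 h4 m
    have h5 := ai_block n a0 G hG (ai3D n * μ) (ai3_T_hb n μ) (titer G μ) (hP μ h3.le).1
    exact h5.1 t h3 (by rw [← ai3_T_succ]; exact h4) m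
  rcases lt_or_eq_of_le h1 with h3 | h3
  · exact ⟨_, h1, h2.le, hkey _ h3 h2.le⟩
  · rcases Ordinal.zero_or_succ_or_isSuccLimit (t / ai3D n) with h4 | ⟨μ, h4⟩ | h4
    · refine ⟨_, h1, h2.le, ?_⟩
      intro m
      have := (hP _ h1).2 (Or.inl h4) m
      rw [← this, h3]
    · have h4' : t / ai3D n = μ + 1 := h4.symm
      refine ⟨μ, ?_, ?_, ?_⟩
      · refine le_trans ?_ h1
        rw [ai3_T_le, h4']
        exact le_self_add
      · rw [← h4', h3]
      · apply hkey μ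
        · rw [← h3, h4', ai3_T_lt]
          exact lt_add_one μ
        · rw [← h4', h3]
    · refine ⟨_, h1, h2.le, ?_⟩
      intro m
      have := (hP _ h1).2 (Or.inr h4) m
      rw [← this, h3]

/-- the step at a macro-limit -/
theorem ai3_limit_step {n : ℕ} {a0 : Cantor → ℕ → Bool} {st W : Cantor}
    (h0 : st (cf 0) = true) (h1 : st (cf 1) = true) (h2 : st (cf 2) = true)
    (hW : ∀ m, st (cW m) = W m) : Fresh (aiNext n a0 st) W := by
  have hk : kind n st = 0 := by unfold kind; rw [h0, h1, h2]; simp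
  refine ⟨?_, ?_, ?_, ?_, ?_, ?_⟩
  · rw [ai2_next_f, hk]; simp
  · rw [ai2_next_f, hk]; simp
  · rw [ai2_next_f, hk]; simp
  · intro j
    rw [ai2_next_f, hk]
    have h1 : (3 + j = 1) = False := by simp; omega
    have h2 : (3 + j = 2) = False := by simp; omega
    simp [h1, h2]
  · intro m; rw [ai2_next_W, hk]; simp [hW]
  · intro m j; rw [ai2_next_c, hk]; simp

/-- the first step -/
theorem ai3_zero_step {n : ℕ} {a0 : Cantor → ℕ → Bool} :
    Fresh (aiNext n a0 (fun _ => false)) (fun _ => false) := by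
  have hp : phase n (fun _ => false) = none := by
    unfold phase; simp
  have hk : kind n (fun _ => false) = 3 := by unfold kind; rw [hp]; simp
  refine ⟨?_, ?_, ?_, ?_, ?_, ?_⟩
  · rw [ai2_next_f, hk]; simp
  · rw [ai2_next_f, hk]; simp
  · rw [ai2_next_f, hk]; simp
  · intro j
    rw [ai2_next_f, hk]
    have h1 : (3 + j = 1) = False := by simp; omega
    have h2 : (3 + j = 2) = False := by simp; omega
    simp [h1, h2]
  · intro m; rw [ai2_next_W, hk]; simp
  · intro m j; rw [ai2_next_c, hk]; simp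

theorem ai3_P (n : ℕ) (a0 : Cantor → ℕ → Bool) (G : Cantor → Cantor)
    (hG : ∀ W m, G W m = true ↔ alt (n + 1) (fun j => a0 W j = true) m)
    (ν : Ordinal.{0}) : AI3P n a0 G ν := by
  induction ν using WellFoundedLT.induction with
  | ind ν ih =>
  rcases Ordinal.zero_or_succ_or_isSuccLimit ν with h | ⟨μ, h⟩ | h
  · subst h
    refine ⟨?_, ?_⟩
    · rw [mul_zero, titer_add_one, titer_zero, titer_zero]
      exact ai3_zero_step
    · intro _ m
      rw [mul_zero, titer_zero, titer_zero]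
  · have h' : ν = μ + 1 := h.symm
    refine ⟨?_, ?_⟩
    · have h5 := ai_block n a0 G hG (ai3D n * μ) (ai3_T_hb n μ) (titer G μ)
        (ih μ (by rw [h']; exact lt_add_one μ)).1
      rw [h', ai3_T_succ, titer_add_one (F := G)]
      exact h5.2
    · intro hν m
      exfalso
      rcases hν with h0 | hl
      · rw [h'] at h0
        exact absurd h0 (by simp)
      · rw [← h] at hl
        exact Order.not_isSuccLimit_succ μ hl
  · -- limit case
    have hTl : Order.IsSuccLimit (ai3D n * ν) :=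
      Ordinal.isSuccLimit_mul_right (ai3_D_pos n) h
    have hTa : ∀ {a : Ordinal.{0}}, a < ai3D n * ν ↔ ∃ α < ν, a < ai3D n * α := 
      Ordinal.lt_mul_iff_of_isSuccLimit h
    have hadd : ∀ {a : Ordinal.{0}}, a < ai3D n * ν → a + 1 < ai3D n * ν := by
      intro a ha; exact hTl.succ_lt ha
    have hcW : ∀ m, titer (aiNext n a0) (ai3D n * ν) (cW m) = titer G ν m := by
      intro m
      rw [Bool.eq_iff_iff, titer_limit _ hTl, titer_limit _ h]
      constructor
      · intro h1 α hα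
        obtain ⟨t, ht1, ht2, ht3⟩ := h1 (ai3D n * α + 1) (hadd (ai3_T_lt.2 hα))
        obtain ⟨μ, hμ1, hμ2, hμ3⟩ := ai3_value n a0 G hG t
          (fun μ hμ => ih μ (ai3_T_lt.1 (lt_of_le_of_lt hμ ht2)))
        refine ⟨μ, ?_, ai3_T_lt.1 (lt_of_le_of_lt hμ1 ht2), ?_⟩
        · have h6 : ai3D n * α < ai3D n * (μ + 1) :=
            lt_of_lt_of_le (lt_of_lt_of_le (lt_add_one _) ht1) hμ2
          exact Order.lt_add_one_iff.1 (ai3_T_lt.1 h6)
        · rw [← hμ3]; exact ht3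
      · intro h1 a ha
        obtain ⟨α, hα, haα⟩ := hTa.1 ha
        obtain ⟨μ, hμ1, hμ2, hμ3⟩ := h1 α hα
        refine ⟨ai3D n * μ + 1, ?_, hadd (ai3_T_lt.2 hμ2), ?_⟩
        · exact le_trans haα.le (le_trans (ai3_T_le.2 hμ1) le_self_add)
        · rw [(ih μ hμ2).1.W]; exact hμ3
    have hflag : ∀ j, (j = 0 ∨ j = 2) → titer (aiNext n a0) (ai3D n * ν) (cf j) = true := by
      intro j hj
      rw [titer_limit _ hTl]
      intro a ha
      obtain ⟨α, hα, haα⟩ := hTa.1 ha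
      refine ⟨ai3D n * α + 1, le_trans haα.le le_self_add, hadd (ai3_T_lt.2 hα), ?_⟩
      rcases hj with rfl | rfl
      · exact (ih α hα).1.p0
      · exact (ih α hα).1.e
    have hflag1 : titer (aiNext n a0) (ai3D n * ν) (cf 1) = true := by
      rw [titer_limit _ hTl]
      intro a ha
      obtain ⟨α, hα, haα⟩ := hTa.1 ha
      refine ⟨ai3D n * α + 1 + 1, le_trans haα.le (le_trans le_self_add le_self_add),
        hadd (hadd (ai3_T_lt.2 hα)), ?_⟩
      rw [titer_add_one, ai2_next_f, ai2_kind_fresh (ih α hα).1, (ih α hα).1.p0]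
      simp
    refine ⟨?_, fun _ => hcW⟩
    rw [titer_add_one]
    exact ai3_limit_step (hflag 0 (Or.inl rfl)) hflag1 (hflag 2 (Or.inr rfl)) hcW

theorem ai_sim (n : ℕ) (a0 : Cantor → ℕ → Bool) (G : Cantor → Cantor)
    (hG : ∀ W m, G W m = true ↔ alt (n + 1) (fun j => a0 W j = true) m) (m : ℕ) :
    (∀ ν, titer G ν m = true → ∃ b, titer (aiNext n a0) b (cW m) = true) ∧
    (∀ b, titer (aiNext n a0) b (cW m) = true → ∃ ν ≤ b, titer G ν m = true) := by
  refine ⟨?_, ?_⟩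
  · intro ν hν
    exact ⟨ai3D n * ν + 1, by rw [(ai3_P n a0 G hG ν).1.W]; exact hν⟩
  · intro b hb
    obtain ⟨μ, h1, _, h3⟩ := ai3_value n a0 G hG b (fun μ _ => ai3_P n a0 G hG μ)
    exact ⟨μ, le_trans (ai3_le_T n μ) h1, by rw [← h3]; exact hb⟩

end Pool.Agent.HT
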