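import Pool.Agent.Helper85.HT.Defs3

set_option autoImplicit false

/-!
# AR2 : normal form of arithmetical predicates
-/

namespace Pool.Agent.HT

open Ordinal

/-! ### local predicates -/

theorem ar2_take_pre (w : Cantor) {m n : ℕ} (h : m ≤ n) : (pre w n).take m = pre w m := by
  unfold pre
  rw [← List.map_take, List.take_range, Nat.min_eq_left h]

theorem LocalP.not {P : Cantor → Cantor → ℕ → Prop} (h : LocalP P) :
    LocalP (fun y W a => ¬ P y W a) := by
  obtain ⟨g, k, hg, hk, hP⟩ := h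
  refine ⟨fun t => !g t, k, Primrec.not.comp hg, hk, fun y W a => ?_⟩
  beta_reduce
  rw [hP]
  cases g (a, pre W (k a), pre y (k a)) <;> simp

theorem ar2_local_congr {P Q : Cantor → Cantor → ℕ → Prop} (h : LocalP P)
    (hPQ : ∀ y W a, P y W a ↔ Q y W a) : LocalP Q := by
  obtain ⟨g, k, hg, hk, hP⟩ := h
  exact ⟨g, k, hg, hk, fun y W a => by rw [← hPQ, hP]⟩

theorem ar2_local_comp {P : Cantor → Cantor → ℕ → Prop} (h : LocalP P) {f : ℕ → ℕ}
    (hf : Primrec f) : LocalP (fun y W a => P y W (f a)) := by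
  obtain ⟨g, k, hg, hk, hP⟩ := h
  refine ⟨fun t => g (f t.1, t.2.1, t.2.2), fun a => k (f a), ?_, hk.comp hf, fun y W a => ?_⟩
  · exact hg.comp (Primrec.pair (hf.comp Primrec.fst) (Primrec.pair
      (Primrec.fst.comp Primrec.snd) (Primrec.snd.comp Primrec.snd)))
  · beta_reduce
    rw [hP]

theorem ar2_local_and {P Q : Cantor → Cantor → ℕ → Prop} (h : LocalP P) (h' : LocalP Q) :
    LocalP (fun y W a => P y W a ∧ Q y W a) := by
  obtain ⟨g, k, hg, hk, hP⟩ := h
  obtain ⟨g', k', hg', hk', hQ⟩ := h'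
  refine ⟨fun t => g (t.1, t.2.1.take (k t.1), t.2.2.take (k t.1)) &&
    g' (t.1, t.2.1.take (k' t.1), t.2.2.take (k' t.1)), fun a => k a + k' a, ?_,
    Primrec.nat_add.comp hk hk', fun y W a => ?_⟩
  · have e1 : Primrec (fun t : ℕ × List Bool × List Bool => t.2.1) :=
      Primrec.fst.comp Primrec.snd
    have e2 : Primrec (fun t : ℕ × List Bool × List Bool => t.2.2) :=
      Primrec.snd.comp Primrec.snd
    refine Primrec.and.comp (hg.comp (Primrec.pair Primrec.fst (Primrec.pair ?_ ?_)))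
      (hg'.comp (Primrec.pair Primrec.fst (Primrec.pair ?_ ?_)))
    · exact Primrec.list_take.comp (hk.comp Primrec.fst) e1
    · exact Primrec.list_take.comp (hk.comp Primrec.fst) e2
    · exact Primrec.list_take.comp (hk'.comp Primrec.fst) e1
    · exact Primrec.list_take.comp (hk'.comp Primrec.fst) e2
  · beta_reduce
    rw [hP, hQ]
    simp only [Bool.and_eq_true]
    rw [ar2_take_pre W (Nat.le_add_right _ _), ar2_take_pre y (Nat.le_add_right _ _),
      ar2_take_pre W (Nat.le_add_left _ _), ar2_take_pre y (Nat.le_add_left _ _)]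

theorem ar2_local_or {P Q : Cantor → Cantor → ℕ → Prop} (h : LocalP P) (h' : LocalP Q) :
    LocalP (fun y W a => P y W a ∨ Q y W a) := by
  refine ar2_local_congr (ar2_local_and h.not h'.not).not fun y W a => ?_
  tauto

/-! ### the hierarchy -/

theorem ar2_congr {n : ℕ} {P Q : Cantor → Cantor → ℕ → Prop} (h : Sig n P)
    (hPQ : ∀ y W a, P y W a ↔ Q y W a) : Sig n Q := by
  cases n with
  | zero => exact ar2_local_congr h hPQ
  | succ n =>
    obtain ⟨R, hR, hPR⟩ := h
    exact ⟨R, hR, fun y W a => by rw [← hPQ, hPR]⟩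

theorem ar2_comp {n : ℕ} {P : Cantor → Cantor → ℕ → Prop} (h : Sig n P) {f : ℕ → ℕ}
    (hf : Primrec f) : Sig n (fun y W a => P y W (f a)) := by
  induction n generalizing P f with
  | zero => exact ar2_local_comp h hf
  | succ n ih =>
    obtain ⟨R, hR, hPR⟩ := h
    refine ⟨fun y W c => R y W (Nat.pair (f c.unpair.1) c.unpair.2), ?_, fun y W a => ?_⟩
    · refine ih hR (f := fun c => Nat.pair (f c.unpair.1) c.unpair.2) ?_
      exact Primrec₂.natPair.comp (hf.comp (Primrec.fst.comp Primrec.unpair))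
        (Primrec.snd.comp Primrec.unpair)
    · beta_reduce
      rw [hPR]
      simp only [Nat.unpair_pair]

theorem ar2_fst : Primrec (fun c : ℕ => c.unpair.1) := Primrec.fst.comp Primrec.unpair

theorem ar2_snd : Primrec (fun c : ℕ => c.unpair.2) := Primrec.snd.comp Primrec.unpair

theorem ar2_and_or {n : ℕ} {P Q : Cantor → Cantor → ℕ → Prop} (h : Sig n P) (h' : Sig n Q) :
    Sig n (fun y W a => P y W a ∧ Q y W a) ∧ Sig n (fun y W a => P y W a ∨ Q y W a) := by
  induction n generalizing P Q with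
  | zero => exact ⟨ar2_local_and h h', ar2_local_or h h'⟩
  | succ n ih =>
    obtain ⟨R, hR, hPR⟩ := h
    obtain ⟨R', hR', hQR⟩ := h'
    constructor
    · have e1 : Primrec (fun c : ℕ => Nat.pair c.unpair.1 c.unpair.2.unpair.1) :=
        Primrec₂.natPair.comp ar2_fst (ar2_fst.comp ar2_snd)
      have e2 : Primrec (fun c : ℕ => Nat.pair c.unpair.1 c.unpair.2.unpair.2) :=
        Primrec₂.natPair.comp ar2_fst (ar2_snd.comp ar2_snd)
      refine ⟨_, (ih (ar2_comp hR e1) (ar2_comp hR' e2)).2, fun y W a => ?_⟩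
      beta_reduce
      rw [hPR, hQR]
      simp only [Nat.unpair_pair]
      constructor
      · rintro ⟨⟨b, hb⟩, ⟨c, hc⟩⟩
        refine ⟨Nat.pair b c, ?_⟩
        simp only [Nat.unpair_pair]
        exact fun h => h.elim hb hc
      · rintro ⟨d, hd⟩
        exact ⟨⟨d.unpair.1, fun h => hd (Or.inl h)⟩, ⟨d.unpair.2, fun h => hd (Or.inr h)⟩⟩
    · refine ⟨_, (ih hR hR').1, fun y W a => ?_⟩
      beta_reduce
      rw [hPR, hQR]
      constructor
      · rintro (⟨b, hb⟩ | ⟨b, hb⟩)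
        · exact ⟨b, fun h => hb h.1⟩
        · exact ⟨b, fun h => hb h.2⟩
      · rintro ⟨b, hb⟩
        by_cases h1 : R y W (Nat.pair a b)
        · exact Or.inr ⟨b, fun h2 => hb ⟨h1, h2⟩⟩
        · exact Or.inl ⟨b, h1⟩

theorem ar2_not {n : ℕ} {P : Cantor → Cantor → ℕ → Prop} (h : Sig n P) :
    Sig (n + 1) (fun y W a => ¬ P y W a) := by
  refine ⟨fun y W c => P y W c.unpair.1, ar2_comp h ar2_fst, fun y W a => ?_⟩
  simp only [Nat.unpair_pair, exists_const]

theorem ar2_mono {n : ℕ} {P : Cantor → Cantor → ℕ → Prop} (h : Sig n P) : Sig (n + 1) P := by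
  induction n generalizing P with
  | zero =>
    refine ⟨fun y W c => ¬ P y W c.unpair.1, ar2_local_comp (LocalP.not h) ar2_fst,
      fun y W a => ?_⟩
    simp only [Nat.unpair_pair, not_not, exists_const]
  | succ n ih =>
    obtain ⟨R, hR, hPR⟩ := h
    exact ⟨R, ih hR, hPR⟩

theorem ar2_mono_le {n m : ℕ} (hnm : n ≤ m) {P : Cantor → Cantor → ℕ → Prop} (h : Sig n P) :
    Sig m P := by
  induction hnm with
  | refl => exact h
  | step _ ih => exact ar2_mono ih

theorem ar2_ex {n : ℕ} {P : Cantor → Cantor → ℕ → Prop} (h : Sig (n + 1) P) :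
    Sig (n + 1) (fun y W a => ∃ b, P y W (Nat.pair a b)) := by
  obtain ⟨R, hR, hPR⟩ := h
  have e1 : Primrec (fun c : ℕ =>
      Nat.pair (Nat.pair c.unpair.1 c.unpair.2.unpair.1) c.unpair.2.unpair.2) :=
    Primrec₂.natPair.comp (Primrec₂.natPair.comp ar2_fst (ar2_fst.comp ar2_snd))
      (ar2_snd.comp ar2_snd)
  refine ⟨_, ar2_comp hR e1, fun y W a => ?_⟩
  simp only [Nat.unpair_pair]
  constructor
  · rintro ⟨b, hb⟩
    obtain ⟨c, hc⟩ := (hPR _ _ _).1 hb
    refine ⟨Nat.pair b c, ?_⟩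
    simpa only [Nat.unpair_pair] using hc
  · rintro ⟨d, hd⟩
    exact ⟨d.unpair.1, (hPR _ _ _).2 ⟨d.unpair.2, hd⟩⟩

theorem ar2_local_prim {R : ℕ → Bool} (h : Primrec R) : LocalP (fun _ _ a => R a = true) :=
  ⟨fun t => R t.1, fun _ => 0, h.comp Primrec.fst, Primrec.const 0, fun _ _ _ => Iff.rfl⟩

theorem ar2_local_orW {f : ℕ → ℕ} (h : Primrec f) : LocalP (fun _ W a => W (f a) = true) := by
  refine ⟨fun t => t.2.1.getD (f t.1) false, fun a => f a + 1, ?_, Primrec.succ.comp h,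
    fun y W a => ?_⟩
  · exact (Primrec.list_getD false).comp (Primrec.fst.comp Primrec.snd) (h.comp Primrec.fst)
  · simp only [List.getD_eq_getElem?_getD, getElem?_pre, Nat.lt_succ_self, if_true,
      Option.getD_some]

theorem ar2_local_ory {f : ℕ → ℕ} (h : Primrec f) : LocalP (fun y _ a => y (f a) = true) := by
  refine ⟨fun t => t.2.2.getD (f t.1) false, fun a => f a + 1, ?_, Primrec.succ.comp h,
    fun y W a => ?_⟩
  · exact (Primrec.list_getD false).comp (Primrec.snd.comp Primrec.snd) (h.comp Primrec.fst)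
  · simp only [List.getD_eq_getElem?_getD, getElem?_pre, Nat.lt_succ_self, if_true,
      Option.getD_some]

theorem Ar.sig {P : Cantor → Cantor → ℕ → Prop} (h : Ar P) : ∃ n, Sig (n + 1) P := by
  induction h with
  | prim R h => exact ⟨0, ar2_mono (n := 0) (ar2_local_prim h)⟩
  | orW f h => exact ⟨0, ar2_mono (n := 0) (ar2_local_orW h)⟩
  | ory f h => exact ⟨0, ar2_mono (n := 0) (ar2_local_ory h)⟩
  | not _ ih =>
    obtain ⟨n, hn⟩ := ih
    exact ⟨n + 1, ar2_not hn⟩
  | and _ _ ih ih' =>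
    obtain ⟨n, hn⟩ := ih
    obtain ⟨m, hm⟩ := ih'
    exact ⟨max n m, (ar2_and_or (ar2_mono_le (by omega) hn) (ar2_mono_le (by omega) hm)).1⟩
  | ex _ ih =>
    obtain ⟨n, hn⟩ := ih
    exact ⟨n, ar2_ex hn⟩

end Pool.Agent.HT
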