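import Pool.Agent.Helper85.HT.AR1
import Pool.Agent.Helper85.HT.AR2
import Pool.Agent.Helper85.HT.AI1
import Pool.Agent.Helper85.HT.AI2
import Pool.Agent.Helper85.HT.AI3

set_option autoImplicit false

/-!
# Arithmetical operators are run by local processes
-/

namespace Pool.Agent.HT

open Ordinal

theorem Sig.alt_form {n : ℕ} {P : Cantor → Cantor → ℕ → Prop} (h : Sig n P) :
    ∃ Q, LocalP Q ∧ ∀ y W a, P y W a ↔ alt n (fun j => Q y W j) a := by
  induction n generalizing P with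
  | zero => exact ⟨P, h, fun y W a => Iff.rfl⟩
  | succ n ih =>
    obtain ⟨Q, hQ, hPQ⟩ := h
    obtain ⟨R, hR, hQR⟩ := ih hQ
    refine ⟨R, hR, fun y W a => ?_⟩
    rw [hPQ]
    constructor
    · rintro ⟨b, hb⟩
      exact ⟨b, fun h => hb ((hQR _ _ _).2 h)⟩
    · rintro ⟨b, hb⟩
      exact ⟨b, fun h => hb ((hQR _ _ _).1 h)⟩

theorem arith_lproc (G : Cantor → Cantor → Cantor) (hG : ArOp G) :
    ∃ (P : LProc) (cell : ℕ → ℕ), cell 0 = 0 ∧ ∀ y m,
      (∀ ν, titer (G y) ν m = true → ∃ b, titer (Loc P y) b (cell m) = true) ∧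
      (∀ b, titer (Loc P y) b (cell m) = true → ∃ ν ≤ b, titer (G y) ν m = true) := by
  obtain ⟨n, hn⟩ := Ar.sig hG
  obtain ⟨Q, ⟨g0, h0, hg, hh, hQ⟩, hGQ⟩ := hn.alt_form
  obtain ⟨P, hP⟩ := ai_proc n g0 h0 hg hh
  refine ⟨P, cW, rfl, fun y m => ?_⟩
  have hPy : Loc P y = aiNext n (fun W m => g0 (m, pre W (h0 m), pre y (h0 m))) :=
    funext (fun st => hP y st)
  rw [hPy]
  refine ai_sim n _ (G y) (fun W m => ?_) m
  rw [hGQ y W m]
  have : (fun j => Q y W j) = fun j => g0 (j, pre W (h0 j), pre y (h0 j)) = true := by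
    funext j; exact propext (hQ y W j)
  rw [this]

end Pool.Agent.HT
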