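import Pool.Agent.Helper85.HT.Defs3

set_option autoImplicit false

/-!
# Module AR1: closure properties of arithmetical predicates
-/

namespace Pool.Agent.HT

open Ordinal

theorem Ar.congr {P Q : Cantor → Cantor → ℕ → Prop} (h : Ar P) (hPQ : ∀ y W a, P y W a ↔ Q y W a) :
    Ar Q := by
  have e : P = Q := by
    funext y W a
    exact propext (hPQ y W a)
  exact e ▸ h

theorem Ar.comp {P : Cantor → Cantor → ℕ → Prop} (h : Ar P) {f : ℕ → ℕ} (hf : Primrec f) :
    Ar (fun y W a => P y W (f a)) := by
  induction h generalizing f with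
  | prim R hR => exact Ar.prim (fun a => R (f a)) (hR.comp hf)
  | orW g hg => exact Ar.orW (fun a => g (f a)) (hg.comp hf)
  | ory g hg => exact Ar.ory (fun a => g (f a)) (hg.comp hf)
  | not h ih => exact (ih hf).not
  | and h h' ih ih' => exact (ih hf).and (ih' hf)
  | ex h ih =>
    have hg : Primrec (fun c : ℕ => Nat.pair (f c.unpair.1) c.unpair.2) :=
      Primrec₂.natPair.comp (hf.comp (Primrec.fst.comp Primrec.unpair))
        (Primrec.snd.comp Primrec.unpair)
    refine (ih hg).ex.congr ?_
    intro y W a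
    simp

/-- substitution of an arithmetical operator for `W` -/
theorem Ar.subst {P : Cantor → Cantor → ℕ → Prop} (h : Ar P) {F : Cantor → Cantor → Cantor}
    (hF : ArOp F) : Ar (fun y W a => P y (F y W) a) := by
  induction h with
  | prim R hR => exact Ar.prim R hR
  | orW g hg => exact Ar.comp hF hg
  | ory g hg => exact Ar.ory g hg
  | not h ih => exact ih.not
  | and h h' ih ih' => exact ih.and ih'
  | ex h ih => exact ih.ex

section
variable {α β γ : Type} [Primcodable α] [Primcodable β] [Primcodable γ]

theorem ar1_isSome : Primrec (fun a : ℕ => (Encodable.decode (α := α) a).isSome) :=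
  Primrec.option_isSome.comp Primrec.decode

theorem ar1_norm : Primrec (fun a : ℕ => Encodable.encode (Encodable.decode (α := α) a) - 1) :=
  Primrec.nat_sub.comp (Primrec.encode.comp Primrec.decode) (Primrec.const 1)

/-- a criterion for `ArP` -/
theorem ar1_mk {P : Cantor → Cantor → α → Prop} {Q : Cantor → Cantor → ℕ → Prop} (hQ : Ar Q)
    (h : ∀ y W x, Q y W (Encodable.encode x) ↔ P y W x) : ArP P := by
  refine ((Ar.prim _ (ar1_isSome (α := α))).and (hQ.comp (ar1_norm (α := α)))).congr ?_
  intro y W a
  cases hd : Encodable.decode (α := α) a with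
  | none => simp
  | some x => simp [h]

theorem ar1_hat {P : Cantor → Cantor → α → Prop} (y W : Cantor) (x : α) :
    (∃ x' : α, Encodable.decode (α := α) (Encodable.encode x) = some x' ∧ P y W x') ↔ P y W x := by
  simp

theorem ArP.congr {P Q : Cantor → Cantor → α → Prop} (h : ArP P)
    (hPQ : ∀ y W a, P y W a ↔ Q y W a) : ArP Q := by
  have e : P = Q := by
    funext y W a
    exact propext (hPQ y W a)
  exact e ▸ h

theorem arP_nat {P : Cantor → Cantor → ℕ → Prop} : ArP P ↔ Ar P := by
  have e : (fun (y W : Cantor) (a : ℕ) =>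
      ∃ x : ℕ, Encodable.decode (α := ℕ) a = some x ∧ P y W x) = P := by
    funext y W a
    simp
  unfold ArP
  rw [e]

theorem ArP.prim {R : α → Bool} (h : Primrec R) : ArP (fun _ _ a => R a = true) := by
  have hR : Primrec (fun a : ℕ => ((Encodable.decode (α := α) a).map R).getD false) :=
    Primrec.option_getD.comp
      (Primrec.option_map Primrec.decode (h.comp Primrec.snd).to₂) (Primrec.const false)
  refine ar1_mk (Ar.prim _ hR) ?_
  intro y W x
  simp

theorem ArP.const (p : Prop) : ArP (fun _ _ (_ : α) => p) := by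
  classical
  refine (ArP.prim (α := α) (R := fun _ => decide p) (Primrec.const _)).congr ?_
  intro y W a
  simp

theorem ArP.primPred {R : α → Prop} (h : PrimrecPred R) : ArP (fun _ _ a => R a) := by
  obtain ⟨_, h⟩ := h
  refine (ArP.prim h).congr ?_
  intro y W a
  simp

/-- total extension of a function to codes -/
theorem ar1_ext {f : α → β} (hf : Primrec f) :
    Primrec (fun a : ℕ => Encodable.encode ((Encodable.decode (α := α) a).map f) - 1) :=
  Primrec.nat_sub.comp (Primrec.encode.comp
    (Primrec.option_map Primrec.decode (hf.comp Primrec.snd).to₂)) (Primrec.const 1)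

theorem ArP.orW {f : α → ℕ} (h : Primrec f) : ArP (fun _ W a => W (f a) = true) := by
  refine ar1_mk (Ar.orW _ (ar1_ext h)) ?_
  intro y W x
  simp

theorem ArP.ory {f : α → ℕ} (h : Primrec f) : ArP (fun y _ a => y (f a) = true) := by
  refine ar1_mk (Ar.ory _ (ar1_ext h)) ?_
  intro y W x
  simp

theorem ArP.not {P : Cantor → Cantor → α → Prop} (h : ArP P) : ArP (fun y W a => ¬ P y W a) := by
  refine ar1_mk (Ar.not h) ?_
  intro y W x
  exact not_congr (ar1_hat y W x)

theorem ArP.and {P Q : Cantor → Cantor → α → Prop} (h : ArP P) (h' : ArP Q) :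
    ArP (fun y W a => P y W a ∧ Q y W a) := by
  refine ar1_mk (Ar.and h h') ?_
  intro y W x
  exact and_congr (ar1_hat y W x) (ar1_hat y W x)

theorem ArP.or {P Q : Cantor → Cantor → α → Prop} (h : ArP P) (h' : ArP Q) :
    ArP (fun y W a => P y W a ∨ Q y W a) := by
  refine (ArP.not (ArP.and (ArP.not h) (ArP.not h'))).congr ?_
  intro y W a
  tauto

theorem ArP.imp {P Q : Cantor → Cantor → α → Prop} (h : ArP P) (h' : ArP Q) :
    ArP (fun y W a => P y W a → Q y W a) := by
  refine (ArP.or (ArP.not h) h').congr ?_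
  intro y W a
  tauto

theorem ArP.iff {P Q : Cantor → Cantor → α → Prop} (h : ArP P) (h' : ArP Q) :
    ArP (fun y W a => P y W a ↔ Q y W a) := by
  refine (ArP.and (ArP.imp h h') (ArP.imp h' h)).congr ?_
  intro y W a
  tauto

theorem ArP.comp {P : Cantor → Cantor → β → Prop} (h : ArP P) {f : α → β} (hf : Primrec f) :
    ArP (fun y W a => P y W (f a)) := by
  refine ar1_mk (Ar.comp h (ar1_ext hf)) ?_
  intro y W x
  simp

theorem ArP.ex {P : Cantor → Cantor → α × β → Prop} (h : ArP P) :
    ArP (fun y W a => ∃ b, P y W (a, b)) := by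
  refine ar1_mk (Ar.ex h) ?_
  intro y W x
  constructor
  · rintro ⟨n, z, hz, hP⟩
    rw [Encodable.decode_prod_val] at hz
    simp only [Nat.unpair_pair, Encodable.encodek, Option.bind_some, Option.map_eq_some_iff] at hz
    obtain ⟨b, -, rfl⟩ := hz
    exact ⟨b, hP⟩
  · rintro ⟨b, hP⟩
    refine ⟨Encodable.encode b, (x, b), ?_, hP⟩
    rw [← Encodable.encode_prod_val, Encodable.encodek]

theorem ArP.all {P : Cantor → Cantor → α × β → Prop} (h : ArP P) :
    ArP (fun y W a => ∀ b, P y W (a, b)) := by
  refine (ArP.not (ArP.ex (ArP.not h))).congr ?_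
  intro y W a
  push Not
  exact Iff.rfl

/-- case distinction on an option -/
theorem ArP.optCases {P : Cantor → Cantor → α → Prop} {Q : Cantor → Cantor → α × β → Prop}
    (h : ArP P) (h' : ArP Q) {f : α → Option β} (hf : Primrec f) :
    ArP (fun y W a => match f a with | none => P y W a | some b => Q y W (a, b)) := by
  have h1 : ArP (fun (_ _ : Cantor) (a : α) => (f a).isNone = true) := by
    refine (ArP.not (ArP.prim (Primrec.option_isSome.comp hf))).congr ?_
    intro y W a
    cases f a <;> simp
  have h2 : ArP (fun (_ _ : Cantor) (z : α × β) =>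
      Encodable.encode (f z.1) = Encodable.encode z.2 + 1) :=
    ArP.primPred (PrimrecRel.comp Primrec.eq (Primrec.encode.comp (hf.comp Primrec.fst))
      (Primrec.succ.comp (Primrec.encode.comp Primrec.snd)))
  refine (ArP.or (ArP.and h1 h) (ArP.ex (ArP.and h2 h'))).congr ?_
  intro y W a
  cases hfa : f a with
  | none => simp [hfa]
  | some b => simp [hfa]

/-- bounded quantifiers over lists -/
theorem ArP.exList {P : Cantor → Cantor → α × β → Prop} (h : ArP P) {f : α → List β}
    (hf : Primrec f) : ArP (fun y W a => ∃ b ∈ f a, P y W (a, b)) := by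
  have hg : Primrec (fun z : α × ℕ => (f z.1)[z.2]?) :=
    Primrec.list_getElem?.comp (hf.comp Primrec.fst) Primrec.snd
  have hQ : ArP (fun y W (z : (α × ℕ) × β) => P y W (z.1.1, z.2)) :=
    ArP.comp h (Primrec.pair (Primrec.fst.comp Primrec.fst) Primrec.snd)
  refine (ArP.ex (ArP.optCases (ArP.const (α := α × ℕ) False) hQ hg)).congr ?_
  intro y W a
  constructor
  · rintro ⟨n, hn⟩
    revert hn
    dsimp only
    cases hl : (f a)[n]? with
    | none => exact fun hn => hn.elim
    | some b => exact fun hn => ⟨b, List.mem_of_getElem? hl, hn⟩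
  · rintro ⟨b, hb, hP⟩
    obtain ⟨n, hn⟩ := List.mem_iff_getElem?.1 hb
    refine ⟨n, ?_⟩
    dsimp only
    rw [hn]
    exact hP

theorem ArP.allList {P : Cantor → Cantor → α × β → Prop} (h : ArP P) {f : α → List β}
    (hf : Primrec f) : ArP (fun y W a => ∀ b ∈ f a, P y W (a, b)) := by
  refine (ArP.not (ArP.exList (ArP.not h) hf)).congr ?_
  intro y W a
  push Not
  exact Iff.rfl

theorem ArP.subst {P : Cantor → Cantor → α → Prop} (h : ArP P) {F : Cantor → Cantor → Cantor}
    (hF : ArOp F) : ArP (fun y W a => P y (F y W) a) :=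
  Ar.subst h hF

end

end Pool.Agent.HT
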