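import Mathlib

set_option autoImplicit false

/-!
# Infinite time Turing machines and thin eventually semidecidable sets: definitions

Hamkins–Lewis machines with three tapes (input, scratch, output), the constructible hierarchy,
`lam x`, the set `S`, thin sets, and the statement of the problem.
-/

namespace Pool.Agent.HT

open Ordinal

/-- reals -/
abbrev Cantor : Type := ℕ → Bool

/-! ### Hamkins–Lewis machines -/

/-- An infinite time Turing machine: a finite set `Q` of states with a start state, a limit state
and a halt state, and a transition table.  `δ q b = (q', b', r)`: in state `q`, when the head reads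
the bits `b 0, b 1, b 2` on the three tapes, go to state `q'`, write the bits `b'` and move
right (`r = true`) or left (`r = false`, no move in cell `0`). -/
structure Prog where
  Q : Type
  fin : Finite Q
  start : Q
  lim : Q
  halt : Q
  δ : Q → (Fin 3 → Bool) → Q × (Fin 3 → Bool) × Bool

/-- a configuration -/
structure Cfg (Q : Type) where
  st : Q
  pos : ℕ
  tape : Fin 3 → ℕ → Bool

open Classical in
/-- one step; a halted computation does not move any more. -/
noncomputable def Prog.step (p : Prog) (c : Cfg p.Q) : Cfg p.Q :=
  if c.st = p.halt then c else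
    let o := p.δ c.st (fun i => c.tape i c.pos)
    { st := o.1
      pos := if o.2.2 then c.pos + 1 else c.pos - 1
      tape := fun i j => if j = c.pos then o.2.1 i else c.tape i j }

/-- the initial configuration: `x` on the input tape, the other tapes are blank. -/
def Prog.init (p : Prog) (x : Cantor) : Cfg p.Q where
  st := p.start
  pos := 0
  tape := fun i j => if i = 0 then x j else false

open Classical in
/-- `limsup` of the values below `o` of a transfinite sequence of bits. -/
noncomputable def limsupBit (o : Ordinal.{0}) (f : ∀ a : Ordinal.{0}, a < o → Bool) : Bool :=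
  decide (∀ a, a < o → ∃ b, ∃ hb : b < o, a ≤ b ∧ f b hb = true)

open Classical in
/-- The configuration at a limit stage: every cell takes the limsup of its earlier values, the head
is in cell `0` and the machine is in the limit state (a computation which has halted stays
halted). -/
noncomputable def Prog.limit (p : Prog) (o : Ordinal.{0})
    (f : ∀ a : Ordinal.{0}, a < o → Cfg p.Q) : Cfg p.Q where
  st := if ∃ a, ∃ ha : a < o, (f a ha).st = p.halt then p.halt else p.lim
  pos := 0
  tape := fun i j => limsupBit o (fun a ha => (f a ha).tape i j)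

/-- the configuration at stage `o` of the run of `p` on input `x`. -/
noncomputable def Prog.run (p : Prog) (x : Cantor) (o : Ordinal.{0}) : Cfg p.Q :=
  Ordinal.limitRecOn (motive := fun _ => Cfg p.Q) o (p.init x) (fun _ c => p.step c)
    (fun o _ f => p.limit o f)

/-- `p` halts on input `x`. -/
def Prog.Halts (p : Prog) (x : Cantor) : Prop := ∃ o, (p.run x o).st = p.halt

/-- from some stage on the output cell (cell `0` of the output tape) holds `1`. -/
def Prog.EvOne (p : Prog) (x : Cantor) : Prop :=
  ∃ a : Ordinal.{0}, ∀ b, a ≤ b → (p.run x b).tape 2 0 = true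

/-- semidecidable sets of reals -/
def Semidecidable (A : Set Cantor) : Prop := ∃ p : Prog, ∀ x, x ∈ A ↔ p.Halts x

/-- eventually semidecidable sets of reals -/
def EvSemidecidable (A : Set Cantor) : Prop := ∃ p : Prog, ∀ x, x ∈ A ↔ p.EvOne x

/-- thin sets: no closed subset is uncountable -/
def Thin (A : Set Cantor) : Prop := ∀ C : Set Cantor, IsClosed C → C ⊆ A → C.Countable

/-- `S` is the largest thin set in the class `C`. -/
def IsLargestThin (C : Set (Set Cantor)) (S : Set Cantor) : Prop :=
  S ∈ C ∧ Thin S ∧ ∀ A ∈ C, Thin A → A ⊆ S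

/-! ### writable ordinals -/

/-- the real `z` codes the ordinal `α`: the relation `{(i,j) | z (pair i j) = 1}` is a (reflexive)
well-order of its field `{i | z (pair i i) = 1}` of order type `α`. -/
def Codes (z : Cantor) (α : Ordinal.{0}) : Prop :=
  ∃ f : ℕ → Ordinal.{0}, Set.BijOn f {i | z (Nat.pair i i) = true} (Set.Iio α) ∧
    ∀ i j, z (Nat.pair i j) = true ↔
      z (Nat.pair i i) = true ∧ z (Nat.pair j j) = true ∧ f i ≤ f j

/-- `α` is `x`-writable: some program halts on input `x` with a code of `α` on the output tape. -/
def Writable (x : Cantor) (α : Ordinal.{0}) : Prop :=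
  ∃ (p : Prog) (o : Ordinal.{0}), (p.run x o).st = p.halt ∧ Codes ((p.run x o).tape 2) α

/-- the ordinal `λ^x` -/
noncomputable def lam (x : Cantor) : Ordinal.{0} := sSup {α | Writable x α}

/-! ### the constructible hierarchy -/

/-- formulas of the language of set theory, de Bruijn style -/
inductive Fml : Type
  | mem (i j : ℕ) : Fml
  | eq (i j : ℕ) : Fml
  | neg (φ : Fml) : Fml
  | and (φ ψ : Fml) : Fml
  | ex (φ : Fml) : Fml

/-- put `a` in front of the assignment `e`. -/
def scons {α : Type*} (a : α) (e : ℕ → α) : ℕ → α
  | 0 => a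
  | n + 1 => e n

/-- satisfaction in `(M, ∈)`. -/
def Sat (M : Set ZFSet.{0}) : Fml → (ℕ → ZFSet.{0}) → Prop
  | .mem i j, e => e i ∈ e j
  | .eq i j, e => e i = e j
  | .neg φ, e => ¬ Sat M φ e
  | .and φ ψ, e => Sat M φ e ∧ Sat M ψ e
  | .ex φ, e => ∃ a ∈ M, Sat M φ (scons a e)

/-- the subsets of `M` which are definable over `(M, ∈)` with parameters from `M`. -/
def DefSet (M : Set ZFSet.{0}) : Set ZFSet.{0} :=
  {X | ∃ (φ : Fml) (e : ℕ → ZFSet.{0}), (M.Nonempty → ∀ n, e n ∈ M) ∧
    ∀ y, y ∈ X ↔ y ∈ M ∧ Sat M φ (scons y e)}

/-- the levels `L_α` of the constructible hierarchy. -/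
noncomputable def Lset (α : Ordinal.{0}) : Set ZFSet.{0} :=
  ⋃ β : Set.Iio α, DefSet (Lset β.1)
termination_by α
decreasing_by exact β.2

/-- the von Neumann natural number `n`. -/
noncomputable def znat : ℕ → ZFSet.{0}
  | 0 => ∅
  | n + 1 => insert (znat n) (znat n)

/-- the real `x`, regarded as a subset of `ω`, is an element of `L_α`. -/
def InL (x : Cantor) (α : Ordinal.{0}) : Prop :=
  ∃ X ∈ Lset α, ∀ y, y ∈ X ↔ ∃ n, x n = true ∧ y = znat n

/-- the set `S = {x | x ∈ L_{λ^x}}`. -/
def S : Set Cantor := {x | InL x (lam x)}

end Pool.Agent.HT
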