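import Pool.Agent.Helper85.HT.Defs

set_option autoImplicit false

/-!
# Transfinite iteration with limsup, local processes, arithmetical predicates
-/

namespace Pool.Agent.HT

open Ordinal

theorem countable_Iio_iff {o : Ordinal.{0}} : (Set.Iio o).Countable ↔ o < ω₁ := by
  rw [← Cardinal.le_aleph0_iff_set_countable, Cardinal.mk_Iio_ordinal, Cardinal.lift_le_aleph0]
  have h1 : o < ω₁ ↔ o.card < Cardinal.aleph 1 := by
    rw [← Cardinal.ord_aleph, Cardinal.lt_ord]
  rw [h1, ← Order.lt_succ_iff, Cardinal.succ_aleph0]

/-- transfinite iteration of `F` from the zero real, with limsup at limit stages. -/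
noncomputable def titer (F : Cantor → Cantor) (o : Ordinal.{0}) : Cantor :=
  Ordinal.limitRecOn (motive := fun _ => Cantor) o (fun _ => false) (fun _ w => F w)
    (fun o _ f m => limsupBit o (fun a ha => f a ha m))

theorem titer_zero (F : Cantor → Cantor) : titer F 0 = fun _ => false := by
  unfold titer; exact Ordinal.limitRecOn_zero _ _ _

theorem titer_add_one (F : Cantor → Cantor) (o : Ordinal.{0}) :
    titer F (o + 1) = F (titer F o) := by
  unfold titer; exact Ordinal.limitRecOn_add_one _ _ _ _

open Classical in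
theorem titer_limit (F : Cantor → Cantor) {o : Ordinal.{0}} (ho : Order.IsSuccLimit o) (m : ℕ) :
    titer F o m = true ↔ ∀ a < o, ∃ b, a ≤ b ∧ b < o ∧ titer F b m = true := by
  have h : titer F o m = limsupBit o (fun a _ => titer F a m) := by
    unfold titer
    rw [Ordinal.limitRecOn_limit _ _ _ _ ho]
  rw [h]
  unfold limsupBit
  rw [decide_eq_true_iff]
  constructor
  · intro h a ha
    obtain ⟨b, hb, h1, h2⟩ := h a ha
    exact ⟨b, h1, hb, h2⟩
  · intro h a ha
    obtain ⟨b, h1, hb, h2⟩ := h a ha
    exact ⟨b, hb, h1, h2⟩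

theorem titer_limit_false (F : Cantor → Cantor) {o : Ordinal.{0}} (ho : Order.IsSuccLimit o)
    (m : ℕ) : titer F o m = false ↔ ∃ a < o, ∀ b, a ≤ b → b < o → titer F b m = false := by
  have h := titer_limit F ho m
  constructor
  · intro h1
    have h2 : ¬ (∀ a < o, ∃ b, a ≤ b ∧ b < o ∧ titer F b m = true) := by
      rw [← h, h1]; simp
    push Not at h2
    obtain ⟨a, ha, h3⟩ := h2
    exact ⟨a, ha, fun b hb hbo => by simpa using h3 b hb hbo⟩
  · rintro ⟨a, ha, h3⟩
    by_contra h4
    have h5 : titer F o m = true := by simpa using h4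
    obtain ⟨b, hb, hbo, h6⟩ := h.1 h5 a ha
    rw [h3 b hb hbo] at h6
    exact Bool.noConfusion h6

/-- the first `n` bits of `w` -/
def pre (w : Cantor) (n : ℕ) : List Bool := (List.range n).map w

theorem length_pre (w : Cantor) (n : ℕ) : (pre w n).length = n := by simp [pre]

theorem getElem?_pre (w : Cantor) (n i : ℕ) :
    (pre w n)[i]? = if i < n then some (w i) else none := by
  unfold pre
  by_cases h : i < n
  · simp [h]
  · simp [h]

/-- A local process: at every step all cells are updated, cell `m` by a primitive recursive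
function of the first `h m` bits of the state and of the input. -/
structure LProc where
  g : ℕ × List Bool × List Bool → Bool
  hg : Primrec g
  h : ℕ → ℕ
  hh : Primrec h

/-- the step function of the local process `P` on input `y`. -/
def Loc (P : LProc) (y : Cantor) (w : Cantor) : Cantor :=
  fun m => P.g (m, pre w (P.h m), pre y (P.h m))

/-- arithmetical predicates of `y`, `W` and a number -/
inductive Ar : (Cantor → Cantor → ℕ → Prop) → Prop
  | prim (R : ℕ → Bool) (h : Primrec R) : Ar (fun _ _ a => R a = true)
  | orW (f : ℕ → ℕ) (h : Primrec f) : Ar (fun _ W a => W (f a) = true)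
  | ory (f : ℕ → ℕ) (h : Primrec f) : Ar (fun y _ a => y (f a) = true)
  | not {P : Cantor → Cantor → ℕ → Prop} (h : Ar P) : Ar (fun y W a => ¬ P y W a)
  | and {P Q : Cantor → Cantor → ℕ → Prop} (h : Ar P) (h' : Ar Q) :
      Ar (fun y W a => P y W a ∧ Q y W a)
  | ex {P : Cantor → Cantor → ℕ → Prop} (h : Ar P) :
      Ar (fun y W a => ∃ b, P y W (Nat.pair a b))

/-- arithmetical operators -/
def ArOp (G : Cantor → Cantor → Cantor) : Prop := Ar (fun y W m => G y W m = true)

end Pool.Agent.HT
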