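import Pool.Agent.Helper85.HT.Defs2

set_option autoImplicit false

/-!
# Definitions for the modules AR (arithmetical predicates) and AI (local processes)
-/

namespace Pool.Agent.HT

open Ordinal

/-! ### arithmetical predicates on `Primcodable` types -/

/-- arithmetical predicates on a `Primcodable` type -/
def ArP {α : Type} [Primcodable α] (P : Cantor → Cantor → α → Prop) : Prop :=
  Ar (fun y W a => ∃ x : α, Encodable.decode (α := α) a = some x ∧ P y W x)

/-- local predicates: decided by finitely many bits of the oracles -/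
def LocalP (P : Cantor → Cantor → ℕ → Prop) : Prop :=
  ∃ (g : ℕ × List Bool × List Bool → Bool) (h : ℕ → ℕ), Primrec g ∧ Primrec h ∧
    ∀ y W a, P y W a ↔ g (a, pre W (h a), pre y (h a)) = true

/-- the alternating hierarchy over the local predicates -/
def Sig : ℕ → (Cantor → Cantor → ℕ → Prop) → Prop
  | 0, P => LocalP P
  | n + 1, P => ∃ Q, Sig n Q ∧ ∀ y W a, P y W a ↔ ∃ b, ¬ Q y W (Nat.pair a b)

/-! ### the local process of the module AI

Cells: `4*m` is `W m`, `4*m+1` is the work array `w m`, `4*(pair m j)+2` is the propagation cell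
`c m j`, `4*k+3` are flags: `k = 0, 1` the parity flags, `k = 2` the flag `e` (fresh),
`k = 3+i` the phase flag `f_i`, `i ≤ n`. -/

def cW (m : ℕ) : ℕ := 4 * m
def cw (m : ℕ) : ℕ := 4 * m + 1
def cc (m j : ℕ) : ℕ := 4 * Nat.pair m j + 2
def cf (k : ℕ) : ℕ := 4 * k + 3

/-- the phase of a state: the least `i ≤ n` with flag `f_i` set -/
def phase (n : ℕ) (st : Cantor) : Option ℕ := (List.range (n + 1)).find? (fun i => st (cf (3 + i)))

/-- kind of step: 0 macro-limit, 1 end of a phase, 2 fresh, 3 initial, 4 running -/
def kind (n : ℕ) (st : Cantor) : ℕ :=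
  if st (cf 0) && st (cf 1) then (if st (cf 2) then 0 else 1)
  else if st (cf 2) then 2
  else if (phase n st).isNone then 3 else 4

/-- next state of the process, `n + 1` phases, `a0` the local predicate. -/
def aiNext (n : ℕ) (a0 : Cantor → ℕ → Bool) (st : Cantor) : Cantor := fun idx =>
  let m := idx / 4
  let k := kind n st
  let i := (phase n st).getD 0
  if idx % 4 = 0 then
    (if k = 1 ∧ i = n then st (cc m 0) else st (cW m))
  else if idx % 4 = 1 then
    (if k = 1 ∧ i < n then st (cc m 0)
     else if k = 2 then a0 (fun j => st (cW j)) m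
     else if k = 4 then st (cw m) else false)
  else if idx % 4 = 2 then
    (if k = 4 then (!st (cw m)) || st (cc m.unpair.1 (m.unpair.2 + 1)) else false)
  else
    (if m = 0 then (if k = 2 ∨ k = 4 then !st (cf 0) else true)
     else if m = 1 then (if k = 2 ∨ k = 4 then st (cf 0) else false)
     else if m = 2 then decide (k = 0 ∨ k = 3 ∨ (k = 1 ∧ i = n))
     else if k = 4 then st (cf m)
     else if k = 2 then decide (m = 3)
     else if k = 1 ∧ i < n then decide (m = 3 + i + 1)
     else false)

end Pool.Agent.HT
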