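import Pool.Agent.Helper85.HT.FT1

set_option autoImplicit false

/-!
# E1 : stages above `ζ` do not replace stages below `ζ`; elementarity for requirements
-/

namespace Pool.Agent.HT

open Ordinal

section E
variable {P : LProc} {V : VT} {D : DT} {ζ σ : Ordinal.{0}}

theorem e1_tmOf (s : Tm) : tmOf (Encodable.encode s) = s := Denumerable.ofNat_encode s

/-- names below a stage -/
theorem e1_name (F : HullFacts PsF (ThF P) V D ζ σ) {b a : Ordinal.{0}} (hb : b < σ)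
    (ha : a < b) : ∃ l, V b (tmOf l) = some a := by
  obtain ⟨s, hs⟩ := (F.rep b hb).onto a ha
  exact ⟨Encodable.encode s, by rw [e1_tmOf]; exact hs⟩

/-- decoding the search conditions of the second kind -/
theorem e1_Ps2 (C : HS) (l : ℕ) (t s : Tm) : PsF C (Nat.pair 2 l + 2) t s ↔
    ∀ s' l', C.dat s' (qPop l') → ¬ C.eqv (subt l' s') (subt l t) := by
  unfold PsF
  simp only [Nat.add_sub_cancel, Nat.unpair_pair]
  constructor
  · rintro (h | ⟨h, -⟩ | ⟨-, h, -⟩ | ⟨-, h, -⟩ | ⟨-, -, h⟩ | ⟨-, h, -⟩)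
    · omega
    · omega
    · omega
    · omega
    · exact h
    · omega
  · intro h
    exact Or.inr (Or.inr (Or.inr (Or.inr (Or.inl ⟨by omega, trivial, h⟩))))

/-- decoding the search conditions of the third kind -/
theorem e1_Ps3 (C : HS) (L : List ℕ) (t s : Tm) :
    PsF C (Nat.pair 3 (Encodable.encode L) + 2) t s ↔
    ∀ q ∈ L, ∀ r : Req, Encodable.decode (α := Req) q = some r → reqC C r t s := by
  unfold PsF
  simp only [Nat.add_sub_cancel, Nat.unpair_pair]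
  rw [e1_tmOf]
  constructor
  · rintro (h | ⟨h, -⟩ | ⟨-, h, -⟩ | ⟨-, h, -⟩ | ⟨-, h, -⟩ | ⟨-, -, h⟩)
    · omega
    · omega
    · omega
    · omega
    · omega
    · exact h
  · intro h
    exact Or.inr (Or.inr (Or.inr (Or.inr (Or.inr ⟨by omega, trivial, h⟩))))

/-- E1 -/
theorem e_nopop (F : HullFacts PsF (ThF P) V D ζ σ) (hG : ∀ a < σ, Good P V D a) :
    ∀ d, ζ ≤ d → d < σ → ∀ c, popO V D d c → ζ ≤ c := by
  intro d hd hdσ c hpop
  by_contra hcon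
  rw [not_le] at hcon
  have hc1 : c + 1 < ζ := by
    have := F.limζ.succ_lt hcon
    rwa [Order.succ_eq_add_one] at this
  have hc1σ : c + 1 < σ := hc1.trans F.lt
  obtain ⟨l, hl⟩ := e1_name F hc1σ (show c < c + 1 by
    rw [← Order.succ_eq_add_one]; exact Order.lt_succ c)
  -- liveness of `c` at stage `d`
  have hlive : liveO V D d c := ((hG d hdσ).p.popc c hpop).1
  have hrζ := F.rep ζ F.lt
  have hall : ∀ u < ζ, Psem PsF (ThF P) V (Nat.pair 2 l + 2) ζ (c + 1) u := by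
    intro u hu
    obtain ⟨t, ht⟩ := hrζ.onto (c + 1) hc1
    obtain ⟨s, hs⟩ := hrζ.onto u hu
    refine ⟨t, s, ht, hs, ?_⟩
    rw [e1_Ps2]
    intro s' l' hdat heqv
    obtain ⟨d', hd', hD'⟩ := (hrζ.dat s' (qPop l')).1 hdat
    have e1 : V ζ (subt l t) = some c := by
      rw [ft1_subt hrζ ht l, hl]
    have e2 : V ζ (subt l' s') = some c := (ft1_eqv hrζ e1).1 heqv
    rw [ft1_subt hrζ hd' l'] at e2
    have hd'ζ : d' < ζ := hrζ.bd s' d' hd'
    have hcd' : c < d' := (F.rep d' (hd'ζ.trans F.lt)).bd _ _ e2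
    exact hlive.2 d' (hd'ζ.trans_le hd) c ⟨l', hD', e2⟩ ⟨le_refl c, hcd'⟩
  obtain ⟨b, hb1, hb2, t, s, ht, hs, hP⟩ := F.el (Nat.pair 2 l + 2) (c + 1) hc1 hall d hdσ
  rw [e1_Ps2] at hP
  have hrb := F.rep b hb2
  obtain ⟨l', hD', hv'⟩ := hpop
  refine hP s l' ((hrb.dat s (qPop l')).2 ⟨d, hs, hD'⟩) ?_
  have e1 : V b (subt l t) = some c := by
    rw [ft1_subt hrb ht l, hl]
  rw [ft1_eqv hrb e1, ft1_subt hrb hs l']
  exact hv'

/-- E1 -/
theorem e_live (F : HullFacts PsF (ThF P) V D ζ σ) (hG : ∀ a < σ, Good P V D a) :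
    ∀ c, liveO V D ζ c → ∀ b, ζ ≤ b → b < σ → liveO V D b c := by
  intro c hc b hb hbσ
  refine ⟨hc.1.trans_le hb, fun d hd c' hp hk => ?_⟩
  rcases lt_or_ge d ζ with h | h
  · exact hc.2 d h c' hp hk
  · exact absurd (hk.1.trans_lt hc.1) (not_lt.2 (e_nopop F hG d h (hd.trans hbσ) c' hp))

/-- a requirement relative to `ζ` is equivalent to one relative to `a0 < ζ` -/
theorem e1_one (F : HullFacts PsF (ThF P) V D ζ σ) {r : Req} (hr : trueO V D ζ r) :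
    ∃ a1 < ζ, ∀ a0, a1 ≤ a0 → a0 < ζ → ∃ r' : Req, (∃ p, relO V a0 r'.2.1 p) ∧
      (r'.1 = false → ∃ ν, V a0 (tmOf r'.2.2.1) = some ν) ∧
      (∀ u < ζ, reqO V D ζ r' a0 u) ∧ (∀ b u, reqO V D b r' a0 u → reqO V D b r ζ u) := by
  obtain ⟨p, hp, hcond, hr2⟩ := hr
  have hrζ := F.rep ζ F.lt
  have hsucc : ∀ a < ζ, a + 1 < ζ := fun a ha => by
    have := F.limζ.succ_lt ha
    rwa [Order.succ_eq_add_one] at this
  have hlt : ∀ a : Ordinal.{0}, a < a + 1 := fun a => by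
    rw [← Order.succ_eq_add_one]; exact Order.lt_succ a
  have h0 : (0 : Ordinal.{0}) < ζ := lt_of_le_of_ne zero_le (fun h => F.limζ.1 (by
    rw [← h]; exact isMin_bot))
  -- the condition
  have key1 : ∃ a1 < ζ, ∀ a0, a1 ≤ a0 → a0 < ζ → ∃ c : RCnd, relO V a0 c p := by
    obtain ⟨h1, h2⟩ := hp
    rcases h2 with ⟨h2, h3⟩ | ⟨l, k, a, h2, h3, h4⟩
    · exact ⟨0, h0, fun a0 _ _ => ⟨(none, p.2), rfl, Or.inl ⟨rfl, h3⟩⟩⟩
    · have ha : a < ζ := hrζ.bd _ _ h4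
      refine ⟨a + 1, hsucc a ha, fun a0 h5 h6 => ?_⟩
      obtain ⟨l', hl'⟩ := e1_name F (h6.trans F.lt) ((hlt a).trans_le h5)
      exact ⟨(some (l', k), p.2), rfl, Or.inr ⟨l', k, a, rfl, h3, hl'⟩⟩
  obtain ⟨a1, ha1, key1⟩ := key1
  rcases hr2 with ⟨hf, ν, hν, hEE⟩ | ⟨ht, hDD⟩
  · have hνζ : ν < ζ := hrζ.bd _ _ hν
    refine ⟨max a1 (ν + 1), max_lt ha1 (hsucc ν hνζ), fun a0 h5 h6 => ?_⟩
    obtain ⟨c, hc⟩ := key1 a0 ((le_max_left _ _).trans h5) h6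
    obtain ⟨l', hl'⟩ := e1_name F (h6.trans F.lt) ((hlt ν).trans_le ((le_max_right _ _).trans h5))
    refine ⟨(false, c, l', r.2.2.2), ⟨p, hc⟩, fun _ => ⟨ν, hl'⟩, ?_, ?_⟩
    · intro u _
      exact ⟨p, hc, Or.inl ⟨rfl, ν, hl', hEE⟩⟩
    · rintro b u ⟨p', hp', h7⟩
      rw [← ft1_relO_uniq hc hp'] at h7
      rcases h7 with ⟨-, ν', hν', h8⟩ | ⟨h7, -⟩
      · have e : ν = ν' := by
          have h9 : some ν = some ν' := hl'.symm.trans hν'
          exact Option.some.inj h9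
        rw [← e] at h8
        exact ⟨p, hp, Or.inl ⟨hf, ν, hν, h8⟩⟩
      · exact absurd h7 (by simp)
  · refine ⟨a1, ha1, fun a0 h5 h6 => ?_⟩
    obtain ⟨c, hc⟩ := key1 a0 h5 h6
    refine ⟨(true, c, 0, r.2.2.2), ⟨p, hc⟩, fun h => absurd h (by simp), ?_, ?_⟩
    · intro u hu
      exact ⟨p, hc, Or.inr ⟨rfl, hDD u hu⟩⟩
    · rintro b u ⟨p', hp', h7⟩
      rw [← ft1_relO_uniq hc hp'] at h7
      rcases h7 with ⟨h7, -⟩ | ⟨-, h7⟩
      · exact absurd h7 (by simp)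
      · exact ⟨p, hp, Or.inr ⟨ht, h7⟩⟩

theorem e1_list (F : HullFacts PsF (ThF P) V D ζ σ) (i : ℕ) :
    ∃ a1 < ζ, ∀ a0, a1 ≤ a0 → a0 < ζ → ∃ L : List ℕ,
      (∀ q ∈ L, ∃ r' : Req, Encodable.decode (α := Req) q = some r' ∧
        (∃ p, relO V a0 r'.2.1 p) ∧
        (r'.1 = false → ∃ ν, V a0 (tmOf r'.2.2.1) = some ν) ∧ ∀ u < ζ, reqO V D ζ r' a0 u) ∧
      ∀ (q : ℕ) (r : Req), q < i → Encodable.decode (α := Req) q = some r → trueO V D ζ r →
        ∃ q' ∈ L, ∃ r' : Req, Encodable.decode (α := Req) q' = some r' ∧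
          ∀ b u, reqO V D b r' a0 u → reqO V D b r ζ u := by
  induction i with
  | zero =>
    have h0 : (0 : Ordinal.{0}) < ζ := lt_of_le_of_ne zero_le (fun h => F.limζ.1 (by
      rw [← h]; exact isMin_bot))
    refine ⟨0, h0, fun a0 _ _ => ⟨[], ?_, ?_⟩⟩
    · intro q hq
      exact absurd hq (by simp)
    · intro q r hq
      exact absurd hq (by omega)
  | succ i ih =>
    obtain ⟨a1, ha1, ih⟩ := ih
    by_cases hi : ∃ r : Req, Encodable.decode (α := Req) i = some r ∧ trueO V D ζ r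
    · obtain ⟨r, hr, htr⟩ := hi
      obtain ⟨a2, ha2, h2⟩ := e1_one F htr
      refine ⟨max a1 a2, max_lt ha1 ha2, fun a0 h5 h6 => ?_⟩
      obtain ⟨L, hL1, hL2⟩ := ih a0 ((le_max_left _ _).trans h5) h6
      obtain ⟨r', hr1, hr2, hr3, hr4⟩ := h2 a0 ((le_max_right _ _).trans h5) h6
      refine ⟨Encodable.encode r' :: L, ?_, ?_⟩
      · intro q hq
        rcases List.mem_cons.1 hq with rfl | hq
        · exact ⟨r', Encodable.encodek r', hr1, hr2, hr3⟩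
        · exact hL1 q hq
      · intro q r0 hq hr0 htr0
        rcases Nat.lt_succ_iff_lt_or_eq.1 hq with hq | rfl
        · obtain ⟨q', hq', h7⟩ := hL2 q r0 hq hr0 htr0
          exact ⟨q', List.mem_cons_of_mem _ hq', h7⟩
        · have e : r = r0 := Option.some.inj (hr.symm.trans hr0)
          subst e
          exact ⟨Encodable.encode r', List.mem_cons_self, r', Encodable.encodek r', hr4⟩
    · refine ⟨a1, ha1, fun a0 h5 h6 => ?_⟩
      obtain ⟨L, hL1, hL2⟩ := ih a0 h5 h6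
      refine ⟨L, hL1, ?_⟩
      intro q r0 hq hr0 htr0
      rcases Nat.lt_succ_iff_lt_or_eq.1 hq with hq | rfl
      · exact hL2 q r0 hq hr0 htr0
      · exact absurd ⟨r0, hr0, htr0⟩ hi

/-- E1: elementarity for finitely many requirements -/
theorem e_true (F : HullFacts PsF (ThF P) V D ζ σ) :
    ∀ i : ℕ, ∀ u < σ, ∃ b, u < b ∧ b < σ ∧ ∀ (q : ℕ) (r : Req), q < i →
      Encodable.decode (α := Req) q = some r → trueO V D ζ r → reqO V D b r ζ u := by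
  intro i u hu
  obtain ⟨a0, ha0, h⟩ := e1_list F i
  obtain ⟨L, hL1, hL2⟩ := h a0 (le_refl _) ha0
  have hrζ := F.rep ζ F.lt
  have hall : ∀ u < ζ, Psem PsF (ThF P) V (Nat.pair 3 (Encodable.encode L) + 2) ζ a0 u := by
    intro u hu
    obtain ⟨t, ht⟩ := hrζ.onto a0 ha0
    obtain ⟨s, hs⟩ := hrζ.onto u hu
    refine ⟨t, s, ht, hs, ?_⟩
    rw [e1_Ps3]
    intro q hq r hr
    obtain ⟨r', hr', h1, h2, h3⟩ := hL1 q hq
    have e : r' = r := Option.some.inj (hr'.symm.trans hr)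
    subst e
    exact (ft_req hrζ ht hs h1 h2).2 (h3 u hu)
  obtain ⟨b, hb1, hb2, t, s, ht, hs, hP⟩ := F.el _ a0 ha0 hall u hu
  rw [e1_Ps3] at hP
  refine ⟨b, hb1, hb2, fun q r hq hr htr => ?_⟩
  obtain ⟨q', hq', r', hr', h1⟩ := hL2 q r hq hr htr
  obtain ⟨r'', hr'', h2, h3, -⟩ := hL1 q' hq'
  have e : r' = r'' := Option.some.inj (hr'.symm.trans hr'')
  subst e
  exact h1 b u ((ft_req (F.rep b hb2) ht hs h2 h3).1 (hP q' hq' r' hr'))

end E

end Pool.Agent.HT
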