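import Pool.Agent.Helper85.HT.FSem
import Pool.Agent.Helper85.HT.E1

set_option autoImplicit false

namespace Pool.Agent.HT

open Ordinal

/-! ## E2 : the chain of replacements of `ζ` -/

section E
variable {P : LProc} {V : VT} {D : DT} {ζ σ : Ordinal.{0}}

theorem e2_live_mono {b b' c : Ordinal.{0}} (h : liveO V D b c) (hb : b' ≤ b) (hc : c < b') :
    liveO V D b' c :=
  ⟨hc, fun d hd c' hp => h.2 d (hd.trans_le hb) c' hp⟩

theorem e2_EEO_mono {b : Ordinal.{0}} {p : OC} {m : ℕ} {u u' : Ordinal.{0}} (hu : u' ≤ u)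
    (h : EEO V D b p m u) : EEO V D b p m u' := by
  obtain ⟨r, ν, h1, h2, h3, h4, h5⟩ := h
  exact ⟨r, ν, h1, h2, h3, hu.trans h4, h5⟩

theorem e2_DDO_mono {b : Ordinal.{0}} {p : OC} {m : ℕ} {u u' : Ordinal.{0}} (hu : u' ≤ u)
    (h : DDO V D b p m u) : DDO V D b p m u' :=
  fun r h1 h2 => e2_EEO_mono hu (h r h1 h2)

theorem e2_reqO_mono {b g : Ordinal.{0}} {r : Req} {u u' : Ordinal.{0}} (hu : u' ≤ u)
    (h : reqO V D b r g u) : reqO V D b r g u' := by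
  obtain ⟨p, h1, h2 | ⟨h2, h3⟩⟩ := h
  · exact ⟨p, h1, Or.inl h2⟩
  · exact ⟨p, h1, Or.inr ⟨h2, e2_DDO_mono hu h3⟩⟩

/-- the invariant of the chain -/
structure E2Inv (V : VT) (D : DT) (ζ σ : Ordinal.{0}) (i : ℕ) (β : Ordinal.{0}) : Prop where
  le : ζ ≤ β
  lt : β < σ
  ver : D β (qVer i)
  org : orgO V D β ζ
  live : ∀ c < β, liveO V D (β + 1) c → c < ζ

theorem e2_base (F : HullFacts PsF (ThF P) V D ζ σ) (hG : ∀ a < σ, Good P V D a) :
    E2Inv V D ζ σ 0 ζ := by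
  have hn : ¬ ∃ c, popO V D ζ c := by
    rintro ⟨c, hc⟩
    have h1 := e_nopop F hG ζ le_rfl F.lt c hc
    have h2 := ((hG ζ F.lt).p.popc c hc).1.1
    exact absurd h2 (not_lt.2 h1)
  exact ⟨le_rfl, F.lt, (hG ζ F.lt).p.ver0 hn, (hG ζ F.lt).p.org0 hn, fun c hc _ => hc⟩

theorem e2_step (F : HullFacts PsF (ThF P) V D ζ σ) (hG : ∀ a < σ, Good P V D a) {i : ℕ}
    {β : Ordinal.{0}} (h : E2Inv V D ζ σ i β) :
    ∃ β', β < β' ∧ popO V D β' β ∧ E2Inv V D ζ σ (i + 1) β' := by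
  obtain ⟨b0, hb0, hc1⟩ := F.h1 i β h.lt
  obtain ⟨b, hub, hbσ, htr⟩ := e_true F i (max b0 β) (max_lt hb0 h.lt)
  have hβb : β < b := (le_max_right _ _).trans_lt hub
  have hb0b : b0 ≤ b := (le_max_left _ _).trans hub.le
  have hcand : liveO V D b β → candO V D b β := by
    intro hl
    refine ⟨hl, i, ζ, h.ver, h.org, hc1 b hb0b hbσ, ?_⟩
    intro q r hq hr hD
    obtain ⟨r', hr', ht⟩ := ((hG ζ F.lt).p.truth q).1 hD
    rw [hr] at hr'
    obtain rfl := Option.some.inj hr'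
    exact e2_reqO_mono (le_max_right _ _) (htr q r hq hr ht)
  -- a stage at which something `≤ β` is replaced
  have hex : ∃ d c', β < d ∧ d < σ ∧ popO V D d c' ∧ c' ≤ β := by
    by_cases hl : liveO V D b β
    · obtain ⟨c', hp, hle⟩ := (hG b hbσ).p.popm β (hcand hl)
      exact ⟨b, c', hβb, hbσ, hp, hle⟩
    · unfold liveO at hl
      push Not at hl
      obtain ⟨d, hd, c', hp, hle, hβd⟩ := hl hβb
      exact ⟨d, c', hβd, hd.trans hbσ, hp, hle⟩
  obtain ⟨d, c', hβd, hdσ, hp, hle⟩ := hex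
  have hζc : ζ ≤ c' := e_nopop F hG d (h.le.trans hβd.le) hdσ c' hp
  have hlive := ((hG d hdσ).p.popc c' hp).1
  have hc' : c' = β := by
    rcases hle.lt_or_eq with hlt | heq
    · exfalso
      have h1 : liveO V D (β + 1) c' :=
        e2_live_mono hlive (Order.add_one_le_of_lt hβd) (hlt.trans (lt_add_one β))
      exact absurd (h.live c' hlt h1) (not_lt.2 hζc)
    · exact heq
  subst hc'
  refine ⟨d, hβd, hp, ⟨h.le.trans hβd.le, hdσ, (hG d hdσ).p.verp _ hp i h.ver,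
    (hG d hdσ).p.orgp _ hp ζ h.org, ?_⟩⟩
  intro c hcd hcl
  have h1 : c < c' := by
    by_contra h2
    rw [not_lt] at h2
    exact hcl.2 d (lt_add_one d) c' hp ⟨h2, hcd⟩
  apply h.live c h1
  exact e2_live_mono hcl (by gcongr) (h1.trans (lt_add_one c'))

open Classical in
/-- E2 -/
theorem e_chain (F : HullFacts PsF (ThF P) V D ζ σ) (hG : ∀ a < σ, Good P V D a) :
    ∃ β : ℕ → Ordinal.{0}, β 0 = ζ ∧ StrictMono β ∧ (∀ i, β i < σ) ∧
      (∀ i, popO V D (β (i + 1)) (β i)) ∧ (∀ i, D (β i) (qVer i)) ∧ (∀ i, orgO V D (β i) ζ) ∧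
      ∀ a < σ, ∃ i, a < β i := by
  choose! f hf1 hf2 hf3 using fun (i : ℕ) (β : Ordinal.{0}) (h : E2Inv V D ζ σ i β) =>
    e2_step F hG h
  obtain ⟨β, hβ0, hβS⟩ : ∃ β : ℕ → Ordinal.{0}, β 0 = ζ ∧ ∀ i, β (i + 1) = f i (β i) :=
    ⟨fun n => Nat.rec ζ (fun i b => f i b) n, rfl, fun _ => rfl⟩
  have hinv : ∀ i, E2Inv V D ζ σ i (β i) := by
    intro i
    induction i with
    | zero => rw [hβ0]; exact e2_base F hG
    | succ i ih => rw [hβS]; exact hf3 i _ ih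
  have hlt : ∀ i, β i < β (i + 1) := fun i => by rw [hβS]; exact hf1 i _ (hinv i)
  have hpop : ∀ i, popO V D (β (i + 1)) (β i) := fun i => by rw [hβS]; exact hf2 i _ (hinv i)
  have hmono : StrictMono β := strictMono_nat_of_lt_succ hlt
  refine ⟨β, hβ0, hmono, fun i => (hinv i).lt, hpop, fun i => (hinv i).ver,
    fun i => (hinv i).org, ?_⟩
  intro a ha
  by_contra hcon
  push Not at hcon
  obtain ⟨b, hb⟩ : ∃ b, b = ⨆ i, β i := ⟨_, rfl⟩
  have hle : ∀ i, β i ≤ b := fun i => by rw [hb]; exact Ordinal.le_iSup β i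
  have hltb : ∀ i, β i < b := fun i => (hlt i).trans_le (hle (i + 1))
  have hba : b ≤ a := by rw [hb]; exact Ordinal.iSup_le hcon
  have hcof : ∀ c < b, ∃ i, c < β i := by
    intro c hc
    rw [hb, Ordinal.lt_iSup_iff] at hc
    exact hc
  have hlim : Order.IsSuccLimit b := by
    rw [isSuccLimit_iff, Order.isSuccPrelimit_iff_succ_lt]
    refine ⟨(lt_of_le_of_lt zero_le (hltb 0)).ne', ?_⟩
    intro c hc
    obtain ⟨i, hi⟩ := hcof c hc
    exact (Order.succ_le_of_lt hi).trans_lt (hltb i)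
  refine F.h2 b (hba.trans_lt ha) hlim ζ (by rw [← hβ0]; exact hltb 0)
    ⟨β, hmono, hltb, hcof, ?_⟩
  intro i
  obtain ⟨_, i', g', h1, h2, h3, _⟩ := (hG _ (hinv (i + 1)).lt).p.popc _ (hpop i)
  have e1 : i' = i := (hG _ (hinv i).lt).p.veru i' i h1 (hinv i).ver
  have e2 : g' = ζ := (hG _ (hinv i).lt).p.orgu g' ζ h2 (hinv i).org
  rw [e1, e2] at h3
  exact h3

end E

end Pool.Agent.HT
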