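import Pool.Agent.Helper85.HT.FL

set_option autoImplicit false

/-!
# E3 : the points `x k`
-/

namespace Pool.Agent.HT

open Ordinal

/-! ### words -/

theorem e3_pre_prefix (x : Cantor) {m n : ℕ} (h : m ≤ n) : pre x m <+: pre x n := by
  unfold pre
  obtain ⟨k, rfl⟩ := Nat.exists_eq_add_of_le h
  rw [List.range_add, List.map_append]
  exact List.prefix_append _ _

theorem e3_cmp_pre (x : Cantor) (m n : ℕ) : cmpW (pre x m) (pre x n) := by
  rcases le_total m n with h | h
  · exact Or.inl (e3_pre_prefix x h)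
  · exact Or.inr (e3_pre_prefix x h)

theorem e3_cmp_nil (u : List Bool) : cmpW u [] := Or.inr List.nil_prefix

theorem e3_cmp_eq {u w : List Bool} (h : cmpW u w) (hl : u.length = w.length) : u = w := by
  rcases h with h | h
  · exact h.eq_of_length hl
  · exact (h.eq_of_length hl.symm).symm

theorem e3_cmp_le {u w : List Bool} (h : cmpW u w) (hl : u.length ≤ w.length) : u <+: w := by
  rcases h with h | h
  · exact h
  · rw [h.eq_of_length_le hl]

section
variable {P : LProc} {V : VT} {D : DT} {ζ σ : Ordinal.{0}}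

theorem e3_inO {c : Ordinal.{0}} {k : ℕ} {w u : List Bool} :
    inO D (some (c, k), w) u ↔ cmpW u w ∧ D c (qTree k u) := by
  unfold inO
  simp

theorem e3_sub_TB {a c : Ordinal.{0}} {k k' n : ℕ} {x : Cantor}
    (h : subO D (some (a, k), pre x n) (some (c, k'), [])) (hx : x ∈ TB D a k) :
    x ∈ TB D c k' := by
  intro i
  exact (e3_inO.1 (h _ (e3_inO.2 ⟨e3_cmp_pre x i n, hx i⟩))).2

theorem e3_sub_node {a c : Ordinal.{0}} {k : ℕ} {u : List Bool}
    (h : subO D (some (a, k), []) (some (c, k), [])) (hx : D a (qTree k u)) :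
    D c (qTree k u) :=
  (e3_inO.1 (h _ (e3_inO.2 ⟨e3_cmp_nil u, hx⟩))).2

theorem e_decr (F : HullFacts PsF (ThF P) V D ζ σ) (hG : ∀ a < σ, Good P V D a) :
    ∀ a < σ, ∀ c < a, ∀ k, ∀ x ∈ TB D a k, ∃ k', x ∈ TB D c k' := by
  intro a
  induction a using WellFoundedLT.induction with
  | ind a ih =>
    intro ha c hc k x hx
    obtain ⟨e, he, hce⟩ := live_cof F ha (fun c hc => hG c (hc.trans ha)) c hc
    obtain ⟨n, k', hn⟩ := (hG a ha).t.loc e he k x hx
    have hxe : x ∈ TB D e k' := e3_sub_TB hn hx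
    rcases hce.eq_or_lt with h | h
    · subst h
      exact ⟨k', hxe⟩
    · exact ih e he.1 (he.1.trans ha) c h k' x hxe

/-- perfect trees have nodes of every length -/
theorem e3_node {a : Ordinal.{0}} (h : GoodT V D a) (k n : ℕ) :
    ∃ u : List Bool, u.length = n ∧ D a (qTree k u) := by
  have h1 : ∀ n : ℕ, ∃ u : List Bool, n ≤ u.length ∧ D a (qTree k u) := by
    intro n
    induction n with
    | zero => exact ⟨[], le_rfl, h.nil k⟩
    | succ n ih =>
      obtain ⟨u, hu, hD⟩ := ih
      obtain ⟨u1, u2, p1, p2, hne, h1, h2⟩ := h.split k u hD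
      by_cases hl : u.length < u1.length
      · exact ⟨u1, by omega, h1⟩
      · refine absurd (Or.inl ?_) hne
        rw [← p1.eq_of_length_le (not_lt.1 hl)]
        exact p2
  obtain ⟨u, hu, hD⟩ := h1 n
  exact ⟨u.take n, by simp [hu], h.pref k u _ (List.take_prefix n u) hD⟩

theorem e_pts (F : HullFacts PsF (ThF P) V D ζ σ) (hG : ∀ a < σ, Good P V D a)
    {β : ℕ → Ordinal.{0}} (hm : StrictMono β) (hβ : ∀ i, β i < σ)
    (hp : ∀ i, popO V D (β (i + 1)) (β i)) (hv : ∀ i, D (β i) (qVer i))
    (hc : ∀ a < σ, ∃ i, a < β i) :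
    ∃ x : ℕ → Cantor, (∀ k i, x k ∈ TB D (β i) k) ∧
      ∀ y, (∀ b < σ, ∃ k, y ∈ TB D b k) ↔ ∃ k, y = x k := by
  have hT : ∀ i, GoodT V D (β i) := fun i => (hG _ (hβ i)).t
  -- the stems
  have hw : ∀ k i, ∃ w : List Bool, w.length = i ∧ ∀ u, D (β (i + 1)) (qTree k u) → cmpW u w :=
    fun k i => (hT (i + 1)).popstem (β i) (hp i) i (hv i) k
  choose w hwl hwc using hw
  have hwu : ∀ k i u, D (β (i + 1)) (qTree k u) → u.length = i → u = w k i := fun k i u hu hl =>
    e3_cmp_eq (hwc k i u hu) (hl.trans (hwl k i).symm)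
  have hwD : ∀ k i, D (β (i + 1)) (qTree k (w k i)) := by
    intro k i
    obtain ⟨u, hl, hu⟩ := e3_node (hT (i + 1)) k i
    rw [← hwu k i u hu hl]
    exact hu
  have hstep : ∀ k i u, D (β (i + 1)) (qTree k u) → D (β i) (qTree k u) := fun k i u hu =>
    e3_sub_node ((hT (i + 1)).popsub (β i) (hp i) k) hu
  have hle : ∀ k i j u, i ≤ j → D (β j) (qTree k u) → D (β i) (qTree k u) := by
    intro k i j u hij
    induction j, hij using Nat.le_induction with
    | base => exact id
    | succ j _ ih => exact fun hu => ih (hstep k j u hu)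
  have hwp : ∀ k i, w k i <+: w k (i + 1) := by
    intro k i
    have h1 : D (β (i + 1)) (qTree k (w k (i + 1))) := hstep k (i + 1) _ (hwD k (i + 1))
    have h2 := hwc k i _ h1
    rcases h2 with h2 | h2
    · have := h2.length_le
      rw [hwl, hwl] at this
      omega
    · exact h2
  have hwp' : ∀ k i j, i ≤ j → w k i <+: w k j := by
    intro k i j hij
    induction j, hij using Nat.le_induction with
    | base => exact List.prefix_refl _
    | succ j _ ih => exact ih.trans (hwp k j)
  -- the points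
  set x : ℕ → Cantor := fun k n => ((w k (n + 1))[n]?).getD false with hx
  have hpre : ∀ k n, pre (x k) n = w k n := by
    intro k n
    apply List.ext_getElem?
    intro i
    rw [getElem?_pre]
    by_cases hi : i < n
    · rw [if_pos hi]
      have h1 : i < (w k (i + 1)).length := by rw [hwl]; omega
      have h2 := hwp' k (i + 1) n hi
      have h3 : (w k n)[i]? = (w k (i + 1))[i]? := by
        obtain ⟨t, ht⟩ := h2
        rw [← ht, List.getElem?_append_left h1]
      rw [h3]
      simp only [hx]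
      rw [List.getElem?_eq_getElem h1]
      rfl
    · rw [if_neg hi, List.getElem?_eq_none]
      rw [hwl]; omega
  have hxT : ∀ k i, x k ∈ TB D (β i) k := by
    intro k i n
    rw [hpre]
    by_cases h : i ≤ n + 1
    · exact hle k i (n + 1) _ h (hwD k n)
    · have h1 : D (β i) (qTree k (w k i)) := hle k i (i + 1) _ (Nat.le_succ i) (hwD k i)
      exact (hT i).pref k _ _ (hwp' k n i (by omega)) h1
  refine ⟨x, hxT, fun y => ⟨fun hy => ?_, ?_⟩⟩
  · choose κ hκ using fun i => hy (β i) (hβ i)
    have h1 : ∀ i, κ (i + 1) = κ i := by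
      intro i
      have h2 : y ∈ TB D (β i) (κ (i + 1)) := fun n => hstep _ i _ (hκ (i + 1) n)
      exact (hT i).disj _ _ y h2 (hκ i)
    have h2 : ∀ i, κ i = κ 0 := by
      intro i
      induction i with
      | zero => rfl
      | succ i ih => rw [h1, ih]
    refine ⟨κ 0, ?_⟩
    have h3 : ∀ n, pre y n = pre (x (κ 0)) n := by
      intro n
      rw [hpre]
      have h4 := hκ (n + 1) n
      rw [h2] at h4
      exact hwu _ n _ h4 (length_pre y n)
    funext n
    have h4 := congrArg (fun l : List Bool => l[n]?) (h3 (n + 1))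
    simp only [getElem?_pre] at h4
    simpa using h4
  · rintro ⟨k, rfl⟩ b hb
    obtain ⟨i, hi⟩ := hc b hb
    exact e_decr F hG (β i) (hβ i) b hi k _ (hxT k i)

end

end Pool.Agent.HT
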