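import Pool.Agent.Helper85.HT.E1

set_option autoImplicit false

/-!
# E4 : the process has the same state at `ζ` and `σ`
-/

namespace Pool.Agent.HT

open Ordinal

/-! ### relative conditions -/

theorem e4_tmOf (s : Tm) : ∃ l, tmOf l = s :=
  ⟨Encodable.encode s, by unfold tmOf; simp⟩

section
variable {P : LProc} {V : VT} {D : DT} {ζ σ : Ordinal.{0}}

theorem e4_rel_unique {g : Ordinal.{0}} {c : RCnd} {p p' : OC} (h : relO V g c p)
    (h' : relO V g c p') : p = p' := by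
  obtain ⟨h1, h2⟩ := h
  obtain ⟨h1', h2'⟩ := h'
  refine Prod.ext ?_ (h1.symm.trans h1')
  rcases h2 with ⟨e1, e2⟩ | ⟨l, k, a, e1, e2, e3⟩ <;>
    rcases h2' with ⟨e1', e2'⟩ | ⟨l', k', a', e1', e2', e3'⟩
  · rw [e2, e2']
  · rw [e1] at e1'; exact absurd e1' (by simp)
  · rw [e1] at e1'; exact absurd e1' (by simp)
  · rw [e1] at e1'
    simp only [Option.some.injEq, Prod.mk.injEq] at e1'
    obtain ⟨rfl, rfl⟩ := e1'
    rw [e3] at e3'
    simp only [Option.some.injEq] at e3'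
    rw [e2, e2', e3']

theorem e4_rel_exists {C : HS} {g : Ordinal.{0}} (hr : RepAt C V D g) (p : OC)
    (hp : ∀ x, p.1 = some x → x.1 < g) : ∃ c : RCnd, relO V g c p := by
  obtain ⟨o, w⟩ := p
  cases o with
  | none => exact ⟨(none, w), rfl, Or.inl ⟨rfl, rfl⟩⟩
  | some z =>
    obtain ⟨a, k⟩ := z
    obtain ⟨s, hs⟩ := hr.onto a (hp (a, k) rfl)
    obtain ⟨l, rfl⟩ := e4_tmOf s
    exact ⟨(some (l, k), w), rfl, Or.inr ⟨l, k, a, rfl, rfl, hs⟩⟩

theorem e4_cond_mono (F : HullFacts PsF (ThF P) V D ζ σ) (hG : ∀ a < σ, Good P V D a)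
    {p : OC} (hp : condO V D ζ p) {b : Ordinal.{0}} (h1 : ζ ≤ b) (h2 : b < σ) :
    condO V D b p := fun x hx =>
  ⟨e_live F hG x.1 (hp x hx).1 b h1 h2, (hp x hx).2⟩

/-- true requirements are kept by the stages `β i` -/
theorem e4_keep (F : HullFacts PsF (ThF P) V D ζ σ) (hG : ∀ a < σ, Good P V D a)
    {β : ℕ → Ordinal.{0}} (hβ : ∀ i, β i < σ)
    (hp : ∀ i, popO V D (β (i + 1)) (β i)) (hv : ∀ i, D (β i) (qVer i))
    (ho : ∀ i, orgO V D (β i) ζ) {r : Req} (hr : trueO V D ζ r) :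
    ∀ i, Encodable.encode r < i → reqO V D (β (i + 1)) r ζ (β i) := by
  intro i hi
  have h1 : D ζ (qTrue (Encodable.encode r)) :=
    ((hG ζ F.lt).p.truth _).2 ⟨r, Encodable.encodek r, hr⟩
  obtain ⟨-, i', g, h2, h3, -, h4⟩ := (hG _ (hβ (i + 1))).p.popc _ (hp i)
  have e1 : i' = i := (hG _ (hβ i)).p.veru _ _ h2 (hv i)
  have e2 : g = ζ := (hG _ (hβ i)).p.orgu _ _ h3 (ho i)
  subst e1
  subst e2
  exact h4 _ r hi (Encodable.encodek r) h1

theorem e_bits (F : HullFacts PsF (ThF P) V D ζ σ) (hG : ∀ a < σ, Good P V D a)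
    {β : ℕ → Ordinal.{0}} (h0 : β 0 = ζ) (hm : StrictMono β) (hβ : ∀ i, β i < σ)
    (hp : ∀ i, popO V D (β (i + 1)) (β i)) (hv : ∀ i, D (β i) (qVer i))
    (ho : ∀ i, orgO V D (β i) ζ) (hc : ∀ a < σ, ∃ i, a < β i) {k : ℕ} {x : Cantor}
    (hx : ∀ i, x ∈ TB D (β i) k) :
    titer (Loc P x) ζ = titer (Loc P x) σ ∧
    ∀ m, titer (Loc P x) ζ m = false → ∀ b, ζ ≤ b → b < σ →
      titer (Loc P x) b m = false := by
  have hxζ : x ∈ TB D ζ k := by
    have := hx 0
    rwa [h0] at this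
  have hζβ : ∀ i, ζ ≤ β i := fun i => by
    rw [← h0]
    exact hm.monotone (Nat.zero_le i)
  -- every cell
  have key : ∀ m, (∃ n0 < ζ, ∀ ν, n0 ≤ ν → ν < σ → titer (Loc P x) ν m = false) ∨
      (titer (Loc P x) ζ m = true ∧
        ∀ a < σ, ∃ b, a ≤ b ∧ b < σ ∧ titer (Loc P x) b m = true) := by
    intro m
    rcases (hG ζ F.lt).b.deci F.limζ k x hxζ m with
      ⟨p, hpc, hxp, n0, hn0, hE⟩ | ⟨p, hpc, hxp, hD⟩
    · left
      obtain ⟨c, hrel⟩ := e4_rel_exists (F.rep ζ F.lt) p (fun z hz => (hpc z hz).1.1)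
      obtain ⟨s, hs⟩ := (F.rep ζ F.lt).onto n0 hn0
      obtain ⟨l, rfl⟩ := e4_tmOf s
      set r : Req := (false, c, l, m) with hr
      have htrue : trueO V D ζ r := ⟨p, hrel, hpc, Or.inl ⟨rfl, n0, hs, hE⟩⟩
      have hkeep := e4_keep F hG hβ hp hv ho htrue
      refine ⟨n0, hn0, fun ν hν1 hν2 => ?_⟩
      obtain ⟨i0, hi0⟩ := hc ν hν2
      set i := max i0 (Encodable.encode r + 1) with hi
      have h1 := hkeep i (lt_of_lt_of_le (Nat.lt_succ_self _) (le_max_right _ _))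
      obtain ⟨p', hrel', h2⟩ := h1
      have e1 : p' = p := e4_rel_unique hrel' hrel
      subst e1
      rcases h2 with ⟨-, ν', h3, h4⟩ | ⟨h3, -⟩
      · have e2 : ν' = n0 := by
          have h5 : V ζ (tmOf l) = some ν' := h3
          rw [hs] at h5
          exact (Option.some.inj h5).symm
        subst e2
        have hlt : ν < β (i + 1) := hi0.trans_le (hm.monotone (by omega))
        exact (hG _ (hβ (i + 1))).b.gen0 k x (hx (i + 1)) p'
          (e4_cond_mono F hG hpc (hζβ _) (hβ _)) hxp m ν' h4 ν hν1 hlt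
      · exact absurd h3 (by simp [hr])
    · right
      obtain ⟨c, hrel⟩ := e4_rel_exists (F.rep ζ F.lt) p (fun z hz => (hpc z hz).1.1)
      set r : Req := (true, c, 0, m) with hr
      have htrue : trueO V D ζ r := ⟨p, hrel, hpc, Or.inr ⟨rfl, hD⟩⟩
      have hkeep := e4_keep F hG hβ hp hv ho htrue
      constructor
      · rw [titer_limit _ F.limζ]
        intro a ha
        obtain ⟨ν, h1, h2, h3⟩ := (hG ζ F.lt).b.gen1 k x hxζ p hpc hxp m a ha (hD a ha)
        exact ⟨ν, h1, h2, h3⟩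
      · intro a ha
        obtain ⟨i0, hi0⟩ := hc a ha
        set i := max i0 (Encodable.encode r + 1) with hi
        have h1 := hkeep i (lt_of_lt_of_le (Nat.lt_succ_self _) (le_max_right _ _))
        obtain ⟨p', hrel', h2⟩ := h1
        have e1 : p' = p := e4_rel_unique hrel' hrel
        subst e1
        rcases h2 with ⟨h3, -⟩ | ⟨-, h4⟩
        · exact absurd h3 (by simp [hr])
        · obtain ⟨ν, h5, h6, h7⟩ := (hG _ (hβ (i + 1))).b.gen1 k x (hx (i + 1)) p'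
            (e4_cond_mono F hG hpc (hζβ _) (hβ _)) hxp m (β i) (hm (Nat.lt_succ_self i)) h4
          have h8 : a < β i := hi0.trans_le (hm.monotone (le_max_left _ _))
          exact ⟨ν, h8.le.trans h5, h6.trans (hβ _), h7⟩
  constructor
  · funext m
    rcases key m with ⟨n0, hn0, h⟩ | ⟨h1, h2⟩
    · rw [h ζ hn0.le F.lt]
      symm
      rw [titer_limit_false _ F.limσ]
      exact ⟨n0, hn0.trans F.lt, h⟩
    · rw [h1]
      symm
      rw [titer_limit _ F.limσ]
      exact h2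
  · intro m hmf b hb1 hb2
    rcases key m with ⟨n0, hn0, h⟩ | ⟨h1, -⟩
    · exact h b (hn0.le.trans hb1) hb2
    · rw [h1] at hmf
      exact absurd hmf (by simp)

end

end Pool.Agent.HT
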