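import Pool.Agent.Helper85.HT.FSem

set_option autoImplicit false

/-!
# Module E5: perfect trees have uncountably many branches
-/

namespace Pool.Agent.HT

open Ordinal

theorem e5_step (T : List Bool → Prop)
    (hs : ∀ u, T u → ∃ u1 u2, u <+: u1 ∧ u <+: u2 ∧ ¬ cmpW u1 u2 ∧ T u1 ∧ T u2)
    (y : Cantor) (u : {u : List Bool // T u}) : ∃ v : {u : List Bool // T u},
      u.1 <+: v.1 ∧ u.1.length < v.1.length ∧ ∀ n, v.1 ≠ pre y n := by
  obtain ⟨u1, u2, h1, h2, h3, h4, h5⟩ := hs u.1 u.2
  have l1 : u.1.length < u1.length := by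
    rcases Nat.lt_or_ge u.1.length u1.length with h | h
    · exact h
    · exfalso
      have : u.1 = u1 := h1.eq_of_length_le h
      exact h3 (Or.inl (this ▸ h2))
  have l2 : u.1.length < u2.length := by
    rcases Nat.lt_or_ge u.1.length u2.length with h | h
    · exact h
    · exfalso
      have : u.1 = u2 := h2.eq_of_length_le h
      exact h3 (Or.inr (this ▸ h1))
  have hpre : ∀ m n, m ≤ n → pre y m <+: pre y n := by
    intro m n h
    have : pre y m = (pre y n).take m := by
      unfold pre
      rw [← List.map_take, List.take_range]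
      simp [h]
    rw [this]
    exact List.take_prefix _ _
  by_cases hh : ∀ n, u1 ≠ pre y n
  · exact ⟨⟨u1, h4⟩, h1, l1, hh⟩
  · refine ⟨⟨u2, h5⟩, h2, l2, ?_⟩
    intro n hn
    push Not at hh
    obtain ⟨m, hm⟩ := hh
    apply h3
    simp only at hn
    rw [hm, hn]
    rcases le_total m n with h | h
    · exact Or.inl (hpre _ _ h)
    · exact Or.inr (hpre _ _ h)

/-- E5 -/
theorem tree_uncountable (T : List Bool → Prop) (hp : ∀ u u', u' <+: u → T u → T u')
    (hs : ∀ u, T u → ∃ u1 u2, u <+: u1 ∧ u <+: u2 ∧ ¬ cmpW u1 u2 ∧ T u1 ∧ T u2)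
    {w : List Bool} (hw : T w) :
    ¬ {x : Cantor | (∀ n, T (pre x n)) ∧ ∃ n, w = pre x n}.Countable := by
  intro hc
  obtain ⟨e, he⟩ := Set.countable_iff_exists_subset_range.1 hc
  choose f hf1 hf2 hf3 using e5_step T hs
  let U : ℕ → {u : List Bool // T u} := fun n => Nat.rec ⟨w, hw⟩ (fun n u => f (e n) u) n
  have hU0 : U 0 = ⟨w, hw⟩ := rfl
  have hUs : ∀ n, U (n + 1) = f (e n) (U n) := fun n => rfl
  have hpr : ∀ n, (U n).1 <+: (U (n + 1)).1 := fun n => hf1 _ _
  have hlt : ∀ n, (U n).1.length < (U (n + 1)).1.length := fun n => hf2 _ _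
  have hmono : ∀ m n, m ≤ n → (U m).1 <+: (U n).1 := by
    intro m n h
    induction n, h using Nat.le_induction with
    | base => exact List.prefix_refl _
    | succ n _ ih => exact ih.trans (hpr n)
  have hlen : ∀ n, n ≤ (U n).1.length := by
    intro n
    induction n with
    | zero => exact Nat.zero_le _
    | succ n ih => have := hlt n; omega
  let x : Cantor := fun i => (U (i + 1)).1.getD i false
  have hx : ∀ n i, i < (U n).1.length → (U n).1[i]? = some (x i) := by
    intro n i hi
    have h1 : i < (U (i + 1)).1.length := hlen (i + 1)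
    have e1 : (U (i + 1)).1[i]? = some (x i) := by
      simp only [x]
      rw [List.getD_eq_getElem?_getD, List.getElem?_eq_getElem h1]
      simp
    rcases le_total n (i + 1) with h | h
    · obtain ⟨t, ht⟩ := hmono _ _ h
      rw [← e1, ← ht, List.getElem?_append_left hi]
    · obtain ⟨t, ht⟩ := hmono _ _ h
      rw [← e1, ← ht, List.getElem?_append_left h1]
  have hUx : ∀ n, (U n).1 = pre x (U n).1.length := by
    intro n
    apply List.ext_getElem?
    intro i
    rw [getElem?_pre]
    by_cases hi : i < (U n).1.length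
    · rw [hx n i hi]; simp [hi]
    · rw [if_neg hi, List.getElem?_eq_none (by omega)]
  have hmem : x ∈ {x : Cantor | (∀ n, T (pre x n)) ∧ ∃ n, w = pre x n} := by
    refine ⟨fun n => ?_, ⟨w.length, ?_⟩⟩
    · have : pre x n = ((U n).1).take n := by
        conv_rhs => rw [hUx n]
        unfold pre
        rw [← List.map_take, List.take_range]
        simp [hlen n]
      rw [this]
      exact hp _ _ (List.take_prefix _ _) (U n).2
    · exact hUx 0
  obtain ⟨n, hn⟩ := he hmem
  apply hf3 (e n) (U n) (U (n + 1)).1.length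
  rw [← hUs n, hn]
  exact hUx (n + 1)

end Pool.Agent.HT
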