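import Pool.Agent.Helper85.HT.FSem

set_option autoImplicit false

/-!
# FA1: a step of the fusion exists
-/

namespace Pool.Agent.HT

/-! ### comparable words -/

theorem fa1_cmp_refl (u : List Bool) : cmpW u u := Or.inl (List.prefix_refl u)

theorem fa1_cmp_symm {u w : List Bool} (h : cmpW u w) : cmpW w u := Or.symm h

/-- extending two incomparable words keeps them incomparable -/
theorem fa1_ncmp_ext {u w u' w' : List Bool} (hu : u <+: u') (hw : w <+: w')
    (h : ¬ cmpW u w) : ¬ cmpW u' w' := by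
  rintro (h' | h')
  · exact h (List.prefix_or_prefix_of_prefix (hu.trans h') hw)
  · exact h (Or.symm (List.prefix_or_prefix_of_prefix (hw.trans h') hu))

/-- comparable and longer means extending -/
theorem fa1_prefix_of_cmp {u w : List Bool} (h : cmpW u w) (hl : w.length ≤ u.length) :
    w <+: u := by
  rcases h with h | h
  · rw [h.eq_of_length_le hl]
  · exact h

section FA

variable {κ : Type} {cnd : κ → Prop} {tr : κ → List Bool → Prop}
  {root : κ → List Bool} {dec : ℕ → κ → Prop} {start : ℕ → κ}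

/-- `q` is a condition below `p` whose root extends the root of `p` -/
def Fa1Ext (cnd : κ → Prop) (tr : κ → List Bool → Prop) (root : κ → List Bool) (p q : κ) :
    Prop :=
  cnd q ∧ (∀ u, tr q u → tr p u) ∧ root p <+: root q

theorem Fa1Ext.refl {p : κ} (hp : cnd p) : Fa1Ext cnd tr root p p :=
  ⟨hp, fun _ h => h, List.prefix_refl _⟩

theorem Fa1Ext.trans {p q r : κ} (h : Fa1Ext cnd tr root p q) (h' : Fa1Ext cnd tr root q r) :
    Fa1Ext cnd tr root p r :=
  ⟨h'.1, fun u hu => h.2.1 u (h'.2.1 u hu), h.2.2.trans h'.2.2⟩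

/-- long nodes -/
theorem fa1_long (H : FusH cnd tr root dec start) {p : κ} (hp : cnd p) (N : ℕ) :
    ∃ u, tr p u ∧ root p <+: u ∧ N ≤ u.length := by
  induction N with
  | zero => exact ⟨root p, H.rt p hp, List.prefix_refl _, Nat.zero_le _⟩
  | succ N ih =>
    obtain ⟨u, hu, hr, hl⟩ := ih
    obtain ⟨u1, u2, h1, h2, h12, ht1, ht2⟩ := H.split p hp u hu
    by_cases hlen : u.length < u1.length
    · exact ⟨u1, ht1, hr.trans h1, by omega⟩
    · by_cases hlen2 : u.length < u2.length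
      · exact ⟨u2, ht2, hr.trans h2, by omega⟩
      · exfalso
        apply h12
        rw [← h1.eq_of_length_le (not_lt.1 hlen), ← h2.eq_of_length_le (not_lt.1 hlen2)]
        exact fa1_cmp_refl _

theorem fa1_ext_node (H : FusH cnd tr root dec start) {p : κ} (hp : cnd p) {u : List Bool}
    (hu : tr p u) (hr : root p <+: u) : ∃ q, Fa1Ext cnd tr root p q ∧ root q = u := by
  obtain ⟨q, hq, hqu, hqt⟩ := H.long p hp u hu hr
  exact ⟨q, ⟨hq, fun v hv => ((hqt v).1 hv).1, by rw [hqu]; exact hr⟩, hqu⟩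

/-- two conditions can be made incomparable -/
theorem fa1_pair (H : FusH cnd tr root dec start) {p r : κ} (hp : cnd p) (hr : cnd r) :
    ∃ q r', Fa1Ext cnd tr root p q ∧ Fa1Ext cnd tr root r r' ∧ ¬ cmpW (root q) (root r') := by
  obtain ⟨u1, u2, h1, h2, h12, ht1, ht2⟩ := H.split r hr (root r) (H.rt r hr)
  obtain ⟨v, hv, hpv, hvl⟩ := fa1_long H hp (max u1.length u2.length)
  obtain ⟨q, hq, hqv⟩ := fa1_ext_node H hp hv hpv
  by_cases hc : cmpW v u1
  · have hc2 : ¬ cmpW v u2 := by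
      intro hc2
      have a1 := fa1_prefix_of_cmp hc (by omega)
      have a2 := fa1_prefix_of_cmp hc2 (by omega)
      exact h12 (List.prefix_or_prefix_of_prefix a1 a2)
    obtain ⟨r', hr', hru⟩ := fa1_ext_node H hr ht2 h2
    exact ⟨q, r', hq, hr', by rw [hqv, hru]; exact hc2⟩
  · obtain ⟨r', hr', hru⟩ := fa1_ext_node H hr ht1 h1
    exact ⟨q, r', hq, hr', by rw [hqv, hru]; exact hc⟩

/-- a condition can be made incomparable with all members of a list -/
theorem fa1_list (H : FusH cnd tr root dec start) (R : List (ℕ × κ)) :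
    (∀ x ∈ R, cnd x.2) → ∀ p, cnd p →
    ∃ (q : κ) (R' : List (ℕ × κ)), Fa1Ext cnd tr root p q ∧
      List.Forall₂ (fun y x => x.1 = y.1 ∧ Fa1Ext cnd tr root y.2 x.2) R R' ∧
      ∀ x ∈ R', ¬ cmpW (root q) (root x.2) := by
  induction R with
  | nil =>
    intro _ p hp
    exact ⟨p, [], Fa1Ext.refl hp, List.Forall₂.nil, by simp⟩
  | cons r R ih =>
    intro hR p hp
    obtain ⟨q0, R', hq0, hRR, hinc⟩ := ih (fun x hx => hR x (List.mem_cons_of_mem _ hx)) p hp
    obtain ⟨q, r', hq, hr', hqr⟩ := fa1_pair H hq0.1 (hR r List.mem_cons_self)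
    refine ⟨q, (r.1, r') :: R', hq0.trans hq, List.Forall₂.cons ⟨rfl, hr'⟩ hRR, ?_⟩
    intro x hx
    rcases List.mem_cons.1 hx with hx | hx
    · rw [hx]
      exact hqr
    · exact fa1_ncmp_ext hq.2.2 (List.prefix_refl _) (hinc x hx)

theorem fa1_forall₂_mem {α β : Type} {R : α → β → Prop} {l : List α} {l' : List β}
    (h : List.Forall₂ R l l') : (∀ x ∈ l', ∃ y ∈ l, R y x) ∧ (∀ y ∈ l, ∃ x ∈ l', R y x) := by
  induction h with
  | nil => simp
  | cons hR _ ih =>
    refine ⟨fun x hx => ?_, fun y hy => ?_⟩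
    · rcases List.mem_cons.1 hx with hx | hx
      · rw [hx]
        exact ⟨_, List.mem_cons_self, hR⟩
      · obtain ⟨y, hy, hyx⟩ := ih.1 x hx
        exact ⟨y, List.mem_cons_of_mem _ hy, hyx⟩
    · rcases List.mem_cons.1 hy with hy | hy
      · rw [hy]
        exact ⟨_, List.mem_cons_self, hR⟩
      · obtain ⟨x, hx, hyx⟩ := ih.2 y hy
        exact ⟨x, List.mem_cons_of_mem _ hx, hyx⟩

/-- shrinking the members of a pairwise incomparable list -/
theorem fa1_pairwise_ext {M M' : List (ℕ × κ)}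
    (h : List.Forall₂ (fun y x => x.1 = y.1 ∧ Fa1Ext cnd tr root y.2 x.2) M M') :
    M.Pairwise (fun a b => ¬ cmpW (root a.2) (root b.2)) →
    M'.Pairwise (fun a b => ¬ cmpW (root a.2) (root b.2)) := by
  induction h with
  | nil => intro _; exact List.Pairwise.nil
  | cons hR hRR ih =>
    intro hp
    rw [List.pairwise_cons] at hp ⊢
    refine ⟨fun x hx => ?_, ih hp.2⟩
    obtain ⟨y, hy, -, hyx⟩ := (fa1_forall₂_mem hRR).1 x hx
    exact fa1_ncmp_ext hR.2.2.2 hyx.2.2 (hp.1 y hy)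

/-- all members of a list can be made pairwise incomparable -/
theorem fa1_inc (H : FusH cnd tr root dec start) (M : List (ℕ × κ)) :
    (∀ x ∈ M, cnd x.2) →
    ∃ M' : List (ℕ × κ), List.Forall₂ (fun y x => x.1 = y.1 ∧ Fa1Ext cnd tr root y.2 x.2) M M' ∧
      M'.Pairwise (fun a b => ¬ cmpW (root a.2) (root b.2)) := by
  induction M with
  | nil =>
    intro _
    exact ⟨[], List.Forall₂.nil, List.Pairwise.nil⟩
  | cons p M ih =>
    intro hM
    obtain ⟨M', hMM, hpw⟩ := ih (fun x hx => hM x (List.mem_cons_of_mem _ hx))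
    have hM' : ∀ x ∈ M', cnd x.2 := by
      intro x hx
      obtain ⟨y, -, -, hyx⟩ := (fa1_forall₂_mem hMM).1 x hx
      exact hyx.1
    obtain ⟨q, M'', hq, hMM', hinc⟩ := fa1_list H M' hM' p.2 (hM p List.mem_cons_self)
    refine ⟨(p.1, q) :: M'', List.Forall₂.cons ⟨rfl, hq⟩ ?_, ?_⟩
    · clear hinc hpw hM' ih hq
      induction hMM generalizing M'' with
      | nil =>
        cases hMM'
        exact List.Forall₂.nil
      | cons h1 h2 ih2 =>
        cases hMM' with
        | cons h3 h4 =>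
          refine List.Forall₂.cons ⟨h3.1.trans h1.1, h1.2.trans h3.2⟩ (ih2 ?_ _ h4)
          intro x hx
          rcases List.mem_cons.1 hx with hx | hx
          · exact hM x (by rw [hx]; exact List.mem_cons_self)
          · exact hM x (List.mem_cons_of_mem _ (List.mem_cons_of_mem _ hx))
    · rw [List.pairwise_cons]
      exact ⟨hinc, fa1_pairwise_ext hMM' hpw⟩

/-- deciding `0, ..., n` -/
theorem fa1_dec (H : FusH cnd tr root dec start) (n : ℕ) {p : κ} (hp : cnd p) :
    ∃ q, cnd q ∧ (∀ u, tr q u → tr p u) ∧ ∀ j ≤ n, dec j q := by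
  induction n with
  | zero =>
    obtain ⟨q, hq, hqp, hd⟩ := H.decd 0 p hp
    refine ⟨q, hq, hqp, fun j hj => ?_⟩
    obtain rfl : j = 0 := by omega
    exact hd
  | succ n ih =>
    obtain ⟨q, hq, hqp, hd⟩ := ih
    obtain ⟨q', hq', hqq', hd'⟩ := H.decd (n + 1) q hq
    refine ⟨q', hq', fun u hu => hqp u (hqq' u hu), fun j hj => ?_⟩
    rcases Nat.lt_or_ge n j with h | h
    · obtain rfl : j = n + 1 := by omega
      exact hd'
    · exact H.deco j q q' hq hq' (hd j h) hqq'

/-- the final strengthening of one condition -/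
theorem fa1_fin (H : FusH cnd tr root dec start) (n : ℕ) {p : κ} (hp : cnd p) :
    ∃ q : κ, Fa1Ext cnd tr root p q ∧ (∀ j ≤ n, dec j q) ∧ n ≤ (root q).length ∧
      (root p).length < (root q).length := by
  obtain ⟨q1, hq1, hqp, hd⟩ := fa1_dec H n hp
  obtain ⟨u, hu, hru, hul⟩ := fa1_long H hq1 (max n ((root p).length + 1))
  obtain ⟨q2, hq2, hq2u⟩ := fa1_ext_node H hq1 hu hru
  have hpu : root p <+: u := fa1_prefix_of_cmp (H.cmp p u (hqp u hu)) (by omega)
  refine ⟨q2, ⟨hq2.1, fun v hv => hqp v (hq2.2.1 v hv), by rw [hq2u]; exact hpu⟩, ?_, ?_, ?_⟩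
  · intro j hj
    exact H.deco j q1 q2 hq1 hq2.1 (hd j hj) hq2.2.1
  · rw [hq2u]
    omega
  · rw [hq2u]
    omega

theorem fa1_finL (H : FusH cnd tr root dec start) (n : ℕ) {M M' : List (ℕ × κ)}
    (h : List.Forall₂ (fun y x => x.1 = y.1 ∧ Fa1Ext cnd tr root y.2 x.2) M M') :
    ∃ M'' : List (ℕ × κ), List.Forall₂ (fun y x => x.1 = y.1 ∧ Fa1Ext cnd tr root y.2 x.2) M' M'' ∧
      List.Forall₂ (fun y x => x.1 = y.1 ∧ Fa1Ext cnd tr root y.2 x.2 ∧ (∀ j ≤ n, dec j x.2) ∧
        n ≤ (root x.2).length ∧ (root y.2).length < (root x.2).length) M M'' := by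
  induction h with
  | nil => exact ⟨[], List.Forall₂.nil, List.Forall₂.nil⟩
  | cons h1 _ ih =>
    obtain ⟨M'', hM1, hM2⟩ := ih
    rename_i y x l l' _
    obtain ⟨q, hq, hd, hn, hl⟩ := fa1_fin H n h1.2.1
    refine ⟨(x.1, q) :: M'', List.Forall₂.cons ⟨rfl, hq⟩ hM1,
      List.Forall₂.cons ⟨h1.1, h1.2.trans hq, hd, hn, ?_⟩ hM2⟩
    exact h1.2.2.2.length_le.trans_lt hl

variable [Encodable κ]

theorem fus_step (H : FusH cnd tr root dec start) (n : ℕ) (L : List (ℕ × κ))
    (hL : ∀ x ∈ L, cnd x.2) : ∃ L', StepF cnd tr root dec start n L L' := by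
  have hM : ∀ x ∈ (L ++ (L ++ [(n, start n)]) : List (ℕ × κ)), cnd x.2 := by
    intro x hx
    rcases List.mem_append.1 hx with hx | hx
    · exact hL x hx
    · rcases List.mem_append.1 hx with hx | hx
      · exact hL x hx
      · rw [List.mem_singleton.1 hx]
        exact H.start n
  obtain ⟨M1, hM1, hpw1⟩ := fa1_inc H _ hM
  obtain ⟨L', h1, h2⟩ := fa1_finL H n hM1
  have hpw := fa1_pairwise_ext h1 hpw1
  have hmem := fa1_forall₂_mem h2
  refine ⟨L', ?_, ?_, ?_, ?_⟩
  · intro x hx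
    obtain ⟨y, hy, e, hext, hd, hn, hl⟩ := hmem.1 x hx
    refine ⟨hext.1, hd, hn, ?_⟩
    have hy' : y ∈ L ∨ y = (n, start n) := by
      rcases List.mem_append.1 hy with hy | hy
      · exact Or.inl hy
      · rcases List.mem_append.1 hy with hy | hy
        · exact Or.inl hy
        · exact Or.inr (List.mem_singleton.1 hy)
    rcases hy' with hy' | rfl
    · exact Or.inl ⟨y, hy', e.symm, hext.2.1, hl⟩
    · exact Or.inr ⟨e, hext.2.1, hl⟩
  · intro y hy
    obtain ⟨A, B, hA, hB, rfl⟩ : ∃ A B : List (ℕ × κ), List.Forall₂ (fun y x => x.1 = y.1 ∧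
        Fa1Ext cnd tr root y.2 x.2 ∧ (∀ j ≤ n, dec j x.2) ∧
        n ≤ (root x.2).length ∧ (root y.2).length < (root x.2).length) L A ∧
        List.Forall₂ (fun y x => x.1 = y.1 ∧
        Fa1Ext cnd tr root y.2 x.2 ∧ (∀ j ≤ n, dec j x.2) ∧
        n ≤ (root x.2).length ∧ (root y.2).length < (root x.2).length)
          (L ++ [(n, start n)]) B ∧ L' = A ++ B := by
      have hA := List.forall₂_take L.length h2
      have hB := List.forall₂_drop L.length h2
      rw [List.take_left] at hA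
      rw [List.drop_left] at hB
      exact ⟨L'.take L.length, L'.drop L.length, hA, hB, (List.take_append_drop _ _).symm⟩
    obtain ⟨x, hx, e1, ex1, -⟩ := (fa1_forall₂_mem hA).2 y hy
    obtain ⟨x', hx', e2, ex2, -⟩ := (fa1_forall₂_mem hB).2 y (List.mem_append_left _ hy)
    refine ⟨x, List.mem_append_left _ hx, x', List.mem_append_right _ hx', ?_, e1, e2,
      ex1.2.1, ex2.2.1⟩
    rintro rfl
    exact (List.pairwise_append.1 hpw).2.2 x hx x hx' (fa1_cmp_refl _)
  · intro x hx x' hx' hne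
    have : Std.Symm (fun a b : ℕ × κ => ¬ cmpW (root a.2) (root b.2)) :=
      ⟨fun a b hab hba => hab (fa1_cmp_symm hba)⟩
    exact hpw.forall hx hx' hne
  · obtain ⟨x, hx, e, -⟩ := hmem.2 (n, start n) (by simp)
    exact ⟨x, hx, e⟩

end FA

end Pool.Agent.HT
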