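import Pool.Agent.Helper85.HT.FA1

set_option autoImplicit false

/-! # Module FA2: properties of the fusion -/

namespace Pool.Agent.HT

section FA
variable {κ : Type} [Encodable κ] {cnd : κ → Prop} {tr : κ → List Bool → Prop}
  {root : κ → List Bool} {dec : ℕ → κ → Prop} {start : ℕ → κ}

theorem fa2_cmp_of_prefix {a b c : List Bool} (h1 : a <+: c) (h2 : b <+: c) : cmpW a b :=
  List.prefix_or_prefix_of_prefix h1 h2

theorem fa2_cmp_symm {a b : List Bool} (h : cmpW a b) : cmpW b a := h.symm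

theorem fa2_prefix_of_cmp_le {a b : List Bool} (h : cmpW a b) (hl : a.length ≤ b.length) :
    a <+: b := by
  rcases h with h | h
  · exact h
  · have := h.eq_of_length_le hl
    rw [this]

theorem fa2_pre_prefix (x : Cantor) {a b : ℕ} (h : a ≤ b) : pre x a <+: pre x b := by
  have e : pre x a = (pre x b).take a := by
    unfold pre
    rw [← List.map_take, List.take_range, min_eq_left h]
  rw [e]
  exact List.take_prefix _ _

theorem fa2_cmp_pre (x : Cantor) {w : List Bool} (h : cmpW (pre x w.length) w) :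
    w = pre x w.length := by
  rcases h with h | h
  · exact (h.eq_of_length (by rw [length_pre])).symm
  · exact h.eq_of_length (by rw [length_pre])

omit [Encodable κ] in
theorem fa2_eta {x : ℕ × κ} {j : ℕ} (e : x.1 = j) : x = (j, x.2) := by
  rw [← e]

open Classical in
theorem fa2_leastL {Q : List (ℕ × κ) → Prop} (h : ∃ L, Q L) : Q (leastL Q) := by
  have h' : ∃ c : ℕ, ∃ L : List (ℕ × κ), Encodable.encode L = c ∧ Q L := by
    obtain ⟨L, hL⟩ := h
    exact ⟨_, L, rfl, hL⟩
  unfold leastL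
  rw [dif_pos h']
  exact (Classical.choose_spec (Nat.find_spec h')).2

theorem fa2_step (H : FusH cnd tr root dec start) (n : ℕ) :
    (∀ x ∈ Lfus cnd tr root dec start n, cnd x.2) ∧
    StepF cnd tr root dec start n (Lfus cnd tr root dec start n)
      (Lfus cnd tr root dec start (n + 1)) := by
  induction n with
  | zero =>
    have h0 : ∀ x ∈ Lfus cnd tr root dec start 0, cnd x.2 := by
      intro x hx
      simp [Lfus] at hx
    exact ⟨h0, fa2_leastL (fus_step H 0 _ h0)⟩
  | succ n ih =>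
    have h0 : ∀ x ∈ Lfus cnd tr root dec start (n + 1), cnd x.2 :=
      fun x hx => (ih.2.1 x hx).1
    exact ⟨h0, fa2_leastL (fus_step H (n + 1) _ h0)⟩

theorem fa2_lt (H : FusH cnd tr root dec start) (n : ℕ) :
    ∀ x ∈ Lfus cnd tr root dec start n, x.1 < n := by
  induction n with
  | zero => intro x hx; simp [Lfus] at hx
  | succ n ih =>
    intro x hx
    rcases ((fa2_step H n).2.1 x hx).2.2.2 with ⟨y, hy, e, -, -⟩ | ⟨e, -, -⟩
    · have := ih y hy
      omega
    · omega

theorem fa2_mem (H : FusH cnd tr root dec start) (j n : ℕ) (h : j < n) :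
    ∃ q, (j, q) ∈ Lfus cnd tr root dec start n := by
  induction n with
  | zero => omega
  | succ n ih =>
    rcases Nat.lt_succ_iff_lt_or_eq.1 h with h | h
    · obtain ⟨q, hq⟩ := ih h
      obtain ⟨x, hx, x', hx', -, e, -⟩ := (fa2_step H n).2.2.1 _ hq
      exact ⟨x.2, fa2_eta e ▸ hx⟩
    · obtain ⟨x, hx, e⟩ := (fa2_step H n).2.2.2.2
      exact ⟨x.2, fa2_eta (e.trans h.symm) ▸ hx⟩

theorem fa2_inc (H : FusH cnd tr root dec start) (n : ℕ) {x x' : ℕ × κ}
    (hx : x ∈ Lfus cnd tr root dec start n) (hx' : x' ∈ Lfus cnd tr root dec start n)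
    (h : cmpW (root x.2) (root x'.2)) : x = x' := by
  cases n with
  | zero => simp [Lfus] at hx
  | succ n =>
    by_contra hne
    exact (fa2_step H n).2.2.2.1 x hx x' hx' hne h

/-- parents -/
theorem fa2_parent (H : FusH cnd tr root dec start) (n : ℕ) {x y : ℕ × κ}
    (hx : x ∈ Lfus cnd tr root dec start (n + 1)) (hy : y ∈ Lfus cnd tr root dec start n)
    (e : x.1 = y.1) (h : ∀ u, tr x.2 u → tr y.2 u) :
    root y.2 <+: root x.2 ∧ (root y.2).length < (root x.2).length := by
  have hc := ((fa2_step H n).2.1 x hx).1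
  rcases ((fa2_step H n).2.1 x hx).2.2.2 with ⟨y', hy', e', ht, hl⟩ | ⟨e', -, -⟩
  · have h1 : cmpW (root x.2) (root y'.2) := H.cmp _ _ (ht _ (H.rt _ hc))
    have h2 : root y'.2 <+: root x.2 := fa2_prefix_of_cmp_le (fa2_cmp_symm h1) hl.le
    have h3 : cmpW (root x.2) (root y.2) := H.cmp _ _ (h _ (H.rt _ hc))
    have h4 : cmpW (root y.2) (root y'.2) := by
      rcases h3 with h3 | h3
      · exact Or.inr (h2.trans h3)
      · exact fa2_cmp_of_prefix h3 h2
    have h5 := fa2_inc H n hy hy' h4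
    rw [h5]
    exact ⟨h2, hl⟩
  · have := fa2_lt H n y hy
    omega

theorem fa2_desc (H : FusH cnd tr root dec start) (n m : ℕ) {j : ℕ} {q : κ}
    (hq : (j, q) ∈ Lfus cnd tr root dec start n) :
    ∃ q', (j, q') ∈ Lfus cnd tr root dec start (n + m) ∧ root q <+: root q' := by
  induction m with
  | zero => exact ⟨q, hq, List.prefix_refl _⟩
  | succ m ih =>
    obtain ⟨q', hq', h⟩ := ih
    obtain ⟨x, hx, x', hx', -, e, -, ht, -⟩ := (fa2_step H (n + m)).2.2.1 _ hq'
    refine ⟨x.2, ?_, h.trans (fa2_parent H (n + m) hx hq' e ht).1⟩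
    exact fa2_eta (j := j) e ▸ hx

theorem fa2_anc (H : FusH cnd tr root dec start) (n m : ℕ) {j : ℕ} {q : κ} (hj : j < n)
    (hq : (j, q) ∈ Lfus cnd tr root dec start (n + m)) :
    ∃ p, (j, p) ∈ Lfus cnd tr root dec start n ∧ ∀ u, tr q u → tr p u := by
  induction m generalizing q with
  | zero => exact ⟨q, hq, fun _ h => h⟩
  | succ m ih =>
    rcases ((fa2_step H (n + m)).2.1 _ hq).2.2.2 with ⟨y, hy, e, ht, -⟩ | ⟨e, -, -⟩
    · have : y = (j, y.2) := fa2_eta e
      rw [this] at hy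
      obtain ⟨p, hp, h⟩ := ih hy
      exact ⟨p, hp, fun u hu => h u (ht u hu)⟩
    · simp only at e
      omega

theorem fa2_cnd (H : FusH cnd tr root dec start) {n j : ℕ} {q : κ}
    (hq : (j, q) ∈ Lfus cnd tr root dec start n) : cnd q := (fa2_step H n).1 _ hq

theorem fa2_len (H : FusH cnd tr root dec start) {n j : ℕ} {q : κ}
    (hq : (j, q) ∈ Lfus cnd tr root dec start (n + 1)) :
    n ≤ (root q).length ∧ ∀ i ≤ n, dec i q :=
  ⟨((fa2_step H n).2.1 _ hq).2.2.1, ((fa2_step H n).2.1 _ hq).2.1⟩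

theorem fa2_root_mem (H : FusH cnd tr root dec start) {n j : ℕ} {q : κ}
    (hq : (j, q) ∈ Lfus cnd tr root dec start n) : Fnode cnd tr root dec start j (root q) := by
  intro n' hn'
  rcases le_total n n' with h | h
  · obtain ⟨m, rfl⟩ := Nat.exists_eq_add_of_le h
    obtain ⟨q', hq', hr⟩ := fa2_desc H n m hq
    exact ⟨q', hq', H.pref _ (fa2_cnd H hq') _ _ hr (H.rt _ (fa2_cnd H hq'))⟩
  · obtain ⟨m, rfl⟩ := Nat.exists_eq_add_of_le h
    obtain ⟨p, hp, ht⟩ := fa2_anc H n' m hn' hq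
    exact ⟨p, hp, ht _ (H.rt _ (fa2_cnd H hq))⟩

theorem fa2_in (H : FusH cnd tr root dec start) {n j : ℕ} {q : κ}
    (hq : (j, q) ∈ Lfus cnd tr root dec start n) {u : List Bool}
    (hu : Fnode cnd tr root dec start j u) (hc : cmpW u (root q)) : tr q u := by
  rcases hc with hc | hc
  · exact H.pref _ (fa2_cnd H hq) _ _ hc (H.rt _ (fa2_cnd H hq))
  · obtain ⟨q', hq', ht⟩ := hu n (fa2_lt H n _ hq)
    have h1 : cmpW (root q) (root q') := by
      rcases H.cmp _ _ ht with h | h
      · exact Or.inl (hc.trans h)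
      · exact fa2_cmp_of_prefix hc h
    have h2 := fa2_inc H n hq hq' h1
    rw [Prod.mk.injEq] at h2
    rw [h2.2]; exact ht

theorem fus_nil (H : FusH cnd tr root dec start) (j : ℕ) :
    Fnode cnd tr root dec start j [] := by
  intro n hn
  obtain ⟨q, hq⟩ := fa2_mem H j n hn
  exact ⟨q, hq, H.pref _ (fa2_cnd H hq) _ _ List.nil_prefix (H.rt _ (fa2_cnd H hq))⟩

theorem fus_pref (H : FusH cnd tr root dec start) (j : ℕ) (u u' : List Bool) (hu : u' <+: u)
    (h : Fnode cnd tr root dec start j u) : Fnode cnd tr root dec start j u' := by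
  intro n hn
  obtain ⟨q, hq, ht⟩ := h n hn
  exact ⟨q, hq, H.pref _ (fa2_cnd H hq) _ _ hu ht⟩

theorem fus_split (H : FusH cnd tr root dec start) (j : ℕ) (u : List Bool)
    (h : Fnode cnd tr root dec start j u) : ∃ u1 u2, u <+: u1 ∧ u <+: u2 ∧ ¬ cmpW u1 u2 ∧
      Fnode cnd tr root dec start j u1 ∧ Fnode cnd tr root dec start j u2 := by
  obtain ⟨q, hq, ht⟩ := h (u.length + j + 1) (by omega)
  have hl := (fa2_len H hq).1
  have h1 : u <+: root q := fa2_prefix_of_cmp_le (H.cmp _ _ ht) (by omega)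
  obtain ⟨x, hx, x', hx', hne, e, e', hs, hs'⟩ := (fa2_step H (u.length + j + 1)).2.2.1 _ hq
  have h2 := fa2_parent H _ hx hq e hs
  have h3 := fa2_parent H _ hx' hq e' hs'
  refine ⟨root x.2, root x'.2, h1.trans h2.1, h1.trans h3.1, ?_, ?_, ?_⟩
  · intro hc
    exact hne (fa2_inc H _ hx hx' hc)
  · have : x = (j, x.2) := fa2_eta e
    rw [this] at hx
    exact fa2_root_mem H hx
  · have : x' = (j, x'.2) := fa2_eta e'
    rw [this] at hx'
    exact fa2_root_mem H hx'

theorem fa2_bar (H : FusH cnd tr root dec start) {j : ℕ} {x : Cantor}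
    (h : ∀ n, Fnode cnd tr root dec start j (pre x n)) {n : ℕ} (hn : j < n) :
    ∃ q, (j, q) ∈ Lfus cnd tr root dec start n ∧ ∀ i, tr q (pre x i) := by
  by_contra hcon
  push Not at hcon
  have h1 : ∀ q ∈ Lfus cnd tr root dec start n, ∃ i, q.1 = j → ¬ tr q.2 (pre x i) := by
    intro q hq
    by_cases e : q.1 = j
    · have : q = (j, q.2) := fa2_eta e
      rw [this] at hq
      obtain ⟨i, hi⟩ := hcon _ hq
      exact ⟨i, fun _ => hi⟩
    · exact ⟨0, fun e' => absurd e' e⟩
  have h2 : ∃ N : ℕ, ∀ q ∈ Lfus cnd tr root dec start n, q.1 = j → ¬ tr q.2 (pre x N) := by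
    have aux : ∀ l : List (ℕ × κ), (∀ q ∈ l, q ∈ Lfus cnd tr root dec start n) →
        ∃ N : ℕ, ∀ q ∈ l, q.1 = j → ¬ tr q.2 (pre x N) := by
      intro l
      induction l with
      | nil => intro _; exact ⟨0, by simp⟩
      | cons a l ih =>
        intro hl
        obtain ⟨N, hN⟩ := ih (fun q hq => hl q (List.mem_cons_of_mem _ hq))
        obtain ⟨i, hi⟩ := h1 a (hl a List.mem_cons_self)
        refine ⟨max N i, ?_⟩
        intro q hq e ht
        have hc : cnd q.2 := (fa2_step H n).1 _ (hl q hq)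
        rcases List.mem_cons.1 hq with rfl | hq
        · exact hi e (H.pref _ hc _ _ (fa2_pre_prefix x (le_max_right _ _)) ht)
        · exact hN q hq e (H.pref _ hc _ _ (fa2_pre_prefix x (le_max_left _ _)) ht)
    exact aux _ (fun q hq => hq)
  obtain ⟨N, hN⟩ := h2
  obtain ⟨q, hq, ht⟩ := h N n hn
  exact hN _ hq rfl ht

omit [Encodable κ] in
theorem fa2_root_pre (H : FusH cnd tr root dec start) {x : Cantor} {q : κ}
    (h : ∀ i, tr q (pre x i)) : root q = pre x (root q).length :=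
  fa2_cmp_pre x (H.cmp _ _ (h _))

theorem fus_disj (H : FusH cnd tr root dec start) (j j' : ℕ) (x : Cantor)
    (h : ∀ n, Fnode cnd tr root dec start j (pre x n))
    (h' : ∀ n, Fnode cnd tr root dec start j' (pre x n)) : j = j' := by
  obtain ⟨q, hq, hx⟩ := fa2_bar H h (n := max j j' + 1) (by omega)
  obtain ⟨q', hq', hx'⟩ := fa2_bar H h' (n := max j j' + 1) (by omega)
  have hc : cmpW (root q) (root q') := by
    rw [fa2_root_pre H hx, fa2_root_pre H hx']
    rcases le_total (root q).length (root q').length with hl | hl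
    · exact Or.inl (fa2_pre_prefix x hl)
    · exact Or.inr (fa2_pre_prefix x hl)
  have := fa2_inc H _ hq hq' hc
  rw [Prod.mk.injEq] at this
  exact this.1

theorem fus_start (H : FusH cnd tr root dec start) (j : ℕ) (u : List Bool)
    (h : Fnode cnd tr root dec start j u) : tr (start j) u := by
  obtain ⟨q, hq, ht⟩ := h (j + 1) (by omega)
  rcases ((fa2_step H j).2.1 _ hq).2.2.2 with ⟨y, hy, e, -, -⟩ | ⟨-, h1, -⟩
  · have := fa2_lt H j y hy
    simp only at e
    omega
  · exact h1 u ht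

theorem fus_bar (H : FusH cnd tr root dec start) (j : ℕ) (x : Cantor)
    (h : ∀ n, Fnode cnd tr root dec start j (pre x n)) (N : ℕ) :
    ∃ q n, cnd q ∧ (∀ i, tr q (pre x i)) ∧ N ≤ n ∧ root q = pre x n ∧
      (∀ u, Fnode cnd tr root dec start j u → cmpW u (root q) → tr q u) ∧
      ∀ i ≤ N, dec i q := by
  obtain ⟨q, hq, hx⟩ := fa2_bar H h (n := max j N + 1) (by omega)
  have hl := fa2_len H hq
  exact ⟨q, (root q).length, fa2_cnd H hq, hx, (le_max_right _ _).trans hl.1, fa2_root_pre H hx,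
    fun u hu hc => fa2_in H hq hu hc, fun i hi => hl.2 i (hi.trans (le_max_right _ _))⟩

end FA

end Pool.Agent.HT
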