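import Pool.Agent.Helper85.HT.HullDefs

set_option autoImplicit false

/-!
# The part FORC: definitions (coded version)

The data of a stage of the hull machine: countably many pairwise disjoint perfect trees
(called threads), with partial information about the run of the local process `P` on their branches.
-/

namespace Pool.Agent.HT

open Ordinal

/-- conditions: a thread of a stage (or the full binary tree) and a node -/
abbrev Cnd : Type := Option (Tm × ℕ) × List Bool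

/-- comparable words -/
def cmpW (u w : List Bool) : Prop := u <+: w ∨ w <+: u

/-! ### the data of a stage -/

/-- value of the cell `m` of the hull machine -/
def qRaw (m : ℕ) : ℕ := Nat.pair 0 m
/-- `w` is a node of thread `k` -/
def qTree (k : ℕ) (w : List Bool) : ℕ := Nat.pair 1 (Encodable.encode (k, w))
/-- on thread `k` below `w`, bit `m` of stage number `l` of the process is `v` -/
def qKnow (k : ℕ) (w : List Bool) (l m : ℕ) (v : Bool) : ℕ :=
  Nat.pair 2 (Encodable.encode (k, w, l, m, v))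
/-- the same for the present stage -/
def qSelf (k : ℕ) (w : List Bool) (m : ℕ) (v : Bool) : ℕ :=
  Nat.pair 3 (Encodable.encode (k, w, m, v))
/-- the stage replaces the stage with name `l` -/
def qPop (l : ℕ) : ℕ := Nat.pair 4 l
/-- version number -/
def qVer (i : ℕ) : ℕ := Nat.pair 5 i
/-- name of the origin -/
def qOrg (l : ℕ) : ℕ := Nat.pair 6 l
/-- the requirement with code `q` holds -/
def qTrue (q : ℕ) : ℕ := Nat.pair 7 q

/-! ### predicates of the canonical state -/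

/-- `u` is a node of the tree of the condition `p` -/
def inT (C : HS) (p : Cnd) (u : List Bool) : Prop :=
  cmpW u p.2 ∧ ∀ x, p.1 = some x → C.dat x.1 (qTree x.2 u)

/-- the stage named by `s` has not been replaced or killed -/
def liveC (C : HS) (s : Tm) : Prop :=
  C.dom s ∧ ∀ s' l, C.dat s' (qPop l) → C.dom (subt l s') →
    ¬ (C.lt s s' ∧ ¬ C.lt s (subt l s'))

def cond (C : HS) (p : Cnd) : Prop :=
  ∀ x, p.1 = some x → liveC C x.1 ∧ C.dat x.1 (qTree x.2 p.2)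

def sub (C : HS) (p q : Cnd) : Prop := ∀ u, inT C p u → inT C q u

/-- the data of the stage of `p` tell that bit `m` of stage `t` is `v` on `p` -/
def know0 (C : HS) (p : Cnd) (t : Tm) (m : ℕ) (v : Bool) : Prop :=
  ∃ x, p.1 = some x ∧ ∃ w0, w0 <+: p.2 ∧
    ((∃ l, C.dat x.1 (qKnow x.2 w0 l m v) ∧ C.eqv (subt l x.1) t) ∨
     (C.eqv x.1 t ∧ C.dat x.1 (qSelf x.2 w0 m v)))

def know (C : HS) (p : Cnd) (t : Tm) (m : ℕ) (v : Bool) : Prop :=
  ∃ p', cond C p' ∧ sub C p p' ∧ know0 C p' t m v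

/-- some subcondition knows that bit `m` is `1` at some stage `≥ n0` -/
def EE (C : HS) (p : Cnd) (m : ℕ) (n0 : Tm) : Prop :=
  ∃ r t, cond C r ∧ sub C r p ∧ C.dom t ∧ ¬ C.lt t n0 ∧ know C r t m true

def DD (C : HS) (p : Cnd) (m : ℕ) (u : Tm) : Prop :=
  ∀ r, cond C r → sub C r p → EE C r m u

/-! ### requirements -/

/-- relative conditions -/
abbrev RCnd : Type := Option (ℕ × ℕ) × List Bool

/-- type, condition, stage, cell -/
abbrev Req : Type := Bool × RCnd × ℕ × ℕ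

/-- relative to the stage `g` -/
def relc (g : Tm) (c : RCnd) : Cnd := (c.1.map (fun x => (subt x.1 g, x.2)), c.2)
/-- relative to the present stage -/
def relh (c : RCnd) : Cnd := (c.1.map (fun x => (tmOf x.1, x.2)), c.2)

def reqC (C : HS) (r : Req) (g u : Tm) : Prop :=
  (r.1 = false ∧ ¬ EE C (relc g r.2.1) r.2.2.2 (subt r.2.2.1 g)) ∨
  (r.1 = true ∧ DD C (relc g r.2.1) r.2.2.2 u)

def trueC (C : HS) (r : Req) : Prop :=
  cond C (relh r.2.1) ∧
  ((r.1 = false ∧ C.dom (tmOf r.2.2.1) ∧ ¬ EE C (relh r.2.1) r.2.2.2 (tmOf r.2.2.1)) ∨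
   (r.1 = true ∧ ∀ u, C.dom u → DD C (relh r.2.1) r.2.2.2 u))

/-! ### replacing a stage by a new version -/

def orgOf (C : HS) (c g : Tm) : Prop :=
  (∃ l, C.dat c (qOrg l) ∧ g = subt l c) ∨ ((¬ ∃ l, C.dat c (qOrg l)) ∧ g = c)

def cond1C (C : HS) (i : ℕ) (g c : Tm) : Prop :=
  ∀ s : Tm, Encodable.encode s < i → ¬ C.dom s ∨ C.lt s g ∨
    ∃ t, t <:+ s ∧ oddHead t ∧ C.dom t ∧ ¬ C.lt t c

def cond2C (C : HS) (i : ℕ) (g c : Tm) : Prop :=
  ∀ (q : ℕ) (r : Req), q < i → Encodable.decode (α := Req) q = some r → C.dat g (qTrue q) →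
    reqC C r g c

/-- `c` can be replaced now -/
def candC (C : HS) (c : Tm) : Prop :=
  liveC C c ∧ ∃ i g, C.dat c (qVer i) ∧ orgOf C c g ∧ C.dom g ∧ cond1C C i g c ∧ cond2C C i g c

/-- `c` is replaced now -/
def popC (C : HS) (c : Tm) : Prop := candC C c ∧ ∀ c', candC C c' → ¬ C.lt c' c

/-! ### fusion -/

section fusion

variable {κ : Type} [Encodable κ]

/-- one step of a fusion -/
def StepF (cnd : κ → Prop) (tr : κ → List Bool → Prop) (root : κ → List Bool)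
    (dec : ℕ → κ → Prop) (start : ℕ → κ) (n : ℕ) (L L' : List (ℕ × κ)) : Prop :=
  (∀ x ∈ L', cnd x.2 ∧ (∀ j ≤ n, dec j x.2) ∧ n ≤ (root x.2).length ∧
    ((∃ y ∈ L, y.1 = x.1 ∧ (∀ u, tr x.2 u → tr y.2 u) ∧
        (root y.2).length < (root x.2).length) ∨
      (x.1 = n ∧ (∀ u, tr x.2 u → tr (start n) u) ∧
        (root (start n)).length < (root x.2).length))) ∧
  (∀ y ∈ L, ∃ x ∈ L', ∃ x' ∈ L', x ≠ x' ∧ x.1 = y.1 ∧ x'.1 = y.1 ∧
    (∀ u, tr x.2 u → tr y.2 u) ∧ (∀ u, tr x'.2 u → tr y.2 u)) ∧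
  (∀ x ∈ L', ∀ x' ∈ L', x ≠ x' → ¬ cmpW (root x.2) (root x'.2)) ∧
  (∃ x ∈ L', x.1 = n)

open Classical in
/-- the element with the least code with the property `Q` -/
noncomputable def leastL (Q : List (ℕ × κ) → Prop) : List (ℕ × κ) :=
  if h : ∃ c : ℕ, ∃ L : List (ℕ × κ), Encodable.encode L = c ∧ Q L
    then Classical.choose (Nat.find_spec h) else []

/-- the fusion sequence -/
noncomputable def Lfus (cnd : κ → Prop) (tr : κ → List Bool → Prop) (root : κ → List Bool)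
    (dec : ℕ → κ → Prop) (start : ℕ → κ) : ℕ → List (ℕ × κ)
  | 0 => []
  | n + 1 => leastL (StepF cnd tr root dec start n (Lfus cnd tr root dec start n))

/-- the trees of the fusion -/
def Fnode (cnd : κ → Prop) (tr : κ → List Bool → Prop) (root : κ → List Bool)
    (dec : ℕ → κ → Prop) (start : ℕ → κ) (j : ℕ) (u : List Bool) : Prop :=
  ∀ n, j < n → ∃ q, (j, q) ∈ Lfus cnd tr root dec start n ∧ tr q u

end fusion

/-- the sets of conditions which have to be decided -/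
def EC (C : HS) (x : ℕ × Tm × ℕ × Cnd) (p : Cnd) : Prop :=
  (x.1 = 0 ∧ ∃ v, know C p x.2.1 x.2.2.1 v) ∨
  (x.1 = 1 ∧ ∃ k, sub C p (some (x.2.1, k), [])) ∨
  (x.1 = 2 ∧ ∃ n0, C.dom n0 ∧ ¬ EE C p x.2.2.1 n0) ∨
  (x.1 = 3 ∧ ∃ t', C.dom t' ∧ ¬ C.lt t' x.2.1 ∧ know C p t' x.2.2.1 true) ∨
  (x.1 = 4 ∧ sub C p x.2.2.2)

def decC (C : HS) (j : ℕ) (p : Cnd) : Prop :=
  ∀ x, Encodable.decode (α := ℕ × Tm × ℕ × Cnd) j = some x →
    EC C x p ∨ ¬ ∃ r, cond C r ∧ sub C r p ∧ EC C x r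

open Classical in
/-- the condition in which thread `n` starts -/
noncomputable def startC (C : HS) (n : ℕ) : Cnd :=
  match Encodable.decode (α := Cnd) n with
  | none => (none, [])
  | some p => if cond C p then p else (none, [])

/-- the trees of the fusion at the present stage -/
def fnode (C : HS) (j : ℕ) (u : List Bool) : Prop :=
  Fnode (cond C) (inT C) Prod.snd (decC C) (startC C) j u

def goodJ (C : HS) (c : Tm) (i k j : ℕ) : Prop :=
  (∀ u, fnode C j u → C.dat c (qTree k u)) ∧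
  ∃ w : List Bool, w.length = i ∧ ∀ u, fnode C j u → cmpW u w

/-- the threads of the present stage -/
def gnode (C : HS) (k : ℕ) (u : List Bool) : Prop :=
  (∃ c i, popC C c ∧ C.dat c (qVer i) ∧ ∃ j, goodJ C c i k j ∧ (∀ j' < j, ¬ goodJ C c i k j') ∧
    fnode C j u) ∨
  ((¬ ∃ c, popC C c) ∧ fnode C k u)

def subG (C : HS) (k : ℕ) (w : List Bool) (p : Cnd) : Prop :=
  ∀ u, gnode C k u → cmpW u w → inT C p u

def newKnow (C : HS) (k : ℕ) (w : List Bool) (l m : ℕ) (v : Bool) : Prop :=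
  gnode C k w ∧ C.dom (tmOf l) ∧ ∃ p, cond C p ∧ subG C k w p ∧ know0 C p (tmOf l) m v

def maxC (C : HS) (t : Tm) : Prop := C.dom t ∧ ∀ t', C.dom t' → ¬ C.lt t t'

def newSelf (P : LProc) (C : HS) (k : ℕ) (w : List Bool) (m : ℕ) (v : Bool) : Prop :=
  gnode C k w ∧
  (((∀ t, ¬ C.dom t) ∧ v = false) ∨
   (∃ t p, ∃ τ : List Bool, maxC C t ∧ cond C p ∧ subG C k w p ∧ τ.length = P.h m ∧
      (∀ i b, τ[i]? = some b → know C p t i b) ∧ P.h m ≤ w.length ∧
      v = P.g (m, τ, w.take (P.h m))) ∨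
   ((¬ ∃ t, maxC C t) ∧ (∃ t, C.dom t) ∧ v = false ∧
      ∃ p n0, cond C p ∧ subG C k w p ∧ C.dom n0 ∧ ¬ EE C p m n0) ∨
   ((¬ ∃ t, maxC C t) ∧ (∃ t, C.dom t) ∧ v = true ∧
      ∃ p, cond C p ∧ subG C k w p ∧ ∀ u, C.dom u → DD C p m u))

def nVer (C : HS) (i : ℕ) : Prop :=
  (∃ c i0, popC C c ∧ C.dat c (qVer i0) ∧ i = i0 + 1) ∨ ((¬ ∃ c, popC C c) ∧ i = 0)

def nOrg (C : HS) (l : ℕ) : Prop := ∃ c g, popC C c ∧ orgOf C c g ∧ C.eqv g (tmOf l)

/-- the data of the present stage -/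
def ThF (P : LProc) (C : HS) (q : ℕ) : Prop :=
  (q.unpair.1 = 0 ∧ C.raw q.unpair.2) ∨
  (q.unpair.1 = 1 ∧ ∃ k w, q.unpair.2 = Encodable.encode (k, w) ∧ gnode C k w) ∨
  (q.unpair.1 = 2 ∧ ∃ (k : ℕ) (w : List Bool) (l m : ℕ) (v : Bool),
    q.unpair.2 = Encodable.encode (k, w, l, m, v) ∧ newKnow C k w l m v) ∨
  (q.unpair.1 = 3 ∧ ∃ (k : ℕ) (w : List Bool) (m : ℕ) (v : Bool),
    q.unpair.2 = Encodable.encode (k, w, m, v) ∧ newSelf P C k w m v) ∨
  (q.unpair.1 = 4 ∧ popC C (tmOf q.unpair.2)) ∨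
  (q.unpair.1 = 5 ∧ nVer C q.unpair.2) ∨
  (q.unpair.1 = 6 ∧ nOrg C q.unpair.2) ∨
  (q.unpair.1 = 7 ∧ ∃ r : Req, Encodable.decode (α := Req) q.unpair.2 = some r ∧ trueC C r)

/-- the conditions of the searches -/
def PsF (C : HS) (n : ℕ) (t s : Tm) : Prop :=
  n = 0 ∨
  (n = 1 ∧ ¬ C.lt t s) ∨
  (2 ≤ n ∧ (n - 2).unpair.1 = 0 ∧ C.raw (n - 2).unpair.2) ∨
  (2 ≤ n ∧ (n - 2).unpair.1 = 1 ∧ ∀ s', C.dom s' →
    ¬ C.lt s' (subt (n - 2).unpair.2.unpair.1 t) → ¬ C.dat s' (qRaw (n - 2).unpair.2.unpair.2)) ∨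
  (2 ≤ n ∧ (n - 2).unpair.1 = 2 ∧ ∀ s' l', C.dat s' (qPop l') →
    ¬ C.eqv (subt l' s') (subt (n - 2).unpair.2 t)) ∨
  (2 ≤ n ∧ (n - 2).unpair.1 = 3 ∧ ∀ q ∈ tmOf (n - 2).unpair.2, ∀ r : Req,
    Encodable.decode (α := Req) q = some r → reqC C r t s)

/-- `y` is rejected: it is on no thread of the present stage. -/
def RjF (y : Cantor) (C : HS) : Prop := ¬ ∃ k, ∀ n, gnode C k (pre y n)

end Pool.Agent.HT
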