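import Pool.Agent.Helper85.HT.FDefs

set_option autoImplicit false

/-!
# FH : the hypotheses of the hull machine for `PsF`, `ThF`
-/

namespace Pool.Agent.HT

open Ordinal

section
variable {C : HS} {V : Ordinal.{0} → Tm → Option Ordinal.{0}} {D : Ordinal.{0} → ℕ → Prop}
  {b : Ordinal.{0}}

theorem fh_subt (h : RepAt C V D b) {t t' : Tm} {a : Ordinal.{0}} (ht : V b t = some a)
    (ht' : V b t' = some a) (l : ℕ) : V b (subt l t) = V b (subt l t') := by
  unfold subt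
  rw [h.sub, h.sub, ht, ht']

theorem fh_lt_right (h : RepAt C V D b) {s t t' : Tm} (e : V b t = V b t') :
    C.lt s t ↔ C.lt s t' := by
  rw [h.lt, h.lt, e]

theorem fh_lt_left (h : RepAt C V D b) {s t t' : Tm} (e : V b t = V b t') :
    C.lt t s ↔ C.lt t' s := by
  rw [h.lt, h.lt, e]

theorem fh_dom (h : RepAt C V D b) {t t' : Tm} (e : V b t = V b t') :
    C.dom t ↔ C.dom t' := by
  rw [h.dom, h.dom, e]

theorem fh_dat (h : RepAt C V D b) {t t' : Tm} (e : V b t = V b t') (q : ℕ) :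
    C.dat t q ↔ C.dat t' q := by
  rw [h.dat, h.dat, e]

theorem fh_eqv_right (h : RepAt C V D b) {s t t' : Tm} (e : V b t = V b t') :
    C.eqv s t ↔ C.eqv s t' := by
  unfold HS.eqv
  rw [fh_dom h e, fh_lt_right h e, fh_lt_left h e]

theorem fh_inT (h : RepAt C V D b) {g g' : Tm} {a : Ordinal.{0}} (hg : V b g = some a)
    (hg' : V b g' = some a) (c : RCnd) (u : List Bool) :
    inT C (relc g c) u ↔ inT C (relc g' c) u := by
  obtain ⟨c1, w⟩ := c
  cases c1 with
  | none => exact Iff.rfl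
  | some x =>
    unfold inT relc
    simp only [Option.map_some, Option.some.injEq, forall_eq']
    rw [fh_dat h (fh_subt h hg hg' x.1)]

theorem fh_sub (h : RepAt C V D b) {g g' : Tm} {a : Ordinal.{0}} (hg : V b g = some a)
    (hg' : V b g' = some a) (c : RCnd) (r : Cnd) :
    sub C r (relc g c) ↔ sub C r (relc g' c) := by
  unfold sub
  exact forall_congr' fun u => imp_congr_right fun _ => fh_inT h hg hg' c u

/-- `EE` depends on the condition only through its subconditions and is antitone in the bound. -/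
theorem fh_EE_mono {p p' : Cnd} {m : ℕ} {n0 n0' : Tm}
    (hp : ∀ r, sub C r p → sub C r p') (hn : ∀ t, C.lt t n0' → C.lt t n0)
    (hE : EE C p m n0) : EE C p' m n0' := by
  obtain ⟨r, t, h1, h2, h3, h4, h5⟩ := hE
  exact ⟨r, t, h1, hp r h2, h3, fun h6 => h4 (hn t h6), h5⟩

theorem fh_DD_mono {p p' : Cnd} {m : ℕ} {u u' : Tm}
    (hp : ∀ r, sub C r p' → sub C r p) (hn : ∀ t, C.lt t u' → C.lt t u)
    (hD : DD C p m u) : DD C p' m u' := by
  intro r h1 h2
  exact fh_EE_mono (fun _ h => h) hn (hD r h1 (hp r h2))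

theorem fh_req (h : RepAt C V D b) {g g' u u' : Tm} {a v v' : Ordinal.{0}}
    (hg : V b g = some a) (hg' : V b g' = some a) (hu : V b u = some v)
    (hu' : V b u' = some v') (hv : v' ≤ v) (r : Req) (hr : reqC C r g u) :
    reqC C r g' u' := by
  rcases hr with ⟨h1, h2⟩ | ⟨h1, h2⟩
  · refine Or.inl ⟨h1, fun h3 => h2 (fh_EE_mono (fun r' h4 => ?_) (fun t h4 => ?_) h3)⟩
    · exact (fh_sub h hg hg' r.2.1 r').2 h4
    · exact (fh_lt_right h (fh_subt h hg hg' r.2.2.1)).1 h4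
  · refine Or.inr ⟨h1, fh_DD_mono (fun r' h4 => ?_) (fun t h4 => ?_) h2⟩
    · exact (fh_sub h hg hg' r.2.1 r').2 h4
    · rw [h.lt] at h4 ⊢
      obtain ⟨x, y, h5, h6, h7⟩ := h4
      rw [hu'] at h6
      cases h6
      exact ⟨x, v, h5, hu, h7.trans_le hv⟩

end

theorem hullHyp_F (P : LProc) : HullHyp PsF (ThF P) where
  p0 := fun C t s => Or.inl rfl
  p1 := by
    intro C t s
    unfold PsF
    constructor
    · rintro (h | ⟨-, h⟩ | ⟨h, -⟩ | ⟨h, -⟩ | ⟨h, -⟩ | ⟨h, -⟩)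
      · omega
      · exact h
      all_goals omega
    · intro h
      exact Or.inr (Or.inl ⟨rfl, h⟩)
  m1 := by
    intro m
    refine ⟨Nat.pair 0 m + 2, ?_⟩
    intro C t s
    unfold PsF
    simp only [Nat.add_sub_cancel, Nat.unpair_pair]
    constructor
    · rintro (h | ⟨h, -⟩ | ⟨-, -, h⟩ | ⟨-, h, -⟩ | ⟨-, h, -⟩ | ⟨-, h, -⟩)
      · omega
      · omega
      · exact h
      all_goals omega
    · intro h
      exact Or.inr (Or.inr (Or.inl ⟨by omega, trivial, h⟩))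
  m2 := by
    intro m
    refine ⟨qRaw m, ?_, ?_⟩
    · intro C
      unfold ThF qRaw
      simp only [Nat.unpair_pair]
      constructor
      · rintro (⟨-, h⟩ | ⟨h, -⟩ | ⟨h, -⟩ | ⟨h, -⟩ | ⟨h, -⟩ | ⟨h, -⟩ | ⟨h, -⟩ | ⟨h, -⟩)
        · exact h
        all_goals omega
      · intro h
        exact Or.inl ⟨trivial, h⟩
    · intro l
      refine ⟨Nat.pair 1 (Nat.pair l m) + 2, ?_⟩
      intro C t s
      unfold PsF
      simp only [Nat.add_sub_cancel, Nat.unpair_pair]
      constructor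
      · rintro (h | ⟨h, -⟩ | ⟨-, h, -⟩ | ⟨-, -, h⟩ | ⟨-, h, -⟩ | ⟨-, h, -⟩)
        · omega
        · omega
        · omega
        · exact h
        all_goals omega
      · intro h
        exact Or.inr (Or.inr (Or.inr (Or.inl ⟨by omega, trivial, h⟩)))
  inv := by
    intro C V D b h n t t' s s' a u u' ht ht' hs hs' hu hP
    rcases hP with h0 | ⟨h0, h1⟩ | ⟨h0, h1, h2⟩ | ⟨h0, h1, h2⟩ | ⟨h0, h1, h2⟩ | ⟨h0, h1, h2⟩
    · exact Or.inl h0
    · refine Or.inr (Or.inl ⟨h0, fun h2 => h1 ?_⟩)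
      rw [h.lt] at h2 ⊢
      obtain ⟨x, y, h3, h4, h5⟩ := h2
      rw [ht'] at h3
      rw [hs'] at h4
      cases h3
      cases h4
      exact ⟨a, u, ht, hs, h5.trans_le hu⟩
    · exact Or.inr (Or.inr (Or.inl ⟨h0, h1, h2⟩))
    · refine Or.inr (Or.inr (Or.inr (Or.inl ⟨h0, h1, fun s' h3 h4 => h2 s' h3 fun h5 => h4 ?_⟩)))
      exact (fh_lt_right h (fh_subt h ht ht' _)).1 h5
    · refine Or.inr (Or.inr (Or.inr (Or.inr (Or.inl
        ⟨h0, h1, fun s' l' h3 h4 => h2 s' l' h3 ?_⟩))))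
      exact (fh_eqv_right h (fh_subt h ht ht' _)).2 h4
    · refine Or.inr (Or.inr (Or.inr (Or.inr (Or.inr ⟨h0, h1, fun q hq r hr => ?_⟩))))
      exact fh_req h ht ht' hs hs' hu r (h2 q hq r hr)

end Pool.Agent.HT
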