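import Pool.Agent.Helper85.HT.FSem

set_option autoImplicit false

/-!
# Module FL: the live stages are cofinal
-/

namespace Pool.Agent.HT

open Ordinal

theorem fl_cond1_mono {V : VT} {i j : ℕ} {g c b : Ordinal.{0}} (h : i ≤ j)
    (hc : Cond1 V j g c b) : Cond1 V i g c b := fun s hs => hc s (hs.trans_le h)

/-- the supremum of a strictly increasing sequence -/
theorem fl_sup {d : ℕ → Ordinal.{0}} {a : Ordinal.{0}} (hd : StrictMono d) (ha : ∀ i, d i < a) :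
    ∃ b, b ≤ a ∧ Order.IsSuccLimit b ∧ (∀ i, d i < b) ∧ ∀ c < b, ∃ i, c < d i := by
  have hb : BddAbove (Set.range d) := ⟨a, by rintro _ ⟨i, rfl⟩; exact (ha i).le⟩
  have h1 : ∀ i, d i < ⨆ i, d i := fun i =>
    (hd (Nat.lt_succ_self i)).trans_le (le_ciSup hb (i + 1))
  have h2 : ∀ c < ⨆ i, d i, ∃ i, c < d i := fun c hc => exists_lt_of_lt_ciSup hc
  refine ⟨⨆ i, d i, ciSup_le fun i => (ha i).le, ?_, h1, h2⟩
  refine ⟨?_, ?_⟩
  · intro h
    have := h (h1 0).le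
    exact absurd (h1 0) (not_lt.2 this)
  · intro c hc
    obtain ⟨i, hi⟩ := h2 c hc.lt
    exact hc.2 hi (h1 i)

theorem fl_chain {P : LProc} {V : VT} {D : DT} {a ν : Ordinal.{0}}
    (hG : ∀ c < a, Good P V D c) (hν : ν < a)
    (hno : ∀ c, ν ≤ c → c < a → ¬ liveO V D a c) :
    ∃ d : ℕ → Ordinal.{0}, StrictMono d ∧ (∀ i, d i < a) ∧ ∀ i, popO V D (d (i + 1)) (d i) := by
  have hdead : ∀ c, ν ≤ c → c < a → ∃ d < a, ∃ c', popO V D d c' ∧ c' ≤ c ∧ c < d := by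
    intro c h1 h2
    by_contra h3
    push Not at h3
    exact hno c h1 h2 ⟨h2, fun d hd c' hp h => absurd h.2 (not_lt.2 (h3 d hd c' hp h.1))⟩
  let Sx : Set Ordinal.{0} := {c' | ∃ d, ν < d ∧ d < a ∧ popO V D d c'}
  have hne : Sx.Nonempty := by
    obtain ⟨d, hd, c', h1, -, h3⟩ := hdead ν le_rfl hν
    exact ⟨c', d, h3, hd, h1⟩
  obtain ⟨cs, ⟨d1, hd1, hd1a, hp1⟩, hmin⟩ := WellFounded.has_min
    (wellFounded_lt : WellFounded ((· < ·) : Ordinal.{0} → Ordinal.{0} → Prop)) Sx hne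
  have hmin' : ∀ c' d, ν < d → d < a → popO V D d c' → cs ≤ c' := fun c' d h1 h2 h3 =>
    not_lt.1 (hmin c' ⟨d, h1, h2, h3⟩)
  let Inv : Ordinal.{0} → Prop := fun d => ν < d ∧ d < a ∧
    ∀ c', cs ≤ c' → c' < d → ∃ d' ≤ d, ∃ c'', popO V D d' c'' ∧ c'' ≤ c' ∧ c' < d'
  have hbase : Inv d1 := ⟨hd1, hd1a, fun c' h1 h2 => ⟨d1, le_rfl, cs, hp1, h1, h2⟩⟩
  have hstep : ∀ d : {d // Inv d}, ∃ e : {d // Inv d}, d.1 < e.1 ∧ popO V D e.1 d.1 := by
    rintro ⟨d, h1, h2, h3⟩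
    obtain ⟨e, he, c, hp, hc1, hc2⟩ := hdead d h1.le h2
    have hcd : c = d := by
      by_contra hne'
      have hlt : c < d := lt_of_le_of_ne hc1 hne'
      have hcs : cs ≤ c := hmin' c e (h1.trans hc2) he hp
      obtain ⟨d', hd', c'', hp', h4, h5⟩ := h3 c hcs hlt
      have hl : liveO V D e c := ((hG e he).p.popc c hp).1
      exact hl.2 d' (lt_of_le_of_lt hd' hc2) c'' hp' ⟨h4, h5⟩
    subst hcd
    refine ⟨⟨e, h1.trans hc2, he, ?_⟩, hc2, hp⟩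
    intro c' h4 h5
    rcases lt_or_ge c' c with h6 | h6
    · obtain ⟨d', hd', c'', hp', h7, h8⟩ := h3 c' h4 h6
      exact ⟨d', hd'.trans hc2.le, c'', hp', h7, h8⟩
    · exact ⟨e, le_rfl, c, hp, h6, h5⟩
  choose f hf1 hf2 using hstep
  let U : ℕ → {d // Inv d} := fun n => Nat.rec ⟨d1, hbase⟩ (fun _ u => f u) n
  refine ⟨fun n => (U n).1, strictMono_nat_of_lt_succ fun n => hf1 _, fun n => (U n).2.2.1,
    fun n => hf2 _⟩

theorem live_cof {P : LProc} {V : VT} {D : DT} {ζ σ : Ordinal.{0}}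
    (F : HullFacts PsF (ThF P) V D ζ σ) {a : Ordinal.{0}} (ha : a < σ)
    (hG : ∀ c < a, Good P V D c) : ∀ ν < a, ∃ c, liveO V D a c ∧ ν ≤ c := by
  intro ν hν
  by_contra hno
  push Not at hno
  have hno' : ∀ c, ν ≤ c → c < a → ¬ liveO V D a c := fun c h1 _ h3 =>
    absurd h1 (not_le.2 (hno c h3))
  obtain ⟨d, hd, hda, hp⟩ := fl_chain hG hν hno'
  obtain ⟨b, hba, hbl, hdb, hcof⟩ := fl_sup hd hda
  obtain ⟨i0, hi0⟩ := (hG (d 0) (hda 0)).p.verx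
  obtain ⟨g, hg⟩ := (hG (d 0) (hda 0)).p.orgx
  have hver : ∀ n, D (d n) (qVer (i0 + n)) := by
    intro n
    induction n with
    | zero => exact hi0
    | succ n ih => exact (hG _ (hda (n + 1))).p.verp _ (hp n) _ ih
  have horg : ∀ n, orgO V D (d n) g := by
    intro n
    induction n with
    | zero => exact hg
    | succ n ih => exact (hG _ (hda (n + 1))).p.orgp _ (hp n) _ ih
  have hgb : g < b := lt_of_le_of_lt ((hG (d 0) (hda 0)).p.orgle g hg) (hdb 0)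
  refine F.h2 b (hba.trans_lt ha) hbl g hgb ⟨d, hd, hdb, hcof, fun n => ?_⟩
  obtain ⟨-, i, g', h1, h2, h3, -⟩ := (hG _ (hda (n + 1))).p.popc _ (hp n)
  have e1 : i = i0 + n := (hG _ (hda n)).p.veru _ _ h1 (hver n)
  have e2 : g' = g := (hG _ (hda n)).p.orgu _ _ h2 (horg n)
  subst e1; subst e2
  exact fl_cond1_mono (Nat.le_add_left n i0) h3

end Pool.Agent.HT
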