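import Pool.Agent.Helper85.HT.FSem

set_option autoImplicit false

/-! # FP : the conditions of stage `a` -/

namespace Pool.Agent.HT

open Ordinal

/-! ### words -/

theorem fp_pre_prefix (x : Cantor) {m n : ℕ} (h : m ≤ n) : pre x m <+: pre x n := by
  have h1 : pre x m = (pre x n).take m := by
    unfold pre
    rw [← List.map_take, List.take_range, Nat.min_eq_left h]
  rw [h1]
  exact List.take_prefix _ _

theorem fp_of_prefix {x : Cantor} {n : ℕ} {u : List Bool} (h : u <+: pre x n) :
    u = pre x u.length := by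
  have hl : u.length ≤ n := by
    have := h.length_le
    rwa [length_pre] at this
  have h2 := List.prefix_of_prefix_length_le h (fp_pre_prefix x hl) (by rw [length_pre])
  exact h2.eq_of_length (by rw [length_pre])

theorem fp_cmp_refl (u : List Bool) : cmpW u u := Or.inl (List.prefix_refl u)

theorem fp_cmp_symm {u w : List Bool} (h : cmpW u w) : cmpW w u := Or.symm h

theorem fp_root {x : Cantor} {w : List Bool} (h : cmpW (pre x w.length) w) :
    w = pre x w.length := by
  rcases h with h | h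
  · exact (h.eq_of_length (length_pre _ _)).symm
  · exact h.eq_of_length (length_pre _ _).symm

theorem fp_cmp_mono {u w w' : List Bool} (h : cmpW u w) (hw : w' <+: w) : cmpW u w' := by
  rcases h with h | h
  · exact List.prefix_or_prefix_of_prefix h hw
  · exact Or.inr (hw.trans h)

theorem fp_cmp_pref {u u' w : List Bool} (h : cmpW u w) (hu : u' <+: u) : cmpW u' w :=
  fp_cmp_symm (fp_cmp_mono (fp_cmp_symm h) hu)

theorem fp_cmp_pre (x : Cantor) (m n : ℕ) : cmpW (pre x m) (pre x n) := by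
  rcases le_total m n with h | h
  · exact Or.inl (fp_pre_prefix x h)
  · exact Or.inr (fp_pre_prefix x h)

theorem fp_lt_of_split {u u1 u2 : List Bool} (h1 : u <+: u1) (h2 : u <+: u2)
    (h : ¬ cmpW u1 u2) : u.length < u1.length := by
  rcases Nat.lt_or_ge u.length u1.length with hl | hl
  · exact hl
  · exfalso
    have : u = u1 := h1.eq_of_length (le_antisymm h1.length_le hl)
    rw [this] at h2
    exact h (Or.inl h2)

/-- a tree without terminal nodes has a branch through every node -/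
theorem fp_branch (T : List Bool → Prop) (hp : ∀ u u', u' <+: u → T u → T u')
    (hs : ∀ u, T u → ∃ u1, u <+: u1 ∧ u.length < u1.length ∧ T u1) {u : List Bool} (hu : T u) :
    ∃ x : Cantor, (∀ n, T (pre x n)) ∧ u = pre x u.length := by
  choose f hf1 hf2 hf3 using hs
  let s : ℕ → {w : List Bool // T w} := fun i =>
    Nat.rec ⟨u, hu⟩ (fun _ w => ⟨f w.1 w.2, hf3 w.1 w.2⟩) i
  have hs0 : (s 0).1 = u := rfl
  have hs1 : ∀ i, (s i).1 <+: (s (i + 1)).1 := fun i => hf1 (s i).1 (s i).2
  have hs2 : ∀ i, (s i).1.length < (s (i + 1)).1.length := fun i => hf2 (s i).1 (s i).2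
  have hmono : ∀ i j, i ≤ j → (s i).1 <+: (s j).1 := by
    intro i j hij
    induction hij with
    | refl => exact List.prefix_refl _
    | step _ ih => exact ih.trans (hs1 _)
  have hlen : ∀ i, u.length + i ≤ (s i).1.length := by
    intro i
    induction i with
    | zero => rw [hs0]; omega
    | succ i ih => have := hs2 i; omega
  let x : Cantor := fun n => (s (n + 1)).1.getD n false
  have hpre : ∀ n, pre x n = (s n).1.take n := by
    intro n
    apply List.ext_getElem
    · rw [length_pre, List.length_take]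
      have := hlen n
      omega
    · intro k hk1 hk2
      have hkn : k < n := by rwa [length_pre] at hk1
      have hk3 : k < (s (k + 1)).1.length := by have := hlen (k + 1); omega
      have hk4 : k < (s n).1.length := by have := hlen n; omega
      have e1 : (pre x n)[k] = x k := by simp [pre]
      have e2 : x k = (s (k + 1)).1[k] := by
        show (s (k + 1)).1.getD k false = _
        rw [List.getD_eq_getElem _ _ hk3]
      have e3 : (s (k + 1)).1[k] = (s n).1[k] := (hmono (k + 1) n hkn).getElem hk3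
      rw [e1, e2, e3, List.getElem_take]
  refine ⟨x, fun n => ?_, ?_⟩
  · rw [hpre n]
    exact hp _ _ (List.take_prefix _ _) (s n).2
  · rw [hpre u.length]
    have h1 := hmono 0 u.length (Nat.zero_le _)
    rw [hs0] at h1
    exact List.prefix_iff_eq_take.1 h1

section FP
variable {P : LProc} {V : VT} {D : DT} {a : Ordinal.{0}}

theorem fp_live_mono {c c' : Ordinal.{0}} (h : liveO V D a c) (h1 : c < c') (h2 : c' ≤ a) :
    liveO V D c' c :=
  ⟨h1, fun d hd e he => h.2 d (hd.trans_le h2) e he⟩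

theorem pp_rt {p : OC} (hp : condO V D a p) : inO D p p.2 :=
  ⟨fp_cmp_refl _, fun x hx => (hp x hx).2⟩

theorem pp_pref (hG : ∀ c < a, Good P V D c) {p : OC} (hp : condO V D a p) {u u' : List Bool}
    (hu : u' <+: u) (h : inO D p u) : inO D p u' :=
  ⟨fp_cmp_pref h.1 hu, fun x hx =>
    (hG x.1 (hp x hx).1.1).t.pref x.2 u u' hu (h.2 x hx)⟩

theorem pp_split (hG : ∀ c < a, Good P V D c) {p : OC} (hp : condO V D a p) {u : List Bool}
    (h : inO D p u) : ∃ u1 u2, u <+: u1 ∧ u <+: u2 ∧ ¬ cmpW u1 u2 ∧ inO D p u1 ∧ inO D p u2 := by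
  -- first go up to the root
  obtain ⟨u0, h1, h2, h3⟩ : ∃ u0, u <+: u0 ∧ p.2 <+: u0 ∧ inO D p u0 := by
    rcases h.1 with hc | hc
    · exact ⟨p.2, hc, List.prefix_refl _, pp_rt hp⟩
    · exact ⟨u, List.prefix_refl _, hc, h⟩
  rcases hx : p.1 with _ | x
  · refine ⟨u0 ++ [true], u0 ++ [false], h1.trans (List.prefix_append _ _),
      h1.trans (List.prefix_append _ _), ?_, ?_, ?_⟩
    · rintro (hc | hc)
      · have := hc.eq_of_length (by simp)
        simp at this
      · have := hc.eq_of_length (by simp)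
        simp at this
    · exact ⟨Or.inr (h2.trans (List.prefix_append _ _)), fun y hy => by rw [hx] at hy; cases hy⟩
    · exact ⟨Or.inr (h2.trans (List.prefix_append _ _)), fun y hy => by rw [hx] at hy; cases hy⟩
  · obtain ⟨u1, u2, e1, e2, e3, e4, e5⟩ :=
      (hG x.1 (hp x hx).1.1).t.split x.2 u0 (h3.2 x hx)
    refine ⟨u1, u2, h1.trans e1, h1.trans e2, e3, ⟨Or.inr (h2.trans e1), ?_⟩,
      ⟨Or.inr (h2.trans e2), ?_⟩⟩
    · intro y hy
      rw [hx, Option.some.injEq] at hy
      rw [← hy]; exact e4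
    · intro y hy
      rw [hx, Option.some.injEq] at hy
      rw [← hy]; exact e5

theorem pp_long {p : OC} (hp : condO V D a p) {u : List Bool}
    (h : inO D p u) (hu : p.2 <+: u) : condO V D a (p.1, u) ∧
      ∀ u', inO D (p.1, u) u' ↔ (inO D p u' ∧ cmpW u' u) := by
  refine ⟨fun x hx => ⟨(hp x hx).1, h.2 x hx⟩, fun u' => ⟨fun h' => ?_, fun h' => ?_⟩⟩
  · exact ⟨⟨fp_cmp_mono h'.1 hu, h'.2⟩, h'.1⟩
  · exact ⟨h'.2, h'.1.2⟩

/-- lengthening the root along a branch -/
theorem fp_shrink {p : OC} (hp : condO V D a p) {x : Cantor} (hx : x ∈ brO D p) {N : ℕ}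
    (hN : p.2.length ≤ N) :
    condO V D a (p.1, pre x N) ∧ subO D (p.1, pre x N) p ∧ x ∈ brO D (p.1, pre x N) := by
  have hroot : p.2 = pre x p.2.length := fp_root (hx p.2.length).1
  have hpre : p.2 <+: pre x N := by
    rw [hroot]
    exact fp_pre_prefix x hN
  refine ⟨fun y hy => ⟨(hp y hy).1, (hx N).2 y hy⟩, fun u hu => ?_, fun n => ?_⟩
  · exact ⟨fp_cmp_mono hu.1 hpre, hu.2⟩
  · exact ⟨fp_cmp_pre x n N, (hx n).2⟩

/-- every condition has a branch through every node -/
theorem fp_exists_br (hG : ∀ c < a, Good P V D c) {p : OC} (hp : condO V D a p)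
    {u : List Bool} (hu : inO D p u) : ∃ x, x ∈ brO D p ∧ u = pre x u.length := by
  obtain ⟨x, hx1, hx2⟩ := fp_branch (inO D p) (fun u u' h h' => pp_pref hG hp h h')
    (fun u h => by
      obtain ⟨u1, u2, h1, h2, h3, h4, -⟩ := pp_split hG hp h
      exact ⟨u1, h1, fp_lt_of_split h1 h2 h3, h4⟩) hu
  exact ⟨x, hx1, hx2⟩

/-- the case of different stages in `pp_compat` -/
theorem fp_compat_lt (hG : ∀ c < a, Good P V D c) {p q : OC} (hp : condO V D a p)
    (hq : condO V D a q) {x : Cantor} (hx : x ∈ brO D p) (hx' : x ∈ brO D q)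
    (hlt : ∀ y, p.1 = some y → ∃ z, q.1 = some z ∧ y.1 < z.1) :
    ∃ r, condO V D a r ∧ subO D r p ∧ subO D r q ∧ x ∈ brO D r := by
  rcases hy : p.1 with _ | y
  · obtain ⟨h1, h2, h3⟩ := fp_shrink hq hx' (N := max p.2.length q.2.length) (le_max_right _ _)
    refine ⟨_, h1, fun u hu => ?_, h2, h3⟩
    have hroot : p.2 = pre x p.2.length := fp_root (hx p.2.length).1
    refine ⟨?_, fun z hz => by rw [hy] at hz; cases hz⟩
    refine fp_cmp_mono hu.1 ?_
    rw [hroot]
    exact fp_pre_prefix x (le_trans (by rw [length_pre]) (le_max_left _ _))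
  · obtain ⟨z, hz, hyz⟩ := hlt y hy
    have hliveY := (hp y hy).1
    have hliveZ := (hq z hz).1
    have hxz : x ∈ TB D z.1 z.2 := fun n => (hx' n).2 z hz
    have hxy : x ∈ TB D y.1 y.2 := fun n => (hx n).2 y hy
    obtain ⟨n, k'', hn⟩ := (hG z.1 hliveZ.1).t.loc y.1 (fp_live_mono hliveY hyz hliveZ.1.le)
      z.2 x hxz
    have hk : k'' = y.2 := by
      refine (hG y.1 hliveY.1).t.disj k'' y.2 x (fun m => ?_) hxy
      have hin : inO D (some (z.1, z.2), pre x n) (pre x m) :=
        ⟨fp_cmp_pre x m n, fun w hw => by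
          rw [Option.some.injEq] at hw
          rw [← hw]; exact hxz m⟩
      exact (hn _ hin).2 (y.1, k'') rfl
    obtain ⟨h1, h2, h3⟩ := fp_shrink hq hx' (N := max n (max p.2.length q.2.length))
      ((le_max_right _ _).trans (le_max_right _ _))
    refine ⟨_, h1, fun u hu => ?_, h2, h3⟩
    have hroot : p.2 = pre x p.2.length := fp_root (hx p.2.length).1
    refine ⟨?_, fun w hw => ?_⟩
    · refine fp_cmp_mono hu.1 ?_
      rw [hroot]
      refine fp_pre_prefix x ?_
      rw [length_pre]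
      exact (le_max_left _ _).trans (le_max_right _ _)
    · have hw' : w = y := by rw [hy, Option.some.injEq] at hw; exact hw.symm
      have hin : inO D (some (z.1, z.2), pre x n) u :=
        ⟨fp_cmp_mono hu.1 (fp_pre_prefix x (le_max_left _ _)), fun w hw => by
          rw [Option.some.injEq] at hw
          rw [← hw]; exact hu.2 z hz⟩
      have := (hn _ hin).2 (y.1, k'') rfl
      rw [hw', ← hk]
      exact this

theorem pp_compat (hG : ∀ c < a, Good P V D c) {p q : OC} (hp : condO V D a p)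
    (hq : condO V D a q) {x : Cantor} (hx : x ∈ brO D p) (hx' : x ∈ brO D q) :
    ∃ r, condO V D a r ∧ subO D r p ∧ subO D r q ∧ x ∈ brO D r := by
  rcases hy : p.1 with _ | y
  · exact fp_compat_lt hG hp hq hx hx' (fun y h => by rw [hy] at h; cases h)
  rcases hz : q.1 with _ | z
  · obtain ⟨r, h1, h2, h3, h4⟩ := fp_compat_lt hG hq hp hx' hx
      (fun y h => by rw [hz] at h; cases h)
    exact ⟨r, h1, h3, h2, h4⟩
  rcases lt_trichotomy y.1 z.1 with h | h | h
  · exact fp_compat_lt hG hp hq hx hx' (fun y' h' => by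
      rw [hy, Option.some.injEq] at h'
      exact ⟨z, hz, by rw [← h']; exact h⟩)
  · have hxz : x ∈ TB D z.1 z.2 := fun n => (hx' n).2 z hz
    have hxy : x ∈ TB D z.1 y.2 := fun n => by rw [← h]; exact (hx n).2 y hy
    have hk : y.2 = z.2 := (hG z.1 (hq z hz).1.1).t.disj y.2 z.2 x hxy hxz
    have hpq : p.1 = q.1 := by
      rw [hy, hz]
      exact congrArg some (Prod.ext h hk)
    obtain ⟨h1, h2, h3⟩ := fp_shrink hp hx (N := max p.2.length q.2.length) (le_max_left _ _)
    obtain ⟨-, h5, -⟩ := fp_shrink hq hx' (N := max p.2.length q.2.length) (le_max_right _ _)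
    rw [← hpq] at h5
    exact ⟨_, h1, h2, h5, h3⟩
  · obtain ⟨r, h1, h2, h3, h4⟩ := fp_compat_lt hG hq hp hx' hx (fun z' h' => by
      rw [hz, Option.some.injEq] at h'
      exact ⟨y, hy, by rw [← h']; exact h⟩)
    exact ⟨r, h1, h3, h2, h4⟩

theorem pp_loc (hG : ∀ c < a, Good P V D c) {p : OC} (hp : condO V D a p) {c : Ordinal.{0}}
    (hc : liveO V D a c) :
    ∃ r k, condO V D a r ∧ subO D r p ∧ subO D r (some (c, k), []) := by
  have hlow : (∀ x, p.1 = some x → x.1 < c) →
      ∃ r k, condO V D a r ∧ subO D r p ∧ subO D r (some (c, k), []) := by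
    intro hlt
    have hp' : condO V D (c + 1) p := by
      intro x hx
      refine ⟨⟨(hlt x hx).trans (lt_add_one c), fun d hd c' hc' => ?_⟩, (hp x hx).2⟩
      exact (hp x hx).1.2 d ((Order.lt_add_one_iff.1 hd).trans_lt hc.1) c' hc'
    obtain ⟨k, hk⟩ := (hG c hc.1).t.thr p hp' hlt
    refine ⟨(some (c, k), []), k, ?_, hk, fun u hu => hu⟩
    intro x hx
    simp only [Option.some.injEq] at hx
    rw [← hx]
    exact ⟨hc, (hG c hc.1).t.nil k⟩
  rcases hy : p.1 with _ | y
  · exact hlow (fun x hx => by rw [hy] at hx; cases hx)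
  rcases lt_trichotomy y.1 c with h | h | h
  · exact hlow (fun x hx => by rw [hy, Option.some.injEq] at hx; rw [← hx]; exact h)
  · refine ⟨p, y.2, hp, fun u hu => hu, fun u hu => ⟨Or.inr List.nil_prefix, ?_⟩⟩
    intro x hx
    simp only [Option.some.injEq] at hx
    rw [← hx, ← h]
    exact hu.2 y hy
  · obtain ⟨x, hx, -⟩ := fp_exists_br hG hp (pp_rt hp)
    have hxy : x ∈ TB D y.1 y.2 := fun n => (hx n).2 y hy
    have hya := (hp y hy).1.1
    obtain ⟨n, k', hn⟩ := (hG y.1 hya).t.loc c (fp_live_mono hc h hya.le) y.2 x hxy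
    obtain ⟨h1, h2, -⟩ := fp_shrink hp hx (N := max n p.2.length) (le_max_right _ _)
    refine ⟨_, k', h1, h2, fun u hu => hn u ?_⟩
    exact ⟨fp_cmp_mono hu.1 (fp_pre_prefix x (le_max_left _ _)), fun w hw => by
      rw [Option.some.injEq] at hw
      rw [← hw]; exact hu.2 y hy⟩

theorem pp_know (hG : ∀ c < a, Good P V D c) (hcof : ∀ ν < a, ∃ c, liveO V D a c ∧ ν ≤ c)
    {p : OC} (hp : condO V D a p) {ν : Ordinal.{0}} (hν : ν < a) (m : ℕ) :
    ∃ r v, condO V D a r ∧ subO D r p ∧ knowO V D a r ν m v := by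
  obtain ⟨c, hc, hνc⟩ := hcof ν hν
  obtain ⟨r0, k, h1, h2, h3⟩ := pp_loc hG hp hc
  obtain ⟨x, hx, -⟩ := fp_exists_br hG h1 (pp_rt h1)
  have hxc : x ∈ TB D c k := fun n => (h3 _ (hx n)).2 (c, k) rfl
  obtain ⟨n, v, hnv⟩ := (hG c hc.1).b.compl k x hxc ν hνc m
  have hq : condO V D a (some (c, k), pre x n) := by
    intro y hy
    simp only [Option.some.injEq] at hy
    rw [← hy]
    exact ⟨hc, hxc n⟩
  have hxq : x ∈ brO D (some (c, k), pre x n) := by
    intro m'
    refine ⟨fp_cmp_pre x m' n, fun y hy => ?_⟩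
    simp only [Option.some.injEq] at hy
    rw [← hy]
    exact hxc m'
  obtain ⟨r, e1, e2, e3, -⟩ := pp_compat hG h1 hq hx hxq
  exact ⟨r, v, e1, fun u hu => h2 u (e2 u hu), _, hq, e3, hnv⟩

/-- recorded bits are correct -/
theorem knowO_sound (hG : ∀ c < a, Good P V D c) {p : OC} {ν : Ordinal.{0}} {m : ℕ} {v : Bool}
    (h : knowO V D a p ν m v) {x : Cantor} (hx : x ∈ brO D p) : Bs P x ν m = v := by
  obtain ⟨p', hp', hsub, ⟨c, k⟩, hy, w0, hw0, h1⟩ := h
  have hx' : x ∈ brO D p' := fun n => hsub _ (hx n)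
  have hlive := (hp' _ hy).1
  have hxc : x ∈ TB D c k := fun n => (hx' n).2 _ hy
  have hroot : p'.2 = pre x p'.2.length := fp_root (hx' p'.2.length).1
  have hw : w0 = pre x w0.length := by
    rw [hroot] at hw0
    exact fp_of_prefix hw0
  rcases h1 with ⟨l, h2, h3⟩ | ⟨h2, h3⟩
  · exact (hG c hlive.1).b.know k w0 l m v ν h2 h3 x hxc ⟨_, hw⟩
  · have h2' : c = ν := h2
    rw [← h2']
    exact (hG c hlive.1).b.self k w0 m v h3 x hxc ⟨_, hw⟩

end FP

end Pool.Agent.HT
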