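import Pool.Agent.Helper85.HT.FT1
import Pool.Agent.Helper85.HT.FA2
import Pool.Agent.Helper85.HT.FP

set_option autoImplicit false

/-!
# FS: the fusion at stage `a` in semantic terms
-/

namespace Pool.Agent.HT

open Ordinal

theorem fs_sub_trans {C : HS} {p q r : Cnd} (h : sub C p q) (h' : sub C q r) : sub C p r :=
  fun u hu => h' u (h u hu)

theorem fs_know_mono {C : HS} {p q : Cnd} (h : sub C q p) {t : Tm} {m : ℕ} {v : Bool}
    (hk : know C p t m v) : know C q t m v := by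
  obtain ⟨p', h1, h2, h3⟩ := hk
  exact ⟨p', h1, fs_sub_trans h h2, h3⟩

theorem fs_EE_mono {C : HS} {p q : Cnd} (h : sub C q p) {m : ℕ} {n0 : Tm}
    (hk : EE C q m n0) : EE C p m n0 := by
  obtain ⟨r, t, h1, h2, h3⟩ := hk
  exact ⟨r, t, h1, fs_sub_trans h2 h, h3⟩

theorem fs_EC_mono {C : HS} {p q : Cnd} (h : sub C q p) {x : ℕ × Tm × ℕ × Cnd}
    (hk : EC C x p) : EC C x q := by
  rcases hk with ⟨h0, v, h1⟩ | ⟨h0, k, h1⟩ | ⟨h0, n0, h1, h2⟩ | ⟨h0, t', h1, h2, h3⟩ | ⟨h0, h1⟩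
  · exact Or.inl ⟨h0, v, fs_know_mono h h1⟩
  · exact Or.inr (Or.inl ⟨h0, k, fs_sub_trans h h1⟩)
  · exact Or.inr (Or.inr (Or.inl ⟨h0, n0, h1, fun h3 => h2 (fs_EE_mono h h3)⟩))
  · exact Or.inr (Or.inr (Or.inr (Or.inl ⟨h0, t', h1, h2, fs_know_mono h h3⟩)))
  · exact Or.inr (Or.inr (Or.inr (Or.inr ⟨h0, fs_sub_trans h h1⟩)))

/-- translation of the decisions -/
theorem fs_EC {C : HS} {V : VT} {D : DT} {a : Ordinal.{0}} (h : RepAt C V D a) {t : Tm}
    {ν : Ordinal.{0}} (ht : V a t = some ν) {pc : Cnd} {r0 : OC} (hr : RC V a pc r0)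
    {q : Cnd} {q' : OC} (hq : RC V a q q') (tag m : ℕ) :
    EC C (tag, t, m, pc) q ↔ EO V D a (tag, ν, m, r0) q' := by
  unfold EC EO
  refine or_congr (and_congr Iff.rfl ?_) (or_congr (and_congr Iff.rfl ?_)
    (or_congr (and_congr Iff.rfl ?_) (or_congr (and_congr Iff.rfl ?_)
      (and_congr Iff.rfl ?_))))
  · exact exists_congr fun v => ft_know h hq ht m v
  · refine exists_congr fun k => ft_sub h hq ?_
    exact ⟨rfl, Or.inr ⟨t, k, ν, rfl, rfl, ht⟩⟩
  · constructor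
    · rintro ⟨n0, h1, h2⟩
      obtain ⟨b, hb⟩ := (h.dom n0).1 h1
      exact ⟨b, h.bd _ _ hb, fun h3 => h2 ((ft_EE h hq hb m).2 h3)⟩
    · rintro ⟨b, hb, h2⟩
      obtain ⟨n0, h1⟩ := h.onto b hb
      exact ⟨n0, (h.dom n0).2 ⟨b, h1⟩, fun h3 => h2 ((ft_EE h hq h1 m).1 h3)⟩
  · constructor
    · rintro ⟨t', h1, h2, h3⟩
      obtain ⟨b, hb⟩ := (h.dom t').1 h1
      refine ⟨b, h.bd _ _ hb, ?_, (ft_know h hq hb m true).1 h3⟩
      by_contra h4
      exact h2 ((h.lt t' t).2 ⟨b, ν, hb, ht, not_le.1 h4⟩)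
    · rintro ⟨b, hb, h2, h3⟩
      obtain ⟨t', h1⟩ := h.onto b hb
      refine ⟨t', (h.dom t').2 ⟨b, h1⟩, ?_, (ft_know h hq h1 m true).2 h3⟩
      intro h4
      obtain ⟨c, c', h5, h6, h7⟩ := (h.lt t' t).1 h4
      rw [h1] at h5
      have h6' : some ν = some c' := ht.symm.trans h6
      rw [Option.some.injEq] at h5 h6'
      subst h5; subst h6'
      exact absurd h2 (not_le.2 h7)
  · exact ft_sub h hq hr

/-- names for the decisions -/
theorem fs_name {C : HS} {V : VT} {D : DT} {a : Ordinal.{0}} (h : RepAt C V D a)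
    (d : DecO) (hd : DecOk a d) : ∃ x : ℕ × Tm × ℕ × Cnd, ∀ (q : Cnd) (q' : OC),
      RC V a q q' → (EC C x q ↔ EO V D a d q') := by
  obtain ⟨tag, ν, m, r0⟩ := d
  obtain ⟨h1, h2⟩ := hd
  obtain ⟨t, ht⟩ := h.onto ν h1
  obtain ⟨pc, hpc⟩ := ft_ex h r0 h2
  exact ⟨(tag, t, m, pc), fun q q' hq => fs_EC h ht hpc hq tag m⟩

theorem fs_names {C : HS} {V : VT} {D : DT} {a : Ordinal.{0}} (h : RepAt C V D a)
    (l : List DecO) (hl : ∀ d ∈ l, DecOk a d) : ∃ M : ℕ, ∀ d ∈ l, ∃ x : ℕ × Tm × ℕ × Cnd,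
      Encodable.encode x ≤ M ∧ ∀ (q : Cnd) (q' : OC), RC V a q q' →
        (EC C x q ↔ EO V D a d q') := by
  induction l with
  | nil => exact ⟨0, fun d hd => by simp at hd⟩
  | cons e l ih =>
    obtain ⟨M, hM⟩ := ih fun d hd => hl d (List.mem_cons_of_mem _ hd)
    obtain ⟨x, hx⟩ := fs_name h e (hl e List.mem_cons_self)
    refine ⟨max M (Encodable.encode x), fun d hd => ?_⟩
    rcases List.mem_cons.1 hd with rfl | hd
    · exact ⟨x, le_max_right _ _, hx⟩
    · obtain ⟨y, hy, hy'⟩ := hM d hd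
      exact ⟨y, hy.trans (le_max_left _ _), hy'⟩

theorem fs_cond_top (C : HS) : cond C (none, []) := fun x hx => by simp at hx

theorem fs_start (C : HS) (n : ℕ) : cond C (startC C n) := by
  unfold startC
  split
  · exact fs_cond_top C
  · split_ifs with h
    · exact h
    · exact fs_cond_top C

theorem fs_start_eq (C : HS) {p : Cnd} (hp : cond C p) : startC C (Encodable.encode p) = p := by
  unfold startC
  rw [Encodable.encodek]
  exact if_pos hp

/-- the abstract hypotheses of the fusion -/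
theorem fs_fusH {P : LProc} {V : VT} {D : DT} {C : HS} {a : Ordinal.{0}} (h : RepAt C V D a)
    (hG : ∀ c < a, Good P V D c) : FusH (cond C) (inT C) Prod.snd (decC C) (startC C) where
  cmp := fun p u hu => hu.1
  rt := by
    intro p hp
    obtain ⟨p', h1, h2⟩ := ft_cond_ex h hp
    rw [ft_inT h h1, h1.1]
    exact pp_rt h2
  pref := by
    intro p hp u u' hu hT
    obtain ⟨p', h1, h2⟩ := ft_cond_ex h hp
    rw [ft_inT h h1] at hT ⊢
    exact pp_pref hG h2 hu hT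
  split := by
    intro p hp u hT
    obtain ⟨p', h1, h2⟩ := ft_cond_ex h hp
    rw [ft_inT h h1] at hT
    obtain ⟨u1, u2, a1, a2, a3, a4, a5⟩ := pp_split hG h2 hT
    exact ⟨u1, u2, a1, a2, a3, (ft_inT h h1 _).2 a4, (ft_inT h h1 _).2 a5⟩
  long := by
    intro p hp u hT hu
    obtain ⟨p', h1, h2⟩ := ft_cond_ex h hp
    rw [ft_inT h h1] at hT
    rw [h1.1] at hu
    obtain ⟨a1, a2⟩ := pp_long h2 hT hu
    have hR : RC V a (p.1, u) (p'.1, u) := ⟨rfl, h1.2⟩
    refine ⟨(p.1, u), (ft_cond h hR).2 a1, rfl, fun u' => ?_⟩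
    rw [ft_inT h hR, ft_inT h h1]
    exact a2 u'
  decd := by
    intro j p hp
    rcases hj : Encodable.decode (α := ℕ × Tm × ℕ × Cnd) j with _ | x
    · refine ⟨p, hp, fun u hu => hu, fun x hx => ?_⟩
      rw [hj] at hx
      exact absurd hx (by simp)
    · by_cases hr : ∃ r, cond C r ∧ sub C r p ∧ EC C x r
      · obtain ⟨r, r1, r2, r3⟩ := hr
        refine ⟨r, r1, r2, fun y hy => ?_⟩
        rw [hj, Option.some.injEq] at hy
        subst hy
        exact Or.inl r3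
      · refine ⟨p, hp, fun u hu => hu, fun y hy => ?_⟩
        rw [hj, Option.some.injEq] at hy
        subst hy
        exact Or.inr hr
  deco := by
    intro j p q hp hq hd hs x hx
    rcases hd x hx with h1 | h1
    · exact Or.inl (fs_EC_mono hs h1)
    · refine Or.inr fun h2 => h1 ?_
      obtain ⟨r, r1, r2, r3⟩ := h2
      exact ⟨r, r1, fs_sub_trans r2 hs, r3⟩
  start := fs_start C

theorem fusSem {P : LProc} {V : VT} {D : DT} {ζ σ : Ordinal.{0}}
    (F : HullFacts PsF (ThF P) V D ζ σ) {a : Ordinal.{0}} (ha : a < σ)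
    (hG : ∀ c < a, Good P V D c) : FusSem V D a (fnode (Cst PsF (ThF P) a)) := by
  have h := F.rep a ha
  have H := fs_fusH h hG
  refine ⟨fun j => fus_nil H j, fun j u u' hu h1 => fus_pref H j u u' hu h1,
    fun j u h1 => fus_split H j u h1, fun j j' x h1 h2 => fus_disj H j j' x h1 h2, ?_, ?_⟩
  · intro p hp
    obtain ⟨pc, h1, h2⟩ := ft_cond_ex' h hp
    refine ⟨Encodable.encode pc, fun u hu => ?_⟩
    have h3 := fus_start H _ u hu
    rw [fs_start_eq _ h2] at h3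
    exact (ft_inT h h1 u).1 h3
  · intro j x hx l hl N
    obtain ⟨M, hM⟩ := fs_names h l hl
    obtain ⟨q, n, h1, h2, h3, h4, h5, h6⟩ := fus_bar H j x hx (max N M)
    obtain ⟨q', h7, h8⟩ := ft_cond_ex h h1
    refine ⟨q', n, h8, fun i => (ft_inT h h7 _).1 (h2 i), (le_max_left N M).trans h3, ?_, ?_, ?_⟩
    · rw [← h7.1]; exact h4
    · intro u hu hc
      rw [← h7.1] at hc
      exact (ft_inT h h7 _).1 (h5 u hu hc)
    · intro d hd
      obtain ⟨y, hy, hy'⟩ := hM d hd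
      rcases h6 _ (hy.trans (le_max_right N M)) y (Encodable.encodek y) with h9 | h9
      · exact Or.inl ((hy' _ _ h7).1 h9)
      · right
        rintro ⟨r', r1, r2, r3⟩
        obtain ⟨r, r4, r5⟩ := ft_cond_ex' h r1
        exact h9 ⟨r, r5, (ft_sub h r4 h7).2 r2, (hy' _ _ r4).2 r3⟩

end Pool.Agent.HT
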