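import Pool.Agent.Helper85.HT.FDefs

set_option autoImplicit false

/-!
# The part FORC: semantic version of the definitions (ordinals instead of terms)

`V a (tmOf l)` is the `l`-th name at stage `a`, `D a q` are the data of stage `a`.
-/

namespace Pool.Agent.HT

open Ordinal

abbrev VT : Type 1 := Ordinal.{0} → Tm → Option Ordinal.{0}
abbrev DT : Type 1 := Ordinal.{0} → ℕ → Prop

/-- semantic conditions -/
abbrev OC : Type 1 := Option (Ordinal.{0} × ℕ) × List Bool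

/-- `p'` is the meaning of `p` at stage `b` -/
def RC (V : VT) (b : Ordinal.{0}) (p : Cnd) (p' : OC) : Prop :=
  p.2 = p'.2 ∧ ((p.1 = none ∧ p'.1 = none) ∨
    ∃ s k c, p.1 = some (s, k) ∧ p'.1 = some (c, k) ∧ V b s = some c)

def inO (D : DT) (p : OC) (u : List Bool) : Prop :=
  cmpW u p.2 ∧ ∀ x, p.1 = some x → D x.1 (qTree x.2 u)

/-- stage `d` replaces stage `c` -/
def popO (V : VT) (D : DT) (d c : Ordinal.{0}) : Prop :=
  ∃ l, D d (qPop l) ∧ V d (tmOf l) = some c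

/-- `c < b` is live at stage `b` -/
def liveO (V : VT) (D : DT) (b c : Ordinal.{0}) : Prop :=
  c < b ∧ ∀ d < b, ∀ c', popO V D d c' → ¬ (c' ≤ c ∧ c < d)

def condO (V : VT) (D : DT) (b : Ordinal.{0}) (p : OC) : Prop :=
  ∀ x, p.1 = some x → liveO V D b x.1 ∧ D x.1 (qTree x.2 p.2)

def subO (D : DT) (p q : OC) : Prop := ∀ u, inO D p u → inO D q u

def know0O (V : VT) (D : DT) (p : OC) (ν : Ordinal.{0}) (m : ℕ) (v : Bool) : Prop :=
  ∃ x, p.1 = some x ∧ ∃ w0, w0 <+: p.2 ∧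
    ((∃ l, D x.1 (qKnow x.2 w0 l m v) ∧ V x.1 (tmOf l) = some ν) ∨
     (x.1 = ν ∧ D x.1 (qSelf x.2 w0 m v)))

def knowO (V : VT) (D : DT) (b : Ordinal.{0}) (p : OC) (ν : Ordinal.{0}) (m : ℕ) (v : Bool) :
    Prop :=
  ∃ p', condO V D b p' ∧ subO D p p' ∧ know0O V D p' ν m v

def EEO (V : VT) (D : DT) (b : Ordinal.{0}) (p : OC) (m : ℕ) (n0 : Ordinal.{0}) : Prop :=
  ∃ r ν, condO V D b r ∧ subO D r p ∧ ν < b ∧ n0 ≤ ν ∧ knowO V D b r ν m true

def DDO (V : VT) (D : DT) (b : Ordinal.{0}) (p : OC) (m : ℕ) (u : Ordinal.{0}) : Prop :=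
  ∀ r, condO V D b r → subO D r p → EEO V D b r m u

/-- the relative condition `c` means `p` at stage `g` -/
def relO (V : VT) (g : Ordinal.{0}) (c : RCnd) (p : OC) : Prop :=
  c.2 = p.2 ∧ ((c.1 = none ∧ p.1 = none) ∨
    ∃ l k a, c.1 = some (l, k) ∧ p.1 = some (a, k) ∧ V g (tmOf l) = some a)

/-- the requirement `r`, relative to stage `g`, holds at stage `b` with bound `u`. -/
def reqO (V : VT) (D : DT) (b : Ordinal.{0}) (r : Req) (g u : Ordinal.{0}) : Prop :=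
  ∃ p, relO V g r.2.1 p ∧
    ((r.1 = false ∧ ∃ ν, V g (tmOf r.2.2.1) = some ν ∧ ¬ EEO V D b p r.2.2.2 ν) ∨
     (r.1 = true ∧ DDO V D b p r.2.2.2 u))

/-- the requirement `r` is recorded as true at stage `b`. -/
def trueO (V : VT) (D : DT) (b : Ordinal.{0}) (r : Req) : Prop :=
  ∃ p, relO V b r.2.1 p ∧ condO V D b p ∧
    ((r.1 = false ∧ ∃ ν, V b (tmOf r.2.2.1) = some ν ∧ ¬ EEO V D b p r.2.2.2 ν) ∨
     (r.1 = true ∧ ∀ u < b, DDO V D b p r.2.2.2 u))

/-- `g` is the origin of stage `c` -/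
def orgO (V : VT) (D : DT) (c g : Ordinal.{0}) : Prop :=
  (∃ l, D c (qOrg l) ∧ V c (tmOf l) = some g) ∨ ((¬ ∃ l, D c (qOrg l)) ∧ g = c)

def cond2O (V : VT) (D : DT) (b : Ordinal.{0}) (i : ℕ) (g c : Ordinal.{0}) : Prop :=
  ∀ (q : ℕ) (r : Req), q < i → Encodable.decode (α := Req) q = some r → D g (qTrue q) →
    reqO V D b r g c

def candO (V : VT) (D : DT) (b c : Ordinal.{0}) : Prop :=
  liveO V D b c ∧ ∃ i g, D c (qVer i) ∧ orgO V D c g ∧ Cond1 V i g c b ∧ cond2O V D b i g c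

/-- the branches of thread `k` of stage `a` -/
def TB (D : DT) (a : Ordinal.{0}) (k : ℕ) : Set Cantor := {x | ∀ n, D a (qTree k (pre x n))}

/-- the branches of a condition -/
def brO (D : DT) (p : OC) : Set Cantor := {x | ∀ n, inO D p (pre x n)}

/-- the process on input `x` -/
noncomputable def Bs (P : LProc) (x : Cantor) (b : Ordinal.{0}) (m : ℕ) : Bool :=
  titer (Loc P x) b m

/-! ### semantic fusion -/

/-- decision `(tag, ν, m, r0)` -/
abbrev DecO : Type 1 := ℕ × Ordinal.{0} × ℕ × OC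

def EO (V : VT) (D : DT) (a : Ordinal.{0}) (x : DecO) (p : OC) : Prop :=
  (x.1 = 0 ∧ ∃ v, knowO V D a p x.2.1 x.2.2.1 v) ∨
  (x.1 = 1 ∧ ∃ k, subO D p (some (x.2.1, k), [])) ∨
  (x.1 = 2 ∧ ∃ n0 < a, ¬ EEO V D a p x.2.2.1 n0) ∨
  (x.1 = 3 ∧ ∃ ν, ν < a ∧ x.2.1 ≤ ν ∧ knowO V D a p ν x.2.2.1 true) ∨
  (x.1 = 4 ∧ subO D p x.2.2.2)

/-- all stages in the decision are below `a` -/
def DecOk (a : Ordinal.{0}) (x : DecO) : Prop :=
  x.2.1 < a ∧ ∀ z, x.2.2.2.1 = some z → z.1 < a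

/-- the properties of the trees `Fn j` obtained by the fusion at stage `a` -/
structure FusSem (V : VT) (D : DT) (a : Ordinal.{0}) (Fn : ℕ → List Bool → Prop) : Prop where
  nil : ∀ j, Fn j []
  pref : ∀ j u u', u' <+: u → Fn j u → Fn j u'
  split : ∀ j u, Fn j u → ∃ u1 u2, u <+: u1 ∧ u <+: u2 ∧ ¬ cmpW u1 u2 ∧ Fn j u1 ∧ Fn j u2
  disj : ∀ j j' x, (∀ n, Fn j (pre x n)) → (∀ n, Fn j' (pre x n)) → j = j'
  start : ∀ p, condO V D a p → ∃ j, ∀ u, Fn j u → inO D p u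
  bar : ∀ j x, (∀ n, Fn j (pre x n)) → ∀ (l : List DecO), (∀ d ∈ l, DecOk a d) → ∀ N,
    ∃ p n, condO V D a p ∧ x ∈ brO D p ∧ N ≤ n ∧ p.2 = pre x n ∧
      (∀ u, Fn j u → cmpW u p.2 → inO D p u) ∧
      ∀ d ∈ l, EO V D a d p ∨ ¬ ∃ r, condO V D a r ∧ subO D r p ∧ EO V D a d r

/-! ### the properties of a stage -/

/-- stage `a`: the trees -/
structure GoodT (V : VT) (D : DT) (a : Ordinal.{0}) : Prop where
  nil : ∀ k, D a (qTree k [])
  pref : ∀ k u u', u' <+: u → D a (qTree k u) → D a (qTree k u')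
  split : ∀ k u, D a (qTree k u) → ∃ u1 u2, u <+: u1 ∧ u <+: u2 ∧ ¬ cmpW u1 u2 ∧
    D a (qTree k u1) ∧ D a (qTree k u2)
  disj : ∀ k k' x, x ∈ TB D a k → x ∈ TB D a k' → k = k'
  /-- the threads of `a` are locally contained in threads of the live stages -/
  loc : ∀ c, liveO V D a c → ∀ k x, x ∈ TB D a k →
    ∃ n k', subO D (some (a, k), pre x n) (some (c, k'), [])
  /-- every condition which is still live after stage `a` contains a thread of `a` -/
  thr : ∀ p, condO V D (a + 1) p → (∀ x, p.1 = some x → x.1 < a) →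
    ∃ k, subO D (some (a, k), []) p
  popsub : ∀ c, popO V D a c → ∀ k, subO D (some (a, k), []) (some (c, k), [])
  popstem : ∀ c, popO V D a c → ∀ i, D c (qVer i) → ∀ k, ∃ w : List Bool, w.length = i ∧
    ∀ u, D a (qTree k u) → cmpW u w

/-- stage `a`: replacement of a stage, version number, origin, true requirements -/
structure GoodP (V : VT) (D : DT) (a : Ordinal.{0}) : Prop where
  popu : ∀ c c', popO V D a c → popO V D a c' → c = c'
  popc : ∀ c, popO V D a c → candO V D a c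
  popm : ∀ c, candO V D a c → ∃ c', popO V D a c' ∧ c' ≤ c
  verp : ∀ c, popO V D a c → ∀ i, D c (qVer i) → D a (qVer (i + 1))
  orgp : ∀ c, popO V D a c → ∀ g, orgO V D c g → orgO V D a g
  ver0 : (¬ ∃ c, popO V D a c) → D a (qVer 0)
  org0 : (¬ ∃ c, popO V D a c) → orgO V D a a
  verx : ∃ i, D a (qVer i)
  veru : ∀ i i', D a (qVer i) → D a (qVer i') → i = i'
  orgx : ∃ g, orgO V D a g
  orgu : ∀ g g', orgO V D a g → orgO V D a g' → g = g'
  orgle : ∀ g, orgO V D a g → g ≤ a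
  truth : ∀ q, D a (qTrue q) ↔ ∃ r : Req, Encodable.decode (α := Req) q = some r ∧
    trueO V D a r

/-- stage `a`: the recorded bits of the process -/
structure GoodB (P : LProc) (V : VT) (D : DT) (a : Ordinal.{0}) : Prop where
  /-- the recorded bits are correct -/
  know : ∀ k w l m v ν, D a (qKnow k w l m v) → V a (tmOf l) = some ν →
    ∀ x ∈ TB D a k, (∃ n, w = pre x n) → Bs P x ν m = v
  self : ∀ k w m v, D a (qSelf k w m v) → ∀ x ∈ TB D a k, (∃ n, w = pre x n) → Bs P x a m = v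
  /-- all bits of all stages `≤ a` are recorded -/
  compl : ∀ k x, x ∈ TB D a k → ∀ ν ≤ a, ∀ m, ∃ n v, know0O V D (some (a, k), pre x n) ν m v
  gen1 : ∀ k x, x ∈ TB D a k → ∀ p, condO V D a p → x ∈ brO D p → ∀ m, ∀ u < a,
    DDO V D a p m u → ∃ ν, u ≤ ν ∧ ν < a ∧ Bs P x ν m = true
  gen0 : ∀ k x, x ∈ TB D a k → ∀ p, condO V D a p → x ∈ brO D p → ∀ m n0,
    ¬ EEO V D a p m n0 → ∀ ν, n0 ≤ ν → ν < a → Bs P x ν m = false
  deci : Order.IsSuccLimit a → ∀ k x, x ∈ TB D a k → ∀ m,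
    (∃ p, condO V D a p ∧ x ∈ brO D p ∧ ∃ n0 < a, ¬ EEO V D a p m n0) ∨
    (∃ p, condO V D a p ∧ x ∈ brO D p ∧ ∀ u < a, DDO V D a p m u)

/-- the properties of stage `a` -/
structure Good (P : LProc) (V : VT) (D : DT) (a : Ordinal.{0}) : Prop where
  t : GoodT V D a
  p : GoodP V D a
  b : GoodB P V D a

/-- `j` is a good choice for thread `k` when `c` (with version number `i`) is replaced. -/
def goodO (D : DT) (Fn : ℕ → List Bool → Prop) (c : Ordinal.{0}) (i k j : ℕ) : Prop :=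
  (∀ u, Fn j u → D c (qTree k u)) ∧
  ∃ w : List Bool, w.length = i ∧ ∀ u, Fn j u → cmpW u w

/-- the data of stage `a` in semantic terms, `Fn j` are the trees of the fusion. -/
structure DatSem (P : LProc) (V : VT) (D : DT) (a : Ordinal.{0}) (Fn : ℕ → List Bool → Prop) :
    Prop where
  tree : ∀ k u, D a (qTree k u) ↔
    (∃ c i, popO V D a c ∧ D c (qVer i) ∧ ∃ j, goodO D Fn c i k j ∧
      (∀ j' < j, ¬ goodO D Fn c i k j') ∧ Fn j u) ∨
    ((¬ ∃ c, popO V D a c) ∧ Fn k u)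
  know : ∀ k w l m v ν, V a (tmOf l) = some ν → (D a (qKnow k w l m v) ↔
    D a (qTree k w) ∧ ∃ p, condO V D a p ∧ (∀ u, D a (qTree k u) → cmpW u w → inO D p u) ∧
      know0O V D p ν m v)
  self0 : a = 0 → ∀ k w m v, D a (qSelf k w m v) ↔ D a (qTree k w) ∧ v = false
  selfS : ∀ d, a = d + 1 → ∀ k w m v, D a (qSelf k w m v) ↔ D a (qTree k w) ∧
    ∃ p, ∃ τ : List Bool, condO V D a p ∧
      (∀ u, D a (qTree k u) → cmpW u w → inO D p u) ∧ τ.length = P.h m ∧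
      (∀ i b, τ[i]? = some b → knowO V D a p d i b) ∧ P.h m ≤ w.length ∧
      v = P.g (m, τ, w.take (P.h m))
  selfL : Order.IsSuccLimit a → ∀ k w m v, D a (qSelf k w m v) ↔ D a (qTree k w) ∧
    ((v = false ∧ ∃ p, ∃ n0 < a, condO V D a p ∧
        (∀ u, D a (qTree k u) → cmpW u w → inO D p u) ∧ ¬ EEO V D a p m n0) ∨
     (v = true ∧ ∃ p, condO V D a p ∧
        (∀ u, D a (qTree k u) → cmpW u w → inO D p u) ∧ ∀ u < a, DDO V D a p m u))
  pop : ∀ c, popO V D a c ↔ candO V D a c ∧ ∀ c', candO V D a c' → c ≤ c'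
  ver : ∀ i, D a (qVer i) ↔ (∃ c i0, popO V D a c ∧ D c (qVer i0) ∧ i = i0 + 1) ∨
    ((¬ ∃ c, popO V D a c) ∧ i = 0)
  org : ∀ l, D a (qOrg l) ↔ ∃ c g, popO V D a c ∧ orgO V D c g ∧ V a (tmOf l) = some g
  truth : ∀ q, D a (qTrue q) ↔ ∃ r : Req, Encodable.decode (α := Req) q = some r ∧
    trueO V D a r

/-- abstract properties of the conditions in a fusion -/
structure FusH {κ : Type} (cnd : κ → Prop) (tr : κ → List Bool → Prop) (root : κ → List Bool)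
    (dec : ℕ → κ → Prop) (start : ℕ → κ) : Prop where
  cmp : ∀ p u, tr p u → cmpW u (root p)
  rt : ∀ p, cnd p → tr p (root p)
  pref : ∀ p, cnd p → ∀ u u', u' <+: u → tr p u → tr p u'
  split : ∀ p, cnd p → ∀ u, tr p u → ∃ u1 u2, u <+: u1 ∧ u <+: u2 ∧ ¬ cmpW u1 u2 ∧
    tr p u1 ∧ tr p u2
  long : ∀ p, cnd p → ∀ u, tr p u → root p <+: u →
    ∃ q, cnd q ∧ root q = u ∧ ∀ u', tr q u' ↔ (tr p u' ∧ cmpW u' u)
  decd : ∀ j p, cnd p → ∃ q, cnd q ∧ (∀ u, tr q u → tr p u) ∧ dec j q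
  deco : ∀ j p q, cnd p → cnd q → dec j p → (∀ u, tr q u → tr p u) → dec j q
  start : ∀ n, cnd (start n)

end Pool.Agent.HT
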