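import Pool.Agent.Helper85.HT.FSem

set_option autoImplicit false

/-!
# FT1: translation of the coded predicates to ordinals
-/

namespace Pool.Agent.HT

open Ordinal

section FT1
variable {C : HS} {V : VT} {D : DT} {b : Ordinal.{0}}

theorem ft1_subt (h : RepAt C V D b) {s : Tm} {c : Ordinal.{0}} (hs : V b s = some c) (l : ℕ) :
    V b (subt l s) = V c (tmOf l) := by
  unfold subt
  rw [h.sub l s, hs]
  rfl

theorem ft1_subt_inv (h : RepAt C V D b) {s : Tm} {l : ℕ} {c : Ordinal.{0}}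
    (hs : V b (subt l s) = some c) : ∃ a, V b s = some a ∧ V a (tmOf l) = some c := by
  unfold subt at hs
  rw [h.sub l s] at hs
  cases hv : V b s with
  | none => rw [hv] at hs; simp at hs
  | some a => rw [hv] at hs; exact ⟨a, rfl, hs⟩

theorem ft1_dat (h : RepAt C V D b) {s : Tm} {c : Ordinal.{0}} (hs : V b s = some c) (q : ℕ) :
    C.dat s q ↔ D c q := by
  rw [h.dat s q]
  constructor
  · rintro ⟨a, ha, hd⟩
    rw [hs] at ha
    injection ha with ha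
    rw [ha]
    exact hd
  · intro hd
    exact ⟨c, hs, hd⟩

theorem ft1_lt (h : RepAt C V D b) {s t : Tm} {c d : Ordinal.{0}} (hs : V b s = some c)
    (ht : V b t = some d) : C.lt s t ↔ c < d := by
  rw [h.lt s t]
  constructor
  · rintro ⟨a, a', ha, ha', hl⟩
    rw [hs] at ha
    rw [ht] at ha'
    injection ha with ha
    injection ha' with ha'
    rw [ha, ha']
    exact hl
  · intro hd
    exact ⟨c, d, hs, ht, hd⟩

theorem ft1_dom (h : RepAt C V D b) {s : Tm} {c : Ordinal.{0}} (hs : V b s = some c) :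
    C.dom s := (h.dom s).2 ⟨c, hs⟩

theorem ft1_eqv (h : RepAt C V D b) {s t : Tm} {c : Ordinal.{0}} (ht : V b t = some c) :
    C.eqv s t ↔ V b s = some c := by
  unfold HS.eqv
  constructor
  · rintro ⟨h1, _, h3, h4⟩
    obtain ⟨a, ha⟩ := (h.dom s).1 h1
    rw [ft1_lt h ha ht] at h3
    rw [ft1_lt h ht ha] at h4
    rw [ha, le_antisymm (not_lt.1 h4) (not_lt.1 h3)]
  · intro hs
    refine ⟨ft1_dom h hs, ft1_dom h ht, ?_, ?_⟩
    · rw [ft1_lt h hs ht]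
      exact lt_irrefl _
    · rw [ft1_lt h ht hs]
      exact lt_irrefl _

theorem ft1_RC_some {p : Cnd} {p' : OC} (hp : RC V b p p') {x : Tm × ℕ} (hx : p.1 = some x) :
    ∃ c, V b x.1 = some c ∧ p'.1 = some (c, x.2) := by
  obtain ⟨_, h2⟩ := hp
  rcases h2 with ⟨h2, _⟩ | ⟨s, k, c, h2, h3, h4⟩
  · rw [hx] at h2
    exact absurd h2 (by simp)
  · rw [hx] at h2
    injection h2 with h2
    subst h2
    exact ⟨c, h4, h3⟩

theorem ft1_RC_some' {p : Cnd} {p' : OC} (hp : RC V b p p') {x : Ordinal.{0} × ℕ}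
    (hx : p'.1 = some x) : ∃ s, V b s = some x.1 ∧ p.1 = some (s, x.2) := by
  obtain ⟨_, h2⟩ := hp
  rcases h2 with ⟨_, h2⟩ | ⟨s, k, c, h2, h3, h4⟩
  · rw [hx] at h2
    exact absurd h2 (by simp)
  · rw [hx] at h3
    injection h3 with h3
    subst h3
    exact ⟨s, h4, h2⟩

theorem ft_inT (h : RepAt C V D b) {p : Cnd} {p' : OC} (hp : RC V b p p') (u : List Bool) :
    inT C p u ↔ inO D p' u := by
  unfold inT inO
  rw [hp.1]
  refine and_congr_right (fun _ => ?_)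
  constructor
  · intro H x hx
    obtain ⟨s, hs, hps⟩ := ft1_RC_some' hp hx
    exact (ft1_dat h hs _).1 (H _ hps)
  · intro H x hx
    obtain ⟨c, hc, hpc⟩ := ft1_RC_some hp hx
    exact (ft1_dat h hc _).2 (H _ hpc)

theorem ft_ex (h : RepAt C V D b) (p' : OC) (hp : ∀ x, p'.1 = some x → x.1 < b) :
    ∃ p, RC V b p p' := by
  obtain ⟨x, w⟩ := p'
  cases x with
  | none => exact ⟨(none, w), rfl, Or.inl ⟨rfl, rfl⟩⟩
  | some x =>
    obtain ⟨s, hs⟩ := h.onto x.1 (hp x rfl)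
    exact ⟨(some (s, x.2), w), rfl, Or.inr ⟨s, x.2, x.1, rfl, rfl, hs⟩⟩

theorem ft_pop (h : RepAt C V D b) {s : Tm} {d c : Ordinal.{0}} (hs : V b s = some d) :
    popO V D d c ↔ ∃ l, C.dat s (qPop l) ∧ V b (subt l s) = some c := by
  unfold popO
  refine exists_congr (fun l => ?_)
  rw [ft1_dat h hs, ft1_subt h hs]

theorem ft_live (h : RepAt C V D b) {s : Tm} {c : Ordinal.{0}} (hs : V b s = some c) :
    liveC C s ↔ liveO V D b c := by
  unfold liveC liveO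
  constructor
  · rintro ⟨_, H⟩
    refine ⟨h.bd s c hs, ?_⟩
    intro d hd c' hpop hcc
    obtain ⟨s', hs'⟩ := h.onto d hd
    obtain ⟨l, hl1, hl2⟩ := (ft_pop h hs').1 hpop
    refine H s' l hl1 (ft1_dom h hl2) ⟨?_, ?_⟩
    · rw [ft1_lt h hs hs']
      exact hcc.2
    · rw [ft1_lt h hs hl2]
      exact not_lt.2 hcc.1
  · rintro ⟨_, H⟩
    refine ⟨ft1_dom h hs, ?_⟩
    intro s' l hl1 hl2 hcc
    obtain ⟨c', hc'⟩ := (h.dom _).1 hl2
    obtain ⟨d, hd, _⟩ := ft1_subt_inv h hc'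
    refine H d (h.bd _ _ hd) c' ((ft_pop h hd).2 ⟨l, hl1, hc'⟩) ⟨?_, ?_⟩
    · have := hcc.2
      rw [ft1_lt h hs hc'] at this
      exact not_lt.1 this
    · have := hcc.1
      rwa [ft1_lt h hs hd] at this

theorem ft_cond (h : RepAt C V D b) {p : Cnd} {p' : OC} (hp : RC V b p p') :
    cond C p ↔ condO V D b p' := by
  unfold cond condO
  constructor
  · intro H x hx
    obtain ⟨s, hs, hps⟩ := ft1_RC_some' hp hx
    obtain ⟨H1, H2⟩ := H _ hps
    refine ⟨(ft_live h hs).1 H1, ?_⟩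
    rw [← hp.1]
    exact (ft1_dat h hs _).1 H2
  · intro H x hx
    obtain ⟨c, hc, hpc⟩ := ft1_RC_some hp hx
    obtain ⟨H1, H2⟩ := H _ hpc
    refine ⟨(ft_live h hc).2 H1, ?_⟩
    rw [hp.1]
    exact (ft1_dat h hc _).2 H2

theorem ft_cond_ex (h : RepAt C V D b) {p : Cnd} (hp : cond C p) :
    ∃ p', RC V b p p' ∧ condO V D b p' := by
  have : ∃ p', RC V b p p' := by
    obtain ⟨x, w⟩ := p
    cases x with
    | none => exact ⟨(none, w), rfl, Or.inl ⟨rfl, rfl⟩⟩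
    | some x =>
      obtain ⟨c, hc⟩ := (h.dom x.1).1 (hp x rfl).1.1
      exact ⟨(some (c, x.2), w), rfl, Or.inr ⟨x.1, x.2, c, rfl, rfl, hc⟩⟩
  obtain ⟨p', hp'⟩ := this
  exact ⟨p', hp', (ft_cond h hp').1 hp⟩

theorem ft_cond_ex' (h : RepAt C V D b) {p' : OC} (hp : condO V D b p') :
    ∃ p, RC V b p p' ∧ cond C p := by
  obtain ⟨p, hp'⟩ := ft_ex h p' (fun x hx => (hp x hx).1.1)
  exact ⟨p, hp', (ft_cond h hp').2 hp⟩

theorem ft_sub (h : RepAt C V D b) {p q : Cnd} {p' q' : OC} (hp : RC V b p p')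
    (hq : RC V b q q') : sub C p q ↔ subO D p' q' := by
  unfold sub subO
  exact forall_congr' (fun u => imp_congr (ft_inT h hp u) (ft_inT h hq u))

theorem ft_know0 (h : RepAt C V D b) {p : Cnd} {p' : OC} (hp : RC V b p p') {t : Tm}
    {ν : Ordinal.{0}} (ht : V b t = some ν) (m : ℕ) (v : Bool) :
    know0 C p t m v ↔ know0O V D p' ν m v := by
  unfold know0 know0O
  rw [hp.1]
  constructor
  · rintro ⟨x, hx, w0, hw0, H⟩
    obtain ⟨c, hc, hpc⟩ := ft1_RC_some hp hx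
    refine ⟨_, hpc, w0, hw0, ?_⟩
    rcases H with ⟨l, H1, H2⟩ | ⟨H1, H2⟩
    · refine Or.inl ⟨l, (ft1_dat h hc _).1 H1, ?_⟩
      rw [ft1_eqv h ht, ft1_subt h hc] at H2
      exact H2
    · refine Or.inr ⟨?_, (ft1_dat h hc _).1 H2⟩
      rw [ft1_eqv h ht, hc] at H1
      injection H1
  · rintro ⟨x, hx, w0, hw0, H⟩
    obtain ⟨s, hs, hps⟩ := ft1_RC_some' hp hx
    refine ⟨_, hps, w0, hw0, ?_⟩
    rcases H with ⟨l, H1, H2⟩ | ⟨H1, H2⟩
    · refine Or.inl ⟨l, (ft1_dat h hs _).2 H1, ?_⟩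
      rw [ft1_eqv h ht, ft1_subt h hs]
      exact H2
    · refine Or.inr ⟨?_, (ft1_dat h hs _).2 H2⟩
      rw [ft1_eqv h ht, hs, H1]

theorem ft_know (h : RepAt C V D b) {p : Cnd} {p' : OC} (hp : RC V b p p') {t : Tm}
    {ν : Ordinal.{0}} (ht : V b t = some ν) (m : ℕ) (v : Bool) :
    know C p t m v ↔ knowO V D b p' ν m v := by
  unfold know knowO
  constructor
  · rintro ⟨q, h1, h2, h3⟩
    obtain ⟨q', hq, hq'⟩ := ft_cond_ex h h1
    exact ⟨q', hq', (ft_sub h hp hq).1 h2, (ft_know0 h hq ht m v).1 h3⟩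
  · rintro ⟨q', h1, h2, h3⟩
    obtain ⟨q, hq, hq'⟩ := ft_cond_ex' h h1
    exact ⟨q, hq', (ft_sub h hp hq).2 h2, (ft_know0 h hq ht m v).2 h3⟩

theorem ft_EE (h : RepAt C V D b) {p : Cnd} {p' : OC} (hp : RC V b p p') {t : Tm}
    {ν : Ordinal.{0}} (ht : V b t = some ν) (m : ℕ) :
    EE C p m t ↔ EEO V D b p' m ν := by
  unfold EE EEO
  constructor
  · rintro ⟨r, t', h1, h2, h3, h4, h5⟩
    obtain ⟨r', hr, hr'⟩ := ft_cond_ex h h1
    obtain ⟨ν', hν'⟩ := (h.dom t').1 h3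
    refine ⟨r', ν', hr', (ft_sub h hr hp).1 h2, h.bd _ _ hν', ?_, (ft_know h hr hν' m true).1 h5⟩
    rw [ft1_lt h hν' ht] at h4
    exact not_lt.1 h4
  · rintro ⟨r', ν', h1, h2, h3, h4, h5⟩
    obtain ⟨r, hr, hr'⟩ := ft_cond_ex' h h1
    obtain ⟨t', ht'⟩ := h.onto ν' h3
    refine ⟨r, t', hr', (ft_sub h hr hp).2 h2, ft1_dom h ht', ?_, (ft_know h hr ht' m true).2 h5⟩
    rw [ft1_lt h ht' ht]
    exact not_lt.2 h4

theorem ft_DD (h : RepAt C V D b) {p : Cnd} {p' : OC} (hp : RC V b p p') {t : Tm}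
    {ν : Ordinal.{0}} (ht : V b t = some ν) (m : ℕ) :
    DD C p m t ↔ DDO V D b p' m ν := by
  unfold DD DDO
  constructor
  · intro H r' h1 h2
    obtain ⟨r, hr, hr'⟩ := ft_cond_ex' h h1
    exact (ft_EE h hr ht m).1 (H r hr' ((ft_sub h hr hp).2 h2))
  · intro H r h1 h2
    obtain ⟨r', hr, hr'⟩ := ft_cond_ex h h1
    exact (ft_EE h hr ht m).2 (H r' hr' ((ft_sub h hr hp).1 h2))

theorem ft1_relg (h : RepAt C V D b) {g : Tm} {g' : Ordinal.{0}} (hg : V b g = some g')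
    {c : RCnd} {p : OC} (hp : relO V g' c p) : RC V b (relc g c) p := by
  obtain ⟨h1, h2⟩ := hp
  refine ⟨h1, ?_⟩
  rcases h2 with ⟨h2, h3⟩ | ⟨l, k, a, h2, h3, h4⟩
  · refine Or.inl ⟨?_, h3⟩
    unfold relc
    simp [h2]
  · refine Or.inr ⟨subt l g, k, a, ?_, h3, ?_⟩
    · unfold relc
      simp [h2]
    · rw [ft1_subt h hg]
      exact h4

theorem ft1_relh {c : RCnd} {p : OC} (hp : relO V b c p) : RC V b (relh c) p := by
  obtain ⟨h1, h2⟩ := hp
  refine ⟨h1, ?_⟩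
  rcases h2 with ⟨h2, h3⟩ | ⟨l, k, a, h2, h3, h4⟩
  · refine Or.inl ⟨?_, h3⟩
    unfold relh
    simp [h2]
  · refine Or.inr ⟨tmOf l, k, a, ?_, h3, h4⟩
    unfold relh
    simp [h2]

theorem ft1_relh' {c : RCnd} {p : OC} (hp : RC V b (relh c) p) : relO V b c p := by
  obtain ⟨h1, h2⟩ := hp
  refine ⟨h1, ?_⟩
  obtain ⟨c1, c2⟩ := c
  unfold relh at h2
  cases c1 with
  | none =>
    rcases h2 with ⟨_, h3⟩ | ⟨s, k, a, h2, _, _⟩
    · exact Or.inl ⟨rfl, h3⟩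
    · simp at h2
  | some x =>
    obtain ⟨l, k⟩ := x
    rcases h2 with ⟨h2, _⟩ | ⟨s, k', a, h2, h3, h4⟩
    · simp at h2
    · simp only [Option.map_some, Option.some.injEq, Prod.mk.injEq] at h2
      obtain ⟨h21, h22⟩ := h2
      subst h21
      subst h22
      exact Or.inr ⟨l, k, a, rfl, h3, h4⟩

theorem ft1_relO_uniq {g : Ordinal.{0}} {c : RCnd} {p q : OC} (hp : relO V g c p)
    (hq : relO V g c q) : p = q := by
  obtain ⟨h1, h2⟩ := hp
  obtain ⟨h1', h2'⟩ := hq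
  refine Prod.ext ?_ (h1.symm.trans h1')
  rcases h2 with ⟨h2, h3⟩ | ⟨l, k, a, h2, h3, h4⟩
  · rcases h2' with ⟨_, h3'⟩ | ⟨l', k', a', h2', _, _⟩
    · rw [h3, h3']
    · rw [h2] at h2'
      exact absurd h2' (by simp)
  · rcases h2' with ⟨h2', _⟩ | ⟨l', k', a', h2', h3', h4'⟩
    · rw [h2] at h2'
      exact absurd h2' (by simp)
    · rw [h2] at h2'
      simp only [Option.some.injEq, Prod.mk.injEq] at h2'
      obtain ⟨h21, h22⟩ := h2'
      subst h21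
      subst h22
      rw [h4] at h4'
      injection h4' with h4'
      subst h4'
      rw [h3, h3']

theorem ft_req (h : RepAt C V D b) {r : Req} {g u : Tm} {g' u' : Ordinal.{0}}
    (hg : V b g = some g') (hu : V b u = some u') (h1 : ∃ p, relO V g' r.2.1 p)
    (h2 : r.1 = false → ∃ ν, V g' (tmOf r.2.2.1) = some ν) :
    reqC C r g u ↔ reqO V D b r g' u' := by
  obtain ⟨p, hp⟩ := h1
  have hrc := ft1_relg h hg hp
  unfold reqC reqO
  constructor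
  · rintro (⟨H1, H2⟩ | ⟨H1, H2⟩)
    · obtain ⟨ν, hν⟩ := h2 H1
      refine ⟨p, hp, Or.inl ⟨H1, ν, hν, ?_⟩⟩
      have hν' : V b (subt r.2.2.1 g) = some ν := by rw [ft1_subt h hg]; exact hν
      rwa [ft_EE h hrc hν'] at H2
    · exact ⟨p, hp, Or.inr ⟨H1, (ft_DD h hrc hu _).1 H2⟩⟩
  · rintro ⟨q, hq, H⟩
    have := ft1_relO_uniq hp hq
    subst this
    rcases H with ⟨H1, ν, hν, H2⟩ | ⟨H1, H2⟩
    · refine Or.inl ⟨H1, ?_⟩
      have hν' : V b (subt r.2.2.1 g) = some ν := by rw [ft1_subt h hg]; exact hν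
      rwa [ft_EE h hrc hν']
    · exact Or.inr ⟨H1, (ft_DD h hrc hu _).2 H2⟩

theorem ft_true (h : RepAt C V D b) (r : Req) : trueC C r ↔ trueO V D b r := by
  unfold trueC trueO
  constructor
  · rintro ⟨h1, h2⟩
    obtain ⟨p, hp, hp'⟩ := ft_cond_ex h h1
    refine ⟨p, ft1_relh' hp, hp', ?_⟩
    rcases h2 with ⟨h2, h3, h4⟩ | ⟨h2, h3⟩
    · obtain ⟨ν, hν⟩ := (h.dom _).1 h3
      refine Or.inl ⟨h2, ν, hν, ?_⟩
      rwa [ft_EE h hp hν] at h4
    · refine Or.inr ⟨h2, ?_⟩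
      intro u hu
      obtain ⟨s, hs⟩ := h.onto u hu
      exact (ft_DD h hp hs _).1 (h3 s (ft1_dom h hs))
  · rintro ⟨p, hp0, hp', h2⟩
    have hp := ft1_relh hp0
    refine ⟨(ft_cond h hp).2 hp', ?_⟩
    rcases h2 with ⟨h2, ν, hν, h4⟩ | ⟨h2, h3⟩
    · refine Or.inl ⟨h2, ft1_dom h hν, ?_⟩
      rwa [ft_EE h hp hν]
    · refine Or.inr ⟨h2, ?_⟩
      intro s hs
      obtain ⟨u, hu⟩ := (h.dom s).1 hs
      exact (ft_DD h hp hu _).2 (h3 u (h.bd _ _ hu))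

end FT1

end Pool.Agent.HT
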