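import Pool.Agent.Helper85.HT.FT1

set_option autoImplicit false

/-!
# Module FT2: the data of a stage in semantic terms
-/

namespace Pool.Agent.HT

open Ordinal

/-! ### tags -/

theorem ft2_tree (P : LProc) (C : HS) (k : ℕ) (u : List Bool) :
    ThF P C (qTree k u) ↔ gnode C k u := by
  unfold ThF qTree
  simp only [Nat.unpair_pair]
  constructor
  · rintro (⟨h, -⟩ | ⟨-, k', w', h, h'⟩ | ⟨h, -⟩ | ⟨h, -⟩ | ⟨h, -⟩ | ⟨h, -⟩ | ⟨h, -⟩ | ⟨h, -⟩)
    · omega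
    · have := Encodable.encode_injective h
      rw [Prod.mk.injEq] at this
      rw [this.1, this.2]; exact h'
    all_goals omega
  · intro h
    exact Or.inr (Or.inl ⟨trivial, k, u, rfl, h⟩)

theorem ft2_know (P : LProc) (C : HS) (k : ℕ) (w : List Bool) (l m : ℕ) (v : Bool) :
    ThF P C (qKnow k w l m v) ↔ newKnow C k w l m v := by
  unfold ThF qKnow
  simp only [Nat.unpair_pair]
  constructor
  · rintro (⟨h, -⟩ | ⟨h, -⟩ | ⟨-, k', w', l', m', v', h, h'⟩ | ⟨h, -⟩ | ⟨h, -⟩ | ⟨h, -⟩ | ⟨h, -⟩ |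
      ⟨h, -⟩)
    · omega
    · omega
    · have := Encodable.encode_injective h
      simp only [Prod.mk.injEq] at this
      obtain ⟨rfl, rfl, rfl, rfl, rfl⟩ := this
      exact h'
    all_goals omega
  · intro h
    exact Or.inr (Or.inr (Or.inl ⟨trivial, k, w, l, m, v, rfl, h⟩))

theorem ft2_self (P : LProc) (C : HS) (k : ℕ) (w : List Bool) (m : ℕ) (v : Bool) :
    ThF P C (qSelf k w m v) ↔ newSelf P C k w m v := by
  unfold ThF qSelf
  simp only [Nat.unpair_pair]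
  constructor
  · rintro (⟨h, -⟩ | ⟨h, -⟩ | ⟨h, -⟩ | ⟨-, k', w', m', v', h, h'⟩ | ⟨h, -⟩ | ⟨h, -⟩ | ⟨h, -⟩ |
      ⟨h, -⟩)
    · omega
    · omega
    · omega
    · have := Encodable.encode_injective h
      simp only [Prod.mk.injEq] at this
      obtain ⟨rfl, rfl, rfl, rfl⟩ := this
      exact h'
    all_goals omega
  · intro h
    exact Or.inr (Or.inr (Or.inr (Or.inl ⟨trivial, k, w, m, v, rfl, h⟩)))

theorem ft2_pop (P : LProc) (C : HS) (l : ℕ) : ThF P C (qPop l) ↔ popC C (tmOf l) := by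
  unfold ThF qPop
  simp only [Nat.unpair_pair]
  constructor
  · rintro (⟨h, -⟩ | ⟨h, -⟩ | ⟨h, -⟩ | ⟨h, -⟩ | ⟨-, h'⟩ | ⟨h, -⟩ | ⟨h, -⟩ | ⟨h, -⟩)
    all_goals first | exact h' | omega
  · intro h
    exact Or.inr (Or.inr (Or.inr (Or.inr (Or.inl ⟨trivial, h⟩))))

theorem ft2_ver (P : LProc) (C : HS) (i : ℕ) : ThF P C (qVer i) ↔ nVer C i := by
  unfold ThF qVer
  simp only [Nat.unpair_pair]
  constructor
  · rintro (⟨h, -⟩ | ⟨h, -⟩ | ⟨h, -⟩ | ⟨h, -⟩ | ⟨h, -⟩ | ⟨-, h'⟩ | ⟨h, -⟩ | ⟨h, -⟩)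
    all_goals first | exact h' | omega
  · intro h
    exact Or.inr (Or.inr (Or.inr (Or.inr (Or.inr (Or.inl ⟨trivial, h⟩)))))

theorem ft2_org (P : LProc) (C : HS) (l : ℕ) : ThF P C (qOrg l) ↔ nOrg C l := by
  unfold ThF qOrg
  simp only [Nat.unpair_pair]
  constructor
  · rintro (⟨h, -⟩ | ⟨h, -⟩ | ⟨h, -⟩ | ⟨h, -⟩ | ⟨h, -⟩ | ⟨h, -⟩ | ⟨-, h'⟩ | ⟨h, -⟩)
    all_goals first | exact h' | omega
  · intro h
    exact Or.inr (Or.inr (Or.inr (Or.inr (Or.inr (Or.inr (Or.inl ⟨trivial, h⟩))))))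

theorem ft2_true (P : LProc) (C : HS) (q : ℕ) : ThF P C (qTrue q) ↔
    ∃ r : Req, Encodable.decode (α := Req) q = some r ∧ trueC C r := by
  unfold ThF qTrue
  simp only [Nat.unpair_pair]
  constructor
  · rintro (⟨h, -⟩ | ⟨h, -⟩ | ⟨h, -⟩ | ⟨h, -⟩ | ⟨h, -⟩ | ⟨h, -⟩ | ⟨h, -⟩ | ⟨-, h'⟩)
    all_goals first | exact h' | omega
  · intro h
    exact Or.inr (Or.inr (Or.inr (Or.inr (Or.inr (Or.inr (Or.inr ⟨trivial, h⟩))))))

theorem ft2_tmOf (s : Tm) : tmOf (Encodable.encode s) = s := Denumerable.ofNat_encode s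

/-! ### names -/

section
variable {C : HS} {V : VT} {D : DT} {b : Ordinal.{0}}

theorem ft2_dat (h : RepAt C V D b) {s : Tm} {c : Ordinal.{0}} (hs : V b s = some c) (q : ℕ) :
    C.dat s q ↔ D c q := by
  rw [h.dat]
  constructor
  · rintro ⟨a, ha, hq⟩
    rw [hs, Option.some.injEq] at ha
    rw [ha]; exact hq
  · intro hq; exact ⟨c, hs, hq⟩

theorem ft2_lt (h : RepAt C V D b) {s t : Tm} {c e : Ordinal.{0}} (hs : V b s = some c)
    (ht : V b t = some e) : C.lt s t ↔ c < e := by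
  rw [h.lt]
  constructor
  · rintro ⟨a, a', ha, ha', hq⟩
    rw [hs, Option.some.injEq] at ha
    rw [ht, Option.some.injEq] at ha'
    rw [ha, ha']; exact hq
  · intro hq; exact ⟨c, e, hs, ht, hq⟩

theorem ft2_eqv (h : RepAt C V D b) {s t : Tm} {c : Ordinal.{0}} (hs : V b s = some c) :
    C.eqv s t ↔ V b t = some c := by
  unfold HS.eqv
  constructor
  · rintro ⟨-, h2, h3, h4⟩
    obtain ⟨e, he⟩ := (h.dom t).1 h2
    rw [ft2_lt h hs he] at h3
    rw [ft2_lt h he hs] at h4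
    rw [he, le_antisymm (not_lt.1 h3) (not_lt.1 h4)]
  · intro ht
    refine ⟨(h.dom s).2 ⟨c, hs⟩, (h.dom t).2 ⟨c, ht⟩, ?_, ?_⟩
    · rw [ft2_lt h hs ht]; exact lt_irrefl _
    · rw [ft2_lt h ht hs]; exact lt_irrefl _

theorem ft2_subt (h : RepAt C V D b) {s : Tm} {c : Ordinal.{0}} (hs : V b s = some c) (l : ℕ) :
    V b (subt l s) = V c (tmOf l) := by
  unfold subt
  rw [h.sub, hs]; rfl

/-- the origin of a stage -/
theorem ft2_orgOf (h : RepAt C V D b) {s : Tm} {c : Ordinal.{0}} (hs : V b s = some c)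
    {g : Tm} {g' : Ordinal.{0}} (hg : V b g = some g') (ho : orgOf C s g) : orgO V D c g' := by
  rcases ho with ⟨l, h1, h2⟩ | ⟨h1, h2⟩
  · left
    refine ⟨l, (ft2_dat h hs _).1 h1, ?_⟩
    rw [← ft2_subt h hs, ← h2, hg]
  · right
    refine ⟨fun ⟨l, hl⟩ => h1 ⟨l, (ft2_dat h hs _).2 hl⟩, ?_⟩
    rw [h2, hs, Option.some.injEq] at hg
    exact hg.symm

theorem ft2_orgO (h : RepAt C V D b) {s : Tm} {c : Ordinal.{0}} (hs : V b s = some c)
    {g' : Ordinal.{0}} (ho : orgO V D c g') : ∃ g, orgOf C s g ∧ V b g = some g' := by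
  rcases ho with ⟨l, h1, h2⟩ | ⟨h1, h2⟩
  · refine ⟨subt l s, Or.inl ⟨l, (ft2_dat h hs _).2 h1, rfl⟩, ?_⟩
    rw [ft2_subt h hs, h2]
  · refine ⟨s, Or.inr ⟨fun ⟨l, hl⟩ => h1 ⟨l, (ft2_dat h hs _).1 hl⟩, rfl⟩, ?_⟩
    rw [h2, hs]

theorem ft2_cond1 (h : RepAt C V D b) {s : Tm} {c : Ordinal.{0}} (hs : V b s = some c)
    {g : Tm} {g' : Ordinal.{0}} (hg : V b g = some g') (i : ℕ) :
    cond1C C i g s ↔ Cond1 V i g' c b := by
  unfold cond1C Cond1
  refine forall_congr' fun u => imp_congr_right fun _ => ?_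
  refine or_congr ?_ (or_congr ?_ (exists_congr fun t => and_congr_right fun _ =>
    and_congr_right fun _ => ?_))
  · rw [h.dom, not_exists]
    rcases V b u with - | e
    · simp
    · simp
  · constructor
    · intro h1
      obtain ⟨e, e', h2, h3, h4⟩ := (h.lt _ _).1 h1
      rw [hg, Option.some.injEq] at h3
      exact ⟨e, h2, h3 ▸ h4⟩
    · rintro ⟨e, h2, h3⟩
      exact (h.lt _ _).2 ⟨e, g', h2, hg, h3⟩
  · constructor
    · rintro ⟨h1, h2⟩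
      obtain ⟨e, he⟩ := (h.dom t).1 h1
      rw [ft2_lt h he hs] at h2
      exact ⟨e, he, not_lt.1 h2⟩
    · rintro ⟨e, he, h2⟩
      refine ⟨(h.dom t).2 ⟨e, he⟩, ?_⟩
      rw [ft2_lt h he hs]
      exact not_lt.2 h2

/-- the hypothesis that the requirements recorded as true are meaningful -/
def Ft2Truth (V : VT) (D : DT) (b : Ordinal.{0}) : Prop :=
  ∀ c < b, ∀ q, D c (qTrue q) → ∃ r : Req, Encodable.decode (α := Req) q = some r ∧
    trueO V D c r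

theorem ft2_cond2 (h : RepAt C V D b) (hT : Ft2Truth V D b) {s : Tm} {c : Ordinal.{0}}
    (hs : V b s = some c) {g : Tm} {g' : Ordinal.{0}} (hg : V b g = some g') (i : ℕ) :
    cond2C C i g s ↔ cond2O V D b i g' c := by
  unfold cond2C cond2O
  refine forall_congr' fun q => forall_congr' fun r => imp_congr_right fun _ =>
    forall_congr' fun hr => ?_
  rw [ft2_dat h hg]
  refine forall_congr' fun hD => ?_
  obtain ⟨r', hr', p, h1, -, h2⟩ := hT g' (h.bd _ _ hg) q hD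
  rw [hr, Option.some.injEq] at hr'
  subst hr'
  refine ft_req h hg hs ⟨p, h1⟩ fun hf => ?_
  rcases h2 with ⟨-, ν, h3, -⟩ | ⟨h3, -⟩
  · exact ⟨ν, h3⟩
  · rw [hf] at h3; exact absurd h3 (by simp)

theorem ft2_cand (h : RepAt C V D b) (hT : Ft2Truth V D b) {s : Tm} {c : Ordinal.{0}}
    (hs : V b s = some c) : candC C s ↔ candO V D b c := by
  unfold candC candO
  refine and_congr (ft_live h hs) (exists_congr fun i => ?_)
  constructor
  · rintro ⟨g, h1, h2, h3, h4, h5⟩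
    obtain ⟨g', hg⟩ := (h.dom g).1 h3
    exact ⟨g', (ft2_dat h hs _).1 h1, ft2_orgOf h hs hg h2, (ft2_cond1 h hs hg i).1 h4,
      (ft2_cond2 h hT hs hg i).1 h5⟩
  · rintro ⟨g', h1, h2, h4, h5⟩
    obtain ⟨g, h6, hg⟩ := ft2_orgO h hs h2
    exact ⟨g, (ft2_dat h hs _).2 h1, h6, (h.dom g).2 ⟨g', hg⟩, (ft2_cond1 h hs hg i).2 h4,
      (ft2_cond2 h hT hs hg i).2 h5⟩

theorem ft2_cand_dom (h : RepAt C V D b) {s : Tm} (hs : candC C s) : ∃ c, V b s = some c :=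
  (h.dom s).1 hs.1.1

theorem ft2_popC (h : RepAt C V D b) (hT : Ft2Truth V D b) {s : Tm} {c : Ordinal.{0}}
    (hs : V b s = some c) :
    popC C s ↔ candO V D b c ∧ ∀ c', candO V D b c' → c ≤ c' := by
  unfold popC
  refine and_congr (ft2_cand h hT hs) ?_
  constructor
  · intro h1 c' hc'
    obtain ⟨s', hs'⟩ := h.onto c' hc'.1.1
    have := h1 s' ((ft2_cand h hT hs').2 hc')
    rw [ft2_lt h hs' hs] at this
    exact not_lt.1 this
  · intro h1 s' hs'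
    obtain ⟨c', hc'⟩ := ft2_cand_dom h hs'
    rw [ft2_lt h hc' hs]
    exact not_lt.2 (h1 c' ((ft2_cand h hT hc').1 hs'))

theorem ft2_pop_dom (h : RepAt C V D b) {s : Tm} (hs : popC C s) : ∃ c, V b s = some c :=
  ft2_cand_dom h hs.1

end

section
variable {P : LProc} {V : VT} {D : DT} {ζ σ : Ordinal.{0}}

theorem ft2_truth (F : HullFacts PsF (ThF P) V D ζ σ) {a : Ordinal.{0}} (ha : a < σ) (q : ℕ) :
    D a (qTrue q) ↔ ∃ r : Req, Encodable.decode (α := Req) q = some r ∧ trueO V D a r := by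
  rw [F.hD, ft2_true]
  exact exists_congr fun r => and_congr_right fun _ => ft_true (F.rep a ha) r

theorem ft2_truth' (F : HullFacts PsF (ThF P) V D ζ σ) {a : Ordinal.{0}} (ha : a < σ) :
    Ft2Truth V D a := fun _ hc q hq => (ft2_truth F (hc.trans ha) q).1 hq

theorem ft2_popO (F : HullFacts PsF (ThF P) V D ζ σ) {a : Ordinal.{0}} (ha : a < σ)
    {s : Tm} {c : Ordinal.{0}} (hs : V a s = some c) :
    popO V D a c ↔ popC (Cst PsF (ThF P) a) s := by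
  have h := F.rep a ha
  have hT := ft2_truth' F ha
  unfold popO
  constructor
  · rintro ⟨l, h1, h2⟩
    rw [F.hD, ft2_pop, ft2_popC h hT h2] at h1
    exact (ft2_popC h hT hs).2 h1
  · intro h1
    refine ⟨Encodable.encode s, ?_, ?_⟩
    · rw [F.hD, ft2_pop, ft2_tmOf]; exact h1
    · rw [ft2_tmOf]; exact hs

theorem ft2_popO' (F : HullFacts PsF (ThF P) V D ζ σ) {a : Ordinal.{0}} (ha : a < σ)
    {c : Ordinal.{0}} (hc : popO V D a c) :
    ∃ s, V a s = some c ∧ popC (Cst PsF (ThF P) a) s := by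
  obtain ⟨l, h1, h2⟩ := hc
  rw [F.hD, ft2_pop] at h1
  exact ⟨_, h2, h1⟩

theorem ft2_popO'' (F : HullFacts PsF (ThF P) V D ζ σ) {a : Ordinal.{0}} (ha : a < σ)
    {s : Tm} (hs : popC (Cst PsF (ThF P) a) s) : ∃ c, V a s = some c ∧ popO V D a c := by
  obtain ⟨c, hc⟩ := ft2_pop_dom (F.rep a ha) hs
  exact ⟨c, hc, (ft2_popO F ha hc).2 hs⟩

theorem ft2_nopop (F : HullFacts PsF (ThF P) V D ζ σ) {a : Ordinal.{0}} (ha : a < σ) :
    (¬ ∃ s, popC (Cst PsF (ThF P) a) s) ↔ ¬ ∃ c, popO V D a c := by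
  refine not_congr ⟨?_, ?_⟩
  · rintro ⟨s, hs⟩
    obtain ⟨c, -, hc⟩ := ft2_popO'' F ha hs
    exact ⟨c, hc⟩
  · rintro ⟨c, hc⟩
    obtain ⟨s, -, hs⟩ := ft2_popO' F ha hc
    exact ⟨s, hs⟩

theorem ft2_good (F : HullFacts PsF (ThF P) V D ζ σ) {a : Ordinal.{0}} (ha : a < σ)
    {s : Tm} {c : Ordinal.{0}} (hs : V a s = some c) (i k j : ℕ) :
    goodJ (Cst PsF (ThF P) a) s i k j ↔ goodO D (fnode (Cst PsF (ThF P) a)) c i k j := by
  unfold goodJ goodO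
  refine and_congr_left fun _ => forall_congr' fun u => imp_congr_right fun _ => ?_
  exact ft2_dat (F.rep a ha) hs _

theorem ft2_treeS (F : HullFacts PsF (ThF P) V D ζ σ) {a : Ordinal.{0}} (ha : a < σ)
    (k : ℕ) (u : List Bool) : D a (qTree k u) ↔
    (∃ c i, popO V D a c ∧ D c (qVer i) ∧ ∃ j, goodO D (fnode (Cst PsF (ThF P) a)) c i k j ∧
      (∀ j' < j, ¬ goodO D (fnode (Cst PsF (ThF P) a)) c i k j') ∧
        fnode (Cst PsF (ThF P) a) j u) ∨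
    ((¬ ∃ c, popO V D a c) ∧ fnode (Cst PsF (ThF P) a) k u) := by
  have h := F.rep a ha
  rw [F.hD, ft2_tree]
  unfold gnode
  rw [ft2_nopop F ha]
  refine or_congr_left ?_
  constructor
  · rintro ⟨s, i, h1, h2, j, h3, h4, h5⟩
    obtain ⟨c, hs, hc⟩ := ft2_popO'' F ha h1
    exact ⟨c, i, hc, (ft2_dat h hs _).1 h2, j, (ft2_good F ha hs i k j).1 h3,
      fun j' hj' hg => h4 j' hj' ((ft2_good F ha hs i k j').2 hg), h5⟩
  · rintro ⟨c, i, h1, h2, j, h3, h4, h5⟩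
    obtain ⟨s, hs, hc⟩ := ft2_popO' F ha h1
    exact ⟨s, i, hc, (ft2_dat h hs _).2 h2, j, (ft2_good F ha hs i k j).2 h3,
      fun j' hj' hg => h4 j' hj' ((ft2_good F ha hs i k j').1 hg), h5⟩

theorem ft2_gnode (F : HullFacts PsF (ThF P) V D ζ σ) {a : Ordinal.{0}}
    (k : ℕ) (u : List Bool) : gnode (Cst PsF (ThF P) a) k u ↔ D a (qTree k u) := by
  rw [F.hD, ft2_tree]

theorem ft2_subG (F : HullFacts PsF (ThF P) V D ζ σ) {a : Ordinal.{0}} (ha : a < σ)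
    (k : ℕ) (w : List Bool) {p : Cnd} {p' : OC} (hp : RC V a p p') :
    subG (Cst PsF (ThF P) a) k w p ↔ ∀ u, D a (qTree k u) → cmpW u w → inO D p' u := by
  unfold subG
  refine forall_congr' fun u => ?_
  rw [ft2_gnode F, ft_inT (F.rep a ha) hp]

/-- existence of a condition in both languages -/
theorem ft2_ex (F : HullFacts PsF (ThF P) V D ζ σ) {a : Ordinal.{0}} (ha : a < σ)
    {Q : Cnd → Prop} {Q' : OC → Prop}
    (hQ : ∀ p p', RC V a p p' → condO V D a p' → (Q p ↔ Q' p')) :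
    (∃ p, cond (Cst PsF (ThF P) a) p ∧ Q p) ↔ ∃ p', condO V D a p' ∧ Q' p' := by
  have h := F.rep a ha
  constructor
  · rintro ⟨p, h1, h2⟩
    obtain ⟨p', h3, h4⟩ := ft_cond_ex h h1
    exact ⟨p', h4, (hQ p p' h3 h4).1 h2⟩
  · rintro ⟨p', h1, h2⟩
    obtain ⟨p, h3, h4⟩ := ft_cond_ex' h h1
    exact ⟨p, h4, (hQ p p' h3 h1).2 h2⟩

theorem ft2_max_succ (F : HullFacts PsF (ThF P) V D ζ σ) {d : Ordinal.{0}} (ha : d + 1 < σ)
    (t : Tm) : maxC (Cst PsF (ThF P) (d + 1)) t ↔ V (d + 1) t = some d := by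
  have h := F.rep (d + 1) ha
  obtain ⟨s, hs⟩ := h.onto d (by simp)
  unfold maxC
  constructor
  · rintro ⟨h1, h2⟩
    obtain ⟨c, hc⟩ := (h.dom t).1 h1
    have h3 := h2 s ((h.dom s).2 ⟨d, hs⟩)
    rw [ft2_lt h hc hs] at h3
    have h4 : c < d + 1 := h.bd _ _ hc
    rw [hc, le_antisymm (Order.lt_add_one_iff.1 h4) (not_lt.1 h3)]
  · intro ht
    refine ⟨(h.dom t).2 ⟨d, ht⟩, fun t' ht' => ?_⟩
    obtain ⟨c, hc⟩ := (h.dom t').1 ht'
    rw [ft2_lt h ht hc]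
    exact not_lt.2 (Order.lt_add_one_iff.1 (h.bd _ _ hc))

theorem ft2_max_lim (F : HullFacts PsF (ThF P) V D ζ σ) {a : Ordinal.{0}} (ha : a < σ)
    (hl : Order.IsSuccLimit a) : ¬ ∃ t, maxC (Cst PsF (ThF P) a) t := by
  have h := F.rep a ha
  rintro ⟨t, h1, h2⟩
  obtain ⟨c, hc⟩ := (h.dom t).1 h1
  obtain ⟨s, hs⟩ := h.onto (c + 1) (hl.add_one_lt (h.bd _ _ hc))
  have h3 := h2 s ((h.dom s).2 ⟨_, hs⟩)
  rw [ft2_lt h hc hs] at h3
  exact h3 (by simp)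

theorem datSem {P : LProc} {V : VT} {D : DT} {ζ σ : Ordinal.{0}}
    (F : HullFacts PsF (ThF P) V D ζ σ) {a : Ordinal.{0}} (ha : a < σ) :
    DatSem P V D a (fnode (Cst PsF (ThF P) a)) := by
  have h := F.rep a ha
  have hT := ft2_truth' F ha
  refine ⟨ft2_treeS F ha, ?_, ?_, ?_, ?_, ?_, ?_, ?_, ft2_truth F ha⟩
  · -- know
    intro k w l m v ν hν
    rw [F.hD a (qKnow k w l m v), ft2_know]
    unfold newKnow
    rw [ft2_gnode F]
    refine and_congr_right fun _ => ?_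
    rw [and_iff_right ((h.dom _).2 ⟨ν, hν⟩)]
    refine ft2_ex F ha fun p p' hp _ => ?_
    rw [ft2_subG F ha k w hp, ft_know0 h hp hν]
  · -- self0
    intro h0 k w m v
    have hd : ∀ t, ¬ (Cst PsF (ThF P) a).dom t := by
      intro t ht
      obtain ⟨c, hc⟩ := (h.dom t).1 ht
      have := h.bd _ _ hc
      rw [h0] at this
      exact absurd this (not_lt.2 zero_le)
    rw [F.hD a (qSelf k w m v), ft2_self]
    unfold newSelf
    rw [ft2_gnode F]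
    refine and_congr_right fun _ => ?_
    constructor
    · rintro (⟨-, h1⟩ | ⟨t, p, τ, h1, -⟩ | ⟨-, ⟨t, ht⟩, -⟩ | ⟨-, ⟨t, ht⟩, -⟩)
      · exact h1
      · exact absurd h1.1 (hd t)
      · exact absurd ht (hd t)
      · exact absurd ht (hd t)
    · intro h1
      exact Or.inl ⟨hd, h1⟩
  · -- selfS
    rintro d rfl k w m v
    obtain ⟨s, hs⟩ := h.onto d (by simp)
    have hd : (Cst PsF (ThF P) (d + 1)).dom s := (h.dom s).2 ⟨d, hs⟩
    have hmx : ∃ t, maxC (Cst PsF (ThF P) (d + 1)) t := ⟨s, (ft2_max_succ F ha s).2 hs⟩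
    rw [F.hD (d + 1) (qSelf k w m v), ft2_self]
    unfold newSelf
    rw [ft2_gnode F]
    refine and_congr_right fun _ => ?_
    constructor
    · rintro (⟨h1, -⟩ | ⟨t, p, τ, h1, h2, h3, h4, h5, h6⟩ | ⟨h1, -⟩ | ⟨h1, -⟩)
      · exact absurd hd (h1 s)
      · rw [ft2_max_succ F ha] at h1
        obtain ⟨p', hp, hp'⟩ := ft_cond_ex h h2
        refine ⟨p', τ, hp', (ft2_subG F ha k w hp).1 h3, h4, fun i b hb => ?_, h6⟩
        exact (ft_know h hp h1 i b).1 (h5 i b hb)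
      · exact absurd hmx h1
      · exact absurd hmx h1
    · rintro ⟨p', τ, hp', h3, h4, h5, h6⟩
      obtain ⟨p, hp, h2⟩ := ft_cond_ex' h hp'
      refine Or.inr (Or.inl ⟨s, p, τ, (ft2_max_succ F ha s).2 hs, h2,
        (ft2_subG F ha k w hp).2 h3, h4, fun i b hb => ?_, h6⟩)
      exact (ft_know h hp hs i b).2 (h5 i b hb)
  · -- selfL
    intro hl k w m v
    have hmx := ft2_max_lim F ha hl
    have h0 : (0 : Ordinal.{0}) < a := hl.pos
    obtain ⟨s, hs⟩ := h.onto 0 h0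
    have hd : (Cst PsF (ThF P) a).dom s := (h.dom s).2 ⟨0, hs⟩
    rw [F.hD a (qSelf k w m v), ft2_self]
    unfold newSelf
    rw [ft2_gnode F]
    refine and_congr_right fun _ => ?_
    constructor
    · rintro (⟨h1, -⟩ | ⟨t, p, τ, h1, -⟩ | ⟨-, -, h1, p, n0, h2, h3, h4, h5⟩ |
        ⟨-, -, h1, p, h2, h3, h4⟩)
      · exact absurd hd (h1 s)
      · exact absurd ⟨t, h1⟩ hmx
      · left
        obtain ⟨p', hp, hp'⟩ := ft_cond_ex h h2
        obtain ⟨n, hn⟩ := (h.dom n0).1 h4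
        refine ⟨h1, p', n, h.bd _ _ hn, hp', (ft2_subG F ha k w hp).1 h3, ?_⟩
        rw [← ft_EE h hp hn]; exact h5
      · right
        obtain ⟨p', hp, hp'⟩ := ft_cond_ex h h2
        refine ⟨h1, p', hp', (ft2_subG F ha k w hp).1 h3, fun u hu => ?_⟩
        obtain ⟨t, ht⟩ := h.onto u hu
        exact (ft_DD h hp ht m).1 (h4 t ((h.dom t).2 ⟨u, ht⟩))
    · rintro (⟨h1, p', n, hn, hp', h3, h5⟩ | ⟨h1, p', hp', h3, h4⟩)
      · obtain ⟨p, hp, h2⟩ := ft_cond_ex' h hp'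
        obtain ⟨n0, hn0⟩ := h.onto n hn
        refine Or.inr (Or.inr (Or.inl ⟨hmx, ⟨s, hd⟩, h1, p, n0, h2,
          (ft2_subG F ha k w hp).2 h3, (h.dom n0).2 ⟨n, hn0⟩, ?_⟩))
        rw [ft_EE h hp hn0]; exact h5
      · obtain ⟨p, hp, h2⟩ := ft_cond_ex' h hp'
        refine Or.inr (Or.inr (Or.inr ⟨hmx, ⟨s, hd⟩, h1, p, h2,
          (ft2_subG F ha k w hp).2 h3, fun t ht => ?_⟩))
        obtain ⟨u, hu⟩ := (h.dom t).1 ht
        exact (ft_DD h hp hu m).2 (h4 u (h.bd _ _ hu))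
  · -- pop
    intro c
    constructor
    · intro hc
      obtain ⟨s, hs, hp⟩ := ft2_popO' F ha hc
      exact (ft2_popC h hT hs).1 hp
    · intro hc
      obtain ⟨s, hs⟩ := h.onto c hc.1.1.1
      exact (ft2_popO F ha hs).2 ((ft2_popC h hT hs).2 hc)
  · -- ver
    intro i
    rw [F.hD, ft2_ver]
    unfold nVer
    rw [ft2_nopop F ha]
    refine or_congr_left ?_
    constructor
    · rintro ⟨s, i0, h1, h2, h3⟩
      obtain ⟨c, hs, hc⟩ := ft2_popO'' F ha h1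
      exact ⟨c, i0, hc, (ft2_dat h hs _).1 h2, h3⟩
    · rintro ⟨c, i0, h1, h2, h3⟩
      obtain ⟨s, hs, hc⟩ := ft2_popO' F ha h1
      exact ⟨s, i0, hc, (ft2_dat h hs _).2 h2, h3⟩
  · -- org
    intro l
    rw [F.hD, ft2_org]
    unfold nOrg
    constructor
    · rintro ⟨s, g, h1, h2, h3⟩
      obtain ⟨c, hs, hc⟩ := ft2_popO'' F ha h1
      obtain ⟨g', hg⟩ := (h.dom g).1 h3.1
      exact ⟨c, g', hc, ft2_orgOf h hs hg h2, (ft2_eqv h hg).1 h3⟩
    · rintro ⟨c, g', h1, h2, h3⟩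
      obtain ⟨s, hs, hc⟩ := ft2_popO' F ha h1
      obtain ⟨g, h4, hg⟩ := ft2_orgO h hs h2
      exact ⟨s, g, hc, h4, (ft2_eqv h hg).2 h3⟩

end

end Pool.Agent.HT
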