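import Pool.Agent.Helper85.HT.FP

set_option autoImplicit false

/-!
# G1: stage `a` is good (versions, origins, trees)
-/

namespace Pool.Agent.HT

open Ordinal

section G1
variable {P : LProc} {V : VT} {D : DT} {ζ σ a : Ordinal.{0}} {Fn : ℕ → List Bool → Prop}

theorem g1_name {C : HS} {b g : Ordinal.{0}} (h : RepAt C V D b) (hg : g < b) :
    ∃ l, V b (tmOf l) = some g := by
  obtain ⟨s, hs⟩ := h.onto g hg
  refine ⟨Encodable.encode s, ?_⟩
  have : tmOf (Encodable.encode s) = s := Denumerable.ofNat_encode s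
  rw [this]
  exact hs

theorem g1_lt (hD : DatSem P V D a Fn) {c : Ordinal.{0}} (h : popO V D a c) : c < a :=
  ((hD.pop c).1 h).1.1.1

theorem g1_popu (hD : DatSem P V D a Fn) {c c' : Ordinal.{0}} (h : popO V D a c)
    (h' : popO V D a c') : c = c' :=
  le_antisymm (((hD.pop c).1 h).2 c' ((hD.pop c').1 h').1)
    (((hD.pop c').1 h').2 c ((hD.pop c).1 h).1)

theorem good_p (F : HullFacts PsF (ThF P) V D ζ σ) (ha : a < σ) (hG : ∀ c < a, Good P V D c)
    (hD : DatSem P V D a Fn) : GoodP V D a := by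
  classical
  have hrep := F.rep a ha
  have horgp : ∀ c, popO V D a c → ∀ g, orgO V D c g → orgO V D a g := by
    intro c hc g hg
    have hca := g1_lt hD hc
    have hgc := (hG c hca).p.orgle g hg
    obtain ⟨l, hl⟩ := g1_name hrep (lt_of_le_of_lt hgc hca)
    exact Or.inl ⟨l, (hD.org l).2 ⟨c, g, hc, hg, hl⟩, hl⟩
  have hver0 : (¬ ∃ c, popO V D a c) → D a (qVer 0) := fun h => (hD.ver 0).2 (Or.inr ⟨h, rfl⟩)
  have hverp : ∀ c, popO V D a c → ∀ i, D c (qVer i) → D a (qVer (i + 1)) :=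
    fun c hc i hi => (hD.ver (i + 1)).2 (Or.inl ⟨c, i, hc, hi, rfl⟩)
  have horg0 : (¬ ∃ c, popO V D a c) → orgO V D a a := by
    intro h
    refine Or.inr ⟨?_, rfl⟩
    rintro ⟨l, hl⟩
    obtain ⟨c, g, hc, -⟩ := (hD.org l).1 hl
    exact h ⟨c, hc⟩
  have hkey : ∀ g, orgO V D a g → (∃ c, popO V D a c ∧ orgO V D c g) ∨
      ((¬ ∃ c, popO V D a c) ∧ g = a) := by
    intro g hg
    rcases hg with ⟨l, hl, hl'⟩ | ⟨h, rfl⟩
    · obtain ⟨c, g0, hc, hg0, hl2⟩ := (hD.org l).1 hl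
      rw [hl'] at hl2
      cases hl2
      exact Or.inl ⟨c, hc, hg0⟩
    · refine Or.inr ⟨?_, rfl⟩
      rintro ⟨c, hc⟩
      have hca := g1_lt hD hc
      obtain ⟨g0, hg0⟩ := (hG c hca).p.orgx
      obtain ⟨l, hl⟩ := g1_name hrep (lt_of_le_of_lt ((hG c hca).p.orgle g0 hg0) hca)
      exact h ⟨l, (hD.org l).2 ⟨c, g0, hc, hg0, hl⟩⟩
  refine ⟨fun c c' h h' => g1_popu hD h h', fun c h => ((hD.pop c).1 h).1, ?_, hverp, horgp,
    hver0, horg0, ?_, ?_, ?_, ?_, ?_, hD.truth⟩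
  · intro c hc
    obtain ⟨m, hm, hmin⟩ := WellFounded.has_min (α := Ordinal.{0}) wellFounded_lt
      {c | candO V D a c} ⟨c, hc⟩
    have hmin' : ∀ c', candO V D a c' → m ≤ c' := fun c' hc' => not_lt.1 (hmin c' hc')
    exact ⟨m, (hD.pop m).2 ⟨hm, hmin'⟩, hmin' c hc⟩
  · by_cases h : ∃ c, popO V D a c
    · obtain ⟨c, hc⟩ := h
      obtain ⟨i, hi⟩ := (hG c (g1_lt hD hc)).p.verx
      exact ⟨i + 1, hverp c hc i hi⟩
    · exact ⟨0, hver0 h⟩
  · intro i i' hi hi'
    rcases (hD.ver i).1 hi with ⟨c, i0, hc, hi0, rfl⟩ | ⟨h, rfl⟩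
    · rcases (hD.ver i').1 hi' with ⟨c', i0', hc', hi0', rfl⟩ | ⟨h', rfl⟩
      · have hcc := g1_popu hD hc hc'
        subst hcc
        rw [(hG c (g1_lt hD hc)).p.veru i0 i0' hi0 hi0']
      · exact absurd ⟨c, hc⟩ h'
    · rcases (hD.ver i').1 hi' with ⟨c', i0', hc', hi0', rfl⟩ | ⟨h', rfl⟩
      · exact absurd ⟨c', hc'⟩ h
      · rfl
  · by_cases h : ∃ c, popO V D a c
    · obtain ⟨c, hc⟩ := h
      obtain ⟨g, hg⟩ := (hG c (g1_lt hD hc)).p.orgx
      exact ⟨g, horgp c hc g hg⟩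
    · exact ⟨a, horg0 h⟩
  · intro g g' hg hg'
    rcases hkey g hg with ⟨c, hc, h1⟩ | ⟨h, h1⟩
    · rcases hkey g' hg' with ⟨c', hc', h1'⟩ | ⟨h', h1'⟩
      · have hcc := g1_popu hD hc hc'
        subst hcc
        exact (hG c (g1_lt hD hc)).p.orgu g g' h1 h1'
      · exact absurd ⟨c, hc⟩ h'
    · rcases hkey g' hg' with ⟨c', hc', h1'⟩ | ⟨h', h1'⟩
      · exact absurd ⟨c', hc'⟩ h
      · rw [h1, h1']
  · intro g hg
    rcases hkey g hg with ⟨c, hc, h1⟩ | ⟨h, h1⟩
    · exact ((hG c (g1_lt hD hc)).p.orgle g h1).trans (g1_lt hD hc).le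
    · exact h1.le

/-- threads have nodes of every length -/
theorem g1_len (hT : GoodT V D a) (k i : ℕ) : ∃ w : List Bool, w.length = i ∧
    D a (qTree k w) := by
  have h : ∀ i : ℕ, ∃ w : List Bool, i ≤ w.length ∧ D a (qTree k w) := by
    intro i
    induction i with
    | zero => exact ⟨[], Nat.zero_le _, hT.nil k⟩
    | succ i ih =>
      obtain ⟨w, hw, hw'⟩ := ih
      obtain ⟨u1, u2, h1, h2, h3, h4, -⟩ := hT.split k w hw'
      refine ⟨u1, ?_, h4⟩
      have hle := h1.length_le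
      rcases Nat.lt_or_ge w.length u1.length with h5 | h5
      · omega
      · exfalso
        have : w = u1 := h1.eq_of_length_le h5
        subst this
        exact h3 (Or.inl h2)
  obtain ⟨w, hw, hw'⟩ := h i
  refine ⟨w.take i, ?_, hT.pref k w _ (List.take_prefix i w) hw'⟩
  rw [List.length_take]
  omega

theorem g1_pop (hG : ∀ c < a, Good P V D c) (hD : DatSem P V D a Fn)
    (hF : FusSem V D a Fn) {c : Ordinal.{0}} (hc : popO V D a c) {i : ℕ} (hi : D c (qVer i))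
    (k : ℕ) : ∃ j, goodO D Fn c i k j ∧ ∀ u, D a (qTree k u) ↔ Fn j u := by
  classical
  have hca := g1_lt hD hc
  have hlive : liveO V D a c := ((hD.pop c).1 hc).1.1
  obtain ⟨w, hw, hw'⟩ := g1_len (hG c hca).t k i
  have hcond : condO V D a (some (c, k), w) := by
    intro x hx
    simp only [Option.some.injEq] at hx
    subst hx
    exact ⟨hlive, hw'⟩
  obtain ⟨j0, hj0⟩ := hF.start _ hcond
  have hex : ∃ j, goodO D Fn c i k j :=
    ⟨j0, fun u hu => (hj0 u hu).2 (c, k) rfl, w, hw, fun u hu => (hj0 u hu).1⟩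
  refine ⟨Nat.find hex, Nat.find_spec hex, fun u => ?_⟩
  rw [hD.tree]
  constructor
  · rintro (⟨c', i', hc', hi', j, hj, hmin, hu⟩ | ⟨h, -⟩)
    · have hcc := g1_popu hD hc hc'
      subst hcc
      have hii := (hG c hca).p.veru i i' hi hi'
      subst hii
      have : Nat.find hex = j := by
        apply le_antisymm (Nat.find_min' hex hj)
        by_contra hlt
        exact hmin _ (not_le.1 hlt) (Nat.find_spec hex)
      rw [this]
      exact hu
    · exact absurd ⟨c, hc⟩ h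
  · intro hu
    exact Or.inl ⟨c, i, hc, hi, Nat.find hex, Nat.find_spec hex,
      fun j' hj' => Nat.find_min hex hj', hu⟩

theorem g1_nopop (hD : DatSem P V D a Fn) (h : ¬ ∃ c, popO V D a c) (k : ℕ) (u : List Bool) :
    D a (qTree k u) ↔ Fn k u := by
  rw [hD.tree]
  constructor
  · rintro (⟨c, i, hc, -⟩ | ⟨-, hu⟩)
    · exact absurd ⟨c, hc⟩ h
    · exact hu
  · intro hu
    exact Or.inr ⟨h, hu⟩

theorem tree_fn (hG : ∀ c < a, Good P V D c) (hD : DatSem P V D a Fn)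
    (hF : FusSem V D a Fn) (hP : GoodP V D a) : ∀ k, ∃ j, ∀ u, D a (qTree k u) ↔ Fn j u := by
  intro k
  by_cases h : ∃ c, popO V D a c
  · obtain ⟨c, hc⟩ := h
    obtain ⟨i, hi⟩ := (hG c (g1_lt hD hc)).p.verx
    obtain ⟨j, -, hj⟩ := g1_pop hG hD hF hc hi k
    exact ⟨j, hj⟩
  · exact ⟨k, g1_nopop hD h k⟩

theorem good_t (hG : ∀ c < a, Good P V D c) (hD : DatSem P V D a Fn)
    (hF : FusSem V D a Fn) (hP : GoodP V D a) : GoodT V D a := by
  have hfn := tree_fn hG hD hF hP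
  have hpopsub : ∀ c, popO V D a c → ∀ k, subO D (some (a, k), []) (some (c, k), []) := by
    intro c hc k u hu
    obtain ⟨i, hi⟩ := (hG c (g1_lt hD hc)).p.verx
    obtain ⟨j, hj, hj'⟩ := g1_pop hG hD hF hc hi k
    refine ⟨hu.1, fun x hx => ?_⟩
    simp only [Option.some.injEq] at hx
    subst hx
    exact hj.1 u ((hj' u).1 (hu.2 (a, k) rfl))
  refine ⟨?_, ?_, ?_, ?_, ?_, ?_, hpopsub, ?_⟩
  · intro k
    obtain ⟨j, hj⟩ := hfn k
    exact (hj _).2 (hF.nil j)
  · intro k u u' hu h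
    obtain ⟨j, hj⟩ := hfn k
    exact (hj _).2 (hF.pref j u u' hu ((hj _).1 h))
  · intro k u h
    obtain ⟨j, hj⟩ := hfn k
    obtain ⟨u1, u2, h1, h2, h3, h4, h5⟩ := hF.split j u ((hj _).1 h)
    exact ⟨u1, u2, h1, h2, h3, (hj _).2 h4, (hj _).2 h5⟩
  · intro k k' x hx hx'
    by_cases h : ∃ c, popO V D a c
    · obtain ⟨c, hc⟩ := h
      have hs : ∀ k, x ∈ TB D a k → x ∈ TB D c k := by
        intro k hk n
        have := hpopsub c hc k (pre x n) ⟨Or.inr List.nil_prefix, fun y hy => by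
          simp only [Option.some.injEq] at hy
          subst hy
          exact hk n⟩
        exact this.2 (c, k) rfl
      exact (hG c (g1_lt hD hc)).t.disj k k' x (hs k hx) (hs k' hx')
    · exact hF.disj k k' x (fun n => (g1_nopop hD h k _).1 (hx n))
        (fun n => (g1_nopop hD h k' _).1 (hx' n))
  · intro c hc k x hx
    obtain ⟨j, hj⟩ := hfn k
    obtain ⟨p, n, hp, -, -, hpn, hps, hdec⟩ := hF.bar j x (fun n => (hj _).1 (hx n))
      [((1 : ℕ), c, (0 : ℕ), ((none, []) : OC))] (by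
        intro d hd
        rw [List.mem_singleton] at hd
        subst hd
        refine ⟨hc.1, ?_⟩
        intro z hz
        cases hz) 0
    have hd := hdec _ (List.mem_singleton.2 rfl)
    have hE : EO V D a ((1 : ℕ), c, (0 : ℕ), ((none, []) : OC)) p := by
      rcases hd with hd | hd
      · exact hd
      · exfalso
        obtain ⟨r, k', hr, hrp, hrc⟩ := pp_loc hG hp hc
        exact hd ⟨r, hr, hrp, Or.inr (Or.inl ⟨rfl, k', hrc⟩)⟩
    have hE' : ∃ k', subO D p (some (c, k'), []) := by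
      rcases hE with ⟨h, -⟩ | ⟨-, h⟩ | ⟨h, -⟩ | ⟨h, -⟩ | ⟨h, -⟩
      · exact absurd (show (1 : ℕ) = 0 from h) (by decide)
      · exact h
      · exact absurd (show (1 : ℕ) = 2 from h) (by decide)
      · exact absurd (show (1 : ℕ) = 3 from h) (by decide)
      · exact absurd (show (1 : ℕ) = 4 from h) (by decide)
    obtain ⟨k', hk'⟩ := hE'
    refine ⟨n, k', fun u hu => hk' u (hps u ((hj u).1 (hu.2 (a, k) rfl)) ?_)⟩
    rw [hpn]
    exact hu.1
  · intro p hp hpa
    by_cases h : ∃ c, popO V D a c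
    · obtain ⟨c, hc⟩ := h
      have hca := g1_lt hD hc
      have hc1a : c + 1 ≤ a := Order.add_one_le_of_lt hca
      have hlt : ∀ x, p.1 = some x → x.1 < c := by
        intro x hx
        by_contra hn
        exact (hp x hx).1.2 a (Order.lt_add_one_iff.2 le_rfl) c hc ⟨not_lt.1 hn, hpa x hx⟩
      have hcond : condO V D (c + 1) p := by
        intro x hx
        refine ⟨⟨(hlt x hx).trans (Order.lt_add_one_iff.2 le_rfl), ?_⟩, (hp x hx).2⟩
        intro d hd
        exact (hp x hx).1.2 d (hd.trans_le (hc1a.trans (Order.lt_add_one_iff.2 le_rfl).le))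
      obtain ⟨k, hk⟩ := (hG c hca).t.thr p hcond hlt
      exact ⟨k, fun u hu => hk u (hpopsub c hc k u hu)⟩
    · have hcond : condO V D a p := by
        intro x hx
        refine ⟨⟨hpa x hx, ?_⟩, (hp x hx).2⟩
        intro d hd
        exact (hp x hx).1.2 d (hd.trans (Order.lt_add_one_iff.2 le_rfl))
      obtain ⟨j, hj⟩ := hF.start p hcond
      exact ⟨j, fun u hu => hj u ((g1_nopop hD h j u).1 (hu.2 (a, j) rfl))⟩
  · intro c hc i hi k
    obtain ⟨j, hj, hj'⟩ := g1_pop hG hD hF hc hi k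
    obtain ⟨w, hw, hw'⟩ := hj.2
    exact ⟨w, hw, fun u hu => hw' u ((hj' u).1 hu)⟩

end G1

end Pool.Agent.HT
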