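import Pool.Agent.Helper85.HT.FP

set_option autoImplicit false

namespace Pool.Agent.HT

open Ordinal

theorem g2_pre_prefix (x : Cantor) {m n : ℕ} (h : m ≤ n) : pre x m <+: pre x n := by
  have h2 : (pre x n).take m = pre x m := by
    apply List.ext_getElem?
    intro i
    rw [List.getElem?_take]
    by_cases hi : i < m
    · rw [if_pos hi, getElem?_pre, getElem?_pre, if_pos hi, if_pos (hi.trans_le h)]
    · rw [if_neg hi, getElem?_pre, if_neg hi]
  rw [← h2]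
  exact List.take_prefix _ _

theorem g2_cmp_pre (x : Cantor) (m n : ℕ) : cmpW (pre x m) (pre x n) := by
  rcases le_total m n with h | h
  · exact Or.inl (g2_pre_prefix x h)
  · exact Or.inr (g2_pre_prefix x h)

section G
variable {P : LProc} {V : VT} {D : DT} {ζ σ a : Ordinal.{0}} {Fn : ℕ → List Bool → Prop}

theorem g2_EO0 (ν : Ordinal.{0}) (m : ℕ) (r0 p : OC) :
    EO V D a (0, ν, m, r0) p ↔ ∃ v, knowO V D a p ν m v := by
  constructor
  · rintro (h | h | h | h | h)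
    · exact h.2
    all_goals exact absurd h.1 (by simp)
  · intro h
    exact Or.inl ⟨rfl, h⟩

theorem g2_EO2 (ν : Ordinal.{0}) (m : ℕ) (r0 p : OC) :
    EO V D a (2, ν, m, r0) p ↔ ∃ n0 < a, ¬ EEO V D a p m n0 := by
  constructor
  · rintro (h | h | h | h | h)
    · exact absurd h.1 (by simp)
    · exact absurd h.1 (by simp)
    · exact h.2
    all_goals exact absurd h.1 (by simp)
  · intro h
    exact Or.inr (Or.inr (Or.inl ⟨rfl, h⟩))

theorem g2_EO3 (u : Ordinal.{0}) (m : ℕ) (r0 p : OC) :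
    EO V D a (3, u, m, r0) p ↔ ∃ ν, ν < a ∧ u ≤ ν ∧ knowO V D a p ν m true := by
  constructor
  · rintro (h | h | h | h | h)
    · exact absurd h.1 (by simp)
    · exact absurd h.1 (by simp)
    · exact absurd h.1 (by simp)
    · exact h.2
    · exact absurd h.1 (by simp)
  · intro h
    exact Or.inr (Or.inr (Or.inr (Or.inl ⟨rfl, h⟩)))

theorem g2_EO4 (u : Ordinal.{0}) (m : ℕ) (r0 p : OC) :
    EO V D a (4, u, m, r0) p ↔ subO D p r0 := by
  constructor
  · rintro (h | h | h | h | h)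
    · exact absurd h.1 (by simp)
    · exact absurd h.1 (by simp)
    · exact absurd h.1 (by simp)
    · exact absurd h.1 (by simp)
    · exact h.2
  · intro h
    exact Or.inr (Or.inr (Or.inr (Or.inr ⟨rfl, h⟩)))

theorem g2_ok0 {u : Ordinal.{0}} (hu : u < a) (t m : ℕ) :
    DecOk a (t, u, m, ((none, []) : OC)) := ⟨hu, fun z hz => by simp at hz⟩

theorem g2_ok1 {u : Ordinal.{0}} (hu : u < a) (t m : ℕ) {p : OC} (hp : condO V D a p) :
    DecOk a (t, u, m, p) := ⟨hu, fun z hz => (hp z hz).1.1⟩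

/-- `d` is decided at `q` -/
def g2_Dec (V : VT) (D : DT) (a : Ordinal.{0}) (d : DecO) (q : OC) : Prop :=
  EO V D a d q ∨ ¬ ∃ r, condO V D a r ∧ subO D r q ∧ EO V D a d r

/-- the fusion is locally below every condition through the branch -/
theorem g2_below (hG : ∀ c < a, Good P V D c) {p q : OC} (hp : condO V D a p)
    (hq : condO V D a q) {x : Cantor} (hx : x ∈ brO D p) (hx' : x ∈ brO D q)
    {u : Ordinal.{0}} {m : ℕ} (h : g2_Dec V D a (4, u, m, p) q) : subO D q p := by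
  rcases h with h | h
  · exact (g2_EO4 _ _ _ _).1 h
  · obtain ⟨r, hr, h1, h2, -⟩ := pp_compat hG hp hq hx hx'
    exact absurd ⟨r, hr, h2, (g2_EO4 _ _ _ _).2 h1⟩ h

/-- the fusion knows all bits -/
theorem g2_know (hG : ∀ c < a, Good P V D c)
    (hcof : ∀ ν < a, ∃ c, liveO V D a c ∧ ν ≤ c) {q : OC} (hq : condO V D a q)
    {ν : Ordinal.{0}} (hν : ν < a) {m : ℕ} {r0 : OC} (h : g2_Dec V D a (0, ν, m, r0) q) :
    ∃ v, knowO V D a q ν m v := by
  rcases h with h | h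
  · exact (g2_EO0 _ _ _ _).1 h
  · obtain ⟨r, v, hr, hrq, hk⟩ := pp_know hG hcof hq hν m
    exact absurd ⟨r, hr, hrq, (g2_EO0 _ _ _ _).2 ⟨v, hk⟩⟩ h

/-- the bar property for two decisions -/
theorem g2_bar (hF : FusSem V D a Fn) {j : ℕ} {x : Cantor} (hx : ∀ n, Fn j (pre x n))
    (d e : DecO) (hd : DecOk a d) (he : DecOk a e) :
    ∃ q n, condO V D a q ∧ x ∈ brO D q ∧ q.2 = pre x n ∧
      (∀ u, Fn j u → cmpW u q.2 → inO D q u) ∧ g2_Dec V D a d q ∧ g2_Dec V D a e q := by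
  obtain ⟨q, n, hq, hxq, -, hqn, hqF, hdec⟩ := hF.bar j x hx [d, e] (by
      intro f hf
      rcases List.mem_cons.1 hf with rfl | hf
      · exact hd
      · rw [List.mem_singleton.1 hf]
        exact he) 0
  exact ⟨q, n, hq, hxq, hqn, hqF, hdec d (List.mem_cons_self ..),
    hdec e (List.mem_cons_of_mem _ (List.mem_singleton.2 rfl))⟩

theorem good_gen1 (hG : ∀ c < a, Good P V D c) (hF : FusSem V D a Fn) {j : ℕ} {x : Cantor}
    (hx : ∀ n, Fn j (pre x n)) : ∀ p, condO V D a p → x ∈ brO D p → ∀ m, ∀ u < a,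
    DDO V D a p m u → ∃ ν, u ≤ ν ∧ ν < a ∧ Bs P x ν m = true := by
  intro p hp hxp m u hu hDD
  obtain ⟨q, n, hq, hxq, -, -, h4, h3⟩ := g2_bar hF hx (4, u, 0, p) (3, u, m, ((none, []) : OC))
    (g2_ok1 hu _ _ hp) (g2_ok0 hu _ _)
  have hqp : subO D q p := g2_below hG hp hq hxp hxq h4
  rcases h3 with h | h
  · obtain ⟨ν, hν, huν, hk⟩ := (g2_EO3 _ _ _ _).1 h
    exact ⟨ν, huν, hν, knowO_sound hG hk hxq⟩
  · obtain ⟨r, ν, hr, hrq, hν, huν, hk⟩ := hDD q hq hqp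
    exact absurd ⟨r, hr, hrq, (g2_EO3 _ _ _ _).2 ⟨ν, hν, huν, hk⟩⟩ h

theorem good_gen0 (hG : ∀ c < a, Good P V D c) (hF : FusSem V D a Fn)
    (hcof : ∀ ν < a, ∃ c, liveO V D a c ∧ ν ≤ c) {j : ℕ} {x : Cantor}
    (hx : ∀ n, Fn j (pre x n)) : ∀ p, condO V D a p → x ∈ brO D p → ∀ m n0,
    ¬ EEO V D a p m n0 → ∀ ν, n0 ≤ ν → ν < a → Bs P x ν m = false := by
  intro p hp hxp m n0 hEE ν hn0 hν
  obtain ⟨q, n, hq, hxq, -, -, h4, h0⟩ := g2_bar hF hx (4, ν, 0, p) (0, ν, m, ((none, []) : OC))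
    (g2_ok1 hν _ _ hp) (g2_ok0 hν _ _)
  have hqp : subO D q p := g2_below hG hp hq hxp hxq h4
  obtain ⟨v, hk⟩ := g2_know hG hcof hq hν h0
  cases v with
  | false => exact knowO_sound hG hk hxq
  | true => exact absurd ⟨q, ν, hq, hqp, hν, hn0, hk⟩ hEE

theorem good_deci (hF : FusSem V D a Fn) (ha : Order.IsSuccLimit a) {j : ℕ} {x : Cantor}
    (hx : ∀ n, Fn j (pre x n)) (m : ℕ) :
    (∃ p n, condO V D a p ∧ x ∈ brO D p ∧ p.2 = pre x n ∧
      (∀ u, Fn j u → cmpW u p.2 → inO D p u) ∧ ∃ n0 < a, ¬ EEO V D a p m n0) ∨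
    (∃ p n, condO V D a p ∧ x ∈ brO D p ∧ p.2 = pre x n ∧
      (∀ u, Fn j u → cmpW u p.2 → inO D p u) ∧ ∀ u < a, DDO V D a p m u) := by
  have h0 : (0 : Ordinal.{0}) < a := by
    rcases eq_or_ne a 0 with h | h
    · exact absurd isMin_bot (by
        have h1 := ha.1
        rw [h] at h1
        exact h1)
    · exact bot_lt_iff_ne_bot.2 h
  obtain ⟨q, n, hq, hxq, hqn, hqF, h2, -⟩ := g2_bar hF hx (2, 0, m, ((none, []) : OC))
    (2, 0, m, ((none, []) : OC)) (g2_ok0 h0 _ _) (g2_ok0 h0 _ _)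
  rcases h2 with h | h
  · exact Or.inl ⟨q, n, hq, hxq, hqn, hqF, (g2_EO2 _ _ _ _).1 h⟩
  · right
    refine ⟨q, n, hq, hxq, hqn, hqF, ?_⟩
    intro u hu r hr hrq
    by_contra hE
    exact h ⟨r, hr, hrq, (g2_EO2 _ _ _ _).2 ⟨u, hu, hE⟩⟩

/-- correctness of the recorded bits -/
theorem good_know (hG : ∀ c < a, Good P V D c) (hD : DatSem P V D a Fn) (hT : GoodT V D a) :
    ∀ k w l m v ν, D a (qKnow k w l m v) → V a (tmOf l) = some ν →
    ∀ x ∈ TB D a k, (∃ n, w = pre x n) → Bs P x ν m = v := by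
  intro k w l m v ν h hν x hx hw
  obtain ⟨n, rfl⟩ := hw
  obtain ⟨-, p, hp, hsub, hk⟩ := (hD.know k _ l m v ν hν).1 h
  exact knowO_sound hG (p := p) ⟨p, hp, fun _ hu => hu, hk⟩
    (fun n' => hsub _ (hx n') (g2_cmp_pre x n' n))

end G

end Pool.Agent.HT
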