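import Pool.Agent.Helper85.HT.G2

set_option autoImplicit false

namespace Pool.Agent.HT

open Ordinal

section G
variable {P : LProc} {V : VT} {D : DT} {ζ σ a : Ordinal.{0}} {Fn : ℕ → List Bool → Prop}

theorem g3_br (k : ℕ) {x : Cantor} (hx : x ∈ TB D a k) {p : OC} {n : ℕ}
    (h : ∀ u, D a (qTree k u) → cmpW u (pre x n) → inO D p u) : x ∈ brO D p :=
  fun n' => h _ (hx n') (g2_cmp_pre x n' n)

theorem g3_take_pre (x : Cantor) {m n : ℕ} (h : m ≤ n) : (pre x n).take m = pre x m := by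
  apply List.ext_getElem?
  intro i
  rw [List.getElem?_take]
  by_cases hi : i < m
  · rw [if_pos hi, getElem?_pre, getElem?_pre, if_pos hi, if_pos (hi.trans_le h)]
  · rw [if_neg hi, getElem?_pre, if_neg hi]

theorem g3_cases (a : Ordinal.{0}) : a = 0 ∨ (∃ d, a = d + 1) ∨ Order.IsSuccLimit a := by
  rcases Ordinal.zero_or_succ_or_isSuccLimit a with h | h | h
  · exact Or.inl h
  · obtain ⟨d, hd⟩ := h
    exact Or.inr (Or.inl ⟨d, hd.symm⟩)
  · exact Or.inr (Or.inr h)

theorem good_self (hG : ∀ c < a, Good P V D c) (hD : DatSem P V D a Fn) (hF : FusSem V D a Fn)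
    (hT : GoodT V D a) (hfn : ∀ k, ∃ j, ∀ u, D a (qTree k u) ↔ Fn j u)
    (hcof : ∀ ν < a, ∃ c, liveO V D a c ∧ ν ≤ c) :
    ∀ k w m v, D a (qSelf k w m v) → ∀ x ∈ TB D a k, (∃ n, w = pre x n) → Bs P x a m = v := by
  intro k w m v h x hx hw
  obtain ⟨n, rfl⟩ := hw
  obtain ⟨j, hj⟩ := hfn k
  have hxj : ∀ n, Fn j (pre x n) := fun n => (hj _).1 (hx n)
  rcases g3_cases a with h0 | ⟨d, hd⟩ | hl
  · have h1 := ((hD.self0 h0 k _ m v).1 h).2
    rw [h1]
    unfold Bs
    rw [h0, titer_zero]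
  · obtain ⟨-, p, τ, hp, hsub, hlen, hτ, hle, hv⟩ := (hD.selfS d hd k _ m v).1 h
    have hxp : x ∈ brO D p := g3_br k hx hsub
    have hτ2 : pre (titer (Loc P x) d) (P.h m) = τ := by
      apply List.ext_getElem?
      intro i
      rw [getElem?_pre]
      by_cases hi : i < P.h m
      · rw [if_pos hi]
        have hi2 : i < τ.length := by rw [hlen]; exact hi
        have h3 : τ[i]? = some τ[i] := List.getElem?_eq_getElem hi2
        have h4 := knowO_sound hG (hτ i _ h3) hxp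
        rw [h3, ← h4]
        rfl
      · rw [if_neg hi, List.getElem?_eq_none (by rw [hlen]; omega)]
    rw [length_pre] at hle
    rw [hv, g3_take_pre x hle, ← hτ2]
    unfold Bs
    rw [hd, titer_add_one]
    rfl
  · obtain ⟨-, h1 | h1⟩ := (hD.selfL hl k _ m v).1 h
    · obtain ⟨hv, p, n0, hn0, hp, hsub, hE⟩ := h1
      have hxp : x ∈ brO D p := g3_br k hx hsub
      rw [hv]
      exact (titer_limit_false _ hl m).2 ⟨n0, hn0, fun b hb hba =>
        good_gen0 hG hF hcof hxj p hp hxp m n0 hE b hb hba⟩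
    · obtain ⟨hv, p, hp, hsub, hE⟩ := h1
      have hxp : x ∈ brO D p := g3_br k hx hsub
      rw [hv]
      exact (titer_limit _ hl m).2 fun u hu =>
        good_gen1 hG hF hxj p hp hxp m u hu (hE u hu)

theorem good_compl (F : HullFacts PsF (ThF P) V D ζ σ) (ha : a < σ)
    (hG : ∀ c < a, Good P V D c) (hD : DatSem P V D a Fn) (hF : FusSem V D a Fn)
    (hT : GoodT V D a) (hfn : ∀ k, ∃ j, ∀ u, D a (qTree k u) ↔ Fn j u)
    (hcof : ∀ ν < a, ∃ c, liveO V D a c ∧ ν ≤ c) :
    ∀ k x, x ∈ TB D a k → ∀ ν ≤ a, ∀ m, ∃ n v, know0O V D (some (a, k), pre x n) ν m v := by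
  intro k x hx ν hν m
  obtain ⟨j, hj⟩ := hfn k
  have hxj : ∀ n, Fn j (pre x n) := fun n => (hj _).1 (hx n)
  rcases lt_or_eq_of_le hν with hlt | heq
  · -- an earlier stage
    obtain ⟨s, hs⟩ := (F.rep a ha).onto ν hlt
    obtain ⟨l, rfl⟩ : ∃ l, s = tmOf l := ⟨Encodable.encode s, by
      unfold tmOf; exact (Denumerable.ofNat_encode s).symm⟩
    obtain ⟨q, n, hq, hxq, hqn, hqF, h0, -⟩ := g2_bar hF hxj (0, ν, m, ((none, []) : OC))
      (0, ν, m, ((none, []) : OC)) (g2_ok0 hlt _ _) (g2_ok0 hlt _ _)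
    obtain ⟨v, p', hp', hsub, hk⟩ := g2_know hG hcof hq hlt h0
    refine ⟨n, v, (a, k), rfl, pre x n, List.prefix_rfl, Or.inl ⟨l, ?_, hs⟩⟩
    refine (hD.know k _ l m v ν hs).2 ⟨hx n, p', hp', ?_, hk⟩
    intro u hu huw
    apply hsub
    apply hqF u ((hj u).1 hu)
    rw [hqn]
    exact huw
  · subst heq
    suffices h : ∃ n v, D ν (qSelf k (pre x n) m v) by
      obtain ⟨n, v, h⟩ := h
      exact ⟨n, v, (ν, k), rfl, pre x n, List.prefix_rfl, Or.inr ⟨rfl, h⟩⟩
    rcases g3_cases ν with h0 | ⟨d, hd⟩ | hl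
    · exact ⟨0, false, (hD.self0 h0 k _ m false).2 ⟨hx 0, rfl⟩⟩
    · have hdν : d < ν := by rw [hd]; exact Order.lt_add_one_iff.2 le_rfl
      obtain ⟨q, n, hq, hxq, hNn, hqn, hqF, hdec⟩ := hF.bar j x hxj
        ((List.range (P.h m)).map (fun i => ((0, d, i, ((none, []) : OC)) : DecO))) (by
          intro e he
          obtain ⟨i, -, rfl⟩ := List.mem_map.1 he
          exact g2_ok0 hdν _ _) (P.h m)
      refine ⟨n, P.g (m, pre (titer (Loc P x) d) (P.h m), (pre x n).take (P.h m)), ?_⟩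
      refine (hD.selfS d hd k _ m _).2 ⟨hx n, q, pre (titer (Loc P x) d) (P.h m), hq, ?_,
        length_pre _ _, ?_, by rw [length_pre]; exact hNn, rfl⟩
      · intro u hu huw
        apply hqF u ((hj u).1 hu)
        rw [hqn]
        exact huw
      · intro i b hib
        rw [getElem?_pre] at hib
        by_cases hi : i < P.h m
        · rw [if_pos hi] at hib
          have hb : titer (Loc P x) d i = b := Option.some.inj hib
          obtain ⟨v, hk⟩ := g2_know hG hcof hq hdν (hdec (0, d, i, ((none, []) : OC))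
            (List.mem_map.2 ⟨i, List.mem_range.2 hi, rfl⟩))
          have h4 : titer (Loc P x) d i = v := knowO_sound hG hk hxq
          rw [← hb, h4]
          exact hk
        · rw [if_neg hi] at hib
          exact absurd hib (by simp)
    · rcases good_deci hF hl hxj m with ⟨p, n, hp, hxp, hpn, hpF, n0, hn0, hE⟩ |
        ⟨p, n, hp, hxp, hpn, hpF, hE⟩
      · refine ⟨n, false, (hD.selfL hl k _ m false).2 ⟨hx n, Or.inl ⟨rfl, p, n0, hn0, hp, ?_, hE⟩⟩⟩
        intro u hu huw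
        apply hpF u ((hj u).1 hu)
        rw [hpn]
        exact huw
      · refine ⟨n, true, (hD.selfL hl k _ m true).2 ⟨hx n, Or.inr ⟨rfl, p, hp, ?_, hE⟩⟩⟩
        intro u hu huw
        apply hpF u ((hj u).1 hu)
        rw [hpn]
        exact huw

end G

end Pool.Agent.HT
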