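import Pool.Agent.Helper85.HT.HullDefs
import Pool.Agent.Helper85.HT.AR1

set_option autoImplicit false

/-!
# HU8 : the hull operator is arithmetical
-/

namespace Pool.Agent.HT

open Ordinal

/-! ### primitive recursive functions on terms -/

theorem hu8_drop {α : Type} [Primcodable α] {f : α → Tm} {g : α → ℕ} (hf : Primrec f)
    (hg : Primrec g) : Primrec (fun a => (f a).drop (g a)) := by
  have h := Primrec.nat_iterate (f := g) (g := f) (h := fun _ l => List.tail l) hg hf
    (Primrec.list_tail.comp Primrec.snd).to₂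
  refine h.of_eq fun a => ?_
  generalize g a = n
  generalize f a = l
  induction n generalizing l with
  | zero => simp
  | succ n ih => rw [Function.iterate_succ_apply, ih]; simp

theorem hu8_tmOf : Primrec tmOf := by
  have h : Primrec (fun n : ℕ => ((Encodable.decode (α := List ℕ) n).getD [])) :=
    Primrec.option_getD.comp Primrec.decode (Primrec.const [])
  refine h.of_eq fun n => ?_
  rw [tmOf, Denumerable.decode_eq_ofNat]
  rfl

theorem hu8_base : Primrec base := by
  have h2 : Primrec (fun x : ℕ × List ℕ × Tm => if x.1 % 2 = 0 then x.2.2 else x.1 :: x.2.1) := by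
    refine Primrec.ite ?_ (Primrec.snd.comp Primrec.snd)
      (Primrec.list_cons.comp Primrec.fst (Primrec.fst.comp Primrec.snd))
    exact PrimrecRel.comp Primrec.eq
      (Primrec.nat_mod.comp Primrec.fst (Primrec.const 2)) (Primrec.const 0)
  have h := Primrec.list_rec (f := fun l : Tm => l) (g := fun _ : Tm => ([] : Tm))
    (h := fun (_ : Tm) (x : ℕ × List ℕ × Tm) => if x.1 % 2 = 0 then x.2.2 else x.1 :: x.2.1)
    Primrec.id (Primrec.const []) (h2.comp Primrec.snd).to₂
  refine h.of_eq fun l => ?_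
  induction l with
  | nil => rfl
  | cons e t ih => simp only [base, ← ih]

theorem hu8_topTgt : Primrec topTgt := by
  have h3 : Primrec (fun x : ℕ × List ℕ × Option Tm =>
      Option.casesOn (motive := fun _ => Option Tm) x.2.2 (some (tmOf (x.1 / 2)))
        (fun s => some (x.1 :: s))) := by
    refine Primrec.option_casesOn (Primrec.snd.comp Primrec.snd)
      (Primrec.option_some.comp (hu8_tmOf.comp
        (Primrec.nat_div.comp Primrec.fst (Primrec.const 2)))) ?_
    exact (Primrec.option_some.comp (Primrec.list_cons.comp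
      (Primrec.fst.comp Primrec.fst) Primrec.snd)).to₂
  have h2 : Primrec (fun x : ℕ × List ℕ × Option Tm => if x.1 % 2 = 0 then
      (Option.casesOn (motive := fun _ => Option Tm) x.2.2 (some (tmOf (x.1 / 2)))
        (fun s => some (x.1 :: s))) else none) := by
    refine Primrec.ite ?_ h3 (Primrec.const none)
    exact PrimrecRel.comp Primrec.eq
      (Primrec.nat_mod.comp Primrec.fst (Primrec.const 2)) (Primrec.const 0)
  have h := Primrec.list_rec (f := fun l : Tm => l) (g := fun _ : Tm => (none : Option Tm))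
    (h := fun (_ : Tm) (x : ℕ × List ℕ × Option Tm) => if x.1 % 2 = 0 then
      (Option.casesOn (motive := fun _ => Option Tm) x.2.2 (some (tmOf (x.1 / 2)))
        (fun s => some (x.1 :: s))) else none)
    Primrec.id (Primrec.const none) (h2.comp Primrec.snd).to₂
  refine h.of_eq fun l => ?_
  induction l with
  | nil => rfl
  | cons e t ih =>
    refine Eq.trans (congrArg (fun X : Option Tm => if e % 2 = 0 then
      (Option.casesOn (motive := fun _ => Option Tm) X (some (tmOf (e / 2)))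
        (fun s => some (e :: s))) else none) ih) ?_
    rw [topTgt]
    cases topTgt t <;> rfl

/-! ### the canonical state -/

theorem hu8_lim {α : Type} [Primcodable α] : ArP (fun _ W (_ : α) => hLim W) :=
  ArP.and (ArP.orW (f := fun _ => hPar 0) (Primrec.const _))
    (ArP.orW (f := fun _ => hPar 1) (Primrec.const _))

theorem hu8_pair {α : Type} [Primcodable α] {f g : α → ℕ} (hf : Primrec f) (hg : Primrec g) :
    Primrec (fun a => Nat.pair (f a) (g a)) := Primrec₂.natPair.comp hf hg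

theorem hu8_flag {α : Type} [Primcodable α] {f : α → Tm} (hf : Primrec f) :
    ArP (fun _ W (a : α) => W (hFlag (f a)) = true) :=
  ArP.orW (hu8_pair (Primrec.const 4) (Primrec.encode.comp hf))

theorem hu8_dom {α : Type} [Primcodable α] {f : α → Tm} (hf : Primrec f) :
    ArP (fun _ W (a : α) => canonDom W (f a)) := by
  have h1 : ArP (fun _ W (a : α) => ∀ n : ℕ, ¬ W (hFlag ((f a).drop n)) = true) :=
    ArP.all (ArP.not (hu8_flag (hu8_drop (hf.comp Primrec.fst) Primrec.snd)))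
  have h2 : ArP (fun _ W (a : α) => W (hDom (f a)) = true) :=
    ArP.orW (hu8_pair (Primrec.const 1) (Primrec.encode.comp hf))
  refine (ArP.or (ArP.and hu8_lim h1) (ArP.and (ArP.not hu8_lim) h2)).congr ?_
  intro y W a
  unfold canonDom
  refine or_congr (and_congr Iff.rfl ?_) Iff.rfl
  constructor
  · intro h t ht
    have := h ((f a).length - t.length)
    rw [← List.suffix_iff_eq_drop.1 ht] at this
    simpa using this
  · intro h n
    have := h _ (List.drop_suffix n (f a))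
    rw [this]; simp

theorem hu8_cdom {α : Type} [Primcodable α] {f : α → Tm} (hf : Primrec f) :
    ArP (fun _ W (a : α) => (canon W).dom (f a)) := hu8_dom hf

theorem hu8_clt {α : Type} [Primcodable α] {f g : α → Tm} (hf : Primrec f) (hg : Primrec g) :
    ArP (fun _ W (a : α) => (canon W).lt (f a) (g a)) := by
  have h1 : ArP (fun _ W (a : α) => W (hLt (f a) (g a)) = true) :=
    ArP.orW (hu8_pair (Primrec.const 2) (hu8_pair (Primrec.encode.comp hf) (Primrec.encode.comp hg)))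
  exact ArP.and h1 (ArP.imp hu8_lim (ArP.and (hu8_dom hf) (hu8_dom hg)))

theorem hu8_cdat {α : Type} [Primcodable α] {f : α → Tm} {g : α → ℕ} (hf : Primrec f)
    (hg : Primrec g) : ArP (fun _ W (a : α) => (canon W).dat (f a) (g a)) := by
  have h1 : ArP (fun _ W (a : α) => W (hDat (f a) (g a)) = true) :=
    ArP.orW (hu8_pair (Primrec.const 3) (hu8_pair (Primrec.encode.comp hf) hg))
  exact ArP.and h1 (ArP.imp hu8_lim (hu8_dom hf))

theorem hu8_eq {α : Type} [Primcodable α] {β : Type} [Primcodable β] [DecidableEq β] {f g : α → β}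
    (hf : Primrec f) (hg : Primrec g) : ArP (fun _ _ (a : α) => f a = g a) :=
  ArP.primPred (PrimrecRel.comp Primrec.eq hf hg)

section
variable {Ps : HS → ℕ → Tm → Tm → Prop} {Th : HS → ℕ → Prop}

theorem hu8_kOld (hP : ArP (fun _ W (x : ℕ × Tm × Tm) => Ps (canon W) x.1 x.2.1 x.2.2))
    {α : Type} [Primcodable α] {f : α → Tm} (hf : Primrec f) :
    ArP (fun _ W (a : α) => kOld Ps (canon W) (f a)) := by
  have hf2 : Primrec (fun z : (α × ℕ) × Tm => f z.1.1) :=
    hf.comp (Primrec.fst.comp Primrec.fst)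
  have hc : Primrec (fun z : (α × ℕ) × Tm => (2 * z.1.2 + 1) :: z.2) :=
    Primrec.list_cons.comp (Primrec.succ.comp (Primrec.nat_mul.comp (Primrec.const 2)
      (Primrec.snd.comp Primrec.fst))) Primrec.snd
  have h2 : ArP (fun _ W (a : α) => ∃ (n : ℕ) (t : Tm), f a = (2 * n + 1) :: t ∧
      (canon W).dom t ∧ (canon W).dom (f a) ∧ ¬ Ps (canon W) n t (f a)) := by
    refine ArP.ex (P := fun _ W (z : α × ℕ) => ∃ t : Tm, f z.1 = (2 * z.2 + 1) :: t ∧
      (canon W).dom t ∧ (canon W).dom (f z.1) ∧ ¬ Ps (canon W) z.2 t (f z.1)) ?_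
    refine ArP.ex (P := fun _ W (z : (α × ℕ) × Tm) => f z.1.1 = (2 * z.1.2 + 1) :: z.2 ∧
      (canon W).dom z.2 ∧ (canon W).dom (f z.1.1) ∧ ¬ Ps (canon W) z.1.2 z.2 (f z.1.1)) ?_
    refine ArP.and (hu8_eq hf2 hc) (ArP.and (hu8_cdom Primrec.snd) (ArP.and (hu8_cdom hf2)
      (ArP.not ?_)))
    exact ArP.comp hP (f := fun z : (α × ℕ) × Tm => (z.1.2, z.2, f z.1.1))
      (Primrec.pair (Primrec.snd.comp Primrec.fst) (Primrec.pair Primrec.snd hf2))
  exact ArP.or (ArP.and (hu8_eq hf (Primrec.const [])) (hu8_cdom (Primrec.const []))) h2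

theorem hu8_kTop (hP : ArP (fun _ W (x : ℕ × Tm × Tm) => Ps (canon W) x.1 x.2.1 x.2.2))
    {α : Type} [Primcodable α] {f : α → Tm} (hf : Primrec f) :
    ArP (fun _ W (a : α) => kTop Ps (canon W) (f a)) := by
  have hf2 : Primrec (fun z : (α × ℕ) × Tm => f z.1.1) :=
    hf.comp (Primrec.fst.comp Primrec.fst)
  have hc : Primrec (fun z : (α × ℕ) × Tm => (2 * z.1.2 + 1) :: z.2) :=
    Primrec.list_cons.comp (Primrec.succ.comp (Primrec.nat_mul.comp (Primrec.const 2)
      (Primrec.snd.comp Primrec.fst))) Primrec.snd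
  have h2 : ArP (fun _ W (a : α) => ∃ (n : ℕ) (t : Tm), f a = (2 * n + 1) :: t ∧
      (canon W).dom t ∧ ¬ ((canon W).dom (f a) ∧ ¬ Ps (canon W) n t (f a))) := by
    refine ArP.ex (P := fun _ W (z : α × ℕ) => ∃ t : Tm, f z.1 = (2 * z.2 + 1) :: t ∧
      (canon W).dom t ∧ ¬ ((canon W).dom (f z.1) ∧ ¬ Ps (canon W) z.2 t (f z.1))) ?_
    refine ArP.ex (P := fun _ W (z : (α × ℕ) × Tm) => f z.1.1 = (2 * z.1.2 + 1) :: z.2 ∧
      (canon W).dom z.2 ∧ ¬ ((canon W).dom (f z.1.1) ∧ ¬ Ps (canon W) z.1.2 z.2 (f z.1.1))) ?_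
    refine ArP.and (hu8_eq hf2 hc) (ArP.and (hu8_cdom Primrec.snd) (ArP.not (ArP.and (hu8_cdom hf2)
      (ArP.not ?_))))
    exact ArP.comp hP (f := fun z : (α × ℕ) × Tm => (z.1.2, z.2, f z.1.1))
      (Primrec.pair (Primrec.snd.comp Primrec.fst) (Primrec.pair Primrec.snd hf2))
  exact ArP.or (ArP.and (hu8_eq hf (Primrec.const [])) (ArP.not (hu8_cdom (Primrec.const [])))) h2

theorem hu8_pOld (hP : ArP (fun _ W (x : ℕ × Tm × Tm) => Ps (canon W) x.1 x.2.1 x.2.2))
    {α : Type} [Primcodable α] {f g : α → Tm} (hf : Primrec f) (hg : Primrec g) :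
    ArP (fun _ W (a : α) => pOld Ps (canon W) (f a) (g a)) := by
  have hbf : Primrec (fun a => base (f a)) := hu8_base.comp hf
  exact ArP.or (ArP.and (hu8_kOld hP hbf) (ArP.and (hu8_cdom hf) (hu8_eq hg hf)))
    (ArP.and (hu8_kTop hP hbf) (ArP.and (hu8_eq (hu8_topTgt.comp hf)
      (Primrec.option_some.comp hg)) (hu8_cdom hg)))

theorem hu8_pTop (hP : ArP (fun _ W (x : ℕ × Tm × Tm) => Ps (canon W) x.1 x.2.1 x.2.2))
    {α : Type} [Primcodable α] {f : α → Tm} (hf : Primrec f) :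
    ArP (fun _ W (a : α) => pTop Ps (canon W) (f a)) :=
  ArP.and (hu8_kTop hP (hu8_base.comp hf)) (hu8_eq (hu8_topTgt.comp hf) (Primrec.const none))

theorem hu8_nDom (hP : ArP (fun _ W (x : ℕ × Tm × Tm) => Ps (canon W) x.1 x.2.1 x.2.2))
    {α : Type} [Primcodable α] {f : α → Tm} (hf : Primrec f) :
    ArP (fun _ W (a : α) => nDom Ps (canon W) (f a)) :=
  ArP.or (hu8_pTop hP hf) (ArP.ex (P := fun _ W (z : α × Tm) => pOld Ps (canon W) (f z.1) z.2)
    (hu8_pOld hP (hf.comp Primrec.fst) Primrec.snd))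

theorem hu8_nLt (hP : ArP (fun _ W (x : ℕ × Tm × Tm) => Ps (canon W) x.1 x.2.1 x.2.2))
    {α : Type} [Primcodable α] {f g : α → Tm} (hf : Primrec f) (hg : Primrec g) :
    ArP (fun _ W (a : α) => nLt Ps (canon W) (f a) (g a)) := by
  refine ArP.ex (P := fun _ W (z : α × Tm) => pOld Ps (canon W) (f z.1) z.2 ∧
    (pTop Ps (canon W) (g z.1) ∨ ∃ t', pOld Ps (canon W) (g z.1) t' ∧ (canon W).lt z.2 t')) ?_
  refine ArP.and (hu8_pOld hP (hf.comp Primrec.fst) Primrec.snd)
    (ArP.or (hu8_pTop hP (hg.comp Primrec.fst)) ?_)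
  refine ArP.ex (P := fun _ W (z : (α × Tm) × Tm) => pOld Ps (canon W) (g z.1.1) z.2 ∧
    (canon W).lt z.1.2 z.2) ?_
  exact ArP.and (hu8_pOld hP (hg.comp (Primrec.fst.comp Primrec.fst)) Primrec.snd)
    (hu8_clt (Primrec.snd.comp Primrec.fst) Primrec.snd)

theorem hu8_nDat (hP : ArP (fun _ W (x : ℕ × Tm × Tm) => Ps (canon W) x.1 x.2.1 x.2.2))
    (hT : ArP (fun _ W (q : ℕ) => Th (canon W) q))
    {α : Type} [Primcodable α] {f : α → Tm} {g : α → ℕ} (hf : Primrec f) (hg : Primrec g) :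
    ArP (fun _ W (a : α) => nDat Ps Th (canon W) (f a) (g a)) := by
  refine ArP.or (ArP.and (hu8_pTop hP hf) (ArP.comp hT hg)) ?_
  refine ArP.ex (P := fun _ W (z : α × Tm) => pOld Ps (canon W) (f z.1) z.2 ∧
    (canon W).dat z.2 (g z.1)) ?_
  exact ArP.and (hu8_pOld hP (hf.comp Primrec.fst) Primrec.snd)
    (hu8_cdat Primrec.snd (hg.comp Primrec.fst))

theorem hu8_nFlag (hP : ArP (fun _ W (x : ℕ × Tm × Tm) => Ps (canon W) x.1 x.2.1 x.2.2))
    {α : Type} [Primcodable α] {f : α → Tm} (hf : Primrec f) :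
    ArP (fun _ W (a : α) => nFlag Ps (canon W) (f a)) := by
  refine ArP.not ?_
  refine ArP.ex (P := fun _ W (z : α × Tm) => pOld Ps (canon W) (f z.1) z.2 ∧
    (canon W).eqv (f z.1) z.2) ?_
  have hf1 : Primrec (fun z : α × Tm => f z.1) := hf.comp Primrec.fst
  exact ArP.and (hu8_pOld hP hf1 Primrec.snd) (ArP.and (hu8_cdom hf1)
    (ArP.and (hu8_cdom Primrec.snd) (ArP.and (ArP.not (hu8_clt hf1 Primrec.snd))
      (ArP.not (hu8_clt Primrec.snd hf1)))))

theorem hu8_bit (hP : ArP (fun _ W (x : ℕ × Tm × Tm) => Ps (canon W) x.1 x.2.1 x.2.2))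
    (hT : ArP (fun _ W (q : ℕ) => Th (canon W) q)) :
    ArP (fun _ W (m : ℕ) => hBit Ps Th W m.unpair.1 m.unpair.2) := by
  have ht : Primrec (fun m : ℕ => m.unpair.1) := Primrec.fst.comp Primrec.unpair
  have ha : Primrec (fun m : ℕ => m.unpair.2) := Primrec.snd.comp Primrec.unpair
  have ha1 : Primrec (fun m : ℕ => m.unpair.2.unpair.1) :=
    (Primrec.fst.comp Primrec.unpair).comp ha
  have ha2 : Primrec (fun m : ℕ => m.unpair.2.unpair.2) :=
    (Primrec.snd.comp Primrec.unpair).comp ha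
  have hpar : ArP (fun _ W (_ : ℕ) => W (hPar 0) = true ∧ W (hPar 1) = false) := by
    refine (ArP.and (ArP.orW (f := fun _ : ℕ => hPar 0) (Primrec.const _))
      (ArP.not (ArP.orW (f := fun _ : ℕ => hPar 1) (Primrec.const _)))).congr ?_
    intro y W a
    simp
  exact ArP.or (ArP.and (hu8_eq ht (Primrec.const 1)) (hu8_nDom hP (hu8_tmOf.comp ha)))
    (ArP.or (ArP.and (hu8_eq ht (Primrec.const 2))
      (hu8_nLt hP (hu8_tmOf.comp ha1) (hu8_tmOf.comp ha2)))
    (ArP.or (ArP.and (hu8_eq ht (Primrec.const 3)) (hu8_nDat hP hT (hu8_tmOf.comp ha1) ha2))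
    (ArP.or (ArP.and (hu8_eq ht (Primrec.const 4)) (hu8_nFlag hP (hu8_tmOf.comp ha)))
    (ArP.or (ArP.and (hu8_eq ht (Primrec.const 5)) (ArP.and (hu8_eq ha (Primrec.const 0))
      (ArP.not hpar)))
    (ArP.and (hu8_eq ht (Primrec.const 5)) (ArP.and (hu8_eq ha (Primrec.const 1)) hpar))))))

end

theorem arOp_HOpR {Ps : HS → ℕ → Tm → Tm → Prop} {Th : HS → ℕ → Prop} {Rj : Cantor → HS → Prop}
    (hP : ArP (fun _ W (x : ℕ × Tm × Tm) => Ps (canon W) x.1 x.2.1 x.2.2))
    (hT : ArP (fun _ W (q : ℕ) => Th (canon W) q))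
    (hR : ArP (fun y W (_ : ℕ) => Rj y (canon W))) : ArOp (HOpR Ps Th Rj) := by
  have h0 : ArP (fun (_ _ : Cantor) (m : ℕ) => m = 0) := hu8_eq Primrec.id (Primrec.const 0)
  refine arP_nat.1 ((ArP.or (ArP.and h0 hR) (ArP.and (ArP.not h0) (hu8_bit hP hT))).congr ?_)
  intro y W m
  unfold HOpR HOp
  by_cases hm : m = 0
  · simp [hm]
  · simp [hm]

end Pool.Agent.HT
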