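import Pool.Agent.Helper85.HT.FDefs
import Pool.Agent.Helper85.HT.HU8

set_option autoImplicit false

/-!
# R1 : the basic predicates are arithmetical
-/

namespace Pool.Agent.HT

open Ordinal

/-! ### primitive recursive functions -/

section
variable {α : Type} [Primcodable α]

theorem r1_subt {f : α → ℕ} {g : α → Tm} (hf : Primrec f) (hg : Primrec g) :
    Primrec (fun a => subt (f a) (g a)) :=
  Primrec.list_cons.comp (Primrec.nat_mul.comp (Primrec.const 2) hf) hg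

theorem r1_tmOf {f : α → ℕ} (hf : Primrec f) : Primrec (fun a => tmOf (f a)) :=
  hu8_tmOf.comp hf

theorem r1_qTree {f : α → ℕ} {g : α → List Bool} (hf : Primrec f) (hg : Primrec g) :
    Primrec (fun a => qTree (f a) (g a)) :=
  hu8_pair (Primrec.const 1) (Primrec.encode.comp (Primrec.pair hf hg))

theorem r1_qKnow {f : α → ℕ} {g : α → List Bool} {l m : α → ℕ} {v : α → Bool} (hf : Primrec f)
    (hg : Primrec g) (hl : Primrec l) (hm : Primrec m) (hv : Primrec v) :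
    Primrec (fun a => qKnow (f a) (g a) (l a) (m a) (v a)) :=
  hu8_pair (Primrec.const 2) (Primrec.encode.comp
    (Primrec.pair hf (Primrec.pair hg (Primrec.pair hl (Primrec.pair hm hv)))))

theorem r1_qSelf {f : α → ℕ} {g : α → List Bool} {m : α → ℕ} {v : α → Bool} (hf : Primrec f)
    (hg : Primrec g) (hm : Primrec m) (hv : Primrec v) :
    Primrec (fun a => qSelf (f a) (g a) (m a) (v a)) :=
  hu8_pair (Primrec.const 3) (Primrec.encode.comp
    (Primrec.pair hf (Primrec.pair hg (Primrec.pair hm hv))))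

theorem r1_qPop {f : α → ℕ} (hf : Primrec f) : Primrec (fun a => qPop (f a)) :=
  hu8_pair (Primrec.const 4) hf

theorem r1_qVer {f : α → ℕ} (hf : Primrec f) : Primrec (fun a => qVer (f a)) :=
  hu8_pair (Primrec.const 5) hf

theorem r1_qOrg {f : α → ℕ} (hf : Primrec f) : Primrec (fun a => qOrg (f a)) :=
  hu8_pair (Primrec.const 6) hf

theorem r1_qTrue {f : α → ℕ} (hf : Primrec f) : Primrec (fun a => qTrue (f a)) :=
  hu8_pair (Primrec.const 7) hf

theorem r1_pref {f g : α → List Bool} (hf : Primrec f) (hg : Primrec g) :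
    ArP (fun _ _ (a : α) => f a <+: g a) := by
  refine (ArP.ex (P := fun _ _ (z : α × List Bool) => f z.1 ++ z.2 = g z.1) ?_).congr ?_
  · exact hu8_eq (Primrec.list_append.comp (hf.comp Primrec.fst) Primrec.snd)
      (hg.comp Primrec.fst)
  · intro y W a
    rfl

theorem r1_cmpW {f g : α → List Bool} (hf : Primrec f) (hg : Primrec g) :
    ArP (fun _ _ (a : α) => cmpW (f a) (g a)) :=
  ArP.or (r1_pref hf hg) (r1_pref hg hf)

end

/-! R0 -/

theorem ar_dom : ArP (fun _ W (s : Tm) => (canon W).dom s) := hu8_cdom Primrec.id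
theorem ar_lt : ArP (fun _ W (x : Tm × Tm) => (canon W).lt x.1 x.2) :=
  hu8_clt Primrec.fst Primrec.snd
theorem ar_dat : ArP (fun _ W (x : Tm × ℕ) => (canon W).dat x.1 x.2) :=
  hu8_cdat Primrec.fst Primrec.snd
theorem ar_raw : ArP (fun _ W (m : ℕ) => (canon W).raw m) :=
  ArP.and (ArP.not (hu8_eq Primrec.id (Primrec.const 0))) (ArP.orW Primrec.id)

theorem r1_eqv {α : Type} [Primcodable α] {f g : α → Tm} (hf : Primrec f) (hg : Primrec g) :
    ArP (fun _ W (a : α) => (canon W).eqv (f a) (g a)) :=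
  ArP.and (hu8_cdom hf) (ArP.and (hu8_cdom hg)
    (ArP.and (ArP.not (hu8_clt hf hg)) (ArP.not (hu8_clt hg hf))))

theorem ar_eqv : ArP (fun _ W (x : Tm × Tm) => (canon W).eqv x.1 x.2) :=
  r1_eqv Primrec.fst Primrec.snd

/-! R1 -/

section
variable {α : Type} [Primcodable α]

theorem r1_inT {f : α → Cnd} {g : α → List Bool} (hf : Primrec f) (hg : Primrec g) :
    ArP (fun _ W (a : α) => inT (canon W) (f a) (g a)) := by
  refine ArP.and (r1_cmpW hg (Primrec.snd.comp hf)) ?_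
  refine ArP.all (P := fun _ W (z : α × (Tm × ℕ)) => (f z.1).1 = some z.2 →
    (canon W).dat z.2.1 (qTree z.2.2 (g z.1))) ?_
  refine ArP.imp (hu8_eq (Primrec.fst.comp (hf.comp Primrec.fst))
    (Primrec.option_some.comp Primrec.snd)) ?_
  exact hu8_cdat (Primrec.fst.comp Primrec.snd)
    (r1_qTree (Primrec.snd.comp Primrec.snd) (hg.comp Primrec.fst))

theorem r1_liveC {f : α → Tm} (hf : Primrec f) :
    ArP (fun _ W (a : α) => liveC (canon W) (f a)) := by
  refine ArP.and (hu8_cdom hf) ?_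
  refine ArP.all (P := fun _ W (z : α × Tm) => ∀ l, (canon W).dat z.2 (qPop l) →
    (canon W).dom (subt l z.2) → ¬ ((canon W).lt (f z.1) z.2 ∧
      ¬ (canon W).lt (f z.1) (subt l z.2))) ?_
  refine ArP.all (P := fun _ W (z : (α × Tm) × ℕ) => (canon W).dat z.1.2 (qPop z.2) →
    (canon W).dom (subt z.2 z.1.2) → ¬ ((canon W).lt (f z.1.1) z.1.2 ∧
      ¬ (canon W).lt (f z.1.1) (subt z.2 z.1.2))) ?_
  have h1 : Primrec (fun z : (α × Tm) × ℕ => z.1.2) := Primrec.snd.comp Primrec.fst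
  have h2 : Primrec (fun z : (α × Tm) × ℕ => subt z.2 z.1.2) := r1_subt Primrec.snd h1
  have h3 : Primrec (fun z : (α × Tm) × ℕ => f z.1.1) := hf.comp (Primrec.fst.comp Primrec.fst)
  exact ArP.imp (hu8_cdat h1 (r1_qPop Primrec.snd)) (ArP.imp (hu8_cdom h2)
    (ArP.not (ArP.and (hu8_clt h3 h1) (ArP.not (hu8_clt h3 h2)))))

theorem r1_cond {f : α → Cnd} (hf : Primrec f) :
    ArP (fun _ W (a : α) => cond (canon W) (f a)) := by
  refine ArP.all (P := fun _ W (z : α × (Tm × ℕ)) => (f z.1).1 = some z.2 →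
    liveC (canon W) z.2.1 ∧ (canon W).dat z.2.1 (qTree z.2.2 (f z.1).2)) ?_
  have h1 : Primrec (fun z : α × (Tm × ℕ) => f z.1) := hf.comp Primrec.fst
  exact ArP.imp (hu8_eq (Primrec.fst.comp h1) (Primrec.option_some.comp Primrec.snd))
    (ArP.and (r1_liveC (Primrec.fst.comp Primrec.snd))
      (hu8_cdat (Primrec.fst.comp Primrec.snd)
        (r1_qTree (Primrec.snd.comp Primrec.snd) (Primrec.snd.comp h1))))

theorem r1_sub {f g : α → Cnd} (hf : Primrec f) (hg : Primrec g) :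
    ArP (fun _ W (a : α) => sub (canon W) (f a) (g a)) := by
  refine ArP.all (P := fun _ W (z : α × List Bool) => inT (canon W) (f z.1) z.2 →
    inT (canon W) (g z.1) z.2) ?_
  exact ArP.imp (r1_inT (hf.comp Primrec.fst) Primrec.snd)
    (r1_inT (hg.comp Primrec.fst) Primrec.snd)

theorem r1_know0 {f : α → Cnd} {t : α → Tm} {m : α → ℕ} {v : α → Bool} (hf : Primrec f)
    (ht : Primrec t) (hm : Primrec m) (hv : Primrec v) :
    ArP (fun _ W (a : α) => know0 (canon W) (f a) (t a) (m a) (v a)) := by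
  refine ArP.ex (P := fun _ W (z : α × (Tm × ℕ)) => (f z.1).1 = some z.2 ∧
    ∃ w0, w0 <+: (f z.1).2 ∧
    ((∃ l, (canon W).dat z.2.1 (qKnow z.2.2 w0 l (m z.1) (v z.1)) ∧
      (canon W).eqv (subt l z.2.1) (t z.1)) ∨
     ((canon W).eqv z.2.1 (t z.1) ∧ (canon W).dat z.2.1 (qSelf z.2.2 w0 (m z.1) (v z.1))))) ?_
  have h1 : Primrec (fun z : α × (Tm × ℕ) => f z.1) := hf.comp Primrec.fst
  refine ArP.and (hu8_eq (Primrec.fst.comp h1) (Primrec.option_some.comp Primrec.snd)) ?_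
  refine ArP.ex (P := fun _ W (z : (α × (Tm × ℕ)) × List Bool) => z.2 <+: (f z.1.1).2 ∧
    ((∃ l, (canon W).dat z.1.2.1 (qKnow z.1.2.2 z.2 l (m z.1.1) (v z.1.1)) ∧
      (canon W).eqv (subt l z.1.2.1) (t z.1.1)) ∨
     ((canon W).eqv z.1.2.1 (t z.1.1) ∧
      (canon W).dat z.1.2.1 (qSelf z.1.2.2 z.2 (m z.1.1) (v z.1.1))))) ?_
  have p1 : Primrec (fun z : (α × (Tm × ℕ)) × List Bool => z.1.1) :=
    Primrec.fst.comp Primrec.fst
  have p2 : Primrec (fun z : (α × (Tm × ℕ)) × List Bool => z.1.2.1) :=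
    Primrec.fst.comp (Primrec.snd.comp Primrec.fst)
  have p3 : Primrec (fun z : (α × (Tm × ℕ)) × List Bool => z.1.2.2) :=
    Primrec.snd.comp (Primrec.snd.comp Primrec.fst)
  refine ArP.and (r1_pref Primrec.snd (Primrec.snd.comp (hf.comp p1))) (ArP.or ?_ ?_)
  · refine ArP.ex (P := fun _ W (z : ((α × (Tm × ℕ)) × List Bool) × ℕ) =>
      (canon W).dat z.1.1.2.1 (qKnow z.1.1.2.2 z.1.2 z.2 (m z.1.1.1) (v z.1.1.1)) ∧
      (canon W).eqv (subt z.2 z.1.1.2.1) (t z.1.1.1)) ?_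
    exact ArP.and (hu8_cdat (p2.comp Primrec.fst)
      (r1_qKnow (p3.comp Primrec.fst) (Primrec.snd.comp Primrec.fst) Primrec.snd
        (hm.comp (p1.comp Primrec.fst)) (hv.comp (p1.comp Primrec.fst))))
      (r1_eqv (r1_subt Primrec.snd (p2.comp Primrec.fst)) (ht.comp (p1.comp Primrec.fst)))
  · exact ArP.and (r1_eqv p2 (ht.comp p1))
      (hu8_cdat p2 (r1_qSelf p3 Primrec.snd (hm.comp p1) (hv.comp p1)))

theorem r1_know {f : α → Cnd} {t : α → Tm} {m : α → ℕ} {v : α → Bool} (hf : Primrec f)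
    (ht : Primrec t) (hm : Primrec m) (hv : Primrec v) :
    ArP (fun _ W (a : α) => know (canon W) (f a) (t a) (m a) (v a)) := by
  refine ArP.ex (P := fun _ W (z : α × Cnd) => cond (canon W) z.2 ∧
    sub (canon W) (f z.1) z.2 ∧ know0 (canon W) z.2 (t z.1) (m z.1) (v z.1)) ?_
  exact ArP.and (r1_cond Primrec.snd) (ArP.and (r1_sub (hf.comp Primrec.fst) Primrec.snd)
    (r1_know0 Primrec.snd (ht.comp Primrec.fst) (hm.comp Primrec.fst) (hv.comp Primrec.fst)))

theorem r1_EE {f : α → Cnd} {m : α → ℕ} {t : α → Tm} (hf : Primrec f) (hm : Primrec m)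
    (ht : Primrec t) : ArP (fun _ W (a : α) => EE (canon W) (f a) (m a) (t a)) := by
  refine ArP.ex (P := fun _ W (z : α × Cnd) => ∃ s, cond (canon W) z.2 ∧
    sub (canon W) z.2 (f z.1) ∧ (canon W).dom s ∧ ¬ (canon W).lt s (t z.1) ∧
    know (canon W) z.2 s (m z.1) true) ?_
  refine ArP.ex (P := fun _ W (z : (α × Cnd) × Tm) => cond (canon W) z.1.2 ∧
    sub (canon W) z.1.2 (f z.1.1) ∧ (canon W).dom z.2 ∧ ¬ (canon W).lt z.2 (t z.1.1) ∧
    know (canon W) z.1.2 z.2 (m z.1.1) true) ?_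
  have p1 : Primrec (fun z : (α × Cnd) × Tm => z.1.1) := Primrec.fst.comp Primrec.fst
  have p2 : Primrec (fun z : (α × Cnd) × Tm => z.1.2) := Primrec.snd.comp Primrec.fst
  exact ArP.and (r1_cond p2) (ArP.and (r1_sub p2 (hf.comp p1)) (ArP.and (hu8_cdom Primrec.snd)
    (ArP.and (ArP.not (hu8_clt Primrec.snd (ht.comp p1)))
      (r1_know p2 Primrec.snd (hm.comp p1) (Primrec.const true)))))

theorem r1_DD {f : α → Cnd} {m : α → ℕ} {t : α → Tm} (hf : Primrec f) (hm : Primrec m)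
    (ht : Primrec t) : ArP (fun _ W (a : α) => DD (canon W) (f a) (m a) (t a)) := by
  refine ArP.all (P := fun _ W (z : α × Cnd) => cond (canon W) z.2 →
    sub (canon W) z.2 (f z.1) → EE (canon W) z.2 (m z.1) (t z.1)) ?_
  exact ArP.imp (r1_cond Primrec.snd) (ArP.imp (r1_sub Primrec.snd (hf.comp Primrec.fst))
    (r1_EE Primrec.snd (hm.comp Primrec.fst) (ht.comp Primrec.fst)))

end

theorem ar_inT : ArP (fun _ W (x : Cnd × List Bool) => inT (canon W) x.1 x.2) :=
  r1_inT Primrec.fst Primrec.snd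
theorem ar_liveC : ArP (fun _ W (x : Tm) => liveC (canon W) x) := r1_liveC Primrec.id
theorem ar_cond : ArP (fun _ W (x : Cnd) => cond (canon W) x) := r1_cond Primrec.id
theorem ar_sub : ArP (fun _ W (x : Cnd × Cnd) => sub (canon W) x.1 x.2) :=
  r1_sub Primrec.fst Primrec.snd
theorem ar_know0 : ArP (fun _ W (x : Cnd × Tm × ℕ × Bool) =>
    know0 (canon W) x.1 x.2.1 x.2.2.1 x.2.2.2) :=
  r1_know0 Primrec.fst (Primrec.fst.comp Primrec.snd)
    (Primrec.fst.comp (Primrec.snd.comp Primrec.snd))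
    (Primrec.snd.comp (Primrec.snd.comp Primrec.snd))
theorem ar_know : ArP (fun _ W (x : Cnd × Tm × ℕ × Bool) =>
    know (canon W) x.1 x.2.1 x.2.2.1 x.2.2.2) :=
  r1_know Primrec.fst (Primrec.fst.comp Primrec.snd)
    (Primrec.fst.comp (Primrec.snd.comp Primrec.snd))
    (Primrec.snd.comp (Primrec.snd.comp Primrec.snd))
theorem ar_EE : ArP (fun _ W (x : Cnd × ℕ × Tm) => EE (canon W) x.1 x.2.1 x.2.2) :=
  r1_EE Primrec.fst (Primrec.fst.comp Primrec.snd) (Primrec.snd.comp Primrec.snd)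
theorem ar_DD : ArP (fun _ W (x : Cnd × ℕ × Tm) => DD (canon W) x.1 x.2.1 x.2.2) :=
  r1_DD Primrec.fst (Primrec.fst.comp Primrec.snd) (Primrec.snd.comp Primrec.snd)

end Pool.Agent.HT
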