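import Pool.Agent.Helper85.HT.FDefs
import Pool.Agent.Helper85.HT.AR1
import Pool.Agent.Helper85.HT.HU8
import Pool.Agent.Helper85.HT.R1

set_option autoImplicit false

/-!
# R2 : requirements and replacement are arithmetical
-/

namespace Pool.Agent.HT

open Ordinal

section
variable {α : Type} [Primcodable α]

theorem r2_subt {f : α → ℕ} {g : α → Tm} (hf : Primrec f) (hg : Primrec g) :
    Primrec (fun a => subt (f a) (g a)) :=
  Primrec.list_cons.comp (Primrec.nat_mul.comp (Primrec.const 2) hf) hg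

theorem r2_tag {f : α → ℕ} (k : ℕ) (hf : Primrec f) : Primrec (fun a => Nat.pair k (f a)) :=
  Primrec₂.natPair.comp (Primrec.const k) hf

theorem r2_qRaw {f : α → ℕ} (hf : Primrec f) : Primrec (fun a => qRaw (f a)) := r2_tag 0 hf

theorem r2_qPop {f : α → ℕ} (hf : Primrec f) : Primrec (fun a => qPop (f a)) := r2_tag 4 hf

theorem r2_qVer {f : α → ℕ} (hf : Primrec f) : Primrec (fun a => qVer (f a)) := r2_tag 5 hf

theorem r2_qOrg {f : α → ℕ} (hf : Primrec f) : Primrec (fun a => qOrg (f a)) := r2_tag 6 hf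

theorem r2_qTrue {f : α → ℕ} (hf : Primrec f) : Primrec (fun a => qTrue (f a)) := r2_tag 7 hf

theorem r2_dom {f : α → Tm} (hf : Primrec f) : ArP (fun _ W a => (canon W).dom (f a)) :=
  ArP.comp ar_dom hf

theorem r2_clt {f g : α → Tm} (hf : Primrec f) (hg : Primrec g) :
    ArP (fun _ W a => (canon W).lt (f a) (g a)) :=
  ArP.comp ar_lt (Primrec.pair hf hg)

theorem r2_eqv {f g : α → Tm} (hf : Primrec f) (hg : Primrec g) :
    ArP (fun _ W a => (canon W).eqv (f a) (g a)) :=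
  ArP.comp ar_eqv (Primrec.pair hf hg)

theorem r2_dat {f : α → Tm} {g : α → ℕ} (hf : Primrec f) (hg : Primrec g) :
    ArP (fun _ W a => (canon W).dat (f a) (g a)) :=
  ArP.comp ar_dat (Primrec.pair hf hg)

theorem r2_EE {f : α → Cnd} {g : α → ℕ} {h : α → Tm} (hf : Primrec f) (hg : Primrec g)
    (hh : Primrec h) : ArP (fun _ W a => EE (canon W) (f a) (g a) (h a)) :=
  ArP.comp ar_EE (Primrec.pair hf (Primrec.pair hg hh))

theorem r2_DD {f : α → Cnd} {g : α → ℕ} {h : α → Tm} (hf : Primrec f) (hg : Primrec g)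
    (hh : Primrec h) : ArP (fun _ W a => DD (canon W) (f a) (g a) (h a)) :=
  ArP.comp ar_DD (Primrec.pair hf (Primrec.pair hg hh))

theorem r2_relc {f : α → Tm} {g : α → RCnd} (hf : Primrec f) (hg : Primrec g) :
    Primrec (fun a => relc (f a) (g a)) := by
  refine Primrec.pair ?_ (Primrec.snd.comp hg)
  refine Primrec.option_map (Primrec.fst.comp hg) ?_
  exact (Primrec.pair (r2_subt (Primrec.fst.comp Primrec.snd) (hf.comp Primrec.fst))
    (Primrec.snd.comp Primrec.snd)).to₂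

theorem r2_relh {g : α → RCnd} (hg : Primrec g) : Primrec (fun a => relh (g a)) := by
  refine Primrec.pair ?_ (Primrec.snd.comp hg)
  refine Primrec.option_map (Primrec.fst.comp hg) ?_
  exact (Primrec.pair (hu8_tmOf.comp (Primrec.fst.comp Primrec.snd))
    (Primrec.snd.comp Primrec.snd)).to₂

theorem r2_drop {f : α → Tm} {g : α → ℕ} (hf : Primrec f) (hg : Primrec g) :
    Primrec (fun a => (f a).drop (g a)) := hu8_drop hf hg

theorem r2_eq {β : Type} [Primcodable β] {f g : α → β} (hf : Primrec f) (hg : Primrec g) :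
    ArP (fun _ _ a => f a = g a) := by
  have h : ArP (fun _ _ a => Encodable.encode (f a) = Encodable.encode (g a)) :=
    ArP.primPred (PrimrecRel.comp Primrec.eq (Primrec.encode.comp hf) (Primrec.encode.comp hg))
  refine h.congr ?_
  intro y W a
  exact Encodable.encode_inj

theorem r2_lt {f g : α → ℕ} (hf : Primrec f) (hg : Primrec g) :
    ArP (fun _ _ a => f a < g a) :=
  ArP.primPred (PrimrecRel.comp Primrec.nat_lt hf hg)

theorem r2_le {f g : α → ℕ} (hf : Primrec f) (hg : Primrec g) :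
    ArP (fun _ _ a => f a ≤ g a) :=
  ArP.primPred (PrimrecRel.comp Primrec.nat_le hf hg)

theorem r2_oddHead {f : α → Tm} (hf : Primrec f) : ArP (fun _ _ a => oddHead (f a)) := by
  have h : ArP (fun _ _ (z : (α × ℕ) × Tm) => f z.1.1 = (2 * z.1.2 + 1) :: z.2) :=
    r2_eq (hf.comp (Primrec.fst.comp Primrec.fst))
      (Primrec.list_cons.comp (Primrec.succ.comp (Primrec.nat_mul.comp (Primrec.const 2)
        (Primrec.snd.comp Primrec.fst))) Primrec.snd)
  exact ArP.ex (ArP.ex h)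

theorem r2_suffix {f g : α → Tm} (hf : Primrec f) (hg : Primrec g) :
    ArP (fun _ _ a => f a <:+ g a) := by
  refine (r2_eq hf (r2_drop hg (Primrec.nat_sub.comp (Primrec.list_length.comp hg)
    (Primrec.list_length.comp hf)))).congr ?_
  intro y W a
  exact List.suffix_iff_eq_drop.symm

theorem r2_reqC {f : α → Req} {g u : α → Tm} (hf : Primrec f) (hg : Primrec g) (hu : Primrec u) :
    ArP (fun _ W a => reqC (canon W) (f a) (g a) (u a)) := by
  have h1 : Primrec (fun a => (f a).1) := Primrec.fst.comp hf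
  have h2 : Primrec (fun a => (f a).2.1) := Primrec.fst.comp (Primrec.snd.comp hf)
  have h3 : Primrec (fun a => (f a).2.2.1) :=
    Primrec.fst.comp (Primrec.snd.comp (Primrec.snd.comp hf))
  have h4 : Primrec (fun a => (f a).2.2.2) :=
    Primrec.snd.comp (Primrec.snd.comp (Primrec.snd.comp hf))
  exact ArP.or
    (ArP.and (r2_eq h1 (Primrec.const false))
      (ArP.not (r2_EE (r2_relc hg h2) h4 (r2_subt h3 hg))))
    (ArP.and (r2_eq h1 (Primrec.const true))
      (r2_DD (r2_relc hg h2) h4 hu))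

end

theorem ar_reqC : ArP (fun _ W (x : Req × Tm × Tm) => reqC (canon W) x.1 x.2.1 x.2.2) :=
  r2_reqC Primrec.fst (Primrec.fst.comp Primrec.snd) (Primrec.snd.comp Primrec.snd)

theorem ar_PsF : ArP (fun _ W (x : ℕ × Tm × Tm) => PsF (canon W) x.1 x.2.1 x.2.2) := by
  have p1 : Primrec (fun x : ℕ × Tm × Tm => x.1) := Primrec.fst
  have pt : Primrec (fun x : ℕ × Tm × Tm => x.2.1) := Primrec.fst.comp Primrec.snd
  have ps : Primrec (fun x : ℕ × Tm × Tm => x.2.2) := Primrec.snd.comp Primrec.snd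
  have pm : Primrec (fun x : ℕ × Tm × Tm => x.1 - 2) :=
    Primrec.nat_sub.comp p1 (Primrec.const 2)
  have pu1 : Primrec (fun x : ℕ × Tm × Tm => (x.1 - 2).unpair.1) :=
    Primrec.fst.comp (Primrec.unpair.comp pm)
  have pu2 : Primrec (fun x : ℕ × Tm × Tm => (x.1 - 2).unpair.2) :=
    Primrec.snd.comp (Primrec.unpair.comp pm)
  have pu21 : Primrec (fun x : ℕ × Tm × Tm => (x.1 - 2).unpair.2.unpair.1) :=
    Primrec.fst.comp (Primrec.unpair.comp pu2)
  have pu22 : Primrec (fun x : ℕ × Tm × Tm => (x.1 - 2).unpair.2.unpair.2) :=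
    Primrec.snd.comp (Primrec.unpair.comp pu2)
  have h2 := r2_le (Primrec.const 2) p1
  have c1 := r2_eq p1 (Primrec.const 0)
  have c2 := ArP.and (r2_eq p1 (Primrec.const 1)) (ArP.not (r2_clt pt ps))
  have c3 := ArP.and h2 (ArP.and (r2_eq pu1 (Primrec.const 0)) (ArP.comp ar_raw pu2))
  have c4 : ArP (fun _ W (x : ℕ × Tm × Tm) => 2 ≤ x.1 ∧ (x.1 - 2).unpair.1 = 1 ∧
      ∀ s', (canon W).dom s' → ¬ (canon W).lt s' (subt (x.1 - 2).unpair.2.unpair.1 x.2.1) →
        ¬ (canon W).dat s' (qRaw (x.1 - 2).unpair.2.unpair.2)) := by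
    refine ArP.and h2 (ArP.and (r2_eq pu1 (Primrec.const 1)) ?_)
    have h : ArP (fun _ W (z : (ℕ × Tm × Tm) × Tm) => (canon W).dom z.2 →
        ¬ (canon W).lt z.2 (subt (z.1.1 - 2).unpair.2.unpair.1 z.1.2.1) →
        ¬ (canon W).dat z.2 (qRaw (z.1.1 - 2).unpair.2.unpair.2)) :=
      ArP.imp (r2_dom Primrec.snd)
        (ArP.imp (ArP.not (r2_clt Primrec.snd
          (r2_subt (pu21.comp Primrec.fst) (pt.comp Primrec.fst))))
          (ArP.not (r2_dat Primrec.snd (r2_qRaw (pu22.comp Primrec.fst)))))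
    have h' := ArP.all h
    exact h'
  have c5 : ArP (fun _ W (x : ℕ × Tm × Tm) => 2 ≤ x.1 ∧ (x.1 - 2).unpair.1 = 2 ∧
      ∀ s' l', (canon W).dat s' (qPop l') →
        ¬ (canon W).eqv (subt l' s') (subt (x.1 - 2).unpair.2 x.2.1)) := by
    refine ArP.and h2 (ArP.and (r2_eq pu1 (Primrec.const 2)) ?_)
    have h : ArP (fun _ W (z : ((ℕ × Tm × Tm) × Tm) × ℕ) => (canon W).dat z.1.2 (qPop z.2) →
        ¬ (canon W).eqv (subt z.2 z.1.2) (subt (z.1.1.1 - 2).unpair.2 z.1.1.2.1)) :=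
      ArP.imp (r2_dat (Primrec.snd.comp Primrec.fst) (r2_qPop Primrec.snd))
        (ArP.not (r2_eqv (r2_subt Primrec.snd (Primrec.snd.comp Primrec.fst))
          (r2_subt (pu2.comp (Primrec.fst.comp Primrec.fst))
            (pt.comp (Primrec.fst.comp Primrec.fst)))))
    have h' := ArP.all h
    have h'' := ArP.all h'
    exact h''
  have c6 : ArP (fun _ W (x : ℕ × Tm × Tm) => 2 ≤ x.1 ∧ (x.1 - 2).unpair.1 = 3 ∧
      ∀ q ∈ tmOf (x.1 - 2).unpair.2, ∀ r : Req,
        Encodable.decode (α := Req) q = some r → reqC (canon W) r x.2.1 x.2.2) := by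
    refine ArP.and h2 (ArP.and (r2_eq pu1 (Primrec.const 3)) ?_)
    have h : ArP (fun _ W (z : ((ℕ × Tm × Tm) × ℕ) × Req) =>
        Encodable.decode (α := Req) z.1.2 = some z.2 → reqC (canon W) z.2 z.1.1.2.1 z.1.1.2.2) :=
      ArP.imp (r2_eq (Primrec.decode.comp (Primrec.snd.comp Primrec.fst))
          (Primrec.option_some.comp Primrec.snd))
        (r2_reqC Primrec.snd (pt.comp (Primrec.fst.comp Primrec.fst))
          (ps.comp (Primrec.fst.comp Primrec.fst)))
    have h' := ArP.all h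
    have h'' := ArP.allList h' (hu8_tmOf.comp pu2)
    exact h''
  exact ArP.or c1 (ArP.or c2 (ArP.or c3 (ArP.or c4 (ArP.or c5 c6))))

theorem ar_trueC : ArP (fun _ W (x : Req) => trueC (canon W) x) := by
  have h1 : Primrec (fun x : Req => x.1) := Primrec.fst
  have h2 : Primrec (fun x : Req => relh x.2.1) := r2_relh (Primrec.fst.comp Primrec.snd)
  have h3 : Primrec (fun x : Req => tmOf x.2.2.1) :=
    hu8_tmOf.comp (Primrec.fst.comp (Primrec.snd.comp Primrec.snd))
  have h4 : Primrec (fun x : Req => x.2.2.2) :=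
    Primrec.snd.comp (Primrec.snd.comp Primrec.snd)
  have hD : ArP (fun _ W (z : Req × Tm) => (canon W).dom z.2 →
      DD (canon W) (relh z.1.2.1) z.1.2.2.2 z.2) :=
    ArP.imp (r2_dom Primrec.snd)
      (r2_DD (h2.comp Primrec.fst) (h4.comp Primrec.fst) Primrec.snd)
  exact ArP.and (ArP.comp ar_cond h2) (ArP.or
    (ArP.and (r2_eq h1 (Primrec.const false)) (ArP.and (r2_dom h3)
      (ArP.not (r2_EE h2 h4 h3))))
    (ArP.and (r2_eq h1 (Primrec.const true)) (ArP.all hD)))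

/-! R3: replacement -/

theorem r2_orgOf {α : Type} [Primcodable α] {f g : α → Tm} (hf : Primrec f) (hg : Primrec g) :
    ArP (fun _ W a => orgOf (canon W) (f a) (g a)) := by
  have e1 : ArP (fun _ W (z : α × ℕ) => (canon W).dat (f z.1) (qOrg z.2)) :=
    r2_dat (hf.comp Primrec.fst) (r2_qOrg Primrec.snd)
  have e2 : ArP (fun _ W (z : α × ℕ) => (canon W).dat (f z.1) (qOrg z.2) ∧
      g z.1 = subt z.2 (f z.1)) :=
    ArP.and e1 (r2_eq (hg.comp Primrec.fst) (r2_subt Primrec.snd (hf.comp Primrec.fst)))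
  exact ArP.or (ArP.ex e2) (ArP.and (ArP.not (ArP.ex e1)) (r2_eq hg hf))

theorem ar_orgOf : ArP (fun _ W (x : Tm × Tm) => orgOf (canon W) x.1 x.2) :=
  r2_orgOf Primrec.fst Primrec.snd

theorem r2_cond1C : ArP (fun _ W (x : ℕ × Tm × Tm) => cond1C (canon W) x.1 x.2.1 x.2.2) := by
  have pi : Primrec (fun z : (ℕ × Tm × Tm) × Tm => z.1.1) := Primrec.fst.comp Primrec.fst
  have pg : Primrec (fun z : (ℕ × Tm × Tm) × Tm => z.1.2.1) :=
    Primrec.fst.comp (Primrec.snd.comp Primrec.fst)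
  have pc : Primrec (fun z : (ℕ × Tm × Tm) × Tm => z.1.2.2) :=
    Primrec.snd.comp (Primrec.snd.comp Primrec.fst)
  have pz : Primrec (fun z : (ℕ × Tm × Tm) × Tm => z.2) := Primrec.snd
  have hin : ArP (fun _ W (w : ((ℕ × Tm × Tm) × Tm) × Tm) => w.2 <:+ w.1.2 ∧ oddHead w.2 ∧
      (canon W).dom w.2 ∧ ¬ (canon W).lt w.2 w.1.1.2.2) :=
    ArP.and (r2_suffix Primrec.snd (pz.comp Primrec.fst)) (ArP.and (r2_oddHead Primrec.snd)
      (ArP.and (r2_dom Primrec.snd) (ArP.not (r2_clt Primrec.snd (pc.comp Primrec.fst)))))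
  have h : ArP (fun _ W (z : (ℕ × Tm × Tm) × Tm) => Encodable.encode z.2 < z.1.1 →
      ¬ (canon W).dom z.2 ∨ (canon W).lt z.2 z.1.2.1 ∨
      ∃ t, t <:+ z.2 ∧ oddHead t ∧ (canon W).dom t ∧ ¬ (canon W).lt t z.1.2.2) :=
    ArP.imp (r2_lt (Primrec.encode.comp pz) pi) (ArP.or (ArP.not (r2_dom pz))
      (ArP.or (r2_clt pz pg) (ArP.ex hin)))
  exact ArP.all h

theorem r2_cond2C : ArP (fun _ W (x : ℕ × Tm × Tm) => cond2C (canon W) x.1 x.2.1 x.2.2) := by
  have px : Primrec (fun z : ((ℕ × Tm × Tm) × ℕ) × Req => z.1.1) :=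
    Primrec.fst.comp Primrec.fst
  have pi : Primrec (fun z : ((ℕ × Tm × Tm) × ℕ) × Req => z.1.1.1) := Primrec.fst.comp px
  have pg : Primrec (fun z : ((ℕ × Tm × Tm) × ℕ) × Req => z.1.1.2.1) :=
    Primrec.fst.comp (Primrec.snd.comp px)
  have pc : Primrec (fun z : ((ℕ × Tm × Tm) × ℕ) × Req => z.1.1.2.2) :=
    Primrec.snd.comp (Primrec.snd.comp px)
  have pq : Primrec (fun z : ((ℕ × Tm × Tm) × ℕ) × Req => z.1.2) :=
    Primrec.snd.comp Primrec.fst
  have h : ArP (fun _ W (z : ((ℕ × Tm × Tm) × ℕ) × Req) => z.1.2 < z.1.1.1 →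
      Encodable.decode (α := Req) z.1.2 = some z.2 → (canon W).dat z.1.1.2.1 (qTrue z.1.2) →
      reqC (canon W) z.2 z.1.1.2.1 z.1.1.2.2) :=
    ArP.imp (r2_lt pq pi) (ArP.imp (r2_eq (Primrec.decode.comp pq)
      (Primrec.option_some.comp Primrec.snd)) (ArP.imp
      (r2_dat pg (r2_qTrue pq)) (r2_reqC Primrec.snd pg pc)))
  exact ArP.all (ArP.all h)

theorem r2_candC : ArP (fun _ W (x : Tm) => candC (canon W) x) := by
  have pc : Primrec (fun z : (Tm × ℕ) × Tm => z.1.1) := Primrec.fst.comp Primrec.fst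
  have pi : Primrec (fun z : (Tm × ℕ) × Tm => z.1.2) := Primrec.snd.comp Primrec.fst
  have pg : Primrec (fun z : (Tm × ℕ) × Tm => z.2) := Primrec.snd
  have h : ArP (fun _ W (z : (Tm × ℕ) × Tm) => (canon W).dat z.1.1 (qVer z.1.2) ∧
      orgOf (canon W) z.1.1 z.2 ∧ (canon W).dom z.2 ∧ cond1C (canon W) z.1.2 z.2 z.1.1 ∧
      cond2C (canon W) z.1.2 z.2 z.1.1) :=
    ArP.and (r2_dat pc (r2_qVer pi))
      (ArP.and (r2_orgOf pc pg) (ArP.and (r2_dom pg)
        (ArP.and (ArP.comp r2_cond1C (Primrec.pair pi (Primrec.pair pg pc)))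
          (ArP.comp r2_cond2C (Primrec.pair pi (Primrec.pair pg pc))))))
  exact ArP.and ar_liveC (ArP.ex (ArP.ex h))

theorem ar_popC : ArP (fun _ W (x : Tm) => popC (canon W) x) := by
  have h : ArP (fun _ W (z : Tm × Tm) => candC (canon W) z.2 → ¬ (canon W).lt z.2 z.1) :=
    ArP.imp (ArP.comp r2_candC Primrec.snd)
      (ArP.not (r2_clt Primrec.snd Primrec.fst))
  exact ArP.and r2_candC (ArP.all h)

end Pool.Agent.HT
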