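import Pool.Agent.Helper85.HT.FDefs
import Pool.Agent.Helper85.HT.AR1
import Pool.Agent.Helper85.HT.HU8
import Pool.Agent.Helper85.HT.R1
import Pool.Agent.Helper85.HT.R2

set_option autoImplicit false

/-!
# R4 : decisions and start are arithmetical
-/

namespace Pool.Agent.HT

open Ordinal

section
variable {α : Type} [Primcodable α]

theorem r4_cond {f : α → Cnd} (hf : Primrec f) : ArP (fun _ W a => cond (canon W) (f a)) :=
  ArP.comp ar_cond hf

theorem r4_sub {f g : α → Cnd} (hf : Primrec f) (hg : Primrec g) :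
    ArP (fun _ W a => sub (canon W) (f a) (g a)) :=
  ArP.comp ar_sub (Primrec.pair hf hg)

theorem r4_know {f : α → Cnd} {t : α → Tm} {m : α → ℕ} {v : α → Bool} (hf : Primrec f)
    (ht : Primrec t) (hm : Primrec m) (hv : Primrec v) :
    ArP (fun _ W a => know (canon W) (f a) (t a) (m a) (v a)) :=
  ArP.comp ar_know (Primrec.pair hf (Primrec.pair ht (Primrec.pair hm hv)))

/-- the thread `k` of stage `s` as a condition -/
theorem r4_thr {f : α → Tm} {g : α → ℕ} (hf : Primrec f) (hg : Primrec g) :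
    Primrec (fun a => ((some (f a, g a), []) : Cnd)) :=
  Primrec.pair (Primrec.option_some.comp (Primrec.pair hf hg)) (Primrec.const [])

theorem r4_EC {f : α → ℕ × Tm × ℕ × Cnd} {g : α → Cnd} (hf : Primrec f) (hg : Primrec g) :
    ArP (fun _ W a => EC (canon W) (f a) (g a)) := by
  have h1 : Primrec (fun a => (f a).1) := Primrec.fst.comp hf
  have h2 : Primrec (fun a => (f a).2.1) := Primrec.fst.comp (Primrec.snd.comp hf)
  have h3 : Primrec (fun a => (f a).2.2.1) :=
    Primrec.fst.comp (Primrec.snd.comp (Primrec.snd.comp hf))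
  have h4 : Primrec (fun a => (f a).2.2.2) :=
    Primrec.snd.comp (Primrec.snd.comp (Primrec.snd.comp hf))
  have c0 : ArP (fun _ W a => (f a).1 = 0 ∧ ∃ v, know (canon W) (g a) (f a).2.1 (f a).2.2.1 v) := by
    refine ArP.and (r2_eq h1 (Primrec.const 0)) ?_
    have h : ArP (fun _ W (z : α × Bool) =>
        know (canon W) (g z.1) (f z.1).2.1 (f z.1).2.2.1 z.2) :=
      r4_know (hg.comp Primrec.fst) (h2.comp Primrec.fst) (h3.comp Primrec.fst) Primrec.snd
    exact ArP.ex h
  have c1 : ArP (fun _ W a => (f a).1 = 1 ∧ ∃ k, sub (canon W) (g a) (some ((f a).2.1, k), [])) := by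
    refine ArP.and (r2_eq h1 (Primrec.const 1)) ?_
    have h : ArP (fun _ W (z : α × ℕ) =>
        sub (canon W) (g z.1) (some ((f z.1).2.1, z.2), [])) :=
      r4_sub (hg.comp Primrec.fst) (r4_thr (h2.comp Primrec.fst) Primrec.snd)
    exact ArP.ex h
  have c2 : ArP (fun _ W a => (f a).1 = 2 ∧ ∃ n0, (canon W).dom n0 ∧
      ¬ EE (canon W) (g a) (f a).2.2.1 n0) := by
    refine ArP.and (r2_eq h1 (Primrec.const 2)) ?_
    have h : ArP (fun _ W (z : α × Tm) => (canon W).dom z.2 ∧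
        ¬ EE (canon W) (g z.1) (f z.1).2.2.1 z.2) :=
      ArP.and (r2_dom Primrec.snd) (ArP.not (r2_EE (hg.comp Primrec.fst) (h3.comp Primrec.fst)
        Primrec.snd))
    exact ArP.ex h
  have c3 : ArP (fun _ W a => (f a).1 = 3 ∧ ∃ t', (canon W).dom t' ∧
      ¬ (canon W).lt t' (f a).2.1 ∧ know (canon W) (g a) t' (f a).2.2.1 true) := by
    refine ArP.and (r2_eq h1 (Primrec.const 3)) ?_
    have h : ArP (fun _ W (z : α × Tm) => (canon W).dom z.2 ∧
        ¬ (canon W).lt z.2 (f z.1).2.1 ∧ know (canon W) (g z.1) z.2 (f z.1).2.2.1 true) :=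
      ArP.and (r2_dom Primrec.snd) (ArP.and (ArP.not (r2_clt Primrec.snd (h2.comp Primrec.fst)))
        (r4_know (hg.comp Primrec.fst) Primrec.snd (h3.comp Primrec.fst) (Primrec.const true)))
    exact ArP.ex h
  have c4 : ArP (fun _ W a => (f a).1 = 4 ∧ sub (canon W) (g a) (f a).2.2.2) :=
    ArP.and (r2_eq h1 (Primrec.const 4)) (r4_sub hg h4)
  exact ArP.or c0 (ArP.or c1 (ArP.or c2 (ArP.or c3 c4)))

end

theorem ar_decC : ArP (fun _ W (x : ℕ × Cnd) => decC (canon W) x.1 x.2) := by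
  have hr : ArP (fun _ W (w : ((ℕ × Cnd) × (ℕ × Tm × ℕ × Cnd)) × Cnd) =>
      cond (canon W) w.2 ∧ sub (canon W) w.2 w.1.1.2 ∧ EC (canon W) w.1.2 w.2) :=
    ArP.and (r4_cond Primrec.snd)
      (ArP.and (r4_sub Primrec.snd (Primrec.snd.comp (Primrec.fst.comp Primrec.fst)))
        (r4_EC (Primrec.snd.comp Primrec.fst) Primrec.snd))
  have h : ArP (fun _ W (z : (ℕ × Cnd) × (ℕ × Tm × ℕ × Cnd)) =>
      Encodable.decode (α := ℕ × Tm × ℕ × Cnd) z.1.1 = some z.2 →
      EC (canon W) z.2 z.1.2 ∨ ¬ ∃ r, cond (canon W) r ∧ sub (canon W) r z.1.2 ∧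
        EC (canon W) z.2 r) :=
    ArP.imp (r2_eq (Primrec.decode.comp (Primrec.fst.comp Primrec.fst))
        (Primrec.option_some.comp Primrec.snd))
      (ArP.or (r4_EC Primrec.snd (Primrec.snd.comp Primrec.fst)) (ArP.not (ArP.ex hr)))
  exact ArP.all h

theorem ar_startC : ArP (fun _ W (x : ℕ × Cnd) => startC (canon W) x.1 = x.2) := by
  have p1 : Primrec (fun z : (ℕ × Cnd) × Cnd => z.1.1) := Primrec.fst.comp Primrec.fst
  have p2 : Primrec (fun z : (ℕ × Cnd) × Cnd => z.1.2) := Primrec.snd.comp Primrec.fst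
  have hn : Primrec (fun x : ℕ × Cnd => Encodable.decode (α := Cnd) x.1) :=
    Primrec.decode.comp Primrec.fst
  have hc : ArP (fun _ W (z : (ℕ × Cnd) × Cnd) =>
      Encodable.decode (α := Cnd) z.1.1 = some z.2 ∧ ((cond (canon W) z.2 ∧ z.2 = z.1.2) ∨
        (¬ cond (canon W) z.2 ∧ (none, []) = z.1.2))) :=
    ArP.and (r2_eq (Primrec.decode.comp p1) (Primrec.option_some.comp Primrec.snd))
      (ArP.or (ArP.and (r4_cond Primrec.snd) (r2_eq Primrec.snd p2))
        (ArP.and (ArP.not (r4_cond Primrec.snd)) (r2_eq (Primrec.const _) p2)))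
  have h0 : ArP (fun _ _ (x : ℕ × Cnd) => Encodable.decode (α := Cnd) x.1 = none ∧
      (none, []) = x.2) :=
    ArP.and (r2_eq hn (Primrec.const none)) (r2_eq (Primrec.const _) Primrec.snd)
  refine (ArP.or h0 (ArP.ex hc)).congr ?_
  rintro y W ⟨n, q⟩
  unfold startC
  dsimp only
  cases hd : Encodable.decode (α := Cnd) n with
  | none => simp
  | some p =>
    simp only [reduceCtorEq, false_and, false_or, Option.some.injEq]
    constructor
    · rintro ⟨p', rfl, ⟨h1, h2⟩ | ⟨h1, h2⟩⟩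
      · rw [if_pos h1]; exact h2
      · rw [if_neg h1]; exact h2
    · intro h
      refine ⟨p, rfl, ?_⟩
      by_cases hp : cond (canon W) p
      · rw [if_pos hp] at h
        exact Or.inl ⟨hp, h⟩
      · rw [if_neg hp] at h
        exact Or.inr ⟨hp, h⟩

end Pool.Agent.HT
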