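import Pool.Agent.Helper85.HT.R5Core
import Pool.Agent.Helper85.HT.R1
import Pool.Agent.Helper85.HT.R4

set_option autoImplicit false

/-!
# Module R5: the fusion is arithmetical
-/

namespace Pool.Agent.HT

/-! R5: fusion, from R1, R4 -/
theorem ar_fnode : ArP (fun _ W (x : ℕ × List Bool) => fnode (canon W) x.1 x.2) :=
  r5_fnode ar_cond ar_inT ar_decC ar_startC

end Pool.Agent.HT
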