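import Pool.Agent.Helper85.HT.R1
import Pool.Agent.Helper85.HT.R2
import Pool.Agent.Helper85.HT.R5

set_option autoImplicit false

/-!
# R6 : the data of a stage are arithmetical
-/

namespace Pool.Agent.HT

open Ordinal

section
variable {α : Type} [Primcodable α]

theorem r6_fnode {f : α → ℕ} {g : α → List Bool} (hf : Primrec f) (hg : Primrec g) :
    ArP (fun _ W (a : α) => fnode (canon W) (f a) (g a)) :=
  ArP.comp ar_fnode (Primrec.pair hf hg)

theorem r6_goodJ {c : α → Tm} {i k j : α → ℕ} (hc : Primrec c) (hi : Primrec i) (hk : Primrec k)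
    (hj : Primrec j) : ArP (fun _ W (a : α) => goodJ (canon W) (c a) (i a) (k a) (j a)) := by
  refine ArP.and ?_ ?_
  · refine ArP.all (P := fun _ W (z : α × List Bool) => fnode (canon W) (j z.1) z.2 →
      (canon W).dat (c z.1) (qTree (k z.1) z.2)) ?_
    exact ArP.imp (r6_fnode (hj.comp Primrec.fst) Primrec.snd)
      (hu8_cdat (hc.comp Primrec.fst) (r1_qTree (hk.comp Primrec.fst) Primrec.snd))
  · refine ArP.ex (P := fun _ W (z : α × List Bool) => z.2.length = i z.1 ∧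
      ∀ u, fnode (canon W) (j z.1) u → cmpW u z.2) ?_
    refine ArP.and (hu8_eq (Primrec.list_length.comp Primrec.snd) (hi.comp Primrec.fst)) ?_
    refine ArP.all (P := fun _ W (z : (α × List Bool) × List Bool) =>
      fnode (canon W) (j z.1.1) z.2 → cmpW z.2 z.1.2) ?_
    exact ArP.imp (r6_fnode (hj.comp (Primrec.fst.comp Primrec.fst)) Primrec.snd)
      (r1_cmpW Primrec.snd (Primrec.snd.comp Primrec.fst))

theorem r6_popC {f : α → Tm} (hf : Primrec f) : ArP (fun _ W (a : α) => popC (canon W) (f a)) :=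
  ArP.comp ar_popC hf

theorem r6_expop : ArP (fun _ W (_ : α) => ∃ c, popC (canon W) c) := by
  refine ArP.ex (P := fun _ W (z : α × Tm) => popC (canon W) z.2) ?_
  exact r6_popC Primrec.snd

theorem r6_gnode {f : α → ℕ} {g : α → List Bool} (hf : Primrec f) (hg : Primrec g) :
    ArP (fun _ W (a : α) => gnode (canon W) (f a) (g a)) := by
  refine ArP.or ?_ ?_
  · refine ArP.ex (P := fun _ W (z : α × Tm) => ∃ i, popC (canon W) z.2 ∧
      (canon W).dat z.2 (qVer i) ∧ ∃ j, goodJ (canon W) z.2 i (f z.1) j ∧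
      (∀ j' < j, ¬ goodJ (canon W) z.2 i (f z.1) j') ∧ fnode (canon W) j (g z.1)) ?_
    refine ArP.ex (P := fun _ W (z : (α × Tm) × ℕ) => popC (canon W) z.1.2 ∧
      (canon W).dat z.1.2 (qVer z.2) ∧ ∃ j, goodJ (canon W) z.1.2 z.2 (f z.1.1) j ∧
      (∀ j' < j, ¬ goodJ (canon W) z.1.2 z.2 (f z.1.1) j') ∧ fnode (canon W) j (g z.1.1)) ?_
    have p1 : Primrec (fun z : (α × Tm) × ℕ => z.1.2) := Primrec.snd.comp Primrec.fst
    refine ArP.and (r6_popC p1) (ArP.and (hu8_cdat p1 (r1_qVer Primrec.snd)) ?_)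
    refine ArP.ex (P := fun _ W (z : ((α × Tm) × ℕ) × ℕ) =>
      goodJ (canon W) z.1.1.2 z.1.2 (f z.1.1.1) z.2 ∧
      (∀ j' < z.2, ¬ goodJ (canon W) z.1.1.2 z.1.2 (f z.1.1.1) j') ∧
      fnode (canon W) z.2 (g z.1.1.1)) ?_
    have q1 : Primrec (fun z : ((α × Tm) × ℕ) × ℕ => z.1.1.2) := p1.comp Primrec.fst
    have q2 : Primrec (fun z : ((α × Tm) × ℕ) × ℕ => z.1.2) := Primrec.snd.comp Primrec.fst
    have q3 : Primrec (fun z : ((α × Tm) × ℕ) × ℕ => z.1.1.1) :=
      Primrec.fst.comp (Primrec.fst.comp Primrec.fst)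
    refine ArP.and (r6_goodJ q1 q2 (hf.comp q3) Primrec.snd) (ArP.and ?_
      (r6_fnode Primrec.snd (hg.comp q3)))
    refine ArP.all (P := fun _ W (z : (((α × Tm) × ℕ) × ℕ) × ℕ) => z.2 < z.1.2 →
      ¬ goodJ (canon W) z.1.1.1.2 z.1.1.2 (f z.1.1.1.1) z.2) ?_
    exact ArP.imp (r2_lt Primrec.snd (Primrec.snd.comp Primrec.fst))
      (ArP.not (r6_goodJ (q1.comp Primrec.fst) (q2.comp Primrec.fst)
        (hf.comp (q3.comp Primrec.fst)) Primrec.snd))
  · exact ArP.and (ArP.not r6_expop) (r6_fnode hf hg)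

theorem r6_subG {k : α → ℕ} {w : α → List Bool} {p : α → Cnd} (hk : Primrec k) (hw : Primrec w)
    (hp : Primrec p) : ArP (fun _ W (a : α) => subG (canon W) (k a) (w a) (p a)) := by
  refine ArP.all (P := fun _ W (z : α × List Bool) => gnode (canon W) (k z.1) z.2 →
    cmpW z.2 (w z.1) → inT (canon W) (p z.1) z.2) ?_
  exact ArP.imp (r6_gnode (hk.comp Primrec.fst) Primrec.snd)
    (ArP.imp (r1_cmpW Primrec.snd (hw.comp Primrec.fst)) (r1_inT (hp.comp Primrec.fst) Primrec.snd))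

theorem r6_newKnow {k : α → ℕ} {w : α → List Bool} {l m : α → ℕ} {v : α → Bool} (hk : Primrec k)
    (hw : Primrec w) (hl : Primrec l) (hm : Primrec m) (hv : Primrec v) :
    ArP (fun _ W (a : α) => newKnow (canon W) (k a) (w a) (l a) (m a) (v a)) := by
  refine ArP.and (r6_gnode hk hw) (ArP.and (hu8_cdom (r1_tmOf hl)) ?_)
  refine ArP.ex (P := fun _ W (z : α × Cnd) => cond (canon W) z.2 ∧
    subG (canon W) (k z.1) (w z.1) z.2 ∧ know0 (canon W) z.2 (tmOf (l z.1)) (m z.1) (v z.1)) ?_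
  exact ArP.and (r1_cond Primrec.snd) (ArP.and
    (r6_subG (hk.comp Primrec.fst) (hw.comp Primrec.fst) Primrec.snd)
    (r1_know0 Primrec.snd (r1_tmOf (hl.comp Primrec.fst)) (hm.comp Primrec.fst)
      (hv.comp Primrec.fst)))

theorem r6_maxC {t : α → Tm} (ht : Primrec t) :
    ArP (fun _ W (a : α) => maxC (canon W) (t a)) := by
  refine ArP.and (hu8_cdom ht) ?_
  refine ArP.all (P := fun _ W (z : α × Tm) => (canon W).dom z.2 →
    ¬ (canon W).lt (t z.1) z.2) ?_
  exact ArP.imp (hu8_cdom Primrec.snd) (ArP.not (hu8_clt (ht.comp Primrec.fst) Primrec.snd))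

theorem r6_exmax : ArP (fun _ W (_ : α) => ∃ t, maxC (canon W) t) := by
  refine ArP.ex (P := fun _ W (z : α × Tm) => maxC (canon W) z.2) ?_
  exact r6_maxC Primrec.snd

theorem r6_exdom : ArP (fun _ W (_ : α) => ∃ t, (canon W).dom t) := by
  refine ArP.ex (P := fun _ W (z : α × Tm) => (canon W).dom z.2) ?_
  exact hu8_cdom Primrec.snd

theorem r6_alldom : ArP (fun _ W (_ : α) => ∀ t, ¬ (canon W).dom t) := by
  refine ArP.all (P := fun _ W (z : α × Tm) => ¬ (canon W).dom z.2) ?_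
  exact ArP.not (hu8_cdom Primrec.snd)

theorem r6_newSelf (P : LProc) {k : α → ℕ} {w : α → List Bool} {m : α → ℕ} {v : α → Bool}
    (hk : Primrec k) (hw : Primrec w) (hm : Primrec m) (hv : Primrec v) :
    ArP (fun _ W (a : α) => newSelf P (canon W) (k a) (w a) (m a) (v a)) := by
  refine ArP.and (r6_gnode hk hw) (ArP.or ?_ (ArP.or ?_ (ArP.or ?_ ?_)))
  · exact ArP.and r6_alldom (r2_eq hv (Primrec.const false))
  · refine ArP.ex (P := fun _ W (z : α × Tm) => ∃ p, ∃ τ : List Bool, maxC (canon W) z.2 ∧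
      cond (canon W) p ∧ subG (canon W) (k z.1) (w z.1) p ∧ τ.length = P.h (m z.1) ∧
      (∀ i b, τ[i]? = some b → know (canon W) p z.2 i b) ∧ P.h (m z.1) ≤ (w z.1).length ∧
      v z.1 = P.g (m z.1, τ, (w z.1).take (P.h (m z.1)))) ?_
    refine ArP.ex (P := fun _ W (z : (α × Tm) × Cnd) => ∃ τ : List Bool, maxC (canon W) z.1.2 ∧
      cond (canon W) z.2 ∧ subG (canon W) (k z.1.1) (w z.1.1) z.2 ∧ τ.length = P.h (m z.1.1) ∧
      (∀ i b, τ[i]? = some b → know (canon W) z.2 z.1.2 i b) ∧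
      P.h (m z.1.1) ≤ (w z.1.1).length ∧
      v z.1.1 = P.g (m z.1.1, τ, (w z.1.1).take (P.h (m z.1.1)))) ?_
    refine ArP.ex (P := fun _ W (z : ((α × Tm) × Cnd) × List Bool) => maxC (canon W) z.1.1.2 ∧
      cond (canon W) z.1.2 ∧ subG (canon W) (k z.1.1.1) (w z.1.1.1) z.1.2 ∧
      z.2.length = P.h (m z.1.1.1) ∧
      (∀ i b, z.2[i]? = some b → know (canon W) z.1.2 z.1.1.2 i b) ∧
      P.h (m z.1.1.1) ≤ (w z.1.1.1).length ∧
      v z.1.1.1 = P.g (m z.1.1.1, z.2, (w z.1.1.1).take (P.h (m z.1.1.1)))) ?_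
    have p1 : Primrec (fun z : ((α × Tm) × Cnd) × List Bool => z.1.1.1) :=
      Primrec.fst.comp (Primrec.fst.comp Primrec.fst)
    have p2 : Primrec (fun z : ((α × Tm) × Cnd) × List Bool => z.1.1.2) :=
      Primrec.snd.comp (Primrec.fst.comp Primrec.fst)
    have p3 : Primrec (fun z : ((α × Tm) × Cnd) × List Bool => z.1.2) :=
      Primrec.snd.comp Primrec.fst
    have ph : Primrec (fun z : ((α × Tm) × Cnd) × List Bool => P.h (m z.1.1.1)) :=
      P.hh.comp (hm.comp p1)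
    refine ArP.and (r6_maxC p2) (ArP.and (r1_cond p3) (ArP.and (r6_subG (hk.comp p1)
      (hw.comp p1) p3) (ArP.and (hu8_eq (Primrec.list_length.comp Primrec.snd) ph)
      (ArP.and ?_ (ArP.and (r2_le ph (Primrec.list_length.comp (hw.comp p1))) ?_)))))
    · refine ArP.all (P := fun _ W (z : (((α × Tm) × Cnd) × List Bool) × ℕ) =>
        ∀ b, z.1.2[z.2]? = some b → know (canon W) z.1.1.2 z.1.1.1.2 z.2 b) ?_
      refine ArP.all (P := fun _ W (z : ((((α × Tm) × Cnd) × List Bool) × ℕ) × Bool) =>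
        z.1.1.2[z.1.2]? = some z.2 → know (canon W) z.1.1.1.2 z.1.1.1.1.2 z.1.2 z.2) ?_
      refine ArP.imp (hu8_eq (Primrec.list_getElem?.comp
        (Primrec.snd.comp (Primrec.fst.comp Primrec.fst)) (Primrec.snd.comp Primrec.fst))
        (Primrec.option_some.comp Primrec.snd)) ?_
      exact r1_know (p3.comp (Primrec.fst.comp Primrec.fst))
        (p2.comp (Primrec.fst.comp Primrec.fst)) (Primrec.snd.comp Primrec.fst) Primrec.snd
    · refine r2_eq (hv.comp p1) (P.hg.comp (Primrec.pair (hm.comp p1) (Primrec.pair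
        Primrec.snd ?_)))
      exact Primrec.list_take.comp ph (hw.comp p1)
  · refine ArP.and (ArP.not r6_exmax) (ArP.and r6_exdom (ArP.and
      (r2_eq hv (Primrec.const false)) ?_))
    refine ArP.ex (P := fun _ W (z : α × Cnd) => ∃ n0, cond (canon W) z.2 ∧
      subG (canon W) (k z.1) (w z.1) z.2 ∧ (canon W).dom n0 ∧
      ¬ EE (canon W) z.2 (m z.1) n0) ?_
    refine ArP.ex (P := fun _ W (z : (α × Cnd) × Tm) => cond (canon W) z.1.2 ∧
      subG (canon W) (k z.1.1) (w z.1.1) z.1.2 ∧ (canon W).dom z.2 ∧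
      ¬ EE (canon W) z.1.2 (m z.1.1) z.2) ?_
    have p1 : Primrec (fun z : (α × Cnd) × Tm => z.1.1) := Primrec.fst.comp Primrec.fst
    have p2 : Primrec (fun z : (α × Cnd) × Tm => z.1.2) := Primrec.snd.comp Primrec.fst
    exact ArP.and (r1_cond p2) (ArP.and (r6_subG (hk.comp p1) (hw.comp p1) p2)
      (ArP.and (hu8_cdom Primrec.snd) (ArP.not (r2_EE p2 (hm.comp p1) Primrec.snd))))
  · refine ArP.and (ArP.not r6_exmax) (ArP.and r6_exdom (ArP.and
      (r2_eq hv (Primrec.const true)) ?_))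
    refine ArP.ex (P := fun _ W (z : α × Cnd) => cond (canon W) z.2 ∧
      subG (canon W) (k z.1) (w z.1) z.2 ∧ ∀ u, (canon W).dom u →
      DD (canon W) z.2 (m z.1) u) ?_
    refine ArP.and (r1_cond Primrec.snd) (ArP.and (r6_subG (hk.comp Primrec.fst)
      (hw.comp Primrec.fst) Primrec.snd) ?_)
    refine ArP.all (P := fun _ W (z : (α × Cnd) × Tm) => (canon W).dom z.2 →
      DD (canon W) z.1.2 (m z.1.1) z.2) ?_
    exact ArP.imp (hu8_cdom Primrec.snd) (r2_DD (Primrec.snd.comp Primrec.fst)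
      (hm.comp (Primrec.fst.comp Primrec.fst)) Primrec.snd)

theorem r6_nVer {f : α → ℕ} (hf : Primrec f) : ArP (fun _ W (a : α) => nVer (canon W) (f a)) := by
  refine ArP.or ?_ (ArP.and (ArP.not r6_expop) (r2_eq hf (Primrec.const 0)))
  refine ArP.ex (P := fun _ W (z : α × Tm) => ∃ i0, popC (canon W) z.2 ∧
    (canon W).dat z.2 (qVer i0) ∧ f z.1 = i0 + 1) ?_
  refine ArP.ex (P := fun _ W (z : (α × Tm) × ℕ) => popC (canon W) z.1.2 ∧
    (canon W).dat z.1.2 (qVer z.2) ∧ f z.1.1 = z.2 + 1) ?_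
  exact ArP.and (r6_popC (Primrec.snd.comp Primrec.fst)) (ArP.and
    (hu8_cdat (Primrec.snd.comp Primrec.fst) (r1_qVer Primrec.snd))
    (r2_eq (hf.comp (Primrec.fst.comp Primrec.fst)) (Primrec.succ.comp Primrec.snd)))

theorem r6_nOrg {f : α → ℕ} (hf : Primrec f) : ArP (fun _ W (a : α) => nOrg (canon W) (f a)) := by
  refine ArP.ex (P := fun _ W (z : α × Tm) => ∃ g, popC (canon W) z.2 ∧ orgOf (canon W) z.2 g ∧
    (canon W).eqv g (tmOf (f z.1))) ?_
  refine ArP.ex (P := fun _ W (z : (α × Tm) × Tm) => popC (canon W) z.1.2 ∧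
    orgOf (canon W) z.1.2 z.2 ∧ (canon W).eqv z.2 (tmOf (f z.1.1))) ?_
  exact ArP.and (r6_popC (Primrec.snd.comp Primrec.fst)) (ArP.and
    (r2_orgOf (Primrec.snd.comp Primrec.fst) Primrec.snd)
    (r1_eqv Primrec.snd (r1_tmOf (hf.comp (Primrec.fst.comp Primrec.fst)))))

end

theorem ar_gnode : ArP (fun _ W (x : ℕ × List Bool) => gnode (canon W) x.1 x.2) :=
  r6_gnode Primrec.fst Primrec.snd

theorem ar_newKnow : ArP (fun _ W (x : ℕ × List Bool × ℕ × ℕ × Bool) =>
    newKnow (canon W) x.1 x.2.1 x.2.2.1 x.2.2.2.1 x.2.2.2.2) :=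
  r6_newKnow Primrec.fst (Primrec.fst.comp Primrec.snd)
    (Primrec.fst.comp (Primrec.snd.comp Primrec.snd))
    (Primrec.fst.comp (Primrec.snd.comp (Primrec.snd.comp Primrec.snd)))
    (Primrec.snd.comp (Primrec.snd.comp (Primrec.snd.comp Primrec.snd)))

theorem ar_newSelf (P : LProc) : ArP (fun _ W (x : ℕ × List Bool × ℕ × Bool) =>
    newSelf P (canon W) x.1 x.2.1 x.2.2.1 x.2.2.2) :=
  r6_newSelf P Primrec.fst (Primrec.fst.comp Primrec.snd)
    (Primrec.fst.comp (Primrec.snd.comp Primrec.snd))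
    (Primrec.snd.comp (Primrec.snd.comp Primrec.snd))

theorem ar_ThF (P : LProc) : ArP (fun _ W (q : ℕ) => ThF P (canon W) q) := by
  have t1 : Primrec (fun q : ℕ => q.unpair.1) := Primrec.fst.comp Primrec.unpair
  have t2 : Primrec (fun q : ℕ => q.unpair.2) := Primrec.snd.comp Primrec.unpair
  refine ArP.or (ArP.and (r2_eq t1 (Primrec.const 0)) (ArP.comp ar_raw t2)) ?_
  refine ArP.or (ArP.and (r2_eq t1 (Primrec.const 1)) ?_) ?_
  · refine (ArP.ex (P := fun _ W (z : ℕ × (ℕ × List Bool)) =>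
      z.1.unpair.2 = Encodable.encode z.2 ∧ gnode (canon W) z.2.1 z.2.2) ?_).congr ?_
    · exact ArP.and (r2_eq (t2.comp Primrec.fst) (Primrec.encode.comp Primrec.snd))
        (r6_gnode (Primrec.fst.comp Primrec.snd) (Primrec.snd.comp Primrec.snd))
    · intro y W q
      simp only [Prod.exists]
  refine ArP.or (ArP.and (r2_eq t1 (Primrec.const 2)) ?_) ?_
  · refine (ArP.ex (P := fun _ W (z : ℕ × (ℕ × List Bool × ℕ × ℕ × Bool)) =>
      z.1.unpair.2 = Encodable.encode z.2 ∧ newKnow (canon W) z.2.1 z.2.2.1 z.2.2.2.1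
        z.2.2.2.2.1 z.2.2.2.2.2) ?_).congr ?_
    · exact ArP.and (r2_eq (t2.comp Primrec.fst) (Primrec.encode.comp Primrec.snd))
        (ArP.comp ar_newKnow Primrec.snd)
    · intro y W q
      simp only [Prod.exists]
  refine ArP.or (ArP.and (r2_eq t1 (Primrec.const 3)) ?_) ?_
  · refine (ArP.ex (P := fun _ W (z : ℕ × (ℕ × List Bool × ℕ × Bool)) =>
      z.1.unpair.2 = Encodable.encode z.2 ∧ newSelf P (canon W) z.2.1 z.2.2.1 z.2.2.2.1
        z.2.2.2.2) ?_).congr ?_
    · exact ArP.and (r2_eq (t2.comp Primrec.fst) (Primrec.encode.comp Primrec.snd))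
        (ArP.comp (ar_newSelf P) Primrec.snd)
    · intro y W q
      simp only [Prod.exists]
  refine ArP.or (ArP.and (r2_eq t1 (Primrec.const 4)) (r6_popC (r1_tmOf t2))) ?_
  refine ArP.or (ArP.and (r2_eq t1 (Primrec.const 5)) (r6_nVer t2)) ?_
  refine ArP.or (ArP.and (r2_eq t1 (Primrec.const 6)) (r6_nOrg t2)) ?_
  refine ArP.and (r2_eq t1 (Primrec.const 7)) ?_
  refine ArP.ex (P := fun _ W (z : ℕ × Req) =>
    Encodable.decode (α := Req) z.1.unpair.2 = some z.2 ∧ trueC (canon W) z.2) ?_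
  exact ArP.and (r2_eq (Primrec.decode.comp (t2.comp Primrec.fst))
    (Primrec.option_some.comp Primrec.snd)) (ArP.comp ar_trueC Primrec.snd)

theorem ar_RjF : ArP (fun y W (_ : ℕ) => RjF y (canon W)) := by
  refine ArP.not ?_
  refine ArP.ex (P := fun y W (z : ℕ × ℕ) => ∀ n, gnode (canon W) z.2 (pre y n)) ?_
  refine ArP.all (P := fun y W (z : (ℕ × ℕ) × ℕ) => gnode (canon W) z.1.2 (pre y z.2)) ?_
  refine (ArP.ex (P := fun y W (z : ((ℕ × ℕ) × ℕ) × List Bool) => z.2 = pre y z.1.2 ∧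
    gnode (canon W) z.1.1.2 z.2) ?_).congr ?_
  · refine ArP.and ?_ (r6_gnode (Primrec.snd.comp (Primrec.fst.comp Primrec.fst)) Primrec.snd)
    refine (ArP.and (r2_eq (Primrec.list_length.comp Primrec.snd)
      (Primrec.snd.comp Primrec.fst)) (ArP.all (P := fun y _
        (z : (((ℕ × ℕ) × ℕ) × List Bool) × ℕ) => z.2 < z.1.1.2 →
        (z.1.2[z.2]? = some true ↔ y z.2 = true)) ?_)).congr ?_
    · refine ArP.imp (r2_lt Primrec.snd (Primrec.snd.comp (Primrec.fst.comp Primrec.fst)))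
        (ArP.iff (r2_eq (Primrec.list_getElem?.comp (Primrec.snd.comp Primrec.fst) Primrec.snd)
          (Primrec.const (some true))) (ArP.ory Primrec.snd))
    · intro y W a
      constructor
      · rintro ⟨h1, h2⟩
        apply List.ext_getElem?
        intro i
        rw [getElem?_pre]
        by_cases hi : i < a.1.2
        · rw [if_pos hi]
          have h3 := h2 i hi
          have h4 : i < a.2.length := by rw [h1]; exact hi
          rw [List.getElem?_eq_getElem h4] at h3 ⊢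
          rw [Option.some.injEq] at h3
          cases hy : y i with
          | true => rw [h3.2 hy]
          | false =>
            cases ha : a.2[i] with
            | true => rw [h3.1 ha] at hy; exact absurd hy (by simp)
            | false => rfl
        · rw [if_neg hi]
          exact List.getElem?_eq_none (by omega)
      · intro h
        refine ⟨by rw [h, length_pre], fun i hi => ?_⟩
        show a.2[i]? = some true ↔ y i = true
        rw [h, getElem?_pre, if_pos hi]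
        simp
  · intro y W a
    constructor
    · rintro ⟨u, h, hu⟩
      simp only at h hu
      rw [← h]; exact hu
    · intro h; exact ⟨_, rfl, h⟩

end Pool.Agent.HT
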