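import Pool.Agent.Helper85.HT.Hull
import Pool.Agent.Helper85.HT.FH
import Pool.Agent.Helper85.HT.FT1
import Pool.Agent.Helper85.HT.FT2
import Pool.Agent.Helper85.HT.FP
import Pool.Agent.Helper85.HT.FL
import Pool.Agent.Helper85.HT.FS
import Pool.Agent.Helper85.HT.G1
import Pool.Agent.Helper85.HT.G2
import Pool.Agent.Helper85.HT.G3
import Pool.Agent.Helper85.HT.E1
import Pool.Agent.Helper85.HT.E2
import Pool.Agent.Helper85.HT.E3
import Pool.Agent.Helper85.HT.E4
import Pool.Agent.Helper85.HT.E5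
import Pool.Agent.Helper85.HT.R2
import Pool.Agent.Helper85.HT.R6

set_option autoImplicit false

/-!
# The forcing part: a countable co-semidecidable set on which every local process loops early
-/

namespace Pool.Agent.HT

open Ordinal

section
variable {P : LProc} {V : VT} {D : DT} {ζ σ : Ordinal.{0}}

theorem good_all (F : HullFacts PsF (ThF P) V D ζ σ) : ∀ a < σ, Good P V D a := by
  intro a
  induction a using WellFoundedLT.induction with
  | ind a ih =>
    intro ha
    have hG : ∀ c < a, Good P V D c := fun c hc => ih c hc (hc.trans ha)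
    have hD := datSem F ha
    have hF := fusSem F ha hG
    have hP := good_p F ha hG hD
    have hT := good_t hG hD hF hP
    have hfn := tree_fn hG hD hF hP
    have hcof := live_cof F ha hG
    refine ⟨hT, hP, good_know hG hD hT, good_self hG hD hF hT hfn hcof,
      good_compl F ha hG hD hF hT hfn hcof, ?_, ?_, ?_⟩
    · intro k x hx
      obtain ⟨j, hj⟩ := hfn k
      exact good_gen1 hG hF (fun n => (hj _).1 (hx n))
    · intro k x hx
      obtain ⟨j, hj⟩ := hfn k
      exact good_gen0 hG hF hcof (fun n => (hj _).1 (hx n))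
    · intro hl k x hx m
      obtain ⟨j, hj⟩ := hfn k
      rcases good_deci hF hl (fun n => (hj _).1 (hx n)) m with
        ⟨p, n, h1, h2, -, -, h3⟩ | ⟨p, n, h1, h2, -, -, h3⟩
      · exact Or.inl ⟨p, h1, h2, h3⟩
      · exact Or.inr ⟨p, h1, h2, h3⟩

end

theorem thF_tree (P : LProc) (C : HS) (k : ℕ) (u : List Bool) :
    ThF P C (qTree k u) ↔ gnode C k u := by
  unfold ThF qTree
  simp only [Nat.unpair_pair]
  constructor
  · rintro (⟨h, -⟩ | ⟨-, k', w', h, h'⟩ | ⟨h, -⟩ | ⟨h, -⟩ | ⟨h, -⟩ | ⟨h, -⟩ | ⟨h, -⟩ | ⟨h, -⟩)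
    · omega
    · have := Encodable.encode_injective h
      rw [Prod.mk.injEq] at this
      rw [this.1, this.2]; exact h'
    all_goals omega
  · intro h
    exact Or.inr (Or.inl ⟨trivial, k, u, rfl, h⟩)

theorem forc (P : LProc) : ∃ G : Cantor → Cantor → Cantor, ArOp G ∧
    {y | ∀ ν, titer (G y) ν 0 = false}.Nonempty ∧
    {y | ∀ ν, titer (G y) ν 0 = false}.Countable ∧
    ∃ σ : Ordinal.{0}, σ < ω₁ ∧ ∀ x ∈ {y | ∀ ν, titer (G y) ν 0 = false},
      (∀ b, ∃ b' < σ, titer (Loc P x) b = titer (Loc P x) b') ∧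
      ∀ b < σ, ∀ m, ∃ r : Set Cantor, ¬ r.Countable ∧
        ∀ x' ∈ r, titer (Loc P x') b m = titer (Loc P x) b m := by
  obtain ⟨V, D, ζ, σ, F⟩ := hull_exists (hullHyp_F P)
  have hG := good_all F
  obtain ⟨β, h0, hm, hβ, hp, hv, ho, hc⟩ := e_chain F hG
  obtain ⟨x, hx, hy⟩ := e_pts F hG hm hβ hp hv hc
  have key : ∀ y, (∀ ν, titer (HOpR PsF (ThF P) RjF y) ν 0 = false) ↔ ∃ k, y = x k := by
    intro y
    rw [hopR_zero, ← hy y]
    have e : ∀ b < σ, RjF y (Cst PsF (ThF P) b) ↔ ¬ ∃ k, y ∈ TB D b k := by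
      intro b hb
      unfold RjF TB
      simp only [Set.mem_ofPred_eq, F.hD, thF_tree]
    constructor
    · intro h b hb
      have := h b
      rw [e b hb] at this
      exact not_not.1 this
    · intro h b
      obtain ⟨b', hb', e'⟩ := F.loop b
      rw [← e', e b' hb']
      exact not_not.2 (h b' hb')
  have hX : {y | ∀ ν, titer (HOpR PsF (ThF P) RjF y) ν 0 = false} = Set.range x := by
    ext y
    rw [Set.mem_ofPred_eq, key y]
    constructor
    · rintro ⟨k, rfl⟩; exact ⟨k, rfl⟩
    · rintro ⟨k, rfl⟩; exact ⟨k, rfl⟩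
  refine ⟨HOpR PsF (ThF P) RjF, arOp_HOpR ar_PsF (ar_ThF P) ar_RjF, ?_, ?_, σ, F.ctble, ?_⟩
  · rw [hX]; exact ⟨x 0, 0, rfl⟩
  · rw [hX]; exact Set.countable_range x
  · rw [hX]
    rintro _ ⟨k, rfl⟩
    obtain ⟨h1, h2⟩ := e_bits F hG h0 hm hβ hp hv ho hc (hx k)
    refine ⟨fun b => ?_, fun b hb m => ?_⟩
    · obtain ⟨b', hb', e⟩ := loop_lemma _ F.lt F.limσ h1 h2 b
      exact ⟨b', hb', e.symm⟩
    · obtain ⟨i, hi⟩ := hc b hb
      obtain ⟨n, v, hn⟩ := (hG _ (hβ i)).b.compl k (x k) (hx k i) b hi.le m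
      have hT := (hG _ (hβ i)).t
      refine ⟨{x' | (∀ n, D (β i) (qTree k (pre x' n))) ∧ ∃ n', pre (x k) n = pre x' n'}, ?_, ?_⟩
      · exact tree_uncountable _ (hT.pref k) (hT.split k) (hx k i n)
      · have hs : ∀ x', (∀ n, D (β i) (qTree k (pre x' n))) → (∃ n', pre (x k) n = pre x' n') →
            Bs P x' b m = v := by
          intro x' h3 h4
          obtain ⟨⟨c, k'⟩, hxe, w0, hw0, h5⟩ := hn
          simp only [Option.some.injEq, Prod.mk.injEq] at hxe
          obtain ⟨hxe1, hxe2⟩ := hxe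
          subst hxe1; subst hxe2
          have hw : ∃ n, w0 = pre x' n := by
            obtain ⟨n', h4⟩ := h4
            simp only [h4] at hw0
            refine ⟨w0.length, ?_⟩
            obtain ⟨t, ht⟩ := hw0
            have hl : w0.length ≤ n' := by
              have := congrArg List.length ht
              rw [List.length_append, length_pre] at this
              omega
            have : w0 = (pre x' n').take w0.length := by rw [← ht]; simp
            rw [this]
            unfold pre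
            rw [← List.map_take, List.take_range]
            simp [hl]
          rcases h5 with ⟨l, h5, h6⟩ | ⟨h5, h6⟩
          · exact (hG _ (hβ i)).b.know k w0 l m v b h5 h6 x' h3 hw
          · rw [← h5]; exact (hG _ (hβ i)).b.self k w0 m v h6 x' h3 hw
        intro x' hx'
        have e1 := hs x' hx'.1 hx'.2
        have e2 := hs (x k) (hx k i) ⟨n, rfl⟩
        unfold Bs at e1 e2
        rw [e1, e2]

end Pool.Agent.HT
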