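import Pool.Agent.Helper85.HT.HullDefs

set_option autoImplicit false

/-!
# HU1 : the recursion for the values (arbitrary `kO`, `kT`)
-/

namespace Pool.Agent.HT

open Ordinal

theorem vv_zero (kO kT : Ordinal.{0} → Tm → Prop) (s : Tm) : VV kO kT 0 s = none := by
  unfold VV
  rw [Ordinal.limitRecOn_zero]

theorem vv_succ (kO kT : Ordinal.{0} → Tm → Prop) (b : Ordinal.{0}) :
    VV kO kT (b + 1) = nextV (kO b) (kT b) b (VV kO kT b) := by
  unfold VV
  rw [Ordinal.limitRecOn_add_one]

theorem hu1_limit (kO kT : Ordinal.{0} → Tm → Prop) {b : Ordinal.{0}} (hb : Order.IsSuccLimit b) :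
    VV kO kT b = limV b (fun c _ => VV kO kT c) := by
  conv_lhs => unfold VV
  rw [Ordinal.limitRecOn_limit _ _ _ _ hb]
  rfl

theorem vv_limit (kO kT : Ordinal.{0} → Tm → Prop) {b : Ordinal.{0}} (hb : Order.IsSuccLimit b)
    (s : Tm) (a : Ordinal.{0}) : VV kO kT b s = some a ↔ ∃ c0 < b, VV kO kT c0 s = some a ∧
      ∀ c, c0 ≤ c → c < b → ∀ t, t <:+ s →
        (VV kO kT c t).isSome ∧ VV kO kT c t = VV kO kT c0 t := by
  rw [hu1_limit kO kT hb]
  unfold limV
  constructor
  · intro h
    split_ifs at h with h'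
    have hc := Classical.choose_spec h'
    rw [Option.some_inj] at h
    rw [h] at hc
    obtain ⟨c0, h0, h1, h2⟩ := hc
    exact ⟨c0, h0, h1, fun c h3 h4 t ht => h2 c h4 h3 t ht⟩
  · rintro ⟨c0, h0, h1, h2⟩
    have h' : ∃ a, ∃ c0, ∃ h0 : c0 < b, VV kO kT c0 s = some a ∧
        ∀ c (hc : c < b), c0 ≤ c → ∀ t, t <:+ s → (VV kO kT c t).isSome ∧
          VV kO kT c t = VV kO kT c0 t :=
      ⟨a, c0, h0, h1, fun c h3 h4 t ht => h2 c h4 h3 t ht⟩
    rw [dif_pos h', Option.some_inj]
    obtain ⟨c1, g0, g1, g2⟩ := Classical.choose_spec h'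
    have e1 := (h2 (max c0 c1) (le_max_left _ _) (max_lt h0 g0) s List.suffix_rfl).2
    have e2 := (g2 (max c0 c1) (max_lt h0 g0) (le_max_right _ _) s List.suffix_rfl).2
    rw [e1, h1, g1, Option.some_inj] at e2
    exact e2.symm

theorem hu1_ind {p : Ordinal.{0} → Prop} (b : Ordinal.{0}) (h0 : p 0) (h1 : ∀ b, p b → p (b + 1))
    (h2 : ∀ b, Order.IsSuccLimit b → (∀ c < b, p c) → p b) : p b :=
  Ordinal.limitRecOn b h0 (fun b hb => h1 b hb) (fun b hb h => h2 b hb h)

theorem vv_bd (kO kT : Ordinal.{0} → Tm → Prop) {b : Ordinal.{0}} {s : Tm} {a : Ordinal.{0}}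
    (h : VV kO kT b s = some a) : a < b := by
  revert s a
  refine hu1_ind (p := fun b => ∀ {s : Tm} {a : Ordinal.{0}}, VV kO kT b s = some a → a < b) b
    ?_ ?_ ?_
  · intro s a h
    rw [vv_zero] at h
    exact absurd h (by simp)
  · intro b ih s a h
    rw [vv_succ] at h
    unfold nextV at h
    have hlt : b < b + 1 := Order.lt_add_one_iff.2 le_rfl
    split_ifs at h with h1 h2
    · exact (ih h).trans hlt
    · cases ht : topTgt s with
      | none =>
        rw [ht] at h
        simp only [Option.some_inj] at h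
        rw [← h]
        exact hlt
      | some s' =>
        rw [ht] at h
        exact (ih h).trans hlt
  · intro b hb ih s a h
    rw [vv_limit kO kT hb] at h
    obtain ⟨c0, h0, h1, -⟩ := h
    exact (ih c0 h0 h1).trans h0

theorem hu1_base_even (n : ℕ) (s : Tm) : base ((2 * n) :: s) = base s := by
  simp [base]

theorem hu1_topTgt_even (n : ℕ) (s : Tm) : topTgt ((2 * n) :: s) =
    (match topTgt s with
      | none => some (tmOf n)
      | some s' => some ((2 * n) :: s')) := by
  have h : 2 * n / 2 = n := by omega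
  rw [topTgt, if_pos (by omega), h]
  cases topTgt s <;> rfl

theorem hu1_base_odd {r : Tm} (hr : oddHead r) : base r = r := by
  obtain ⟨n, t, rfl⟩ := hr
  rw [base, if_neg (by omega)]

theorem hu1_topTgt_odd {r : Tm} (hr : oddHead r) : topTgt r = none := by
  obtain ⟨n, t, rfl⟩ := hr
  rw [topTgt, if_neg (by omega)]

theorem vv_sub (kO kT : Ordinal.{0} → Tm → Prop) (b : Ordinal.{0}) (n : ℕ) (s : Tm) :
    VV kO kT b ((2 * n) :: s) = (VV kO kT b s).bind (fun a => VV kO kT a (tmOf n)) := by
  revert n s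
  refine hu1_ind (p := fun b => ∀ (n : ℕ) (s : Tm), VV kO kT b ((2 * n) :: s) =
    (VV kO kT b s).bind (fun a => VV kO kT a (tmOf n))) b ?_ ?_ ?_
  · intro n s
    rw [vv_zero, vv_zero, Option.bind_none]
  · intro b ih n s
    rw [vv_succ]
    unfold nextV
    rw [hu1_base_even]
    by_cases h1 : kO b (base s)
    · rw [if_pos h1, if_pos h1]
      exact ih n s
    · rw [if_neg h1, if_neg h1]
      by_cases h2 : kT b (base s)
      · rw [if_pos h2, if_pos h2, hu1_topTgt_even]
        cases ht : topTgt s with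
        | none => rfl
        | some s' => exact ih n s'
      · rw [if_neg h2, if_neg h2]
        rfl
  · intro b hb ih n s
    refine Option.ext fun a' => ?_
    rw [Option.bind_eq_some_iff]
    constructor
    · intro h
      obtain ⟨c0, h0, h1, h2⟩ := (vv_limit kO kT hb _ _).1 h
      obtain ⟨a, ha⟩ := Option.isSome_iff_exists.1
        (h2 c0 le_rfl h0 s (List.suffix_cons _ _)).1
      refine ⟨a, (vv_limit kO kT hb _ _).2 ⟨c0, h0, ha, fun c h3 h4 t ht =>
        h2 c h3 h4 t (ht.trans (List.suffix_cons _ _))⟩, ?_⟩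
      rw [ih c0 h0 n s, ha] at h1
      exact h1
    · rintro ⟨a, ha, ha'⟩
      obtain ⟨c0, h0, h1, h2⟩ := (vv_limit kO kT hb _ _).1 ha
      have key : ∀ c, c0 ≤ c → c < b → VV kO kT c ((2 * n) :: s) = some a' := by
        intro c h3 h4
        rw [ih c h4 n s, (h2 c h3 h4 s List.suffix_rfl).2, h1]
        exact ha'
      refine (vv_limit kO kT hb _ _).2 ⟨c0, h0, key c0 le_rfl h0, fun c h3 h4 t ht => ?_⟩
      rcases List.suffix_cons_iff.1 ht with rfl | ht
      · rw [key c h3 h4, key c0 le_rfl h0]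
        exact ⟨rfl, rfl⟩
      · exact h2 c h3 h4 t ht

theorem vv_odd (kO kT : Ordinal.{0} → Tm → Prop) {r : Tm} (hr : oddHead r) {b u : Ordinal.{0}}
    (h : VV kO kT b r = some u) : ∀ b', u < b' → b' ≤ b → VV kO kT b' r = some u := by
  revert h
  refine hu1_ind (p := fun b => VV kO kT b r = some u →
    ∀ b', u < b' → b' ≤ b → VV kO kT b' r = some u) b ?_ ?_ ?_
  · intro h
    rw [vv_zero] at h
    exact absurd h (by simp)
  · intro b ih h b' h1 h2
    rcases h2.lt_or_eq with h3 | h3
    · have h4 : b' ≤ b := Order.lt_add_one_iff.1 h3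
      rw [vv_succ] at h
      simp only [nextV, hu1_base_odd hr, hu1_topTgt_odd hr] at h
      split_ifs at h with g1 g2
      · exact ih h b' h1 h4
      · rw [Option.some_inj] at h
        rw [← h] at h1
        exact absurd h4 (not_le.2 h1)
    · rw [h3]
      exact h
  · intro b hb ih h b' h1 h2
    rcases h2.lt_or_eq with h3 | h3
    · obtain ⟨c0, h0, g1, g2⟩ := (vv_limit kO kT hb _ _).1 h
      have h4 : VV kO kT (max c0 b') r = some u := by
        rw [(g2 (max c0 b') (le_max_left _ _) (max_lt h0 h3) r List.suffix_rfl).2, g1]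
      exact ih (max c0 b') (max_lt h0 h3) h4 b' h1 (le_max_right _ _)
    · rw [h3]
      exact h

end Pool.Agent.HT
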