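import Pool.Agent.Helper85.HT.HU1

set_option autoImplicit false

/-!
# HU2 : the machine represents the values
-/

namespace Pool.Agent.HT

open Ordinal

variable {Ps : HS → ℕ → Tm → Tm → Prop} {Th : HS → ℕ → Prop}

theorem hu2_tmOf (s : Tm) : tmOf (Encodable.encode s) = s := by
  unfold tmOf; exact Denumerable.ofNat_encode s

/-! ### the cells of the next state -/

theorem hu2_bit (W : Cantor) (t a : ℕ) :
    HOp Ps Th W (Nat.pair t a) = true ↔ hBit Ps Th W t a := by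
  unfold HOp
  simp only [decide_eq_true_eq, Nat.unpair_pair]

theorem hu2_dom (W : Cantor) (s : Tm) : HOp Ps Th W (hDom s) = true ↔ nDom Ps (canon W) s := by
  unfold hDom
  rw [hu2_bit]
  simp [hBit, hu2_tmOf]

theorem hu2_lt (W : Cantor) (s t : Tm) :
    HOp Ps Th W (hLt s t) = true ↔ nLt Ps (canon W) s t := by
  unfold hLt
  rw [hu2_bit]
  simp [hBit, hu2_tmOf]

theorem hu2_dat (W : Cantor) (s : Tm) (q : ℕ) :
    HOp Ps Th W (hDat s q) = true ↔ nDat Ps Th (canon W) s q := by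
  unfold hDat
  rw [hu2_bit]
  simp [hBit, hu2_tmOf]

theorem hu2_flag (W : Cantor) (s : Tm) :
    HOp Ps Th W (hFlag s) = true ↔ nFlag Ps (canon W) s := by
  unfold hFlag
  rw [hu2_bit]
  simp [hBit, hu2_tmOf]

theorem hu2_par0 (W : Cantor) : HOp Ps Th W (hPar 0) = true ↔
    ¬ (W (hPar 0) = true ∧ W (hPar 1) = false) := by
  have h := hu2_bit (Ps := Ps) (Th := Th) W 5 0
  change HOp Ps Th W (Nat.pair 5 0) = true ↔ _
  rw [h]
  simp [hBit]

theorem hu2_par1 (W : Cantor) : HOp Ps Th W (hPar 1) = true ↔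
    (W (hPar 0) = true ∧ W (hPar 1) = false) := by
  have h := hu2_bit (Ps := Ps) (Th := Th) W 5 1
  change HOp Ps Th W (Nat.pair 5 1) = true ↔ _
  rw [h]
  simp [hBit]

/-! ### parity cells -/

theorem hu2_succ_par (b : Ordinal.{0}) :
    (titer (HOp Ps Th) (b + 1) (hPar 0) = true ∧ titer (HOp Ps Th) (b + 1) (hPar 1) = false) ∨
    (titer (HOp Ps Th) (b + 1) (hPar 0) = false ∧ titer (HOp Ps Th) (b + 1) (hPar 1) = true) := by
  rw [titer_add_one]
  have h0 := hu2_par0 (Ps := Ps) (Th := Th) (titer (HOp Ps Th) b)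
  have h1 := hu2_par1 (Ps := Ps) (Th := Th) (titer (HOp Ps Th) b)
  by_cases hX : (titer (HOp Ps Th) b (hPar 0) = true ∧ titer (HOp Ps Th) b (hPar 1) = false)
  · right
    refine ⟨?_, h1.2 hX⟩
    rw [← Bool.not_eq_true, h0]
    exact fun h => h hX
  · left
    refine ⟨h0.2 hX, ?_⟩
    rw [← Bool.not_eq_true, h1]
    exact hX

theorem hu2_succ_not_lim (b : Ordinal.{0}) : ¬ hLim (titer (HOp Ps Th) (b + 1)) := by
  rintro ⟨h0, h1⟩
  rcases hu2_succ_par (Ps := Ps) (Th := Th) b with ⟨h2, h3⟩ | ⟨h2, h3⟩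
  · rw [h1] at h3; exact Bool.noConfusion h3
  · rw [h0] at h2; exact Bool.noConfusion h2

theorem hu2_alt (b : Ordinal.{0}) (i : ℕ) (hi : i = 0 ∨ i = 1) :
    titer (HOp Ps Th) (b + 1) (hPar i) = true ∨
      titer (HOp Ps Th) (b + 1 + 1) (hPar i) = true := by
  have h0 := hu2_par0 (Ps := Ps) (Th := Th) (titer (HOp Ps Th) (b + 1))
  have h1 := hu2_par1 (Ps := Ps) (Th := Th) (titer (HOp Ps Th) (b + 1))
  rw [← titer_add_one (HOp Ps Th)] at h0 h1
  rcases hu2_succ_par (Ps := Ps) (Th := Th) b with ⟨h2, h3⟩ | ⟨h2, h3⟩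
  · rcases hi with rfl | rfl
    · exact Or.inl h2
    · exact Or.inr (h1.2 ⟨h2, h3⟩)
  · rcases hi with rfl | rfl
    · refine Or.inr (h0.2 ?_)
      rintro ⟨h4, -⟩
      rw [h2] at h4; exact Bool.noConfusion h4
    · exact Or.inl h3

theorem hu2_lim {b : Ordinal.{0}} (hb : Order.IsSuccLimit b) :
    hLim (titer (HOp Ps Th) b) := by
  have key : ∀ i, i = 0 ∨ i = 1 → titer (HOp Ps Th) b (hPar i) = true := by
    intro i hi
    rw [titer_limit _ hb]
    intro a ha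
    have h1 : a + 1 < b := hb.add_one_lt ha
    have h2 : a + 1 + 1 < b := hb.add_one_lt h1
    rcases hu2_alt (Ps := Ps) (Th := Th) a i hi with h | h
    · exact ⟨a + 1, le_self_add, h1, h⟩
    · exact ⟨a + 1 + 1, le_trans le_self_add le_self_add, h2, h⟩
  exact ⟨key 0 (Or.inl rfl), key 1 (Or.inr rfl)⟩

/-! ### a cell whose value at successor stages is eventually constant -/

theorem hu2_limit_cell (F : Cantor → Cantor) {b : Ordinal.{0}} (hb : Order.IsSuccLimit b) (m : ℕ)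
    {c0 : Ordinal.{0}} (h0 : c0 < b) (P : Prop)
    (h : ∀ c, c0 ≤ c → c < b → (titer F (c + 1) m = true ↔ P)) :
    titer F b m = true ↔ P := by
  by_cases hP : P
  · refine ⟨fun _ => hP, fun _ => ?_⟩
    rw [titer_limit _ hb]
    intro a ha
    refine ⟨max a c0 + 1, (le_max_left _ _).trans le_self_add, hb.add_one_lt (max_lt ha h0), ?_⟩
    exact (h _ (le_max_right _ _) (max_lt ha h0)).2 hP
  · refine ⟨fun h1 => ?_, fun h1 => absurd h1 hP⟩
    have key : ∀ c, c0 + 1 ≤ c → c < b → titer F c m = false := by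
      intro c
      induction c using WellFoundedLT.induction with
      | ind c ih =>
      intro h2 h3
      rcases Ordinal.zero_or_succ_or_isSuccLimit c with h4 | ⟨c', h4⟩ | h4
      · rw [h4] at h2
        exact absurd h2 (not_le.2 (lt_of_le_of_lt zero_le (Order.lt_add_one_iff.2 le_rfl)))
      · rw [Order.succ_eq_add_one] at h4
        subst h4
        have h5 : c0 ≤ c' := by
          have := Order.add_one_le_iff.1 h2
          exact Order.lt_add_one_iff.1 this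
        have h6 : c' < b := (Order.lt_add_one_iff.2 le_rfl).trans h3
        rw [← Bool.not_eq_true, h c' h5 h6]
        exact hP
      · rw [titer_limit_false _ h4]
        have h5 : c0 + 1 < c := h4.add_one_lt (Order.add_one_le_iff.1 h2)
        exact ⟨c0 + 1, h5, fun c' h6 h7 => ih c' h7 h6 (h7.trans h3)⟩
    have : titer F b m = false :=
      (titer_limit_false F hb m).2 ⟨c0 + 1, hb.add_one_lt h0, key⟩
    rw [this] at h1
    exact Bool.noConfusion h1

/-! ### representation at a stage -/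

/-- the canonical state at stage `b` represents the values at stage `b` -/
def HU2Rep (Ps : HS → ℕ → Tm → Tm → Prop) (Th : HS → ℕ → Prop) (b : Ordinal.{0}) : Prop :=
  (∀ s, (Cst Ps Th b).dom s ↔ ∃ a, Vh Ps Th b s = some a) ∧
  (∀ s t, (Cst Ps Th b).lt s t ↔
    ∃ a a', Vh Ps Th b s = some a ∧ Vh Ps Th b t = some a' ∧ a < a') ∧
  (∀ s q, (Cst Ps Th b).dat s q ↔ ∃ a, Vh Ps Th b s = some a ∧ Dh Ps Th a q)

theorem hu2_excl {C : HS} {r : Tm} (h1 : kOld Ps C r) (h2 : kTop Ps C r) : False := by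
  rcases h1 with ⟨h1, h3⟩ | ⟨n, t, h1, h3, h4, h5⟩
  · rcases h2 with ⟨_, h4⟩ | ⟨n, t, h4, _⟩
    · exact h4 h3
    · rw [h1] at h4; exact absurd h4 (by simp)
  · rcases h2 with ⟨h6, _⟩ | ⟨n', t', h6, h7, h8⟩
    · rw [h6] at h1; exact absurd h1 (by simp)
    · rw [h1] at h6
      have e := List.cons.inj h6
      have e1 : n = n' := by omega
      have e2 := e.2
      subst e1; subst e2
      exact h8 ⟨h4, h5⟩

theorem hu2_vsucc (b : Ordinal.{0}) : Vh Ps Th (b + 1) =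
    nextV (kOld Ps (Cst Ps Th b)) (kTop Ps (Cst Ps Th b)) b (Vh Ps Th b) := by
  unfold Vh
  rw [vv_succ]

theorem hu2_pTop {b : Ordinal.{0}} {s : Tm} (h : pTop Ps (Cst Ps Th b) s) :
    Vh Ps Th (b + 1) s = some b := by
  obtain ⟨h1, h2⟩ := h
  rw [hu2_vsucc]
  unfold nextV
  rw [if_neg (fun h => hu2_excl h h1), if_pos h1, h2]

theorem hu2_pOld {b : Ordinal.{0}} {s s' : Tm} (h : pOld Ps (Cst Ps Th b) s s') :
    Vh Ps Th (b + 1) s = Vh Ps Th b s' ∧ (Cst Ps Th b).dom s' := by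
  rw [hu2_vsucc]
  unfold nextV
  rcases h with ⟨h1, h2, h3⟩ | ⟨h1, h2, h3⟩
  · rw [if_pos h1, h3]
    exact ⟨rfl, h2⟩
  · rw [if_neg (fun h => hu2_excl h h1), if_pos h1, h2]
    exact ⟨rfl, h3⟩

theorem hu2_val {b : Ordinal.{0}} (ih : HU2Rep Ps Th b) {s : Tm} {a : Ordinal.{0}}
    (h : Vh Ps Th (b + 1) s = some a) : (pTop Ps (Cst Ps Th b) s ∧ a = b) ∨
      ∃ s', pOld Ps (Cst Ps Th b) s s' ∧ Vh Ps Th b s' = some a := by
  rw [hu2_vsucc] at h
  unfold nextV at h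
  split_ifs at h with h1 h2
  · exact Or.inr ⟨s, Or.inl ⟨h1, (ih.1 s).2 ⟨a, h⟩, rfl⟩, h⟩
  · cases ht : topTgt s with
    | none =>
      rw [ht] at h
      simp only [Option.some_inj] at h
      exact Or.inl ⟨⟨h2, ht⟩, h.symm⟩
    | some s' =>
      rw [ht] at h
      exact Or.inr ⟨s', Or.inr ⟨h2, ht, (ih.1 s').2 ⟨a, h⟩⟩, h⟩

theorem hu2_bd {b : Ordinal.{0}} {s : Tm} {a : Ordinal.{0}} (h : Vh Ps Th b s = some a) : a < b :=
  vv_bd _ _ h

theorem hu2_nDom {b : Ordinal.{0}} (ih : HU2Rep Ps Th b) (s : Tm) :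
    nDom Ps (Cst Ps Th b) s ↔ ∃ a, Vh Ps Th (b + 1) s = some a := by
  constructor
  · rintro (h | ⟨s', h⟩)
    · exact ⟨b, hu2_pTop h⟩
    · obtain ⟨h1, h2⟩ := hu2_pOld h
      obtain ⟨a, ha⟩ := (ih.1 s').1 h2
      exact ⟨a, h1.trans ha⟩
  · rintro ⟨a, ha⟩
    rcases hu2_val ih ha with ⟨h, _⟩ | ⟨s', h, _⟩
    · exact Or.inl h
    · exact Or.inr ⟨s', h⟩

theorem hu2_nLt {b : Ordinal.{0}} (ih : HU2Rep Ps Th b) (s t : Tm) :
    nLt Ps (Cst Ps Th b) s t ↔
      ∃ a a', Vh Ps Th (b + 1) s = some a ∧ Vh Ps Th (b + 1) t = some a' ∧ a < a' := by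
  constructor
  · rintro ⟨s', h1, h2⟩
    obtain ⟨h3, h4⟩ := hu2_pOld h1
    obtain ⟨a, ha⟩ := (ih.1 s').1 h4
    rcases h2 with h2 | ⟨t', h2, h5⟩
    · exact ⟨a, b, h3.trans ha, hu2_pTop h2, hu2_bd ha⟩
    · obtain ⟨a1, a2, h6, h7, h8⟩ := (ih.2.1 s' t').1 h5
      exact ⟨a1, a2, h3.trans h6, (hu2_pOld h2).1.trans h7, h8⟩
  · rintro ⟨a, a', ha, ha', haa⟩
    have h1 : a' ≤ b := Order.lt_add_one_iff.1 (hu2_bd ha')
    rcases hu2_val ih ha with ⟨_, h⟩ | ⟨s', h, h2⟩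
    · rw [h] at haa
      exact absurd h1 (not_le.2 haa)
    · refine ⟨s', h, ?_⟩
      rcases hu2_val ih ha' with ⟨h3, _⟩ | ⟨t', h3, h4⟩
      · exact Or.inl h3
      · exact Or.inr ⟨t', h3, (ih.2.1 s' t').2 ⟨a, a', h2, h4, haa⟩⟩

theorem hu2_nDat {b : Ordinal.{0}} (ih : HU2Rep Ps Th b) (s : Tm) (q : ℕ) :
    nDat Ps Th (Cst Ps Th b) s q ↔ ∃ a, Vh Ps Th (b + 1) s = some a ∧ Dh Ps Th a q := by
  constructor
  · rintro (⟨h, h1⟩ | ⟨s', h, h1⟩)
    · exact ⟨b, hu2_pTop h, h1⟩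
    · obtain ⟨a, ha, h2⟩ := (ih.2.2 s' q).1 h1
      exact ⟨a, (hu2_pOld h).1.trans ha, h2⟩
  · rintro ⟨a, ha, h1⟩
    rcases hu2_val ih ha with ⟨h, h2⟩ | ⟨s', h, h2⟩
    · subst h2
      exact Or.inl ⟨h, h1⟩
    · exact Or.inr ⟨s', h, (ih.2.2 s' q).2 ⟨a, h2, h1⟩⟩

theorem hu2_nFlag {b : Ordinal.{0}} (ih : HU2Rep Ps Th b) (s : Tm) :
    ¬ nFlag Ps (Cst Ps Th b) s ↔
      ∃ a, Vh Ps Th b s = some a ∧ Vh Ps Th (b + 1) s = some a := by
  unfold nFlag
  rw [not_not]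
  constructor
  · rintro ⟨s', h1, h2, h3, h4, h5⟩
    obtain ⟨a, ha⟩ := (ih.1 s).1 h2
    obtain ⟨a', ha'⟩ := (ih.1 s').1 h3
    have e : a = a' := by
      refine le_antisymm ?_ ?_
      · by_contra h
        exact h5 ((ih.2.1 s' s).2 ⟨a', a, ha', ha, not_le.1 h⟩)
      · by_contra h
        exact h4 ((ih.2.1 s s').2 ⟨a, a', ha, ha', not_le.1 h⟩)
    exact ⟨a, ha, by rw [(hu2_pOld h1).1, ha', e]⟩
  · rintro ⟨a, ha, h1⟩
    rcases hu2_val ih h1 with ⟨_, h2⟩ | ⟨s', h, h2⟩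
    · have := hu2_bd ha
      rw [h2] at this
      exact absurd this (lt_irrefl _)
    · refine ⟨s', h, (ih.1 s).2 ⟨a, ha⟩, (ih.1 s').2 ⟨a, h2⟩, ?_, ?_⟩
      · intro h3
        obtain ⟨a1, a2, h4, h5, h6⟩ := (ih.2.1 s s').1 h3
        rw [ha, Option.some_inj] at h4
        rw [h2, Option.some_inj] at h5
        rw [← h4, ← h5] at h6
        exact absurd h6 (lt_irrefl _)
      · intro h3
        obtain ⟨a1, a2, h4, h5, h6⟩ := (ih.2.1 s' s).1 h3
        rw [h2, Option.some_inj] at h4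
        rw [ha, Option.some_inj] at h5
        rw [← h4, ← h5] at h6
        exact absurd h6 (lt_irrefl _)

/-! raw cells at successor stages -/

theorem hu2_cell_lt {b : Ordinal.{0}} (ih : HU2Rep Ps Th b) (s t : Tm) :
    titer (HOp Ps Th) (b + 1) (hLt s t) = true ↔
      ∃ a a', Vh Ps Th (b + 1) s = some a ∧ Vh Ps Th (b + 1) t = some a' ∧ a < a' := by
  rw [titer_add_one, hu2_lt]
  exact hu2_nLt ih s t

theorem hu2_cell_dat {b : Ordinal.{0}} (ih : HU2Rep Ps Th b) (s : Tm) (q : ℕ) :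
    titer (HOp Ps Th) (b + 1) (hDat s q) = true ↔
      ∃ a, Vh Ps Th (b + 1) s = some a ∧ Dh Ps Th a q := by
  rw [titer_add_one, hu2_dat]
  exact hu2_nDat ih s q

theorem hu2_cell_flag {b : Ordinal.{0}} (ih : HU2Rep Ps Th b) (s : Tm) :
    titer (HOp Ps Th) (b + 1) (hFlag s) = false ↔
      ∃ a, Vh Ps Th b s = some a ∧ Vh Ps Th (b + 1) s = some a := by
  rw [titer_add_one, ← Bool.not_eq_true, hu2_flag]
  exact hu2_nFlag ih s

theorem hu2_zero : HU2Rep Ps Th 0 := by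
  have hW : titer (HOp Ps Th) 0 = fun _ => false := titer_zero _
  have hV : ∀ s, Vh Ps Th 0 s = none := fun s => vv_zero _ _ s
  have hL : ¬ hLim (titer (HOp Ps Th) 0) := by
    rw [hW]
    rintro ⟨h, _⟩
    exact Bool.noConfusion h
  refine ⟨fun s => ?_, fun s t => ?_, fun s q => ?_⟩
  · constructor
    · rintro (⟨h, _⟩ | ⟨_, h⟩)
      · exact absurd h hL
      · rw [hW] at h; exact Bool.noConfusion h
    · rintro ⟨a, ha⟩
      rw [hV] at ha; exact absurd ha (by simp)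
  · constructor
    · rintro ⟨h, _⟩
      rw [hW] at h; exact Bool.noConfusion h
    · rintro ⟨a, a', ha, _⟩
      rw [hV] at ha; exact absurd ha (by simp)
  · constructor
    · rintro ⟨h, _⟩
      rw [hW] at h; exact Bool.noConfusion h
    · rintro ⟨a, ha, _⟩
      rw [hV] at ha; exact absurd ha (by simp)

theorem hu2_succ {b : Ordinal.{0}} (ih : HU2Rep Ps Th b) : HU2Rep Ps Th (b + 1) := by
  have hL := hu2_succ_not_lim (Ps := Ps) (Th := Th) b
  refine ⟨fun s => ?_, fun s t => ?_, fun s q => ?_⟩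
  · rw [← hu2_nDom ih s]
    constructor
    · rintro (⟨h, _⟩ | ⟨_, h⟩)
      · exact absurd h hL
      · rw [titer_add_one, hu2_dom] at h
        exact h
    · intro h
      refine Or.inr ⟨hL, ?_⟩
      rw [titer_add_one, hu2_dom]
      exact h
  · rw [← hu2_cell_lt ih s t]
    exact ⟨fun h => h.1, fun h => ⟨h, fun h1 => absurd h1 hL⟩⟩
  · rw [← hu2_cell_dat ih s q]
    exact ⟨fun h => h.1, fun h => ⟨h, fun h1 => absurd h1 hL⟩⟩

theorem hu2_flags_ev {b : Ordinal.{0}} (hb : Order.IsSuccLimit b) (s : Tm)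
    (h : ∀ t, t <:+ s → titer (HOp Ps Th) b (hFlag t) = false) :
    ∃ d < b, ∀ t, t <:+ s → ∀ c, d ≤ c → c < b → titer (HOp Ps Th) c (hFlag t) = false := by
  induction s with
  | nil =>
    obtain ⟨d, hd, h1⟩ := (titer_limit_false _ hb _).1 (h [] List.suffix_rfl)
    refine ⟨d, hd, fun t ht c hc hcb => ?_⟩
    rw [List.suffix_nil.1 ht]
    exact h1 c hc hcb
  | cons e s ih =>
    obtain ⟨d1, hd1, h1⟩ := ih (fun t ht => h t (ht.trans (List.suffix_cons _ _)))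
    obtain ⟨d2, hd2, h2⟩ := (titer_limit_false _ hb _).1 (h (e :: s) List.suffix_rfl)
    refine ⟨max d1 d2, max_lt hd1 hd2, fun t ht c hc hcb => ?_⟩
    rcases List.suffix_cons_iff.1 ht with rfl | ht
    · exact h2 c ((le_max_right _ _).trans hc) hcb
    · exact h1 t ht c ((le_max_left _ _).trans hc) hcb

theorem hu2_lim_dom {b : Ordinal.{0}} (hb : Order.IsSuccLimit b)
    (ih : ∀ c < b, HU2Rep Ps Th c) (s : Tm) :
    (Cst Ps Th b).dom s ↔ ∃ a, Vh Ps Th b s = some a := by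
  have hL := hu2_lim (Ps := Ps) (Th := Th) hb
  have e : (Cst Ps Th b).dom s ↔ ∀ t, t <:+ s → titer (HOp Ps Th) b (hFlag t) = false := by
    constructor
    · rintro (⟨_, h⟩ | ⟨h, _⟩)
      · exact h
      · exact absurd hL h
    · intro h
      exact Or.inl ⟨hL, h⟩
  rw [e]
  constructor
  · intro h
    obtain ⟨d, hd, h1⟩ := hu2_flags_ev hb s h
    have hd1 : d + 1 < b := hb.add_one_lt hd
    -- values at `d + 1`
    have h2 : ∀ t, t <:+ s → ∃ a, Vh Ps Th (d + 1) t = some a := by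
      intro t ht
      obtain ⟨a, _, ha⟩ := (hu2_cell_flag (ih d hd) t).1 (h1 t ht (d + 1) le_self_add hd1)
      exact ⟨a, ha⟩
    have key : ∀ c, d + 1 ≤ c → c < b → ∀ t, t <:+ s →
        Vh Ps Th c t = Vh Ps Th (d + 1) t := by
      intro c
      induction c using WellFoundedLT.induction with
      | ind c ihc =>
      intro h3 h4 t ht
      rcases Ordinal.zero_or_succ_or_isSuccLimit c with h5 | ⟨c', h5⟩ | h5
      · rw [h5] at h3
        exact absurd h3 (not_le.2 (lt_of_le_of_lt zero_le (Order.lt_add_one_iff.2 le_rfl)))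
      · rw [Order.succ_eq_add_one] at h5
        subst h5
        rcases h3.lt_or_eq with h6 | h6
        · have h7 : d + 1 ≤ c' := Order.lt_add_one_iff.1 h6
          have h8 : c' < c' + 1 := Order.lt_add_one_iff.2 le_rfl
          have h9 : c' < b := h8.trans h4
          obtain ⟨a, ha, ha'⟩ := (hu2_cell_flag (ih c' h9) t).1
            (h1 t ht (c' + 1) (le_self_add.trans h3) h4)
          rw [ha', ← ha]
          exact ihc c' h8 h7 h9 t ht
        · rw [← h6]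
      · have h6 : d + 1 < c := h5.add_one_lt (Order.add_one_le_iff.1 h3)
        obtain ⟨a, ha⟩ := h2 t ht
        rw [ha]
        refine (vv_limit _ _ h5 _ _).2 ⟨d + 1, h6, ha, fun c' h7 h8 t' ht' => ?_⟩
        have h9 := ihc c' h8 h7 (h8.trans h4) t' (ht'.trans ht)
        obtain ⟨a', ha'⟩ := h2 t' (ht'.trans ht)
        refine ⟨?_, h9⟩
        have : VV (fun b => kOld Ps (Cst Ps Th b)) (fun b => kTop Ps (Cst Ps Th b)) c' t'
            = some a' := h9.trans ha'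
        rw [this]
        rfl
    obtain ⟨a, ha⟩ := h2 s List.suffix_rfl
    refine ⟨a, (vv_limit _ _ hb _ _).2 ⟨d + 1, hd1, ha, fun c h3 h4 t ht => ?_⟩⟩
    have h9 := key c h3 h4 t ht
    obtain ⟨a', ha'⟩ := h2 t ht
    refine ⟨?_, h9⟩
    have : VV (fun b => kOld Ps (Cst Ps Th b)) (fun b => kTop Ps (Cst Ps Th b)) c t
        = some a' := h9.trans ha'
    rw [this]
    rfl
  · rintro ⟨a, ha⟩ t ht
    obtain ⟨c0, h0, h1, h2⟩ := (vv_limit _ _ hb _ _).1 ha
    have h3 := hu2_limit_cell (HOp Ps Th) hb (hFlag t) h0 False (fun c h4 h5 => by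
      have h6 : titer (HOp Ps Th) (c + 1) (hFlag t) = false := by
        rw [hu2_cell_flag (ih c h5)]
        obtain ⟨a', ha'⟩ := Option.isSome_iff_exists.1 (h2 c0 le_rfl h0 t ht).1
        exact ⟨a', (h2 c h4 h5 t ht).2.trans ha',
          (h2 (c + 1) (h4.trans le_self_add) (hb.add_one_lt h5) t ht).2.trans ha'⟩
      rw [h6]
      simp)
    rw [← Bool.not_eq_true]
    exact fun h => h3.1 h

/-- a value at a limit stage is constant from some stage on -/
theorem hu2_const {b : Ordinal.{0}} (hb : Order.IsSuccLimit b) {s : Tm} {a : Ordinal.{0}}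
    (h : Vh Ps Th b s = some a) : ∃ c0 < b, ∀ c, c0 ≤ c → c < b → Vh Ps Th c s = some a := by
  obtain ⟨c0, h0, h1, h2⟩ := (vv_limit _ _ hb _ _).1 h
  exact ⟨c0, h0, fun c h3 h4 => (h2 c h3 h4 s List.suffix_rfl).2.trans h1⟩

theorem hu2_limit {b : Ordinal.{0}} (hb : Order.IsSuccLimit b)
    (ih : ∀ c < b, HU2Rep Ps Th c) : HU2Rep Ps Th b := by
  have hL := hu2_lim (Ps := Ps) (Th := Th) hb
  have hd := hu2_lim_dom hb ih
  have hdom : ∀ s, canonDom (titer (HOp Ps Th) b) s ↔ (Cst Ps Th b).dom s := fun s => Iff.rfl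
  refine ⟨hd, fun s t => ?_, fun s q => ?_⟩
  · have e : (Cst Ps Th b).lt s t ↔ titer (HOp Ps Th) b (hLt s t) = true ∧
        (Cst Ps Th b).dom s ∧ (Cst Ps Th b).dom t :=
      ⟨fun h => ⟨h.1, h.2 hL⟩, fun h => ⟨h.1, fun _ => h.2⟩⟩
    rw [e, hd, hd]
    have key : ∀ a a', Vh Ps Th b s = some a → Vh Ps Th b t = some a' →
        (titer (HOp Ps Th) b (hLt s t) = true ↔ a < a') := by
      intro a a' ha ha'
      obtain ⟨c0, h0, h1⟩ := hu2_const hb ha
      obtain ⟨c1, h2, h3⟩ := hu2_const hb ha'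
      refine hu2_limit_cell _ hb _ (max_lt h0 h2) _ (fun c h4 h5 => ?_)
      have h6 : c + 1 < b := hb.add_one_lt h5
      have h7 := h1 (c + 1) (((le_max_left _ _).trans h4).trans le_self_add) h6
      have h8 := h3 (c + 1) (((le_max_right _ _).trans h4).trans le_self_add) h6
      rw [hu2_cell_lt (ih c h5), h7, h8]
      constructor
      · rintro ⟨x, x', hx, hx', h9⟩
        rw [Option.some_inj] at hx hx'
        rw [hx, hx']
        exact h9
      · intro h9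
        exact ⟨a, a', rfl, rfl, h9⟩
    constructor
    · rintro ⟨h1, ⟨a, ha⟩, ⟨a', ha'⟩⟩
      exact ⟨a, a', ha, ha', (key a a' ha ha').1 h1⟩
    · rintro ⟨a, a', ha, ha', h1⟩
      exact ⟨(key a a' ha ha').2 h1, ⟨a, ha⟩, ⟨a', ha'⟩⟩
  · have e : (Cst Ps Th b).dat s q ↔ titer (HOp Ps Th) b (hDat s q) = true ∧
        (Cst Ps Th b).dom s :=
      ⟨fun h => ⟨h.1, h.2 hL⟩, fun h => ⟨h.1, fun _ => h.2⟩⟩
    rw [e, hd]
    have key : ∀ a, Vh Ps Th b s = some a →
        (titer (HOp Ps Th) b (hDat s q) = true ↔ Dh Ps Th a q) := by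
      intro a ha
      obtain ⟨c0, h0, h1⟩ := hu2_const hb ha
      refine hu2_limit_cell _ hb _ h0 _ (fun c h4 h5 => ?_)
      have h6 : c + 1 < b := hb.add_one_lt h5
      have h7 := h1 (c + 1) (h4.trans le_self_add) h6
      rw [hu2_cell_dat (ih c h5), h7]
      constructor
      · rintro ⟨x, hx, h9⟩
        rw [Option.some_inj] at hx
        rw [hx]
        exact h9
      · intro h9
        exact ⟨a, rfl, h9⟩
    constructor
    · rintro ⟨h1, ⟨a, ha⟩⟩
      exact ⟨a, ha, (key a ha).1 h1⟩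
    · rintro ⟨a, ha, h1⟩
      exact ⟨(key a ha).2 h1, ⟨a, ha⟩⟩

theorem rep_core (Ps : HS → ℕ → Tm → Tm → Prop) (Th : HS → ℕ → Prop) (b : Ordinal.{0}) :
    (∀ s, (Cst Ps Th b).dom s ↔ ∃ a, Vh Ps Th b s = some a) ∧
    (∀ s t, (Cst Ps Th b).lt s t ↔
      ∃ a a', Vh Ps Th b s = some a ∧ Vh Ps Th b t = some a' ∧ a < a') ∧
    (∀ s q, (Cst Ps Th b).dat s q ↔ ∃ a, Vh Ps Th b s = some a ∧ Dh Ps Th a q) :=
  hu1_ind (p := fun b => HU2Rep Ps Th b) b hu2_zero (fun _ h => hu2_succ h)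
    (fun _ hb h => hu2_limit hb h)

end Pool.Agent.HT
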