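import Pool.Agent.Helper85.HT.HU2

set_option autoImplicit false

/-!
# HT HU3: the first stage whose ordinals are not all named
-/

namespace Pool.Agent.HT

open Ordinal

/-! ## HU3 : the first stage whose ordinals are not all named -/

structure HullCore (Ps : HS → ℕ → Tm → Tm → Prop) (Th : HS → ℕ → Prop) (ζ σ : Ordinal.{0}) :
    Prop where
  lt : ζ < σ
  limζ : Order.IsSuccLimit ζ
  limσ : Order.IsSuccLimit σ
  ctble : σ < ω₁
  onto : ∀ b < σ, ∀ a < b, ∃ s, Vh Ps Th b s = some a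
  hull : ∀ a, (∃ s, Vh Ps Th σ s = some a) ↔ a < ζ

section
variable {Ps : HS → ℕ → Tm → Tm → Prop} {Th : HS → ℕ → Prop}

theorem hu3_tm (s : Tm) : tmOf (Encodable.encode s) = s := Denumerable.ofNat_encode s

theorem hu3_zero (s : Tm) : Vh Ps Th 0 s = none := vv_zero _ _ s

theorem hu3_succ (b : Ordinal.{0}) : Vh Ps Th (b + 1) =
    nextV (kOld Ps (Cst Ps Th b)) (kTop Ps (Cst Ps Th b)) b (Vh Ps Th b) := vv_succ _ _ b

theorem hu3_old {b : Ordinal.{0}} {s : Tm} (h : kOld Ps (Cst Ps Th b) (base s)) :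
    Vh Ps Th (b + 1) s = Vh Ps Th b s := by
  rw [hu3_succ]
  unfold nextV
  rw [if_pos h]

theorem hu3_top {b : Ordinal.{0}} {s : Tm} (h : ¬ kOld Ps (Cst Ps Th b) (base s))
    (h' : kTop Ps (Cst Ps Th b) (base s)) (ht : topTgt s = none) :
    Vh Ps Th (b + 1) s = some b := by
  rw [hu3_succ]
  unfold nextV
  rw [if_neg h, if_pos h', ht]

theorem hu3_dom {b : Ordinal.{0}} {s : Tm} :
    (Cst Ps Th b).dom s ↔ ∃ a, Vh Ps Th b s = some a := (rep_core Ps Th b).1 s

/-- `[]` names `0` -/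
theorem hu3_nil : ∀ b : Ordinal.{0}, 1 ≤ b → Vh Ps Th b [] = some 0 := by
  intro b
  induction b using Ordinal.limitRecOn with
  | zero => intro h; exact absurd h (by simp)
  | add_one b ih =>
    intro _
    by_cases hb : b = 0
    · subst hb
      refine hu3_top ?_ ?_ rfl
      · rintro (⟨-, h⟩ | ⟨n, t, h, -⟩)
        · obtain ⟨a, ha⟩ := hu3_dom.1 h
          rw [hu3_zero] at ha
          simp at ha
        · simp [base] at h
      · left
        refine ⟨rfl, fun h => ?_⟩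
        obtain ⟨a, ha⟩ := hu3_dom.1 h
        rw [hu3_zero] at ha
        simp at ha
    · have h1 := ih (Order.one_le_iff_pos.2 (pos_iff_ne_zero.2 hb))
      rw [hu3_old (Or.inl ⟨rfl, hu3_dom.2 ⟨0, h1⟩⟩), h1]
  | limit b hb ih =>
    intro _
    have h1 : (1 : Ordinal.{0}) < b := by
      have := hb.add_one_lt hb.bot_lt
      simpa using this
    refine (vv_limit _ _ hb [] 0).2 ⟨1, h1, ih 1 h1 le_rfl, fun c hc hcb t ht => ?_⟩
    have : t = [] := List.suffix_nil.1 ht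
    subst this
    have e1 := ih c hcb hc
    have e2 := ih 1 h1 le_rfl
    exact ⟨by rw [show VV _ _ c [] = some 0 from e1]; rfl, e1.trans e2.symm⟩

theorem hu3_one (h : HullHyp Ps Th) {b : Ordinal.{0}} (hb : 1 ≤ b) :
    Vh Ps Th (b + 1) [1] = some b := by
  have hd : (Cst Ps Th b).dom [] := hu3_dom.2 ⟨0, hu3_nil b hb⟩
  have e : base [1] = [1] := rfl
  refine hu3_top ?_ ?_ rfl
  · rw [e]
    rintro (⟨h1, -⟩ | ⟨n, t, h1, -, -, h2⟩)
    · simp at h1
    · have h3 := List.cons.inj h1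
      have hn : n = 0 := by omega
      subst hn
      exact h2 (h.p0 _ _ _)
  · rw [e]
    right
    refine ⟨0, [], rfl, hd, fun h2 => h2.2 (h.p0 _ _ _)⟩

def hu3All (Ps : HS → ℕ → Tm → Tm → Prop) (Th : HS → ℕ → Prop) (b : Ordinal.{0}) : Prop :=
  ∀ a < b, ∃ s, Vh Ps Th b s = some a

theorem hu3_all_succ (h : HullHyp Ps Th) {b : Ordinal.{0}} (hb : hu3All Ps Th b) :
    hu3All Ps Th (b + 1) := by
  intro a ha
  have ha' : a ≤ b := Order.lt_add_one_iff.1 ha
  by_cases hb0 : b = 0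
  · subst hb0
    have : a = 0 := le_antisymm ha' (by simp)
    subst this
    exact ⟨[], hu3_nil _ (by simp)⟩
  · have hb1 : 1 ≤ b := Order.one_le_iff_pos.2 (pos_iff_ne_zero.2 hb0)
    rcases ha'.lt_or_eq with h1 | h1
    · obtain ⟨s, hs⟩ := hb a h1
      refine ⟨(2 * Encodable.encode s) :: [1], ?_⟩
      have h2 := vv_sub (fun b => kOld Ps (Cst Ps Th b)) (fun b => kTop Ps (Cst Ps Th b)) (b + 1)
        (Encodable.encode s) [1]
      refine h2.trans ?_
      rw [show VV _ _ (b + 1) [1] = some b from hu3_one h hb1, hu3_tm]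
      exact hs
    · subst h1
      exact ⟨[1], hu3_one h hb1⟩

theorem hu3_exists (h : HullHyp Ps Th) : ∃ b : Ordinal.{0}, Order.IsSuccLimit b ∧ b < ω₁ ∧
    ¬ hu3All Ps Th b := by
  by_contra hcon
  push Not at hcon
  classical
  let St : Tm → Prop := fun s => ∃ c0 < ω₁, ∀ c, c0 ≤ c → c < ω₁ → ∀ t, t <:+ s →
    (Vh Ps Th c t).isSome ∧ Vh Ps Th c t = Vh Ps Th c0 t
  have hns : ∀ s, ¬ St s → ∀ d < ω₁, ∃ e, d ≤ e ∧ e < ω₁ ∧ ∃ t, t <:+ s ∧
      ¬ ((Vh Ps Th e t).isSome ∧ Vh Ps Th e t = Vh Ps Th d t) := by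
    intro s hs d hd
    by_contra h1
    push Not at h1
    exact hs ⟨d, hd, fun c hc hc' t ht => h1 c hc hc' t ht⟩
  have hω : (0 : Ordinal.{0}) < ω₁ := Ordinal.omega_pos 1
  have hlim : Order.IsSuccLimit (ω₁ : Ordinal.{0}) := Cardinal.isSuccLimit_omega 1
  let c0 : Tm → Ordinal.{0} := fun s => if hs : St s then Classical.choose hs else 0
  have hc0 : ∀ s, c0 s < ω₁ := by
    intro s
    simp only [c0]
    split_ifs with hs
    · exact (Classical.choose_spec hs).1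
    · exact hω
  have hc0' : ∀ s, St s → ∀ c, c0 s ≤ c → c < ω₁ → Vh Ps Th c s = Vh Ps Th (c0 s) s := by
    intro s hs c hc hc'
    simp only [c0, dif_pos hs] at hc ⊢
    exact ((Classical.choose_spec hs).2 c hc hc' s (List.suffix_refl s)).2
  let vl : Tm → Ordinal.{0} := fun s => (Vh Ps Th (c0 s) s).getD 0
  have hvl : ∀ s, vl s < ω₁ := by
    intro s
    simp only [vl]
    rcases hv : Vh Ps Th (c0 s) s with _ | a
    · exact hω
    · exact (vv_bd _ _ hv).trans (hc0 s)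
  let g : Tm → Ordinal.{0} → Ordinal.{0} := fun s d =>
    if hs : ¬ St s ∧ d < ω₁ then Classical.choose (hns s hs.1 d hs.2) else 0
  have hg : ∀ s d, g s d < ω₁ := by
    intro s d
    simp only [g]
    split_ifs with hs
    · exact (Classical.choose_spec (hns s hs.1 d hs.2)).2.1
    · exact hω
  have hg' : ∀ s d, ¬ St s → d < ω₁ → d ≤ g s d ∧ ∃ t, t <:+ s ∧
      ¬ ((Vh Ps Th (g s d) t).isSome ∧ Vh Ps Th (g s d) t = Vh Ps Th d t) := by
    intro s d hs hd
    simp only [g, dif_pos (show ¬ St s ∧ d < ω₁ from ⟨hs, hd⟩)]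
    exact ⟨(Classical.choose_spec (hns s hs d hd)).1, (Classical.choose_spec (hns s hs d hd)).2.2⟩
  let d : ℕ → Ordinal.{0} := fun k => Nat.rec (⨆ s : Tm, max (c0 s) (vl s) + 1)
    (fun _ d => ⨆ s : Tm, max d (g s d) + 1) k
  have hd0 : d 0 = ⨆ s : Tm, max (c0 s) (vl s) + 1 := rfl
  have hd1 : ∀ k, d (k + 1) = ⨆ s : Tm, max (d k) (g s (d k)) + 1 := fun k => rfl
  have hdlt : ∀ k, d k < ω₁ := by
    intro k
    induction k with
    | zero =>
      rw [hd0]
      exact Ordinal.iSup_lt_omega_one fun s => hlim.add_one_lt (max_lt (hc0 s) (hvl s))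
    | succ k ih =>
      rw [hd1]
      exact Ordinal.iSup_lt_omega_one fun s => hlim.add_one_lt (max_lt ih (hg s _))
  have hs0 : ∀ s, max (c0 s) (vl s) < d 0 := fun s =>
    (Order.lt_add_one_iff.2 le_rfl).trans_le
      (Ordinal.le_iSup (fun s : Tm => max (c0 s) (vl s) + 1) s)
  have hs1 : ∀ k s, max (d k) (g s (d k)) < d (k + 1) := fun k s =>
    (Order.lt_add_one_iff.2 le_rfl).trans_le
      (Ordinal.le_iSup (fun s : Tm => max (d k) (g s (d k)) + 1) s)
  have hle : ∀ k, d k ≤ ⨆ k, d k := fun k => Ordinal.le_iSup d k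
  have hlt : ∀ k, d k < ⨆ k, d k := fun k =>
    (((le_max_left _ _).trans_lt (hs1 k [])).trans_le (hle (k + 1)))
  have hex : ∀ c < ⨆ k, d k, ∃ k, c < d k := fun c hc => Ordinal.lt_iSup_iff.1 hc
  have hblim : Order.IsSuccLimit (⨆ k, d k) := by
    rw [Order.isSuccLimit_iff]
    refine ⟨?_, ?_⟩
    · rw [isMin_iff_eq_bot]
      exact (lt_of_le_of_lt bot_le (hlt 0)).ne'
    · intro c hc
      obtain ⟨k, hk⟩ := hex c hc.lt
      exact (hc.2 hk) (hlt k)
  have hb1 : (⨆ k, d k) < ω₁ := Ordinal.iSup_lt_omega_one hdlt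
  obtain ⟨s, hs⟩ := hcon _ hblim hb1 (d 0) (hlt 0)
  by_cases hst : St s
  · have h1 := hc0' s hst
    have h2 : Vh Ps Th (⨆ k, d k) s = Vh Ps Th (c0 s) s := by
      rcases (vv_limit _ _ hblim s (d 0)).1 hs with ⟨e0, he0, he1, he2⟩
      have h3 := (he2 (max e0 (c0 s)) (le_max_left _ _)
        (max_lt he0 (((le_max_left _ _).trans_lt (hs0 s)).trans_le (hle 0))) s
        (List.suffix_refl s)).2
      have h4 := h1 (max e0 (c0 s)) (le_max_right _ _) (max_lt (he0.trans hb1) (hc0 s))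
      exact hs.trans (he1.symm.trans (h3.symm.trans h4))
    have h3 : vl s = d 0 := by
      simp only [vl]
      rw [← h2, hs]
      rfl
    have h4 := (le_max_right (c0 s) (vl s)).trans_lt (hs0 s)
    rw [h3] at h4
    exact lt_irrefl _ h4
  · rcases (vv_limit _ _ hblim s (d 0)).1 hs with ⟨e0, he0, he1, he2⟩
    obtain ⟨k, hk⟩ := hex e0 he0
    obtain ⟨h1, t, ht, h2⟩ := hg' s (d k) hst (hdlt k)
    have h3 : g s (d k) < ⨆ k, d k :=
      ((le_max_right _ _).trans_lt (hs1 k s)).trans_le (hle (k + 1))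
    have h4 := he2 (g s (d k)) (hk.le.trans h1) h3 t ht
    have h5 := he2 (d k) hk.le (hlt k) t ht
    exact h2 ⟨h4.1, h4.2.trans h5.2.symm⟩

theorem hu3_keep (h : HullHyp Ps Th) {t : Tm} {c u e0 σ : Ordinal.{0}}
    (hst : ∀ e, e0 ≤ e → e < σ → ∀ t', t' <:+ t →
      (Vh Ps Th e t').isSome ∧ Vh Ps Th e t' = Vh Ps Th e0 t')
    (hc : Vh Ps Th e0 t = some c) (hu : c < u) (hr : Vh Ps Th (e0 + 1) (3 :: t) = some u) :
    ∀ e, e0 + 1 ≤ e → e ≤ σ → Vh Ps Th e (3 :: t) = some u := by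
  intro e
  induction e using Ordinal.limitRecOn with
  | zero => intro h1; exact absurd h1 (by simp)
  | add_one e ih =>
    intro h1 h2
    rcases h1.lt_or_eq with h3 | h3
    · have h4 : e0 + 1 ≤ e := Order.lt_add_one_iff.1 h3
      have h5 : e < σ := Order.add_one_le_iff.1 h2
      have h6 := ih h4 h5.le
      have h7 : Vh Ps Th e t = some c :=
        ((hst e ((Order.le_succ e0).trans h4) h5 t (List.suffix_refl t)).2).trans hc
      rw [hu3_old, h6]
      refine Or.inr ⟨1, t, rfl, hu3_dom.2 ⟨c, h7⟩, hu3_dom.2 ⟨u, h6⟩, ?_⟩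
      rw [h.p1, not_not]
      exact ((rep_core Ps Th e).2.1 t _).2 ⟨c, u, h7, h6, hu⟩
    · rw [← h3]; exact hr
  | limit e he ih =>
    intro h1 h2
    have h3 : e0 + 1 < e := by
      rcases h1.lt_or_eq with h3 | h3
      · exact h3
      · exfalso
        rw [← h3] at he
        exact Order.not_isSuccLimit_succ e0 he
    refine (vv_limit _ _ he (3 :: t) u).2 ⟨e0 + 1, h3, hr, fun c' h4 h5 t' ht' => ?_⟩
    rcases List.suffix_cons_iff.1 ht' with h6 | h6
    · subst h6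
      have h7 := ih c' h5 h4 (h5.le.trans h2)
      exact ⟨by rw [show VV _ _ c' (3 :: t) = some u from h7]; rfl, h7.trans hr.symm⟩
    · have h7 := hst c' ((Order.le_succ e0).trans h4) (h5.trans_le h2) t' h6
      have h8 := hst (e0 + 1) (Order.le_succ e0) (h3.trans_le h2) t' h6
      exact ⟨h7.1, h7.2.trans h8.2.symm⟩

theorem hull_core (h : HullHyp Ps Th) : ∃ ζ σ, HullCore Ps Th ζ σ := by
  obtain ⟨b0, hb0, hb1, hb2⟩ := hu3_exists h
  obtain ⟨σ, ⟨hσl, hσn⟩, hmin⟩ := WellFounded.has_min (wellFounded_lt (α := Ordinal.{0}))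
    {b | Order.IsSuccLimit b ∧ ¬ hu3All Ps Th b} ⟨b0, hb0, hb2⟩
  have hσω : σ < ω₁ := (not_lt.1 (hmin b0 ⟨hb0, hb2⟩)).trans_lt hb1
  have hall : ∀ b, b < σ → hu3All Ps Th b := by
    intro b
    induction b using Ordinal.limitRecOn with
    | zero => intro _ a ha; exact absurd ha (by simp)
    | add_one b ih => intro hb; exact hu3_all_succ h (ih ((Order.lt_succ b).trans hb))
    | limit b hb ih =>
      intro hbσ
      by_contra hn
      exact hmin b ⟨hb, hn⟩ hbσ
  obtain ⟨a0, ha0, ha1⟩ : ∃ a < σ, ¬ ∃ s, Vh Ps Th σ s = some a := by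
    by_contra hcon
    push Not at hcon
    exact hσn hcon
  obtain ⟨ζ, hζ, hζm⟩ := WellFounded.has_min (wellFounded_lt (α := Ordinal.{0}))
    {a | ¬ ∃ s, Vh Ps Th σ s = some a} ⟨a0, ha1⟩
  have hζσ : ζ < σ := (not_lt.1 (hζm a0 ha1)).trans_lt ha0
  have hull : ∀ a, (∃ s, Vh Ps Th σ s = some a) ↔ a < ζ := by
    intro a
    constructor
    · rintro ⟨s, hs⟩
      by_contra hcon
      rcases (not_lt.1 hcon).lt_or_eq with h1 | h1
      · obtain ⟨s', hs'⟩ := hall a (vv_bd _ _ hs) ζ h1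
        refine hζ ⟨(2 * Encodable.encode s') :: s, ?_⟩
        refine (vv_sub _ _ σ (Encodable.encode s') s).trans ?_
        rw [show VV _ _ σ s = some a from hs, hu3_tm]
        exact hs'
      · exact hζ ⟨s, h1 ▸ hs⟩
    · intro ha
      by_contra hcon
      exact hζm a hcon ha
  refine ⟨ζ, σ, hζσ, ?_, hσl, hσω, hall, hull⟩
  have hσ1 : (1 : Ordinal.{0}) ≤ σ := Order.one_le_iff_pos.2 hσl.bot_lt
  rw [Order.isSuccLimit_iff]
  refine ⟨?_, ?_⟩
  · rw [isMin_iff_eq_bot]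
    exact ((hull 0).1 ⟨[], hu3_nil σ hσ1⟩).ne'
  · intro c hc
    obtain ⟨t, ht⟩ := (hull c).2 hc.lt
    obtain ⟨e0, he0, he1, he2⟩ := (vv_limit _ _ hσl t c).1 ht
    have hce0 : c < e0 := vv_bd _ _ he1
    have hdt : (Cst Ps Th e0).dom t := hu3_dom.2 ⟨c, he1⟩
    have hbase : base (3 :: t) = 3 :: t := rfl
    obtain ⟨u, hu, hru⟩ : ∃ u, c < u ∧ Vh Ps Th (e0 + 1) (3 :: t) = some u := by
      by_cases hk : (Cst Ps Th e0).dom (3 :: t) ∧ ¬ Ps (Cst Ps Th e0) 1 t (3 :: t)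
      · have h1 := hk.2
        rw [h.p1, not_not] at h1
        obtain ⟨a, a', h2, h3, h4⟩ := ((rep_core Ps Th e0).2.1 t _).1 h1
        have h5 : a = c := Option.some.inj (h2.symm.trans he1)
        subst h5
        refine ⟨a', h4, ?_⟩
        rw [hu3_old, h3]
        exact Or.inr ⟨1, t, rfl, hdt, hk.1, hk.2⟩
      · refine ⟨e0, hce0, hu3_top ?_ ?_ rfl⟩
        · rw [hbase]
          rintro (⟨h1, -⟩ | ⟨n, t', h1, h2, h3, h4⟩)
          · simp at h1
          · have h5 := List.cons.inj h1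
            have hn : n = 1 := by omega
            subst hn
            rw [← h5.2] at h4
            exact hk ⟨h3, h4⟩
        · rw [hbase]
          exact Or.inr ⟨1, t, rfl, hdt, hk⟩
    have hk := hu3_keep h he2 he1 hu hru σ ?_ le_rfl
    · have h1 := (hull u).1 ⟨_, hk⟩
      exact hc.2 hu h1
    · exact Order.add_one_le_iff.2 he0

end

end Pool.Agent.HT
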