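import Pool.Agent.Helper85.HT.HU1
import Pool.Agent.Helper85.HT.HU2
import Pool.Agent.Helper85.HT.HU3

set_option autoImplicit false

/-!
# HU4 : elementarity of the hull
-/

namespace Pool.Agent.HT

open Ordinal

theorem hu4_zero (Ps : HS → ℕ → Tm → Tm → Prop) (Th : HS → ℕ → Prop) (s : Tm) :
    Vh Ps Th 0 s = none := vv_zero _ _ s

theorem hu4_succ (Ps : HS → ℕ → Tm → Tm → Prop) (Th : HS → ℕ → Prop) (b : Ordinal.{0}) :
    Vh Ps Th (b + 1) = nextV (kOld Ps (Cst Ps Th b)) (kTop Ps (Cst Ps Th b)) b (Vh Ps Th b) :=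
  vv_succ _ _ b

theorem hu4_limit (Ps : HS → ℕ → Tm → Tm → Prop) (Th : HS → ℕ → Prop) {b : Ordinal.{0}}
    (hb : Order.IsSuccLimit b) (s : Tm) (a : Ordinal.{0}) :
    Vh Ps Th b s = some a ↔ ∃ c0 < b, Vh Ps Th c0 s = some a ∧
      ∀ c, c0 ≤ c → c < b → ∀ t, t <:+ s →
        (Vh Ps Th c t).isSome ∧ Vh Ps Th c t = Vh Ps Th c0 t := vv_limit _ _ hb s a

theorem hu4_bd (Ps : HS → ℕ → Tm → Tm → Prop) (Th : HS → ℕ → Prop) {b : Ordinal.{0}} {s : Tm}
    {a : Ordinal.{0}} (h : Vh Ps Th b s = some a) : a < b := vv_bd _ _ h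

theorem hu4_sub (Ps : HS → ℕ → Tm → Tm → Prop) (Th : HS → ℕ → Prop) (b : Ordinal.{0}) (n : ℕ)
    (s : Tm) :
    Vh Ps Th b ((2 * n) :: s) = (Vh Ps Th b s).bind (fun a => Vh Ps Th a (tmOf n)) :=
  vv_sub _ _ b n s

theorem hu4_dom (Ps : HS → ℕ → Tm → Tm → Prop) (Th : HS → ℕ → Prop) (b : Ordinal.{0}) (s : Tm) :
    (Cst Ps Th b).dom s ↔ ∃ a, Vh Ps Th b s = some a := (rep_core Ps Th b).1 s

/-- the value of `[]` -/
theorem hu4_nil (Ps : HS → ℕ → Tm → Tm → Prop) (Th : HS → ℕ → Prop) :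
    ∀ b, 0 < b → Vh Ps Th b [] = some 0 := by
  intro b
  induction b using Ordinal.limitRecOn with
  | zero => intro h; exact absurd h (lt_irrefl _)
  | add_one b ih =>
    intro _
    rw [hu4_succ]
    unfold nextV
    rcases eq_or_ne b 0 with hb | hb
    · subst hb
      have h0 : ¬ (Cst Ps Th 0).dom [] := by
        rw [hu4_dom]; rintro ⟨a, ha⟩; rw [hu4_zero] at ha; exact absurd ha (by simp)
      have h1 : ¬ kOld Ps (Cst Ps Th 0) (base []) := by
        rintro (⟨_, h⟩ | ⟨n, t, h, _⟩)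
        · exact h0 h
        · exact absurd h (by simp [base])
      have h2 : kTop Ps (Cst Ps Th 0) (base []) := Or.inl ⟨rfl, h0⟩
      rw [if_neg h1, if_pos h2]
      simp [topTgt]
    · have hpos : 0 < b := pos_iff_ne_zero.2 hb
      have h := ih hpos
      have h1 : kOld Ps (Cst Ps Th b) (base []) := Or.inl ⟨rfl, (hu4_dom _ _ _ _).2 ⟨0, h⟩⟩
      rw [if_pos h1, h]
  | limit b hb ih =>
    intro _
    rw [hu4_limit Ps Th hb]
    have h1 : (1 : Ordinal.{0}) < b := by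
      have := hb.succ_lt (a := 0) (pos_iff_ne_zero.2 (by
        intro h; rw [h] at hb; exact Ordinal.not_isSuccLimit_zero hb))
      simpa using this
    refine ⟨1, h1, ih 1 h1 zero_lt_one, ?_⟩
    intro c hc hcb t ht
    have : t = [] := by simpa using ht
    subst this
    rw [ih c hcb (lt_of_lt_of_le zero_lt_one hc), ih 1 h1 zero_lt_one]
    simp

/-- values do not change after the values of the odd-headed suffixes -/
theorem vh_const (Ps : HS → ℕ → Tm → Tm → Prop) (Th : HS → ℕ → Prop) {B : Ordinal.{0}}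
    (hB : Order.IsSuccLimit B) {t : Tm} {a : Ordinal.{0}} (ht : Vh Ps Th B t = some a)
    {c : Ordinal.{0}} (hc : ∀ r, r <:+ t → oddHead r → ∀ u, Vh Ps Th B r = some u → u ≤ c) :
    ∀ b, c < b → b ≤ B → Vh Ps Th b t = some a := by
  induction t generalizing a with
  | nil =>
    intro b hb hbB
    have hB0 : 0 < B := lt_of_lt_of_le (lt_of_le_of_lt bot_le hb) hbB
    rw [hu4_nil Ps Th B hB0] at ht
    rw [hu4_nil Ps Th b (lt_of_le_of_lt bot_le hb)]
    exact ht
  | cons e t ih =>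
    intro b hb hbB
    rcases Nat.even_or_odd' e with ⟨n, hn | hn⟩
    · subst hn
      rw [hu4_sub] at ht ⊢
      obtain ⟨a', ha', h2⟩ := Option.bind_eq_some_iff.1 ht
      have h3 := ih ha' (fun r hr ho u hu =>
        hc r (hr.trans (List.suffix_cons _ _)) ho u hu) b hb hbB
      rw [h3]
      exact h2
    · subst hn
      have ho : oddHead ((2 * n + 1) :: t) := ⟨n, t, rfl⟩
      have h1 : a ≤ c := hc _ (List.suffix_refl _) ho a ht
      exact vv_odd _ _ ho ht b (lt_of_le_of_lt h1 hb) hbB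

/-- a bound for the values of the odd-headed suffixes -/
theorem hu4_bound {Ps : HS → ℕ → Tm → Tm → Prop} {Th : HS → ℕ → Prop} {ζ σ : Ordinal.{0}}
    (hc : HullCore Ps Th ζ σ) (t : Tm) : ∃ c < ζ, ∀ r, r <:+ t → oddHead r → ∀ u,
      Vh Ps Th σ r = some u → u ≤ c := by
  have hζ0 : 0 < ζ := pos_iff_ne_zero.2 (by
        intro h; have := hc.limζ; rw [h] at this; exact Ordinal.not_isSuccLimit_zero this)
  induction t with
  | nil =>
    refine ⟨0, hζ0, ?_⟩
    intro r hr ho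
    have : r = [] := by simpa using hr
    subst this
    obtain ⟨n, t', h⟩ := ho
    exact absurd h (by simp)
  | cons e t ih =>
    obtain ⟨c, hcζ, h⟩ := ih
    rcases hv : Vh Ps Th σ (e :: t) with _ | u0
    · refine ⟨c, hcζ, fun r hr ho u hu => ?_⟩
      rcases List.suffix_cons_iff.1 hr with h1 | h1
      · subst h1; rw [hv] at hu; exact absurd hu (by simp)
      · exact h r h1 ho u hu
    · refine ⟨max c u0, max_lt hcζ ((hc.hull u0).1 ⟨_, hv⟩), fun r hr ho u hu => ?_⟩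
      rcases List.suffix_cons_iff.1 hr with h1 | h1
      · subst h1; rw [hv] at hu
        have : u0 = u := by simpa using hu
        subst this; exact le_max_right _ _
      · exact le_trans (h r h1 ho u hu) (le_max_left _ _)

theorem hu4_rep {Ps : HS → ℕ → Tm → Tm → Prop} {Th : HS → ℕ → Prop} {ζ σ : Ordinal.{0}}
    (hc : HullCore Ps Th ζ σ) {b : Ordinal.{0}} (hb : b < σ) :
    RepAt (Cst Ps Th b) (Vh Ps Th) (Dh Ps Th) b where
  dom := (rep_core Ps Th b).1
  lt := (rep_core Ps Th b).2.1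
  dat := (rep_core Ps Th b).2.2
  bd := fun _ _ h => hu4_bd Ps Th h
  onto := hc.onto b hb
  sub := fun n s => hu4_sub Ps Th b n s

/-- the alternatives for a search term whose parameter is defined -/
theorem hu4_alt (Ps : HS → ℕ → Tm → Tm → Prop) (Th : HS → ℕ → Prop) {b : Ordinal.{0}} {n : ℕ}
    {t : Tm} {a : Ordinal.{0}} (ht : Vh Ps Th b t = some a) :
    (kOld Ps (Cst Ps Th b) ((2 * n + 1) :: t) ∧ (Cst Ps Th b).dom ((2 * n + 1) :: t) ∧
      ¬ Ps (Cst Ps Th b) n t ((2 * n + 1) :: t) ∧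
      Vh Ps Th (b + 1) ((2 * n + 1) :: t) = Vh Ps Th b ((2 * n + 1) :: t)) ∨
    (kTop Ps (Cst Ps Th b) ((2 * n + 1) :: t) ∧
      ((Cst Ps Th b).dom ((2 * n + 1) :: t) → Ps (Cst Ps Th b) n t ((2 * n + 1) :: t)) ∧
      Vh Ps Th (b + 1) ((2 * n + 1) :: t) = some b) := by
  have hd : (Cst Ps Th b).dom t := (hu4_dom _ _ _ _).2 ⟨a, ht⟩
  have hbase : base ((2 * n + 1) :: t) = (2 * n + 1) :: t := by
    simp [base, Nat.add_mod]
  have htt : topTgt ((2 * n + 1) :: t) = none := by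
    simp [topTgt, Nat.add_mod]
  by_cases h : (Cst Ps Th b).dom ((2 * n + 1) :: t) ∧ ¬ Ps (Cst Ps Th b) n t ((2 * n + 1) :: t)
  · left
    have hk : kOld Ps (Cst Ps Th b) ((2 * n + 1) :: t) := Or.inr ⟨n, t, rfl, hd, h.1, h.2⟩
    refine ⟨hk, h.1, h.2, ?_⟩
    rw [hu4_succ]
    unfold nextV
    rw [hbase, if_pos hk]
  · right
    have hk : kTop Ps (Cst Ps Th b) ((2 * n + 1) :: t) := Or.inr ⟨n, t, rfl, hd, h⟩
    refine ⟨hk, fun h1 => by_contra fun h2 => h ⟨h1, h2⟩, ?_⟩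
    have hko : ¬ kOld Ps (Cst Ps Th b) ((2 * n + 1) :: t) := by
      rintro (⟨h1, _⟩ | ⟨n', t', h1, _, h2, h3⟩)
      · exact absurd h1 (by simp)
      · have h4 : n' = n ∧ t' = t := by
          have := List.cons.inj h1
          exact ⟨by omega, this.2.symm⟩
        rw [h4.1, h4.2] at h3
        exact h ⟨h2, h3⟩
    rw [hu4_succ]
    unfold nextV
    rw [hbase, if_neg hko, if_pos hk, htt]

/-- a search term whose value is constant up to a limit, at which the parameter is defined -/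
theorem hu4_lim (Ps : HS → ℕ → Tm → Tm → Prop) (Th : HS → ℕ → Prop) {b : Ordinal.{0}}
    (hb : Order.IsSuccLimit b) {e : ℕ} {t : Tm} {a w d : Ordinal.{0}}
    (ht : Vh Ps Th b t = some a) (hd : d < b)
    (h : ∀ c, d ≤ c → c < b → Vh Ps Th c (e :: t) = some w) :
    Vh Ps Th b (e :: t) = some w := by
  rw [hu4_limit Ps Th hb]
  obtain ⟨c0, hc0, h1, h2⟩ := (hu4_limit Ps Th hb t a).1 ht
  refine ⟨max d c0, max_lt hd hc0, h _ (le_max_left _ _) (max_lt hd hc0), ?_⟩
  intro c hc hcb r hr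
  rcases List.suffix_cons_iff.1 hr with h3 | h3
  · subst h3
    rw [h c (le_trans (le_max_left _ _) hc) hcb, h _ (le_max_left _ _) (max_lt hd hc0)]
    simp
  · have h4 := h2 c (le_trans (le_max_right _ _) hc) hcb r h3
    have h5 := h2 (max d c0) (le_max_right _ _) (max_lt hd hc0) r h3
    exact ⟨h4.1, h4.2.trans h5.2.symm⟩

/-- as long as the term is old its value does not change -/
theorem hu4_keep (Ps : HS → ℕ → Tm → Tm → Prop) (Th : HS → ℕ → Prop) {n : ℕ}
    {t : Tm} {a w d B : Ordinal.{0}}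
    (ht : ∀ b, d ≤ b → b ≤ B → Vh Ps Th b t = some a)
    (h0 : Vh Ps Th d ((2 * n + 1) :: t) = some w)
    (hk : ∀ b, d ≤ b → b < B → ¬ kTop Ps (Cst Ps Th b) ((2 * n + 1) :: t)) :
    ∀ b, d ≤ b → b ≤ B → Vh Ps Th b ((2 * n + 1) :: t) = some w := by
  intro b
  induction b using Ordinal.limitRecOn with
  | zero =>
    intro h1 _
    have : d = 0 := le_antisymm h1 bot_le
    rw [← this]; exact h0
  | add_one b ih =>
    intro h1 h2
    rcases eq_or_lt_of_le h1 with h3 | h3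
    · rw [← h3]; exact h0
    · have hdb : d ≤ b := Order.lt_add_one_iff.1 h3
      have hbB : b < B := lt_of_lt_of_le (Order.lt_add_one_iff.2 le_rfl) h2
      rcases hu4_alt Ps Th (n := n) (ht b hdb hbB.le) with h | h
      · rw [h.2.2.2]; exact ih hdb hbB.le
      · exact absurd h.1 (hk b hdb hbB)
  | limit b hb ih =>
    intro h1 h2
    rcases eq_or_lt_of_le h1 with h3 | h3
    · rw [← h3]; exact h0
    · exact hu4_lim Ps Th hb (ht b h1 h2) h3
        (fun c hc hcb => ih c hcb hc (hcb.le.trans h2))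

theorem hull_el {Ps : HS → ℕ → Tm → Tm → Prop} {Th : HS → ℕ → Prop} (h : HullHyp Ps Th)
    {ζ σ : Ordinal.{0}} (hc : HullCore Ps Th ζ σ) :
    ∀ n a, a < ζ → (∀ u < ζ, Psem Ps Th (Vh Ps Th) n ζ a u) →
      ∀ u < σ, ∃ b, u < b ∧ b < σ ∧ Psem Ps Th (Vh Ps Th) n b a u := by
  intro n a ha hyp u hu
  obtain ⟨t, ht⟩ := (hc.hull a).2 ha
  obtain ⟨c1, hc1, hb1⟩ := hu4_bound hc t
  have htc : ∀ b, c1 < b → b ≤ σ → Vh Ps Th b t = some a := vh_const Ps Th hc.limσ ht hb1
  rcases hv : Vh Ps Th σ ((2 * n + 1) :: t) with _ | u0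
  · -- the search has no final value
    have hd0 : max c1 u + 1 < σ := by
      have := hc.limσ.succ_lt (max_lt (hc1.trans hc.lt) hu)
      simpa using this
    set d0 := max c1 u + 1 with hd0def
    have hc1d : ∀ b, d0 ≤ b → c1 < b := fun b hb =>
      lt_of_lt_of_le (Order.lt_add_one_iff.2 (le_max_left _ _)) hb
    have hud : ∀ b, d0 ≤ b → u < b := fun b hb =>
      lt_of_lt_of_le (Order.lt_add_one_iff.2 (le_max_right _ _)) hb
    have hB : ∀ d, d0 ≤ d → d < σ → ∃ b, d ≤ b ∧ b < σ ∧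
        kTop Ps (Cst Ps Th b) ((2 * n + 1) :: t) := by
      intro d hd hdσ
      by_contra hcon
      push Not at hcon
      have hdt : Vh Ps Th d t = some a := htc d (hc1d d hd) hdσ.le
      rcases hu4_alt Ps Th (n := n) hdt with h1 | h1
      · obtain ⟨w, hw⟩ := (hu4_dom _ _ _ _).1 h1.2.1
        have h2 := hu4_keep Ps Th (B := σ) (fun b hb hbσ => htc b (hc1d b (hd.trans hb)) hbσ) hw
          (fun b hb hbσ => hcon b hb hbσ) σ hdσ.le le_rfl
        rw [hv] at h2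
        exact absurd h2 (by simp)
      · exact hcon d le_rfl hdσ h1.1
    obtain ⟨b1, hb1d, hb1σ, hk1⟩ := hB d0 le_rfl hd0
    have hb1t : Vh Ps Th b1 t = some a := htc b1 (hc1d b1 hb1d) hb1σ.le
    have hv1 : Vh Ps Th (b1 + 1) ((2 * n + 1) :: t) = some b1 := by
      rcases hu4_alt Ps Th (n := n) hb1t with h1 | h1
      · exfalso
        rcases hk1 with ⟨h2, _⟩ | ⟨n', t', h2, _, h3⟩
        · exact absurd h2 (by simp)
        · have h4 : n' = n ∧ t' = t := by
            have := List.cons.inj h2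
            exact ⟨by omega, this.2.symm⟩
          rw [h4.1, h4.2] at h3
          exact h3 ⟨h1.2.1, h1.2.2.1⟩
      · exact h1.2.2
    have hb1s : b1 + 1 < σ := by
      have := hc.limσ.succ_lt hb1σ
      simpa using this
    have hlt1 : b1 < b1 + 1 := Order.lt_add_one_iff.2 le_rfl
    obtain ⟨b2, ⟨hb2d, hb2σ, hk2⟩, hmin⟩ : ∃ b2, (b1 + 1 ≤ b2 ∧ b2 < σ ∧
        kTop Ps (Cst Ps Th b2) ((2 * n + 1) :: t)) ∧
        ∀ b, b < b2 → ¬ (b1 + 1 ≤ b ∧ b < σ ∧ kTop Ps (Cst Ps Th b) ((2 * n + 1) :: t)) := by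
      have hex := hB (b1 + 1) (hb1d.trans hlt1.le) hb1s
      exact ⟨WellFounded.min Ordinal.lt_wf {b | b1 + 1 ≤ b ∧ b < σ ∧
          kTop Ps (Cst Ps Th b) ((2 * n + 1) :: t)} hex,
        WellFounded.min_mem Ordinal.lt_wf _ hex,
        fun b hb hb' => WellFounded.not_lt_min Ordinal.lt_wf _ hb' hb⟩
    have hd02 : d0 ≤ b2 := hb1d.trans (hlt1.le.trans hb2d)
    have hv2 : Vh Ps Th b2 ((2 * n + 1) :: t) = some b1 :=
      hu4_keep Ps Th (B := b2) (fun b hb hbσ => htc b (hc1d b (hb1d.trans (hlt1.le.trans hb)))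
          (hbσ.trans hb2σ.le)) hv1
        (fun b hb hbb hk => hmin b hbb ⟨hb, hbb.trans hb2σ, hk⟩) b2 hb2d le_rfl
    have ht2 : Vh Ps Th b2 t = some a := htc b2 (hc1d b2 hd02) hb2σ.le
    have hPs : Ps (Cst Ps Th b2) n t ((2 * n + 1) :: t) := by
      rcases hu4_alt Ps Th (n := n) ht2 with h1 | h1
      · exfalso
        rcases hk2 with ⟨h2, _⟩ | ⟨n', t', h2, _, h3⟩
        · exact absurd h2 (by simp)
        · have h4 : n' = n ∧ t' = t := by
            have := List.cons.inj h2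
            exact ⟨by omega, this.2.symm⟩
          rw [h4.1, h4.2] at h3
          exact h3 ⟨h1.2.1, h1.2.2.1⟩
      · exact h1.2.1 ((hu4_dom _ _ _ _).2 ⟨b1, hv2⟩)
    obtain ⟨s', hs'⟩ := hc.onto b2 hb2σ u (hud b2 hd02)
    refine ⟨b2, hud b2 hd02, hb2σ, t, s', ht2, hs', ?_⟩
    exact h.inv _ _ _ _ (hu4_rep hc hb2σ) n t t _ s' a b1 u ht2 ht2 hv2 hs'
      (le_trans (hud b1 hb1d).le le_rfl) hPs
  · -- the search stops at `u0 < ζ`
    exfalso
    have hu0 : u0 < ζ := (hc.hull u0).1 ⟨_, hv⟩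
    have hsc : ∀ b, max c1 u0 < b → b ≤ σ → Vh Ps Th b ((2 * n + 1) :: t) = some u0 := by
      apply vh_const Ps Th hc.limσ hv
      intro r hr ho w hw
      rcases List.suffix_cons_iff.1 hr with h3 | h3
      · subst h3; rw [hv] at hw
        have : u0 = w := by simpa using hw
        subst this; exact le_max_right _ _
      · exact le_trans (hb1 r h3 ho w hw) (le_max_left _ _)
    have hζ1 : max c1 u0 < ζ := max_lt hc1 hu0
    have htζ : Vh Ps Th ζ t = some a := htc ζ hc1 hc.lt.le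
    have hsζ : Vh Ps Th ζ ((2 * n + 1) :: t) = some u0 := hsc ζ hζ1 hc.lt.le
    have hζs : ζ + 1 ≤ σ := by
      have := Order.succ_le_of_lt hc.lt
      simpa using this
    have hs1 : Vh Ps Th (ζ + 1) ((2 * n + 1) :: t) = some u0 :=
      hsc (ζ + 1) (hζ1.trans (Order.lt_add_one_iff.2 le_rfl)) hζs
    obtain ⟨t', s', h1, h2, h3⟩ := hyp u0 hu0
    have h4 : Ps (Cst Ps Th ζ) n t ((2 * n + 1) :: t) :=
      h.inv _ _ _ _ (hu4_rep hc hc.lt) n t' t s' _ a u0 u0 h1 htζ h2 hsζ le_rfl h3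
    rcases hu4_alt Ps Th (n := n) htζ with h5 | h5
    · exact h5.2.2.1 h4
    · rw [h5.2.2] at hs1
      have : ζ = u0 := by simpa using hs1
      exact absurd hu0 (by rw [this]; exact lt_irrefl _)

end Pool.Agent.HT
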