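import Pool.Agent.Helper85.HT.HU1
import Pool.Agent.Helper85.HT.HU2
import Pool.Agent.Helper85.HT.HU3

set_option autoImplicit false

/-!
# HU5 : the condition `Cond1`
-/

namespace Pool.Agent.HT

open Ordinal

section

variable {Ps : HS → ℕ → Tm → Tm → Prop} {Th : HS → ℕ → Prop}

/-- suffixes of a term which is defined at a limit stage are defined -/
theorem hu5_suffix_limit {b : Ordinal.{0}} (hb : Order.IsSuccLimit b) {s t : Tm}
    {a : Ordinal.{0}} (h : Vh Ps Th b s = some a) (ht : t <:+ s) :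
    ∃ a', Vh Ps Th b t = some a' := by
  unfold Vh at h ⊢
  rw [vv_limit _ _ hb] at h
  obtain ⟨c0, hc0, _, h2⟩ := h
  obtain ⟨h3, _⟩ := h2 c0 le_rfl hc0 t ht
  obtain ⟨a', ha'⟩ := Option.isSome_iff_exists.1 h3
  refine ⟨a', ?_⟩
  rw [vv_limit _ _ hb]
  exact ⟨c0, hc0, ha', fun c hc hcb t' ht' => h2 c hc hcb t' (ht'.trans ht)⟩

theorem hu5_base (n : ℕ) (t : Tm) : base ((2 * n + 1) :: t) = (2 * n + 1) :: t := by
  simp [base]

theorem hu5_topTgt (n : ℕ) (t : Tm) : topTgt ((2 * n + 1) :: t) = none := by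
  simp [topTgt]

theorem hu5_succ_odd {b : Ordinal.{0}} {n : ℕ} {t : Tm} {a : Ordinal.{0}}
    (h : Vh Ps Th b t = some a) :
    (∃ u, Vh Ps Th b ((2 * n + 1) :: t) = some u ∧ Vh Ps Th (b + 1) ((2 * n + 1) :: t) = some u) ∨
      Vh Ps Th (b + 1) ((2 * n + 1) :: t) = some b := by
  obtain ⟨hdom, _, _⟩ := rep_core Ps Th b
  have hd : (Cst Ps Th b).dom t := (hdom t).2 ⟨a, h⟩
  have e : Vh Ps Th (b + 1) ((2 * n + 1) :: t)
      = nextV (kOld Ps (Cst Ps Th b)) (kTop Ps (Cst Ps Th b)) b (Vh Ps Th b)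
        ((2 * n + 1) :: t) := by
    unfold Vh; rw [vv_succ]
  rw [e]
  unfold nextV
  rw [hu5_base, hu5_topTgt]
  by_cases hk : kOld Ps (Cst Ps Th b) ((2 * n + 1) :: t)
  · rw [if_pos hk]
    left
    have hr : (Cst Ps Th b).dom ((2 * n + 1) :: t) := by
      rcases hk with ⟨h1, _⟩ | ⟨n', t', h1, _, h3, _⟩
      · exact absurd h1 (by simp)
      · exact h3
    obtain ⟨u, hu⟩ := (hdom _).1 hr
    exact ⟨u, hu, hu⟩
  · rw [if_neg hk]
    right
    have hT : kTop Ps (Cst Ps Th b) ((2 * n + 1) :: t) := by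
      right
      refine ⟨n, t, rfl, hd, fun hh => hk ?_⟩
      right
      exact ⟨n, t, rfl, hd, hh.1, hh.2⟩
    rw [if_pos hT]

theorem hu5_odd_tail {b : Ordinal.{0}} {n : ℕ} {t : Tm} {u : Ordinal.{0}}
    (h : Vh Ps Th (b + 1) ((2 * n + 1) :: t) = some u) : ∃ a, Vh Ps Th b t = some a := by
  obtain ⟨hdom, _, _⟩ := rep_core Ps Th b
  have e : Vh Ps Th (b + 1) ((2 * n + 1) :: t)
      = nextV (kOld Ps (Cst Ps Th b)) (kTop Ps (Cst Ps Th b)) b (Vh Ps Th b)
        ((2 * n + 1) :: t) := by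
    unfold Vh; rw [vv_succ]
  rw [e] at h
  unfold nextV at h
  rw [hu5_base, hu5_topTgt] at h
  by_cases hk : kOld Ps (Cst Ps Th b) ((2 * n + 1) :: t)
  · rcases hk with ⟨h1, _⟩ | ⟨n', t', h1, h2, _, _⟩
    · exact absurd h1 (by simp)
    · rw [List.cons.injEq] at h1
      rw [← h1.2] at h2
      exact (hdom _).1 h2
  · rw [if_neg hk] at h
    by_cases hT : kTop Ps (Cst Ps Th b) ((2 * n + 1) :: t)
    · rcases hT with ⟨h1, _⟩ | ⟨n', t', h1, h2, _⟩
      · exact absurd h1 (by simp)
      · rw [List.cons.injEq] at h1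
        rw [← h1.2] at h2
        exact (hdom _).1 h2
    · rw [if_neg hT] at h
      exact absurd h (by simp)

/-- a persistent reason for the condition -/
def HU5Good (Ps : HS → ℕ → Tm → Tm → Prop) (Th : HS → ℕ → Prop) (c σ : Ordinal.{0}) (s : Tm) :
    Prop :=
  (∃ b0 < σ, ∀ b, b0 ≤ b → b < σ → Vh Ps Th b s = none) ∨
  (∃ b0 < σ, ∃ t, t <:+ s ∧ oddHead t ∧ ∀ b, b0 ≤ b → b < σ →
    (∃ u, Vh Ps Th b t = some u ∧ c ≤ u) ∨ (Vh Ps Th b t = none ∧ Order.IsSuccLimit b))

theorem hu5_cases (b : Ordinal.{0}) : b = 0 ∨ (∃ b', b = b' + 1) ∨ Order.IsSuccLimit b := by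
  rcases Ordinal.zero_or_succ_or_isSuccLimit b with h | ⟨a, h⟩ | h
  · exact Or.inl h
  · exact Or.inr (Or.inl ⟨a, by rw [← h]; exact Order.succ_eq_add_one a⟩)
  · exact Or.inr (Or.inr h)

theorem hu5_none_cons {σ : Ordinal.{0}} (hσ : Order.IsSuccLimit σ) {e : ℕ} {s : Tm}
    (h : ∃ b0 < σ, ∀ b, b0 ≤ b → b < σ → Vh Ps Th b s = none) :
    ∃ b0 < σ, ∀ b, b0 ≤ b → b < σ → Vh Ps Th b (e :: s) = none := by
  obtain ⟨b0, hb0, h⟩ := h
  refine ⟨b0 + 1, hσ.add_one_lt hb0, fun b hb hbσ => ?_⟩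
  have hb0b : b0 < b := lt_of_lt_of_le (lt_add_one b0) hb
  rcases Nat.even_or_odd' e with ⟨n, rfl | rfl⟩
  · have := h b hb0b.le hbσ
    unfold Vh at this ⊢
    rw [vv_sub, this]
    rfl
  · by_contra hne
    obtain ⟨u, hu⟩ := Option.ne_none_iff_exists'.1 hne
    rcases hu5_cases b with rfl | ⟨b', rfl⟩ | hl
    · exact absurd hb0b (by simp)
    · obtain ⟨a, ha⟩ := hu5_odd_tail hu
      have h1 : b0 ≤ b' := Order.lt_add_one_iff.1 hb0b
      rw [h b' h1 (lt_trans (lt_add_one b') hbσ)] at ha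
      exact absurd ha (by simp)
    · obtain ⟨a, ha⟩ := hu5_suffix_limit hl hu (List.suffix_cons _ _)
      rw [h b hb0b.le hbσ] at ha
      exact absurd ha (by simp)

theorem hu5_good {c σ : Ordinal.{0}} (hσ : Order.IsSuccLimit σ) (hc : c < σ)
    (hnil : Vh Ps Th σ [] ≠ none) : ∀ s : Tm, Vh Ps Th σ s = none → HU5Good Ps Th c σ s := by
  intro s
  induction s with
  | nil => intro h; exact absurd h hnil
  | cons e s ih =>
    intro h
    by_cases hs : Vh Ps Th σ s = none
    · rcases ih hs with h1 | ⟨b0, hb0, t, ht, ho, h1⟩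
      · exact Or.inl (hu5_none_cons hσ h1)
      · exact Or.inr ⟨b0, hb0, t, ht.trans (List.suffix_cons _ _), ho, h1⟩
    · obtain ⟨a', ha'⟩ := Option.ne_none_iff_exists'.1 hs
      have hlim := ha'
      unfold Vh at hlim
      rw [vv_limit _ _ hσ] at hlim
      obtain ⟨d, hd, hd1, hd2⟩ := hlim
      have hcon : ∀ b, d ≤ b → b < σ → Vh Ps Th b s = some a' := by
        intro b hb hbσ
        have := (hd2 b hb hbσ s (List.suffix_refl _)).2
        unfold Vh
        rw [this, hd1]
      rcases Nat.even_or_odd' e with ⟨n, rfl | rfl⟩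
      · left
        refine ⟨d, hd, fun b hb hbσ => ?_⟩
        have h1 := hcon b hb hbσ
        unfold Vh at h h1 ha' ⊢
        rw [vv_sub, ha'] at h
        rw [vv_sub, h1]
        exact h
      · -- the odd case
        set r : Tm := (2 * n + 1) :: s with hr
        have hro : oddHead r := ⟨n, s, rfl⟩
        set d1 : Ordinal.{0} := max c d with hd1'
        have hd1σ : d1 < σ := max_lt hc hd
        have hdd1 : d ≤ d1 := le_max_right _ _
        have hcd1 : c ≤ d1 := le_max_left _ _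
        have hex : ∃ b', d1 ≤ b' ∧ b' < σ ∧ Vh Ps Th (b' + 1) r = some b' := by
          by_contra hno
          push Not at hno
          have hstep : ∀ b, d1 ≤ b → b < σ → ∃ u, Vh Ps Th b r = some u ∧
              Vh Ps Th (b + 1) r = some u := by
            intro b hb hbσ
            rcases hu5_succ_odd (n := n) (hcon b (hdd1.trans hb) hbσ) with h1 | h1
            · exact h1
            · exact absurd h1 (hno b hb hbσ)
          have hconst : ∀ b, d1 ≤ b → b < σ → Vh Ps Th b r = Vh Ps Th d1 r := by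
            intro b
            induction b using WellFoundedLT.induction with
            | _ b ihb =>
              intro hb hbσ
              rcases eq_or_lt_of_le hb with rfl | hlt
              · rfl
              rcases hu5_cases b with rfl | ⟨b', rfl⟩ | hl
              · exact absurd hlt (by simp)
              · have h1 : d1 ≤ b' := Order.lt_add_one_iff.1 hlt
                have h2 : b' < σ := lt_trans (lt_add_one b') hbσ
                obtain ⟨u, hu1, hu2⟩ := hstep b' h1 h2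
                rw [hu2, ← hu1]
                exact ihb b' (lt_add_one b') h1 h2
              · obtain ⟨u, hu1, _⟩ := hstep b hb hbσ
                have hu1' := hu1
                unfold Vh at hu1'
                rw [vv_limit _ _ hl] at hu1'
                obtain ⟨c0, hc0, hc1, hc2⟩ := hu1'
                have hm : max c0 d1 < b := max_lt hc0 hlt
                have h3 := (hc2 (max c0 d1) (le_max_left _ _) hm r (List.suffix_refl _)).2
                have h4 := ihb (max c0 d1) hm (le_max_right _ _) (hm.trans hbσ)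
                unfold Vh at h4 hu1 ⊢
                rw [hu1, ← h4, h3, hc1]
          obtain ⟨u, hu, _⟩ := hstep d1 le_rfl hd1σ
          have : Vh Ps Th σ r = some u := by
            unfold Vh
            rw [vv_limit _ _ hσ]
            refine ⟨d1, hd1σ, hu, fun b hb hbσ t ht => ?_⟩
            rcases List.suffix_cons_iff.1 ht with rfl | ht'
            · have h1 := hconst b hb hbσ
              unfold Vh at h1 hu
              refine ⟨?_, h1⟩
              rw [h1, hu]; rfl
            · have h1 := hd2 b (hdd1.trans hb) hbσ t ht'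
              have h2 := hd2 d1 hdd1 hd1σ t ht'
              exact ⟨h1.1, by rw [h1.2, h2.2]⟩
          rw [h] at this
          exact absurd this (by simp)
        obtain ⟨b', hb1, hb2, hb3⟩ := hex
        right
        refine ⟨b' + 1, hσ.add_one_lt hb2, r, List.suffix_refl _, hro, fun b hb hbσ => ?_⟩
        by_cases hnone : Vh Ps Th b r = none
        · right
          refine ⟨hnone, ?_⟩
          rcases hu5_cases b with rfl | ⟨b'', rfl⟩ | hl
          · exact absurd (lt_of_lt_of_le (lt_add_one b') hb) (by simp)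
          · have h1 : b' ≤ b'' := by
              have := lt_of_lt_of_le (lt_add_one b') hb
              exact Order.lt_add_one_iff.1 this
            have h2 : b'' < σ := lt_trans (lt_add_one b'') hbσ
            rcases hu5_succ_odd (n := n) (hcon b'' (hdd1.trans (hb1.trans h1)) h2)
              with ⟨u, _, h3⟩ | h3
            · rw [hnone] at h3; exact absurd h3 (by simp)
            · rw [hnone] at h3; exact absurd h3 (by simp)
          · exact hl
        · left
          obtain ⟨u, hu⟩ := Option.ne_none_iff_exists'.1 hnone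
          refine ⟨u, hu, ?_⟩
          by_contra hlt
          push Not at hlt
          have hub' : u < b' := lt_of_lt_of_le hlt (hcd1.trans hb1)
          have h4 := vv_odd _ _ hro hu (b' + 1) (hub'.trans (lt_add_one b')) hb
          unfold Vh at hb3
          rw [hb3] at h4
          exact absurd (Option.some_injective _ h4) (ne_of_gt hub')

end

theorem hull_h1 {Ps : HS → ℕ → Tm → Tm → Prop} {Th : HS → ℕ → Prop} (h : HullHyp Ps Th)
    {ζ σ : Ordinal.{0}} (hc : HullCore Ps Th ζ σ) :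
    ∀ i c, c < σ → ∃ b0 < σ, ∀ b, b0 ≤ b → b < σ → Cond1 (Vh Ps Th) i ζ c b := by
  intro i c hcσ
  have hζ0 : (0 : Ordinal.{0}) < ζ := hc.limζ.bot_lt
  have hnil : Vh Ps Th σ [] ≠ none := by
    obtain ⟨s, hs⟩ := (hc.hull 0).2 hζ0
    obtain ⟨a, ha⟩ := hu5_suffix_limit hc.limσ hs (List.nil_suffix)
    rw [ha]; simp
  -- one term
  have one : ∀ s : Tm, ∃ b0 < σ, ∀ b, b0 ≤ b → b < σ →
      (Vh Ps Th b s = none ∨ (∃ a, Vh Ps Th b s = some a ∧ a < ζ) ∨
        ∃ t, t <:+ s ∧ oddHead t ∧ ∃ a, Vh Ps Th b t = some a ∧ c ≤ a) := by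
    intro s
    by_cases hs : Vh Ps Th σ s = none
    · rcases hu5_good hc.limσ hcσ hnil s hs with ⟨b0, hb0, h1⟩ | ⟨b0, hb0, t, ht, ho, h1⟩
      · exact ⟨b0, hb0, fun b hb hbσ => Or.inl (h1 b hb hbσ)⟩
      · refine ⟨b0, hb0, fun b hb hbσ => ?_⟩
        rcases h1 b hb hbσ with ⟨u, hu, hcu⟩ | ⟨hn, hl⟩
        · exact Or.inr (Or.inr ⟨t, ht, ho, u, hu, hcu⟩)
        · left
          by_contra hne
          obtain ⟨u, hu⟩ := Option.ne_none_iff_exists'.1 hne
          obtain ⟨a, ha⟩ := hu5_suffix_limit hl hu ht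
          rw [hn] at ha
          exact absurd ha (by simp)
    · obtain ⟨a, ha⟩ := Option.ne_none_iff_exists'.1 hs
      have haζ : a < ζ := (hc.hull a).1 ⟨s, ha⟩
      have hlim := ha
      unfold Vh at hlim
      rw [vv_limit _ _ hc.limσ] at hlim
      obtain ⟨d, hd, hd1, hd2⟩ := hlim
      refine ⟨d, hd, fun b hb hbσ => Or.inr (Or.inl ⟨a, ?_, haζ⟩)⟩
      have := (hd2 b hb hbσ s (List.suffix_refl _)).2
      unfold Vh
      rw [this, hd1]
  induction i with
  | zero =>
    exact ⟨0, hζ0.trans hc.lt, fun b _ _ s hs => absurd hs (Nat.not_lt_zero _)⟩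
  | succ i ih =>
    obtain ⟨b0, hb0, h1⟩ := ih
    obtain ⟨b1, hb1, h2⟩ := one (tmOf i)
    refine ⟨max b0 b1, max_lt hb0 hb1, fun b hb hbσ s hs => ?_⟩
    rcases Nat.lt_succ_iff_lt_or_eq.1 hs with hlt | heq
    · exact h1 b ((le_max_left _ _).trans hb) hbσ s hlt
    · have : s = tmOf i := by
        unfold tmOf
        rw [← heq]
        exact (Denumerable.ofNat_encode s).symm
      rw [this]
      exact h2 b ((le_max_right _ _).trans hb) hbσ

theorem hull_h2 {Ps : HS → ℕ → Tm → Tm → Prop} {Th : HS → ℕ → Prop} (h : HullHyp Ps Th)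
    {ζ σ : Ordinal.{0}} (hc : HullCore Ps Th ζ σ) :
    ∀ b < σ, Order.IsSuccLimit b → ∀ γ < b, ¬ ∃ c : ℕ → Ordinal.{0}, StrictMono c ∧
      (∀ i, c i < b) ∧ (∀ a < b, ∃ i, a < c i) ∧
      ∀ i, Cond1 (Vh Ps Th) i γ (c i) (c (i + 1)) := by
  rintro b hbσ hb γ hγ ⟨c, hmono, hcb, hcof, hcond⟩
  obtain ⟨s, hs⟩ := hc.onto b hbσ γ hγ
  unfold Vh at hs
  rw [vv_limit _ _ hb] at hs
  obtain ⟨c0, hc0, hs0, hs1⟩ := hs
  obtain ⟨i1, hi1⟩ := hcof c0 hc0
  set i : ℕ := max i1 (Encodable.encode s + 1) with hi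
  have hci : c0 < c i := lt_of_lt_of_le hi1 (hmono.monotone (le_max_left _ _))
  have hci' : c0 < c (i + 1) := hci.trans (hmono (Nat.lt_succ_self i))
  have hval : Vh Ps Th (c (i + 1)) s = some γ := by
    unfold Vh
    rw [(hs1 _ hci'.le (hcb _) s (List.suffix_refl _)).2, hs0]
  rcases hcond i s (by have := le_max_right i1 (Encodable.encode s + 1); omega)
    with h1 | ⟨a, h1, h2⟩ | ⟨t, ht, _, a, h1, h2⟩
  · rw [hval] at h1; exact absurd h1 (by simp)
  · rw [hval] at h1
    have : γ = a := Option.some_injective _ h1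
    exact absurd h2 (by rw [this]; exact lt_irrefl _)
  · unfold Vh at h1
    rw [(hs1 _ hci'.le (hcb _) t ht).2] at h1
    have := vv_bd _ _ h1
    exact absurd (lt_of_lt_of_le (this.trans hci) h2) (lt_irrefl _)

end Pool.Agent.HT
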