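import Pool.Agent.Helper85.HT.HU1
import Pool.Agent.Helper85.HT.HU2
import Pool.Agent.Helper85.HT.HU3
import Pool.Agent.Helper85.HT.HU4

set_option autoImplicit false

namespace Pool.Agent.HT

open Ordinal

/-! ## HU6 : loops -/

theorem hu6_shift_aux (F : Cantor → Cantor) {A B r : Ordinal.{0}} (hr : Order.IsSuccLimit r)
    (h : ∀ r' < r, titer F (A + r') = titer F (B + r')) (m : ℕ)
    (hm : titer F (A + r) m = true) : titer F (B + r) m = true := by
  rw [titer_limit F (isSuccLimit_add A hr)] at hm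
  rw [titer_limit F (isSuccLimit_add B hr)]
  intro a ha
  obtain ⟨r0, hr0, ha0⟩ := (lt_add_iff_of_isSuccLimit hr).1 ha
  obtain ⟨b, hb1, hb2, hb3⟩ := hm (A + r0) ((add_lt_add_iff_left A).2 hr0)
  have hAb : A ≤ b := le_trans (le_self_add) hb1
  have e : A + (b - A) = b := Ordinal.add_sub_cancel_of_le hAb
  have h1 : b - A < r := by
    rw [← add_lt_add_iff_left A, e]; exact hb2
  have h2 : r0 ≤ b - A := by
    rw [← add_le_add_iff_left A, e]; exact hb1
  refine ⟨B + (b - A), ?_, (add_lt_add_iff_left B).2 h1, ?_⟩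
  · exact ha0.le.trans ((add_le_add_iff_left B).2 h2)
  · rw [← h _ h1, e]; exact hb3

theorem hu6_shift (F : Cantor → Cantor) {A B r : Ordinal.{0}} (hr : Order.IsSuccLimit r)
    (h : ∀ r' < r, titer F (A + r') = titer F (B + r')) :
    titer F (A + r) = titer F (B + r) := by
  funext m
  rw [Bool.eq_iff_iff]
  exact ⟨hu6_shift_aux F hr h m, hu6_shift_aux F hr (fun r' hr' => (h r' hr').symm) m⟩

theorem hu6_loop (F : Cantor → Cantor) {ζ σ : Ordinal.{0}} (h : ζ < σ)
    (hσ : Order.IsSuccLimit σ) (h1 : titer F ζ = titer F σ)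
    (h2 : ∀ m, titer F ζ m = false → ∀ b, ζ ≤ b → b < σ → titer F b m = false) :
    ∀ β, titer F (ζ + β) = titer F (ζ + β % (σ - ζ)) := by
  obtain ⟨δ, hδ⟩ : ∃ δ, δ = σ - ζ := ⟨_, rfl⟩
  rw [← hδ]
  have hδσ : ζ + δ = σ := by rw [hδ]; exact Ordinal.add_sub_cancel_of_le h.le
  have hδl : Order.IsSuccLimit δ := by
    rw [hδ]; exact isSuccLimit_sub hσ.isSuccPrelimit h
  have hδ0 : δ ≠ 0 := (isSuccLimit_iff.1 hδl).1
  intro β
  induction β using WellFoundedLT.induction with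
  | ind β ih =>
  rcases zero_or_succ_or_isSuccLimit β with h0 | ⟨γ, hγ⟩ | hl
  · rw [h0, Ordinal.zero_mod]
  · rw [Order.succ_eq_add_one] at hγ
    have hγβ : γ < β := by rw [← hγ]; exact lt_add_one γ
    have e1 : (γ + 1) % δ = γ % δ + 1 := by
      conv_lhs => rw [← div_add_mod γ δ]
      rw [add_assoc, mul_add_mod_self]
      apply mod_eq_of_lt
      exact hδl.add_one_lt (mod_lt γ hδ0)
    rw [← hγ, e1, ← add_assoc, ← add_assoc, titer_add_one, titer_add_one, ih γ hγβ]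
  · have hdm := div_add_mod β δ
    obtain ⟨k, hk⟩ : ∃ k, k = β / δ := ⟨_, rfl⟩
    obtain ⟨r, hr⟩ : ∃ r, r = β % δ := ⟨_, rfl⟩
    have hrδ : r < δ := by rw [hr]; exact mod_lt β hδ0
    rw [← hr]
    rw [← hk, ← hr] at hdm
    by_cases hr0 : r = 0
    · rw [hr0, add_zero] at hdm
      rw [hr0, add_zero]
      rcases zero_or_succ_or_isSuccLimit k with hk0 | ⟨k', hk'⟩ | hkl
      · exfalso
        rw [hk0, mul_zero] at hdm
        exact (isSuccLimit_iff.1 hl).1 hdm.symm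
      · rw [Order.succ_eq_add_one] at hk'
        have e2 : β = δ * k' + δ := by rw [← hdm, ← hk', mul_add_one]
        have h3 : titer F (ζ + δ * k' + δ) = titer F (ζ + δ) := by
          apply hu6_shift F hδl
          intro r' hr'
          have hlt : δ * k' + r' < β := by rw [e2]; exact (add_lt_add_iff_left _).2 hr'
          rw [add_assoc, ih _ hlt, mul_add_mod_self, mod_eq_of_lt hr']
        rw [e2, ← add_assoc, h3, hδσ, h1]
      · have hlim : Order.IsSuccLimit (ζ + β) := isSuccLimit_add ζ hl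
        funext m
        cases hm : titer F ζ m with
        | true =>
          rw [titer_limit F hlim]
          intro a ha
          obtain ⟨d, hd, had⟩ := (lt_add_iff_of_isSuccLimit hl).1 ha
          rw [← hdm] at hd
          obtain ⟨k', hk', hdk⟩ := (lt_mul_iff_of_isSuccLimit hkl).1 hd
          have hlt : δ * k' < β := by
            rw [← hdm]
            exact (mul_lt_mul_iff_right₀ (pos_iff_ne_zero.2 hδ0)).2 hk'
          refine ⟨ζ + δ * k', ?_, (add_lt_add_iff_left ζ).2 hlt, ?_⟩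
          · exact had.le.trans ((add_le_add_iff_left ζ).2 hdk.le)
          · rw [ih _ hlt, mul_mod, add_zero]; exact hm
        | false =>
          rw [titer_limit_false F hlim]
          refine ⟨ζ, ?_, ?_⟩
          · conv_lhs => rw [← add_zero ζ]
            exact (add_lt_add_iff_left ζ).2 (pos_iff_ne_zero.2 (isSuccLimit_iff.1 hl).1)
          · intro b hb hb'
            have e : ζ + (b - ζ) = b := Ordinal.add_sub_cancel_of_le hb
            have hlt : b - ζ < β := by rw [← add_lt_add_iff_left ζ, e]; exact hb'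
            rw [← e, ih _ hlt]
            apply h2 m hm
            · exact le_self_add
            · rw [← hδσ]; exact (add_lt_add_iff_left ζ).2 (mod_lt _ hδ0)
    · have hrl : Order.IsSuccLimit r := by
        rw [← hdm, isSuccLimit_add_iff] at hl
        rcases hl with hl | ⟨hl, _⟩
        · exact hl
        · exact absurd hl hr0
      rw [← hdm, ← add_assoc]
      apply hu6_shift F hrl
      intro r' hr'
      have hlt : δ * k + r' < β := by
        conv_rhs => rw [← hdm]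
        exact (add_lt_add_iff_left _).2 hr'
      rw [add_assoc, ih _ hlt, mul_add_mod_self, mod_eq_of_lt (hr'.trans hrδ)]

theorem loop_lemma (F : Cantor → Cantor) {ζ σ : Ordinal.{0}} (h : ζ < σ)
    (hσ : Order.IsSuccLimit σ) (h1 : titer F ζ = titer F σ)
    (h2 : ∀ m, titer F ζ m = false → ∀ b, ζ ≤ b → b < σ → titer F b m = false) :
    ∀ b, ∃ b' < σ, titer F b' = titer F b := by
  intro b
  rcases lt_or_ge b ζ with hb | hb
  · exact ⟨b, hb.trans h, rfl⟩
  · have e : ζ + (b - ζ) = b := Ordinal.add_sub_cancel_of_le hb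
    have hδ0 : σ - ζ ≠ 0 := by
      rw [Ne, Ordinal.sub_eq_zero_iff_le, not_le]; exact h
    refine ⟨ζ + (b - ζ) % (σ - ζ), ?_, ?_⟩
    · have := (add_lt_add_iff_left ζ).2 (mod_lt (b - ζ) hδ0)
      rwa [Ordinal.add_sub_cancel_of_le h.le] at this
    · rw [← hu6_loop F h hσ h1 h2, e]

/-! ## the cells of the hull machine -/

theorem hu6_zero (Ps : HS → ℕ → Tm → Tm → Prop) (Th : HS → ℕ → Prop) (b : Ordinal.{0}) :
    titer (HOp Ps Th) b 0 = false := by
  induction b using WellFoundedLT.induction with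
  | ind b ih =>
  rcases zero_or_succ_or_isSuccLimit b with h0 | ⟨c, hc⟩ | hl
  · rw [h0, titer_zero]
  · rw [Order.succ_eq_add_one] at hc
    rw [← hc, titer_add_one]
    unfold HOp
    rw [decide_eq_false_iff_not]
    intro hb
    simp [hBit] at hb
  · rw [titer_limit_false _ hl]
    exact ⟨0, pos_iff_ne_zero.2 (isSuccLimit_iff.1 hl).1, fun c _ hc => ih c hc⟩

theorem hu6_raw (Ps : HS → ℕ → Tm → Tm → Prop) (Th : HS → ℕ → Prop) {m : ℕ} (hm : m ≠ 0)
    (b : Ordinal.{0}) : (Cst Ps Th b).raw m ↔ titer (HOp Ps Th) b m = true := by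
  unfold Cst canon
  simp [hm]

theorem hu6_tmOf (s : Tm) : tmOf (Encodable.encode s) = s := by
  unfold tmOf; exact Denumerable.ofNat_encode s

/-- if cell `m` is `1` at `ζ` then it is `1` at `σ` -/
theorem hu6_true {Ps : HS → ℕ → Tm → Tm → Prop} {Th : HS → ℕ → Prop} (h : HullHyp Ps Th)
    {ζ σ : Ordinal.{0}} (hc : HullCore Ps Th ζ σ) {m : ℕ} (hm : m ≠ 0)
    (h1 : titer (HOp Ps Th) ζ m = true) : titer (HOp Ps Th) σ m = true := by
  obtain ⟨n, hn⟩ := h.m1 m
  have hζ0 : 0 < ζ := pos_iff_ne_zero.2 (isSuccLimit_iff.1 hc.limζ).1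
  have hP : ∀ u < ζ, Psem Ps Th (Vh Ps Th) n ζ 0 u := by
    intro u hu
    obtain ⟨t, ht⟩ := hc.onto ζ hc.lt 0 hζ0
    obtain ⟨s, hs⟩ := hc.onto ζ hc.lt u hu
    exact ⟨t, s, ht, hs, (hn _ _ _).2 ((hu6_raw Ps Th hm ζ).2 h1)⟩
  rw [titer_limit _ hc.limσ]
  intro a ha
  obtain ⟨b, hab, hbσ, t, s, _, _, hps⟩ := hull_el h hc n 0 hζ0 hP a ha
  exact ⟨b, hab.le, hbσ, (hu6_raw Ps Th hm b).1 ((hn _ _ _).1 hps)⟩

/-- if cell `m` is `0` at `ζ` then it is `0` from some stage below `ζ` up to `σ` -/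
theorem hu6_false {Ps : HS → ℕ → Tm → Tm → Prop} {Th : HS → ℕ → Prop} (h : HullHyp Ps Th)
    {ζ σ : Ordinal.{0}} (hc : HullCore Ps Th ζ σ) {m : ℕ} (hm : m ≠ 0)
    (h1 : titer (HOp Ps Th) ζ m = false) :
    ∃ v0 < ζ, ∀ v, v0 ≤ v → v < σ → titer (HOp Ps Th) v m = false := by
  obtain ⟨v0, hv0, h2⟩ := (titer_limit_false _ hc.limζ m).1 h1
  refine ⟨v0, hv0, ?_⟩
  have ha : v0 + 1 < ζ := hc.limζ.add_one_lt hv0
  obtain ⟨sl, hsl⟩ := hc.onto (v0 + 1) (ha.trans hc.lt) v0 (lt_add_one v0)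
  obtain ⟨qr, hqr, hall⟩ := h.m2 m
  obtain ⟨n, hn⟩ := hall (Encodable.encode sl)
  have hsub : ∀ b t, Vh Ps Th b t = some (v0 + 1) →
      Vh Ps Th b (subt (Encodable.encode sl) t) = some v0 := by
    intro b t ht
    unfold subt Vh
    rw [vv_sub]
    unfold Vh at ht hsl
    rw [ht]
    show VV _ _ (v0 + 1) (tmOf (Encodable.encode sl)) = _
    rw [hu6_tmOf]
    exact hsl
  have hDh : ∀ w, Dh Ps Th w qr ↔ titer (HOp Ps Th) w m = true := by
    intro w
    unfold Dh
    rw [hqr, hu6_raw Ps Th hm]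
  have hP : ∀ u < ζ, Psem Ps Th (Vh Ps Th) n ζ (v0 + 1) u := by
    intro u hu
    obtain ⟨t, ht⟩ := hc.onto ζ hc.lt (v0 + 1) ha
    obtain ⟨s, hs⟩ := hc.onto ζ hc.lt u hu
    refine ⟨t, s, ht, hs, (hn _ _ _).2 ?_⟩
    intro s' hd hlt hdat
    obtain ⟨r1, r2, r3⟩ := rep_core Ps Th ζ
    obtain ⟨w, hw, hD⟩ := (r3 s' qr).1 hdat
    rw [hDh] at hD
    have hwζ : w < ζ := vv_bd _ _ hw
    have hv0w : v0 ≤ w := by
      by_contra hlt'
      rw [not_le] at hlt'
      exact hlt ((r2 s' _).2 ⟨w, v0, hw, hsub ζ t ht, hlt'⟩)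
    rw [h2 w hv0w hwζ] at hD
    exact Bool.noConfusion hD
  intro v hv hvσ
  obtain ⟨b, hvb, hbσ, t, s, ht, _, hps⟩ := hull_el h hc n (v0 + 1) ha hP v hvσ
  rw [hn] at hps
  obtain ⟨r1, r2, r3⟩ := rep_core Ps Th b
  obtain ⟨s', hs'⟩ := hc.onto b hbσ v hvb
  have h3 := hps s' ((r1 s').2 ⟨v, hs'⟩) (fun hlt => by
    obtain ⟨w, w', hw, hw', hww⟩ := (r2 _ _).1 hlt
    rw [hs'] at hw
    rw [hsub b t ht] at hw'
    obtain rfl := Option.some.inj hw
    obtain rfl := Option.some.inj hw'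
    exact absurd hww (not_lt.2 hv))
  rw [Bool.eq_false_iff]
  intro h4
  exact h3 ((r3 s' qr).2 ⟨v, hs', (hDh v).2 h4⟩)

/-- the cells of the hull machine (from elementarity for `m1`, `m2`) -/
theorem hull_cells {Ps : HS → ℕ → Tm → Tm → Prop} {Th : HS → ℕ → Prop} (h : HullHyp Ps Th)
    {ζ σ : Ordinal.{0}} (hc : HullCore Ps Th ζ σ) :
    titer (HOp Ps Th) ζ = titer (HOp Ps Th) σ ∧
    ∀ m, titer (HOp Ps Th) ζ m = false → ∀ b, ζ ≤ b → b < σ →
      titer (HOp Ps Th) b m = false := by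
  have key : ∀ m, titer (HOp Ps Th) ζ m = false →
      ∃ v0 < ζ, ∀ v, v0 ≤ v → v < σ → titer (HOp Ps Th) v m = false := by
    intro m hm
    by_cases h0 : m = 0
    · subst h0
      exact ⟨0, pos_iff_ne_zero.2 (isSuccLimit_iff.1 hc.limζ).1,
        fun v _ _ => hu6_zero Ps Th v⟩
    · exact hu6_false h hc h0 hm
  constructor
  · funext m
    cases hm : titer (HOp Ps Th) ζ m with
    | true =>
      have h0 : m ≠ 0 := by
        rintro rfl
        rw [hu6_zero] at hm
        exact Bool.noConfusion hm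
      exact (hu6_true h hc h0 hm).symm
    | false =>
      obtain ⟨v0, hv0, hv⟩ := key m hm
      symm
      rw [titer_limit_false _ hc.limσ]
      exact ⟨v0, hv0.trans hc.lt, hv⟩
  · intro m hm b hb hbσ
    obtain ⟨v0, hv0, hv⟩ := key m hm
    exact hv b (hv0.le.trans hb) hbσ

end Pool.Agent.HT
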