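import Pool.Agent.Helper85.HT.HullDefs

set_option autoImplicit false

/-!
# HU7: the reject cell
-/

namespace Pool.Agent.HT

open Ordinal

theorem hu7_pair_ne {k a : ℕ} (hk : 1 ≤ k) : Nat.pair k a ≠ 0 := by
  have := Nat.left_le_pair k a
  omega

theorem hu7_canon {W W' : Cantor} (h : ∀ m, m ≠ 0 → W m = W' m) : canon W = canon W' := by
  have hL : hLim W ↔ hLim W' := by
    unfold hLim hPar
    rw [h _ (hu7_pair_ne (by norm_num)), h _ (hu7_pair_ne (by norm_num))]
  have hF : ∀ t, W (hFlag t) = W' (hFlag t) := fun t => h _ (hu7_pair_ne (by norm_num))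
  have hD : ∀ t, W (hDom t) = W' (hDom t) := fun t => h _ (hu7_pair_ne (by norm_num))
  have hl : ∀ s t, W (hLt s t) = W' (hLt s t) := fun s t => h _ (hu7_pair_ne (by norm_num))
  have hd : ∀ s q, W (hDat s q) = W' (hDat s q) := fun s q => h _ (hu7_pair_ne (by norm_num))
  have hc : canonDom W = canonDom W' := by
    funext s
    unfold canonDom
    rw [hL, hD]
    simp only [hF]
  unfold canon
  rw [hc]
  simp only [hl, hd, hL]
  congr 1
  funext m
  by_cases hm : m = 0
  · simp [hm]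
  · simp [hm, h m hm]

theorem hu7_HOp {Ps : HS → ℕ → Tm → Tm → Prop} {Th : HS → ℕ → Prop} {W W' : Cantor}
    (h : ∀ m, m ≠ 0 → W m = W' m) (m : ℕ) : HOp Ps Th W m = HOp Ps Th W' m := by
  have h0 : W (hPar 0) = W' (hPar 0) := h _ (hu7_pair_ne (by norm_num))
  have h1 : W (hPar 1) = W' (hPar 1) := h _ (hu7_pair_ne (by norm_num))
  unfold HOp hBit
  rw [hu7_canon h, h0, h1]

theorem hu7_eq (Ps : HS → ℕ → Tm → Tm → Prop) (Th : HS → ℕ → Prop) (Rj : Cantor → HS → Prop)
    (y : Cantor) (b : Ordinal.{0}) :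
    ∀ m, m ≠ 0 → titer (HOpR Ps Th Rj y) b m = titer (HOp Ps Th) b m := by
  induction b using Ordinal.limitRecOn with
  | zero => intro m _; rw [titer_zero, titer_zero]
  | add_one b ih =>
    intro m hm
    rw [titer_add_one, titer_add_one]
    unfold HOpR
    rw [if_neg hm]
    exact hu7_HOp ih m
  | limit b hb ih =>
    intro m hm
    rw [Bool.eq_iff_iff, titer_limit _ hb, titer_limit _ hb]
    constructor
    · intro h a ha
      obtain ⟨c, hac, hc, h1⟩ := h a ha
      exact ⟨c, hac, hc, by rw [← ih c hc m hm]; exact h1⟩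
    · intro h a ha
      obtain ⟨c, hac, hc, h1⟩ := h a ha
      exact ⟨c, hac, hc, by rw [ih c hc m hm]; exact h1⟩

open Classical in
theorem hu7_HOpR_zero (Ps : HS → ℕ → Tm → Tm → Prop) (Th : HS → ℕ → Prop)
    (Rj : Cantor → HS → Prop) (y W : Cantor) :
    HOpR Ps Th Rj y W 0 = decide (Rj y (canon W)) := by
  unfold HOpR
  rw [if_pos rfl]

theorem hu7_succ (Ps : HS → ℕ → Tm → Tm → Prop) (Th : HS → ℕ → Prop) (Rj : Cantor → HS → Prop)
    (y : Cantor) (b : Ordinal.{0}) :
    titer (HOpR Ps Th Rj y) (b + 1) 0 = false ↔ ¬ Rj y (Cst Ps Th b) := by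
  have hc : canon (titer (HOpR Ps Th Rj y) b) = Cst Ps Th b := hu7_canon (hu7_eq Ps Th Rj y b)
  rw [titer_add_one, hu7_HOpR_zero, hc]
  simp

theorem hopR_zero (Ps : HS → ℕ → Tm → Tm → Prop) (Th : HS → ℕ → Prop) (Rj : Cantor → HS → Prop)
    (y : Cantor) : (∀ b, titer (HOpR Ps Th Rj y) b 0 = false) ↔ ∀ b, ¬ Rj y (Cst Ps Th b) := by
  constructor
  · intro h b
    exact (hu7_succ Ps Th Rj y b).1 (h (b + 1))
  · intro h b
    induction b using Ordinal.limitRecOn with
    | zero => rw [titer_zero]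
    | add_one b _ => exact (hu7_succ Ps Th Rj y b).2 (h b)
    | limit b hb ih =>
      rw [titer_limit_false _ hb]
      exact ⟨0, hb.bot_lt, fun c _ hc => ih c hc⟩

end Pool.Agent.HT
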