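import Pool.Agent.Helper85.HT.HU1
import Pool.Agent.Helper85.HT.HU2
import Pool.Agent.Helper85.HT.HU3
import Pool.Agent.Helper85.HT.HU4
import Pool.Agent.Helper85.HT.HU5
import Pool.Agent.Helper85.HT.HU6
import Pool.Agent.Helper85.HT.HU7
import Pool.Agent.Helper85.HT.HU8

set_option autoImplicit false

/-!
# The hull machine: main statement
-/

namespace Pool.Agent.HT

open Ordinal

theorem hull_exists {Ps : HS → ℕ → Tm → Tm → Prop} {Th : HS → ℕ → Prop} (h : HullHyp Ps Th) :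
    ∃ V D ζ σ, HullFacts Ps Th V D ζ σ := by
  obtain ⟨ζ, σ, hc⟩ := hull_core h
  refine ⟨Vh Ps Th, Dh Ps Th, ζ, σ, hc.lt, hc.limζ, hc.limσ, hc.ctble, ?_, ?_, hull_el h hc,
    hull_h1 h hc, hull_h2 h hc, ?_⟩
  · intro b hb
    obtain ⟨h1, h2, h3⟩ := rep_core Ps Th b
    exact ⟨h1, h2, h3, fun s a hs => vv_bd _ _ hs, hc.onto b hb, fun n s => vv_sub _ _ b n s⟩
  · intro b q; exact Iff.rfl
  · intro b
    obtain ⟨h1, h2⟩ := hull_cells h hc
    obtain ⟨b', hb', e⟩ := loop_lemma _ hc.lt hc.limσ h1 h2 b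
    exact ⟨b', hb', by unfold Cst; rw [e]⟩

end Pool.Agent.HT
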