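import Pool.Agent.Helper85.HT.Defs3

set_option autoImplicit false

/-!
# The hull machine: definitions

A transfinite process (with limsup at limits) whose state at stage `b` names the ordinals below `b`
by terms (lists of numbers) and stores for every named stage its data.
-/

namespace Pool.Agent.HT

open Ordinal

/-- terms: `[]` names `0`; `2n :: s` names the ordinal with the `n`-th name at the stage named by
`s`; `2n+1 :: t` is the search number `n` with parameter `t`. -/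
abbrev Tm : Type := List ℕ

/-- the `n`-th term -/
def tmOf (n : ℕ) : Tm := Denumerable.ofNat (List ℕ) n

def subt (l : ℕ) (s : Tm) : Tm := (2 * l) :: s

/-- the canonical form of a state -/
structure HS where
  dom : Tm → Prop
  lt : Tm → Tm → Prop
  dat : Tm → ℕ → Prop
  raw : ℕ → Prop

def HS.eqv (C : HS) (s t : Tm) : Prop := C.dom s ∧ C.dom t ∧ ¬ C.lt s t ∧ ¬ C.lt t s

/-! ### cells -/

def hDom (s : Tm) : ℕ := Nat.pair 1 (Encodable.encode s)
def hLt (s t : Tm) : ℕ := Nat.pair 2 (Nat.pair (Encodable.encode s) (Encodable.encode t))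
def hDat (s : Tm) (q : ℕ) : ℕ := Nat.pair 3 (Nat.pair (Encodable.encode s) q)
def hFlag (s : Tm) : ℕ := Nat.pair 4 (Encodable.encode s)
def hPar (i : ℕ) : ℕ := Nat.pair 5 i

/-- limit stages have both parity cells set -/
def hLim (W : Cantor) : Prop := W (hPar 0) = true ∧ W (hPar 1) = true

/-- the canonical state coded by `W` -/
def canonDom (W : Cantor) (s : Tm) : Prop :=
  (hLim W ∧ ∀ t, t <:+ s → W (hFlag t) = false) ∨ (¬ hLim W ∧ W (hDom s) = true)

def canon (W : Cantor) : HS where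
  dom := canonDom W
  lt := fun s t => W (hLt s t) = true ∧ (hLim W → canonDom W s ∧ canonDom W t)
  dat := fun s q => W (hDat s q) = true ∧ (hLim W → canonDom W s)
  raw := fun m => m ≠ 0 ∧ W m = true

/-! ### the next state -/

/-- drop the even heads -/
def base : Tm → Tm
  | [] => []
  | e :: t => if e % 2 = 0 then base t else e :: t

/-- what a term points to, when its base points to the top; `none` is the top itself. -/
def topTgt : Tm → Option Tm
  | [] => none
  | e :: t => if e % 2 = 0 then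
      (match topTgt t with
      | none => some (tmOf (e / 2))
      | some s => some (e :: s))
    else none

/-- the base term `r` keeps its value -/
def kOld (Ps : HS → ℕ → Tm → Tm → Prop) (C : HS) (r : Tm) : Prop :=
  (r = [] ∧ C.dom []) ∨
    ∃ n t, r = (2 * n + 1) :: t ∧ C.dom t ∧ C.dom r ∧ ¬ Ps C n t r

/-- the base term `r` gets the new value -/
def kTop (Ps : HS → ℕ → Tm → Tm → Prop) (C : HS) (r : Tm) : Prop :=
  (r = [] ∧ ¬ C.dom []) ∨
    ∃ n t, r = (2 * n + 1) :: t ∧ C.dom t ∧ ¬ (C.dom r ∧ ¬ Ps C n t r)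

/-- `s` has at the next stage the value which `s'` has now -/
def pOld (Ps : HS → ℕ → Tm → Tm → Prop) (C : HS) (s s' : Tm) : Prop :=
  (kOld Ps C (base s) ∧ C.dom s ∧ s' = s) ∨
  (kTop Ps C (base s) ∧ topTgt s = some s' ∧ C.dom s')

/-- `s` names at the next stage the present stage -/
def pTop (Ps : HS → ℕ → Tm → Tm → Prop) (C : HS) (s : Tm) : Prop :=
  kTop Ps C (base s) ∧ topTgt s = none

def nDom (Ps : HS → ℕ → Tm → Tm → Prop) (C : HS) (s : Tm) : Prop :=
  pTop Ps C s ∨ ∃ s', pOld Ps C s s'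

def nLt (Ps : HS → ℕ → Tm → Tm → Prop) (C : HS) (s t : Tm) : Prop :=
  ∃ s', pOld Ps C s s' ∧ (pTop Ps C t ∨ ∃ t', pOld Ps C t t' ∧ C.lt s' t')

def nDat (Ps : HS → ℕ → Tm → Tm → Prop) (Th : HS → ℕ → Prop) (C : HS) (s : Tm) (q : ℕ) : Prop :=
  (pTop Ps C s ∧ Th C q) ∨ ∃ s', pOld Ps C s s' ∧ C.dat s' q

def nFlag (Ps : HS → ℕ → Tm → Tm → Prop) (C : HS) (s : Tm) : Prop :=
  ¬ ∃ s', pOld Ps C s s' ∧ C.eqv s s'

/-- bit `a` with tag `t` of the next state -/
def hBit (Ps : HS → ℕ → Tm → Tm → Prop) (Th : HS → ℕ → Prop) (W : Cantor) (t a : ℕ) : Prop :=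
  (t = 1 ∧ nDom Ps (canon W) (tmOf a)) ∨
  (t = 2 ∧ nLt Ps (canon W) (tmOf a.unpair.1) (tmOf a.unpair.2)) ∨
  (t = 3 ∧ nDat Ps Th (canon W) (tmOf a.unpair.1) a.unpair.2) ∨
  (t = 4 ∧ nFlag Ps (canon W) (tmOf a)) ∨
  (t = 5 ∧ a = 0 ∧ ¬ (W (hPar 0) = true ∧ W (hPar 1) = false)) ∨
  (t = 5 ∧ a = 1 ∧ (W (hPar 0) = true ∧ W (hPar 1) = false))

open Classical in
/-- the hull operator -/
noncomputable def HOp (Ps : HS → ℕ → Tm → Tm → Prop) (Th : HS → ℕ → Prop) (W : Cantor) : Cantor :=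
  fun m => decide (hBit Ps Th W m.unpair.1 m.unpair.2)

open Classical in
/-- the hull operator with a cell `0` in which the input `y` can be rejected -/
noncomputable def HOpR (Ps : HS → ℕ → Tm → Tm → Prop) (Th : HS → ℕ → Prop)
    (Rj : Cantor → HS → Prop) (y W : Cantor) : Cantor :=
  fun m => if m = 0 then decide (Rj y (canon W)) else HOp Ps Th W m

/-- canonical state at stage `b` -/
noncomputable def Cst (Ps : HS → ℕ → Tm → Tm → Prop) (Th : HS → ℕ → Prop) (b : Ordinal.{0}) : HS :=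
  canon (titer (HOp Ps Th) b)

/-! ### the values of the terms -/

open Classical in
noncomputable def nextV (kO kT : Tm → Prop) (b : Ordinal.{0}) (v : Tm → Option Ordinal.{0})
    (s : Tm) : Option Ordinal.{0} :=
  if kO (base s) then v s else
    if kT (base s) then (match topTgt s with
      | none => some b
      | some s' => v s') else none

open Classical in
noncomputable def limV (b : Ordinal.{0}) (f : ∀ a : Ordinal.{0}, a < b → Tm → Option Ordinal.{0})
    (s : Tm) : Option Ordinal.{0} :=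
  if h : ∃ a, ∃ c0, ∃ h0 : c0 < b, f c0 h0 s = some a ∧
      ∀ c (hc : c < b), c0 ≤ c → ∀ t, t <:+ s → (f c hc t).isSome ∧ f c hc t = f c0 h0 t
    then some (Classical.choose h) else none

/-- the values, for given conditions `kO`, `kT` at the stages -/
noncomputable def VV (kO kT : Ordinal.{0} → Tm → Prop) (o : Ordinal.{0}) :
    Tm → Option Ordinal.{0} :=
  Ordinal.limitRecOn (motive := fun _ => Tm → Option Ordinal.{0}) o (fun _ => none)
    (fun b v => nextV (kO b) (kT b) b v) (fun b _ f => limV b f)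

/-- the values of the terms at the stages of the hull machine -/
noncomputable def Vh (Ps : HS → ℕ → Tm → Tm → Prop) (Th : HS → ℕ → Prop) (o : Ordinal.{0}) :
    Tm → Option Ordinal.{0} :=
  VV (fun b => kOld Ps (Cst Ps Th b)) (fun b => kTop Ps (Cst Ps Th b)) o

/-- the data of the stages -/
def Dh (Ps : HS → ℕ → Tm → Tm → Prop) (Th : HS → ℕ → Prop) (b : Ordinal.{0}) (q : ℕ) : Prop :=
  Th (Cst Ps Th b) q

/-- the canonical state `C` represents the values `V b` and the data `D a`, `a < b`. -/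
structure RepAt (C : HS) (V : Ordinal.{0} → Tm → Option Ordinal.{0})
    (D : Ordinal.{0} → ℕ → Prop) (b : Ordinal.{0}) : Prop where
  dom : ∀ s, C.dom s ↔ ∃ a, V b s = some a
  lt : ∀ s t, C.lt s t ↔ ∃ a a', V b s = some a ∧ V b t = some a' ∧ a < a'
  dat : ∀ s q, C.dat s q ↔ ∃ a, V b s = some a ∧ D a q
  bd : ∀ s a, V b s = some a → a < b
  onto : ∀ a < b, ∃ s, V b s = some a
  sub : ∀ n s, V b ((2 * n) :: s) = (V b s).bind (fun a => V a (tmOf n))

/-- hypotheses on the conditions `Ps` and the data `Th` -/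
structure HullHyp (Ps : HS → ℕ → Tm → Tm → Prop) (Th : HS → ℕ → Prop) : Prop where
  p0 : ∀ C t s, Ps C 0 t s
  p1 : ∀ C t s, Ps C 1 t s ↔ ¬ C.lt t s
  m1 : ∀ m, ∃ n, ∀ C t s, Ps C n t s ↔ C.raw m
  m2 : ∀ m, ∃ qr, (∀ C, Th C qr ↔ C.raw m) ∧ ∀ l, ∃ n, ∀ C t s, Ps C n t s ↔
    ∀ s', C.dom s' → ¬ C.lt s' (subt l t) → ¬ C.dat s' qr
  inv : ∀ C V D b, RepAt C V D b → ∀ n t t' s s' a u u', V b t = some a → V b t' = some a →
    V b s = some u → V b s' = some u' → u' ≤ u → Ps C n t s → Ps C n t' s'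

/-- semantic version of the conditions -/
def Psem (Ps : HS → ℕ → Tm → Tm → Prop) (Th : HS → ℕ → Prop)
    (V : Ordinal.{0} → Tm → Option Ordinal.{0}) (n : ℕ) (b a u : Ordinal.{0}) : Prop :=
  ∃ t s, V b t = some a ∧ V b s = some u ∧ Ps (Cst Ps Th b) n t s

def oddHead (t : Tm) : Prop := ∃ n t', t = (2 * n + 1) :: t'

/-- all terms with code `< i` are undefined, have a value `< γ`, or depend on a search which has
changed its value at a stage `≥ c`. -/
def Cond1 (V : Ordinal.{0} → Tm → Option Ordinal.{0}) (i : ℕ) (γ c b : Ordinal.{0}) : Prop :=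
  ∀ s : Tm, Encodable.encode s < i → V b s = none ∨ (∃ a, V b s = some a ∧ a < γ) ∨
    ∃ t, t <:+ s ∧ oddHead t ∧ ∃ a, V b t = some a ∧ c ≤ a

/-- the properties of the hull machine -/
structure HullFacts (Ps : HS → ℕ → Tm → Tm → Prop) (Th : HS → ℕ → Prop)
    (V : Ordinal.{0} → Tm → Option Ordinal.{0}) (D : Ordinal.{0} → ℕ → Prop)
    (ζ σ : Ordinal.{0}) : Prop where
  lt : ζ < σ
  limζ : Order.IsSuccLimit ζ
  limσ : Order.IsSuccLimit σ
  ctble : σ < ω₁
  rep : ∀ b < σ, RepAt (Cst Ps Th b) V D b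
  hD : ∀ b q, D b q ↔ Th (Cst Ps Th b) q
  el : ∀ n a, a < ζ → (∀ u < ζ, Psem Ps Th V n ζ a u) →
    ∀ u < σ, ∃ b, u < b ∧ b < σ ∧ Psem Ps Th V n b a u
  h1 : ∀ i c, c < σ → ∃ b0 < σ, ∀ b, b0 ≤ b → b < σ → Cond1 V i ζ c b
  h2 : ∀ b < σ, Order.IsSuccLimit b → ∀ γ < b, ¬ ∃ c : ℕ → Ordinal.{0}, StrictMono c ∧
    (∀ i, c i < b) ∧ (∀ a < b, ∃ i, a < c i) ∧ ∀ i, Cond1 V i γ (c i) (c (i + 1))
  loop : ∀ b, ∃ b' < σ, Cst Ps Th b' = Cst Ps Th b

end Pool.Agent.HT
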