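import Pool.Agent.Helper85.HT.LP5

set_option autoImplicit false

/-!
# LP7: finding a constructible real among the named sets
-/

namespace Pool.Agent.HT

open Ordinal

theorem lp7_val_zf {z : ℕ → Prop} {n : ℕ} (h : Val z n) : zf z (lv n) := by
  unfold Val at h
  exact h.1

/-- an element of the interpretation of a valid name `n` has a valid name of a level below. -/
theorem lp7_elem_name {z : ℕ → Prop} {rk : ℕ → Ordinal.{0}} {α : Ordinal.{0}} (h : Rk z rk α)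
    {n : ℕ} (hn : Val z n) {y : ZFSet.{0}} (hy : y ∈ itp rk n) :
    ∃ m, Val z m ∧ zlt z (lv m) (lv n) ∧ itp rk m = y := by
  have h1 := ((mem_itp h hn y).1 hy).1
  obtain ⟨γ, hγ, h2⟩ := mem_Lset_iff.1 h1
  have h3 : rk (lv n) < α := h.lt _ (lp7_val_zf hn)
  obtain ⟨j, hj, hjγ⟩ := h.surj γ (hγ.trans h3)
  rw [← hjγ] at h2
  obtain ⟨m, hm, hlm, him⟩ := exists_name h hj h2
  refine ⟨m, hm, ?_, him⟩
  rw [h.mono _ _ (lp7_val_zf hm) (lp7_val_zf hn), hlm, hjγ]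
  exact hγ

theorem lp7_rel3 (z : ℕ → Prop) (n : ℕ) : Rel z (3, n, 0, []) :=
  Or.inr (Or.inr (Or.inr (Or.inl ⟨rfl, rfl, rfl⟩)))

theorem lp7_rel0 {z : ℕ → Prop} {m n : ℕ} (hm : Val z m) (hn : Val z n) :
    Rel z (0, m, n, []) := Or.inl ⟨rfl, hm, hn⟩

theorem lp7_rel4 {z : ℕ → Prop} {k m : ℕ} (hm : Val z m) : Rel z (4, k, m, []) :=
  Or.inr (Or.inr (Or.inr (Or.inr ⟨rfl, hm⟩)))

theorem lp7_tr3 {z : ℕ → Prop} {rk : ℕ → Ordinal.{0}} {n : ℕ} :
    Tr z rk (3, n, 0, []) ↔ Val z n := by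
  unfold Tr; simp

theorem lp7_tr0 {z : ℕ → Prop} {rk : ℕ → Ordinal.{0}} {m n : ℕ} :
    Tr z rk (0, m, n, []) ↔ itp rk m ∈ itp rk n := by
  unfold Tr; simp

theorem lp7_tr4 {z : ℕ → Prop} {rk : ℕ → Ordinal.{0}} {k m : ℕ} :
    Tr z rk (4, k, m, []) ↔ itp rk m = znat k := by
  unfold Tr; simp

theorem found_of_inL {z : ℕ → Prop} {rk : ℕ → Ordinal.{0}} {α : Ordinal.{0}} (h : Rk z rk α)
    {T F : Stm → Prop} (hT : ∀ st, Rel z st → T st → Tr z rk st)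
    (hF : ∀ st, Rel z st → F st → ¬ Tr z rk st)
    (hTF : ∀ st, Rel z st → T st ∨ F st) {x : Cantor} (hx : InLw x α) : found z T F x := by
  have tT : ∀ st, Rel z st → Tr z rk st → T st := fun st hr ht =>
    (hTF st hr).resolve_right (fun hf => hF st hr hf ht)
  have tF : ∀ st, Rel z st → ¬ Tr z rk st → F st := fun st hr ht =>
    (hTF st hr).resolve_left (fun hf => ht (hT st hr hf))
  obtain ⟨X, hX, hxX⟩ := hx
  obtain ⟨β, hβ, hXβ⟩ := mem_Lset_iff.1 hX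
  obtain ⟨i, hi, hiβ⟩ := h.surj β hβ
  rw [← hiβ] at hXβ
  obtain ⟨n, hn, -, hin⟩ := exists_name h hi hXβ
  refine ⟨n, tT _ (lp7_rel3 z n) (lp7_tr3.2 hn), fun k => ⟨fun hk => ?_, fun hk m => ?_⟩⟩
  · have h1 : znat k ∈ itp rk n := by rw [hin]; exact (hxX k).1 hk
    obtain ⟨m, hm, hlt, him⟩ := lp7_elem_name h hn h1
    refine ⟨m, tT _ (lp7_rel3 z m) (lp7_tr3.2 hm), hlt, tT _ (lp7_rel4 hm) (lp7_tr4.2 him),
      tT _ (lp7_rel0 hm hn) (lp7_tr0.2 ?_)⟩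
    rw [him]; exact h1
  · by_cases hm : Val z m
    · by_cases hlt : zlt z (lv m) (lv n)
      · by_cases him : itp rk m = znat k
        · by_cases hmn : itp rk m ∈ itp rk n
          · exfalso
            rw [him, hin] at hmn
            rw [(hxX k).2 hmn] at hk
            exact Bool.noConfusion hk
          · exact Or.inr (Or.inr (Or.inr (tF _ (lp7_rel0 hm hn) (fun h' => hmn (lp7_tr0.1 h')))))
        · exact Or.inr (Or.inr (Or.inl (tF _ (lp7_rel4 hm) (fun h' => him (lp7_tr4.1 h')))))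
      · exact Or.inr (Or.inl hlt)
    · exact Or.inl (tF _ (lp7_rel3 z m) (fun h' => hm (lp7_tr3.1 h')))

theorem inLw_of_found {z : ℕ → Prop} {rk : ℕ → Ordinal.{0}} {α : Ordinal.{0}} (h : Rk z rk α)
    {T F : Stm → Prop} (hT : ∀ st, Rel z st → T st → Tr z rk st)
    (hF : ∀ st, Rel z st → F st → ¬ Tr z rk st) {x : Cantor} (hx : found z T F x) :
    InLw x α := by
  obtain ⟨n, hTn, hk⟩ := hx
  have hn : Val z n := lp7_tr3.1 (hT _ (lp7_rel3 z n) hTn)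
  refine ⟨itp rk n, mem_Lset_iff.2 ⟨rk (lv n), h.lt _ (lp7_val_zf hn), itp_mem_DefSet h hn⟩,
    fun k => ⟨fun hxk => ?_, fun hkn => ?_⟩⟩
  · obtain ⟨m, hTm, hlt, h4, h0⟩ := (hk k).1 hxk
    have hm : Val z m := lp7_tr3.1 (hT _ (lp7_rel3 z m) hTm)
    have e := lp7_tr4.1 (hT _ (lp7_rel4 hm) h4)
    rw [← e]
    exact lp7_tr0.1 (hT _ (lp7_rel0 hm hn) h0)
  · by_contra hxk
    have hxk' : x k = false := by simpa using hxk
    obtain ⟨m, hm, hlt, him⟩ := lp7_elem_name h hn hkn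
    rcases (hk k).2 hxk' m with h1 | h1 | h1 | h1
    · exact hF _ (lp7_rel3 z m) h1 (lp7_tr3.2 hm)
    · exact h1 hlt
    · exact hF _ (lp7_rel4 hm) h1 (lp7_tr4.2 him)
    · refine hF _ (lp7_rel0 hm hn) h1 (lp7_tr0.2 ?_)
      rw [him]; exact hkn

end Pool.Agent.HT
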