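import Pool.Agent.Helper85.HT.LP5

set_option autoImplicit false

/-!
# LP6: the evaluation rules are sound and complete
-/

namespace Pool.Agent.HT

open Ordinal

/-! ### general facts -/

theorem lp6_val_iff (z : ℕ → Prop) (n : ℕ) : Val z n ↔
    zf z (lv n) ∧ (∀ m ∈ pr n, Val z m ∧ zlt z (lv m) (lv n)) ∧
    (pr n = [] → ∀ j, ¬ zlt z j (lv n)) := by
  rw [Val]

theorem lp6_getenv_cons (n : ℕ) {env : List ℕ} (hne : env ≠ []) (a : ℕ) :
    getenv (n :: env) (a + 1) = getenv env a := by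
  unfold getenv
  obtain ⟨x, t, rfl⟩ := List.exists_cons_of_ne_nil hne
  simp [List.getLastD]

theorem lp6_getenv_zero (n : ℕ) (env : List ℕ) : getenv (n :: env) 0 = n := by
  simp [getenv]

theorem lp6_getenv_mem {env : List ℕ} (hne : env ≠ []) (a : ℕ) : getenv env a ∈ env := by
  unfold getenv
  by_cases h : a < env.length
  · rw [List.getD_eq_getElem _ _ h]; exact List.getElem_mem h
  · rw [List.getD_eq_default _ _ (by omega)]
    obtain ⟨x, t, rfl⟩ := List.exists_cons_of_ne_nil hne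
    have h1 : (x :: t).getLastD 0 = (x :: t).getLast (by simp) := by
      rw [List.getLastD_eq_getLast?, List.getLast?_eq_some_getLast (by simp)]; rfl
    rw [h1]
    exact List.getLast_mem _

theorem lp6_scons (rk : ℕ → Ordinal.{0}) (n : ℕ) {env : List ℕ} (hne : env ≠ []) :
    scons (itp rk n) (fun a => itp rk (getenv env a)) =
      fun a => itp rk (getenv (n :: env) a) := by
  funext a
  cases a with
  | zero => rw [lp6_getenv_zero]; rfl
  | succ a => rw [lp6_getenv_cons n hne]; rfl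

section

variable {z : ℕ → Prop} {rk : ℕ → Ordinal.{0}} {α : Ordinal.{0}}

theorem lp6_mem_Lset (h : Rk z rk α) {i : ℕ} (hi : zf z i) (y : ZFSet.{0}) :
    y ∈ Lset (rk i) ↔ ∃ m, Val z m ∧ zlt z (lv m) i ∧ itp rk m = y := by
  rw [mem_Lset_iff]
  constructor
  · rintro ⟨β, hβ, hy⟩
    obtain ⟨j, hj, rfl⟩ := h.surj β (hβ.trans (h.lt i hi))
    obtain ⟨m, hm, hmj, hmy⟩ := exists_name h hj hy
    exact ⟨m, hm, hmj ▸ (h.mono j i hj hi).2 hβ, hmy⟩
  · rintro ⟨m, hm, hmi, rfl⟩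
    exact ⟨rk (lv m), (h.mono _ _ ((lp6_val_iff z m).1 hm).1 hi).1 hmi, itp_mem_DefSet h hm⟩

theorem lp6_mem_itp (h : Rk z rk α) {b : ℕ} (hb : Val z b) (y : ZFSet.{0}) :
    y ∈ itp rk b ↔ ∃ m, Val z m ∧ zlt z (lv m) (lv b) ∧ itp rk m = y ∧
      Sat (Lset (rk (lv b))) (toFml (fm b)) (fun a => itp rk (getenv (m :: pr b) a)) := by
  rw [mem_itp h hb, lp6_mem_Lset h ((lp6_val_iff z b).1 hb).1]
  have hne : ∀ m, zlt z (lv m) (lv b) → pr b ≠ [] :=
    fun m hm h0 => ((lp6_val_iff z b).1 hb).2.2 h0 _ hm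
  constructor
  · rintro ⟨⟨m, hm, hmb, rfl⟩, hs⟩
    rw [lp6_scons rk m (hne m hmb)] at hs
    exact ⟨m, hm, hmb, rfl, hs⟩
  · rintro ⟨m, hm, hmb, rfl, hs⟩
    rw [← lp6_scons rk m (hne m hmb)] at hs
    exact ⟨⟨m, hm, hmb, rfl⟩, hs⟩

theorem lp6_rel2 {b n : ℕ} (hb : Val z b) (hn : Val z n) (hnb : zlt z (lv n) (lv b)) (f : ℕ) :
    Rel z (2, lv b, f, n :: pr b) := by
  refine Or.inr (Or.inr (Or.inl ⟨rfl, ((lp6_val_iff z b).1 hb).1, by simp, ?_⟩))
  intro m hm
  rcases List.mem_cons.1 hm with rfl | hm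
  · exact ⟨hn, hnb⟩
  · exact ((lp6_val_iff z b).1 hb).2.1 m hm

/-- the context of the module -/
structure LP6 (z : ℕ → Prop) (rk : ℕ → Ordinal.{0}) (α : Ordinal.{0}) (T F : Stm → Prop) :
    Prop where
  h : Rk z rk α
  hT : ∀ st, Rel z st → T st → Tr z rk st
  hF : ∀ st, Rel z st → F st → ¬ Tr z rk st

theorem lp6_tr0 (a b : ℕ) (e : List ℕ) : Tr z rk (0, a, b, e) ↔ itp rk a ∈ itp rk b := by
  simp [Tr]
theorem lp6_tr1 (a b : ℕ) (e : List ℕ) : Tr z rk (1, a, b, e) ↔ itp rk a = itp rk b := by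
  simp [Tr]
theorem lp6_tr2 (i f : ℕ) (e : List ℕ) : Tr z rk (2, i, f, e) ↔
    Sat (Lset (rk i)) (toFml f) (fun a => itp rk (getenv e a)) := by
  simp [Tr]
theorem lp6_tr3 (n b : ℕ) (e : List ℕ) : Tr z rk (3, n, b, e) ↔ Val z n := by
  simp [Tr]
theorem lp6_tr4 (k b : ℕ) (e : List ℕ) : Tr z rk (4, k, b, e) ↔ itp rk b = znat k := by
  simp [Tr]

variable {T F : Stm → Prop}

theorem LP6.t0 (c : LP6 z rk α T F) {a b : ℕ} {e : List ℕ} (ha : Val z a) (hb : Val z b)
    (ht : T (0, a, b, e)) : itp rk a ∈ itp rk b :=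
  (lp6_tr0 a b e).1 (c.hT _ (Or.inl ⟨rfl, ha, hb⟩) ht)
theorem LP6.f0 (c : LP6 z rk α T F) {a b : ℕ} {e : List ℕ} (ha : Val z a) (hb : Val z b)
    (ht : F (0, a, b, e)) : itp rk a ∉ itp rk b := fun h =>
  (c.hF _ (Or.inl ⟨rfl, ha, hb⟩) ht) ((lp6_tr0 a b e).2 h)
theorem LP6.t1 (c : LP6 z rk α T F) {a b : ℕ} {e : List ℕ} (ha : Val z a) (hb : Val z b)
    (ht : T (1, a, b, e)) : itp rk a = itp rk b :=
  (lp6_tr1 a b e).1 (c.hT _ (Or.inr (Or.inl ⟨rfl, ha, hb⟩)) ht)
theorem LP6.f1 (c : LP6 z rk α T F) {a b : ℕ} {e : List ℕ} (ha : Val z a) (hb : Val z b)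
    (ht : F (1, a, b, e)) : itp rk a ≠ itp rk b := fun h =>
  (c.hF _ (Or.inr (Or.inl ⟨rfl, ha, hb⟩)) ht) ((lp6_tr1 a b e).2 h)
theorem LP6.t2 (c : LP6 z rk α T F) {i f : ℕ} {e : List ℕ} (hr : Rel z (2, i, f, e))
    (ht : T (2, i, f, e)) : Sat (Lset (rk i)) (toFml f) (fun a => itp rk (getenv e a)) :=
  (lp6_tr2 i f e).1 (c.hT _ hr ht)
theorem LP6.f2 (c : LP6 z rk α T F) {i f : ℕ} {e : List ℕ} (hr : Rel z (2, i, f, e))
    (ht : F (2, i, f, e)) : ¬ Sat (Lset (rk i)) (toFml f) (fun a => itp rk (getenv e a)) :=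
  fun h => (c.hF _ hr ht) ((lp6_tr2 i f e).2 h)
theorem LP6.t3 (c : LP6 z rk α T F) {n : ℕ} (ht : T (3, n, 0, [])) : Val z n :=
  (lp6_tr3 n 0 []).1 (c.hT _ (Or.inr (Or.inr (Or.inr (Or.inl ⟨rfl, rfl, rfl⟩)))) ht)
theorem LP6.f3 (c : LP6 z rk α T F) {n : ℕ} (ht : F (3, n, 0, [])) : ¬ Val z n := fun h =>
  (c.hF _ (Or.inr (Or.inr (Or.inr (Or.inl ⟨rfl, rfl, rfl⟩)))) ht) ((lp6_tr3 n 0 []).2 h)
theorem LP6.t4 (c : LP6 z rk α T F) {k b : ℕ} {e : List ℕ} (hb : Val z b)
    (ht : T (4, k, b, e)) : itp rk b = znat k :=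
  (lp6_tr4 k b e).1 (c.hT _ (Or.inr (Or.inr (Or.inr (Or.inr ⟨rfl, hb⟩)))) ht)
theorem LP6.f4 (c : LP6 z rk α T F) {k b : ℕ} {e : List ℕ} (hb : Val z b)
    (ht : F (4, k, b, e)) : itp rk b ≠ znat k := fun h =>
  (c.hF _ (Or.inr (Or.inr (Or.inr (Or.inr ⟨rfl, hb⟩)))) ht) ((lp6_tr4 k b e).2 h)

/-- relevance of statements of the second kind -/
theorem lp6_rel2_iff (i f : ℕ) (e : List ℕ) : Rel z (2, i, f, e) ↔
    zf z i ∧ e ≠ [] ∧ ∀ m ∈ e, Val z m ∧ zlt z (lv m) i := by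
  simp [Rel]

theorem lp6_zlt_trans (h : Rk z rk α) {i j k : ℕ} (hi : zf z i) (hj : zf z j) (hk : zf z k)
    (h1 : zlt z i j) (h2 : zlt z j k) : zlt z i k :=
  (h.mono i k hi hk).2 (((h.mono i j hi hj).1 h1).trans ((h.mono j k hj hk).1 h2))

theorem lp6_fml_zero : toFml 0 = .eq 0 0 := by
  rw [toFml]; simp
theorem lp6_fml_mem {f : ℕ} (hf : f ≠ 0) (h : ftag f = 0) : toFml f = .mem (fa f) (fb f) := by
  rw [toFml]; simp [hf, h]
theorem lp6_fml_eq {f : ℕ} (hf : f ≠ 0) (h : ftag f = 1) : toFml f = .eq (fa f) (fb f) := by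
  rw [toFml]; simp [hf, h]
theorem lp6_fml_neg {f : ℕ} (hf : f ≠ 0) (h : ftag f = 2) : toFml f = .neg (toFml (fa f)) := by
  rw [toFml]; simp [hf, h]
theorem lp6_fml_and {f : ℕ} (hf : f ≠ 0) (h : ftag f = 3) :
    toFml f = .and (toFml (fa f)) (toFml (fb f)) := by
  rw [toFml]; simp [hf, h]
theorem lp6_fml_ex {f : ℕ} (hf : f ≠ 0) (h : 4 ≤ ftag f) : toFml f = .ex (toFml (fa f)) := by
  rw [toFml]
  have h0 : ftag f ≠ 0 := by omega
  have h1 : ftag f ≠ 1 := by omega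
  have h2 : ftag f ≠ 2 := by omega
  have h3 : ftag f ≠ 3 := by omega
  simp [hf, h0, h1, h2, h3]

theorem lp6_rel0_iff (a b : ℕ) (e : List ℕ) : Rel z (0, a, b, e) ↔ Val z a ∧ Val z b := by
  simp [Rel]
theorem lp6_rel1_iff (a b : ℕ) (e : List ℕ) : Rel z (1, a, b, e) ↔ Val z a ∧ Val z b := by
  simp [Rel]
theorem lp6_rel4_iff (a b : ℕ) (e : List ℕ) : Rel z (4, a, b, e) ↔ Val z b := by
  simp [Rel]

theorem lp6_zf (z : ℕ → Prop) {n : ℕ} (h : Val z n) : zf z (lv n) := ((lp6_val_iff z n).1 h).1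

/-- `n :: e` is relevant -/
theorem lp6_rel2_cons {i f f' n : ℕ} {e : List ℕ} (hr : Rel z (2, i, f, e)) (hn : Val z n)
    (hlt : zlt z (lv n) i) : Rel z (2, i, f', n :: e) := by
  rw [lp6_rel2_iff] at hr ⊢
  refine ⟨hr.1, by simp, ?_⟩
  intro m hm
  rcases List.mem_cons.1 hm with rfl | hm
  · exact ⟨hn, hlt⟩
  · exact hr.2.2 m hm

theorem lp6_rel2_f {i f f' : ℕ} {e : List ℕ} (hr : Rel z (2, i, f, e)) : Rel z (2, i, f', e) := by
  rw [lp6_rel2_iff] at hr ⊢
  exact hr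

theorem lp6_getenv_val {i f : ℕ} {e : List ℕ} (hr : Rel z (2, i, f, e)) (a : ℕ) :
    Val z (getenv e a) ∧ zlt z (lv (getenv e a)) i := by
  rw [lp6_rel2_iff] at hr
  exact hr.2.2 _ (lp6_getenv_mem hr.2.1 a)

/-- the quantifier case -/
theorem lp6_sat_ex (h : Rk z rk α) {i f f' : ℕ} {e : List ℕ} (hr : Rel z (2, i, f, e)) :
    Sat (Lset (rk i)) (.ex (toFml f')) (fun a => itp rk (getenv e a)) ↔
      ∃ n, Val z n ∧ zlt z (lv n) i ∧
        Sat (Lset (rk i)) (toFml f') (fun a => itp rk (getenv (n :: e) a)) := by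
  have hr' := (lp6_rel2_iff i f e).1 hr
  show (∃ a ∈ Lset (rk i), _) ↔ _
  constructor
  · rintro ⟨y, hy, hs⟩
    obtain ⟨n, hn, hlt, rfl⟩ := (lp6_mem_Lset h hr'.1 y).1 hy
    rw [lp6_scons rk n hr'.2.1] at hs
    exact ⟨n, hn, hlt, hs⟩
  · rintro ⟨n, hn, hlt, hs⟩
    rw [← lp6_scons rk n hr'.2.1] at hs
    exact ⟨_, (lp6_mem_Lset h hr'.1 _).2 ⟨n, hn, hlt, rfl⟩, hs⟩

/-- the elements of a name -/
theorem lp6_elt (h : Rk z rk α) {b : ℕ} (hb : Val z b) {y : ZFSet.{0}} (hy : y ∈ itp rk b) :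
    ∃ m, Val z m ∧ zlt z (lv m) (lv b) ∧ itp rk m = y := by
  obtain ⟨m, h1, h2, h3, -⟩ := (lp6_mem_itp h hb y).1 hy
  exact ⟨m, h1, h2, h3⟩

/-- when a name denotes a successor number -/
theorem lp6_succ (h : Rk z rk α) {b m k : ℕ} (hb : Val z b) (hm : Val z m)
    (hlt : zlt z (lv m) (lv b)) (hmk : itp rk m = znat k) :
    itp rk b = znat (k + 1) ↔ ∀ n, Val z n → zlt z (lv n) (lv b) →
      (itp rk n ∈ itp rk b ↔ (itp rk n ∈ itp rk m ∨ itp rk n = itp rk m)) := by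
  have hz : znat (k + 1) = insert (itp rk m) (itp rk m) := by
    rw [hmk]; rfl
  rw [hz]
  constructor
  · intro e n _ _
    rw [e, ZFSet.mem_insert_iff]
    tauto
  · intro hall
    apply ZFSet.ext
    intro y
    rw [ZFSet.mem_insert_iff]
    constructor
    · intro hy
      obtain ⟨n, hn, hnb, rfl⟩ := lp6_elt h hb hy
      have := (hall n hn hnb).1 hy
      tauto
    · rintro (rfl | hy)
      · exact (hall m hm hlt).2 (Or.inr rfl)
      · obtain ⟨n, hn, hnm, rfl⟩ := lp6_elt h hm hy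
        exact (hall n hn (lp6_zlt_trans h (lp6_zf z hn) (lp6_zf z hm) (lp6_zf z hb) hnm hlt)).2
          (Or.inl hy)

/-- a name denoting a successor number has an element denoting the predecessor -/
theorem lp6_pred (h : Rk z rk α) {b k : ℕ} (hb : Val z b) (hbk : itp rk b = znat (k + 1)) :
    ∃ m, Val z m ∧ zlt z (lv m) (lv b) ∧ itp rk m = znat k := by
  have h1 : znat k ∈ itp rk b := by
    rw [hbk]
    exact ZFSet.mem_insert _ _
  exact lp6_elt h hb h1

theorem lp6_soundT (c : LP6 z rk α T F) (st : Stm) (hr : Rel z st) (hrule : ruleT z T F st) :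
    Tr z rk st := by
  obtain ⟨tag, a, b, env⟩ := st
  unfold ruleT at hrule
  simp only at hrule
  rcases hrule with ⟨rfl, n, h3, hlt, h1, h2⟩ | ⟨rfl, hall⟩ | ⟨rfl, rfl⟩ | ⟨rfl, hb, ht, h0⟩ |
    ⟨rfl, hb, ht, h1⟩ | ⟨rfl, hb, ht, h2⟩ | ⟨rfl, hb, ht, h2, h2'⟩ |
    ⟨rfl, hb, ht, n, h3, hlt, h2⟩ | ⟨rfl, hz, hm, he⟩ | ⟨rfl, rfl, hall⟩ |
    ⟨rfl, ha, m, h3, hlt, h4, hall⟩
  · obtain ⟨ha, hb⟩ := (lp6_rel0_iff a b env).1 hr
    rw [lp6_tr0]
    have hn := c.t3 h3
    rw [← c.t1 hn ha h1, lp6_mem_itp c.h hb]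
    exact ⟨n, hn, hlt, rfl, c.t2 (lp6_rel2 hb hn hlt _) h2⟩
  · obtain ⟨ha, hb⟩ := (lp6_rel1_iff a b env).1 hr
    rw [lp6_tr1]
    apply ZFSet.ext
    intro y
    constructor
    · intro hy
      obtain ⟨n, hn, hlt, rfl⟩ := lp6_elt c.h ha hy
      rcases hall n with h | h | h | h
      · exact absurd hn (c.f3 h)
      · exact absurd (Or.inl hlt) h
      · exact c.t0 hn hb h.2
      · exact absurd hy (c.f0 hn ha h.1)
    · intro hy
      obtain ⟨n, hn, hlt, rfl⟩ := lp6_elt c.h hb hy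
      rcases hall n with h | h | h | h
      · exact absurd hn (c.f3 h)
      · exact absurd (Or.inr hlt) h
      · exact c.t0 hn ha h.1
      · exact absurd hy (c.f0 hn hb h.2)
  · rw [lp6_tr2, lp6_fml_zero]; rfl
  · obtain ⟨h1, -⟩ := lp6_getenv_val hr (fa b)
    obtain ⟨h2, -⟩ := lp6_getenv_val hr (fb b)
    rw [lp6_tr2, lp6_fml_mem hb ht]
    exact c.t0 h1 h2 h0
  · obtain ⟨h3, -⟩ := lp6_getenv_val hr (fa b)
    obtain ⟨h2, -⟩ := lp6_getenv_val hr (fb b)
    rw [lp6_tr2, lp6_fml_eq hb ht]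
    exact c.t1 h3 h2 h1
  · rw [lp6_tr2, lp6_fml_neg hb ht]
    exact c.f2 (lp6_rel2_f hr) h2
  · rw [lp6_tr2, lp6_fml_and hb ht]
    exact ⟨c.t2 (lp6_rel2_f hr) h2, c.t2 (lp6_rel2_f hr) h2'⟩
  · rw [lp6_tr2, lp6_fml_ex hb ht, lp6_sat_ex c.h hr]
    have hn := c.t3 h3
    exact ⟨n, hn, hlt, c.t2 (lp6_rel2_cons hr hn hlt) h2⟩
  · rw [lp6_tr3, lp6_val_iff]
    exact ⟨hz, fun m h => ⟨c.t3 (hm m h).1, (hm m h).2⟩, he⟩
  · have hb := (lp6_rel4_iff 0 b env).1 hr
    rw [lp6_tr4]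
    show _ = ∅
    rw [ZFSet.eq_empty]
    intro y hy
    obtain ⟨n, hn, hlt, rfl⟩ := lp6_elt c.h hb hy
    rcases hall n with h | h | h
    · exact c.f3 h hn
    · exact h hlt
    · exact c.f0 hn hb h hy
  · have hb := (lp6_rel4_iff a b env).1 hr
    rw [lp6_tr4]
    obtain ⟨k, rfl⟩ := Nat.exists_eq_succ_of_ne_zero ha
    have hm := c.t3 h3
    have hmk : itp rk m = znat k := c.t4 hm h4
    rw [Nat.succ_eq_add_one, lp6_succ c.h hb hm hlt hmk]
    intro n hn hnb
    rcases hall n with h | h | h | h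
    · exact absurd hn (c.f3 h)
    · exact absurd hnb h
    · have e1 := c.t0 hn hb h.1
      rcases h.2 with h' | h'
      · exact ⟨fun _ => Or.inl (c.t0 hn hm h'), fun _ => e1⟩
      · exact ⟨fun _ => Or.inr (c.t1 hn hm h'), fun _ => e1⟩
    · have e1 := c.f0 hn hb h.1
      have e2 := c.f0 hn hm h.2.1
      have e3 := c.f1 hn hm h.2.2
      tauto

theorem lp6_soundF (c : LP6 z rk α T F) (st : Stm) (hr : Rel z st) (hrule : ruleF z T F st) :
    ¬ Tr z rk st := by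
  obtain ⟨tag, a, b, env⟩ := st
  unfold ruleF at hrule
  simp only at hrule
  rcases hrule with ⟨rfl, hall⟩ | ⟨rfl, n, h3, hlt, hn⟩ | ⟨rfl, hb, ht, h0⟩ |
    ⟨rfl, hb, ht, h1⟩ | ⟨rfl, hb, ht, h2⟩ | ⟨rfl, hb, ht, h2⟩ |
    ⟨rfl, hb, ht, hall⟩ | ⟨rfl, hz⟩ | ⟨rfl, rfl, n, h3, hlt, h0⟩ |
    ⟨rfl, ha, hall⟩
  · obtain ⟨ha, hb⟩ := (lp6_rel0_iff a b env).1 hr
    rw [lp6_tr0, lp6_mem_itp c.h hb]
    rintro ⟨m, hm, hlt, he, hs⟩
    rcases hall m with h | h | h | h
    · exact c.f3 h hm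
    · exact h hlt
    · exact c.f1 hm ha h he
    · exact c.f2 (lp6_rel2 hb hm hlt _) h hs
  · obtain ⟨ha, hb⟩ := (lp6_rel1_iff a b env).1 hr
    rw [lp6_tr1]
    intro he
    have hn' := c.t3 h3
    rcases hn with ⟨h1, h2⟩ | ⟨h1, h2⟩
    · exact c.f0 hn' hb h2 (he ▸ c.t0 hn' ha h1)
    · exact c.f0 hn' ha h1 (he ▸ c.t0 hn' hb h2)
  · obtain ⟨h1, -⟩ := lp6_getenv_val hr (fa b)
    obtain ⟨h2, -⟩ := lp6_getenv_val hr (fb b)
    rw [lp6_tr2, lp6_fml_mem hb ht]
    exact c.f0 h1 h2 h0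
  · obtain ⟨h3, -⟩ := lp6_getenv_val hr (fa b)
    obtain ⟨h2, -⟩ := lp6_getenv_val hr (fb b)
    rw [lp6_tr2, lp6_fml_eq hb ht]
    exact c.f1 h3 h2 h1
  · rw [lp6_tr2, lp6_fml_neg hb ht]
    intro h
    exact h (c.t2 (lp6_rel2_f hr) h2)
  · rw [lp6_tr2, lp6_fml_and hb ht]
    rintro ⟨h3, h4⟩
    rcases h2 with h2 | h2
    · exact c.f2 (lp6_rel2_f hr) h2 h3
    · exact c.f2 (lp6_rel2_f hr) h2 h4
  · rw [lp6_tr2, lp6_fml_ex hb ht, lp6_sat_ex c.h hr]
    rintro ⟨n, hn, hlt, hs⟩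
    rcases hall n with h | h | h
    · exact c.f3 h hn
    · exact h hlt
    · exact c.f2 (lp6_rel2_cons hr hn hlt) h hs
  · rw [lp6_tr3, lp6_val_iff]
    rintro ⟨h1, h2, h3⟩
    rcases hz with h | ⟨n, hn, h | h⟩ | ⟨h, j, hj⟩
    · exact h h1
    · exact c.f3 h (h2 n hn).1
    · exact h (h2 n hn).2
    · exact h3 h j hj
  · have hb := (lp6_rel4_iff 0 b env).1 hr
    rw [lp6_tr4]
    intro he
    have h1 := c.t0 (c.t3 h3) hb h0
    rw [he] at h1
    exact ZFSet.notMem_empty _ h1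
  · have hb := (lp6_rel4_iff a b env).1 hr
    rw [lp6_tr4]
    obtain ⟨k, rfl⟩ := Nat.exists_eq_succ_of_ne_zero ha
    intro he
    obtain ⟨m, hm, hmb, hmk⟩ := lp6_pred c.h hb he
    rcases hall m with h | h | h | ⟨n, h3, hlt, h⟩
    · exact c.f3 h hm
    · exact h hmb
    · exact c.f4 hm h hmk
    · have hn := c.t3 h3
      have := (lp6_succ c.h hb hm hmb hmk).1 he n hn hlt
      rcases h with ⟨h1, h2, h3⟩ | ⟨h1, h2⟩
      · rcases this.1 (c.t0 hn hb h1) with h' | h'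
        · exact c.f0 hn hm h2 h'
        · exact c.f1 hn hm h3 h'
      · apply c.f0 hn hb h1
        apply this.2
        rcases h2 with h2 | h2
        · exact Or.inl (c.t0 hn hm h2)
        · exact Or.inr (c.t1 hn hm h2)

/-! ### completeness -/

/-- the context for completeness -/
structure LP6C (z : ℕ → Prop) (rk : ℕ → Ordinal.{0}) (α : Ordinal.{0}) (T F : Stm → Prop) :
    Prop extends LP6 z rk α T F where
  hT' : ∀ st, ruleT z T F st → T st
  hF' : ∀ st, ruleF z T F st → F st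

theorem LP6C.d3 (c : LP6C z rk α T F) (n : ℕ) : T (3, n, 0, []) ∨ F (3, n, 0, []) := by
  induction n using Nat.strong_induction_on with
  | _ n ih =>
    by_cases h1 : zf z (lv n)
    · by_cases h2 : ∀ m ∈ pr n, T (3, m, 0, []) ∧ zlt z (lv m) (lv n)
      · by_cases h3 : pr n = [] → ∀ j, ¬ zlt z j (lv n)
        · left
          apply c.hT'
          unfold ruleT
          dsimp only
          right; right; right; right; right; right; right; right; left
          exact ⟨rfl, h1, h2, h3⟩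
        · right
          apply c.hF'
          unfold ruleF
          dsimp only
          right; right; right; right; right; right; right; left
          push Not at h3
          exact ⟨rfl, Or.inr (Or.inr h3)⟩
      · right
        apply c.hF'
        unfold ruleF
        dsimp only
        right; right; right; right; right; right; right; left
        push Not at h2
        obtain ⟨m, hm, hm2⟩ := h2
        refine ⟨rfl, Or.inr (Or.inl ⟨m, hm, ?_⟩)⟩
        rcases ih m (mem_pr_lt hm) with h | h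
        · exact Or.inr (hm2 h)
        · exact Or.inl h
    · right
      apply c.hF'
      unfold ruleF
      dsimp only
      right; right; right; right; right; right; right; left
      exact ⟨rfl, Or.inl h1⟩

theorem LP6C.v3 (c : LP6C z rk α T F) {n : ℕ} (h : Val z n) : T (3, n, 0, []) := by
  rcases c.d3 n with h' | h'
  · exact h'
  · exact absurd h (c.f3 h')

theorem LP6C.nv3 (c : LP6C z rk α T F) {n : ℕ} (h : ¬ Val z n) : F (3, n, 0, []) := by
  rcases c.d3 n with h' | h'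
  · exact absurd (c.t3 h') h
  · exact h'

theorem LP6C.d0 (c : LP6C z rk α T F) (a b : ℕ) (e : List ℕ)
    (hh : ∀ n, Val z n → zlt z (lv n) (lv b) → (T (1, n, a, []) ∨ F (1, n, a, [])) ∧
      (T (2, lv b, fm b, n :: pr b) ∨ F (2, lv b, fm b, n :: pr b))) :
    T (0, a, b, e) ∨ F (0, a, b, e) := by
  by_cases hex : ∃ n, Val z n ∧ zlt z (lv n) (lv b) ∧ T (1, n, a, []) ∧
      T (2, lv b, fm b, n :: pr b)
  · obtain ⟨n, hn, h1, h2, h3⟩ := hex
    left
    apply c.hT'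
    unfold ruleT
    dsimp only
    left
    exact ⟨rfl, n, c.v3 hn, h1, h2, h3⟩
  · right
    apply c.hF'
    unfold ruleF
    dsimp only
    left
    refine ⟨rfl, fun n => ?_⟩
    by_cases hn : Val z n
    · by_cases hlt : zlt z (lv n) (lv b)
      · obtain ⟨h1, h2⟩ := hh n hn hlt
        rcases h1 with h1 | h1
        · rcases h2 with h2 | h2
          · exact absurd ⟨n, hn, hlt, h1, h2⟩ hex
          · exact Or.inr (Or.inr (Or.inr h2))
        · exact Or.inr (Or.inr (Or.inl h1))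
      · exact Or.inr (Or.inl hlt)
    · exact Or.inl (c.nv3 hn)

theorem LP6C.d1 (c : LP6C z rk α T F) (a b : ℕ) (e : List ℕ)
    (hh : ∀ n, Val z n → (zlt z (lv n) (lv a) ∨ zlt z (lv n) (lv b)) →
      (T (0, n, a, []) ∨ F (0, n, a, [])) ∧ (T (0, n, b, []) ∨ F (0, n, b, []))) :
    T (1, a, b, e) ∨ F (1, a, b, e) := by
  by_cases hex : ∃ n, Val z n ∧ (zlt z (lv n) (lv a) ∨ zlt z (lv n) (lv b)) ∧
      ((T (0, n, a, []) ∧ F (0, n, b, [])) ∨ (F (0, n, a, []) ∧ T (0, n, b, [])))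
  · obtain ⟨n, hn, h1, h2⟩ := hex
    right
    apply c.hF'
    unfold ruleF
    dsimp only
    right; left
    exact ⟨rfl, n, c.v3 hn, h1, h2⟩
  · left
    apply c.hT'
    unfold ruleT
    dsimp only
    right; left
    refine ⟨rfl, fun n => ?_⟩
    by_cases hn : Val z n
    · by_cases hlt : zlt z (lv n) (lv a) ∨ zlt z (lv n) (lv b)
      · obtain ⟨h1, h2⟩ := hh n hn hlt
        rcases h1 with h1 | h1 <;> rcases h2 with h2 | h2
        · exact Or.inr (Or.inr (Or.inl ⟨h1, h2⟩))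
        · exact absurd ⟨n, hn, hlt, Or.inl ⟨h1, h2⟩⟩ hex
        · exact absurd ⟨n, hn, hlt, Or.inr ⟨h1, h2⟩⟩ hex
        · exact Or.inr (Or.inr (Or.inr ⟨h1, h2⟩))
      · exact Or.inr (Or.inl hlt)
    · exact Or.inl (c.nv3 hn)

theorem LP6C.d2 (c : LP6C z rk α T F) (i f : ℕ) (e : List ℕ)
    (h0 : ∀ a b, (T (0, getenv e a, getenv e b, []) ∨ F (0, getenv e a, getenv e b, [])) ∧
      (T (1, getenv e a, getenv e b, []) ∨ F (1, getenv e a, getenv e b, [])))
    (h1 : ∀ g < f, (T (2, i, g, e) ∨ F (2, i, g, e)) ∧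
      ∀ n, Val z n → zlt z (lv n) i → (T (2, i, g, n :: e) ∨ F (2, i, g, n :: e))) :
    T (2, i, f, e) ∨ F (2, i, f, e) := by
  by_cases hf : f = 0
  · left
    apply c.hT'
    unfold ruleT
    dsimp only
    right; right; left
    exact ⟨rfl, hf⟩
  have ha := fa_lt hf
  have hb := fb_lt hf
  have hcases : ftag f = 0 ∨ ftag f = 1 ∨ ftag f = 2 ∨ ftag f = 3 ∨ 4 ≤ ftag f := by omega
  rcases hcases with ht | ht | ht | ht | ht
  · rcases (h0 (fa f) (fb f)).1 with h | h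
    · left
      apply c.hT'
      unfold ruleT
      dsimp only
      right; right; right; left
      exact ⟨rfl, hf, ht, h⟩
    · right
      apply c.hF'
      unfold ruleF
      dsimp only
      right; right; left
      exact ⟨rfl, hf, ht, h⟩
  · rcases (h0 (fa f) (fb f)).2 with h | h
    · left
      apply c.hT'
      unfold ruleT
      dsimp only
      right; right; right; right; left
      exact ⟨rfl, hf, ht, h⟩
    · right
      apply c.hF'
      unfold ruleF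
      dsimp only
      right; right; right; left
      exact ⟨rfl, hf, ht, h⟩
  · rcases (h1 _ ha).1 with h | h
    · right
      apply c.hF'
      unfold ruleF
      dsimp only
      right; right; right; right; left
      exact ⟨rfl, hf, ht, h⟩
    · left
      apply c.hT'
      unfold ruleT
      dsimp only
      right; right; right; right; right; left
      exact ⟨rfl, hf, ht, h⟩
  · rcases (h1 _ ha).1 with h | h
    · rcases (h1 _ hb).1 with h' | h'
      · left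
        apply c.hT'
        unfold ruleT
        dsimp only
        right; right; right; right; right; right; left
        exact ⟨rfl, hf, ht, h, h'⟩
      · right
        apply c.hF'
        unfold ruleF
        dsimp only
        right; right; right; right; right; left
        exact ⟨rfl, hf, ht, Or.inr h'⟩
    · right
      apply c.hF'
      unfold ruleF
      dsimp only
      right; right; right; right; right; left
      exact ⟨rfl, hf, ht, Or.inl h⟩
  · by_cases hex : ∃ n, Val z n ∧ zlt z (lv n) i ∧ T (2, i, fa f, n :: e)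
    · obtain ⟨n, hn, hlt, h⟩ := hex
      left
      apply c.hT'
      unfold ruleT
      dsimp only
      right; right; right; right; right; right; right; left
      exact ⟨rfl, hf, ht, n, c.v3 hn, hlt, h⟩
    · right
      apply c.hF'
      unfold ruleF
      dsimp only
      right; right; right; right; right; right; left
      refine ⟨rfl, hf, ht, fun n => ?_⟩
      by_cases hn : Val z n
      · by_cases hlt : zlt z (lv n) i
        · rcases (h1 _ ha).2 n hn hlt with h | h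
          · exact absurd ⟨n, hn, hlt, h⟩ hex
          · exact Or.inr (Or.inr h)
        · exact Or.inr (Or.inl hlt)
      · exact Or.inl (c.nv3 hn)

theorem LP6C.d4z (c : LP6C z rk α T F) (b : ℕ) (e : List ℕ)
    (hh : ∀ n, Val z n → zlt z (lv n) (lv b) → (T (0, n, b, []) ∨ F (0, n, b, []))) :
    T (4, 0, b, e) ∨ F (4, 0, b, e) := by
  by_cases hex : ∃ n, Val z n ∧ zlt z (lv n) (lv b) ∧ T (0, n, b, [])
  · obtain ⟨n, hn, hlt, h⟩ := hex
    right
    apply c.hF'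
    unfold ruleF
    dsimp only
    right; right; right; right; right; right; right; right; left
    exact ⟨rfl, rfl, n, c.v3 hn, hlt, h⟩
  · left
    apply c.hT'
    unfold ruleT
    dsimp only
    right; right; right; right; right; right; right; right; right; left
    refine ⟨rfl, rfl, fun n => ?_⟩
    by_cases hn : Val z n
    · by_cases hlt : zlt z (lv n) (lv b)
      · rcases hh n hn hlt with h | h
        · exact absurd ⟨n, hn, hlt, h⟩ hex
        · exact Or.inr (Or.inr h)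
      · exact Or.inr (Or.inl hlt)
    · exact Or.inl (c.nv3 hn)

theorem LP6C.d4s (c : LP6C z rk α T F) (k b : ℕ) (e : List ℕ)
    (hh : ∀ m, Val z m → zlt z (lv m) (lv b) → (T (4, k, m, []) ∨ F (4, k, m, [])) ∧
      ∀ n, Val z n → zlt z (lv n) (lv b) → (T (0, n, b, []) ∨ F (0, n, b, [])) ∧
        (T (0, n, m, []) ∨ F (0, n, m, [])) ∧ (T (1, n, m, []) ∨ F (1, n, m, []))) :
    T (4, k + 1, b, e) ∨ F (4, k + 1, b, e) := by
  by_cases hex : ∃ m, Val z m ∧ zlt z (lv m) (lv b) ∧ T (4, k, m, []) ∧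
    ∀ n, F (3, n, 0, []) ∨ ¬ zlt z (lv n) (lv b) ∨
      (T (0, n, b, []) ∧ (T (0, n, m, []) ∨ T (1, n, m, []))) ∨
      (F (0, n, b, []) ∧ F (0, n, m, []) ∧ F (1, n, m, []))
  · obtain ⟨m, hm, hlt, h4, hall⟩ := hex
    left
    apply c.hT'
    unfold ruleT
    dsimp only
    right; right; right; right; right; right; right; right; right; right
    exact ⟨rfl, Nat.succ_ne_zero k, m, c.v3 hm, hlt, h4, hall⟩
  · right
    apply c.hF'
    unfold ruleF
    dsimp only
    right; right; right; right; right; right; right; right; right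
    refine ⟨rfl, Nat.succ_ne_zero k, fun m => ?_⟩
    by_cases hm : Val z m
    · by_cases hlt : zlt z (lv m) (lv b)
      · obtain ⟨h4, hn⟩ := hh m hm hlt
        rcases h4 with h4 | h4
        · right; right; right
          have h5 : ¬ ∀ n, F (3, n, 0, []) ∨ ¬ zlt z (lv n) (lv b) ∨
            (T (0, n, b, []) ∧ (T (0, n, m, []) ∨ T (1, n, m, []))) ∨
            (F (0, n, b, []) ∧ F (0, n, m, []) ∧ F (1, n, m, [])) :=
            fun h => hex ⟨m, hm, hlt, h4, h⟩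
          obtain ⟨n, h6⟩ := not_forall.1 h5
          have h7 : Val z n := by
            by_contra h
            exact h6 (Or.inl (c.nv3 h))
          have h8 : zlt z (lv n) (lv b) := by
            by_contra h
            exact h6 (Or.inr (Or.inl h))
          obtain ⟨e1, e2, e3⟩ := hn n h7 h8
          refine ⟨n, c.v3 h7, h8, ?_⟩
          tauto
        · exact Or.inr (Or.inr (Or.inl h4))
      · exact Or.inr (Or.inl hlt)
    · exact Or.inl (c.nv3 hm)

theorem LP6C.main (c : LP6C z rk α T F) (M : Ordinal.{0}) :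
    (∀ a b e, Val z a → Val z b → rk (lv a) ≤ M → rk (lv b) ≤ M →
      (T (0, a, b, e) ∨ F (0, a, b, e)) ∧ (T (1, a, b, e) ∨ F (1, a, b, e))) ∧
    (∀ i f e, Rel z (2, i, f, e) → rk i ≤ M → (T (2, i, f, e) ∨ F (2, i, f, e))) := by
  induction M using WellFoundedLT.induction with
  | ind M ih =>
    have IH : ∀ a b e, Val z a → Val z b → rk (lv a) < M → rk (lv b) < M →
        (T (0, a, b, e) ∨ F (0, a, b, e)) ∧ (T (1, a, b, e) ∨ F (1, a, b, e)) := by
      intro a b e ha hb h1 h2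
      exact (ih (max (rk (lv a)) (rk (lv b))) (max_lt h1 h2)).1 a b e ha hb
        (le_max_left _ _) (le_max_right _ _)
    have hlt : ∀ n i, Val z n → zf z i → zlt z (lv n) i → rk (lv n) < rk i :=
      fun n i hn hi h => (c.h.mono _ _ (lp6_zf z hn) hi).1 h
    have hsat : ∀ f i e, Rel z (2, i, f, e) → rk i ≤ M → (T (2, i, f, e) ∨ F (2, i, f, e)) := by
      intro f
      induction f using Nat.strong_induction_on with
      | _ f ihf =>
        intro i e hr hi
        have hi0 := ((lp6_rel2_iff i f e).1 hr).1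
        apply c.d2
        · intro a b
          obtain ⟨h1, h2⟩ := lp6_getenv_val hr a
          obtain ⟨h3, h4⟩ := lp6_getenv_val hr b
          exact IH _ _ _ h1 h3 ((hlt _ _ h1 hi0 h2).trans_le hi) ((hlt _ _ h3 hi0 h4).trans_le hi)
        · intro g hg
          refine ⟨ihf g hg i e (lp6_rel2_f hr) hi, fun n hn hni => ?_⟩
          exact ihf g hg i (n :: e) (lp6_rel2_cons hr hn hni) hi
    have hb0 : ∀ a b e, Val z a → Val z b → rk (lv a) < M → rk (lv b) ≤ M →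
        (T (0, a, b, e) ∨ F (0, a, b, e)) := by
      intro a b e ha hb h1 h2
      apply c.d0
      intro n hn hnb
      refine ⟨?_, hsat _ _ _ (lp6_rel2 hb hn hnb _) h2⟩
      exact (IH n a [] hn ha ((hlt _ _ hn (lp6_zf z hb) hnb).trans_le h2) h1).2
    have hc : ∀ a b e, Val z a → Val z b → rk (lv a) ≤ M → rk (lv b) ≤ M →
        (T (1, a, b, e) ∨ F (1, a, b, e)) := by
      intro a b e ha hb h1 h2
      apply c.d1
      intro n hn hnab
      have h3 : rk (lv n) < M := by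
        rcases hnab with h | h
        · exact (hlt _ _ hn (lp6_zf z ha) h).trans_le h1
        · exact (hlt _ _ hn (lp6_zf z hb) h).trans_le h2
      exact ⟨hb0 n a [] hn ha h3 h1, hb0 n b [] hn hb h3 h2⟩
    have hd : ∀ a b e, Val z a → Val z b → rk (lv a) ≤ M → rk (lv b) ≤ M →
        (T (0, a, b, e) ∨ F (0, a, b, e)) := by
      intro a b e ha hb h1 h2
      apply c.d0
      intro n hn hnb
      refine ⟨?_, hsat _ _ _ (lp6_rel2 hb hn hnb _) h2⟩
      exact hc n a [] hn ha ((hlt _ _ hn (lp6_zf z hb) hnb).trans_le h2).le h1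
    exact ⟨fun a b e ha hb h1 h2 => ⟨hd a b e ha hb h1 h2, hc a b e ha hb h1 h2⟩,
      fun i f e hr hi => hsat f i e hr hi⟩

theorem LP6C.all01 (c : LP6C z rk α T F) (a b : ℕ) (e : List ℕ) (ha : Val z a) (hb : Val z b) :
    (T (0, a, b, e) ∨ F (0, a, b, e)) ∧ (T (1, a, b, e) ∨ F (1, a, b, e)) :=
  (c.main (max (rk (lv a)) (rk (lv b)))).1 a b e ha hb (le_max_left _ _) (le_max_right _ _)

theorem LP6C.all4 (c : LP6C z rk α T F) (k : ℕ) : ∀ (b : ℕ) (e : List ℕ), Val z b →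
    (T (4, k, b, e) ∨ F (4, k, b, e)) := by
  induction k with
  | zero =>
    intro b e hb
    apply c.d4z
    intro n hn _
    exact (c.all01 n b [] hn hb).1
  | succ k ih =>
    intro b e hb
    apply c.d4s
    intro m hm _
    refine ⟨ih m [] hm, fun n hn _ => ⟨(c.all01 n b [] hn hb).1, (c.all01 n m [] hn hm).1,
      (c.all01 n m [] hn hm).2⟩⟩

end

theorem rule_sound {z : ℕ → Prop} {rk : ℕ → Ordinal.{0}} {α : Ordinal.{0}} (h : Rk z rk α)
    {T F : Stm → Prop} (hT : ∀ st, Rel z st → T st → Tr z rk st)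
    (hF : ∀ st, Rel z st → F st → ¬ Tr z rk st) :
    (∀ st, Rel z st → ruleT z T F st → Tr z rk st) ∧
    (∀ st, Rel z st → ruleF z T F st → ¬ Tr z rk st) :=
  ⟨lp6_soundT ⟨h, hT, hF⟩, lp6_soundF ⟨h, hT, hF⟩⟩

theorem rule_complete {z : ℕ → Prop} {rk : ℕ → Ordinal.{0}} {α : Ordinal.{0}} (h : Rk z rk α)
    {T F : Stm → Prop} (hT : ∀ st, Rel z st → T st → Tr z rk st)
    (hF : ∀ st, Rel z st → F st → ¬ Tr z rk st)
    (hT' : ∀ st, ruleT z T F st → T st) (hF' : ∀ st, ruleF z T F st → F st) :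
    ∀ st, Rel z st → T st ∨ F st := by
  have c : LP6C z rk α T F := ⟨⟨h, hT, hF⟩, hT', hF'⟩
  rintro ⟨tag, a, b, e⟩ hr
  have hr' := hr
  unfold Rel at hr
  simp only at hr
  rcases hr with ⟨rfl, h1, h2⟩ | ⟨rfl, h1, h2⟩ | ⟨rfl, -⟩ | ⟨rfl, rfl, rfl⟩ | ⟨rfl, h1⟩
  · exact (c.all01 a b e h1 h2).1
  · exact (c.all01 a b e h1 h2).2
  · exact (c.main (rk a)).2 a b e hr' le_rfl
  · exact c.d3 a
  · exact c.all4 a b e h1

end Pool.Agent.HT
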