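import Pool.Agent.Helper85.HT.LP3
import Pool.Agent.Helper85.HT.LP6

set_option autoImplicit false

/-!
# LP8: the evaluation along the run of `G1`
-/

namespace Pool.Agent.HT

open Ordinal

/-- monotone transfinite sequences of subsets of a countable set become constant. -/
theorem exists_stable (E : Ordinal.{0} → Set ℕ) (hE : ∀ a b, a ≤ b → E a ⊆ E b) (a0 : Ordinal.{0}) :
    ∃ a, a0 ≤ a ∧ E (a + 1) = E a := by
  by_contra hcon
  push Not at hcon
  have h1 : ∀ a, a0 ≤ a → ∃ n, n ∈ E (a + 1) ∧ n ∉ E a := by
    intro a ha
    by_contra h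
    push Not at h
    exact hcon a ha (Set.Subset.antisymm h (hE _ _ le_self_add))
  have h2 : ∀ b : Ordinal.{0}, ∃ n, n ∈ E (a0 + b + 1) ∧ n ∉ E (a0 + b) :=
    fun b => h1 _ le_self_add
  choose f hf1 hf2 using h2
  have hinj : Function.Injective f := by
    have key : ∀ a b, a < b → f a ≠ f b := by
      intro a b hab he
      have h3 : a0 + a + 1 ≤ a0 + b := Order.add_one_le_of_lt (add_lt_add_right hab a0)
      exact hf2 b (he ▸ hE _ _ h3 (hf1 a))
    intro a b he
    rcases lt_trichotomy a b with h | h | h
    · exact (key a b h he).elim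
    · exact h
    · exact (key b a h he.symm).elim
  have hc : (Set.Iio (ω₁ : Ordinal.{0})).Countable :=
    Set.MapsTo.countable_of_injOn (f := f) (t := Set.univ) (fun _ _ => trivial)
      (hinj.injOn) Set.countable_univ
  exact lt_irrefl _ (countable_Iio_iff.1 hc)

/-! ### runs of a program after halting -/

theorem lp8_run_zero (p : Prog) (x : Cantor) : p.run x 0 = p.init x := by
  unfold Prog.run; exact Ordinal.limitRecOn_zero _ _ _

theorem lp8_run_add_one (p : Prog) (x : Cantor) (o : Ordinal.{0}) :
    p.run x (o + 1) = p.step (p.run x o) := by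
  unfold Prog.run; exact Ordinal.limitRecOn_add_one _ _ _ _

theorem lp8_run_limit (p : Prog) (x : Cantor) {o : Ordinal.{0}} (ho : Order.IsSuccLimit o) :
    p.run x o = p.limit o (fun a _ => p.run x a) := by
  unfold Prog.run
  rw [Ordinal.limitRecOn_limit _ _ _ _ ho]

open Classical in
theorem lp8_run_halt (p : Prog) (x : Cantor) {o : Ordinal.{0}} (ho : (p.run x o).st = p.halt)
    (o' : Ordinal.{0}) : o ≤ o' → (p.run x o').st = p.halt ∧
      (p.run x o').tape = (p.run x o).tape := by
  induction o' using Ordinal.limitRecOn with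
  | zero =>
    intro h
    have : o = 0 := le_antisymm h zero_le
    subst this
    exact ⟨ho, rfl⟩
  | add_one a ih =>
    intro h
    rcases h.lt_or_eq with h | h
    · obtain ⟨h1, h2⟩ := ih (Order.lt_add_one_iff.1 h)
      have h3 : p.run x (a + 1) = p.run x a := by
        rw [lp8_run_add_one]
        unfold Prog.step
        rw [if_pos h1]
      rw [h3]
      exact ⟨h1, h2⟩
    · subst h; exact ⟨ho, rfl⟩
  | limit a ha ih =>
    intro h
    rcases h.lt_or_eq with h | h
    · rw [lp8_run_limit p x ha]
      constructor
      · show (if _ then p.halt else p.lim) = p.halt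
        rw [if_pos]
        exact ⟨o, h, ho⟩
      · funext i j
        change limsupBit a (fun b _ => (p.run x b).tape i j) = (p.run x o).tape i j
        unfold limsupBit
        dsimp only
        cases hb : (p.run x o).tape i j
        · rw [decide_eq_false_iff_not]
          intro hall
          obtain ⟨b, hb1, hb2, hb3⟩ := hall o h
          rw [(ih b hb1 hb2).2, hb] at hb3
          exact Bool.noConfusion hb3
        · rw [decide_eq_true_iff]
          intro c hc
          refine ⟨max c o, max_lt hc h, le_max_left _ _, ?_⟩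
          rw [(ih _ (max_lt hc h) (le_max_right _ _)).2, hb]
    · subst h; exact ⟨ho, rfl⟩

/-! ### cells of `G1` -/

open Classical in
theorem lp8_G1 (y W : Cantor) (t a : ℕ) : G1 y W (Nat.pair t a) = true ↔ g1Bit y W t a := by
  unfold G1
  rw [decide_eq_true_iff, Nat.unpair_pair]

theorem lp8_G1_ev (y W : Cantor) (q : ℕ) (v : Bool) (st : Stm) :
    G1 y W (gEv q v st) = true ↔ (W (gEv q v st) = true ∨
      (cHalt W q ∧ v = true ∧ ruleT (cz y W q) (cT W q) (cF W q) st) ∨
      (cHalt W q ∧ v = false ∧ ruleF (cz y W q) (cT W q) (cF W q) st)) := by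
  rw [gEv, lp8_G1]
  unfold g1Bit
  constructor
  · rintro (h | h | h | h | h | h | h | h | h)
    · exact absurd h.1 (by decide)
    · exact absurd h.1 (by decide)
    · exact absurd h.1 (by decide)
    · exact absurd h.1 (by decide)
    · exact absurd h.1 (by decide)
    · exact absurd h.1 (by decide)
    · obtain ⟨-, q', v', st', he, h⟩ := h
      have := Encodable.encode_injective he
      simp only [Prod.mk.injEq] at this
      obtain ⟨rfl, rfl, h3⟩ := this
      have h4 : st = st' := by
        obtain ⟨a, b, c, d⟩ := st
        obtain ⟨a', b', c', d'⟩ := st'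
        simpa using h3
      subst h4
      exact h
    · exact absurd h.1 (by decide)
    · exact absurd h.1 (by decide)
  · intro h
    exact Or.inr (Or.inr (Or.inr (Or.inr (Or.inr (Or.inr (Or.inl ⟨rfl, q, v, st, rfl, h⟩))))))

theorem lp8_G1_wf (y W : Cantor) (q i : ℕ) :
    G1 y W (gWf q i) = true ↔ (W (gWf q i) = true ∨
      (cHalt W q ∧ zf (cz y W q) i ∧ ∀ j, zlt (cz y W q) j i → W (gWf q j) = true)) := by
  rw [gWf, lp8_G1]
  unfold g1Bit
  constructor
  · rintro (h | h | h | h | h | h | h | h | h)
    · exact absurd h.1 (by decide)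
    · exact absurd h.1 (by decide)
    · exact absurd h.1 (by decide)
    · exact absurd h.1 (by decide)
    · exact absurd h.1 (by decide)
    · exact absurd h.1 (by decide)
    · exact absurd h.1 (by decide)
    · obtain ⟨-, q', i', he, h⟩ := h
      have := Encodable.encode_injective he
      simp only [Prod.mk.injEq] at this
      obtain ⟨rfl, rfl⟩ := this
      exact h
    · exact absurd h.1 (by decide)
  · intro h
    exact Or.inr (Or.inr (Or.inr (Or.inr (Or.inr (Or.inr (Or.inr (Or.inl ⟨rfl, q, i, rfl, h⟩)))))))

/-- cells which are never erased -/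
theorem lp8_mono (y : Cantor) (m : ℕ) (hm : ∀ W : Cantor, W m = true → G1 y W m = true)
    {o' : Ordinal.{0}} (h' : titer (G1 y) o' m = true) (o'' : Ordinal.{0}) :
    o' ≤ o'' → titer (G1 y) o'' m = true := by
  induction o'' using Ordinal.limitRecOn with
  | zero =>
    intro h
    have : o' = 0 := le_antisymm h zero_le
    subst this
    exact h'
  | add_one a ih =>
    intro h
    rcases h.lt_or_eq with h | h
    · rw [titer_add_one]
      exact hm _ (ih (Order.lt_add_one_iff.1 h))
    · subst h; exact h'
  | limit a ha ih =>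
    intro h
    rcases h.lt_or_eq with h | h
    · rw [titer_limit _ ha]
      intro c hc
      exact ⟨max c o', le_max_left _ _, max_lt hc h, ih _ (max_lt hc h) (le_max_right _ _)⟩
    · subst h; exact h'

theorem lp8_halt_iff (y : Cantor) (q : ℕ) (o : Ordinal.{0}) :
    cHalt (titer (G1 y) o) q ↔ ((progOf q).run y o).st = (progOf q).halt := by
  unfold cHalt
  rw [(g1_sim y q o).2.2]
  exact ⟨fun h => Fin.ext h, fun h => congrArg Fin.val h⟩

theorem lp8_halt_mono (y : Cantor) (q : ℕ) {o : Ordinal.{0}} (ho : cHalt (titer (G1 y) o) q)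
    {o' : Ordinal.{0}} (h : o ≤ o') : cHalt (titer (G1 y) o') q ∧
      cz y (titer (G1 y) o') q = cz y (titer (G1 y) o) q := by
  rw [lp8_halt_iff] at ho
  obtain ⟨h1, h2⟩ := lp8_run_halt (progOf q) y ho o' h
  refine ⟨(lp8_halt_iff y q o').2 h1, ?_⟩
  funext k
  unfold cz
  apply propext
  rw [(g1_sim y q o').1, (g1_sim y q o).1, h2]

/-- after halting: the sets of evaluated statements grow and follow the rules -/
theorem g1_eval (y : Cantor) (q : ℕ) (o : Ordinal.{0}) (ho : cHalt (titer (G1 y) o) q) :
    (∀ o', o ≤ o' → cHalt (titer (G1 y) o') q ∧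
      cz y (titer (G1 y) o') q = cz y (titer (G1 y) o) q) ∧
    (∀ v st o' o'', o' ≤ o'' → titer (G1 y) o' (gEv q v st) = true →
      titer (G1 y) o'' (gEv q v st) = true) ∧
    (∀ i o' o'', o' ≤ o'' → titer (G1 y) o' (gWf q i) = true →
      titer (G1 y) o'' (gWf q i) = true) ∧
    (∀ i, titer (G1 y) (o + 1) (gWf q i) = true ↔ titer (G1 y) o (gWf q i) = true ∨
      (zf (cz y (titer (G1 y) o) q) i ∧
        ∀ j, zlt (cz y (titer (G1 y) o) q) j i → titer (G1 y) o (gWf q j) = true)) := by
  refine ⟨fun o' h => lp8_halt_mono y q ho h, ?_, ?_, ?_⟩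
  · intro v st o' o'' h h'
    exact lp8_mono y _ (fun W hW => (lp8_G1_ev y W q v st).2 (Or.inl hW)) h' o'' h
  · intro i o' o'' h h'
    exact lp8_mono y _ (fun W hW => (lp8_G1_wf y W q i).2 (Or.inl hW)) h' o'' h
  · intro i
    rw [titer_add_one, lp8_G1_wf]
    constructor
    · rintro (h | h)
      · exact Or.inl h
      · exact Or.inr h.2
    · rintro (h | h)
      · exact Or.inl h
      · exact Or.inr ⟨ho, h⟩

/-- bits for statements are only set after halting -/
theorem lp8_ev_halt (y : Cantor) (q : ℕ) (v : Bool) (st : Stm) (o : Ordinal.{0}) :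
    titer (G1 y) o (gEv q v st) = true → cHalt (titer (G1 y) o) q := by
  induction o using Ordinal.limitRecOn with
  | zero =>
    intro h
    rw [titer_zero] at h
    exact Bool.noConfusion h
  | add_one a ih =>
    intro h
    have ha : cHalt (titer (G1 y) a) q := by
      rw [titer_add_one, lp8_G1_ev] at h
      rcases h with h | h | h
      · exact ih h
      · exact h.1
      · exact h.1
    exact (lp8_halt_mono y q ha le_self_add).1
  | limit a ha ih =>
    intro h
    rw [titer_limit _ ha] at h
    obtain ⟨b, -, hb, h⟩ := h 0 ha.bot_lt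
    exact (lp8_halt_mono y q (ih b hb h) hb.le).1

/-- the evaluated statements are correct -/
theorem g1_sound (y : Cantor) (q : ℕ) (o : Ordinal.{0}) (ho : cHalt (titer (G1 y) o) q)
    {rk : ℕ → Ordinal.{0}} {α : Ordinal.{0}} (h : Rk (cz y (titer (G1 y) o) q) rk α) :
    (∀ st, Rel (cz y (titer (G1 y) o) q) st → cT (titer (G1 y) o) q st →
      Tr (cz y (titer (G1 y) o) q) rk st) ∧
    (∀ st, Rel (cz y (titer (G1 y) o) q) st → cF (titer (G1 y) o) q st →
      ¬ Tr (cz y (titer (G1 y) o) q) rk st) := by
  have key : ∀ o' : Ordinal.{0}, cHalt (titer (G1 y) o') q →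
      cz y (titer (G1 y) o') q = cz y (titer (G1 y) o) q →
      (∀ st, Rel (cz y (titer (G1 y) o) q) st → cT (titer (G1 y) o') q st →
        Tr (cz y (titer (G1 y) o) q) rk st) ∧
      (∀ st, Rel (cz y (titer (G1 y) o) q) st → cF (titer (G1 y) o') q st →
        ¬ Tr (cz y (titer (G1 y) o) q) rk st) := by
    intro o'
    induction o' using Ordinal.limitRecOn with
    | zero =>
      intro _ _
      constructor
      · intro st _ hT
        unfold cT at hT
        rw [titer_zero] at hT
        exact Bool.noConfusion hT
      · intro st _ hT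
        unfold cF at hT
        rw [titer_zero] at hT
        exact Bool.noConfusion hT
    | add_one a ih =>
      intro hh hz
      by_cases ha : cHalt (titer (G1 y) a) q
      · have hz' : cz y (titer (G1 y) a) q = cz y (titer (G1 y) o) q := by
          rw [← hz, (lp8_halt_mono y q ha (o' := a + 1) le_self_add).2]
        obtain ⟨h1, h2⟩ := ih ha hz'
        obtain ⟨h3, h4⟩ := rule_sound h h1 h2
        constructor
        · intro st hR hT
          unfold cT at hT
          rw [titer_add_one, lp8_G1_ev] at hT
          rcases hT with hT | hT | hT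
          · exact h1 st hR hT
          · rw [hz'] at hT
            exact h3 st hR hT.2.2
          · exact absurd hT.2.1 (by decide)
        · intro st hR hT
          unfold cF at hT
          rw [titer_add_one, lp8_G1_ev] at hT
          rcases hT with hT | hT | hT
          · exact h2 st hR hT
          · exact absurd hT.2.1 (by decide)
          · rw [hz'] at hT
            exact h4 st hR hT.2.2
      · constructor
        · intro st _ hT
          unfold cT at hT
          rw [titer_add_one, lp8_G1_ev] at hT
          rcases hT with hT | hT | hT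
          · exact (ha (lp8_ev_halt y q _ st a hT)).elim
          · exact (ha hT.1).elim
          · exact (ha hT.1).elim
        · intro st _ hT
          unfold cF at hT
          rw [titer_add_one, lp8_G1_ev] at hT
          rcases hT with hT | hT | hT
          · exact (ha (lp8_ev_halt y q _ st a hT)).elim
          · exact (ha hT.1).elim
          · exact (ha hT.1).elim
    | limit a hlim ih =>
      intro hh hz
      have hb0 : ∀ v st, titer (G1 y) a (gEv q v st) = true →
          ∃ b < a, titer (G1 y) b (gEv q v st) = true := by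
        intro v st h
        rw [titer_limit _ hlim] at h
        obtain ⟨b, -, hb, h⟩ := h 0 hlim.bot_lt
        exact ⟨b, hb, h⟩
      constructor
      · intro st hR hT
        obtain ⟨b, hb, hT'⟩ := hb0 true st hT
        have hbh := lp8_ev_halt y q _ st b hT'
        have hz' : cz y (titer (G1 y) b) q = cz y (titer (G1 y) o) q := by
          rw [← hz, (lp8_halt_mono y q hbh hb.le).2]
        exact (ih b hb hbh hz').1 st hR hT'
      · intro st hR hT
        obtain ⟨b, hb, hT'⟩ := hb0 false st hT
        have hbh := lp8_ev_halt y q _ st b hT'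
        have hz' : cz y (titer (G1 y) b) q = cz y (titer (G1 y) o) q := by
          rw [← hz, (lp8_halt_mono y q hbh hb.le).2]
        exact (ih b hb hbh hz').2 st hR hT'
  exact key o ho rfl

end Pool.Agent.HT
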