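import Pool.Agent.Helper85.HT.LP4
import Pool.Agent.Helper85.HT.LP7
import Pool.Agent.Helper85.HT.LP8

set_option autoImplicit false

/-!
# HT LP10: second half of the interface
-/

namespace Pool.Agent.HT

open Ordinal

/-- a well-founded linear relation coded by `z` has a rank function -/
theorem lp10_rk {z : ℕ → Prop} (hz : zlin z) (s : ℕ → Ordinal.{0}) (o : Ordinal.{0})
    (hs : ∀ i, zf z i → s i ≤ o) (hlt : ∀ i j, zf z i → zlt z j i → s j < s i) :
    ∃ (rk : ℕ → Ordinal.{0}) (α : Ordinal.{0}), Rk z rk α ∧ α ≤ o + 1 := by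
  classical
  obtain ⟨h1, h2, h3, h4⟩ := hz
  let F := {i // zf z i}
  let r : F → F → Prop := fun a b => zlt z a.1 b.1
  have hwf : WellFounded r := by
    have : WellFounded (InvImage (· < ·) (fun a : F => s a.1)) := InvImage.wf _ wellFounded_lt
    exact Subrelation.wf (fun {a b} hab => hlt b.1 a.1 b.2 hab) this
  have : IsWellFounded F r := ⟨hwf⟩
  have hle : ∀ a : F, IsWellFounded.rank r a ≤ s a.1 := by
    intro a
    induction a using hwf.induction with
    | _ a ih =>
      rw [IsWellFounded.rank_eq]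
      refine Ordinal.iSup_le fun b => ?_
      exact Order.succ_le_of_lt ((ih b.1 b.2).trans_lt (hlt a.1 b.1.1 a.2 b.2))
  have tri : ∀ a b : F, r a b ∨ a = b ∨ r b a := by
    intro a b
    by_cases hab : a = b
    · exact Or.inr (Or.inl hab)
    · have hne : a.1 ≠ b.1 := fun h => hab (Subtype.ext h)
      rcases h2 a.1 b.1 a.2 b.2 with h | h
      · exact Or.inl ⟨h, hne⟩
      · exact Or.inr (Or.inr ⟨h, hne.symm⟩)
  let rk : ℕ → Ordinal.{0} := fun i => if h : zf z i then IsWellFounded.rank r ⟨i, h⟩ else 0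
  have hrk : ∀ a : F, rk a.1 = IsWellFounded.rank r a := by
    intro a
    simp only [rk]
    rw [dif_pos a.2]
  have hbdd : BddAbove (Set.range fun a : F => Order.succ (IsWellFounded.rank r a)) :=
    Ordinal.bddAbove_of_small
  refine ⟨rk, ⨆ a : F, Order.succ (IsWellFounded.rank r a), ⟨⟨h1, h2, h3, h4⟩, ?_, ?_, ?_⟩, ?_⟩
  · intro i hi
    rw [show rk i = IsWellFounded.rank r ⟨i, hi⟩ from hrk ⟨i, hi⟩]
    exact (Order.lt_succ _).trans_le (le_ciSup hbdd ⟨i, hi⟩)
  · intro β hβ
    obtain ⟨a, ha⟩ := (Ordinal.lt_iSup_iff).1 hβ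
    obtain ⟨b, hb⟩ := IsWellFounded.mem_range_rank_of_le (Order.lt_succ_iff.1 ha)
    exact ⟨b.1, b.2, by rw [hrk, hb]⟩
  · intro i j hi hj
    rw [show rk i = IsWellFounded.rank r ⟨i, hi⟩ from hrk ⟨i, hi⟩,
      show rk j = IsWellFounded.rank r ⟨j, hj⟩ from hrk ⟨j, hj⟩]
    constructor
    · intro h
      exact IsWellFounded.rank_lt_of_rel (r := r) (a := ⟨i, hi⟩) (b := ⟨j, hj⟩) h
    · intro h
      rcases tri ⟨i, hi⟩ ⟨j, hj⟩ with h' | h' | h'
      · exact h'
      · rw [h'] at h; exact absurd h (lt_irrefl _)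
      · exact absurd h (not_lt.2 (IsWellFounded.rank_lt_of_rel (r := r) h').le)
  · refine Ordinal.iSup_le fun a => ?_
    rw [Order.succ_eq_add_one]
    gcongr
    exact (hle a).trans (hs a.1 a.2)

open Classical in
theorem g1_good_countable (ν : Ordinal.{0}) (hν : ν < ω₁) (q : ℕ) :
    {x | titer (G1 x) ν (gGood q) = true}.Countable := by
  refine (inLw_countable hν).mono fun x hx => ?_
  -- the stage
  have step1 : ∀ ν : Ordinal.{0}, titer (G1 x) ν (gGood q) = true → ∃ o, o < ν ∧
      titer (G1 x) (o + 1) (gGood q) = true := by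
    intro ν
    induction ν using WellFoundedLT.induction with
    | ind ν ih =>
      intro h
      rcases Ordinal.zero_or_succ_or_isSuccLimit ν with h0 | ⟨o, h1⟩ | hlim
      · subst h0; rw [titer_zero] at h; exact Bool.noConfusion h
      · rw [Order.succ_eq_add_one] at h1
        subst h1
        exact ⟨o, Order.lt_add_one_iff.2 le_rfl, h⟩
      · obtain ⟨b, -, hb, hb'⟩ := (titer_limit (G1 x) hlim (gGood q)).1 h 0 hlim.bot_lt
        obtain ⟨o, ho, ho'⟩ := ih b hb hb'
        exact ⟨o, ho.trans hb, ho'⟩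
  obtain ⟨o, hoν, ho⟩ := step1 ν hx
  rw [titer_add_one] at ho
  have hg : ∀ (W : Cantor) (t a : ℕ), G1 x W (Nat.pair t a) = true → g1Bit x W t a := by
    intro W t a h
    have h' : decide (g1Bit x W (Nat.pair t a).unpair.1 (Nat.pair t a).unpair.2) = true := h
    rw [Nat.unpair_pair] at h'
    exact of_decide_eq_true h'
  have ho2 : cHalt (titer (G1 x) o) q ∧ zlin (cz x (titer (G1 x) o) q) ∧
      (∀ i, zf (cz x (titer (G1 x) o) q) i → (titer (G1 x) o) (gWf q i) = true) ∧
      found (cz x (titer (G1 x) o) q) (cT (titer (G1 x) o) q) (cF (titer (G1 x) o) q) x := by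
    rcases hg _ 8 q ho with h | h | h | h | h | h | h | h | h
    · exact absurd h.1 (by norm_num)
    · exact absurd h.1 (by norm_num)
    · exact absurd h.1 (by norm_num)
    · exact absurd h.1 (by norm_num)
    · exact absurd h.1 (by norm_num)
    · exact absurd h.1 (by norm_num)
    · exact absurd h.1 (by norm_num)
    · exact absurd h.1 (by norm_num)
    · exact h.2
  obtain ⟨hH, hlin, hwf, hfound⟩ := ho2
  set z := cz x (titer (G1 x) o) q with hz
  -- the first stage at which a bit is set
  have hne : ∀ i, zf z i → ∃ a, titer (G1 x) a (gWf q i) = true := fun i hi => ⟨o, hwf i hi⟩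
  let s : ℕ → Ordinal.{0} := fun i => sInf {a | titer (G1 x) a (gWf q i) = true}
  have hs1 : ∀ i, zf z i → titer (G1 x) (s i) (gWf q i) = true := fun i hi =>
    csInf_mem (s := {a | titer (G1 x) a (gWf q i) = true}) ⟨o, hwf i hi⟩
  have hs2 : ∀ i a, titer (G1 x) a (gWf q i) = true → s i ≤ a := fun i a ha =>
    csInf_le' (s := {a | titer (G1 x) a (gWf q i) = true}) ha
  have hs3 : ∀ i j, zf z i → zlt z j i → s j < s i := by
    intro i j hi hj
    have h1 := hs1 i hi
    have hso : s i ≤ o := hs2 i o (hwf i hi)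
    rcases Ordinal.zero_or_succ_or_isSuccLimit (s i) with h0 | ⟨a, h2⟩ | hlim
    · rw [h0, titer_zero] at h1; exact Bool.noConfusion h1
    · rw [Order.succ_eq_add_one] at h2
      have hlt : a < s i := by rw [← h2]; exact Order.lt_add_one_iff.2 le_rfl
      rw [← h2, titer_add_one] at h1
      have h3 : cHalt (titer (G1 x) a) q ∧ zf (cz x (titer (G1 x) a) q) i ∧
          ∀ j, zlt (cz x (titer (G1 x) a) q) j i → titer (G1 x) a (gWf q j) = true := by
        rcases hg _ 7 _ h1 with h | h | h | h | h | h | h | h | h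
        · exact absurd h.1 (by norm_num)
        · exact absurd h.1 (by norm_num)
        · exact absurd h.1 (by norm_num)
        · exact absurd h.1 (by norm_num)
        · exact absurd h.1 (by norm_num)
        · exact absurd h.1 (by norm_num)
        · exact absurd h.1 (by norm_num)
        · obtain ⟨-, q', i', he, h⟩ := h
          have he' : (q, i) = (q', i') := Encodable.encode_injective he
          obtain ⟨rfl, rfl⟩ := Prod.mk.inj he'
          rcases h with h | h
          · exact absurd (hs2 _ _ h) (not_le.2 hlt)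
          · exact h
        · exact absurd h.1 (by norm_num)
      have h4 : cz x (titer (G1 x) o) q = cz x (titer (G1 x) a) q :=
        ((g1_eval x q a h3.1).1 o (hlt.le.trans hso)).2
      rw [← h4] at h3
      exact (hs2 j a (h3.2.2 j hj)).trans_lt hlt
    · obtain ⟨b, -, hb, hb'⟩ := (titer_limit (G1 x) hlim (gWf q i)).1 h1 0 hlim.bot_lt
      exact absurd (hs2 i b hb') (not_le.2 hb)
  obtain ⟨rk, α, hR, hα⟩ := lp10_rk hlin s o (fun i hi => hs2 i o (hwf i hi)) hs3
  obtain ⟨hT, hF⟩ := g1_sound x q o hH hR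
  have h5 : InLw x α := inLw_of_found hR hT hF hfound
  obtain ⟨X, hX, hX'⟩ := h5
  have hαν : α ≤ ν := hα.trans (Order.add_one_le_of_lt hoν)
  exact ⟨X, Lset_mono hαν hX, hX'⟩

end Pool.Agent.HT
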