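import Pool.Agent.Helper85.HT.LPDefs2

set_option autoImplicit false

/-!
# LP3: the operator `G1` simulates all coded Hamkins–Lewis programs
-/

namespace Pool.Agent.HT

open Ordinal

open Classical in
theorem lp3_G1 (y W : Cantor) (t a : ℕ) : G1 y W (Nat.pair t a) = true ↔ g1Bit y W t a := by
  unfold G1
  rw [decide_eq_true_iff, Nat.unpair_pair]

theorem lp3_par0 (y W : Cantor) :
    G1 y W (gPar 0) = true ↔ ¬ (W (gPar 0) = true ∧ W (gPar 1) = false) := by
  have h : G1 y W (Nat.pair 1 0) = true ↔ ¬ (W (gPar 0) = true ∧ W (gPar 1) = false) := by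
    rw [lp3_G1]
    unfold g1Bit
    simp
  exact h

theorem lp3_par1 (y W : Cantor) :
    G1 y W (gPar 1) = true ↔ (W (gPar 0) = true ∧ W (gPar 1) = false) := by
  have h : G1 y W (Nat.pair 1 1) = true ↔ (W (gPar 0) = true ∧ W (gPar 1) = false) := by
    rw [lp3_G1]
    unfold g1Bit
    simp
  exact h

theorem lp3_tape (y W : Cantor) (q i n : ℕ) :
    G1 y W (gTape q i n) = true ↔ nTape y W q i n := by
  rw [show gTape q i n = Nat.pair 2 (Encodable.encode (q, i, n)) from rfl, lp3_G1]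
  unfold g1Bit
  constructor
  · intro h
    rcases h with h | h | h | h | h | h | h | h | h
    · exact absurd h.1 (by norm_num)
    · exact absurd h.1 (by norm_num)
    · obtain ⟨-, q', i', n', he, h⟩ := h
      have := Encodable.encode_injective he
      simp only [Prod.mk.injEq] at this
      obtain ⟨rfl, rfl, rfl⟩ := this
      exact h
    all_goals exact absurd h.1 (by norm_num)
  · intro h
    exact Or.inr (Or.inr (Or.inl ⟨rfl, q, i, n, rfl, h⟩))

theorem lp3_head (y W : Cantor) (q n : ℕ) :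
    G1 y W (gHead q n) = true ↔ nHead y W q n := by
  rw [show gHead q n = Nat.pair 3 (Encodable.encode (q, n)) from rfl, lp3_G1]
  unfold g1Bit
  constructor
  · intro h
    rcases h with h | h | h | h | h | h | h | h | h
    · exact absurd h.1 (by norm_num)
    · exact absurd h.1 (by norm_num)
    · exact absurd h.1 (by norm_num)
    · obtain ⟨-, q', n', he, h⟩ := h
      have := Encodable.encode_injective he
      simp only [Prod.mk.injEq] at this
      obtain ⟨rfl, rfl⟩ := this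
      exact h
    all_goals exact absurd h.1 (by norm_num)
  · intro h
    exact Or.inr (Or.inr (Or.inr (Or.inl ⟨rfl, q, n, rfl, h⟩)))

theorem lp3_st (y W : Cantor) (q s : ℕ) :
    G1 y W (gSt q s) = true ↔ nSt y W q s := by
  rw [show gSt q s = Nat.pair 4 (Encodable.encode (q, s)) from rfl, lp3_G1]
  unfold g1Bit
  constructor
  · intro h
    rcases h with h | h | h | h | h | h | h | h | h
    · exact absurd h.1 (by norm_num)
    · exact absurd h.1 (by norm_num)
    · exact absurd h.1 (by norm_num)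
    · exact absurd h.1 (by norm_num)
    · obtain ⟨-, q', n', he, h⟩ := h
      have := Encodable.encode_injective he
      simp only [Prod.mk.injEq] at this
      obtain ⟨rfl, rfl⟩ := this
      exact h
    all_goals exact absurd h.1 (by norm_num)
  · intro h
    exact Or.inr (Or.inr (Or.inr (Or.inr (Or.inl ⟨rfl, q, s, rfl, h⟩))))

theorem lp3_haltbit (y W : Cantor) (q : ℕ) :
    G1 y W (gHalt q) = true ↔ (W (gHalt q) = true ∨ nSt y W q (pcode q).halt) := by
  rw [show gHalt q = Nat.pair 5 q from rfl, lp3_G1]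
  unfold g1Bit
  constructor
  · intro h
    rcases h with h | h | h | h | h | h | h | h | h
    · exact absurd h.1 (by norm_num)
    · exact absurd h.1 (by norm_num)
    · exact absurd h.1 (by norm_num)
    · exact absurd h.1 (by norm_num)
    · exact absurd h.1 (by norm_num)
    · exact h.2
    all_goals exact absurd h.1 (by norm_num)
  · intro h
    exact Or.inr (Or.inr (Or.inr (Or.inr (Or.inr (Or.inl ⟨rfl, h⟩)))))

/-! ### the parity cells -/

theorem lp3_zero (y : Cantor) : gZero (titer (G1 y) 0) := by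
  rw [titer_zero]; exact ⟨rfl, rfl⟩

theorem lp3_succ_par (y : Cantor) (o : Ordinal.{0}) :
    (titer (G1 y) (o + 1) (gPar 0) = true ∧ titer (G1 y) (o + 1) (gPar 1) = false) ∨
    (titer (G1 y) (o + 1) (gPar 0) = false ∧ titer (G1 y) (o + 1) (gPar 1) = true) := by
  rw [titer_add_one]
  have h0 := lp3_par0 y (titer (G1 y) o)
  have h1 := lp3_par1 y (titer (G1 y) o)
  by_cases hX : (titer (G1 y) o (gPar 0) = true ∧ titer (G1 y) o (gPar 1) = false)
  · right
    refine ⟨?_, h1.2 hX⟩
    rw [← Bool.not_eq_true, h0]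
    exact fun h => h hX
  · left
    refine ⟨h0.2 hX, ?_⟩
    rw [← Bool.not_eq_true, h1]
    exact hX

theorem lp3_succ_not_zero (y : Cantor) (o : Ordinal.{0}) : ¬ gZero (titer (G1 y) (o + 1)) := by
  rintro ⟨h0, h1⟩
  rcases lp3_succ_par y o with ⟨h2, h3⟩ | ⟨h2, h3⟩
  · rw [h0] at h2; exact Bool.noConfusion h2
  · rw [h1] at h3; exact Bool.noConfusion h3

theorem lp3_succ_not_lim (y : Cantor) (o : Ordinal.{0}) : ¬ gLim (titer (G1 y) (o + 1)) := by
  rintro ⟨h0, h1⟩
  rcases lp3_succ_par y o with ⟨h2, h3⟩ | ⟨h2, h3⟩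
  · rw [h1] at h3; exact Bool.noConfusion h3
  · rw [h0] at h2; exact Bool.noConfusion h2

theorem lp3_alt (y : Cantor) (o : Ordinal.{0}) (i : ℕ) (hi : i = 0 ∨ i = 1) :
    titer (G1 y) (o + 1) (gPar i) = true ∨ titer (G1 y) (o + 1 + 1) (gPar i) = true := by
  have h0 := lp3_par0 y (titer (G1 y) (o + 1))
  have h1 := lp3_par1 y (titer (G1 y) (o + 1))
  rw [← titer_add_one (G1 y)] at h0 h1
  rcases lp3_succ_par y o with ⟨h2, h3⟩ | ⟨h2, h3⟩
  · rcases hi with rfl | rfl
    · exact Or.inl h2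
    · exact Or.inr (h1.2 ⟨h2, h3⟩)
  · rcases hi with rfl | rfl
    · refine Or.inr (h0.2 ?_)
      rintro ⟨h4, -⟩
      rw [h2] at h4; exact Bool.noConfusion h4
    · exact Or.inl h3

theorem lp3_lim (y : Cantor) {o : Ordinal.{0}} (ho : Order.IsSuccLimit o) :
    gLim (titer (G1 y) o) := by
  have key : ∀ i, i = 0 ∨ i = 1 → titer (G1 y) o (gPar i) = true := by
    intro i hi
    rw [titer_limit _ ho]
    intro a ha
    have h1 : a + 1 < o := ho.add_one_lt ha
    have h2 : a + 1 + 1 < o := ho.add_one_lt h1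
    rcases lp3_alt y a i hi with h | h
    · exact ⟨a + 1, le_self_add, h1, h⟩
    · exact ⟨a + 1 + 1, le_trans le_self_add le_self_add, h2, h⟩
  exact ⟨key 0 (Or.inl rfl), key 1 (Or.inr rfl)⟩

theorem lp3_not_zero (y : Cantor) {o : Ordinal.{0}} (ho : o ≠ 0) : ¬ gZero (titer (G1 y) o) := by
  rcases Ordinal.zero_or_succ_or_isSuccLimit o with h | ⟨a, rfl⟩ | h
  · exact absurd h ho
  · exact lp3_succ_not_zero y a
  · rintro ⟨h0, -⟩
    have := (lp3_lim y h).1
    rw [h0] at this
    exact Bool.noConfusion this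

/-! ### the run of a program -/

theorem lp3_run_zero (p : Prog) (x : Cantor) : p.run x 0 = p.init x := by
  unfold Prog.run; exact Ordinal.limitRecOn_zero _ _ _

theorem lp3_run_succ (p : Prog) (x : Cantor) (o : Ordinal.{0}) :
    p.run x (o + 1) = p.step (p.run x o) := by
  unfold Prog.run; exact Ordinal.limitRecOn_add_one _ _ _ _

theorem lp3_run_limit (p : Prog) (x : Cantor) {o : Ordinal.{0}} (ho : Order.IsSuccLimit o) :
    p.run x o = p.limit o (fun a _ => p.run x a) := by
  unfold Prog.run; rw [Ordinal.limitRecOn_limit _ _ _ _ ho]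

/-! ### bits -/

theorem lp3_bits_lt (g : Fin 3 → Bool) : bits3 g < 8 := by
  unfold bits3
  cases g 0 <;> cases g 1 <;> cases g 2 <;> decide

theorem lp3_bits_testBit (g : Fin 3 → Bool) (i : ℕ) (hi : i < 3) :
    (bits3 g).testBit i = g ⟨i, hi⟩ := by
  unfold bits3
  interval_cases i
  · show _ = g 0
    cases g 0 <;> cases g 1 <;> cases g 2 <;> decide
  · show _ = g 1
    cases g 0 <;> cases g 1 <;> cases g 2 <;> decide
  · show _ = g 2
    cases g 0 <;> cases g 1 <;> cases g 2 <;> decide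

theorem lp3_bits_eq (b : ℕ) (hb : b < 8) (g : Fin 3 → Bool)
    (h : ∀ i (hi : i < 3), b.testBit i = g ⟨i, hi⟩) : b = bits3 g := by
  refine Nat.eq_of_testBit_eq fun i => ?_
  by_cases hi : i < 3
  · rw [h i hi, lp3_bits_testBit g i hi]
  · have h8 : 8 ≤ 2 ^ i := by
      calc 8 = 2 ^ 3 := by norm_num
        _ ≤ 2 ^ i := Nat.pow_le_pow_right (by norm_num) (by omega)
    rw [Nat.testBit_eq_false_of_lt (lt_of_lt_of_le hb h8),
      Nat.testBit_eq_false_of_lt (lt_of_lt_of_le (lp3_bits_lt g) h8)]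

/-! ### the simulation -/

attribute [local irreducible] pcode

/-- the state `W` codes the configuration `c` of the program `q` -/
def LP3Rep (y W : Cantor) (q : ℕ) (c : Cfg (Fin ((pcode q).1 + 1))) : Prop :=
  (∀ i n, cTape y W q i n ↔ ∃ hi : i < 3, c.tape ⟨i, hi⟩ n = true) ∧
  (∀ n, cHead W q n ↔ c.pos = n) ∧
  (∀ s, cSt W q s ↔ c.st.val = s)

theorem lp3_halt {y W : Cantor} {q : ℕ} {c : Cfg (Fin ((pcode q).1 + 1))}
    (h : LP3Rep y W q c) : cHalt W q ↔ c.st = (progOf q).halt := by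
  unfold cHalt
  rw [h.2.2]
  exact (Fin.ext_iff (a := c.st) (b := (progOf q).halt)).symm

theorem lp3_read {y W : Cantor} {q : ℕ} {c : Cfg (Fin ((pcode q).1 + 1))}
    (h : LP3Rep y W q c) (n s b : ℕ) : cRead y W q n s b ↔
      n = c.pos ∧ s = c.st.val ∧ b = bits3 (fun i => c.tape i c.pos) := by
  unfold cRead
  rw [h.2.1, h.2.2]
  constructor
  · rintro ⟨rfl, rfl, hb, h4⟩
    refine ⟨rfl, rfl, lp3_bits_eq b hb _ fun i hi => ?_⟩
    have := h4 i hi
    rw [h.1] at this
    rw [Bool.eq_iff_iff, this]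
    exact ⟨fun ⟨_, h⟩ => h, fun h => ⟨hi, h⟩⟩
  · rintro ⟨rfl, rfl, rfl⟩
    refine ⟨rfl, rfl, lp3_bits_lt _, fun i hi => ?_⟩
    rw [lp3_bits_testBit _ i hi, h.1]
    exact ⟨fun h => ⟨hi, h⟩, fun ⟨_, h⟩ => h⟩

theorem lp3_step_halt {q : ℕ} {c : Cfg (progOf q).Q} (hc : c.st = (progOf q).halt) :
    (progOf q).step c = c := by
  unfold Prog.step; rw [if_pos hc]

theorem lp3_step_tape {q : ℕ} {c : Cfg (progOf q).Q} (hc : ¬ c.st = (progOf q).halt)
    (i : Fin 3) (n : ℕ) : ((progOf q).step c).tape i n =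
      if n = c.pos then
        ((pcode q).entry (Fin.val (n := (pcode q).1 + 1) c.st)
          (bits3 (fun i => c.tape i c.pos))).2.1.testBit i
      else c.tape i n := by
  unfold Prog.step; rw [if_neg hc]; rfl

theorem lp3_dir (q : ℕ) (s : (progOf q).Q) (b : Fin 3 → Bool) :
    ((progOf q).δ s b).2.2 = true ↔
      ((pcode q).entry (Fin.val (n := (pcode q).1 + 1) s) (bits3 b)).2.2 ≠ 0 := by
  unfold progOf
  simp only [ne_eq, decide_eq_true_eq]

theorem lp3_step_pos {q : ℕ} {c : Cfg (progOf q).Q} (hc : ¬ c.st = (progOf q).halt) :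
    ((progOf q).step c).pos =
      if ((pcode q).entry (Fin.val (n := (pcode q).1 + 1) c.st)
          (bits3 (fun i => c.tape i c.pos))).2.2 ≠ 0 then c.pos + 1 else c.pos - 1 := by
  have h1 : ((progOf q).step c).pos = if ((progOf q).δ c.st (fun i => c.tape i c.pos)).2.2 = true
      then c.pos + 1 else c.pos - 1 := by
    unfold Prog.step; rw [if_neg hc]
  rw [h1]
  exact if_congr (lp3_dir q _ _) rfl rfl

theorem lp3_step_st {q : ℕ} {c : Cfg (progOf q).Q} (hc : ¬ c.st = (progOf q).halt) :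
    Fin.val (n := (pcode q).1 + 1) ((progOf q).step c).st =
      (pcode q).nst (Fin.val (n := (pcode q).1 + 1) c.st)
          (bits3 (fun i => c.tape i c.pos)) := by
  unfold Prog.step; rw [if_neg hc]; rfl

theorem lp3_nTape {y W : Cantor} {q : ℕ} {c : Cfg (progOf q).Q}
    (h : LP3Rep y W q c) (i n : ℕ) : nTape y W q i n ↔
      ∃ hi : i < 3, ((progOf q).step c).tape ⟨i, hi⟩ n = true := by
  unfold nTape
  by_cases hc : c.st = (progOf q).halt
  · rw [lp3_step_halt hc, ← h.1 i n]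
    have h1 : cHalt W q := (lp3_halt h).2 hc
    exact ⟨fun h2 => h2.elim (fun h3 => h3.2) (fun h3 => absurd h1 h3.1), fun h2 => Or.inl ⟨h1, h2⟩⟩
  · have h0 : ¬ cHalt W q := fun h1 => hc ((lp3_halt h).1 h1)
    constructor
    · rintro (h1 | ⟨-, ⟨h1, h2⟩ | ⟨s, b, h1, h2, hi⟩⟩)
      · exact absurd h1.1 h0
      · rw [h.2.1] at h1
        obtain ⟨hi, h2⟩ := (h.1 i n).1 h2
        refine ⟨hi, ?_⟩
        rw [lp3_step_tape hc, if_neg (fun e => h1 e.symm)]
        exact h2
      · obtain ⟨rfl, rfl, rfl⟩ := (lp3_read h _ _ _).1 h1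
        refine ⟨hi, ?_⟩
        rw [lp3_step_tape hc, if_pos rfl]
        exact h2
    · rintro ⟨hi, h1⟩
      rw [lp3_step_tape hc] at h1
      refine Or.inr ⟨h0, ?_⟩
      by_cases hn : n = c.pos
      · rw [if_pos hn] at h1
        right
        exact ⟨_, _, (lp3_read h _ _ _).2 ⟨hn, rfl, rfl⟩, h1, hi⟩
      · rw [if_neg hn] at h1
        left
        exact ⟨fun e => hn ((h.2.1 n).1 e).symm, (h.1 i n).2 ⟨hi, h1⟩⟩

theorem lp3_nHead {y W : Cantor} {q : ℕ} {c : Cfg (progOf q).Q}
    (h : LP3Rep y W q c) (n : ℕ) : nHead y W q n ↔ ((progOf q).step c).pos = n := by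
  unfold nHead
  by_cases hc : c.st = (progOf q).halt
  · rw [lp3_step_halt hc]
    have h1 : cHalt W q := (lp3_halt h).2 hc
    constructor
    · rintro (h2 | h2)
      · exact (h.2.1 n).1 h2.2
      · exact absurd h1 h2.1
    · intro h2
      exact Or.inl ⟨h1, (h.2.1 n).2 h2⟩
  · have h0 : ¬ cHalt W q := fun h1 => hc ((lp3_halt h).1 h1)
    rw [lp3_step_pos hc]
    constructor
    · rintro (h1 | ⟨-, n0, s, b, h1, rfl⟩)
      · exact absurd h1.1 h0
      · obtain ⟨rfl, rfl, rfl⟩ := (lp3_read h _ _ _).1 h1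
        rfl
    · rintro rfl
      exact Or.inr ⟨h0, _, _, _, (lp3_read h _ _ _).2 ⟨rfl, rfl, rfl⟩, rfl⟩

theorem lp3_nSt {y W : Cantor} {q : ℕ} {c : Cfg (progOf q).Q}
    (h : LP3Rep y W q c) (s : ℕ) : nSt y W q s ↔
      Fin.val (n := (pcode q).1 + 1) ((progOf q).step c).st = s := by
  unfold nSt
  by_cases hc : c.st = (progOf q).halt
  · rw [lp3_step_halt hc]
    have h1 : cHalt W q := (lp3_halt h).2 hc
    constructor
    · rintro (h2 | h2)
      · exact (h.2.2 s).1 h2.2
      · exact absurd h1 h2.1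
    · intro h2
      exact Or.inl ⟨h1, (h.2.2 s).2 h2⟩
  · have h0 : ¬ cHalt W q := fun h1 => hc ((lp3_halt h).1 h1)
    rw [lp3_step_st hc]
    constructor
    · rintro (h1 | ⟨-, n0, s, b, h1, rfl⟩)
      · exact absurd h1.1 h0
      · obtain ⟨rfl, rfl, rfl⟩ := (lp3_read h _ _ _).1 h1
        rfl
    · rintro rfl
      exact Or.inr ⟨h0, _, _, _, (lp3_read h _ _ _).2 ⟨rfl, rfl, rfl⟩, rfl⟩

/-- the induction hypothesis -/
def LP3Ind (y : Cantor) (q : ℕ) (o : Ordinal.{0}) : Prop :=
  LP3Rep y (titer (G1 y) o) q ((progOf q).run y o) ∧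
  (titer (G1 y) o (gHalt q) = true → ∃ a ≤ o, ((progOf q).run y a).st = (progOf q).halt) ∧
  ((∃ a < o, ((progOf q).run y a).st = (progOf q).halt) → titer (G1 y) o (gHalt q) = true)

theorem lp3_ind_zero (y : Cantor) (q : ℕ) : LP3Ind y q 0 := by
  have hz := lp3_zero y
  have hl : ¬ gLim (titer (G1 y) 0) := by
    rintro ⟨h1, -⟩
    rw [hz.1] at h1; exact Bool.noConfusion h1
  refine ⟨⟨fun i n => ?_, fun n => ?_, fun s => ?_⟩, ?_, ?_⟩
  · rw [lp3_run_zero]
    unfold cTape
    constructor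
    · rintro (⟨-, rfl, h⟩ | ⟨h, -⟩)
      · exact ⟨by norm_num, h⟩
      · exact absurd hz h
    · rintro ⟨hi, h⟩
      left
      have h' : (if (⟨i, hi⟩ : Fin 3) = 0 then y n else false) = true := h
      by_cases h0 : (⟨i, hi⟩ : Fin 3) = 0
      · rw [if_pos h0] at h'
        exact ⟨hz, by simpa [Fin.ext_iff] using h0, h'⟩
      · rw [if_neg h0] at h'
        exact Bool.noConfusion h'
  · rw [lp3_run_zero]
    unfold cHead
    constructor
    · rintro (⟨-, rfl⟩ | ⟨h, -⟩)
      · rfl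
      · exact absurd hz h
    · intro h
      exact Or.inl ⟨Or.inl hz, h.symm⟩
  · rw [lp3_run_zero]
    unfold cSt
    constructor
    · rintro (⟨-, rfl⟩ | ⟨h, -⟩ | ⟨h, -⟩ | ⟨h, -⟩)
      · rfl
      · exact absurd h hl
      · exact absurd h hl
      · exact absurd hz h
    · intro h
      exact Or.inl ⟨hz, h.symm⟩
  · intro h
    rw [titer_zero] at h
    exact Bool.noConfusion h
  · rintro ⟨a, ha, -⟩
    exact absurd ha (by simp)

theorem lp3_ind_succ (y : Cantor) (q : ℕ) (o : Ordinal.{0}) (ih : LP3Ind y q o) :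
    LP3Ind y q (o + 1) := by
  obtain ⟨h, hh1, hh2⟩ := ih
  have hz := lp3_succ_not_zero y o
  have hl := lp3_succ_not_lim y o
  have hst : titer (G1 y) (o + 1) (gHalt q) = true ↔ (titer (G1 y) o (gHalt q) = true ∨
      ((progOf q).run y (o + 1)).st = (progOf q).halt) := by
    rw [titer_add_one (G1 y), lp3_haltbit, lp3_nSt h, lp3_run_succ]
    exact or_congr Iff.rfl (Fin.ext_iff (a := ((progOf q).step ((progOf q).run y o)).st)
      (b := (progOf q).halt)).symm
  refine ⟨⟨fun i n => ?_, fun n => ?_, fun s => ?_⟩, ?_, ?_⟩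
  · rw [lp3_run_succ, ← lp3_nTape h, ← lp3_tape, ← titer_add_one (G1 y)]
    unfold cTape
    constructor
    · rintro (h1 | h1)
      · exact absurd h1.1 hz
      · exact h1.2
    · intro h1
      exact Or.inr ⟨hz, h1⟩
  · rw [lp3_run_succ, ← lp3_nHead h, ← lp3_head, ← titer_add_one (G1 y)]
    unfold cHead
    constructor
    · rintro (⟨h1 | h1, -⟩ | h1)
      · exact absurd h1 hz
      · exact absurd h1 hl
      · exact h1.2.2
    · intro h1
      exact Or.inr ⟨hz, hl, h1⟩
  · rw [lp3_run_succ]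
    refine Iff.trans ?_ (lp3_nSt h s)
    rw [← lp3_st, ← titer_add_one (G1 y)]
    unfold cSt
    constructor
    · rintro (h1 | h1 | h1 | h1)
      · exact absurd h1.1 hz
      · exact absurd h1.1 hl
      · exact absurd h1.1 hl
      · exact h1.2.2
    · intro h1
      exact Or.inr (Or.inr (Or.inr ⟨hz, hl, h1⟩))
  · intro h1
    rcases hst.1 h1 with h2 | h2
    · obtain ⟨a, ha, h3⟩ := hh1 h2
      exact ⟨a, le_trans ha le_self_add, h3⟩
    · exact ⟨o + 1, le_rfl, h2⟩
  · rintro ⟨a, ha, h1⟩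
    rw [hst]
    rcases lt_or_eq_of_le (Order.lt_add_one_iff.1 ha) with h2 | rfl
    · exact Or.inl (hh2 ⟨a, h2, h1⟩)
    · right
      rw [lp3_run_succ, lp3_step_halt h1]
      exact h1

open Classical in
theorem lp3_ind_limit (y : Cantor) (q : ℕ) (o : Ordinal.{0}) (ho : Order.IsSuccLimit o)
    (ih : ∀ a < o, LP3Ind y q a) : LP3Ind y q o := by
  have hL := lp3_lim y ho
  have ho0 : o ≠ 0 := by
    rintro rfl
    exact ho.1 isMin_bot
  have hpos : (0 : Ordinal.{0}) < o := pos_iff_ne_zero.2 ho0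
  have h1o : (1 : Ordinal.{0}) < o := by
    have := ho.add_one_lt hpos
    rwa [zero_add] at this
  have hz := lp3_not_zero y ho0
  have hst : titer (G1 y) o (gHalt q) = true ↔
      ∃ a < o, ((progOf q).run y a).st = (progOf q).halt := by
    rw [titer_limit _ ho]
    constructor
    · intro h
      obtain ⟨b, -, hb, h1⟩ := h 0 hpos
      obtain ⟨a, ha, h2⟩ := (ih b hb).2.1 h1
      exact ⟨a, lt_of_le_of_lt ha hb, h2⟩
    · rintro ⟨a, ha, h1⟩ c hc
      have hm : max a c + 1 < o := ho.add_one_lt (max_lt ha hc)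
      refine ⟨max a c + 1, le_trans (le_max_right a c) le_self_add, hm, (ih _ hm).2.2 ⟨a, ?_, h1⟩⟩
      exact lt_of_le_of_lt (le_max_left a c) (Order.lt_add_one_iff.2 le_rfl)
  have hrun := lp3_run_limit (progOf q) y ho
  refine ⟨⟨fun i n => ?_, fun n => ?_, fun s => ?_⟩, ?_, ?_⟩
  · have hc : cTape y (titer (G1 y) o) q i n ↔ titer (G1 y) o (gTape q i n) = true := by
      unfold cTape
      exact ⟨fun h => h.elim (fun h => absurd h.1 hz) (fun h => h.2), fun h => Or.inr ⟨hz, h⟩⟩
    have hc' : ∀ b, b ≠ 0 → (cTape y (titer (G1 y) b) q i n ↔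
        titer (G1 y) b (gTape q i n) = true) := by
      intro b hb
      have hzb := lp3_not_zero y hb
      unfold cTape
      exact ⟨fun h => h.elim (fun h => absurd h.1 hzb) (fun h => h.2), fun h => Or.inr ⟨hzb, h⟩⟩
    rw [hc, hrun]
    have hlim : ∀ hi : i < 3, ((((progOf q).limit o (fun a _ => (progOf q).run y a)).tape
        ⟨i, hi⟩ n = true) ↔ ∀ a, a < o → ∃ b, ∃ _ : b < o, a ≤ b ∧
          ((progOf q).run y b).tape ⟨i, hi⟩ n = true) := by
      intro hi
      show limsupBit o _ = true ↔ _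
      unfold limsupBit
      rw [decide_eq_true_iff]
    constructor
    · intro h
      rw [titer_limit _ ho] at h
      obtain ⟨b, h1, h2, h3⟩ := h 1 h1o
      have hb0 : b ≠ 0 := fun e => by
        rw [e] at h1
        exact absurd h1 (by simp)
      obtain ⟨hi, -⟩ := ((ih b h2).1.1 i n).1 ((hc' b hb0).2 h3)
      refine ⟨hi, (hlim hi).2 fun a ha => ?_⟩
      obtain ⟨b, h1, h2, h3⟩ := h (max a 1) (max_lt ha h1o)
      have hb0 : b ≠ 0 := fun e => by
        rw [e] at h1
        exact absurd (le_trans (le_max_right a 1) h1) (by simp)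
      obtain ⟨hi', h4⟩ := ((ih b h2).1.1 i n).1 ((hc' b hb0).2 h3)
      exact ⟨b, h2, le_trans (le_max_left a 1) h1, h4⟩
    · rintro ⟨hi, h⟩
      rw [titer_limit _ ho]
      intro a ha
      obtain ⟨b, h2, h1, h3⟩ := (hlim hi).1 h (max a 1) (max_lt ha h1o)
      have hb0 : b ≠ 0 := fun e => by
        rw [e] at h1
        exact absurd (le_trans (le_max_right a 1) h1) (by simp)
      exact ⟨b, le_trans (le_max_left a 1) h1, h2, (hc' b hb0).1 (((ih b h2).1.1 i n).2 ⟨hi, h3⟩)⟩
  · rw [hrun]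
    unfold cHead
    constructor
    · rintro (⟨-, rfl⟩ | ⟨-, h, -⟩)
      · rfl
      · exact absurd hL h
    · intro h
      exact Or.inl ⟨Or.inr hL, h.symm⟩
  · have hs : ((progOf q).run y o).st =
        if ∃ a, ∃ _ : a < o, ((progOf q).run y a).st = (progOf q).halt then (progOf q).halt
        else (progOf q).lim := by
      rw [hrun]
      unfold Prog.limit
      rfl
    unfold cSt
    by_cases hH : ∃ a, ∃ _ : a < o, ((progOf q).run y a).st = (progOf q).halt
    · rw [if_pos hH] at hs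
      rw [hs]
      have hW : titer (G1 y) o (gHalt q) = true := hst.2 (by
        obtain ⟨a, ha, h⟩ := hH
        exact ⟨a, ha, h⟩)
      constructor
      · rintro (h | ⟨-, -, rfl⟩ | ⟨-, h, -⟩ | ⟨-, h, -⟩)
        · exact absurd h.1 hz
        · rfl
        · rw [hW] at h; exact Bool.noConfusion h
        · exact absurd hL h
      · intro h
        exact Or.inr (Or.inl ⟨hL, hW, h.symm⟩)
    · rw [if_neg hH] at hs
      rw [hs]
      have hW : titer (G1 y) o (gHalt q) = false := by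
        rw [← Bool.not_eq_true, hst]
        rintro ⟨a, ha, h⟩
        exact hH ⟨a, ha, h⟩
      constructor
      · rintro (h | ⟨-, h, -⟩ | ⟨-, -, rfl⟩ | ⟨-, h, -⟩)
        · exact absurd h.1 hz
        · rw [hW] at h; exact Bool.noConfusion h
        · rfl
        · exact absurd hL h
      · intro h
        exact Or.inr (Or.inr (Or.inl ⟨hL, hW, h.symm⟩))
  · intro h
    obtain ⟨a, ha, h1⟩ := hst.1 h
    exact ⟨a, ha.le, h1⟩
  · exact hst.2

theorem lp3_ind (y : Cantor) (q : ℕ) (o : Ordinal.{0}) : LP3Ind y q o := by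
  induction o using Ordinal.limitRecOn with
  | zero => exact lp3_ind_zero y q
  | add_one o ih => exact lp3_ind_succ y q o ih
  | limit o ho ih => exact lp3_ind_limit y q o ho ih

theorem g1_sim (y : Cantor) (q : ℕ) (o : Ordinal.{0}) :
    (∀ i n, cTape y (titer (G1 y) o) q i n ↔
      ∃ hi : i < 3, ((progOf q).run y o).tape ⟨i, hi⟩ n = true) ∧
    (∀ n, cHead (titer (G1 y) o) q n ↔ ((progOf q).run y o).pos = n) ∧
    (∀ s, cSt (titer (G1 y) o) q s ↔
      Fin.val (n := (pcode q).1 + 1) ((progOf q).run y o).st = s) :=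
  (lp3_ind y q o).1

end Pool.Agent.HT
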