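import Pool.Agent.Helper85.HT.LPDefs2

set_option autoImplicit false

/-!
# LP4 : the levels `L_α`: small, monotone, countable for countable `α`
-/

namespace Pool.Agent.HT

open Ordinal

/-! ## LP4 : the levels `L_α` -/

theorem mem_Lset_iff {α : Ordinal.{0}} {X : ZFSet.{0}} :
    X ∈ Lset α ↔ ∃ β < α, X ∈ DefSet (Lset β) := by
  rw [Lset]
  simp only [Set.mem_iUnion, Subtype.exists, Set.mem_Iio, exists_prop]

theorem Lset_mono {α β : Ordinal.{0}} (h : α ≤ β) : Lset α ⊆ Lset β := by
  intro X hX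
  obtain ⟨γ, hγ, hX⟩ := mem_Lset_iff.1 hX
  exact mem_Lset_iff.2 ⟨γ, hγ.trans_le h, hX⟩

theorem Lset_small (α : Ordinal.{0}) : ∃ M : ZFSet.{0}, ∀ y, y ∈ M ↔ y ∈ Lset α := by
  induction α using WellFoundedLT.induction with
  | ind α ih =>
    choose M hM using ih
    let U : ZFSet.{0} := ZFSet.sUnion (ZFSet.range (fun β : Set.Iio α => (M β.1 β.2).powerset))
    refine ⟨ZFSet.sep (fun y => y ∈ Lset α) U, fun y => ?_⟩
    rw [ZFSet.mem_sep]
    refine ⟨fun h => h.2, fun h => ⟨?_, h⟩⟩
    obtain ⟨β, hβ, φ, e, -, hX⟩ := mem_Lset_iff.1 h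
    rw [ZFSet.mem_sUnion]
    refine ⟨(M β hβ).powerset, ?_, ?_⟩
    · rw [ZFSet.mem_range]
      exact ⟨⟨β, hβ⟩, rfl⟩
    · rw [ZFSet.mem_powerset]
      intro z hz
      exact (hM β hβ z).2 ((hX z).1 hz).1

private theorem lp4_znat_mem {m n : ℕ} (h : m < n) : znat m ∈ znat n := by
  induction n with
  | zero => omega
  | succ n ih =>
    rw [znat, ZFSet.mem_insert_iff]
    rcases Nat.lt_succ_iff_lt_or_eq.1 h with h | h
    · exact Or.inr (ih h)
    · exact Or.inl (by rw [h])

theorem znat_inj {m n : ℕ} (h : znat m = znat n) : m = n := by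
  rcases lt_trichotomy m n with hlt | heq | hlt
  · have := lp4_znat_mem hlt
    rw [h] at this
    exact absurd this (ZFSet.mem_irrefl _)
  · exact heq
  · have := lp4_znat_mem hlt
    rw [h] at this
    exact absurd this (ZFSet.mem_irrefl _)

/-- code of a formula -/
def lp4_code : Fml → ℕ
  | .mem i j => Nat.pair 0 (Nat.pair i j)
  | .eq i j => Nat.pair 1 (Nat.pair i j)
  | .neg φ => Nat.pair 2 (lp4_code φ)
  | .and φ ψ => Nat.pair 3 (Nat.pair (lp4_code φ) (lp4_code ψ))
  | .ex φ => Nat.pair 4 (lp4_code φ)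

theorem lp4_code_inj : Function.Injective lp4_code := by
  intro φ
  induction φ with
  | mem i j =>
    intro ψ h
    cases ψ <;> simp_all [lp4_code, Nat.pair_eq_pair]
  | eq i j =>
    intro ψ h
    cases ψ <;> simp_all [lp4_code, Nat.pair_eq_pair]
  | neg φ ih =>
    intro ψ h
    cases ψ with
    | neg ψ => simp only [lp4_code, Nat.pair_eq_pair, true_and] at h; rw [ih h]
    | _ => simp [lp4_code, Nat.pair_eq_pair] at h
  | and φ φ' ih ih' =>
    intro ψ h
    cases ψ with
    | and ψ ψ' =>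
      simp only [lp4_code, Nat.pair_eq_pair, true_and] at h
      rw [ih h.1, ih' h.2]
    | _ => simp [lp4_code, Nat.pair_eq_pair] at h
  | ex φ ih =>
    intro ψ h
    cases ψ with
    | ex ψ => simp only [lp4_code, Nat.pair_eq_pair, true_and] at h; rw [ih h]
    | _ => simp [lp4_code, Nat.pair_eq_pair] at h

instance lp4_countable_fml : Countable Fml := lp4_code_inj.countable

/-- bound of the variables of a formula -/
def lp4_bd : Fml → ℕ
  | .mem i j => max i j + 1
  | .eq i j => max i j + 1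
  | .neg φ => lp4_bd φ
  | .and φ ψ => max (lp4_bd φ) (lp4_bd ψ)
  | .ex φ => lp4_bd φ

theorem lp4_sat_congr (M : Set ZFSet.{0}) (φ : Fml) : ∀ (e e' : ℕ → ZFSet.{0}),
    (∀ n < lp4_bd φ, e n = e' n) → (Sat M φ e ↔ Sat M φ e') := by
  induction φ with
  | mem i j =>
    intro e e' h
    simp only [Sat, lp4_bd] at *
    rw [h i (by omega), h j (by omega)]
  | eq i j =>
    intro e e' h
    simp only [Sat, lp4_bd] at *
    rw [h i (by omega), h j (by omega)]
  | neg φ ih =>
    intro e e' h
    simp only [Sat]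
    rw [ih e e' h]
  | and φ ψ ih ih' =>
    intro e e' h
    simp only [Sat, lp4_bd] at *
    rw [ih e e' (fun n hn => h n (by omega)), ih' e e' (fun n hn => h n (by omega))]
  | ex φ ih =>
    intro e e' h
    simp only [Sat, lp4_bd] at *
    refine exists_congr (fun a => and_congr_right (fun _ => ih _ _ (fun n hn => ?_)))
    rcases n with _ | n
    · rfl
    · exact h n (by omega)

theorem lp4_defSet_countable {M : Set ZFSet.{0}} (hM : M.Countable) : (DefSet M).Countable := by
  have : Countable M := hM.to_subtype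
  have hc : (⋃ p : Fml × List M, {X : ZFSet.{0} | ∀ y, y ∈ X ↔ y ∈ M ∧
      Sat M p.1 (scons y (fun n => (p.2.map Subtype.val).getD n ∅))}).Countable := by
    refine Set.countable_iUnion (fun p => Set.Subsingleton.countable ?_)
    intro X hX X' hX'
    ext y
    rw [hX y, hX' y]
  refine hc.mono ?_
  rintro X ⟨φ, e, he, hX⟩
  rw [Set.mem_iUnion]
  by_cases hne : M.Nonempty
  · refine ⟨(φ, List.ofFn (fun i : Fin (lp4_bd φ) => ⟨e i, he hne i⟩)), fun y => ?_⟩
    rw [hX y]
    refine and_congr_right (fun _ => lp4_sat_congr M φ _ _ (fun n hn => ?_))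
    rcases n with _ | n
    · rfl
    · simp only [scons, List.map_ofFn]
      rw [List.getD_eq_getElem _ _ (by rw [List.length_ofFn]; omega), List.getElem_ofFn]
      rfl
  · refine ⟨(φ, []), fun y => ?_⟩
    rw [hX y]
    constructor
    · rintro ⟨h, -⟩; exact absurd ⟨y, h⟩ hne
    · rintro ⟨h, -⟩; exact absurd ⟨y, h⟩ hne

theorem lp4_Iio_countable {α : Ordinal.{0}} (h : α < ω₁) : (Set.Iio α).Countable := by
  rw [← Set.countable_coe_iff, ← Cardinal.mk_le_aleph0_iff, Cardinal.mk_Iio_ordinal,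
    Cardinal.lift_le_aleph0]
  have h1 : α.card < Cardinal.aleph 1 := by
    rw [← Cardinal.ord_aleph] at h
    exact Cardinal.lt_ord.1 h
  rw [← Cardinal.succ_aleph0] at h1
  exact Order.lt_succ_iff.1 h1

theorem Lset_countable {α : Ordinal.{0}} (h : α < ω₁) : (Lset α).Countable := by
  induction α using WellFoundedLT.induction with
  | ind α ih =>
    have h1 : Lset α = ⋃ β ∈ Set.Iio α, DefSet (Lset β) := by
      ext X
      rw [mem_Lset_iff]
      simp
    rw [h1]
    exact (lp4_Iio_countable h).biUnion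
      (fun β hβ => lp4_defSet_countable (ih β hβ (lt_trans hβ h)))

theorem inLw_countable {α : Ordinal.{0}} (h : α < ω₁) : {x : Cantor | InLw x α}.Countable := by
  have hc : (⋃ X ∈ Lset α, {x : Cantor | ∀ k, x k = true ↔ znat k ∈ X}).Countable := by
    refine (Lset_countable h).biUnion (fun X _ => Set.Subsingleton.countable ?_)
    intro x hx x' hx'
    funext k
    have h1 := hx k
    have h2 := hx' k
    rw [Bool.eq_iff_iff, h1, h2]
  refine hc.mono ?_
  rintro x ⟨X, hX, hx⟩
  exact Set.mem_biUnion hX hx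

theorem inLw_of_inL {x : Cantor} {α : Ordinal.{0}} (h : InL x α) : InLw x α := by
  obtain ⟨X, hX, hx⟩ := h
  refine ⟨X, hX, fun k => ?_⟩
  rw [hx]
  constructor
  · intro h; exact ⟨k, h, rfl⟩
  · rintro ⟨n, hn, he⟩
    rw [znat_inj he]; exact hn

end Pool.Agent.HT
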