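import Pool.Agent.Helper85.HT.LP1
import Pool.Agent.Helper85.HT.LP3
import Pool.Agent.Helper85.HT.LP4
import Pool.Agent.Helper85.HT.LP6
import Pool.Agent.Helper85.HT.LP7
import Pool.Agent.Helper85.HT.LP8

set_option autoImplicit false

/-!
# LP9: if `α` is `x`-writable and `x ∈ L_α` then the iteration of `G1` finds `x`.
-/

namespace Pool.Agent.HT

open Ordinal

/-- a code of `α` has a rank function -/
theorem lp9_rk {w : Cantor} {α : Ordinal.{0}} (h : Codes w α) {z : ℕ → Prop}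
    (hz : ∀ k, z k ↔ w k = true) : ∃ f, Rk z f α := by
  obtain ⟨f, hb, hf⟩ := h
  have h0 : ∀ i, zf z i ↔ w (Nat.pair i i) = true := fun i => hz _
  have h1 : ∀ i j, z (Nat.pair i j) ↔ zf z i ∧ zf z j ∧ f i ≤ f j := by
    intro i j
    rw [hz, hf, h0, h0]
  have hinj : ∀ i j, zf z i → zf z j → f i = f j → i = j := by
    intro i j hi hj hij
    exact hb.injOn ((h0 i).1 hi) ((h0 j).1 hj) hij
  refine ⟨f, ⟨⟨?_, ?_, ?_, ?_⟩, ?_, ?_, ?_⟩⟩
  · intro i j hij
    exact ⟨((h1 i j).1 hij).1, ((h1 i j).1 hij).2.1⟩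
  · intro i j hi hj
    rcases le_total (f i) (f j) with h | h
    · exact Or.inl ((h1 i j).2 ⟨hi, hj, h⟩)
    · exact Or.inr ((h1 j i).2 ⟨hj, hi, h⟩)
  · intro i j hij hji
    obtain ⟨a1, a2, a3⟩ := (h1 i j).1 hij
    obtain ⟨b1, b2, b3⟩ := (h1 j i).1 hji
    exact hinj i j a1 a2 (le_antisymm a3 b3)
  · intro i j k hij hjk
    obtain ⟨a1, a2, a3⟩ := (h1 i j).1 hij
    obtain ⟨b1, b2, b3⟩ := (h1 j k).1 hjk
    exact (h1 i k).2 ⟨a1, b2, a3.trans b3⟩
  · intro i hi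
    exact hb.mapsTo ((h0 i).1 hi)
  · intro β hβ
    obtain ⟨i, hi, he⟩ := hb.surjOn (show β ∈ Set.Iio α from hβ)
    exact ⟨i, (h0 i).2 hi, he⟩
  · intro i j hi hj
    unfold zlt
    rw [h1]
    constructor
    · rintro ⟨⟨_, _, h⟩, hne⟩
      exact lt_of_le_of_ne h (fun he => hne (hinj i j hi hj he))
    · intro h
      exact ⟨⟨hi, hj, h.le⟩, fun he => by subst he; exact lt_irrefl _ h⟩

open Classical in
theorem lp9_G1_ev (y W : Cantor) (q : ℕ) (v : Bool) (st : Stm)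
    (h : W (gEv q v st) = true ∨
      (cHalt W q ∧ v = true ∧ ruleT (cz y W q) (cT W q) (cF W q) st) ∨
      (cHalt W q ∧ v = false ∧ ruleF (cz y W q) (cT W q) (cF W q) st)) :
    G1 y W (gEv q v st) = true := by
  unfold G1
  rw [decide_eq_true_iff]
  have e : (gEv q v st).unpair = (6, Encodable.encode (q, v, st)) := by
    unfold gEv; rw [Nat.unpair_pair]
  rw [e]
  unfold g1Bit
  iterate 6 right
  left
  exact ⟨rfl, q, v, st, rfl, h⟩

open Classical in
theorem lp9_G1_good (y W : Cantor) (q : ℕ)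
    (h : cHalt W q ∧ zlin (cz y W q) ∧ (∀ i, zf (cz y W q) i → W (gWf q i) = true) ∧
      found (cz y W q) (cT W q) (cF W q) y) :
    G1 y W (gGood q) = true := by
  unfold G1
  rw [decide_eq_true_iff]
  have e : (gGood q).unpair = (8, q) := by
    unfold gGood; rw [Nat.unpair_pair]
  rw [e]
  unfold g1Bit
  iterate 8 right
  exact ⟨rfl, h⟩

/-- a stage at which the evaluation and the well-founded part are stable -/
theorem lp9_stable (x : Cantor) (q : ℕ) (o0 : Ordinal.{0}) (ho : cHalt (titer (G1 x) o0) q) :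
    ∃ o, o0 ≤ o ∧
      (∀ v st, titer (G1 x) (o + 1) (gEv q v st) = true → titer (G1 x) o (gEv q v st) = true) ∧
      (∀ i, titer (G1 x) (o + 1) (gWf q i) = true → titer (G1 x) o (gWf q i) = true) := by
  obtain ⟨_, e2, e3, _⟩ := g1_eval x q o0 ho
  have hE : ∀ a b : Ordinal.{0}, a ≤ b →
      {k | titer (G1 x) (o0 + a) k = true ∧ ((∃ v st, k = gEv q v st) ∨ ∃ i, k = gWf q i)} ⊆
      {k | titer (G1 x) (o0 + b) k = true ∧ ((∃ v st, k = gEv q v st) ∨ ∃ i, k = gWf q i)} := by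
    rintro a b hab k ⟨h1, h2⟩
    refine ⟨?_, h2⟩
    have hab' : o0 + a ≤ o0 + b := by gcongr
    rcases h2 with ⟨v, st, rfl⟩ | ⟨i, rfl⟩
    · exact e2 v st _ _ hab' h1
    · exact e3 i _ _ hab' h1
  obtain ⟨a, -, ha⟩ := exists_stable (fun a => {k | titer (G1 x) (o0 + a) k = true ∧
    ((∃ v st, k = gEv q v st) ∨ ∃ i, k = gWf q i)}) hE 0
  refine ⟨o0 + a, by simp, ?_, ?_⟩
  · intro v st h
    have h1 : gEv q v st ∈ {k | titer (G1 x) (o0 + (a + 1)) k = true ∧
        ((∃ v st, k = gEv q v st) ∨ ∃ i, k = gWf q i)} :=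
      ⟨by rw [← add_assoc]; exact h, Or.inl ⟨v, st, rfl⟩⟩
    have h2 := ha ▸ h1
    exact h2.1
  · intro i h
    have h1 : gWf q i ∈ {k | titer (G1 x) (o0 + (a + 1)) k = true ∧
        ((∃ v st, k = gEv q v st) ∨ ∃ i, k = gWf q i)} :=
      ⟨by rw [← add_assoc]; exact h, Or.inr ⟨i, rfl⟩⟩
    have h2 := ha ▸ h1
    exact h2.1

theorem g1_good_of_writable (x : Cantor) (α : Ordinal.{0}) (hW : Writable x α) (hL : InL x α) :
    ∃ q ν, titer (G1 x) ν (gGood q) = true := by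
  obtain ⟨p, o0, hst, hcode⟩ := hW
  obtain ⟨q, hq⟩ := prog_code p
  obtain ⟨hq1, hq2⟩ := hq x o0
  obtain ⟨s1, s2, s3⟩ := g1_sim x q o0
  have hhalt0 : cHalt (titer (G1 x) o0) q := by
    unfold cHalt
    rw [s3, hq1.2 hst]
    rfl
  have hz0 : ∀ k, cz x (titer (G1 x) o0) q k ↔ (p.run x o0).tape 2 k = true := by
    intro k
    unfold cz
    rw [s1, hq2]
    constructor
    · rintro ⟨h, h'⟩; exact h'
    · intro h; exact ⟨by norm_num, h⟩
  obtain ⟨f, hf0⟩ := lp9_rk hcode hz0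
  obtain ⟨o, ho, hEv, hWf⟩ := lp9_stable x q o0 hhalt0
  obtain ⟨hhalt, hz⟩ := (g1_eval x q o0 hhalt0).1 o ho
  have hf : Rk (cz x (titer (G1 x) o) q) f α := by rw [hz]; exact hf0
  obtain ⟨hT, hF⟩ := g1_sound x q o hhalt hf
  have hT' : ∀ st, ruleT (cz x (titer (G1 x) o) q) (cT (titer (G1 x) o) q)
      (cF (titer (G1 x) o) q) st → cT (titer (G1 x) o) q st := by
    intro st h
    apply hEv
    rw [titer_add_one]
    exact lp9_G1_ev x _ q true st (Or.inr (Or.inl ⟨hhalt, rfl, h⟩))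
  have hF' : ∀ st, ruleF (cz x (titer (G1 x) o) q) (cT (titer (G1 x) o) q)
      (cF (titer (G1 x) o) q) st → cF (titer (G1 x) o) q st := by
    intro st h
    apply hEv
    rw [titer_add_one]
    exact lp9_G1_ev x _ q false st (Or.inr (Or.inr ⟨hhalt, rfl, h⟩))
  have hTF := rule_complete hf hT hF hT' hF'
  have hfound : found (cz x (titer (G1 x) o) q) (cT (titer (G1 x) o) q)
      (cF (titer (G1 x) o) q) x := found_of_inL hf hT hF hTF (inLw_of_inL hL)
  have hwf : ∀ β : Ordinal.{0}, ∀ i, zf (cz x (titer (G1 x) o) q) i → f i = β →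
      titer (G1 x) o (gWf q i) = true := by
    intro β
    induction β using WellFoundedLT.induction with
    | ind β ih =>
      intro i hi hβ
      apply hWf
      rw [(g1_eval x q o hhalt).2.2.2 i]
      refine Or.inr ⟨hi, ?_⟩
      intro j hj
      have hjf : zf (cz x (titer (G1 x) o) q) j := (hf.lin.1 j i hj.1).1
      exact ih (f j) (by rw [← hβ]; exact (hf.mono j i hjf hi).1 hj) j hjf rfl
  refine ⟨q, o + 1, ?_⟩
  rw [titer_add_one]
  exact lp9_G1_good x _ q ⟨hhalt, hf.lin, fun i hi => hwf _ i hi rfl, hfound⟩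

end Pool.Agent.HT
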