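import Pool.Agent.Helper85.HT.LP2
import Pool.Agent.Helper85.HT.LP9
import Pool.Agent.Helper85.HT.LP10

set_option autoImplicit false

/-!
# One arithmetical operator evaluates the constructible hierarchy along all writable codes
-/

namespace Pool.Agent.HT

open Ordinal

theorem lpart : ∃ G : Cantor → Cantor → Cantor, ArOp G ∧ ∃ good : ℕ → ℕ,
    (∀ x α, Writable x α → InL x α → ∃ q ν, titer (G x) ν (good q) = true) ∧
    (∀ ν < ω₁, ∀ q, {x | titer (G x) ν (good q) = true}.Countable) :=
  ⟨G1, arOp_G1, gGood, g1_good_of_writable, g1_good_countable⟩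

end Pool.Agent.HT
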