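import Pool.Agent.Helper85.HT.LPDefs

set_option autoImplicit false

/-!
# LP1: every Hamkins–Lewis program has a code
-/

namespace Pool.Agent.HT

open Ordinal

theorem lp1_bits_lt (b : Fin 3 → Bool) : bits3 b < 8 := by
  revert b; decide

theorem lp1_testBit (b : Fin 3 → Bool) (i : Fin 3) : (bits3 b).testBit i = b i := by
  revert b i; decide

/-- the bits of a number -/
def lp1_of (k : ℕ) : Fin 3 → Bool := fun i => k.testBit i

theorem lp1_of_bits (b : Fin 3 → Bool) : lp1_of (bits3 b) = b := funext (lp1_testBit b)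

theorem lp1_run_zero (p : Prog) (x : Cantor) : p.run x 0 = p.init x := by
  unfold Prog.run; exact Ordinal.limitRecOn_zero _ _ _

theorem lp1_run_add_one (p : Prog) (x : Cantor) (o : Ordinal.{0}) :
    p.run x (o + 1) = p.step (p.run x o) := by
  unfold Prog.run; exact Ordinal.limitRecOn_add_one _ _ _ _

theorem lp1_run_limit (p : Prog) (x : Cantor) {o : Ordinal.{0}} (ho : Order.IsSuccLimit o) :
    p.run x o = p.limit o (fun a _ => p.run x a) := by
  unfold Prog.run; exact Ordinal.limitRecOn_limit _ _ _ _ ho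

/-- two programs with the same table up to the names of the states have the same runs. -/
theorem lp1_sim (p p' : Prog) (g : p.Q → p'.Q) (hg : Function.Injective g)
    (h1 : g p.start = p'.start) (h2 : g p.lim = p'.lim) (h3 : g p.halt = p'.halt)
    (h4 : ∀ s b, p'.δ (g s) b = (g (p.δ s b).1, (p.δ s b).2)) (x : Cantor) (o : Ordinal.{0}) :
    (p'.run x o).st = g (p.run x o).st ∧ (p'.run x o).pos = (p.run x o).pos ∧
      (p'.run x o).tape = (p.run x o).tape := by
  classical
  induction o using Ordinal.limitRecOn with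
  | zero =>
    rw [lp1_run_zero, lp1_run_zero]
    exact ⟨h1.symm, rfl, rfl⟩
  | add_one o ih =>
    obtain ⟨i1, i2, i3⟩ := ih
    rw [lp1_run_add_one, lp1_run_add_one]
    unfold Prog.step
    by_cases hh : (p.run x o).st = p.halt
    · have hh' : (p'.run x o).st = p'.halt := by rw [i1, hh, h3]
      rw [if_pos hh, if_pos hh']
      exact ⟨i1, i2, i3⟩
    · have hh' : ¬ (p'.run x o).st = p'.halt := by
        rw [i1, ← h3]; intro h; exact hh (hg h)
      rw [if_neg hh, if_neg hh']
      have h5 : p'.δ (p'.run x o).st (fun i => (p'.run x o).tape i (p'.run x o).pos) =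
          (g (p.δ (p.run x o).st (fun i => (p.run x o).tape i (p.run x o).pos)).1,
            (p.δ (p.run x o).st (fun i => (p.run x o).tape i (p.run x o).pos)).2) := by
        rw [i1, i2, i3, h4]
      have h6 : (p'.δ (p'.run x o).st (fun i => (p'.run x o).tape i (p'.run x o).pos)).2 =
          (p.δ (p.run x o).st (fun i => (p.run x o).tape i (p.run x o).pos)).2 := by rw [h5]
      refine ⟨by rw [h5], ?_, ?_⟩
      · simp only [h6]
        rw [i2]
      · funext i j
        simp only [h6]
        rw [i2, i3]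
  | limit o ho ih =>
    rw [lp1_run_limit p x ho, lp1_run_limit p' x ho]
    unfold Prog.limit
    refine ⟨?_, rfl, ?_⟩
    · by_cases hh : ∃ a, ∃ _ : a < o, (p.run x a).st = p.halt
      · have hh' : ∃ a, ∃ _ : a < o, (p'.run x a).st = p'.halt := by
          obtain ⟨a, ha, h⟩ := hh
          exact ⟨a, ha, by rw [(ih a ha).1, h, h3]⟩
        simp only [if_pos hh, if_pos hh', h3]
      · have hh' : ¬ ∃ a, ∃ _ : a < o, (p'.run x a).st = p'.halt := by
          rintro ⟨a, ha, h⟩
          rw [(ih a ha).1, ← h3] at h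
          exact hh ⟨a, ha, hg h⟩
        simp only [if_neg hh, if_neg hh', h2]
    · funext i j
      have h6 : (fun (a : Ordinal.{0}) (_ : a < o) => (p'.run x a).tape i j) =
          fun (a : Ordinal.{0}) (_ : a < o) => (p.run x a).tape i j := by
        funext a ha
        rw [(ih a ha).2.2]
      show limsupBit o (fun (a : Ordinal.{0}) (_ : a < o) => (p'.run x a).tape i j) =
        limsupBit o (fun (a : Ordinal.{0}) (_ : a < o) => (p.run x a).tape i j)
      rw [h6]

/-- the table of the program `p`, entry number `k`. -/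
def lp1_entry (p : Prog) (n : ℕ) (e : p.Q ≃ Fin (n + 1)) (k : ℕ) : ℕ × ℕ × ℕ :=
  if h : k / 8 < n + 1 then
    ((e (p.δ (e.symm ⟨k / 8, h⟩) (lp1_of (k % 8))).1 : ℕ),
      bits3 (p.δ (e.symm ⟨k / 8, h⟩) (lp1_of (k % 8))).2.1,
      (p.δ (e.symm ⟨k / 8, h⟩) (lp1_of (k % 8))).2.2.toNat)
  else (0, 0, 0)

/-- the code of the program `p`. -/
def lp1_code (p : Prog) (n : ℕ) (e : p.Q ≃ Fin (n + 1)) : PCode :=
  (n, (e p.start : ℕ), (e p.lim : ℕ), (e p.halt : ℕ),
    (List.range (8 * (n + 1))).map (lp1_entry p n e))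

theorem lp1_getEntry (p : Prog) (n : ℕ) (e : p.Q ≃ Fin (n + 1)) (s : p.Q) (b : Fin 3 → Bool) :
    (lp1_code p n e).entry (e s) (bits3 b) =
      ((e (p.δ s b).1 : ℕ), bits3 (p.δ s b).2.1, (p.δ s b).2.2.toNat) := by
  have hb := lp1_bits_lt b
  have hs : (e s : ℕ) < n + 1 := (e s).isLt
  have hk : 8 * (e s : ℕ) + bits3 b < 8 * (n + 1) := by omega
  have h0 : (lp1_code p n e).entry (e s) (bits3 b) =
      lp1_entry p n e (8 * (e s : ℕ) + bits3 b) := by
    unfold PCode.entry lp1_code
    simp [List.getD_eq_getElem?_getD, hk]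
  rw [h0]
  have hd : (8 * (e s : ℕ) + bits3 b) / 8 = (e s : ℕ) := by omega
  have hm : (8 * (e s : ℕ) + bits3 b) % 8 = bits3 b := by omega
  unfold lp1_entry
  rw [dif_pos (by rw [hd]; exact hs)]
  have h2 : (⟨(8 * (e s : ℕ) + bits3 b) / 8, by rw [hd]; exact hs⟩ : Fin (n + 1)) = e s :=
    Fin.ext hd
  rw [h2, hm, Equiv.symm_apply_apply, lp1_of_bits]

theorem lp1_delta (q : ℕ) (s : Fin ((pcode q).1 + 1)) (b : Fin 3 → Bool) :
    (progOf q).δ s b =
      (((⟨(pcode q).nst s (bits3 b), Nat.mod_lt _ (Nat.succ_pos _)⟩ : Fin ((pcode q).1 + 1)),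
        (fun i : Fin 3 => ((pcode q).entry s (bits3 b)).2.1.testBit i),
        decide (((pcode q).entry s (bits3 b)).2.2 ≠ 0)) :
        Fin ((pcode q).1 + 1) × (Fin 3 → Bool) × Bool) := rfl

theorem prog_code (p : Prog) : ∃ q : ℕ, ∀ (x : Cantor) (o : Ordinal.{0}),
    (((progOf q).run x o).st = (progOf q).halt ↔ (p.run x o).st = p.halt) ∧
    ((progOf q).run x o).tape = (p.run x o).tape := by
  have := p.fin
  obtain ⟨n, ⟨e⟩⟩ : ∃ n, Nonempty (p.Q ≃ Fin (n + 1)) := by
    obtain ⟨m, ⟨e⟩⟩ := Finite.exists_equiv_fin p.Q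
    cases m with
    | zero => exact (e p.start).elim0
    | succ n => exact ⟨n, ⟨e⟩⟩
  refine ⟨Encodable.encode (lp1_code p n e), ?_⟩
  have hq : pcode (Encodable.encode (lp1_code p n e)) = lp1_code p n e :=
    Denumerable.ofNat_encode _
  generalize Encodable.encode (lp1_code p n e) = q at hq
  have hn : (pcode q).1 = n := by rw [hq]; rfl
  have key := lp1_sim p (progOf q) (fun s => ⟨(e s : ℕ), by rw [hn]; exact (e s).isLt⟩)
    (by
      intro a b h
      have h' := congrArg Fin.val h
      exact e.injective (Fin.ext h'))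
    (by
      refine Fin.ext ?_
      show (e p.start : ℕ) = (pcode q).start
      rw [hq]
      exact (Nat.mod_eq_of_lt (e p.start).isLt).symm)
    (by
      refine Fin.ext ?_
      show (e p.lim : ℕ) = (pcode q).lim
      rw [hq]
      exact (Nat.mod_eq_of_lt (e p.lim).isLt).symm)
    (by
      refine Fin.ext ?_
      show (e p.halt : ℕ) = (pcode q).halt
      rw [hq]
      exact (Nat.mod_eq_of_lt (e p.halt).isLt).symm)
    (by
      intro s b
      have hE : (pcode q).entry (e s : ℕ) (bits3 b) =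
          ((e (p.δ s b).1 : ℕ), bits3 (p.δ s b).2.1, (p.δ s b).2.2.toNat) := by
        rw [hq]; exact lp1_getEntry p n e s b
      refine (lp1_delta q ⟨(e s : ℕ), by rw [hn]; exact (e s).isLt⟩ b).trans ?_
      refine Prod.ext ?_ (Prod.ext ?_ ?_)
      · refine Fin.ext ?_
        dsimp only
        unfold PCode.nst
        rw [hE, hn]
        exact Nat.mod_eq_of_lt (e (p.δ s b).1).isLt
      · funext i
        dsimp only
        rw [hE]
        exact lp1_testBit (p.δ s b).2.1 i
      · dsimp only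
        rw [hE]
        dsimp only
        cases (p.δ s b).2.2 <;> rfl)
  intro x o
  obtain ⟨k1, -, k3⟩ := key x o
  refine ⟨?_, k3⟩
  rw [k1]
  constructor
  · intro h
    have h' := congrArg Fin.val h
    have h'' : (e (p.run x o).st : ℕ) = (pcode q).halt := h'
    rw [hq] at h''
    have h3 : (lp1_code p n e).halt = (e p.halt : ℕ) := Nat.mod_eq_of_lt (e p.halt).isLt
    rw [h3] at h''
    exact e.injective (Fin.ext h'')
  · intro h
    refine Fin.ext ?_
    show (e (p.run x o).st : ℕ) = (pcode q).halt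
    rw [h, hq]
    exact (Nat.mod_eq_of_lt (e p.halt).isLt).symm

end Pool.Agent.HT
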