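import Pool.Agent.Helper85.HT.LPDefs2
import Pool.Agent.Helper85.HT.R2

set_option autoImplicit false

/-!
# LP2 : the operator `G1` is arithmetical
-/

namespace Pool.Agent.HT

open Ordinal

section
variable {α : Type} [Primcodable α]

theorem lp2_pcode {f : α → ℕ} (hf : Primrec f) : Primrec (fun a => pcode (f a)) :=
  (Primrec.ofNat PCode).comp hf

theorem lp2_n {f : α → ℕ} (hf : Primrec f) : Primrec (fun a => (pcode (f a)).1 + 1) :=
  Primrec.succ.comp (Primrec.fst.comp (lp2_pcode hf))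

theorem lp2_start {f : α → ℕ} (hf : Primrec f) : Primrec (fun a => (pcode (f a)).start) :=
  Primrec.nat_mod.comp (Primrec.fst.comp (Primrec.snd.comp (lp2_pcode hf))) (lp2_n hf)

theorem lp2_lim {f : α → ℕ} (hf : Primrec f) : Primrec (fun a => (pcode (f a)).lim) :=
  Primrec.nat_mod.comp (Primrec.fst.comp (Primrec.snd.comp (Primrec.snd.comp (lp2_pcode hf))))
    (lp2_n hf)

theorem lp2_halt {f : α → ℕ} (hf : Primrec f) : Primrec (fun a => (pcode (f a)).halt) :=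
  Primrec.nat_mod.comp (Primrec.fst.comp (Primrec.snd.comp (Primrec.snd.comp
    (Primrec.snd.comp (lp2_pcode hf))))) (lp2_n hf)

theorem lp2_entry {f s b : α → ℕ} (hf : Primrec f) (hs : Primrec s) (hb : Primrec b) :
    Primrec (fun a => (pcode (f a)).entry (s a) (b a)) := by
  unfold PCode.entry
  exact (Primrec.list_getD (0, 0, 0)).comp
    (Primrec.snd.comp (Primrec.snd.comp (Primrec.snd.comp (Primrec.snd.comp (lp2_pcode hf)))))
    (Primrec.nat_add.comp (Primrec.nat_mul.comp (Primrec.const 8) hs) hb)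

theorem lp2_nst {f s b : α → ℕ} (hf : Primrec f) (hs : Primrec s) (hb : Primrec b) :
    Primrec (fun a => (pcode (f a)).nst (s a) (b a)) :=
  Primrec.nat_mod.comp (Primrec.fst.comp (lp2_entry hf hs hb)) (lp2_n hf)

theorem lp2_W {f : α → ℕ} (hf : Primrec f) : ArP (fun _ W (a : α) => W (f a) = true) :=
  ArP.orW hf

theorem lp2_Wf {f : α → ℕ} (hf : Primrec f) : ArP (fun _ W (a : α) => W (f a) = false) := by
  refine (ArP.not (lp2_W hf)).congr ?_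
  intro y W a
  simp

theorem lp2_gLim : ArP (fun _ W (_ : α) => gLim W) :=
  ArP.and (lp2_W (Primrec.const _)) (lp2_W (Primrec.const _))

theorem lp2_gZero : ArP (fun _ W (_ : α) => gZero W) :=
  ArP.and (lp2_Wf (Primrec.const _)) (lp2_Wf (Primrec.const _))

theorem lp2_pair {k : ℕ} {f : α → ℕ} (hf : Primrec f) : Primrec (fun a => Nat.pair k (f a)) :=
  Primrec₂.natPair.comp (Primrec.const k) hf

theorem lp2_cTape {q i n : α → ℕ} (hq : Primrec q) (hi : Primrec i) (hn : Primrec n) :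
    ArP (fun y W (a : α) => cTape y W (q a) (i a) (n a)) :=
  ArP.or (ArP.and lp2_gZero (ArP.and (r2_eq hi (Primrec.const 0)) (ArP.ory hn)))
    (ArP.and (ArP.not lp2_gZero) (lp2_W (lp2_pair (Primrec.encode.comp
      (Primrec.pair hq (Primrec.pair hi hn))))))

theorem lp2_cHead {q n : α → ℕ} (hq : Primrec q) (hn : Primrec n) :
    ArP (fun _ W (a : α) => cHead W (q a) (n a)) :=
  ArP.or (ArP.and (ArP.or lp2_gZero lp2_gLim) (r2_eq hn (Primrec.const 0)))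
    (ArP.and (ArP.not lp2_gZero) (ArP.and (ArP.not lp2_gLim)
      (lp2_W (lp2_pair (Primrec.encode.comp (Primrec.pair hq hn))))))

theorem lp2_cSt {q s : α → ℕ} (hq : Primrec q) (hs : Primrec s) :
    ArP (fun _ W (a : α) => cSt W (q a) (s a)) :=
  ArP.or (ArP.and lp2_gZero (r2_eq hs (lp2_start hq)))
    (ArP.or (ArP.and lp2_gLim (ArP.and (lp2_W (lp2_pair hq)) (r2_eq hs (lp2_halt hq))))
      (ArP.or (ArP.and lp2_gLim (ArP.and (lp2_Wf (lp2_pair hq)) (r2_eq hs (lp2_lim hq))))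
        (ArP.and (ArP.not lp2_gZero) (ArP.and (ArP.not lp2_gLim)
          (lp2_W (lp2_pair (Primrec.encode.comp (Primrec.pair hq hs))))))))

theorem lp2_cHalt {q : α → ℕ} (hq : Primrec q) : ArP (fun _ W (a : α) => cHalt W (q a)) :=
  lp2_cSt hq (lp2_halt hq)

theorem lp2_pow : Primrec (fun i : ℕ => 2 ^ i) := by
  refine (Primrec.nat_rec₁ 1 (Primrec.nat_mul.comp Primrec.snd (Primrec.const 2)).to₂).of_eq ?_
  intro n
  induction n with
  | zero => rfl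
  | succ n ih => rw [pow_succ, ← ih]

theorem lp2_testBit {x i : α → ℕ} (hx : Primrec x) (hi : Primrec i) :
    ArP (fun _ _ (a : α) => (x a).testBit (i a) = true) := by
  refine (r2_eq (Primrec.nat_mod.comp (Primrec.nat_div.comp hx (lp2_pow.comp hi))
    (Primrec.const 2)) (Primrec.const 1)).congr ?_
  intro y W a
  rw [Nat.testBit_eq_decide_div_mod_eq]
  simp

theorem lp2_cRead {q n s b : α → ℕ} (hq : Primrec q) (hn : Primrec n) (hs : Primrec s)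
    (hb : Primrec b) : ArP (fun y W (a : α) => cRead y W (q a) (n a) (s a) (b a)) := by
  refine ArP.and (lp2_cHead hq hn) (ArP.and (lp2_cSt hq hs)
    (ArP.and (r2_lt hb (Primrec.const 8)) ?_))
  refine ArP.all (P := fun y W (z : α × ℕ) => z.2 < 3 →
    ((b z.1).testBit z.2 = true ↔ cTape y W (q z.1) z.2 (n z.1))) ?_
  exact ArP.imp (r2_lt Primrec.snd (Primrec.const 3))
    (ArP.iff (lp2_testBit (hb.comp Primrec.fst) Primrec.snd)
      (lp2_cTape (hq.comp Primrec.fst) Primrec.snd (hn.comp Primrec.fst)))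

theorem lp2_nTape {q i n : α → ℕ} (hq : Primrec q) (hi : Primrec i) (hn : Primrec n) :
    ArP (fun y W (a : α) => nTape y W (q a) (i a) (n a)) := by
  refine ArP.or (ArP.and (lp2_cHalt hq) (lp2_cTape hq hi hn)) (ArP.and (ArP.not (lp2_cHalt hq))
    (ArP.or (ArP.and (ArP.not (lp2_cHead hq hn)) (lp2_cTape hq hi hn)) ?_))
  refine ArP.ex (P := fun y W (z : α × ℕ) => ∃ b, cRead y W (q z.1) (n z.1) z.2 b ∧
    ((pcode (q z.1)).entry z.2 b).2.1.testBit (i z.1) = true ∧ i z.1 < 3) ?_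
  refine ArP.ex (P := fun y W (z : (α × ℕ) × ℕ) => cRead y W (q z.1.1) (n z.1.1) z.1.2 z.2 ∧
    ((pcode (q z.1.1)).entry z.1.2 z.2).2.1.testBit (i z.1.1) = true ∧ i z.1.1 < 3) ?_
  have p1 : Primrec (fun z : (α × ℕ) × ℕ => z.1.1) := Primrec.fst.comp Primrec.fst
  have p2 : Primrec (fun z : (α × ℕ) × ℕ => z.1.2) := Primrec.snd.comp Primrec.fst
  exact ArP.and (lp2_cRead (hq.comp p1) (hn.comp p1) p2 Primrec.snd)
    (ArP.and (lp2_testBit (Primrec.fst.comp (Primrec.snd.comp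
      (lp2_entry (hq.comp p1) p2 Primrec.snd))) (hi.comp p1))
      (r2_lt (hi.comp p1) (Primrec.const 3)))

/-- the new position of the head -/
def lp2mv (q s b n0 : ℕ) : ℕ :=
  if ((pcode q).entry s b).2.2 ≠ 0 then n0 + 1 else n0 - 1

theorem lp2_mv {q s b n0 : α → ℕ} (hq : Primrec q) (hs : Primrec s) (hb : Primrec b)
    (hn : Primrec n0) : Primrec (fun a => lp2mv (q a) (s a) (b a) (n0 a)) := by
  have h : Primrec (fun a => Nat.casesOn (motive := fun _ => ℕ)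
      ((pcode (q a)).entry (s a) (b a)).2.2 (n0 a - 1) (fun _ => n0 a + 1)) :=
    Primrec.nat_casesOn (Primrec.snd.comp (Primrec.snd.comp (lp2_entry hq hs hb)))
      (Primrec.pred.comp hn) ((Primrec.succ.comp (hn.comp Primrec.fst)).to₂)
  refine h.of_eq ?_
  intro a
  unfold lp2mv
  cases ((pcode (q a)).entry (s a) (b a)).2.2 <;> simp

theorem lp2_nHead {q n : α → ℕ} (hq : Primrec q) (hn : Primrec n) :
    ArP (fun y W (a : α) => nHead y W (q a) (n a)) := by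
  have h1 : ArP (fun y W (z : ((α × ℕ) × ℕ) × ℕ) =>
      cRead y W (q z.1.1.1) z.1.1.2 z.1.2 z.2 ∧
      n z.1.1.1 = lp2mv (q z.1.1.1) z.1.2 z.2 z.1.1.2) := by
    have p1 : Primrec (fun z : ((α × ℕ) × ℕ) × ℕ => z.1.1.1) :=
      Primrec.fst.comp (Primrec.fst.comp Primrec.fst)
    have p2 : Primrec (fun z : ((α × ℕ) × ℕ) × ℕ => z.1.1.2) :=
      Primrec.snd.comp (Primrec.fst.comp Primrec.fst)
    have p3 : Primrec (fun z : ((α × ℕ) × ℕ) × ℕ => z.1.2) := Primrec.snd.comp Primrec.fst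
    exact ArP.and (lp2_cRead (hq.comp p1) p2 p3 Primrec.snd)
      (r2_eq (hn.comp p1) (lp2_mv (hq.comp p1) p3 Primrec.snd p2))
  have h2 := ArP.ex (ArP.ex (ArP.ex h1))
  refine (ArP.or (ArP.and (lp2_cHalt hq) (lp2_cHead hq hn))
    (ArP.and (ArP.not (lp2_cHalt hq)) h2)).congr ?_
  intro y W a
  unfold nHead lp2mv
  exact Iff.rfl

theorem lp2_nSt {q s : α → ℕ} (hq : Primrec q) (hs : Primrec s) :
    ArP (fun y W (a : α) => nSt y W (q a) (s a)) := by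
  refine ArP.or (ArP.and (lp2_cHalt hq) (lp2_cSt hq hs)) (ArP.and (ArP.not (lp2_cHalt hq)) ?_)
  refine ArP.ex (P := fun y W (z : α × ℕ) => ∃ s0 b, cRead y W (q z.1) z.2 s0 b ∧
    s z.1 = (pcode (q z.1)).nst s0 b) ?_
  refine ArP.ex (P := fun y W (z : (α × ℕ) × ℕ) => ∃ b, cRead y W (q z.1.1) z.1.2 z.2 b ∧
    s z.1.1 = (pcode (q z.1.1)).nst z.2 b) ?_
  refine ArP.ex (P := fun y W (z : ((α × ℕ) × ℕ) × ℕ) =>
    cRead y W (q z.1.1.1) z.1.1.2 z.1.2 z.2 ∧ s z.1.1.1 = (pcode (q z.1.1.1)).nst z.1.2 z.2) ?_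
  have p1 : Primrec (fun z : ((α × ℕ) × ℕ) × ℕ => z.1.1.1) :=
    Primrec.fst.comp (Primrec.fst.comp Primrec.fst)
  have p2 : Primrec (fun z : ((α × ℕ) × ℕ) × ℕ => z.1.1.2) :=
    Primrec.snd.comp (Primrec.fst.comp Primrec.fst)
  have p3 : Primrec (fun z : ((α × ℕ) × ℕ) × ℕ => z.1.2) := Primrec.snd.comp Primrec.fst
  exact ArP.and (lp2_cRead (hq.comp p1) p2 p3 Primrec.snd)
    (r2_eq (hs.comp p1) (lp2_nst (hq.comp p1) p3 Primrec.snd))

/-! ### the relation `z` and the statements -/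

theorem lp2_cz {q k : α → ℕ} (hq : Primrec q) (hk : Primrec k) :
    ArP (fun y W (a : α) => cz y W (q a) (k a)) := lp2_cTape hq (Primrec.const 2) hk

theorem lp2_zf {q i : α → ℕ} (hq : Primrec q) (hi : Primrec i) :
    ArP (fun y W (a : α) => zf (cz y W (q a)) (i a)) :=
  lp2_cz hq (Primrec₂.natPair.comp hi hi)

theorem lp2_zlt {q i j : α → ℕ} (hq : Primrec q) (hi : Primrec i) (hj : Primrec j) :
    ArP (fun y W (a : α) => zlt (cz y W (q a)) (i a) (j a)) :=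
  ArP.and (lp2_cz hq (Primrec₂.natPair.comp hi hj)) (ArP.not (r2_eq hi hj))

theorem lp2_ev {q : α → ℕ} {v : α → Bool} {st : α → Stm} (hq : Primrec q) (hv : Primrec v)
    (hs : Primrec st) : ArP (fun _ W (a : α) => W (gEv (q a) (v a) (st a)) = true) :=
  lp2_W (lp2_pair (Primrec.encode.comp (Primrec.pair hq (Primrec.pair hv hs))))

theorem lp2_T {q : α → ℕ} {st : α → Stm} (hq : Primrec q) (hs : Primrec st) :
    ArP (fun _ W (a : α) => cT W (q a) (st a)) := lp2_ev hq (Primrec.const true) hs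

theorem lp2_F {q : α → ℕ} {st : α → Stm} (hq : Primrec q) (hs : Primrec st) :
    ArP (fun _ W (a : α) => cF W (q a) (st a)) := lp2_ev hq (Primrec.const false) hs

theorem lp2_nm {n : α → ℕ} (hn : Primrec n) : Primrec (fun a => nm (n a)) :=
  (Primrec.ofNat (ℕ × ℕ × List ℕ)).comp hn
theorem lp2_lv {n : α → ℕ} (hn : Primrec n) : Primrec (fun a => lv (n a)) :=
  Primrec.fst.comp (lp2_nm hn)
theorem lp2_fm {n : α → ℕ} (hn : Primrec n) : Primrec (fun a => fm (n a)) :=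
  Primrec.fst.comp (Primrec.snd.comp (lp2_nm hn))
theorem lp2_pr {n : α → ℕ} (hn : Primrec n) : Primrec (fun a => pr (n a)) :=
  Primrec.snd.comp (Primrec.snd.comp (lp2_nm hn))
theorem lp2_ftag {n : α → ℕ} (hn : Primrec n) : Primrec (fun a => ftag (n a)) :=
  Primrec.fst.comp (Primrec.unpair.comp (Primrec.pred.comp hn))
theorem lp2_fa {n : α → ℕ} (hn : Primrec n) : Primrec (fun a => fa (n a)) :=
  Primrec.fst.comp (Primrec.unpair.comp (Primrec.snd.comp (Primrec.unpair.comp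
    (Primrec.pred.comp hn))))
theorem lp2_fb {n : α → ℕ} (hn : Primrec n) : Primrec (fun a => fb (n a)) :=
  Primrec.snd.comp (Primrec.unpair.comp (Primrec.snd.comp (Primrec.unpair.comp
    (Primrec.pred.comp hn))))

theorem lp2_getenv {e : α → List ℕ} {n : α → ℕ} (he : Primrec e) (hn : Primrec n) :
    Primrec (fun a => getenv (e a) (n a)) := by
  have h : Primrec (fun a => (((e a)[n a]?).getD (((e a).reverse.head?).getD 0))) :=
    Primrec.option_getD.comp (Primrec.list_getElem?.comp he hn)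
      (Primrec.option_getD.comp (Primrec.list_head?.comp (Primrec.list_reverse.comp he))
        (Primrec.const 0))
  refine h.of_eq ?_
  intro a
  unfold getenv
  rw [List.getD_eq_getElem?_getD, List.getLastD_eq_getLast?, List.head?_reverse]

theorem lp2_stm {t a b : α → ℕ} {e : α → List ℕ} (ht : Primrec t) (ha : Primrec a)
    (hb : Primrec b) (he : Primrec e) : Primrec (fun x => ((t x, a x, b x, e x) : Stm)) :=
  Primrec.pair ht (Primrec.pair ha (Primrec.pair hb he))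

theorem lp2_ruleT {q : α → ℕ} {st : α → Stm} (hq : Primrec q) (hs : Primrec st) :
    ArP (fun y W (x : α) => ruleT (cz y W (q x)) (cT W (q x)) (cF W (q x)) (st x)) := by
  have ht : Primrec (fun x => (st x).1) := Primrec.fst.comp hs
  have ha : Primrec (fun x => (st x).2.1) := Primrec.fst.comp (Primrec.snd.comp hs)
  have hb : Primrec (fun x => (st x).2.2.1) :=
    Primrec.fst.comp (Primrec.snd.comp (Primrec.snd.comp hs))
  have he : Primrec (fun x => (st x).2.2.2) :=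
    Primrec.snd.comp (Primrec.snd.comp (Primrec.snd.comp hs))
  have n0 : ArP (fun _ _ (x : α) => (st x).2.2.1 ≠ 0) := ArP.not (r2_eq hb (Primrec.const 0))
  have tg : ∀ k : ℕ, ArP (fun _ _ (x : α) => (st x).1 = k) := fun k => r2_eq ht (Primrec.const k)
  have cn : ∀ k : ℕ, Primrec (fun _ : α × ℕ => k) := fun k => Primrec.const k
  have c0 : ∀ k : ℕ, Primrec (fun _ : α => k) := fun k => Primrec.const k
  have nl : Primrec (fun _ : α × ℕ => ([] : List ℕ)) := Primrec.const []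
  have nl0 : Primrec (fun _ : α => ([] : List ℕ)) := Primrec.const []
  have q1 : Primrec (fun z : α × ℕ => q z.1) := hq.comp Primrec.fst
  have a1 : Primrec (fun z : α × ℕ => (st z.1).2.1) := ha.comp Primrec.fst
  have b1 : Primrec (fun z : α × ℕ => (st z.1).2.2.1) := hb.comp Primrec.fst
  have e1 : Primrec (fun z : α × ℕ => (st z.1).2.2.2) := he.comp Primrec.fst
  have v : Primrec (fun z : α × ℕ => z.2) := Primrec.snd
  -- `n` valid
  have T3 : ArP (fun _ W (z : α × ℕ) => cT W (q z.1) (3, z.2, 0, [])) :=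
    lp2_T q1 (lp2_stm (cn 3) v (cn 0) nl)
  have F3 : ArP (fun _ W (z : α × ℕ) => cF W (q z.1) (3, z.2, 0, [])) :=
    lp2_F q1 (lp2_stm (cn 3) v (cn 0) nl)
  have za : ArP (fun y W (z : α × ℕ) => zlt (cz y W (q z.1)) (lv z.2) (lv (st z.1).2.1)) :=
    lp2_zlt q1 (lp2_lv v) (lp2_lv a1)
  have zb : ArP (fun y W (z : α × ℕ) => zlt (cz y W (q z.1)) (lv z.2) (lv (st z.1).2.2.1)) :=
    lp2_zlt q1 (lp2_lv v) (lp2_lv b1)
  refine ArP.or ?_ (ArP.or ?_ (ArP.or ?_ (ArP.or ?_ (ArP.or ?_ (ArP.or ?_ (ArP.or ?_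
    (ArP.or ?_ (ArP.or ?_ (ArP.or ?_ ?_)))))))))
  · refine ArP.and (tg 0) (ArP.ex (P := fun y W (z : α × ℕ) => cT W (q z.1) (3, z.2, 0, []) ∧
      zlt (cz y W (q z.1)) (lv z.2) (lv (st z.1).2.2.1) ∧
      cT W (q z.1) (1, z.2, (st z.1).2.1, []) ∧
      cT W (q z.1) (2, lv (st z.1).2.2.1, fm (st z.1).2.2.1, z.2 :: pr (st z.1).2.2.1)) ?_)
    exact ArP.and T3 (ArP.and zb (ArP.and (lp2_T q1 (lp2_stm (cn 1) v a1 nl))
      (lp2_T q1 (lp2_stm (cn 2) (lp2_lv b1) (lp2_fm b1)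
        (Primrec.list_cons.comp v (lp2_pr b1))))))
  · refine ArP.and (tg 1) (ArP.all (P := fun y W (z : α × ℕ) => cF W (q z.1) (3, z.2, 0, []) ∨
      ¬ (zlt (cz y W (q z.1)) (lv z.2) (lv (st z.1).2.1) ∨
        zlt (cz y W (q z.1)) (lv z.2) (lv (st z.1).2.2.1)) ∨
      (cT W (q z.1) (0, z.2, (st z.1).2.1, []) ∧ cT W (q z.1) (0, z.2, (st z.1).2.2.1, [])) ∨
      (cF W (q z.1) (0, z.2, (st z.1).2.1, []) ∧ cF W (q z.1) (0, z.2, (st z.1).2.2.1, []))) ?_)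
    exact ArP.or F3 (ArP.or (ArP.not (ArP.or za zb)) (ArP.or
      (ArP.and (lp2_T q1 (lp2_stm (cn 0) v a1 nl)) (lp2_T q1 (lp2_stm (cn 0) v b1 nl)))
      (ArP.and (lp2_F q1 (lp2_stm (cn 0) v a1 nl)) (lp2_F q1 (lp2_stm (cn 0) v b1 nl)))))
  · exact ArP.and (tg 2) (r2_eq hb (Primrec.const 0))
  · exact ArP.and (tg 2) (ArP.and n0 (ArP.and (r2_eq (lp2_ftag hb) (Primrec.const 0))
      (lp2_T hq (lp2_stm (c0 0) (lp2_getenv he (lp2_fa hb)) (lp2_getenv he (lp2_fb hb)) nl0))))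
  · exact ArP.and (tg 2) (ArP.and n0 (ArP.and (r2_eq (lp2_ftag hb) (Primrec.const 1))
      (lp2_T hq (lp2_stm (c0 1) (lp2_getenv he (lp2_fa hb)) (lp2_getenv he (lp2_fb hb)) nl0))))
  · exact ArP.and (tg 2) (ArP.and n0 (ArP.and (r2_eq (lp2_ftag hb) (Primrec.const 2))
      (lp2_F hq (lp2_stm (c0 2) ha (lp2_fa hb) he))))
  · exact ArP.and (tg 2) (ArP.and n0 (ArP.and (r2_eq (lp2_ftag hb) (Primrec.const 3))
      (ArP.and (lp2_T hq (lp2_stm (c0 2) ha (lp2_fa hb) he))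
        (lp2_T hq (lp2_stm (c0 2) ha (lp2_fb hb) he)))))
  · refine ArP.and (tg 2) (ArP.and n0 (ArP.and (r2_le (Primrec.const 4) (lp2_ftag hb))
      (ArP.ex (P := fun y W (z : α × ℕ) => cT W (q z.1) (3, z.2, 0, []) ∧
        zlt (cz y W (q z.1)) (lv z.2) (st z.1).2.1 ∧
        cT W (q z.1) (2, (st z.1).2.1, fa (st z.1).2.2.1, z.2 :: (st z.1).2.2.2)) ?_)))
    exact ArP.and T3 (ArP.and (lp2_zlt q1 (lp2_lv v) a1)
      (lp2_T q1 (lp2_stm (cn 2) a1 (lp2_fa b1) (Primrec.list_cons.comp v e1))))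
  · refine ArP.and (tg 3) (ArP.and (lp2_zf hq (lp2_lv ha)) (ArP.and ?_ ?_))
    · refine ArP.allList (P := fun y W (z : α × ℕ) => cT W (q z.1) (3, z.2, 0, []) ∧
        zlt (cz y W (q z.1)) (lv z.2) (lv (st z.1).2.1)) ?_ (lp2_pr ha)
      exact ArP.and T3 za
    · refine ArP.imp (r2_eq (lp2_pr ha) (Primrec.const [])) (ArP.all (P := fun y W
        (z : α × ℕ) => ¬ zlt (cz y W (q z.1)) z.2 (lv (st z.1).2.1)) ?_)
      exact ArP.not (lp2_zlt q1 v (lp2_lv a1))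
  · refine ArP.and (tg 4) (ArP.and (r2_eq ha (Primrec.const 0)) (ArP.all (P := fun y W
      (z : α × ℕ) => cF W (q z.1) (3, z.2, 0, []) ∨
        ¬ zlt (cz y W (q z.1)) (lv z.2) (lv (st z.1).2.2.1) ∨
        cF W (q z.1) (0, z.2, (st z.1).2.2.1, [])) ?_))
    exact ArP.or F3 (ArP.or (ArP.not zb) (lp2_F q1 (lp2_stm (cn 0) v b1 nl)))
  · refine ArP.and (tg 4) (ArP.and (ArP.not (r2_eq ha (Primrec.const 0))) (ArP.ex (P := fun y W
      (z : α × ℕ) => cT W (q z.1) (3, z.2, 0, []) ∧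
        zlt (cz y W (q z.1)) (lv z.2) (lv (st z.1).2.2.1) ∧
        cT W (q z.1) (4, (st z.1).2.1 - 1, z.2, []) ∧
        ∀ n, cF W (q z.1) (3, n, 0, []) ∨
          ¬ zlt (cz y W (q z.1)) (lv n) (lv (st z.1).2.2.1) ∨
          (cT W (q z.1) (0, n, (st z.1).2.2.1, []) ∧
            (cT W (q z.1) (0, n, z.2, []) ∨ cT W (q z.1) (1, n, z.2, []))) ∨
          (cF W (q z.1) (0, n, (st z.1).2.2.1, []) ∧ cF W (q z.1) (0, n, z.2, []) ∧
            cF W (q z.1) (1, n, z.2, []))) ?_))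
    refine ArP.and T3 (ArP.and zb (ArP.and (lp2_T q1 (lp2_stm (cn 4) (Primrec.pred.comp a1) v nl))
      (ArP.all (P := fun y W (z : (α × ℕ) × ℕ) => cF W (q z.1.1) (3, z.2, 0, []) ∨
          ¬ zlt (cz y W (q z.1.1)) (lv z.2) (lv (st z.1.1).2.2.1) ∨
          (cT W (q z.1.1) (0, z.2, (st z.1.1).2.2.1, []) ∧
            (cT W (q z.1.1) (0, z.2, z.1.2, []) ∨ cT W (q z.1.1) (1, z.2, z.1.2, []))) ∨
          (cF W (q z.1.1) (0, z.2, (st z.1.1).2.2.1, []) ∧ cF W (q z.1.1) (0, z.2, z.1.2, []) ∧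
            cF W (q z.1.1) (1, z.2, z.1.2, []))) ?_)))
    have q2 : Primrec (fun z : (α × ℕ) × ℕ => q z.1.1) := q1.comp Primrec.fst
    have b2 : Primrec (fun z : (α × ℕ) × ℕ => (st z.1.1).2.2.1) := b1.comp Primrec.fst
    have m2 : Primrec (fun z : (α × ℕ) × ℕ => z.1.2) := Primrec.snd.comp Primrec.fst
    have v2 : Primrec (fun z : (α × ℕ) × ℕ => z.2) := Primrec.snd
    have cn2 : ∀ k : ℕ, Primrec (fun _ : (α × ℕ) × ℕ => k) := fun k => Primrec.const k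
    have nl2 : Primrec (fun _ : (α × ℕ) × ℕ => ([] : List ℕ)) := Primrec.const []
    exact ArP.or (lp2_F q2 (lp2_stm (cn2 3) v2 (cn2 0) nl2)) (ArP.or
      (ArP.not (lp2_zlt q2 (lp2_lv v2) (lp2_lv b2))) (ArP.or
      (ArP.and (lp2_T q2 (lp2_stm (cn2 0) v2 b2 nl2))
        (ArP.or (lp2_T q2 (lp2_stm (cn2 0) v2 m2 nl2)) (lp2_T q2 (lp2_stm (cn2 1) v2 m2 nl2))))
      (ArP.and (lp2_F q2 (lp2_stm (cn2 0) v2 b2 nl2))
        (ArP.and (lp2_F q2 (lp2_stm (cn2 0) v2 m2 nl2))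
          (lp2_F q2 (lp2_stm (cn2 1) v2 m2 nl2))))))

theorem lp2_ruleF {q : α → ℕ} {st : α → Stm} (hq : Primrec q) (hs : Primrec st) :
    ArP (fun y W (x : α) => ruleF (cz y W (q x)) (cT W (q x)) (cF W (q x)) (st x)) := by
  have ht : Primrec (fun x => (st x).1) := Primrec.fst.comp hs
  have ha : Primrec (fun x => (st x).2.1) := Primrec.fst.comp (Primrec.snd.comp hs)
  have hb : Primrec (fun x => (st x).2.2.1) :=
    Primrec.fst.comp (Primrec.snd.comp (Primrec.snd.comp hs))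
  have he : Primrec (fun x => (st x).2.2.2) :=
    Primrec.snd.comp (Primrec.snd.comp (Primrec.snd.comp hs))
  have n0 : ArP (fun _ _ (x : α) => (st x).2.2.1 ≠ 0) := ArP.not (r2_eq hb (Primrec.const 0))
  have tg : ∀ k : ℕ, ArP (fun _ _ (x : α) => (st x).1 = k) := fun k => r2_eq ht (Primrec.const k)
  have cn : ∀ k : ℕ, Primrec (fun _ : α × ℕ => k) := fun k => Primrec.const k
  have c0 : ∀ k : ℕ, Primrec (fun _ : α => k) := fun k => Primrec.const k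
  have nl : Primrec (fun _ : α × ℕ => ([] : List ℕ)) := Primrec.const []
  have nl0 : Primrec (fun _ : α => ([] : List ℕ)) := Primrec.const []
  have q1 : Primrec (fun z : α × ℕ => q z.1) := hq.comp Primrec.fst
  have a1 : Primrec (fun z : α × ℕ => (st z.1).2.1) := ha.comp Primrec.fst
  have b1 : Primrec (fun z : α × ℕ => (st z.1).2.2.1) := hb.comp Primrec.fst
  have e1 : Primrec (fun z : α × ℕ => (st z.1).2.2.2) := he.comp Primrec.fst
  have v : Primrec (fun z : α × ℕ => z.2) := Primrec.snd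
  have T3 : ArP (fun _ W (z : α × ℕ) => cT W (q z.1) (3, z.2, 0, [])) :=
    lp2_T q1 (lp2_stm (cn 3) v (cn 0) nl)
  have F3 : ArP (fun _ W (z : α × ℕ) => cF W (q z.1) (3, z.2, 0, [])) :=
    lp2_F q1 (lp2_stm (cn 3) v (cn 0) nl)
  have za : ArP (fun y W (z : α × ℕ) => zlt (cz y W (q z.1)) (lv z.2) (lv (st z.1).2.1)) :=
    lp2_zlt q1 (lp2_lv v) (lp2_lv a1)
  have zb : ArP (fun y W (z : α × ℕ) => zlt (cz y W (q z.1)) (lv z.2) (lv (st z.1).2.2.1)) :=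
    lp2_zlt q1 (lp2_lv v) (lp2_lv b1)
  refine ArP.or ?_ (ArP.or ?_ (ArP.or ?_ (ArP.or ?_ (ArP.or ?_ (ArP.or ?_ (ArP.or ?_
    (ArP.or ?_ (ArP.or ?_ ?_))))))))
  · refine ArP.and (tg 0) (ArP.all (P := fun y W (z : α × ℕ) => cF W (q z.1) (3, z.2, 0, []) ∨
      ¬ zlt (cz y W (q z.1)) (lv z.2) (lv (st z.1).2.2.1) ∨
      cF W (q z.1) (1, z.2, (st z.1).2.1, []) ∨
      cF W (q z.1) (2, lv (st z.1).2.2.1, fm (st z.1).2.2.1, z.2 :: pr (st z.1).2.2.1)) ?_)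
    exact ArP.or F3 (ArP.or (ArP.not zb) (ArP.or (lp2_F q1 (lp2_stm (cn 1) v a1 nl))
      (lp2_F q1 (lp2_stm (cn 2) (lp2_lv b1) (lp2_fm b1)
        (Primrec.list_cons.comp v (lp2_pr b1))))))
  · refine ArP.and (tg 1) (ArP.ex (P := fun y W (z : α × ℕ) => cT W (q z.1) (3, z.2, 0, []) ∧
      (zlt (cz y W (q z.1)) (lv z.2) (lv (st z.1).2.1) ∨
        zlt (cz y W (q z.1)) (lv z.2) (lv (st z.1).2.2.1)) ∧
      ((cT W (q z.1) (0, z.2, (st z.1).2.1, []) ∧ cF W (q z.1) (0, z.2, (st z.1).2.2.1, [])) ∨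
      (cF W (q z.1) (0, z.2, (st z.1).2.1, []) ∧ cT W (q z.1) (0, z.2, (st z.1).2.2.1, [])))) ?_)
    exact ArP.and T3 (ArP.and (ArP.or za zb) (ArP.or
      (ArP.and (lp2_T q1 (lp2_stm (cn 0) v a1 nl)) (lp2_F q1 (lp2_stm (cn 0) v b1 nl)))
      (ArP.and (lp2_F q1 (lp2_stm (cn 0) v a1 nl)) (lp2_T q1 (lp2_stm (cn 0) v b1 nl)))))
  · exact ArP.and (tg 2) (ArP.and n0 (ArP.and (r2_eq (lp2_ftag hb) (Primrec.const 0))
      (lp2_F hq (lp2_stm (c0 0) (lp2_getenv he (lp2_fa hb)) (lp2_getenv he (lp2_fb hb)) nl0))))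
  · exact ArP.and (tg 2) (ArP.and n0 (ArP.and (r2_eq (lp2_ftag hb) (Primrec.const 1))
      (lp2_F hq (lp2_stm (c0 1) (lp2_getenv he (lp2_fa hb)) (lp2_getenv he (lp2_fb hb)) nl0))))
  · exact ArP.and (tg 2) (ArP.and n0 (ArP.and (r2_eq (lp2_ftag hb) (Primrec.const 2))
      (lp2_T hq (lp2_stm (c0 2) ha (lp2_fa hb) he))))
  · exact ArP.and (tg 2) (ArP.and n0 (ArP.and (r2_eq (lp2_ftag hb) (Primrec.const 3))
      (ArP.or (lp2_F hq (lp2_stm (c0 2) ha (lp2_fa hb) he))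
        (lp2_F hq (lp2_stm (c0 2) ha (lp2_fb hb) he)))))
  · refine ArP.and (tg 2) (ArP.and n0 (ArP.and (r2_le (Primrec.const 4) (lp2_ftag hb))
      (ArP.all (P := fun y W (z : α × ℕ) => cF W (q z.1) (3, z.2, 0, []) ∨
        ¬ zlt (cz y W (q z.1)) (lv z.2) (st z.1).2.1 ∨
        cF W (q z.1) (2, (st z.1).2.1, fa (st z.1).2.2.1, z.2 :: (st z.1).2.2.2)) ?_)))
    exact ArP.or F3 (ArP.or (ArP.not (lp2_zlt q1 (lp2_lv v) a1))
      (lp2_F q1 (lp2_stm (cn 2) a1 (lp2_fa b1) (Primrec.list_cons.comp v e1))))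
  · refine ArP.and (tg 3) (ArP.or (ArP.not (lp2_zf hq (lp2_lv ha))) (ArP.or ?_ ?_))
    · refine ArP.exList (P := fun y W (z : α × ℕ) => cF W (q z.1) (3, z.2, 0, []) ∨
        ¬ zlt (cz y W (q z.1)) (lv z.2) (lv (st z.1).2.1)) ?_ (lp2_pr ha)
      exact ArP.or F3 (ArP.not za)
    · refine ArP.and (r2_eq (lp2_pr ha) (Primrec.const [])) (ArP.ex (P := fun y W
        (z : α × ℕ) => zlt (cz y W (q z.1)) z.2 (lv (st z.1).2.1)) ?_)
      exact lp2_zlt q1 v (lp2_lv a1)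
  · refine ArP.and (tg 4) (ArP.and (r2_eq ha (Primrec.const 0)) (ArP.ex (P := fun y W
      (z : α × ℕ) => cT W (q z.1) (3, z.2, 0, []) ∧
        zlt (cz y W (q z.1)) (lv z.2) (lv (st z.1).2.2.1) ∧
        cT W (q z.1) (0, z.2, (st z.1).2.2.1, [])) ?_))
    exact ArP.and T3 (ArP.and zb (lp2_T q1 (lp2_stm (cn 0) v b1 nl)))
  · refine ArP.and (tg 4) (ArP.and (ArP.not (r2_eq ha (Primrec.const 0))) (ArP.all (P := fun y W
      (z : α × ℕ) => cF W (q z.1) (3, z.2, 0, []) ∨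
        ¬ zlt (cz y W (q z.1)) (lv z.2) (lv (st z.1).2.2.1) ∨
        cF W (q z.1) (4, (st z.1).2.1 - 1, z.2, []) ∨
        ∃ n, cT W (q z.1) (3, n, 0, []) ∧
          zlt (cz y W (q z.1)) (lv n) (lv (st z.1).2.2.1) ∧
          ((cT W (q z.1) (0, n, (st z.1).2.2.1, []) ∧
            cF W (q z.1) (0, n, z.2, []) ∧ cF W (q z.1) (1, n, z.2, [])) ∨
          (cF W (q z.1) (0, n, (st z.1).2.2.1, []) ∧ (cT W (q z.1) (0, n, z.2, []) ∨
            cT W (q z.1) (1, n, z.2, []))))) ?_))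
    refine ArP.or F3 (ArP.or (ArP.not zb) (ArP.or
      (lp2_F q1 (lp2_stm (cn 4) (Primrec.pred.comp a1) v nl))
      (ArP.ex (P := fun y W (z : (α × ℕ) × ℕ) => cT W (q z.1.1) (3, z.2, 0, []) ∧
          zlt (cz y W (q z.1.1)) (lv z.2) (lv (st z.1.1).2.2.1) ∧
          ((cT W (q z.1.1) (0, z.2, (st z.1.1).2.2.1, []) ∧
            cF W (q z.1.1) (0, z.2, z.1.2, []) ∧ cF W (q z.1.1) (1, z.2, z.1.2, [])) ∨
          (cF W (q z.1.1) (0, z.2, (st z.1.1).2.2.1, []) ∧ (cT W (q z.1.1) (0, z.2, z.1.2, []) ∨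
            cT W (q z.1.1) (1, z.2, z.1.2, []))))) ?_)))
    have q2 : Primrec (fun z : (α × ℕ) × ℕ => q z.1.1) := q1.comp Primrec.fst
    have b2 : Primrec (fun z : (α × ℕ) × ℕ => (st z.1.1).2.2.1) := b1.comp Primrec.fst
    have m2 : Primrec (fun z : (α × ℕ) × ℕ => z.1.2) := Primrec.snd.comp Primrec.fst
    have v2 : Primrec (fun z : (α × ℕ) × ℕ => z.2) := Primrec.snd
    have cn2 : ∀ k : ℕ, Primrec (fun _ : (α × ℕ) × ℕ => k) := fun k => Primrec.const k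
    have nl2 : Primrec (fun _ : (α × ℕ) × ℕ => ([] : List ℕ)) := Primrec.const []
    exact ArP.and (lp2_T q2 (lp2_stm (cn2 3) v2 (cn2 0) nl2)) (ArP.and
      (lp2_zlt q2 (lp2_lv v2) (lp2_lv b2)) (ArP.or
      (ArP.and (lp2_T q2 (lp2_stm (cn2 0) v2 b2 nl2))
        (ArP.and (lp2_F q2 (lp2_stm (cn2 0) v2 m2 nl2)) (lp2_F q2 (lp2_stm (cn2 1) v2 m2 nl2))))
      (ArP.and (lp2_F q2 (lp2_stm (cn2 0) v2 b2 nl2))
        (ArP.or (lp2_T q2 (lp2_stm (cn2 0) v2 m2 nl2))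
          (lp2_T q2 (lp2_stm (cn2 1) v2 m2 nl2))))))

theorem lp2_zlin {q : α → ℕ} (hq : Primrec q) :
    ArP (fun y W (x : α) => zlin (cz y W (q x))) := by
  have i2 : Primrec (fun z : (α × ℕ) × ℕ => z.1.2) := Primrec.snd.comp Primrec.fst
  have q2 : Primrec (fun z : (α × ℕ) × ℕ => q z.1.1) := hq.comp (Primrec.fst.comp Primrec.fst)
  have j2 : Primrec (fun z : (α × ℕ) × ℕ => z.2) := Primrec.snd
  have zij : ArP (fun y W (z : (α × ℕ) × ℕ) => cz y W (q z.1.1) (Nat.pair z.1.2 z.2)) :=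
    lp2_cz q2 (Primrec₂.natPair.comp i2 j2)
  have zji : ArP (fun y W (z : (α × ℕ) × ℕ) => cz y W (q z.1.1) (Nat.pair z.2 z.1.2)) :=
    lp2_cz q2 (Primrec₂.natPair.comp j2 i2)
  refine ArP.and ?_ (ArP.and ?_ (ArP.and ?_ ?_))
  · refine ArP.all (P := fun y W (z : α × ℕ) => ∀ j, cz y W (q z.1) (Nat.pair z.2 j) →
      zf (cz y W (q z.1)) z.2 ∧ zf (cz y W (q z.1)) j) (ArP.all (P := fun y W
      (z : (α × ℕ) × ℕ) => cz y W (q z.1.1) (Nat.pair z.1.2 z.2) →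
      zf (cz y W (q z.1.1)) z.1.2 ∧ zf (cz y W (q z.1.1)) z.2) ?_)
    exact ArP.imp zij (ArP.and (lp2_zf q2 i2) (lp2_zf q2 j2))
  · refine ArP.all (P := fun y W (z : α × ℕ) => ∀ j, zf (cz y W (q z.1)) z.2 →
      zf (cz y W (q z.1)) j → cz y W (q z.1) (Nat.pair z.2 j) ∨ cz y W (q z.1) (Nat.pair j z.2))
      (ArP.all (P := fun y W (z : (α × ℕ) × ℕ) => zf (cz y W (q z.1.1)) z.1.2 →
      zf (cz y W (q z.1.1)) z.2 → cz y W (q z.1.1) (Nat.pair z.1.2 z.2) ∨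
        cz y W (q z.1.1) (Nat.pair z.2 z.1.2)) ?_)
    exact ArP.imp (lp2_zf q2 i2) (ArP.imp (lp2_zf q2 j2) (ArP.or zij zji))
  · refine ArP.all (P := fun y W (z : α × ℕ) => ∀ j, cz y W (q z.1) (Nat.pair z.2 j) →
      cz y W (q z.1) (Nat.pair j z.2) → z.2 = j)
      (ArP.all (P := fun y W (z : (α × ℕ) × ℕ) => cz y W (q z.1.1) (Nat.pair z.1.2 z.2) →
        cz y W (q z.1.1) (Nat.pair z.2 z.1.2) → z.1.2 = z.2) ?_)
    exact ArP.imp zij (ArP.imp zji (r2_eq i2 j2))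
  · refine ArP.all (P := fun y W (z : α × ℕ) => ∀ j k, cz y W (q z.1) (Nat.pair z.2 j) →
      cz y W (q z.1) (Nat.pair j k) → cz y W (q z.1) (Nat.pair z.2 k))
      (ArP.all (P := fun y W (z : (α × ℕ) × ℕ) => ∀ k, cz y W (q z.1.1) (Nat.pair z.1.2 z.2) →
        cz y W (q z.1.1) (Nat.pair z.2 k) → cz y W (q z.1.1) (Nat.pair z.1.2 k))
      (ArP.all (P := fun y W (z : ((α × ℕ) × ℕ) × ℕ) =>
        cz y W (q z.1.1.1) (Nat.pair z.1.1.2 z.1.2) →
        cz y W (q z.1.1.1) (Nat.pair z.1.2 z.2) → cz y W (q z.1.1.1) (Nat.pair z.1.1.2 z.2)) ?_))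
    have q3 : Primrec (fun z : ((α × ℕ) × ℕ) × ℕ => q z.1.1.1) := q2.comp Primrec.fst
    have i3 : Primrec (fun z : ((α × ℕ) × ℕ) × ℕ => z.1.1.2) := i2.comp Primrec.fst
    have j3 : Primrec (fun z : ((α × ℕ) × ℕ) × ℕ => z.1.2) := Primrec.snd.comp Primrec.fst
    exact ArP.imp (lp2_cz q3 (Primrec₂.natPair.comp i3 j3))
      (ArP.imp (lp2_cz q3 (Primrec₂.natPair.comp j3 Primrec.snd))
        (lp2_cz q3 (Primrec₂.natPair.comp i3 Primrec.snd)))

theorem lp2_found {q : α → ℕ} (hq : Primrec q) :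
    ArP (fun y W (x : α) => found (cz y W (q x)) (cT W (q x)) (cF W (q x)) y) := by
  refine ArP.ex (P := fun y W (z : α × ℕ) => cT W (q z.1) (3, z.2, 0, []) ∧ ∀ k,
    (y k = true → ∃ m, cT W (q z.1) (3, m, 0, []) ∧ zlt (cz y W (q z.1)) (lv m) (lv z.2) ∧
      cT W (q z.1) (4, k, m, []) ∧ cT W (q z.1) (0, m, z.2, [])) ∧
    (y k = false → ∀ m, cF W (q z.1) (3, m, 0, []) ∨
      ¬ zlt (cz y W (q z.1)) (lv m) (lv z.2) ∨ cF W (q z.1) (4, k, m, []) ∨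
      cF W (q z.1) (0, m, z.2, []))) ?_
  have q1 : Primrec (fun z : α × ℕ => q z.1) := hq.comp Primrec.fst
  refine ArP.and (lp2_T q1 (lp2_stm (Primrec.const 3) Primrec.snd (Primrec.const 0)
    (Primrec.const []))) ?_
  refine ArP.all (P := fun y W (z : (α × ℕ) × ℕ) =>
    (y z.2 = true → ∃ m, cT W (q z.1.1) (3, m, 0, []) ∧
      zlt (cz y W (q z.1.1)) (lv m) (lv z.1.2) ∧
      cT W (q z.1.1) (4, z.2, m, []) ∧ cT W (q z.1.1) (0, m, z.1.2, [])) ∧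
    (y z.2 = false → ∀ m, cF W (q z.1.1) (3, m, 0, []) ∨
      ¬ zlt (cz y W (q z.1.1)) (lv m) (lv z.1.2) ∨ cF W (q z.1.1) (4, z.2, m, []) ∨
      cF W (q z.1.1) (0, m, z.1.2, []))) ?_
  have q3 : Primrec (fun z : ((α × ℕ) × ℕ) × ℕ => q z.1.1.1) :=
    (q1.comp Primrec.fst).comp Primrec.fst
  have n3 : Primrec (fun z : ((α × ℕ) × ℕ) × ℕ => z.1.1.2) :=
    Primrec.snd.comp (Primrec.fst.comp Primrec.fst)
  have k3 : Primrec (fun z : ((α × ℕ) × ℕ) × ℕ => z.1.2) := Primrec.snd.comp Primrec.fst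
  have m3 : Primrec (fun z : ((α × ℕ) × ℕ) × ℕ => z.2) := Primrec.snd
  have cn3 : ∀ k : ℕ, Primrec (fun _ : ((α × ℕ) × ℕ) × ℕ => k) := fun k => Primrec.const k
  have nl3 : Primrec (fun _ : ((α × ℕ) × ℕ) × ℕ => ([] : List ℕ)) := Primrec.const []
  have yt : ArP (fun y _ (z : (α × ℕ) × ℕ) => y z.2 = true) := ArP.ory Primrec.snd
  refine ArP.and (ArP.imp yt ?_) (ArP.imp ?_ ?_)
  · refine ArP.ex (P := fun y W (z : ((α × ℕ) × ℕ) × ℕ) => cT W (q z.1.1.1) (3, z.2, 0, []) ∧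
      zlt (cz y W (q z.1.1.1)) (lv z.2) (lv z.1.1.2) ∧
      cT W (q z.1.1.1) (4, z.1.2, z.2, []) ∧ cT W (q z.1.1.1) (0, z.2, z.1.1.2, [])) ?_
    exact ArP.and (lp2_T q3 (lp2_stm (cn3 3) m3 (cn3 0) nl3)) (ArP.and
      (lp2_zlt q3 (lp2_lv m3) (lp2_lv n3)) (ArP.and (lp2_T q3 (lp2_stm (cn3 4) k3 m3 nl3))
      (lp2_T q3 (lp2_stm (cn3 0) m3 n3 nl3))))
  · refine (ArP.not yt).congr ?_
    intro y W a
    simp
  · refine ArP.all (P := fun y W (z : ((α × ℕ) × ℕ) × ℕ) => cF W (q z.1.1.1) (3, z.2, 0, []) ∨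
      ¬ zlt (cz y W (q z.1.1.1)) (lv z.2) (lv z.1.1.2) ∨
      cF W (q z.1.1.1) (4, z.1.2, z.2, []) ∨ cF W (q z.1.1.1) (0, z.2, z.1.1.2, [])) ?_
    exact ArP.or (lp2_F q3 (lp2_stm (cn3 3) m3 (cn3 0) nl3)) (ArP.or
      (ArP.not (lp2_zlt q3 (lp2_lv m3) (lp2_lv n3))) (ArP.or
      (lp2_F q3 (lp2_stm (cn3 4) k3 m3 nl3)) (lp2_F q3 (lp2_stm (cn3 0) m3 n3 nl3))))

end

theorem lp2_g1Bit : ArP (fun y W (x : ℕ × ℕ) => g1Bit y W x.1 x.2) := by
  have t : Primrec (fun x : ℕ × ℕ => x.1) := Primrec.fst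
  have a : Primrec (fun x : ℕ × ℕ => x.2) := Primrec.snd
  have tg : ∀ k : ℕ, ArP (fun _ _ (x : ℕ × ℕ) => x.1 = k) := fun k => r2_eq t (Primrec.const k)
  have par : ArP (fun _ W (_ : ℕ × ℕ) => W (gPar 0) = true ∧ W (gPar 1) = false) :=
    ArP.and (lp2_W (Primrec.const _)) (lp2_Wf (Primrec.const _))
  refine ArP.or (ArP.and (tg 1) (ArP.and (r2_eq a (Primrec.const 0)) (ArP.not par))) ?_
  refine ArP.or (ArP.and (tg 1) (ArP.and (r2_eq a (Primrec.const 1)) par)) ?_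
  refine ArP.or (ArP.and (tg 2) ?_) (ArP.or (ArP.and (tg 3) ?_) (ArP.or (ArP.and (tg 4) ?_)
    (ArP.or (ArP.and (tg 5) ?_) (ArP.or (ArP.and (tg 6) ?_) (ArP.or (ArP.and (tg 7) ?_)
      (ArP.and (tg 8) ?_))))))
  · refine (ArP.ex (P := fun y W (z : (ℕ × ℕ) × (ℕ × ℕ × ℕ)) => z.1.2 = Encodable.encode z.2 ∧
      nTape y W z.2.1 z.2.2.1 z.2.2.2) ?_).congr ?_
    · exact ArP.and (r2_eq (a.comp Primrec.fst) (Primrec.encode.comp Primrec.snd))
        (lp2_nTape (Primrec.fst.comp Primrec.snd) (Primrec.fst.comp (Primrec.snd.comp Primrec.snd))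
          (Primrec.snd.comp (Primrec.snd.comp Primrec.snd)))
    · intro y W x; simp only [Prod.exists]
  · refine (ArP.ex (P := fun y W (z : (ℕ × ℕ) × (ℕ × ℕ)) => z.1.2 = Encodable.encode z.2 ∧
      nHead y W z.2.1 z.2.2) ?_).congr ?_
    · exact ArP.and (r2_eq (a.comp Primrec.fst) (Primrec.encode.comp Primrec.snd))
        (lp2_nHead (Primrec.fst.comp Primrec.snd) (Primrec.snd.comp Primrec.snd))
    · intro y W x; simp only [Prod.exists]
  · refine (ArP.ex (P := fun y W (z : (ℕ × ℕ) × (ℕ × ℕ)) => z.1.2 = Encodable.encode z.2 ∧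
      nSt y W z.2.1 z.2.2) ?_).congr ?_
    · exact ArP.and (r2_eq (a.comp Primrec.fst) (Primrec.encode.comp Primrec.snd))
        (lp2_nSt (Primrec.fst.comp Primrec.snd) (Primrec.snd.comp Primrec.snd))
    · intro y W x; simp only [Prod.exists]
  · exact ArP.or (lp2_W (lp2_pair a)) (lp2_nSt a (lp2_halt a))
  · refine (ArP.ex (P := fun y W (z : (ℕ × ℕ) × (ℕ × Bool × Stm)) =>
      z.1.2 = Encodable.encode z.2 ∧ (W (gEv z.2.1 z.2.2.1 z.2.2.2) = true ∨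
      (cHalt W z.2.1 ∧ z.2.2.1 = true ∧
        ruleT (cz y W z.2.1) (cT W z.2.1) (cF W z.2.1) z.2.2.2) ∨
      (cHalt W z.2.1 ∧ z.2.2.1 = false ∧
        ruleF (cz y W z.2.1) (cT W z.2.1) (cF W z.2.1) z.2.2.2))) ?_).congr ?_
    · have q : Primrec (fun z : (ℕ × ℕ) × (ℕ × Bool × Stm) => z.2.1) :=
        Primrec.fst.comp Primrec.snd
      have v : Primrec (fun z : (ℕ × ℕ) × (ℕ × Bool × Stm) => z.2.2.1) :=
        Primrec.fst.comp (Primrec.snd.comp Primrec.snd)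
      have s : Primrec (fun z : (ℕ × ℕ) × (ℕ × Bool × Stm) => z.2.2.2) :=
        Primrec.snd.comp (Primrec.snd.comp Primrec.snd)
      exact ArP.and (r2_eq (a.comp Primrec.fst) (Primrec.encode.comp Primrec.snd))
        (ArP.or (lp2_ev q v s) (ArP.or
          (ArP.and (lp2_cHalt q) (ArP.and (r2_eq v (Primrec.const true)) (lp2_ruleT q s)))
          (ArP.and (lp2_cHalt q) (ArP.and (r2_eq v (Primrec.const false)) (lp2_ruleF q s)))))
    · intro y W x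
      constructor
      · rintro ⟨⟨q, v, st⟩, h⟩; exact ⟨q, v, st, h⟩
      · rintro ⟨q, v, st, h⟩; exact ⟨(q, v, st), h⟩
  · refine (ArP.ex (P := fun y W (z : (ℕ × ℕ) × (ℕ × ℕ)) => z.1.2 = Encodable.encode z.2 ∧
      (W (gWf z.2.1 z.2.2) = true ∨ (cHalt W z.2.1 ∧ zf (cz y W z.2.1) z.2.2 ∧
        ∀ j, zlt (cz y W z.2.1) j z.2.2 → W (gWf z.2.1 j) = true))) ?_).congr ?_
    · have q : Primrec (fun z : (ℕ × ℕ) × (ℕ × ℕ) => z.2.1) := Primrec.fst.comp Primrec.snd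
      have i : Primrec (fun z : (ℕ × ℕ) × (ℕ × ℕ) => z.2.2) := Primrec.snd.comp Primrec.snd
      refine ArP.and (r2_eq (a.comp Primrec.fst) (Primrec.encode.comp Primrec.snd))
        (ArP.or (lp2_W (lp2_pair (Primrec.encode.comp (Primrec.pair q i)))) (ArP.and (lp2_cHalt q)
          (ArP.and (lp2_zf q i) ?_)))
      refine ArP.all (P := fun y W (z : ((ℕ × ℕ) × (ℕ × ℕ)) × ℕ) =>
        zlt (cz y W z.1.2.1) z.2 z.1.2.2 → W (gWf z.1.2.1 z.2) = true) ?_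
      exact ArP.imp (lp2_zlt (q.comp Primrec.fst) Primrec.snd (i.comp Primrec.fst))
        (lp2_W (lp2_pair (Primrec.encode.comp (Primrec.pair (q.comp Primrec.fst) Primrec.snd))))
    · intro y W x; simp only [Prod.exists]
  · refine ArP.and (lp2_cHalt a) (ArP.and (lp2_zlin a) (ArP.and ?_ (lp2_found a)))
    refine ArP.all (P := fun y W (z : (ℕ × ℕ) × ℕ) => zf (cz y W z.1.2) z.2 →
      W (gWf z.1.2 z.2) = true) ?_
    exact ArP.imp (lp2_zf (a.comp Primrec.fst) Primrec.snd)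
      (lp2_W (lp2_pair (Primrec.encode.comp (Primrec.pair (a.comp Primrec.fst) Primrec.snd))))

theorem arOp_G1 : ArOp G1 := by
  have h : ArP (fun y W (m : ℕ) => g1Bit y W m.unpair.1 m.unpair.2) :=
    ArP.comp lp2_g1Bit Primrec.unpair
  have h' := arP_nat.1 h
  refine h'.congr ?_
  intro y W m
  unfold G1
  simp

end Pool.Agent.HT
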