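import Pool.Agent.Helper85.HT.LP4

set_option autoImplicit false

/-!
# LP5: names
-/

namespace Pool.Agent.HT

open Ordinal

/-! ### separation -/

theorem lp5_mem_sepSet (α : Ordinal.{0}) (p : ZFSet.{0} → Prop) (y : ZFSet.{0}) :
    y ∈ sepSet (Lset α) p ↔ y ∈ Lset α ∧ p y := by
  have h : ∃ X : ZFSet.{0}, ∀ y, y ∈ X ↔ y ∈ Lset α ∧ p y := by
    obtain ⟨M, hM⟩ := Lset_small α
    exact ⟨ZFSet.sep p M, fun y => by rw [ZFSet.mem_sep, hM]⟩
  unfold sepSet
  rw [dif_pos h]
  exact Classical.choose_spec h y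

theorem lp5_getenv_mem {l : List ℕ} (hl : l ≠ []) (a : ℕ) : getenv l a ∈ l := by
  unfold getenv
  rcases lt_or_ge a l.length with h | h
  · rw [List.getD_eq_getElem _ _ h]
    exact List.getElem_mem h
  · rw [List.getD_eq_default _ _ h]
    cases l with
    | nil => exact absurd rfl hl
    | cons b t =>
      rw [List.getLastD_cons]
      cases t with
      | nil => simp
      | cons c t =>
        rw [List.getLastD_cons]
        have : (c :: t).getLastD b = (c :: t).getLast (by simp) := by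
          simp [List.getLastD]
        simp only [List.getLastD_cons] at this
        rw [this]
        exact List.mem_cons_of_mem _ (List.getLast_mem _)

theorem lp5_empty {z : ℕ → Prop} {rk : ℕ → Ordinal.{0}} {α : Ordinal.{0}} (h : Rk z rk α) {i : ℕ}
    (hi : zf z i) (hm : ∀ j, ¬ zlt z j i) (y : ZFSet.{0}) : y ∉ Lset (rk i) := by
  intro hy
  obtain ⟨β, hβ, _⟩ := mem_Lset_iff.1 hy
  obtain ⟨j, hj, hj'⟩ := h.surj β (hβ.trans (h.lt i hi))
  exact hm j ((h.mono j i hj hi).2 (by rw [hj']; exact hβ))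

theorem lp5_val {z : ℕ → Prop} {n : ℕ} (hn : Val z n) :
    zf z (lv n) ∧ (∀ m, m ∈ pr n → Val z m ∧ zlt z (lv m) (lv n)) ∧
      (pr n = [] → ∀ j, ¬ zlt z j (lv n)) := by
  rw [Val] at hn
  exact hn

theorem mem_itp {z : ℕ → Prop} {rk : ℕ → Ordinal.{0}} {α : Ordinal.{0}} (h : Rk z rk α) {n : ℕ}
    (hn : Val z n) (y : ZFSet.{0}) : y ∈ itp rk n ↔
      y ∈ Lset (rk (lv n)) ∧ Sat (Lset (rk (lv n))) (toFml (fm n))
        (scons y (fun a => itp rk (getenv (pr n) a))) := by
  obtain ⟨h1, _, h3⟩ := lp5_val hn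
  rw [itp, lp5_mem_sepSet]
  by_cases hp : pr n = []
  · have := lp5_empty h h1 (h3 hp) y
    tauto
  · have e : (fun a => if _h : getenv (pr n) a ∈ pr n then itp rk (getenv (pr n) a) else ∅) =
        (fun a => itp rk (getenv (pr n) a)) := by
      funext a
      rw [dif_pos (lp5_getenv_mem hp a)]
    rw [e]

theorem itp_mem_DefSet {z : ℕ → Prop} {rk : ℕ → Ordinal.{0}} {α : Ordinal.{0}} (h : Rk z rk α)
    {n : ℕ} (hn : Val z n) : itp rk n ∈ DefSet (Lset (rk (lv n))) := by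
  induction n using Nat.strong_induction_on with
  | _ n ih =>
    refine ⟨toFml (fm n), fun a => itp rk (getenv (pr n) a), ?_, mem_itp h hn⟩
    obtain ⟨h1, h2, h3⟩ := lp5_val hn
    rintro ⟨y, hy⟩ a
    by_cases hp : pr n = []
    · exact absurd hy (lp5_empty h h1 (h3 hp) y)
    · have hm := lp5_getenv_mem hp a
      obtain ⟨hv, hlt⟩ := h2 _ hm
      have hd := ih _ (mem_pr_lt hm) hv
      exact mem_Lset_iff.2 ⟨_, (h.mono _ _ (lp5_val hv).1 h1).1 hlt, hd⟩

/-! ### formulas -/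

theorem lp5_toFml_surj (φ : Fml) : ∃ f, toFml f = φ := by
  have key : ∀ t a b, ftag (Nat.pair t (Nat.pair a b) + 1) = t ∧
      fa (Nat.pair t (Nat.pair a b) + 1) = a ∧ fb (Nat.pair t (Nat.pair a b) + 1) = b := by
    intro t a b
    simp [ftag, fa, fb]
  induction φ with
  | mem i j =>
    obtain ⟨k1, k2, k3⟩ := key 0 i j
    refine ⟨Nat.pair 0 (Nat.pair i j) + 1, ?_⟩
    rw [toFml, dif_neg (Nat.succ_ne_zero _), if_pos k1, k2, k3]
  | eq i j =>
    obtain ⟨k1, k2, k3⟩ := key 1 i j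
    refine ⟨Nat.pair 1 (Nat.pair i j) + 1, ?_⟩
    rw [toFml, dif_neg (Nat.succ_ne_zero _), k1, if_neg (by decide), if_pos rfl, k2, k3]
  | neg φ ih =>
    obtain ⟨f, hf⟩ := ih
    obtain ⟨k1, k2, k3⟩ := key 2 f 0
    refine ⟨Nat.pair 2 (Nat.pair f 0) + 1, ?_⟩
    rw [toFml, dif_neg (Nat.succ_ne_zero _), k1, if_neg (by decide), if_neg (by decide),
      if_pos rfl, k2, hf]
  | and φ ψ ih ih' =>
    obtain ⟨f, hf⟩ := ih
    obtain ⟨g, hg⟩ := ih'
    obtain ⟨k1, k2, k3⟩ := key 3 f g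
    refine ⟨Nat.pair 3 (Nat.pair f g) + 1, ?_⟩
    rw [toFml, dif_neg (Nat.succ_ne_zero _), k1, if_neg (by decide), if_neg (by decide),
      if_neg (by decide), if_pos rfl, k2, k3, hf, hg]
  | ex φ ih =>
    obtain ⟨f, hf⟩ := ih
    obtain ⟨k1, k2, k3⟩ := key 4 f 0
    refine ⟨Nat.pair 4 (Nat.pair f 0) + 1, ?_⟩
    rw [toFml, dif_neg (Nat.succ_ne_zero _), k1, if_neg (by decide), if_neg (by decide),
      if_neg (by decide), if_neg (by decide), k2, hf]

theorem lp5_sat_congr (φ : Fml) : ∃ N : ℕ, ∀ (M : Set ZFSet.{0}) (e e' : ℕ → ZFSet.{0}),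
    (∀ n < N, e n = e' n) → (Sat M φ e ↔ Sat M φ e') := by
  induction φ with
  | mem i j =>
    refine ⟨max i j + 1, fun M e e' h => ?_⟩
    simp only [Sat]
    rw [h i (by omega), h j (by omega)]
  | eq i j =>
    refine ⟨max i j + 1, fun M e e' h => ?_⟩
    simp only [Sat]
    rw [h i (by omega), h j (by omega)]
  | neg φ ih =>
    obtain ⟨N, hN⟩ := ih
    refine ⟨N, fun M e e' h => ?_⟩
    simp only [Sat]
    rw [hN M e e' h]
  | and φ ψ ih ih' =>
    obtain ⟨N, hN⟩ := ih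
    obtain ⟨N', hN'⟩ := ih'
    refine ⟨max N N', fun M e e' h => ?_⟩
    simp only [Sat]
    rw [hN M e e' fun n hn => h n (by omega), hN' M e e' fun n hn => h n (by omega)]
  | ex φ ih =>
    obtain ⟨N, hN⟩ := ih
    refine ⟨N, fun M e e' h => ?_⟩
    simp only [Sat]
    refine exists_congr fun a => and_congr_right fun _ => hN M _ _ fun n hn => ?_
    cases n with
    | zero => rfl
    | succ n => exact h n (by omega)

theorem lp5_DefSet_nonempty (M : Set ZFSet.{0}) : ∃ X, X ∈ DefSet M := by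
  classical
  refine ⟨∅, .neg (.eq 0 0), fun _ => if h : M.Nonempty then h.some else ∅, fun h _ => ?_,
    fun y => ?_⟩
  · rw [dif_pos h]; exact h.some_mem
  · simp [Sat]

theorem lp5_getenv_map (g : ℕ → ℕ) (N a : ℕ) (ha : a < N) :
    getenv ((List.range N).map g) a = g a := by
  unfold getenv
  rw [List.getD_eq_getElem _ _ (by simpa using ha)]
  simp

theorem exists_name {z : ℕ → Prop} {rk : ℕ → Ordinal.{0}} {α : Ordinal.{0}} (h : Rk z rk α)
    {i : ℕ} (hi : zf z i) {X : ZFSet.{0}} (hX : X ∈ DefSet (Lset (rk i))) :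
    ∃ n, Val z n ∧ lv n = i ∧ itp rk n = X := by
  suffices H : ∀ β : Ordinal.{0}, ∀ i, zf z i → rk i = β → ∀ X ∈ DefSet (Lset (rk i)),
      ∃ n, Val z n ∧ lv n = i ∧ itp rk n = X from H _ i hi rfl X hX
  clear hX hi X i
  intro β
  induction β using WellFoundedLT.induction with
  | _ β ih =>
  intro i hi hβ X ⟨φ, e, he, hX⟩
  obtain ⟨f, hf⟩ := lp5_toFml_surj φ
  by_cases hne : (Lset (rk i)).Nonempty
  · have hk : ∀ k, ∃ n, Val z n ∧ zlt z (lv n) i ∧ itp rk n = e k := by
      intro k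
      obtain ⟨γ, hγ, hk⟩ := mem_Lset_iff.1 (he hne k)
      obtain ⟨j, hj, hj'⟩ := h.surj γ (hγ.trans (h.lt i hi))
      obtain ⟨n, hn, hn', hn''⟩ := ih γ (by rw [← hβ]; exact hγ) j hj hj' (e k)
        (by rw [hj']; exact hk)
      refine ⟨n, hn, ?_, hn''⟩
      rw [hn']
      exact (h.mono j i hj hi).2 (by rw [hj']; exact hγ)
    choose g hg using hk
    obtain ⟨N, hN⟩ := lp5_sat_congr φ
    refine ⟨mkName i f ((List.range (N + 1)).map g), ?_, lv_mkName _ _ _, ?_⟩
    · rw [Val, lv_mkName, pr_mkName]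
      refine ⟨hi, ?_, ?_⟩
      · intro m hm
        obtain ⟨k, _, rfl⟩ := List.mem_map.1 hm
        exact ⟨(hg k).1, (hg k).2.1⟩
      · intro h0
        simp at h0
    · have hv : Val z (mkName i f ((List.range (N + 1)).map g)) := by
        rw [Val, lv_mkName, pr_mkName]
        refine ⟨hi, ?_, ?_⟩
        · intro m hm
          obtain ⟨k, _, rfl⟩ := List.mem_map.1 hm
          exact ⟨(hg k).1, (hg k).2.1⟩
        · intro h0
          simp at h0
      ext y
      rw [mem_itp h hv, lv_mkName, fm_mkName, pr_mkName, hf, hX]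
      refine and_congr_right fun _ => hN _ _ _ fun n hn => ?_
      cases n with
      | zero => rfl
      | succ n =>
        show itp rk (getenv _ n) = e n
        rw [lp5_getenv_map g (N + 1) n (by omega)]
        exact (hg n).2.2
  · have hv : Val z (mkName i f []) := by
      rw [Val, lv_mkName, pr_mkName]
      refine ⟨hi, ?_, ?_⟩
      · intro m hm
        simp at hm
      · intro _ j hj
        apply hne
        have hj0 : zf z j := (h.lin.1 _ _ hj.1).1
        obtain ⟨Y, hY⟩ := lp5_DefSet_nonempty (Lset (rk j))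
        exact ⟨Y, mem_Lset_iff.2 ⟨_, (h.mono j i hj0 hi).1 hj, hY⟩⟩
    refine ⟨mkName i f [], hv, lv_mkName _ _ _, ?_⟩
    ext y
    rw [mem_itp h hv, lv_mkName, hX]
    have : y ∉ Lset (rk i) := fun hy => hne ⟨y, hy⟩
    tauto

end Pool.Agent.HT
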