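import Pool.Agent.Helper85.HT.Defs3

set_option autoImplicit false

/-!
# Definitions for the part LP: one arithmetical operator simulates all Hamkins–Lewis programs and
evaluates `L_α` along every written code of an ordinal.
-/

namespace Pool.Agent.HT

open Ordinal

/-! ### coded programs -/

/-- `(n, start, lim, halt, table)`; the states are `0, ..., n`. -/
abbrev PCode : Type := ℕ × ℕ × ℕ × ℕ × List (ℕ × ℕ × ℕ)

/-- the program with code `q` -/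
def pcode (q : ℕ) : PCode := Denumerable.ofNat PCode q

/-- three bits as a number -/
def bits3 (b : Fin 3 → Bool) : ℕ := (b 0).toNat + 2 * (b 1).toNat + 4 * (b 2).toNat

def PCode.start (c : PCode) : ℕ := c.2.1 % (c.1 + 1)
def PCode.lim (c : PCode) : ℕ := c.2.2.1 % (c.1 + 1)
def PCode.halt (c : PCode) : ℕ := c.2.2.2.1 % (c.1 + 1)
/-- table entry: new state, written bits (as a number), direction (`0` = left) -/
def PCode.entry (c : PCode) (s b : ℕ) : ℕ × ℕ × ℕ := c.2.2.2.2.getD (8 * s + b) (0, 0, 0)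
def PCode.nst (c : PCode) (s b : ℕ) : ℕ := (c.entry s b).1 % (c.1 + 1)

/-- the Hamkins–Lewis program with code `q` -/
def progOf (q : ℕ) : Prog where
  Q := Fin ((pcode q).1 + 1)
  fin := inferInstance
  start := ⟨(pcode q).start, Nat.mod_lt _ (Nat.succ_pos _)⟩
  lim := ⟨(pcode q).lim, Nat.mod_lt _ (Nat.succ_pos _)⟩
  halt := ⟨(pcode q).halt, Nat.mod_lt _ (Nat.succ_pos _)⟩
  δ := fun s b => (⟨(pcode q).nst s (bits3 b), Nat.mod_lt _ (Nat.succ_pos _)⟩,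
    fun i => ((pcode q).entry s (bits3 b)).2.1.testBit i,
    decide (((pcode q).entry s (bits3 b)).2.2 ≠ 0))

/-! ### names, formulas, statements -/

/-- level, formula and parameters of a name -/
def nm (n : ℕ) : ℕ × ℕ × List ℕ := Denumerable.ofNat (ℕ × ℕ × List ℕ) n
def lv (n : ℕ) : ℕ := (nm n).1
def fm (n : ℕ) : ℕ := (nm n).2.1
def pr (n : ℕ) : List ℕ := (nm n).2.2

/-- the name with given level, formula and parameters -/
def mkName (i f : ℕ) (p : List ℕ) : ℕ := Encodable.encode (i, f, p)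

/-- formula codes: `0` is `eq 0 0`; `f + 1` has the tag `f.unpair.1` and the two arguments
`f.unpair.2.unpair`; tag `0` mem, `1` eq, `2` neg, `3` and, `≥ 4` ex. -/
def ftag (f : ℕ) : ℕ := (f - 1).unpair.1
def fa (f : ℕ) : ℕ := (f - 1).unpair.2.unpair.1
def fb (f : ℕ) : ℕ := (f - 1).unpair.2.unpair.2

theorem fa_lt {f : ℕ} (h : f ≠ 0) : fa f < f := by
  have h1 := Nat.unpair_left_le (f - 1).unpair.2
  have h2 := Nat.unpair_right_le (f - 1)
  unfold fa; omega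

theorem fb_lt {f : ℕ} (h : f ≠ 0) : fb f < f := by
  have h1 := Nat.unpair_right_le (f - 1).unpair.2
  have h2 := Nat.unpair_right_le (f - 1)
  unfold fb; omega

/-- the formula with code `f` -/
def toFml (f : ℕ) : Fml :=
  if _h : f = 0 then .eq 0 0
  else if ftag f = 0 then .mem (fa f) (fb f)
  else if ftag f = 1 then .eq (fa f) (fb f)
  else if ftag f = 2 then .neg (toFml (fa f))
  else if ftag f = 3 then .and (toFml (fa f)) (toFml (fb f))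
  else .ex (toFml (fa f))
termination_by f
decreasing_by all_goals first | exact fa_lt (by assumption) | exact fb_lt (by assumption)

/-- the value of the variable `a` in a (nonempty) list of names -/
def getenv (env : List ℕ) (a : ℕ) : ℕ := env.getD a (env.getLastD 0)

/-- statements: `(0,n1,n2,_)`: `n1 ∈ n2`; `(1,n1,n2,_)`: `n1 = n2`; `(2,i,f,env)`: `L_i ⊨ f[env]`;
`(3,n,_,_)`: `n` is a valid name; `(4,k,n,_)`: `n` denotes the natural number `k`. -/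
abbrev Stm : Type := ℕ × ℕ × ℕ × List ℕ

/-- field and strict order of the relation coded by `z` -/
def zf (z : ℕ → Prop) (i : ℕ) : Prop := z (Nat.pair i i)
def zlt (z : ℕ → Prop) (i j : ℕ) : Prop := z (Nat.pair i j) ∧ i ≠ j

/-- `z` codes a linear order -/
def zlin (z : ℕ → Prop) : Prop :=
  (∀ i j, z (Nat.pair i j) → zf z i ∧ zf z j) ∧
  (∀ i j, zf z i → zf z j → z (Nat.pair i j) ∨ z (Nat.pair j i)) ∧
  (∀ i j, z (Nat.pair i j) → z (Nat.pair j i) → i = j) ∧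
  (∀ i j k, z (Nat.pair i j) → z (Nat.pair j k) → z (Nat.pair i k))

/-- immediate verification of a statement from true statements `T` and false statements `F` -/
def ruleT (z : ℕ → Prop) (T F : Stm → Prop) (st : Stm) : Prop :=
  let tag := st.1
  let a := st.2.1
  let b := st.2.2.1
  let env := st.2.2.2
  (tag = 0 ∧ ∃ n, T (3, n, 0, []) ∧ zlt z (lv n) (lv b) ∧ T (1, n, a, []) ∧
    T (2, lv b, fm b, n :: pr b)) ∨
  (tag = 1 ∧ ∀ n, F (3, n, 0, []) ∨ ¬ (zlt z (lv n) (lv a) ∨ zlt z (lv n) (lv b)) ∨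
    (T (0, n, a, []) ∧ T (0, n, b, [])) ∨ (F (0, n, a, []) ∧ F (0, n, b, []))) ∨
  (tag = 2 ∧ b = 0) ∨
  (tag = 2 ∧ b ≠ 0 ∧ ftag b = 0 ∧ T (0, getenv env (fa b), getenv env (fb b), [])) ∨
  (tag = 2 ∧ b ≠ 0 ∧ ftag b = 1 ∧ T (1, getenv env (fa b), getenv env (fb b), [])) ∨
  (tag = 2 ∧ b ≠ 0 ∧ ftag b = 2 ∧ F (2, a, fa b, env)) ∨
  (tag = 2 ∧ b ≠ 0 ∧ ftag b = 3 ∧ T (2, a, fa b, env) ∧ T (2, a, fb b, env)) ∨
  (tag = 2 ∧ b ≠ 0 ∧ 4 ≤ ftag b ∧ ∃ n, T (3, n, 0, []) ∧ zlt z (lv n) a ∧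
    T (2, a, fa b, n :: env)) ∨
  (tag = 3 ∧ zf z (lv a) ∧ (∀ n ∈ pr a, T (3, n, 0, []) ∧ zlt z (lv n) (lv a)) ∧
    (pr a = [] → ∀ j, ¬ zlt z j (lv a))) ∨
  (tag = 4 ∧ a = 0 ∧ ∀ n, F (3, n, 0, []) ∨ ¬ zlt z (lv n) (lv b) ∨ F (0, n, b, [])) ∨
  (tag = 4 ∧ a ≠ 0 ∧ ∃ m, T (3, m, 0, []) ∧ zlt z (lv m) (lv b) ∧ T (4, a - 1, m, []) ∧
    ∀ n, F (3, n, 0, []) ∨ ¬ zlt z (lv n) (lv b) ∨
      (T (0, n, b, []) ∧ (T (0, n, m, []) ∨ T (1, n, m, []))) ∨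
      (F (0, n, b, []) ∧ F (0, n, m, []) ∧ F (1, n, m, [])))

/-- immediate refutation of a statement -/
def ruleF (z : ℕ → Prop) (T F : Stm → Prop) (st : Stm) : Prop :=
  let tag := st.1
  let a := st.2.1
  let b := st.2.2.1
  let env := st.2.2.2
  (tag = 0 ∧ ∀ n, F (3, n, 0, []) ∨ ¬ zlt z (lv n) (lv b) ∨ F (1, n, a, []) ∨
    F (2, lv b, fm b, n :: pr b)) ∨
  (tag = 1 ∧ ∃ n, T (3, n, 0, []) ∧ (zlt z (lv n) (lv a) ∨ zlt z (lv n) (lv b)) ∧
    ((T (0, n, a, []) ∧ F (0, n, b, [])) ∨ (F (0, n, a, []) ∧ T (0, n, b, [])))) ∨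
  (tag = 2 ∧ b ≠ 0 ∧ ftag b = 0 ∧ F (0, getenv env (fa b), getenv env (fb b), [])) ∨
  (tag = 2 ∧ b ≠ 0 ∧ ftag b = 1 ∧ F (1, getenv env (fa b), getenv env (fb b), [])) ∨
  (tag = 2 ∧ b ≠ 0 ∧ ftag b = 2 ∧ T (2, a, fa b, env)) ∨
  (tag = 2 ∧ b ≠ 0 ∧ ftag b = 3 ∧ (F (2, a, fa b, env) ∨ F (2, a, fb b, env))) ∨
  (tag = 2 ∧ b ≠ 0 ∧ 4 ≤ ftag b ∧ ∀ n, F (3, n, 0, []) ∨ ¬ zlt z (lv n) a ∨
    F (2, a, fa b, n :: env)) ∨
  (tag = 3 ∧ (¬ zf z (lv a) ∨ (∃ n ∈ pr a, F (3, n, 0, []) ∨ ¬ zlt z (lv n) (lv a)) ∨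
    (pr a = [] ∧ ∃ j, zlt z j (lv a)))) ∨
  (tag = 4 ∧ a = 0 ∧ ∃ n, T (3, n, 0, []) ∧ zlt z (lv n) (lv b) ∧ T (0, n, b, [])) ∨
  (tag = 4 ∧ a ≠ 0 ∧ ∀ m, F (3, m, 0, []) ∨ ¬ zlt z (lv m) (lv b) ∨ F (4, a - 1, m, []) ∨
    ∃ n, T (3, n, 0, []) ∧ zlt z (lv n) (lv b) ∧
      ((T (0, n, b, []) ∧ F (0, n, m, []) ∧ F (1, n, m, [])) ∨
       (F (0, n, b, []) ∧ (T (0, n, m, []) ∨ T (1, n, m, [])))))

/-- the real `x` is found among the sets named -/
def found (z : ℕ → Prop) (T F : Stm → Prop) (x : Cantor) : Prop :=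
  ∃ n, T (3, n, 0, []) ∧ ∀ k,
    (x k = true → ∃ m, T (3, m, 0, []) ∧ zlt z (lv m) (lv n) ∧ T (4, k, m, []) ∧
      T (0, m, n, [])) ∧
    (x k = false → ∀ m, F (3, m, 0, []) ∨ ¬ zlt z (lv m) (lv n) ∨ F (4, k, m, []) ∨
      F (0, m, n, []))

/-! ### the operator -/

/-- cells of the operator -/
def gPar (i : ℕ) : ℕ := Nat.pair 1 i
def gTape (q i n : ℕ) : ℕ := Nat.pair 2 (Encodable.encode (q, i, n))
def gHead (q n : ℕ) : ℕ := Nat.pair 3 (Encodable.encode (q, n))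
def gSt (q s : ℕ) : ℕ := Nat.pair 4 (Encodable.encode (q, s))
def gHalt (q : ℕ) : ℕ := Nat.pair 5 q
def gEv (q : ℕ) (v : Bool) (st : Stm) : ℕ := Nat.pair 6 (Encodable.encode (q, v, st))
def gWf (q i : ℕ) : ℕ := Nat.pair 7 (Encodable.encode (q, i))
def gGood (q : ℕ) : ℕ := Nat.pair 8 q

/-- the state codes a limit stage / stage 0 -/
def gLim (W : Cantor) : Prop := W (gPar 0) = true ∧ W (gPar 1) = true
def gZero (W : Cantor) : Prop := W (gPar 0) = false ∧ W (gPar 1) = false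

/-- the configuration of the program `q` coded by the state `W` -/
def cTape (y W : Cantor) (q i n : ℕ) : Prop :=
  (gZero W ∧ i = 0 ∧ y n = true) ∨ (¬ gZero W ∧ W (gTape q i n) = true)
def cHead (W : Cantor) (q n : ℕ) : Prop :=
  ((gZero W ∨ gLim W) ∧ n = 0) ∨ (¬ gZero W ∧ ¬ gLim W ∧ W (gHead q n) = true)
def cSt (W : Cantor) (q s : ℕ) : Prop :=
  (gZero W ∧ s = (pcode q).start) ∨
  (gLim W ∧ W (gHalt q) = true ∧ s = (pcode q).halt) ∨
  (gLim W ∧ W (gHalt q) = false ∧ s = (pcode q).lim) ∨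
  (¬ gZero W ∧ ¬ gLim W ∧ W (gSt q s) = true)
/-- the program `q` has halted -/
def cHalt (W : Cantor) (q : ℕ) : Prop := cSt W q (pcode q).halt

/-- the head of program `q` is in cell `n`, the state is `s` and the bits read are `b`. -/
def cRead (y W : Cantor) (q n s b : ℕ) : Prop :=
  cHead W q n ∧ cSt W q s ∧ b < 8 ∧
    ∀ i : ℕ, i < 3 → (b.testBit i = true ↔ cTape y W q i n)

def nTape (y W : Cantor) (q i n : ℕ) : Prop :=
  (cHalt W q ∧ cTape y W q i n) ∨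
  (¬ cHalt W q ∧ ((¬ cHead W q n ∧ cTape y W q i n) ∨
    ∃ s b, cRead y W q n s b ∧ ((pcode q).entry s b).2.1.testBit i = true ∧ i < 3))
def nHead (y W : Cantor) (q n : ℕ) : Prop :=
  (cHalt W q ∧ cHead W q n) ∨
  (¬ cHalt W q ∧ ∃ n0 s b, cRead y W q n0 s b ∧
    n = (if ((pcode q).entry s b).2.2 ≠ 0 then n0 + 1 else n0 - 1))
def nSt (y W : Cantor) (q s : ℕ) : Prop :=
  (cHalt W q ∧ cSt W q s) ∨
  (¬ cHalt W q ∧ ∃ n0 s0 b, cRead y W q n0 s0 b ∧ s = (pcode q).nst s0 b)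

/-- the relation on the output tape, true and false statements so far -/
def cz (y W : Cantor) (q : ℕ) : ℕ → Prop := fun k => cTape y W q 2 k
def cT (W : Cantor) (q : ℕ) : Stm → Prop := fun st => W (gEv q true st) = true
def cF (W : Cantor) (q : ℕ) : Stm → Prop := fun st => W (gEv q false st) = true

/-- bit `a` with tag `t` of the next state -/
def g1Bit (y W : Cantor) (t a : ℕ) : Prop :=
  (t = 1 ∧ a = 0 ∧ ¬ (W (gPar 0) = true ∧ W (gPar 1) = false)) ∨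
  (t = 1 ∧ a = 1 ∧ (W (gPar 0) = true ∧ W (gPar 1) = false)) ∨
  (t = 2 ∧ ∃ q i n, a = Encodable.encode (q, i, n) ∧ nTape y W q i n) ∨
  (t = 3 ∧ ∃ q n, a = Encodable.encode (q, n) ∧ nHead y W q n) ∨
  (t = 4 ∧ ∃ q s, a = Encodable.encode (q, s) ∧ nSt y W q s) ∨
  (t = 5 ∧ (W (gHalt a) = true ∨ nSt y W a (pcode a).halt)) ∨
  (t = 6 ∧ ∃ (q : ℕ) (v : Bool) (st : Stm), a = Encodable.encode (q, v, st) ∧
    (W (gEv q v st) = true ∨
      (cHalt W q ∧ v = true ∧ ruleT (cz y W q) (cT W q) (cF W q) st) ∨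
      (cHalt W q ∧ v = false ∧ ruleF (cz y W q) (cT W q) (cF W q) st))) ∨
  (t = 7 ∧ ∃ q i, a = Encodable.encode (q, i) ∧
    (W (gWf q i) = true ∨
      (cHalt W q ∧ zf (cz y W q) i ∧ ∀ j, zlt (cz y W q) j i → W (gWf q j) = true))) ∨
  (t = 8 ∧ cHalt W a ∧ zlin (cz y W a) ∧ (∀ i, zf (cz y W a) i → W (gWf a i) = true) ∧
    found (cz y W a) (cT W a) (cF W a) y)

open Classical in
/-- the operator -/
noncomputable def G1 (y W : Cantor) : Cantor := fun m => decide (g1Bit y W m.unpair.1 m.unpair.2)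

end Pool.Agent.HT
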