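import Pool.Agent.Helper85.HT.LPDefs

set_option autoImplicit false

/-!
# LP: valid names and their interpretation in the constructible hierarchy
-/

namespace Pool.Agent.HT

open Ordinal

theorem mem_pr_lt {n m : ℕ} (h : m ∈ pr n) : m < n := by
  have h1 : Encodable.encode (nm n) = n := Denumerable.encode_ofNat n
  have h2 : n = Nat.pair (lv n) (Nat.pair (fm n) (Encodable.encode (pr n))) := h1.symm
  have h3 : ∀ (l : List ℕ), m ∈ l → m < Encodable.encode l := by
    intro l
    induction l with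
    | nil => intro h; simp at h
    | cons a t ih =>
      intro h
      rw [Encodable.encode_list_cons]
      rcases List.mem_cons.1 h with h | h
      · subst h
        have := Nat.left_le_pair (Encodable.encode m) (Encodable.encode t)
        have e : Encodable.encode m = m := rfl
        omega
      · have := ih h
        have := Nat.right_le_pair (Encodable.encode a) (Encodable.encode t)
        omega
  have h4 := h3 _ h
  have h5 := Nat.right_le_pair (fm n) (Encodable.encode (pr n))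
  have h6 := Nat.right_le_pair (lv n) (Nat.pair (fm n) (Encodable.encode (pr n)))
  omega

theorem nm_mkName (i f : ℕ) (p : List ℕ) : nm (mkName i f p) = (i, f, p) :=
  Denumerable.ofNat_encode _

theorem lv_mkName (i f : ℕ) (p : List ℕ) : lv (mkName i f p) = i := by
  unfold lv; rw [nm_mkName]
theorem fm_mkName (i f : ℕ) (p : List ℕ) : fm (mkName i f p) = f := by
  unfold fm; rw [nm_mkName]
theorem pr_mkName (i f : ℕ) (p : List ℕ) : pr (mkName i f p) = p := by
  unfold pr; rw [nm_mkName]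

/-- valid names -/
def Val (z : ℕ → Prop) (n : ℕ) : Prop :=
  zf z (lv n) ∧ (∀ m, ∀ _h : m ∈ pr n, Val z m ∧ zlt z (lv m) (lv n)) ∧
    (pr n = [] → ∀ j, ¬ zlt z j (lv n))
termination_by n
decreasing_by exact mem_pr_lt (by assumption)

/-- `z` codes a well-order of type `α` with rank function `rk`. -/
structure Rk (z : ℕ → Prop) (rk : ℕ → Ordinal.{0}) (α : Ordinal.{0}) : Prop where
  lin : zlin z
  lt : ∀ i, zf z i → rk i < α
  surj : ∀ β < α, ∃ i, zf z i ∧ rk i = β
  mono : ∀ i j, zf z i → zf z j → (zlt z i j ↔ rk i < rk j)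

open Classical in
/-- the set with the elements `y ∈ M` satisfying `p`, if there is one. -/
noncomputable def sepSet (M : Set ZFSet.{0}) (p : ZFSet.{0} → Prop) : ZFSet.{0} :=
  if h : ∃ X : ZFSet.{0}, ∀ y, y ∈ X ↔ y ∈ M ∧ p y then Classical.choose h else ∅

open Classical in
/-- the interpretation of a name -/
noncomputable def itp (rk : ℕ → Ordinal.{0}) (n : ℕ) : ZFSet.{0} :=
  sepSet (Lset (rk (lv n))) (fun y => Sat (Lset (rk (lv n))) (toFml (fm n))
    (scons y (fun a => if _h : getenv (pr n) a ∈ pr n then itp rk (getenv (pr n) a) else ∅)))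
termination_by n
decreasing_by exact mem_pr_lt (by assumption)

/-- the truth of a statement -/
def Tr (z : ℕ → Prop) (rk : ℕ → Ordinal.{0}) (st : Stm) : Prop :=
  (st.1 = 0 ∧ itp rk st.2.1 ∈ itp rk st.2.2.1) ∨
  (st.1 = 1 ∧ itp rk st.2.1 = itp rk st.2.2.1) ∨
  (st.1 = 2 ∧ Sat (Lset (rk st.2.1)) (toFml st.2.2.1)
    (fun a => itp rk (getenv st.2.2.2 a))) ∨
  (st.1 = 3 ∧ Val z st.2.1) ∨
  (st.1 = 4 ∧ itp rk st.2.2.1 = znat st.2.1)

/-- the relevant statements -/
def Rel (z : ℕ → Prop) (st : Stm) : Prop :=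
  (st.1 = 0 ∧ Val z st.2.1 ∧ Val z st.2.2.1) ∨
  (st.1 = 1 ∧ Val z st.2.1 ∧ Val z st.2.2.1) ∨
  (st.1 = 2 ∧ zf z st.2.1 ∧ st.2.2.2 ≠ [] ∧ ∀ m ∈ st.2.2.2, Val z m ∧ zlt z (lv m) st.2.1) ∨
  (st.1 = 3 ∧ st.2.2.1 = 0 ∧ st.2.2.2 = []) ∨
  (st.1 = 4 ∧ Val z st.2.2.1)

/-- the real `x` is the trace on the natural numbers of an element of `L_α`. -/
def InLw (x : Cantor) (α : Ordinal.{0}) : Prop :=
  ∃ X ∈ Lset α, ∀ k, x k = true ↔ znat k ∈ X

end Pool.Agent.HT
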