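import Pool.Agent.Helper85.HT.MachDefs

set_option autoImplicit false

/-!
# Module M1 (helper36): primitive recursive functions are LOOP computable
-/

namespace Pool.Agent.HT

namespace M1

theorem ext' {m m' : Mem} (h : ∀ r, m.reg r = m'.reg r) (h' : m.arr = m'.arr) : m = m' := by
  cases m; cases m'
  simp only [Mem.mk.injEq]
  exact ⟨funext h, h'⟩

theorem reg_set (m : Mem) (r v i : ℕ) : (m.setReg r v).reg i = if i = r then v else m.reg i := rfl

theorem arr_set (m : Mem) (r v : ℕ) : (m.setReg r v).arr = m.arr := rfl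

theorem ok_mono {K R R' A : ℕ} (h : R ≤ R') (c : Cmd) (hc : c.ok K R A) : c.ok K R' A := by
  induction c with
  | skip => trivial
  | inc r => exact lt_of_lt_of_le hc h
  | dec r => exact lt_of_lt_of_le hc h
  | set a r v => exact ⟨lt_of_lt_of_le hc.1 h, hc.2⟩
  | seq c d ihc ihd => exact ⟨ihc hc.1, ihd hc.2⟩
  | ifz r c d ihc ihd => exact ⟨lt_of_lt_of_le hc.1 h, ihc hc.2.1, ihd hc.2.2⟩
  | ifA a r c d ihc ihd => exact ⟨lt_of_lt_of_le hc.1 h, hc.2.1, ihc hc.2.2.1, ihd hc.2.2.2⟩
  | ifY s r c d ihc ihd => exact ⟨lt_of_lt_of_le hc.1 h, hc.2.1, ihc hc.2.2.1, ihd hc.2.2.2⟩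
  | loop r c ih => exact ⟨lt_of_lt_of_le hc.1 h, hc.2.1, ih hc.2.2⟩

/-- clear a register -/
theorem clear_run (K : ℕ) (y : Cantor) (r : ℕ) (m : Mem) :
    (Cmd.loop r .skip).run K y m = m.setReg r 0 := by
  change (fun m : Mem => m.setReg r (m.reg r - 1))^[m.reg r] m = _
  have key : ∀ n (m : Mem), m.reg r = n → (fun m : Mem => m.setReg r (m.reg r - 1))^[n] m =
      m.setReg r 0 := by
    intro n
    induction n with
    | zero =>
      intro m hm
      apply ext'
      · intro i
        simp only [Function.iterate_zero, id_eq, reg_set]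
        split_ifs with h
        · rw [h, hm]
        · rfl
      · rfl
    | succ n ih =>
      intro m hm
      rw [Function.iterate_succ_apply, ih]
      · apply ext'
        · intro i
          simp only [reg_set]
          split_ifs <;> rfl
        · rfl
      · simp only [reg_set, if_true, hm]; omega
  exact key _ m rfl

/-- add register `r` to `a` and clear `r` -/
theorem move_run (K : ℕ) (y : Cantor) (r a : ℕ) (hra : r ≠ a) (m : Mem) :
    (Cmd.loop r (.inc a)).run K y m = (m.setReg a (m.reg a + m.reg r)).setReg r 0 := by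
  change (fun m : Mem => (m.setReg r (m.reg r - 1)).setReg a ((m.setReg r (m.reg r - 1)).reg a + 1))^[m.reg r] m = _
  have key : ∀ n (m : Mem), m.reg r = n →
      (fun m : Mem => (m.setReg r (m.reg r - 1)).setReg a ((m.setReg r (m.reg r - 1)).reg a + 1))^[n] m =
      (m.setReg a (m.reg a + n)).setReg r 0 := by
    intro n
    induction n with
    | zero =>
      intro m hm
      apply ext'
      · intro i
        simp only [Function.iterate_zero, id_eq, reg_set]
        split_ifs with h h' <;> simp_all
      · rfl
    | succ n ih =>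
      intro m hm
      rw [Function.iterate_succ_apply, ih]
      · apply ext'
        · intro i
          simp only [reg_set]
          split_ifs <;> simp_all <;> omega
        · rfl
      · simp only [reg_set, if_true, if_neg hra, hm]; omega
  exact key _ m rfl

/-- add register `r` to `a` and `b` and clear `r` -/
theorem move2_run (K : ℕ) (y : Cantor) (r a b : ℕ) (hra : r ≠ a) (hrb : r ≠ b) (hab : a ≠ b)
    (m : Mem) :
    (Cmd.loop r (.seq (.inc a) (.inc b))).run K y m =
      ((m.setReg a (m.reg a + m.reg r)).setReg b (m.reg b + m.reg r)).setReg r 0 := by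
  have step : ∀ m : Mem, (Cmd.seq (.inc a) (.inc b)).run K y (m.setReg r (m.reg r - 1)) =
      ((m.setReg r (m.reg r - 1)).setReg a (m.reg a + 1)).setReg b (m.reg b + 1) := by
    intro m
    apply ext'
    · intro i
      simp only [Cmd.run, reg_set]
      split_ifs <;> simp_all
    · rfl
  have key : ∀ n (m : Mem), m.reg r = n →
      (fun m : Mem => (Cmd.seq (.inc a) (.inc b)).run K y (m.setReg r (m.reg r - 1)))^[n] m =
      ((m.setReg a (m.reg a + n)).setReg b (m.reg b + n)).setReg r 0 := by
    intro n
    induction n with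
    | zero =>
      intro m hm
      apply ext'
      · intro i
        simp only [Function.iterate_zero, id_eq, reg_set]
        split_ifs with h h' <;> simp_all
      · rfl
    | succ n ih =>
      intro m hm
      rw [Function.iterate_succ_apply, step, ih]
      · apply ext'
        · intro i
          simp only [reg_set]
          split_ifs <;> simp_all <;> omega
        · rfl
      · simp only [reg_set, if_true, if_neg hra, if_neg hrb, hm]; omega
  exact key _ m rfl

/-- copy register `r` to `a`, scratch register `t` -/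
def copy (r a t : ℕ) : Cmd := .seq (.loop r (.seq (.inc a) (.inc t))) (.loop t (.inc r))

theorem copy_run (K : ℕ) (y : Cantor) (r a t : ℕ) (hra : r ≠ a) (hrt : r ≠ t) (hat : a ≠ t)
    (m : Mem) (ha : m.reg a = 0) (ht : m.reg t = 0) :
    (copy r a t).run K y m = m.setReg a (m.reg r) := by
  change (Cmd.loop t (.inc r)).run K y ((Cmd.loop r (.seq (.inc a) (.inc t))).run K y m) = _
  rw [move2_run K y r a t hra hrt hat, move_run K y t r (Ne.symm hrt)]
  apply ext'
  · intro i
    simp only [reg_set]
    split_ifs <;> simp_all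
  · rfl

theorem copy_wr (r a t : ℕ) : (copy r a t).wrReg = {r, a, t} := by
  ext i
  simp only [copy, Cmd.wrReg, Set.mem_union, Set.mem_singleton_iff, Set.mem_insert_iff]
  tauto

theorem copy_arr (r a t : ℕ) : (copy r a t).wrArr = ∅ := by
  simp [copy, Cmd.wrArr]

theorem copy_ok (K A R r a t : ℕ) (hra : r ≠ a) (hrt : r ≠ t) (hr : r < R) (ha : a < R)
    (ht : t < R) : (copy r a t).ok K R A := by
  simp only [copy, Cmd.ok, Cmd.wrReg, Set.mem_union, Set.mem_singleton_iff]
  refine ⟨⟨hr, ?_, ha, ht⟩, ht, ?_, hr⟩
  · tauto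
  · exact Ne.symm hrt

/-- LOOP computability -/
def LC {k : ℕ} (f : List.Vector ℕ k → ℕ) : Prop :=
    ∃ N : ℕ, ∀ (ins : Fin k → ℕ) (out s : ℕ), (∀ i, ins i < s) → out < s → (∀ i, ins i ≠ out) →
      ∃ c : Cmd, (∀ K A, c.ok K (s + N) A) ∧ c.wrArr = ∅ ∧
        (∀ r ∈ c.wrReg, r = out ∨ (∃ i, r = ins i) ∨ (s ≤ r ∧ r < s + N)) ∧
        ∀ (K : ℕ) (y : Cantor) (m : Mem), (∀ r, s ≤ r → r < s + N → m.reg r = 0) →
          m.reg out = 0 →
          c.run K y m = m.setReg out (f (List.Vector.ofFn (fun i => m.reg (ins i))))

theorem lc_zero : LC (k := 0) fun _ => 0 := by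
  refine ⟨0, fun ins out s _ _ _ => ⟨.skip, fun _ _ => trivial, rfl, ?_, ?_⟩⟩
  · intro r hr; exact absurd hr (Set.notMem_empty r)
  · intro K y m _ h
    apply ext'
    · intro i
      simp only [Cmd.run, reg_set]
      split_ifs with hi
      · rw [hi, h]
      · rfl
    · rfl

theorem lc_get {n : ℕ} (i : Fin n) : LC fun v : List.Vector ℕ n => v.get i := by
  refine ⟨1, fun ins out s h1 h2 h3 => ⟨copy (ins i) out s, fun K A => ?_, copy_arr _ _ _, ?_, ?_⟩⟩
  · have := h1 i
    exact copy_ok K A _ _ _ _ (h3 i) (by omega) (by omega) (by omega) (by omega)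
  · intro r hr
    rw [copy_wr] at hr
    rcases hr with hr | hr | hr
    · exact Or.inr (Or.inl ⟨i, hr⟩)
    · exact Or.inl hr
    · rw [Set.mem_singleton_iff] at hr
      exact Or.inr (Or.inr (by omega))
  · intro K y m hm ho
    have := h1 i
    rw [copy_run K y _ _ _ (h3 i) (by omega) (by omega) m ho (hm s le_rfl (by omega))]
    change _ = m.setReg out ((List.Vector.ofFn fun i => m.reg (ins i)).get i)
    rw [List.Vector.get_ofFn]

theorem lc_succ : LC (k := 1) fun v => Nat.succ v.head := by
  refine ⟨1, fun ins out s h1 h2 h3 => ⟨.seq (copy (ins 0) out s) (.inc out), fun K A => ?_, ?_, ?_, ?_⟩⟩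
  · have := h1 0
    exact ⟨copy_ok K A _ _ _ _ (h3 0) (by omega) (by omega) (by omega) (by omega),
      show out < _ by omega⟩
  · simp [Cmd.wrArr, copy_arr]
  · intro r hr
    rw [Cmd.wrReg, copy_wr] at hr
    rcases hr with (hr | hr | hr) | hr
    · exact Or.inr (Or.inl ⟨0, hr⟩)
    · exact Or.inl hr
    · rw [Set.mem_singleton_iff] at hr
      exact Or.inr (Or.inr (by omega))
    · exact Or.inl hr
  · intro K y m hm ho
    have := h1 0
    change ((copy (ins 0) out s).run K y m).setReg out (((copy (ins 0) out s).run K y m).reg out + 1) = _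
    rw [copy_run K y _ _ _ (h3 0) (by omega) (by omega) m ho (hm s le_rfl (by omega))]
    apply ext'
    · intro i
      simp only [reg_set, if_true]
      split_ifs
      · rfl
      · rfl
    · rfl

/-- clear the registers `s, …, s + n - 1` -/
theorem exists_clear (s : ℕ) : ∀ n : ℕ, ∃ c : Cmd, (∀ K A R, s + n ≤ R → c.ok K R A) ∧ c.wrArr = ∅ ∧
    (∀ r ∈ c.wrReg, s ≤ r ∧ r < s + n) ∧
    ∀ (K : ℕ) (y : Cantor) (m : Mem), (∀ r, (c.run K y m).reg r = if s ≤ r ∧ r < s + n then 0 else m.reg r) ∧
      (c.run K y m).arr = m.arr := by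
  intro n
  induction n with
  | zero =>
    refine ⟨.skip, fun _ _ _ _ => trivial, rfl, fun r hr => absurd hr (Set.notMem_empty r),
      fun K y m => ⟨fun r => ?_, rfl⟩⟩
    rw [if_neg (by omega)]; rfl
  | succ n ih =>
    obtain ⟨c, h1, h2, h3, h4⟩ := ih
    refine ⟨.seq c (.loop (s + n) .skip), fun K A R hR => ⟨h1 K A R (by omega), by omega,
      Set.notMem_empty _, trivial⟩, ?_, ?_, ?_⟩
    · simp [Cmd.wrArr, h2]
    · intro r hr
      rcases hr with hr | hr | hr
      · have := h3 r hr; omega
      · rw [Set.mem_singleton_iff] at hr; omega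
      · exact absurd hr (Set.notMem_empty r)
    · intro K y m
      change (∀ r, ((Cmd.loop (s + n) .skip).run K y (c.run K y m)).reg r = _) ∧ _
      obtain ⟨e1, e2⟩ := h4 K y m
      constructor
      · intro r
        rw [clear_run, reg_set, e1]
        split_ifs <;> first | rfl | omega
      · change ((Cmd.loop (s + n) .skip).run K y (c.run K y m)).arr = _
        rw [clear_run, arr_set, e2]

/-- compute several functions into consecutive registers -/
theorem exists_multi {k n : ℕ} (g : Fin n → List.Vector ℕ k → ℕ) (N : Fin n → ℕ)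
    (hg : ∀ i, ∀ (ins : Fin k → ℕ) (out s : ℕ), (∀ i, ins i < s) → out < s → (∀ i, ins i ≠ out) →
      ∃ c : Cmd, (∀ K A, c.ok K (s + N i) A) ∧ c.wrArr = ∅ ∧
        (∀ r ∈ c.wrReg, r = out ∨ (∃ i, r = ins i) ∨ (s ≤ r ∧ r < s + N i)) ∧
        ∀ (K : ℕ) (y : Cantor) (m : Mem), (∀ r, s ≤ r → r < s + N i → m.reg r = 0) →
          m.reg out = 0 →
          c.run K y m = m.setReg out (g i (List.Vector.ofFn (fun i => m.reg (ins i)))))
    (S : ℕ) (hS : ∀ i, N i ≤ S) (ins : Fin k → ℕ) (s : ℕ) (hins : ∀ i, ins i < s) :
    ∀ j, j ≤ n → ∃ c : Cmd, (∀ K A, c.ok K (s + n + S) A) ∧ c.wrArr = ∅ ∧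
        (∀ r ∈ c.wrReg, (∃ i, r = ins i) ∨ (s ≤ r ∧ r < s + n + S)) ∧
        ∀ (K : ℕ) (y : Cantor) (m : Mem), (∀ r, s ≤ r → r < s + n + S → m.reg r = 0) →
          (∀ r, (c.run K y m).reg r = if h : s ≤ r ∧ r < s + j ∧ r - s < n then
              g ⟨r - s, h.2.2⟩ (List.Vector.ofFn (fun i => m.reg (ins i))) else m.reg r) ∧
          (c.run K y m).arr = m.arr := by
  intro j
  induction j with
  | zero =>
    intro _
    refine ⟨.skip, fun _ _ => trivial, rfl, fun r hr => absurd hr (Set.notMem_empty r),
      fun K y m _ => ⟨fun r => ?_, rfl⟩⟩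
    rw [dif_neg (by omega)]; rfl
  | succ j ih =>
    intro hj
    obtain ⟨c, h1, h2, h3, h4⟩ := ih (by omega)
    obtain ⟨d, d1, d2, d3, d4⟩ := hg ⟨j, by omega⟩ ins (s + j) (s + n)
      (fun i => by have := hins i; omega) (by omega) (fun i => by have := hins i; omega)
    have hN := hS ⟨j, by omega⟩
    refine ⟨.seq c d, fun K A => ⟨h1 K A, ok_mono (by omega) d (d1 K A)⟩, ?_, ?_, ?_⟩
    · simp [Cmd.wrArr, h2, d2]
    · intro r hr
      rcases hr with hr | hr
      · exact h3 r hr
      · rcases d3 r hr with h | h | h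
        · right; omega
        · exact Or.inl h
        · right; omega
    · intro K y m hm
      obtain ⟨e1, e2⟩ := h4 K y m hm
      have e3 : d.run K y (c.run K y m) = (c.run K y m).setReg (s + j)
          (g ⟨j, by omega⟩ (List.Vector.ofFn (fun i => (c.run K y m).reg (ins i)))) := by
        apply d4
        · intro r hr hr'
          rw [e1, dif_neg (by omega)]
          exact hm r (by omega) (by omega)
        · rw [e1, dif_neg (by omega)]
          exact hm _ (by omega) (by omega)
      have e4 : (fun i => (c.run K y m).reg (ins i)) = fun i => m.reg (ins i) := by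
        funext i
        have := hins i
        rw [e1, dif_neg (by omega)]
      rw [e4] at e3
      constructor
      · intro r
        change (d.run K y (c.run K y m)).reg r = _
        rw [e3, reg_set, e1]
        by_cases hr : r = s + j
        · subst hr
          rw [if_pos rfl, dif_pos ⟨by omega, by omega, by omega⟩]
          congr 2
          simp
        · rw [if_neg hr]
          by_cases hr' : s ≤ r ∧ r < s + j ∧ r - s < n
          · rw [dif_pos hr', dif_pos ⟨by omega, by omega, by omega⟩]
          · rw [dif_neg hr', dif_neg (by omega)]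
      · change (d.run K y (c.run K y m)).arr = _
        rw [e3, arr_set, e2]

theorem lc_comp {k n : ℕ} {f : List.Vector ℕ n → ℕ} (g : Fin n → List.Vector ℕ k → ℕ)
    (hf : LC f) (hg : ∀ i, LC (g i)) : LC fun a => f (List.Vector.ofFn fun i => g i a) := by
  obtain ⟨Nf, hf⟩ := hf
  choose N hN using hg
  let S : ℕ := ∑ i, N i
  have hS : ∀ i, N i ≤ S := fun i => Finset.single_le_sum (f := N) (fun _ _ => Nat.zero_le _)
    (Finset.mem_univ i)
  refine ⟨n + S + Nf, fun ins out s h1 h2 h3 => ?_⟩
  obtain ⟨c, c1, c2, c3, c4⟩ := exists_multi g N hN S hS ins s h1 n le_rfl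
  obtain ⟨d, d1, d2, d3, d4⟩ := hf (fun j => s + j) out (s + n) (fun j => by omega) (by omega)
    (fun j => by omega)
  obtain ⟨e, e1, e2, e3, e4⟩ := exists_clear s n
  refine ⟨.seq c (.seq d e), fun K A => ⟨ok_mono (by omega) c (c1 K A),
    ok_mono (by omega) d (d1 K A), e1 K A _ (by omega)⟩, ?_, ?_, ?_⟩
  · simp [Cmd.wrArr, c2, d2, e2]
  · intro r hr
    rcases hr with hr | hr | hr
    · rcases c3 r hr with h | h
      · exact Or.inr (Or.inl h)
      · right; right; omega
    · rcases d3 r hr with h | ⟨i, h⟩ | h
      · exact Or.inl h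
      · right; right; omega
      · right; right; omega
    · have := e3 r hr
      right; right; omega
  · intro K y m hm ho
    obtain ⟨p1, p2⟩ := c4 K y m (fun r h h' => hm r h (by omega))
    have q : d.run K y (c.run K y m) = (c.run K y m).setReg out
        (f (List.Vector.ofFn fun j : Fin n => (c.run K y m).reg (s + j))) := by
      apply d4
      · intro r h h'
        rw [p1, dif_neg (by omega)]
        exact hm r (by omega) (by omega)
      · rw [p1, dif_neg (by omega), ho]
    have q' : (fun j : Fin n => (c.run K y m).reg (s + j)) =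
        fun j => g j (List.Vector.ofFn (fun i => m.reg (ins i))) := by
      funext j
      rw [p1, dif_pos ⟨by omega, by omega, by omega⟩]
      congr 1
      simp
    rw [q'] at q
    change e.run K y (d.run K y (c.run K y m)) = _
    apply ext'
    · intro r
      rw [(e4 K y _).1, q, reg_set, reg_set, p1]
      by_cases hr : r = out
      · subst hr
        rw [if_neg (by omega), if_pos rfl, if_pos rfl]
      · rw [if_neg hr, if_neg hr]
        split_ifs with ha hb
        · rw [hm r (by omega) (by omega)]
        · omega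
        · rfl
    · rw [(e4 K y _).2, q, arr_set, p2, arr_set]

theorem lc_prec {n : ℕ} {f : List.Vector ℕ n → ℕ} {g : List.Vector ℕ (n + 2) → ℕ}
    (hf : LC f) (hg : LC g) : LC fun v : List.Vector ℕ (n + 1) =>
      (v.head.rec (f v.tail) fun y IH => g (y ::ᵥ IH ::ᵥ v.tail) : ℕ) := by
  obtain ⟨Nf, hf⟩ := hf
  obtain ⟨Ng, hg⟩ := hg
  refine ⟨4 + Nf + Ng, fun ins out s h1 h2 h3 => ?_⟩
  -- `s`: counter, `s + 1`: accumulator, `s + 2`: index, `s + 3`: new value
  obtain ⟨c, c1, c2, c3, c4⟩ := hf (fun i => ins i.succ) (s + 1) (s + 4)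
    (fun i => by have := h1 i.succ; omega) (by omega) (fun i => by have := h1 i.succ; omega)
  let ins' : Fin (n + 2) → ℕ := Fin.cons (s + 2) (Fin.cons (s + 1) fun i => ins i.succ)
  have hins' : ∀ i, ins' i = s + 2 ∨ ins' i = s + 1 ∨ ∃ j, ins' i = ins j := by
    intro i
    refine Fin.cases (Or.inl rfl) (fun i => ?_) i
    refine Fin.cases (Or.inr (Or.inl rfl)) (fun i => Or.inr (Or.inr ⟨i.succ, rfl⟩)) i
  obtain ⟨d, d1, d2, d3, d4⟩ := hg ins' (s + 3) (s + 4)
    (fun i => by
      rcases hins' i with h | h | ⟨j, h⟩
      · omega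
      · omega
      · have := h1 j; omega) (by omega)
    (fun i => by
      rcases hins' i with h | h | ⟨j, h⟩
      · omega
      · omega
      · have := h1 j; omega)
  -- the body of the loop
  let body : Cmd := .seq d (.seq (.loop (s + 1) .skip) (.seq (.loop (s + 3) (.inc (s + 1))) (.inc (s + 2))))
  let prog : Cmd := .seq (copy (ins 0) s (s + 3)) (.seq c (.seq (.loop s body)
    (.seq (.loop (s + 1) (.inc out)) (.loop (s + 2) .skip))))
  have hbw : ∀ r ∈ body.wrReg, (∃ i, r = ins i) ∨ (s < r ∧ r < s + (4 + Nf + Ng)) := by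
    intro r hr
    simp only [body, Cmd.wrReg, Set.mem_union, Set.mem_singleton_iff, Set.mem_empty_iff_false,
      or_false] at hr
    rcases hr with hr | hr | (hr | hr) | hr
    · rcases d3 r hr with h | ⟨i, h⟩ | h
      · right; omega
      · rcases hins' i with h' | h' | ⟨j, h'⟩
        · right; omega
        · right; omega
        · left; exact ⟨j, by omega⟩
      · right; omega
    · right; omega
    · right; omega
    · right; omega
    · right; omega
  refine ⟨prog, fun K A => ?_, ?_, ?_, ?_⟩
  · have h0 := h1 0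
    refine ⟨copy_ok K A _ _ _ _ (by omega) (by omega) (by omega) (by omega) (by omega),
      ok_mono (by omega) c (c1 K A), ⟨by omega, ?_, ok_mono (by omega) d (d1 K A),
        ⟨by omega, Set.notMem_empty _, trivial⟩, ⟨by omega, ?_, show s + 1 < _ by omega⟩,
        show s + 2 < _ by omega⟩, ⟨by omega, ?_, show out < _ by omega⟩,
        by omega, Set.notMem_empty _, trivial⟩
    · intro hs
      rcases hbw s hs with ⟨i, h⟩ | h
      · have := h1 i; omega
      · omega
    · simp [Cmd.wrReg]
    · rw [Cmd.wrReg, Set.mem_singleton_iff]; omega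
  · simp [prog, body, Cmd.wrArr, copy_arr, c2, d2]
  · intro r hr
    change r ∈ (copy (ins 0) s (s + 3)).wrReg ∪ (c.wrReg ∪ (({s} ∪ body.wrReg) ∪
      (({s + 1} ∪ {out}) ∪ ({s + 2} ∪ ∅)))) at hr
    rw [copy_wr] at hr
    simp only [Set.mem_union, Set.mem_singleton_iff, Set.mem_insert_iff, Set.mem_empty_iff_false,
      or_false] at hr
    rcases hr with (hr | hr | hr) | hr | (hr | hr) | (hr | hr) | hr
    · exact Or.inr (Or.inl ⟨0, hr⟩)
    · right; right; omega
    · right; right; omega
    · rcases c3 r hr with h | ⟨i, h⟩ | h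
      · right; right; omega
      · exact Or.inr (Or.inl ⟨i.succ, h⟩)
      · right; right; omega
    · right; right; omega
    · rcases hbw r hr with h | h
      · exact Or.inr (Or.inl h)
      · right; right; omega
    · right; right; omega
    · exact Or.inl hr
    · right; right; omega
  · intro K y m hm ho
    have h0 := h1 0
    -- the values
    let v : List.Vector ℕ (n + 1) := List.Vector.ofFn fun i => m.reg (ins i)
    let w : List.Vector ℕ n := List.Vector.ofFn fun i : Fin n => m.reg (ins i.succ)
    let a : ℕ → ℕ := fun j => Nat.rec (f w) (fun y IH => g (y ::ᵥ IH ::ᵥ w)) j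
    have hv : v = m.reg (ins 0) ::ᵥ w := rfl
    -- state in the loop
    let st : ℕ → Mem := fun j => ((m.setReg s (m.reg (ins 0) - j)).setReg (s + 1) (a j)).setReg (s + 2) j
    have e0 : (copy (ins 0) s (s + 3)).run K y m = m.setReg s (m.reg (ins 0)) :=
      copy_run K y _ _ _ (by omega) (by omega) (by omega) m (hm s le_rfl (by omega))
        (hm _ (by omega) (by omega))
    have e1 : c.run K y (m.setReg s (m.reg (ins 0))) = st 0 := by
      rw [c4 K y _ (fun r h h' => by rw [reg_set, if_neg (by omega)]; exact hm r (by omega) (by omega))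
        (by rw [reg_set, if_neg (by omega)]; exact hm _ (by omega) (by omega))]
      have : (fun i : Fin n => (m.setReg s (m.reg (ins 0))).reg (ins i.succ)) =
          fun i : Fin n => m.reg (ins i.succ) := by
        funext i
        have := h1 i.succ
        rw [reg_set, if_neg (by omega)]
      rw [this]
      apply ext'
      · intro r
        simp only [st, reg_set, Nat.sub_zero]
        have hm2 : m.reg (s + 2) = 0 := hm _ (by omega) (by omega)
        by_cases r1 : r = s
        · subst r1; simp
        · by_cases r2 : r = s + 1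
          · subst r2; simp [a, w]
          · by_cases r3 : r = s + 2
            · subst r3; simp [hm2]
            · simp [r1, r2, r3]
      · rfl
    have e2 : ∀ j, j < m.reg (ins 0) → body.run K y ((st j).setReg s ((st j).reg s - 1)) = st (j + 1) := by
      intro j hj
      have hs : (st j).reg s = m.reg (ins 0) - j := by
        simp [st, reg_set]
      rw [hs]
      have hz : ∀ r, r ≠ s → r ≠ s + 1 → r ≠ s + 2 →
          ((st j).setReg s (m.reg (ins 0) - j - 1)).reg r = m.reg r := by
        intro r r1 r2 r3
        simp [st, reg_set, r1, r2, r3]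
      have hd : d.run K y ((st j).setReg s (m.reg (ins 0) - j - 1)) =
          ((st j).setReg s (m.reg (ins 0) - j - 1)).setReg (s + 3) (a (j + 1)) := by
        have hd' := d4 K y ((st j).setReg s (m.reg (ins 0) - j - 1))
          (fun r h h' => by
            rw [hz r (by omega) (by omega) (by omega)]; exact hm r (by omega) (by omega))
          (by rw [hz _ (by omega) (by omega) (by omega)]; exact hm _ (by omega) (by omega))
        rw [hd']
        congr 1
        change _ = g (j ::ᵥ a j ::ᵥ w)
        congr 1
        have q1 : ((st j).setReg s (m.reg (ins 0) - j - 1)).reg (ins' 0) = j := by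
          change ((st j).setReg s (m.reg (ins 0) - j - 1)).reg (s + 2) = j
          simp [st, reg_set]
        have q2 : ((st j).setReg s (m.reg (ins 0) - j - 1)).reg (ins' (Fin.succ 0)) = a j := by
          change ((st j).setReg s (m.reg (ins 0) - j - 1)).reg (s + 1) = a j
          simp [st, reg_set]
        have q3 : (fun i : Fin n => ((st j).setReg s (m.reg (ins 0) - j - 1)).reg
            (ins' (Fin.succ (Fin.succ i)))) = fun i : Fin n => m.reg (ins i.succ) := by
          funext i
          change ((st j).setReg s (m.reg (ins 0) - j - 1)).reg (ins i.succ) = _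
          have := h1 i.succ
          exact hz _ (by omega) (by omega) (by omega)
        change ((st j).setReg s (m.reg (ins 0) - j - 1)).reg (ins' 0) ::ᵥ
          ((st j).setReg s (m.reg (ins 0) - j - 1)).reg (ins' (Fin.succ 0)) ::ᵥ
          List.Vector.ofFn (fun i : Fin n => ((st j).setReg s (m.reg (ins 0) - j - 1)).reg
            (ins' (Fin.succ (Fin.succ i)))) = _
        rw [q1, q2, q3]
      change (Cmd.inc (s + 2)).run K y ((Cmd.loop (s + 3) (.inc (s + 1))).run K y
        ((Cmd.loop (s + 1) .skip).run K y (d.run K y _))) = _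
      rw [hd, clear_run, move_run K y _ _ (by omega)]
      apply ext'
      · intro r
        simp only [st, Cmd.run, reg_set]
        have hm3 : m.reg (s + 3) = 0 := hm _ (by omega) (by omega)
        by_cases r1 : r = s
        · subst r1
          simp
          omega
        · by_cases r2 : r = s + 1
          · subst r2; simp
          · by_cases r3 : r = s + 2
            · subst r3; simp
            · by_cases r4 : r = s + 3
              · subst r4; simp [hm3]
              · simp [r1, r2, r3, r4]
      · rfl
    have e3 : ∀ j, j ≤ m.reg (ins 0) →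
        (fun m : Mem => body.run K y (m.setReg s (m.reg s - 1)))^[j] (st 0) = st j := by
      intro j
      induction j with
      | zero => intro _; rfl
      | succ j ih =>
        intro hj
        rw [Function.iterate_succ_apply', ih (by omega)]
        exact e2 j (by omega)
    have e4 : (Cmd.loop s body).run K y (st 0) = st (m.reg (ins 0)) := by
      have : (st 0).reg s = m.reg (ins 0) := by
        simp [st, reg_set]
      change (fun m : Mem => body.run K y (m.setReg s (m.reg s - 1)))^[(st 0).reg s] (st 0) = _
      rw [this]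
      exact e3 _ le_rfl
    change (Cmd.loop (s + 2) .skip).run K y ((Cmd.loop (s + 1) (.inc out)).run K y
      ((Cmd.loop s body).run K y (c.run K y ((copy (ins 0) s (s + 3)).run K y m)))) = _
    rw [e0, e1, e4, move_run K y _ _ (by omega), clear_run]
    have hfin : (v.head.rec (f v.tail) fun y IH => g (y ::ᵥ IH ::ᵥ v.tail) : ℕ) =
        a (m.reg (ins 0)) := by
      rw [hv]; rfl
    change _ = m.setReg out (v.head.rec (f v.tail) fun y IH => g (y ::ᵥ IH ::ᵥ v.tail) : ℕ)
    rw [hfin]
    apply ext'
    · intro r
      simp only [st, reg_set]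
      have hm0 : m.reg s = 0 := hm _ (by omega) (by omega)
      have hm1 : m.reg (s + 1) = 0 := hm _ (by omega) (by omega)
      have hm2 : m.reg (s + 2) = 0 := hm _ (by omega) (by omega)
      by_cases r0 : r = out
      · subst r0
        have n1 : r ≠ s := by omega
        have n2 : r ≠ s + 1 := by omega
        have n3 : r ≠ s + 2 := by omega
        simp [n1, n2, n3, ho]
      · by_cases r1 : r = s
        · subst r1
          simp [r0, hm0]
        · by_cases r2 : r = s + 1
          · subst r2; simp [hm1, r0]
          · by_cases r3 : r = s + 2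
            · subst r3; simp [hm2, r0]
            · simp [r0, r1, r2, r3]
    · rfl

end M1

open M1 in
theorem primrec_cmd {k : ℕ} {f : List.Vector ℕ k → ℕ} (hf : Nat.Primrec' f) :
    ∃ N : ℕ, ∀ (ins : Fin k → ℕ) (out s : ℕ), (∀ i, ins i < s) → out < s → (∀ i, ins i ≠ out) →
      ∃ c : Cmd, (∀ K A, c.ok K (s + N) A) ∧ c.wrArr = ∅ ∧
        (∀ r ∈ c.wrReg, r = out ∨ (∃ i, r = ins i) ∨ (s ≤ r ∧ r < s + N)) ∧
        ∀ (K : ℕ) (y : Cantor) (m : Mem), (∀ r, s ≤ r → r < s + N → m.reg r = 0) →
          m.reg out = 0 →
          c.run K y m = m.setReg out (f (List.Vector.ofFn (fun i => m.reg (ins i)))) := by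
  induction hf with
  | zero => exact lc_zero
  | succ => exact lc_succ
  | get i => exact lc_get i
  | comp g _ _ ihf ihg => exact lc_comp g ihf ihg
  | prec _ _ ihf ihg => exact lc_prec ihf ihg

end Pool.Agent.HT
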