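import Pool.Agent.Helper85.HT.M1

set_option autoImplicit false

/-!
# M2 : the body of the main loop
-/

namespace Pool.Agent.HT

open Ordinal

theorem m2_ext {m m' : Mem} (h1 : ∀ r, m.reg r = m'.reg r) (h2 : m.arr = m'.arr) : m = m' := by
  cases m; cases m'
  simp only [Mem.mk.injEq]
  exact ⟨funext h1, h2⟩

@[simp] theorem m2_setReg_reg (m : Mem) (r v i : ℕ) :
    (m.setReg r v).reg i = if i = r then v else m.reg i := rfl

@[simp] theorem m2_setReg_arr (m : Mem) (r v : ℕ) : (m.setReg r v).arr = m.arr := rfl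

@[simp] theorem m2_setArr_reg (m : Mem) (a j : ℕ) (v : Bool) : (m.setArr a j v).reg = m.reg := rfl

@[simp] theorem m2_setArr_arr (m : Mem) (a j : ℕ) (v : Bool) (b i : ℕ) :
    (m.setArr a j v).arr b i = if b = a ∧ i = j then v else m.arr b i := rfl

theorem m2_ok_mono {K R R' A : ℕ} (h : R ≤ R') (c : Cmd) (hc : c.ok K R A) : c.ok K R' A := by
  induction c with
  | skip => trivial
  | inc r => exact lt_of_lt_of_le hc h
  | dec r => exact lt_of_lt_of_le hc h
  | set a r v => exact ⟨lt_of_lt_of_le hc.1 h, hc.2⟩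
  | seq c d ihc ihd => exact ⟨ihc hc.1, ihd hc.2⟩
  | ifz r c d ihc ihd => exact ⟨lt_of_lt_of_le hc.1 h, ihc hc.2.1, ihd hc.2.2⟩
  | ifA a r c d ihc ihd => exact ⟨lt_of_lt_of_le hc.1 h, hc.2.1, ihc hc.2.2.1, ihd hc.2.2.2⟩
  | ifY s r c d ihc ihd => exact ⟨lt_of_lt_of_le hc.1 h, hc.2.1, ihc hc.2.2.1, ihd hc.2.2.2⟩
  | loop r c ihc => exact ⟨lt_of_lt_of_le hc.1 h, hc.2.1, ihc hc.2.2⟩

/-- clear a register -/
def m2clear (r : ℕ) : Cmd := .loop r .skip

theorem m2clear_run (K : ℕ) (y : Cantor) (r : ℕ) (m : Mem) :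
    (m2clear r).run K y m = m.setReg r 0 := by
  have key : ∀ n, ∀ m : Mem, m.reg r = n →
      (fun m : Mem => m.setReg r (m.reg r - 1))^[n] m = m.setReg r 0 := by
    intro n
    induction n with
    | zero =>
      intro m hm
      refine m2_ext (fun i => ?_) rfl
      simp only [Function.iterate_zero, id_eq, m2_setReg_reg]
      split_ifs with h
      · rw [h, hm]
      · rfl
    | succ n ih =>
      intro m hm
      rw [Function.iterate_succ_apply, ih _ (by simp [hm])]
      refine m2_ext (fun i => ?_) rfl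
      simp only [m2_setReg_reg]
      split_ifs <;> rfl
  exact key _ m rfl

/-! ### reading the input into array `1` -/

/-- copy `y (K * q), …, y (K * q + s - 1)` to array `1` -/
def m2fill : ℕ → Cmd
  | 0 => .skip
  | s + 1 => .seq (m2fill s) (.seq (.ifY s 3 (.set 1 4 true) (.set 1 4 false)) (.inc 4))

theorem m2fill_wrReg (s : ℕ) : (m2fill s).wrReg ⊆ {4} := by
  induction s with
  | zero => simp [m2fill, Cmd.wrReg]
  | succ s ih =>
    simp only [m2fill, Cmd.wrReg]
    intro r hr
    rcases hr with hr | hr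
    · exact ih hr
    · simpa using hr

theorem m2fill_wrArr (s : ℕ) : (m2fill s).wrArr ⊆ {1} := by
  induction s with
  | zero => simp [m2fill, Cmd.wrArr]
  | succ s ih =>
    simp only [m2fill, Cmd.wrArr]
    intro r hr
    rcases hr with hr | hr
    · exact ih hr
    · simpa using hr

theorem m2fill_ok (K R : ℕ) (hR : 5 ≤ R) (s : ℕ) (hs : s ≤ K) : (m2fill s).ok K R 3 := by
  induction s with
  | zero => trivial
  | succ s ih =>
    refine ⟨ih (by omega), ⟨by omega, by omega, ⟨by omega, by omega⟩, by omega, by omega⟩, ?_⟩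
    show 4 < R
    omega

theorem m2fill_run (K : ℕ) (y : Cantor) (m : Mem) (s : ℕ) :
    (∀ r, ((m2fill s).run K y m).reg r = if r = 4 then m.reg 4 + s else m.reg r) ∧
    (∀ a, a ≠ 1 → ((m2fill s).run K y m).arr a = m.arr a) ∧
    ∀ i, ((m2fill s).run K y m).arr 1 i =
      if m.reg 4 ≤ i ∧ i < m.reg 4 + s then y (K * m.reg 3 + (i - m.reg 4)) else m.arr 1 i := by
  induction s with
  | zero =>
    refine ⟨fun r => ?_, fun _ _ => rfl, fun i => ?_⟩
    · show m.reg r = _
      split_ifs with h
      · rw [h]; rfl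
      · rfl
    · rw [if_neg (by omega)]
      rfl
  | succ s ih =>
    obtain ⟨h1, h2, h3⟩ := ih
    simp only [m2fill, Cmd.run]
    set M := (m2fill s).run K y m with hM
    have hr3 : M.reg 3 = m.reg 3 := by rw [h1]; simp
    have hr4 : M.reg 4 = m.reg 4 + s := by rw [h1]; simp
    have key : (if y (K * M.reg 3 + s) = true then M.setArr 1 (M.reg 4) true
        else M.setArr 1 (M.reg 4) false) = M.setArr 1 (M.reg 4) (y (K * M.reg 3 + s)) := by
      cases y (K * M.reg 3 + s) <;> simp
    rw [key, hr3, hr4]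
    refine ⟨fun r => ?_, fun a ha => ?_, fun i => ?_⟩
    · simp only [m2_setReg_reg, m2_setArr_reg, h1]
      split_ifs with h
      · rfl
      · rfl
    · rw [m2_setReg_arr, ← h2 a ha]
      funext i
      rw [m2_setArr_arr, if_neg (by tauto)]
    · rw [m2_setReg_arr, m2_setArr_arr, h3]
      by_cases hi : i = m.reg 4 + s
      · rw [if_pos ⟨rfl, hi⟩, if_pos (by omega), hi]
        congr 2
        omega
      · rw [if_neg (by tauto)]
        by_cases h : m.reg 4 ≤ i ∧ i < m.reg 4 + s
        · rw [if_pos h, if_pos (by omega)]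
        · rw [if_neg h, if_neg (by omega)]

/-- the loop which copies the input -/
def m2input (K : ℕ) : Cmd := .loop 5 (.seq (m2fill K) (.inc 3))

theorem m2input_run (K : ℕ) (y : Cantor) (m : Mem) (h3 : m.reg 3 = 0) (h4 : m.reg 4 = 0) :
    (∀ r, ((m2input K).run K y m).reg r = if r = 3 then m.reg 5 else if r = 4 then K * m.reg 5
      else if r = 5 then 0 else m.reg r) ∧
    (∀ a, a ≠ 1 → ((m2input K).run K y m).arr a = m.arr a) ∧
    ∀ i, ((m2input K).run K y m).arr 1 i = if i < K * m.reg 5 then y i else m.arr 1 i := by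
  have key : ∀ n, n ≤ m.reg 5 →
      let M := (fun m : Mem => (Cmd.seq (m2fill K) (.inc 3)).run K y
        (m.setReg 5 (m.reg 5 - 1)))^[n] m
      (∀ r, M.reg r = if r = 3 then n else if r = 4 then K * n
        else if r = 5 then m.reg 5 - n else m.reg r) ∧
      (∀ a, a ≠ 1 → M.arr a = m.arr a) ∧
      ∀ i, M.arr 1 i = if i < K * n then y i else m.arr 1 i := by
    intro n
    induction n with
    | zero =>
      intro _
      refine ⟨fun r => ?_, fun _ _ => rfl, fun i => ?_⟩
      · show m.reg r = _
        split_ifs with e1 e2 e3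
        · rw [e1, h3]
        · rw [e2, h4]; simp
        · rw [e3]; simp
        · rfl
      · show m.arr 1 i = _
        simp
    | succ n ih =>
      intro hn
      have ih' := ih (by omega)
      simp only [Function.iterate_succ_apply']
      set M := (fun m : Mem => (Cmd.seq (m2fill K) (.inc 3)).run K y
        (m.setReg 5 (m.reg 5 - 1)))^[n] m with hM
      obtain ⟨g1, g2, g3⟩ := ih'
      have f := m2fill_run K y (M.setReg 5 (M.reg 5 - 1)) K
      simp only [Cmd.run]
      set M' := (m2fill K).run K y (M.setReg 5 (M.reg 5 - 1)) with hM'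
      obtain ⟨f1, f2, f3⟩ := f
      have r3 : (M.setReg 5 (M.reg 5 - 1)).reg 3 = n := by simp [g1]
      have r4 : (M.setReg 5 (M.reg 5 - 1)).reg 4 = K * n := by simp [g1]
      rw [r3, r4] at f3
      rw [r4] at f1
      refine ⟨fun r => ?_, fun a ha => ?_, fun i => ?_⟩
      · simp only [m2_setReg_reg, f1, g1]
        by_cases e3 : r = 3
        · subst e3; simp
        · by_cases e4 : r = 4
          · subst e4; simp; ring
          · by_cases e5 : r = 5
            · subst e5; simp; omega
            · simp [e3, e4, e5]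
      · rw [m2_setReg_arr, f2 a ha, m2_setReg_arr, g2 a ha]
      · rw [m2_setReg_arr, f3, m2_setReg_arr, g3, Nat.mul_succ]
        by_cases hi : i < K * n
        · rw [if_neg (by omega), if_pos hi, if_pos (by omega)]
        · by_cases hi' : i < K * n + K
          · rw [if_pos (by omega), if_pos hi']
            congr 1
            omega
          · rw [if_neg (by omega), if_neg hi, if_neg hi']
  have := key (m.reg 5) le_rfl
  simp only [Nat.sub_self] at this
  exact this

/-! ### encoding of a prefix of an array -/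

theorem m2_enc_step (w : Cantor) (H k : ℕ) (hk : k < H) :
    Encodable.encode ((pre w H).drop k) =
      Nat.succ (Nat.pair (if w k = true then 1 else 0)
        (Encodable.encode ((pre w H).drop (k + 1)))) := by
  have hl : k < (pre w H).length := by rw [length_pre]; exact hk
  rw [List.drop_eq_getElem_cons hl, Encodable.encode_list_cons]
  have : (pre w H)[k] = w k := by simp [pre]
  rw [this]
  cases w k <;> simp

theorem m2_primF : Nat.Primrec' (fun v : List.Vector ℕ 2 => Nat.succ (Nat.pair (v.get 0) (v.get 1))) :=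
  Nat.Primrec'.of_prim (Primrec.succ.comp (Primrec₂.natPair.comp
    (Primrec.vector_get.comp Primrec.id (Primrec.const 0))
    (Primrec.vector_get.comp Primrec.id (Primrec.const 1))))

theorem m2_primC : Nat.Primrec' (fun v : List.Vector ℕ 1 => v.get 0) := Nat.Primrec'.get 0

theorem m2_encode_cmd : ∃ N : ℕ, ∀ acc, (acc = 6 ∨ acc = 9) → ∀ a < 3, ∃ c : Cmd,
    (∀ K, c.ok K (10 + N) 3) ∧ c.wrArr = ∅ ∧ (∀ r ∈ c.wrReg, 5 ≤ r) ∧
    ∀ (K : ℕ) (y : Cantor) (m : Mem), (∀ r, 10 ≤ r → m.reg r = 0) → m.reg 7 = 0 → m.reg 8 = 0 →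
      m.reg acc = 0 →
      c.run K y m = (m.setReg 5 0).setReg acc (Encodable.encode (pre (m.arr a) (m.reg 5))) := by
  obtain ⟨NF, hF⟩ := primrec_cmd m2_primF
  obtain ⟨NC, hC⟩ := primrec_cmd m2_primC
  refine ⟨NF + NC, fun acc hacc a ha => ?_⟩
  have hacc5 : acc ≠ 5 := by omega
  have hacc7 : acc ≠ 7 := by omega
  have hacc8 : acc ≠ 8 := by omega
  have hacc10 : acc < 10 := by omega
  obtain ⟨cF, okF, arrF, regF, runF⟩ := hF ![7, acc] 8 10
    (by intro i; fin_cases i <;> simp; omega) (by norm_num)
    (by intro i; fin_cases i <;> simp; omega)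
  obtain ⟨cC, okC, arrC, regC, runC⟩ := hC ![8] acc 10
    (by intro i; fin_cases i; simp) hacc10
    (by intro i; fin_cases i; simp; omega)
  have wF : ∀ r ∈ cF.wrReg, r = 8 ∨ r = 7 ∨ r = acc ∨ 10 ≤ r := by
    intro r hr
    rcases regF r hr with h | ⟨i, h⟩ | h
    · exact Or.inl h
    · fin_cases i
      · exact Or.inr (Or.inl h)
      · exact Or.inr (Or.inr (Or.inl h))
    · exact Or.inr (Or.inr (Or.inr h.1))
  have wC : ∀ r ∈ cC.wrReg, r = acc ∨ r = 8 ∨ 10 ≤ r := by
    intro r hr
    rcases regC r hr with h | ⟨i, h⟩ | h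
    · exact Or.inl h
    · fin_cases i
      exact Or.inr (Or.inl h)
    · exact Or.inr (Or.inr h.1)
  refine ⟨.loop 5 (.seq (.ifA a 5 (.inc 7) .skip) (.seq cF (.seq (m2clear 7) (.seq (m2clear acc)
    (.seq cC (m2clear 8)))))), fun K => ?_, ?_, ?_, ?_⟩
  · refine ⟨by omega, ?_, ⟨by omega, ha, (show 7 < 10 + (NF + NC) by omega), trivial⟩,
      m2_ok_mono (by omega) _ (okF K 3), ⟨(show 7 < _ by omega), by simp [Cmd.wrReg], trivial⟩,
      ⟨(show acc < _ by omega), by simp [Cmd.wrReg], trivial⟩,
      m2_ok_mono (by omega) _ (okC K 3), ⟨(show 8 < _ by omega), by simp [Cmd.wrReg], trivial⟩⟩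
    simp only [Cmd.wrReg, m2clear, Set.mem_union, Set.mem_singleton_iff, Set.mem_empty_iff_false,
      not_or]
    refine ⟨⟨by omega, not_false⟩, fun h => ?_, ⟨by omega, not_false⟩,
      ⟨fun h => hacc5 h.symm, not_false⟩, fun h => ?_, by omega, not_false⟩
    · have := wF _ h; omega
    · have := wC _ h; omega
  · simp [Cmd.wrArr, m2clear, arrF, arrC]
  · intro r hr
    simp only [Cmd.wrReg, m2clear, Set.mem_union, Set.mem_singleton_iff,
      Set.mem_empty_iff_false, or_false] at hr
    rcases hr with h | h | h | h | h | h | h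
    · omega
    · omega
    · have := wF _ h; omega
    · omega
    · omega
    · have := wC _ h; omega
    · omega
  · intro K y m hs h7 h8 hac
    -- the body
    have body : ∀ M : Mem, (∀ r, 10 ≤ r → M.reg r = 0) → M.reg 7 = 0 → M.reg 8 = 0 →
        (Cmd.seq (.ifA a 5 (.inc 7) .skip) (.seq cF (.seq (m2clear 7) (.seq (m2clear acc)
          (.seq cC (m2clear 8)))))).run K y M =
        M.setReg acc (Nat.succ (Nat.pair (if M.arr a (M.reg 5) = true then 1 else 0)
          (M.reg acc))) := by
      intro M hM h7 h8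
      have e1 : (Cmd.ifA a 5 (.inc 7) .skip).run K y M =
          M.setReg 7 (if M.arr a (M.reg 5) = true then 1 else 0) := by
        simp only [Cmd.run]
        by_cases hb : M.arr a (M.reg 5) = true
        · rw [if_pos hb, if_pos hb, h7]
        · rw [if_neg hb, if_neg hb]
          refine m2_ext (fun i => ?_) rfl
          simp only [m2_setReg_reg]
          split_ifs with hi
          · rw [hi, h7]
          · rfl
      simp only [Cmd.run] at e1
      simp only [Cmd.run, m2clear_run]
      rw [e1, runF K y _ (fun r h1 h2 => by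
        simp only [m2_setReg_reg]; rw [if_neg (by omega)]; exact hM r h1)
        (by simp [h8]), runC K y _ (fun r h1 h2 => by
          simp only [m2_setReg_reg]
          rw [if_neg (by omega), if_neg (by omega), if_neg (by omega), if_neg (by omega)]
          exact hM r h1)
        (by simp)]
      refine m2_ext (fun i => ?_) rfl
      simp only [m2_setReg_reg, List.Vector.get_ofFn, Matrix.cons_val_zero, Matrix.cons_val_one]
      by_cases hi8 : i = 8
      · subst hi8
        rw [if_pos rfl, if_neg (fun h => hacc8 h.symm), h8]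
      · by_cases hia : i = acc
        · subst hia
          simp [hi8, hacc7, Ne.symm hi8]
        · by_cases hi7 : i = 7
          · subst hi7
            simp [hia, h7]
          · simp [hi8, hia, hi7]
    have key : ∀ n, n ≤ m.reg 5 →
        (fun m : Mem => (Cmd.seq (.ifA a 5 (.inc 7) .skip) (.seq cF (.seq (m2clear 7)
          (.seq (m2clear acc) (.seq cC (m2clear 8)))))).run K y
          (m.setReg 5 (m.reg 5 - 1)))^[n] m =
        (m.setReg 5 (m.reg 5 - n)).setReg acc
          (Encodable.encode ((pre (m.arr a) (m.reg 5)).drop (m.reg 5 - n))) := by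
      intro n
      induction n with
      | zero =>
        intro _
        refine m2_ext (fun i => ?_) rfl
        simp only [Function.iterate_zero, id_eq, m2_setReg_reg, Nat.sub_zero]
        rw [List.drop_eq_nil_of_le (by rw [length_pre])]
        split_ifs with e1 e2
        · rw [e1, hac]; rfl
        · rw [e2]
        · rfl
      | succ n ih =>
        intro hn
        rw [Function.iterate_succ_apply', ih (by omega)]
        have e5 : ((m.setReg 5 (m.reg 5 - n)).setReg acc
          (Encodable.encode ((pre (m.arr a) (m.reg 5)).drop (m.reg 5 - n)))).reg 5 =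
            m.reg 5 - n := by simp [Ne.symm hacc5]
        rw [e5, body _ (fun r hr => by
            simp only [m2_setReg_reg]
            rw [if_neg (by omega), if_neg (by omega), if_neg (by omega)]
            exact hs r hr)
          (by simp [Ne.symm hacc7, h7]) (by simp [Ne.symm hacc8, h8])]
        refine m2_ext (fun i => ?_) rfl
        simp only [m2_setReg_reg, m2_setReg_arr]
        by_cases hia : i = acc
        · subst hia
          rw [if_pos rfl, if_pos rfl, m2_enc_step _ _ (m.reg 5 - (n + 1)) (by omega)]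
          have e6 : m.reg 5 - (n + 1) + 1 = m.reg 5 - n := by omega
          have e7 : m.reg 5 - n - 1 = m.reg 5 - (n + 1) := by omega
          simp only [e6, e7, if_true, hacc5, if_false]
        · by_cases hi5 : i = 5
          · subst hi5
            simp only [hia, if_false, if_true]; omega
          · simp only [hia, hi5, if_false]
    have := key (m.reg 5) le_rfl
    rw [Nat.sub_self, List.drop_zero] at this
    exact this

/-! ### assembly -/

/-- the function computed in the end -/
def m2G (P : LProc) (v : List.Vector ℕ 3) : ℕ :=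
  if P.g (v.get 0, (Encodable.decode (α := List Bool) (v.get 1)).getD [],
    (Encodable.decode (α := List Bool) (v.get 2)).getD []) = true then 1 else 0

theorem m2_primG (P : LProc) : Nat.Primrec' (m2G P) := by
  refine Nat.Primrec'.of_prim ?_
  have e : ∀ i : Fin 3, Primrec (fun v : List.Vector ℕ 3 => v.get i) := fun i =>
    Primrec.vector_get.comp Primrec.id (Primrec.const i)
  have d : ∀ i : Fin 3, Primrec (fun v : List.Vector ℕ 3 =>
      (Encodable.decode (α := List Bool) (v.get i)).getD []) := fun i =>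
    Primrec.option_getD.comp (Primrec.decode.comp (e i)) (Primrec.const [])
  have g : Primrec (fun v : List.Vector ℕ 3 => P.g (v.get 0,
      (Encodable.decode (α := List Bool) (v.get 1)).getD [],
      (Encodable.decode (α := List Bool) (v.get 2)).getD [])) :=
    P.hg.comp (Primrec.pair (e 0) (Primrec.pair (d 1) (d 2)))
  refine (Primrec.cond g (Primrec.const 1) (Primrec.const 0)).of_eq fun v => ?_
  unfold m2G
  cases P.g (v.get 0, (Encodable.decode (α := List Bool) (v.get 1)).getD [],
      (Encodable.decode (α := List Bool) (v.get 2)).getD []) <;> simp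

theorem m2_primH (P : LProc) : Nat.Primrec' (fun v : List.Vector ℕ 1 => P.h (v.get 0)) :=
  Nat.Primrec'.of_prim (P.hh.comp (Primrec.vector_get.comp Primrec.id (Primrec.const 0)))

theorem body_cmd (P : LProc) : ∃ R : ℕ, 2 ≤ R ∧ ∀ K : ℕ, 1 ≤ K → ∃ c : Cmd, c.ok K R 3 ∧
    c.wrArr ⊆ {1} ∧
    ∀ (y : Cantor) (m : Mem), (∀ r, r ≠ 0 → m.reg r = 0) →
      (∀ r, 2 ≤ r → (c.run K y m).reg r = 0) ∧ (c.run K y m).reg 0 = m.reg 0 ∧
      (c.run K y m).reg 1 = (if Loc P y (m.arr 0) (m.reg 0) = true then 1 else 0) ∧
      (∀ a, a ≠ 1 → (c.run K y m).arr a = m.arr a) := by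
  obtain ⟨NH, hH⟩ := primrec_cmd (m2_primH P)
  obtain ⟨NC, hC⟩ := primrec_cmd m2_primC
  obtain ⟨NG, hG⟩ := primrec_cmd (m2_primG P)
  obtain ⟨NE, hE⟩ := m2_encode_cmd
  obtain ⟨cH, okH, arrH, regH, runH⟩ := hH ![0] 2 10
    (by intro i; fin_cases i; simp) (by norm_num) (by intro i; fin_cases i; simp)
  obtain ⟨cC, okC, arrC, regC, runC⟩ := hC ![2] 5 10
    (by intro i; fin_cases i; simp) (by norm_num) (by intro i; fin_cases i; simp)
  obtain ⟨cG, okG, arrG, regG, runG⟩ := hG ![0, 6, 9] 1 10
    (by intro i; fin_cases i <;> simp) (by norm_num) (by intro i; fin_cases i <;> simp)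
  obtain ⟨c0, ok0, arr0, reg0, run0⟩ := hE 6 (Or.inl rfl) 0 (by norm_num)
  obtain ⟨c1, ok1, arr1, reg1, run1⟩ := hE 9 (Or.inr rfl) 1 (by norm_num)
  refine ⟨10 + (NH + NC + NG + NE), by omega, fun K hK => ⟨.seq cH (.seq cC (.seq (m2input K)
    (.seq (m2clear 3) (.seq (m2clear 4) (.seq cC (.seq c0 (.seq cC (.seq c1 (.seq cG
    (.seq (m2clear 2) (.seq (m2clear 6) (m2clear 9)))))))))))), ?_, ?_, ?_⟩⟩
  · have hfin : ∀ r, r < 10 → (m2clear r).ok K (10 + (NH + NC + NG + NE)) 3 := fun r hr =>
      ⟨(show r < _ by omega), by simp [Cmd.wrReg], trivial⟩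
    refine ⟨m2_ok_mono (by omega) _ (okH K 3), m2_ok_mono (by omega) _ (okC K 3), ?_,
      hfin 3 (by omega), hfin 4 (by omega), m2_ok_mono (by omega) _ (okC K 3),
      m2_ok_mono (by omega) _ (ok0 K), m2_ok_mono (by omega) _ (okC K 3),
      m2_ok_mono (by omega) _ (ok1 K), m2_ok_mono (by omega) _ (okG K 3),
      hfin 2 (by omega), hfin 6 (by omega), hfin 9 (by omega)⟩
    refine ⟨(show 5 < _ by omega), ?_, m2fill_ok K _ (by omega) K le_rfl,
      (show 3 < _ by omega)⟩
    simp only [Cmd.wrReg, Set.mem_union, Set.mem_singleton_iff, not_or]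
    refine ⟨fun h => ?_, by norm_num⟩
    have := m2fill_wrReg K h
    simp at this
  · simp only [Cmd.wrArr, m2clear, m2input, arrH, arrC, arrG, arr0, arr1, Set.empty_union,
      Set.union_empty]
    exact m2fill_wrArr K
  · intro y m hm
    simp only [Cmd.run, m2clear_run]
    -- step 1: the bound
    have s1 : cH.run K y m = m.setReg 2 (P.h (m.reg 0)) := by
      rw [runH K y m (fun r h1 h2 => hm r (by omega)) (hm 2 (by omega))]
      simp
    rw [s1]
    set m1 := m.setReg 2 (P.h (m.reg 0)) with hm1
    have s2 : cC.run K y m1 = m1.setReg 5 (P.h (m.reg 0)) := by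
      rw [runC K y m1 (fun r h1 h2 => by
        rw [hm1, m2_setReg_reg, if_neg (by omega)]; exact hm r (by omega))
        (by rw [hm1, m2_setReg_reg, if_neg (by omega)]; exact hm 5 (by omega))]
      simp [hm1]
    rw [s2]
    set H := P.h (m.reg 0) with hHdef
    set m2 := m1.setReg 5 H with hm2
    obtain ⟨r3, a3, b3⟩ := m2input_run K y m2
      (by simp [hm2, hm1, hm 3 (by omega)]) (by simp [hm2, hm1, hm 4 (by omega)])
    set m3 := (m2input K).run K y m2 with hm3
    have hm25 : m2.reg 5 = H := by simp [hm2]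
    rw [hm25] at r3 b3
    have q3 : ∀ r, r ≠ 0 → r ≠ 2 → r ≠ 3 → r ≠ 4 → m3.reg r = 0 := by
      intro r h0 h2 h3 h4
      rw [r3, if_neg h3, if_neg h4]
      split_ifs with h5
      · rfl
      · simp [hm2, hm1, h5, h2, hm r h0]
    have q30 : m3.reg 0 = m.reg 0 := by simp [r3, hm2, hm1]
    have q32 : m3.reg 2 = H := by simp [r3, hm2, hm1]
    have a30 : m3.arr 0 = m.arr 0 := by rw [a3 0 (by omega)]; simp [hm2, hm1]
    have p3 : pre (m3.arr 1) H = pre y H := by
      unfold pre
      refine List.map_congr_left fun i hi => ?_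
      rw [List.mem_range] at hi
      rw [b3, if_pos (lt_of_lt_of_le hi (Nat.le_mul_of_pos_left H hK))]
    set m5 := (m3.setReg 3 0).setReg 4 0 with hm5
    have z5 : ∀ r, r ≠ 0 → r ≠ 2 → m5.reg r = 0 := by
      intro r h0 h2
      simp only [hm5, m2_setReg_reg]
      split_ifs with h4 h3
      · rfl
      · rfl
      · exact q3 r h0 h2 h3 h4
    have z50 : m5.reg 0 = m.reg 0 := by simp [hm5, q30]
    have z52 : m5.reg 2 = H := by simp [hm5, q32]
    have s6 : cC.run K y m5 = m5.setReg 5 H := by
      rw [runC K y m5 (fun r h1 h2 => z5 r (by omega) (by omega)) (z5 5 (by omega) (by omega))]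
      simp [z52]
    rw [s6]
    have s7 : c0.run K y (m5.setReg 5 H) =
        ((m5.setReg 5 H).setReg 5 0).setReg 6 (Encodable.encode (pre (m.arr 0) H)) := by
      rw [run0 K y _ (fun r hr => by
          rw [m2_setReg_reg, if_neg (by omega)]; exact z5 r (by omega) (by omega))
        (by simp [z5]) (by simp [z5]) (by simp [z5])]
      simp only [m2_setReg_arr, m2_setReg_reg, if_true, hm5, a30]
    rw [s7]
    set m7 := ((m5.setReg 5 H).setReg 5 0).setReg 6 (Encodable.encode (pre (m.arr 0) H)) with hm7
    have s8 : cC.run K y m7 = m7.setReg 5 H := by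
      rw [runC K y m7 (fun r h1 h2 => by
          simp only [hm7, m2_setReg_reg]
          rw [if_neg (by omega), if_neg (by omega), if_neg (by omega)]
          exact z5 r (by omega) (by omega)) (by simp [hm7])]
      simp [hm7, z52]
    rw [s8]
    have s9 : c1.run K y (m7.setReg 5 H) =
        ((m7.setReg 5 H).setReg 5 0).setReg 9 (Encodable.encode (pre y H)) := by
      rw [run1 K y _ (fun r hr => by
          simp only [hm7, m2_setReg_reg]
          rw [if_neg (by omega), if_neg (by omega), if_neg (by omega), if_neg (by omega)]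
          exact z5 r (by omega) (by omega))
        (by simp [hm7, z5]) (by simp [hm7, z5]) (by simp [hm7, z5])]
      simp only [m2_setReg_arr, m2_setReg_reg, if_true, hm7, hm5, p3]
    rw [s9]
    set m9 := ((m7.setReg 5 H).setReg 5 0).setReg 9 (Encodable.encode (pre y H)) with hm9
    have s10 : cG.run K y m9 = m9.setReg 1 (if Loc P y (m.arr 0) (m.reg 0) = true then 1 else 0) := by
      rw [runG K y m9 (fun r h1 h2 => by
          simp only [hm9, hm7, m2_setReg_reg]
          rw [if_neg (by omega), if_neg (by omega), if_neg (by omega), if_neg (by omega),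
            if_neg (by omega), if_neg (by omega)]
          exact z5 r (by omega) (by omega)) (by simp [hm9, hm7, z5])]
      congr 1
      unfold m2G Loc
      simp [hm9, hm7, z50]
      rfl
    rw [s10]
    refine ⟨fun r hr => ?_, ?_, ?_, fun a ha => ?_⟩
    · simp only [hm9, hm7, m2_setReg_reg]
      split_ifs <;> first | rfl | omega | exact z5 r (by omega) (by omega)
    · simp [hm9, hm7, z50]
    · simp
    · simp only [m2_setReg_arr, hm9, hm7, hm5]
      rw [a3 a ha]
      simp [hm2, hm1]

end Pool.Agent.HT
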