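import Pool.Agent.Helper85.HT.MachDefs

set_option autoImplicit false

/-!
# HT M3: block machines are simulated by Hamkins-Lewis machines
-/

namespace Pool.Agent.HT

open Ordinal

/-! ### runs -/

theorem m3_run_zero (p : Prog) (x : Cantor) : p.run x 0 = p.init x := by
  unfold Prog.run; exact Ordinal.limitRecOn_zero _ _ _

theorem m3_run_add_one (p : Prog) (x : Cantor) (o : Ordinal.{0}) :
    p.run x (o + 1) = p.step (p.run x o) := by
  unfold Prog.run; exact Ordinal.limitRecOn_add_one _ _ _ _

theorem m3_run_limit (p : Prog) (x : Cantor) {o : Ordinal.{0}} (ho : Order.IsSuccLimit o) :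
    p.run x o = p.limit o (fun a _ => p.run x a) := by
  unfold Prog.run
  rw [Ordinal.limitRecOn_limit _ _ _ _ ho]

theorem m3_run_add_nat (p : Prog) (x : Cantor) (o : Ordinal.{0}) (n : ℕ) :
    p.run x (o + n) = p.step^[n] (p.run x o) := by
  induction n with
  | zero => simp
  | succ n ih =>
    rw [Function.iterate_succ_apply', ← ih, ← m3_run_add_one, Nat.cast_succ, add_assoc]

theorem m3_brun_zero (B : BM) (y : Cantor) :
    B.run y 0 = { st := B.start, pos := 0, work := fun _ _ => false } := by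
  unfold BM.run; exact Ordinal.limitRecOn_zero _ _ _

theorem m3_brun_add_one (B : BM) (y : Cantor) (o : Ordinal.{0}) :
    B.run y (o + 1) = B.step y (B.run y o) := by
  unfold BM.run; exact Ordinal.limitRecOn_add_one _ _ _ _

theorem m3_brun_limit (B : BM) (y : Cantor) {o : Ordinal.{0}} (ho : Order.IsSuccLimit o) :
    B.run y o = { st := B.lim, pos := 0, work := fun n i => limsupBit o (fun a _ => (B.run y a).work n i) } := by
  unfold BM.run
  rw [Ordinal.limitRecOn_limit _ _ _ _ ho]

/-! ### the time map -/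

/-- the time map `b ↦ 1 + c * b` -/
noncomputable def m3_tau (c : ℕ) (b : Ordinal.{0}) : Ordinal.{0} := 1 + (c : Ordinal.{0}) * b

theorem m3_tau_zero (c : ℕ) : m3_tau c 0 = 1 := by simp [m3_tau]

theorem m3_tau_succ (c : ℕ) (b : Ordinal.{0}) : m3_tau c (b + 1) = m3_tau c b + (c : Ordinal.{0}) := by
  simp [m3_tau, mul_add, add_assoc]

theorem m3_tau_normal (c : ℕ) (hc : 0 < c) : Order.IsNormal (m3_tau c) := by
  have h1 : Order.IsNormal (fun b : Ordinal.{0} => (c : Ordinal.{0}) * b) :=
    Ordinal.isNormal_mul_right (by exact_mod_cast hc)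
  exact (Ordinal.isNormal_add_right 1).comp h1

theorem m3_tau_cover (c : ℕ) (hc : 0 < c) (t : Ordinal.{0}) (ht : 1 ≤ t) :
    ∃ (b : Ordinal.{0}) (s : ℕ), s < c ∧ t = m3_tau c b + s := by
  have hc' : (c : Ordinal.{0}) ≠ 0 := by exact_mod_cast hc.ne'
  refine ⟨(t - 1) / c, ?_⟩
  have h1 : (t - 1) % (c : Ordinal.{0}) < c := Ordinal.mod_lt _ hc'
  obtain ⟨s, hs⟩ := Ordinal.lt_omega0.1 (h1.trans (Ordinal.natCast_lt_omega0 c))
  refine ⟨s, ?_, ?_⟩
  · rw [hs] at h1; exact_mod_cast h1
  · unfold m3_tau
    rw [← hs, add_assoc, Ordinal.div_add_mod, Ordinal.add_sub_cancel_of_le ht]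

theorem m3_limsup (c : ℕ) (hc : 0 < c) {o : Ordinal.{0}} (ho : Order.IsSuccLimit o)
    (f g : Ordinal.{0} → Bool)
    (h : ∀ (b : Ordinal.{0}) (s : ℕ), b < o → s < c →
      f (m3_tau c b + s) = g b ∨ f (m3_tau c b + s) = g (b + 1))
    (h1 : ∀ b, b < o → f (m3_tau c b) = g b) :
    limsupBit (m3_tau c o) (fun a _ => f a) = limsupBit o (fun a _ => g a) := by
  have hn := m3_tau_normal c hc
  unfold limsupBit
  rw [decide_eq_decide]
  constructor
  · intro H a ha
    obtain ⟨t, ht, hat, hft⟩ := H (m3_tau c a) (hn.strictMono ha)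
    have ht1 : 1 ≤ t := le_trans (by simp [m3_tau]) hat
    obtain ⟨b, s, hs, rfl⟩ := m3_tau_cover c hc t ht1
    have hbo : b < o := by
      by_contra hcon
      exact absurd ht (not_lt.2 ((hn.monotone (not_lt.1 hcon)).trans (by simp)))
    have hab : a ≤ b := by
      by_contra hcon
      have h2 : b + 1 ≤ a := Order.add_one_le_of_lt (not_le.1 hcon)
      have h3 := hn.monotone h2
      rw [m3_tau_succ] at h3
      have h4 : m3_tau c b + (s : Ordinal.{0}) < m3_tau c b + (c : Ordinal.{0}) := by
        rw [add_lt_add_iff_left]; exact_mod_cast hs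
      exact absurd (h3.trans hat) (not_le.2 h4)
    rcases h b s hbo hs with h5 | h5
    · exact ⟨b, hbo, hab, h5.symm.trans hft⟩
    · exact ⟨b + 1, ho.add_one_lt hbo, hab.trans (by simp), h5.symm.trans hft⟩
  · intro H a ha
    obtain ⟨a', ha', haa⟩ := (hn.lt_iff_exists_lt ho).1 ha
    obtain ⟨b, hb, hab, hg⟩ := H a' ha'
    exact ⟨m3_tau c b, hn.strictMono hb, haa.le.trans (hn.monotone hab), (h1 b hb).trans hg⟩

/-! ### reachability with a property of the intermediate configurations -/

/-- `n` steps of `f` lead from `c` to `c'`, all earlier configurations satisfy `P` -/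
def M3Reach {α : Type} (f : α → α) (P : α → Prop) (c c' : α) (n : ℕ) : Prop :=
  f^[n] c = c' ∧ ∀ t, t < n → P (f^[t] c)

theorem M3Reach.trans {α : Type} {f : α → α} {P : α → Prop} {c c' c'' : α} {n m : ℕ}
    (h : M3Reach f P c c' n) (h' : M3Reach f P c' c'' m) : M3Reach f P c c'' (n + m) := by
  refine ⟨?_, fun t ht => ?_⟩
  · rw [add_comm, Function.iterate_add_apply, h.1, h'.1]
  · by_cases h1 : t < n
    · exact h.2 t h1
    · obtain ⟨k, rfl⟩ := Nat.exists_eq_add_of_le (not_lt.1 h1)
      rw [add_comm, Function.iterate_add_apply, h.1]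
      exact h'.2 k (by omega)

theorem M3Reach.iter {α : Type} {f : α → α} {P : α → Prop} (g : ℕ → α) (n : ℕ)
    (h : ∀ i, i < n → f (g i) = g (i + 1)) (h' : ∀ i, i < n → P (g i)) :
    M3Reach f P (g 0) (g n) n := by
  have key : ∀ i, i ≤ n → f^[i] (g 0) = g i := by
    intro i
    induction i with
    | zero => intro _; rfl
    | succ i ih =>
      intro hi
      rw [Function.iterate_succ_apply', ih (by omega), h i (by omega)]
  exact ⟨key n le_rfl, fun t ht => by rw [key t ht.le]; exact h' t ht⟩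

/-! ### the simulating machine -/

/-- states of the simulating machine -/
inductive M3Q (Q : Type) (K : ℕ) : Type
  | start : M3Q Q K
  | halt : M3Q Q K
  | rd (q : Q) (l : Bool) (i : Fin (K + 1)) (b0 b1 : Fin K → Bool) : M3Q Q K
  | wr (q : Q) (blk : Fin K → Bool) (d : Bool) (i : Fin (K + 1)) : M3Q Q K
  | mv (q : Q) (d : Bool) (i : Fin (K + 1)) : M3Q Q K
  | kill (i : Fin (K + 1)) : M3Q Q K

theorem m3_finite (Q : Type) (K : ℕ) [Finite Q] : Finite (M3Q Q K) := by
  let F : Option (Option ((Q × Bool × Fin (K + 1) × (Fin K → Bool) × (Fin K → Bool)) ⊕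
      (Q × (Fin K → Bool) × Bool × Fin (K + 1)) ⊕ (Q × Bool × Fin (K + 1)) ⊕ Fin (K + 1))) → M3Q Q K :=
    fun x => match x with
      | none => .start
      | some none => .halt
      | some (some (Sum.inl (q, l, i, b0, b1))) => .rd q l i b0 b1
      | some (some (Sum.inr (Sum.inl (q, blk, d, i)))) => .wr q blk d i
      | some (some (Sum.inr (Sum.inr (Sum.inl (q, d, i))))) => .mv q d i
      | some (some (Sum.inr (Sum.inr (Sum.inr i)))) => .kill i
  refine Finite.of_surjective F ?_
  intro x
  cases x with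
  | start => exact ⟨none, rfl⟩
  | halt => exact ⟨some none, rfl⟩
  | rd q l i b0 b1 => exact ⟨some (some (Sum.inl (q, l, i, b0, b1))), rfl⟩
  | wr q blk d i => exact ⟨some (some (Sum.inr (Sum.inl (q, blk, d, i)))), rfl⟩
  | mv q d i => exact ⟨some (some (Sum.inr (Sum.inr (Sum.inl (q, d, i))))), rfl⟩
  | kill i => exact ⟨some (some (Sum.inr (Sum.inr (Sum.inr i)))), rfl⟩

/-- index in `Fin (K + 1)` -/
def m3_ix (K i : ℕ) : Fin (K + 1) := Fin.ofNat (K + 1) i

theorem m3_ix_val {K i : ℕ} (h : i ≤ K) : (m3_ix K i : ℕ) = i := by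
  simp [m3_ix, Fin.ofNat, Nat.mod_eq_of_lt (Nat.lt_succ_of_le h)]

/-- the bit number `i` of a block -/
def m3_bit {K : ℕ} (blk : Fin K → Bool) (i : ℕ) : Bool := if h : i < K then blk ⟨i, h⟩ else false

/-- the state `rd` at the beginning of a block -/
def m3_rd0 {Q : Type} {K : ℕ} (q : Q) (l : Bool) : M3Q Q K :=
  .rd q l (m3_ix K 0) (fun _ => false) (fun _ => false)

/-- `i` more moves -/
def m3_nx {Q : Type} {K : ℕ} (q : Q) (d : Bool) (i : ℕ) : M3Q Q K :=
  if i = 0 then m3_rd0 q false else .mv q d (m3_ix K i)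

/-- transition table -/
def m3_delta (B : BM) : M3Q B.Q B.K → (Fin 3 → Bool) → M3Q B.Q B.K × (Fin 3 → Bool) × Bool
  | .start, bits => (m3_rd0 B.start false, ![bits 0, bits 1, true], false)
  | .halt, bits => (.halt, bits, false)
  | .rd q l i b0 b1, bits =>
    if (i : ℕ) < B.K then
      (.rd q l (m3_ix B.K (i + 1)) (fun k => if (k : ℕ) = i then bits 0 else b0 k)
        (fun k => if (k : ℕ) = i then bits 1 else b1 k), bits, true)
    else if (l && B.rej b1) = true then (.kill (m3_ix B.K (B.K - 1)), bits, false)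
    else (.wr (B.δ q b0 b1).1 (B.δ q b0 b1).2.1 (B.δ q b0 b1).2.2 (m3_ix B.K B.K), bits, false)
  | .wr q blk d i, bits =>
    (if (i : ℕ) ≤ 1 then m3_nx q d (B.K - 1) else .wr q blk d (m3_ix B.K (i - 1)),
      ![bits 0, m3_bit blk (i - 1), bits 2], if (i : ℕ) ≤ 1 then d else false)
  | .mv q d i, bits => (m3_nx q d (i - 1), bits, d)
  | .kill i, bits =>
    if (i : ℕ) = 0 then (.halt, ![bits 0, bits 1, false], false)
    else (.kill (m3_ix B.K (i - 1)), bits, false)

/-- the simulating machine -/
def m3_prog (B : BM) : Prog where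
  Q := M3Q B.Q B.K
  fin := by have := B.fin; exact m3_finite B.Q B.K
  start := .start
  lim := m3_rd0 B.lim true
  halt := .halt
  δ := m3_delta B

/-- the three tapes -/
def m3_tape (y W O : ℕ → Bool) : Fin 3 → ℕ → Bool := ![y, W, O]

/-- move -/
def m3_move (d : Bool) (n : ℕ) : ℕ := if d then n + 1 else n - 1

theorem m3_step_gen (p : Prog) (s s' : p.Q) (n : ℕ) (T : Fin 3 → ℕ → Bool) (v : Fin 3 → Bool)
    (d : Bool) (hs : s ≠ p.halt) (h : p.δ s (fun i => T i n) = (s', v, d)) :
    p.step ⟨s, n, T⟩ = ⟨s', m3_move d n, fun i j => if j = n then v i else T i j⟩ := by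
  unfold Prog.step
  rw [if_neg hs]
  simp only [h]
  rfl

/-- configurations of the machine -/
def m3_cfg (B : BM) (s : M3Q B.Q B.K) (n : ℕ) (y W O : ℕ → Bool) : Cfg (m3_prog B).Q :=
  ⟨s, n, m3_tape y W O⟩

theorem m3_step_same (B : BM) (s s' : M3Q B.Q B.K) (n : ℕ) (y W O : ℕ → Bool) (d : Bool)
    (hs : s ≠ .halt)
    (h : ∀ bits, bits 0 = y n → bits 1 = W n → m3_delta B s bits = (s', bits, d)) :
    (m3_prog B).step (m3_cfg B s n y W O) = m3_cfg B s' (m3_move d n) y W O := by
  refine (m3_step_gen (m3_prog B) s s' n (m3_tape y W O) _ d hs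
    (h (fun i => m3_tape y W O i n) rfl rfl)).trans ?_
  unfold m3_cfg
  congr 1
  funext i j
  by_cases hj : j = n
  · simp [hj]
  · simp [hj]

theorem m3_step_work (B : BM) (s s' : M3Q B.Q B.K) (n : ℕ) (y W O : ℕ → Bool) (d v : Bool)
    (hs : s ≠ .halt) (h : ∀ bits, m3_delta B s bits = (s', ![bits 0, v, bits 2], d)) :
    (m3_prog B).step (m3_cfg B s n y W O) =
      m3_cfg B s' (m3_move d n) y (fun j => if j = n then v else W j) O := by
  refine (m3_step_gen (m3_prog B) s s' n (m3_tape y W O) _ d hs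
    (h (fun i => m3_tape y W O i n))).trans ?_
  unfold m3_cfg
  congr 1
  funext i j
  by_cases hj : j = n
  · subst hj
    fin_cases i <;> simp [m3_tape]
  · fin_cases i <;> simp [m3_tape, hj]

theorem m3_step_out (B : BM) (s s' : M3Q B.Q B.K) (n : ℕ) (y W O : ℕ → Bool) (d v : Bool)
    (hs : s ≠ .halt) (h : ∀ bits, m3_delta B s bits = (s', ![bits 0, bits 1, v], d)) :
    (m3_prog B).step (m3_cfg B s n y W O) =
      m3_cfg B s' (m3_move d n) y W (fun j => if j = n then v else O j) := by
  refine (m3_step_gen (m3_prog B) s s' n (m3_tape y W O) _ d hs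
    (h (fun i => m3_tape y W O i n))).trans ?_
  unfold m3_cfg
  congr 1
  funext i j
  by_cases hj : j = n
  · subst hj
    fin_cases i <;> simp [m3_tape]
  · fin_cases i <;> simp [m3_tape, hj]

/-! ### simulation of one step -/

/-- the contents of tape 1 -/
def m3_W (B : BM) (w : ℕ → Fin B.K → Bool) : ℕ → Bool :=
  fun j => w (j / B.K) ⟨j % B.K, Nat.mod_lt _ (by have := B.hK; omega)⟩

/-- the contents of tape 2 -/
def m3_O : ℕ → Bool := fun j => decide (j = 0)

/-- the configuration of the machine which represents the configuration `C` of the block machine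
(`l` : limit mark) -/
def m3_conf (B : BM) (y : Cantor) (C : BCfg B.K B.Q) (l : Bool) : Cfg (m3_prog B).Q :=
  m3_cfg B (m3_rd0 C.st l) (B.K * C.pos) y (m3_W B C.work) m3_O

/-- the configurations between `C` and `C'` -/
def M3Mid (B : BM) (y : Cantor) (C C' : BCfg B.K B.Q) (c : Cfg (m3_prog B).Q) : Prop :=
  c.st ≠ (m3_prog B).halt ∧ c.tape 0 = y ∧ c.tape 2 = m3_O ∧
    ∀ j, c.tape 1 j = m3_W B C.work j ∨ c.tape 1 j = m3_W B C'.work j

theorem m3_reach_rd (B : BM) (y : Cantor) (C : BCfg B.K B.Q) (l : Bool) (P : Cfg (m3_prog B).Q → Prop)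
    (hP : ∀ s n, s ≠ .halt → P (m3_cfg B s n y (m3_W B C.work) m3_O)) :
    M3Reach (m3_prog B).step P (m3_conf B y C l)
      (m3_cfg B (.rd C.st l (m3_ix B.K B.K) (inBlock B.K y C.pos) (C.work C.pos))
        (B.K * C.pos + B.K) y (m3_W B C.work) m3_O) B.K := by
  let g : ℕ → Cfg (m3_prog B).Q := fun i =>
    m3_cfg B (.rd C.st l (m3_ix B.K i) (fun k => if (k : ℕ) < i then inBlock B.K y C.pos k else false)
      (fun k => if (k : ℕ) < i then C.work C.pos k else false)) (B.K * C.pos + i) y (m3_W B C.work) m3_O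
  have h0 : g 0 = m3_conf B y C l := by
    simp [g, m3_conf, m3_rd0]
  have h1 : g B.K = m3_cfg B (.rd C.st l (m3_ix B.K B.K) (inBlock B.K y C.pos) (C.work C.pos))
        (B.K * C.pos + B.K) y (m3_W B C.work) m3_O := by
    simp [g]
  have h2 := M3Reach.iter (f := (m3_prog B).step) (P := P) g B.K
    (fun i hi => by
      refine (m3_step_same B _ (.rd C.st l (m3_ix B.K (i + 1))
        (fun k => if (k : ℕ) < i + 1 then inBlock B.K y C.pos k else false)
        (fun k => if (k : ℕ) < i + 1 then C.work C.pos k else false)) _ _ _ _ true (by simp) ?_).trans ?_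
      · intro bits hb0 hb1
        have hi' : ((m3_ix B.K i : Fin (B.K + 1)) : ℕ) = i := m3_ix_val hi.le
        simp only [m3_delta, hi', hi, if_true]
        congr 1
        congr 1
        · funext k
          by_cases hk : (k : ℕ) = i
          · simp [hk, hb0, inBlock]
          · have : ((k : ℕ) < i + 1) ↔ (k : ℕ) < i := by omega
            simp [hk, this]
        · funext k
          by_cases hk : (k : ℕ) = i
          · have hq : (B.K * C.pos + i) / B.K = C.pos := by
              rw [Nat.mul_add_div (by omega), Nat.div_eq_of_lt hi, add_zero]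
            have hr : (B.K * C.pos + i) % B.K = i := by
              rw [Nat.mul_add_mod, Nat.mod_eq_of_lt hi]
            have : k = ⟨i, hi⟩ := Fin.ext hk
            subst this
            simp [hb1, m3_W, hq, hr]
          · have : ((k : ℕ) < i + 1) ↔ (k : ℕ) < i := by omega
            simp [hk, this]
      · simp [g, m3_move, add_assoc])
    (fun i _ => hP _ _ (by simp))
  rw [h0, h1] at h2
  exact h2

theorem m3_mid_cfg (B : BM) (y : Cantor) (C C' : BCfg B.K B.Q) (s : M3Q B.Q B.K) (n : ℕ)
    (W : ℕ → Bool) (hs : s ≠ .halt) (hW : ∀ j, W j = m3_W B C.work j ∨ W j = m3_W B C'.work j) :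
    M3Mid B y C C' (m3_cfg B s n y W m3_O) :=
  ⟨hs, rfl, rfl, hW⟩

theorem m3_nx_ne {Q : Type} {K : ℕ} (q : Q) (d : Bool) (i : ℕ) : (m3_nx q d i : M3Q Q K) ≠ .halt := by
  unfold m3_nx m3_rd0
  split_ifs <;> simp

theorem m3_move_iter (K : ℕ) (d : Bool) (n : ℕ) : (m3_move d)^[K] (K * n) = K * m3_move d n := by
  cases d with
  | true =>
    have h : ∀ i m, (m3_move true)^[i] m = m + i := by
      intro i
      induction i with
      | zero => intro m; rfl
      | succ i ih => intro m; rw [Function.iterate_succ_apply', ih]; simp [m3_move, add_assoc]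
    rw [h]; simp [m3_move, Nat.mul_add]
  | false =>
    have h : ∀ i m, (m3_move false)^[i] m = m - i := by
      intro i
      induction i with
      | zero => intro m; rfl
      | succ i ih => intro m; rw [Function.iterate_succ_apply', ih]; simp [m3_move, Nat.sub_sub]
    rw [h]; simp [m3_move, Nat.mul_sub]

/-- partially rewritten tape -/
def m3_part (B : BM) (w w' : ℕ → Fin B.K → Bool) (n m : ℕ) : ℕ → Bool :=
  fun j => if B.K * n + m ≤ j ∧ j < B.K * n + B.K then m3_W B w' j else m3_W B w j

theorem m3_part_or (B : BM) (w w' : ℕ → Fin B.K → Bool) (n m j : ℕ) :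
    m3_part B w w' n m j = m3_W B w j ∨ m3_part B w w' n m j = m3_W B w' j := by
  unfold m3_part
  split_ifs
  · exact Or.inr rfl
  · exact Or.inl rfl

theorem m3_part_succ (B : BM) (w : ℕ → Fin B.K → Bool) (blk : Fin B.K → Bool) (n m : ℕ)
    (hm : m < B.K) :
    (fun j => if j = B.K * n + m then m3_bit blk m else
      m3_part B w (fun k => if k = n then blk else w k) n (m + 1) j) =
      m3_part B w (fun k => if k = n then blk else w k) n m := by
  funext j
  by_cases hj : j = B.K * n + m
  · subst hj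
    have hq : (B.K * n + m) / B.K = n := by
      rw [Nat.mul_add_div (by omega), Nat.div_eq_of_lt hm, add_zero]
    have hr : (B.K * n + m) % B.K = m := by
      rw [Nat.mul_add_mod, Nat.mod_eq_of_lt hm]
    simp [m3_part, m3_W, hq, hr, m3_bit, hm]
  · have h1 : (B.K * n + (m + 1) ≤ j ∧ j < B.K * n + B.K) ↔ (B.K * n + m ≤ j ∧ j < B.K * n + B.K) := by
      omega
    simp only [if_neg hj, m3_part, h1]

theorem m3_part_zero (B : BM) (w : ℕ → Fin B.K → Bool) (blk : Fin B.K → Bool) (n : ℕ) :
    m3_part B w (fun k => if k = n then blk else w k) n 0 =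
      m3_W B (fun k => if k = n then blk else w k) := by
  funext j
  have hK : 0 < B.K := by have := B.hK; omega
  unfold m3_part
  split_ifs with h
  · rfl
  · have : j / B.K ≠ n := by
      intro h2
      apply h
      have h3 := Nat.div_add_mod j B.K
      have h4 := Nat.mod_lt j hK
      rw [h2] at h3
      omega
    simp [m3_W, this]

theorem m3_part_K (B : BM) (w w' : ℕ → Fin B.K → Bool) (n : ℕ) :
    m3_part B w w' n B.K = m3_W B w := by
  funext j
  unfold m3_part
  rw [if_neg (by omega)]

theorem m3_reach_wr (B : BM) (y : Cantor) (w : ℕ → Fin B.K → Bool) (n : ℕ) (q : B.Q)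
    (blk : Fin B.K → Bool) (d : Bool) (P : Cfg (m3_prog B).Q → Prop)
    (hP : ∀ s k m, s ≠ .halt →
      P (m3_cfg B s k y (m3_part B w (fun k => if k = n then blk else w k) n m) m3_O)) :
    M3Reach (m3_prog B).step P
      (m3_cfg B (.wr q blk d (m3_ix B.K B.K)) (B.K * n + (B.K - 1)) y (m3_W B w) m3_O)
      (m3_cfg B (m3_nx q d (B.K - 1)) (m3_move d (B.K * n)) y
        (m3_W B (fun k => if k = n then blk else w k)) m3_O) B.K := by
  have hK2 := B.hK
  let g : ℕ → Cfg (m3_prog B).Q := fun u =>
    m3_cfg B (.wr q blk d (m3_ix B.K (B.K - u))) (B.K * n + (B.K - 1 - u)) y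
      (m3_part B w (fun k => if k = n then blk else w k) n (B.K - u)) m3_O
  have h0 : g 0 = m3_cfg B (.wr q blk d (m3_ix B.K B.K)) (B.K * n + (B.K - 1)) y (m3_W B w) m3_O := by
    simp [g, m3_part_K]
  have h1 : g (B.K - 1) = m3_cfg B (.wr q blk d (m3_ix B.K 1)) (B.K * n) y
      (m3_part B w (fun k => if k = n then blk else w k) n 1) m3_O := by
    have : B.K - (B.K - 1) = 1 := by omega
    simp [g, this]
  have h2 := M3Reach.iter (f := (m3_prog B).step) (P := P) g (B.K - 1)
    (fun u hu => by
      have hv : ((m3_ix B.K (B.K - u) : Fin (B.K + 1)) : ℕ) = B.K - u := m3_ix_val (by omega)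
      have hnle : ¬ (B.K - u ≤ 1) := by omega
      refine (m3_step_work B _ (.wr q blk d (m3_ix B.K (B.K - (u + 1)))) _ _ _ _ false
        (m3_bit blk (B.K - 1 - u)) (by simp) ?_).trans ?_
      · intro bits
        have e1 : B.K - u - 1 = B.K - (u + 1) := by omega
        have e2 : B.K - (u + 1) = B.K - 1 - u := by omega
        simp only [m3_delta, hv, hnle, if_false, e1, e2]
      · have e3 : B.K - u = (B.K - 1 - u) + 1 := by omega
        have e4 : m3_move false (B.K * n + (B.K - 1 - u)) = B.K * n + (B.K - 1 - (u + 1)) := by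
          simp only [m3_move, Bool.false_eq_true, if_false]; omega
        have e5 : B.K - (u + 1) = B.K - 1 - u := by omega
        simp only [g]
        rw [e4, e3, m3_part_succ B w blk n (B.K - 1 - u) (by omega), e5])
    (fun u _ => hP _ _ _ (by simp))
  have h3 := M3Reach.iter (f := (m3_prog B).step) (P := P) (fun u => if u = 0 then g (B.K - 1) else
      (m3_cfg B (m3_nx q d (B.K - 1)) (m3_move d (B.K * n)) y
        (m3_W B (fun k => if k = n then blk else w k)) m3_O)) 1
    (fun u hu => by
      obtain rfl : u = 0 := by omega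
      simp only [if_true, zero_add, one_ne_zero, if_false]
      rw [h1]
      have hv : ((m3_ix B.K 1 : Fin (B.K + 1)) : ℕ) = 1 := m3_ix_val (by omega)
      refine (m3_step_work B _ (m3_nx q d (B.K - 1)) _ _ _ _ d (m3_bit blk 0) (by simp) ?_).trans ?_
      · intro bits
        simp only [m3_delta, hv, le_refl, if_true, Nat.sub_self]
      · have := m3_part_succ B w blk n 0 (by omega)
        rw [m3_part_zero] at this
        simp only [zero_add, add_zero] at this
        rw [this])
    (fun u hu => by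
      obtain rfl : u = 0 := by omega
      simp only [if_true]
      exact hP _ _ _ (by simp))
  simp only [if_true, one_ne_zero, if_false] at h3
  have h4 := h2.trans h3
  rw [h0, show B.K - 1 + 1 = B.K by omega] at h4
  exact h4

theorem m3_reach_mv (B : BM) (y : Cantor) (W : ℕ → Bool) (n : ℕ) (q : B.Q)
    (d : Bool) (P : Cfg (m3_prog B).Q → Prop)
    (hP : ∀ s k, s ≠ .halt → P (m3_cfg B s k y W m3_O)) :
    M3Reach (m3_prog B).step P
      (m3_cfg B (m3_nx q d (B.K - 1)) (m3_move d (B.K * n)) y W m3_O)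
      (m3_cfg B (m3_rd0 q false) (B.K * m3_move d n) y W m3_O) (B.K - 1) := by
  have hK2 := B.hK
  let g : ℕ → Cfg (m3_prog B).Q := fun j =>
    m3_cfg B (m3_nx q d (B.K - 1 - j)) ((m3_move d)^[j + 1] (B.K * n)) y W m3_O
  have h0 : g 0 = m3_cfg B (m3_nx q d (B.K - 1)) (m3_move d (B.K * n)) y W m3_O := by
    simp [g]
  have h1 : g (B.K - 1) = m3_cfg B (m3_rd0 q false) (B.K * m3_move d n) y W m3_O := by
    simp only [g, Nat.sub_self, show B.K - 1 + 1 = B.K by omega, m3_move_iter]
    simp [m3_nx]
  have h2 := M3Reach.iter (f := (m3_prog B).step) (P := P) g (B.K - 1)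
    (fun u hu => by
      have hv : ((m3_ix B.K (B.K - 1 - u) : Fin (B.K + 1)) : ℕ) = B.K - 1 - u := m3_ix_val (by omega)
      have e0 : (m3_nx q d (B.K - 1 - u) : M3Q B.Q B.K) = .mv q d (m3_ix B.K (B.K - 1 - u)) := by
        unfold m3_nx; rw [if_neg (by omega)]
      simp only [g]
      rw [e0]
      refine (m3_step_same B _ (m3_nx q d (B.K - 1 - (u + 1))) _ _ _ _ d (by simp) ?_).trans ?_
      · intro bits _ _
        simp only [m3_delta, hv]
        rw [show B.K - 1 - u - 1 = B.K - 1 - (u + 1) by omega]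
      · rw [Function.iterate_succ_apply' (m3_move d) (u + 1)])
    (fun u _ => hP _ _ (m3_nx_ne _ _ _))
  rw [h0, h1] at h2
  exact h2

theorem m3_sim_step (B : BM) (y : Cantor) (C : BCfg B.K B.Q) (l : Bool)
    (h : (l && B.rej (C.work C.pos)) = false) :
    M3Reach (m3_prog B).step (M3Mid B y C (B.step y C)) (m3_conf B y C l)
      (m3_conf B y (B.step y C) false) (3 * B.K) := by
  have hK2 := B.hK
  have a1 := m3_reach_rd B y C l (M3Mid B y C (B.step y C))
    (fun s n hs => m3_mid_cfg B y C _ s n _ hs (fun j => Or.inl rfl))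
  set o := B.δ C.st (inBlock B.K y C.pos) (C.work C.pos) with ho
  have a2 : M3Reach (m3_prog B).step (M3Mid B y C (B.step y C))
      (m3_cfg B (.rd C.st l (m3_ix B.K B.K) (inBlock B.K y C.pos) (C.work C.pos))
        (B.K * C.pos + B.K) y (m3_W B C.work) m3_O)
      (m3_cfg B (.wr o.1 o.2.1 o.2.2 (m3_ix B.K B.K)) (B.K * C.pos + (B.K - 1)) y (m3_W B C.work) m3_O)
      1 := by
    refine ⟨?_, fun t ht => ?_⟩
    · have hv : ((m3_ix B.K B.K : Fin (B.K + 1)) : ℕ) = B.K := m3_ix_val le_rfl
      rw [Function.iterate_one]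
      refine (m3_step_same B _ (.wr o.1 o.2.1 o.2.2 (m3_ix B.K B.K)) _ _ _ _ false (by simp) ?_).trans ?_
      · intro bits _ _
        simp only [m3_delta, hv, lt_irrefl, if_false, h, Bool.false_eq_true]
        rfl
      · have : m3_move false (B.K * C.pos + B.K) = B.K * C.pos + (B.K - 1) := by
          simp only [m3_move, Bool.false_eq_true, if_false]; omega
        rw [this]
    · obtain rfl : t = 0 := by omega
      exact m3_mid_cfg B y C _ _ _ _ (by simp) (fun j => Or.inl rfl)
  have a3 := m3_reach_wr B y C.work C.pos o.1 o.2.1 o.2.2 (M3Mid B y C (B.step y C))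
    (fun s k m hs => m3_mid_cfg B y C _ s k _ hs (fun j => m3_part_or B _ _ _ _ j))
  have a4 := m3_reach_mv B y (m3_W B (fun k => if k = C.pos then o.2.1 else C.work k)) C.pos o.1 o.2.2
    (M3Mid B y C (B.step y C)) (fun s k hs => m3_mid_cfg B y C _ s k _ hs (fun j => Or.inr rfl))
  have a5 := ((a1.trans a2).trans a3).trans a4
  rw [show B.K + 1 + B.K + (B.K - 1) = 3 * B.K by omega] at a5
  exact a5

/-- the kill phase -/
theorem m3_sim_kill (B : BM) (y : Cantor) (C : BCfg B.K B.Q) (hpos : C.pos = 0)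
    (h : B.rej (C.work 0) = true) :
    ∃ (n : ℕ) (O : ℕ → Bool), O 0 = false ∧
      (m3_prog B).step^[n] (m3_conf B y C true) = m3_cfg B .halt 0 y (m3_W B C.work) O := by
  have hK2 := B.hK
  have a1 := (m3_reach_rd B y C true (fun _ => True) (fun _ _ _ => trivial)).1
  have hv : ((m3_ix B.K B.K : Fin (B.K + 1)) : ℕ) = B.K := m3_ix_val le_rfl
  have a2 : (m3_prog B).step
      (m3_cfg B (.rd C.st true (m3_ix B.K B.K) (inBlock B.K y C.pos) (C.work C.pos))
        (B.K * C.pos + B.K) y (m3_W B C.work) m3_O) =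
      m3_cfg B (.kill (m3_ix B.K (B.K - 1))) (B.K - 1) y (m3_W B C.work) m3_O := by
    refine (m3_step_same B _ (.kill (m3_ix B.K (B.K - 1))) _ _ _ _ false (by simp) ?_).trans ?_
    · intro bits _ _
      simp only [m3_delta, hv, lt_irrefl, if_false, hpos, h, Bool.true_and, if_true]
    · have : m3_move false (B.K * C.pos + B.K) = B.K - 1 := by
        simp only [m3_move, Bool.false_eq_true, if_false, hpos]; omega
      rw [this]
  have a3 : ∀ i, i ≤ B.K - 1 → (m3_prog B).step^[i]
      (m3_cfg B (.kill (m3_ix B.K (B.K - 1))) (B.K - 1) y (m3_W B C.work) m3_O) =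
      m3_cfg B (.kill (m3_ix B.K (B.K - 1 - i))) (B.K - 1 - i) y (m3_W B C.work) m3_O := by
    intro i
    induction i with
    | zero => intro _; rfl
    | succ i ih =>
      intro hi
      rw [Function.iterate_succ_apply', ih (by omega)]
      have hv' : ((m3_ix B.K (B.K - 1 - i) : Fin (B.K + 1)) : ℕ) = B.K - 1 - i := m3_ix_val (by omega)
      refine (m3_step_same B _ (.kill (m3_ix B.K (B.K - 1 - (i + 1)))) _ _ _ _ false (by simp) ?_).trans ?_
      · intro bits _ _
        have hne : ¬ (B.K - 1 - i = 0) := by omega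
        simp only [m3_delta, hv', hne, if_false]
        rw [show B.K - 1 - i - 1 = B.K - 1 - (i + 1) by omega]
      · have : m3_move false (B.K - 1 - i) = B.K - 1 - (i + 1) := by
          simp only [m3_move, Bool.false_eq_true, if_false]; omega
        rw [this]
  have a4 : (m3_prog B).step
      (m3_cfg B (.kill (m3_ix B.K 0)) 0 y (m3_W B C.work) m3_O) =
      m3_cfg B .halt 0 y (m3_W B C.work) (fun j => if j = 0 then false else m3_O j) := by
    refine (m3_step_out B _ .halt _ _ _ _ false false (by simp) ?_).trans ?_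
    · intro bits
      have hv0 : ((m3_ix B.K 0 : Fin (B.K + 1)) : ℕ) = 0 := m3_ix_val (by omega)
      simp only [m3_delta, hv0, if_true]
    · rfl
  refine ⟨1 + (B.K - 1) + 1 + B.K, fun j => if j = 0 then false else m3_O j, by simp, ?_⟩
  rw [Function.iterate_add_apply, a1, Function.iterate_add_apply, Function.iterate_one, a2,
    Function.iterate_add_apply, a3 (B.K - 1) le_rfl, Function.iterate_one, Nat.sub_self, a4]

open Classical in
theorem m3_limsup_const {o : Ordinal.{0}} (f : ∀ a : Ordinal.{0}, a < o → Bool) (v : Bool)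
    (a0 : Ordinal.{0}) (h0 : a0 < o) (h : ∀ a (ha : a < o), a0 ≤ a → f a ha = v) :
    limsupBit o f = v := by
  unfold limsupBit
  cases v with
  | true =>
    rw [decide_eq_true_iff]
    intro c hc
    exact ⟨max a0 c, max_lt h0 hc, le_max_right _ _, h _ _ (le_max_left _ _)⟩
  | false =>
    rw [decide_eq_false_iff_not]
    intro H
    obtain ⟨c, hc, hac, hcc⟩ := H a0 h0
    rw [h c hc hac] at hcc
    exact Bool.noConfusion hcc

open Classical in
/-- after halting nothing changes -/
theorem m3_frozen (p : Prog) (x : Cantor) (a : Ordinal.{0}) (h : (p.run x a).st = p.halt)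
    (b : Ordinal.{0}) (hab : a ≤ b) :
    (p.run x b).st = p.halt ∧ (p.run x b).tape = (p.run x a).tape := by
  induction b using Ordinal.limitRecOn with
  | zero =>
    have : a = 0 := le_antisymm hab (by simp)
    subst this
    exact ⟨h, rfl⟩
  | add_one b ih =>
    rcases hab.lt_or_eq with h1 | h1
    · have h2 := ih (Order.lt_add_one_iff.1 h1)
      rw [m3_run_add_one]
      have : p.step (p.run x b) = p.run x b := by
        unfold Prog.step; rw [if_pos h2.1]
      rw [this]; exact h2
    · subst h1; exact ⟨h, rfl⟩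
  | limit b hb ih =>
    rcases hab.lt_or_eq with h1 | h1
    · rw [m3_run_limit p x hb]
      refine ⟨?_, ?_⟩
      · show (if ∃ a, ∃ ha : a < b, (p.run x a).st = p.halt then p.halt else p.lim) = p.halt
        rw [if_pos ⟨a, h1, h⟩]
      · funext i j
        exact m3_limsup_const (fun c _ => (p.run x c).tape i j) _ a h1
          (fun c hc hac => by rw [(ih c hc hac).2])
    · subst h1; exact ⟨h, rfl⟩

open Classical in
theorem m3_main (B : BM) (y : Cantor) (b : Ordinal.{0})
    (hb : ∀ b', b' < b → Order.IsSuccLimit b' → B.rej ((B.run y b').work 0) = false) :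
    (m3_prog B).run y (m3_tau (3 * B.K) b) =
      m3_conf B y (B.run y b) (decide (Order.IsSuccLimit b)) := by
  have hK2 := B.hK
  have hc : 0 < 3 * B.K := by omega
  have hn := m3_tau_normal (3 * B.K) hc
  induction b using WellFoundedLT.induction with
  | ind b ih =>
  -- the stages in between
  have mid : ∀ (b' : Ordinal.{0}) (s : ℕ), b' < b → s < 3 * B.K →
      M3Mid B y (B.run y b') (B.run y (b' + 1)) ((m3_prog B).run y (m3_tau (3 * B.K) b' + s)) := by
    intro b' s hb' hs
    rw [m3_run_add_nat, ih b' hb' (fun b'' h1 h2 => hb b'' (h1.trans hb') h2), m3_brun_add_one]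
    refine (m3_sim_step B y (B.run y b') _ ?_).2 s hs
    by_cases hl : Order.IsSuccLimit b'
    · have hp : (B.run y b').pos = 0 := by rw [m3_brun_limit B y hl]
      rw [hp, hb b' hb' hl]; simp
    · simp [hl]
  rcases Ordinal.zero_or_succ_or_isSuccLimit b with h0 | ⟨b', h1⟩ | hlim
  · subst h0
    have e0 : m3_tau (3 * B.K) 0 = 0 + 1 := by rw [m3_tau_zero, zero_add]
    have e1 : (m3_prog B).init y = m3_cfg B .start 0 y (fun _ => false) (fun _ => false) := by
      unfold Prog.init m3_cfg
      congr 1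
      funext i j
      fin_cases i <;> simp [m3_tape]
    rw [e0, m3_run_add_one, m3_run_zero, e1, m3_brun_zero]
    refine (m3_step_out B _ (m3_rd0 B.start false) _ _ _ _ false true (by simp) ?_).trans ?_
    · intro bits
      rfl
    · unfold m3_conf
      have : decide (Order.IsSuccLimit (0 : Ordinal.{0})) = false := by simp
      rw [this]
      congr 1
  · rw [Order.succ_eq_add_one] at h1
    subst h1
    have hlt : b' < b' + 1 := Order.lt_add_one_iff.2 le_rfl
    rw [m3_tau_succ, m3_run_add_nat, ih b' hlt (fun b'' h1 h2 => hb b'' (h1.trans hlt) h2),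
      m3_brun_add_one]
    have : decide (Order.IsSuccLimit (b' + 1)) = false := by
      simp
    rw [this]
    refine (m3_sim_step B y (B.run y b') _ ?_).1
    by_cases hl : Order.IsSuccLimit b'
    · have hp : (B.run y b').pos = 0 := by rw [m3_brun_limit B y hl]
      rw [hp, hb b' hlt hl]; simp
    · simp [hl]
  · have htl : Order.IsSuccLimit (m3_tau (3 * B.K) b) := hn.map_isSuccLimit hlim
    -- all stages before
    have all : ∀ t, t < m3_tau (3 * B.K) b → t = 0 ∨ ∃ (b' : Ordinal.{0}) (s : ℕ), b' < b ∧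
        s < 3 * B.K ∧ t = m3_tau (3 * B.K) b' + s := by
      intro t ht
      by_cases h0 : t = 0
      · exact Or.inl h0
      · right
        obtain ⟨b', s, hs, rfl⟩ := m3_tau_cover (3 * B.K) hc t (Order.one_le_iff_pos.2 (pos_iff_ne_zero.2 h0))
        refine ⟨b', s, ?_, hs, rfl⟩
        by_contra hcon
        exact absurd ht (not_lt.2 ((hn.monotone (not_lt.1 hcon)).trans (by simp)))
    have hz : (m3_prog B).run y 0 = (m3_prog B).init y := m3_run_zero _ _
    rw [m3_run_limit _ y htl, m3_brun_limit B y hlim]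
    have hd : decide (Order.IsSuccLimit b) = true := by simp [hlim]
    rw [hd]
    have hst : ¬ ∃ a, ∃ _ : a < m3_tau (3 * B.K) b, ((m3_prog B).run y a).st = (m3_prog B).halt := by
      rintro ⟨a, ha, hh⟩
      rcases all a ha with rfl | ⟨b', s, hb', hs, rfl⟩
      · rw [hz] at hh
        exact (show (M3Q.start : M3Q B.Q B.K) ≠ M3Q.halt by simp) hh
      · exact (mid b' s hb' hs).1 hh
    have h1o : (1 : Ordinal.{0}) < m3_tau (3 * B.K) b := by
      rw [← m3_tau_zero (3 * B.K)]; exact hn.strictMono hlim.bot_lt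
    unfold Prog.limit m3_conf m3_cfg
    rw [if_neg hst]
    congr 1
    funext i j
    fin_cases i
    · refine m3_limsup_const _ _ 0 (zero_lt_one.trans h1o) (fun a ha _ => ?_)
      show ((m3_prog B).run y a).tape 0 j = y j
      rcases all a ha with rfl | ⟨b', s, hb', hs, rfl⟩
      · rw [hz]; rfl
      · rw [(mid b' s hb' hs).2.1]
    · refine (m3_limsup (3 * B.K) hc hlim (fun a => ((m3_prog B).run y a).tape 1 j)
        (fun a => m3_W B (B.run y a).work j) (fun b' s hb' hs => (mid b' s hb' hs).2.2.2 j) ?_).trans ?_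
      · intro b' hb'
        show ((m3_prog B).run y (m3_tau (3 * B.K) b')).tape 1 j = _
        rw [ih b' hb' (fun b'' h1 h2 => hb b'' (h1.trans hb') h2)]
        rfl
      · rfl
    · refine m3_limsup_const _ _ 1 h1o (fun a ha h1a => ?_)
      show ((m3_prog B).run y a).tape 2 j = m3_O j
      rcases all a ha with rfl | ⟨b', s, hb', hs, rfl⟩
      · exact absurd h1a (by simp)
      · rw [(mid b' s hb' hs).2.2.1]

open Classical in
theorem bm_prog (B : BM) : ∃ p : Prog, ∀ y : Cantor,
    ((∀ b : Ordinal.{0}, Order.IsSuccLimit b → B.rej ((B.run y b).work 0) = false) →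
      p.EvOne y ∧ ¬ p.Halts y) ∧
    ((∃ b : Ordinal.{0}, Order.IsSuccLimit b ∧ B.rej ((B.run y b).work 0) = true) →
      ¬ p.EvOne y ∧ p.Halts y) := by
  have hK2 := B.hK
  have hc : 0 < 3 * B.K := by omega
  refine ⟨m3_prog B, fun y => ⟨fun h => ?_, fun h => ?_⟩⟩
  · have main := fun b => m3_main B y b (fun b' _ hl => h b' hl)
    have mid : ∀ (b' : Ordinal.{0}) (s : ℕ), s < 3 * B.K →
        M3Mid B y (B.run y b') (B.run y (b' + 1)) ((m3_prog B).run y (m3_tau (3 * B.K) b' + s)) := by
      intro b' s hs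
      rw [m3_run_add_nat, main b', m3_brun_add_one]
      refine (m3_sim_step B y (B.run y b') _ ?_).2 s hs
      by_cases hl : Order.IsSuccLimit b'
      · have hp : (B.run y b').pos = 0 := by rw [m3_brun_limit B y hl]
        rw [hp, h b' hl]; simp
      · simp [hl]
    refine ⟨⟨1, fun t ht => ?_⟩, ?_⟩
    · obtain ⟨b, s, hs, rfl⟩ := m3_tau_cover (3 * B.K) hc t ht
      rw [(mid b s hs).2.2.1]
      rfl
    · rintro ⟨t, ht⟩
      by_cases h0 : t = 0
      · subst h0
        rw [m3_run_zero] at ht
        exact (show (M3Q.start : M3Q B.Q B.K) ≠ M3Q.halt by simp) ht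
      · obtain ⟨b, s, hs, rfl⟩ := m3_tau_cover (3 * B.K) hc t
          (Order.one_le_iff_pos.2 (pos_iff_ne_zero.2 h0))
        exact (mid b s hs).1 ht
  · -- the least rejecting limit
    obtain ⟨b, ⟨hl, hr⟩, hmin⟩ := WellFounded.has_min (wellFounded_lt (α := Ordinal.{0}))
      {b | Order.IsSuccLimit b ∧ B.rej ((B.run y b).work 0) = true} h
    have hb : ∀ b', b' < b → Order.IsSuccLimit b' → B.rej ((B.run y b').work 0) = false := by
      intro b' h1 h2
      by_contra h3
      exact hmin b' ⟨h2, by simpa using h3⟩ h1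
    have main := m3_main B y b hb
    have hd : decide (Order.IsSuccLimit b) = true := by simp [hl]
    have hp : (B.run y b).pos = 0 := by rw [m3_brun_limit B y hl]
    rw [hd] at main
    obtain ⟨n, O, hO, hn⟩ := m3_sim_kill B y (B.run y b) hp hr
    have h1 : (m3_prog B).run y (m3_tau (3 * B.K) b + n) =
        m3_cfg B .halt 0 y (m3_W B (B.run y b).work) O := by
      rw [m3_run_add_nat, main, hn]
    have hh : ((m3_prog B).run y (m3_tau (3 * B.K) b + n)).st = (m3_prog B).halt := by
      rw [h1]; rfl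
    refine ⟨?_, ⟨_, hh⟩⟩
    rintro ⟨a, ha⟩
    have h2 := ha (max a (m3_tau (3 * B.K) b + n)) (le_max_left _ _)
    rw [(m3_frozen (m3_prog B) y _ hh _ (le_max_right _ _)).2, h1] at h2
    have h3 : O 0 = true := h2
    rw [hO] at h3
    exact Bool.noConfusion h3

end Pool.Agent.HT
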