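import Pool.Agent.Helper85.HT.MachDefs

set_option autoImplicit false

/-!
# M4 : LOOP programs are executed by fragments of block machines

Fragments with several exits (`M4Frag`), their runs (`M4Run`), sequential composition and loops.
-/

namespace Pool.Agent.HT

/-! ### fragments with several exits -/

/-- a fragment with exits in `E` -/
structure M4Frag (K : ℕ) (E : Type) : Type 1 where
  Q : Type
  fin : Finite Q
  entry : Q
  δ : Q → (Fin K → Bool) → (Fin K → Bool) → (Q ⊕ E) × (Fin K → Bool) × Bool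

/-- change a block -/
def m4_upd {K : ℕ} (T : ℕ → Fin K → Bool) (p : ℕ) (b : Fin K → Bool) : ℕ → Fin K → Bool :=
  fun n => if n = p then b else T n

/-- move the head -/
def m4_mv (d : Bool) (p : ℕ) : ℕ := if d then p + 1 else p - 1

/-- a run from state `q`, position `p` and tape `T` to the exit `e`, with position `p'` and tape
`T'`; all tapes on the way satisfy `P`. -/
inductive M4Run {K : ℕ} {E : Type} (F : M4Frag K E) (y : Cantor)
    (P : (ℕ → Fin K → Bool) → Prop) :
    F.Q → ℕ → (ℕ → Fin K → Bool) → E → ℕ → (ℕ → Fin K → Bool) → Prop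
  | exit (q : F.Q) (p : ℕ) (T : ℕ → Fin K → Bool) (e : E) (b : Fin K → Bool) (d : Bool)
      (p' : ℕ) (T' : ℕ → Fin K → Bool) (hP : P T) (hP' : P T')
      (h : F.δ q (inBlock K y p) (T p) = (Sum.inr e, b, d)) (hp : p' = m4_mv d p)
      (hT : T' = m4_upd T p b) : M4Run F y P q p T e p' T'
  | cont (q q' : F.Q) (p : ℕ) (T : ℕ → Fin K → Bool) (e : E) (b : Fin K → Bool) (d : Bool)
      (p' p'' : ℕ) (T' T'' : ℕ → Fin K → Bool) (hP : P T)
      (h : F.δ q (inBlock K y p) (T p) = (Sum.inl q', b, d)) (hp : p' = m4_mv d p)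
      (hT : T' = m4_upd T p b)
      (hr : M4Run F y P q' p' T' e p'' T'') : M4Run F y P q p T e p'' T''

theorem M4Run.mono {K : ℕ} {E : Type} {F : M4Frag K E} {y : Cantor}
    {P P' : (ℕ → Fin K → Bool) → Prop} (hPP : ∀ T, P T → P' T)
    {q : F.Q} {p : ℕ} {T : ℕ → Fin K → Bool} {e : E} {p' : ℕ} {T' : ℕ → Fin K → Bool}
    (h : M4Run F y P q p T e p' T') : M4Run F y P' q p T e p' T' := by
  induction h with
  | exit q p T e b d p' T' hP hP' h hp hT =>
    exact .exit q p T e b d p' T' (hPP _ hP) (hPP _ hP') h hp hT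
  | cont q q' p T e b d p' p'' T' T'' hP h hp hT hr ih =>
    exact .cont q q' p T e b d p' p'' T' T'' (hPP _ hP) h hp hT ih

theorem M4Run.last {K : ℕ} {E : Type} {F : M4Frag K E} {y : Cantor}
    {P : (ℕ → Fin K → Bool) → Prop}
    {q : F.Q} {p : ℕ} {T : ℕ → Fin K → Bool} {e : E} {p' : ℕ} {T' : ℕ → Fin K → Bool}
    (h : M4Run F y P q p T e p' T') : P T' := by
  induction h with
  | exit q p T e b d p' T' hP hP' h hp hT => exact hP'
  | cont q q' p T e b d p' p'' T' T'' hP h hp hT hr ih => exact ih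

theorem M4Run.first {K : ℕ} {E : Type} {F : M4Frag K E} {y : Cantor}
    {P : (ℕ → Fin K → Bool) → Prop}
    {q : F.Q} {p : ℕ} {T : ℕ → Fin K → Bool} {e : E} {p' : ℕ} {T' : ℕ → Fin K → Bool}
    (h : M4Run F y P q p T e p' T') : P T := by
  cases h <;> assumption

/-! ### from fragments with one exit to `Frag` -/

/-- forget the exit label -/
def M4Frag.toFrag {K : ℕ} (F : M4Frag K Unit) : Frag K where
  Q := F.Q
  fin := F.fin
  entry := F.entry
  δ := fun q a b => ((F.δ q a b).1.elim some (fun _ => none), (F.δ q a b).2)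

theorem m4_toFrag_run {K : ℕ} {F : M4Frag K Unit} {y : Cantor}
    {P : (ℕ → Fin K → Bool) → Prop}
    {q : F.Q} {p : ℕ} {T : ℕ → Fin K → Bool} {e : Unit} {p' : ℕ} {T' : ℕ → Fin K → Bool}
    (h : M4Run F y P q p T e p' T') :
    ∃ n : ℕ, 0 < n ∧
      (F.toFrag.step y)^[n] { st := some q, pos := p, work := T } =
        { st := none, pos := p', work := T' } ∧
      ∀ t ≤ n, P ((F.toFrag.step y)^[t] { st := some q, pos := p, work := T }).work := by
  induction h with
  | exit q p T e b d p' T' hP hP' h hp hT =>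
    have hstep : F.toFrag.step y { st := some q, pos := p, work := T } =
        { st := none, pos := p', work := T' } := by
      simp only [Frag.step, M4Frag.toFrag, h, Sum.elim_inr, hp, hT, m4_mv]
      rfl
    refine ⟨1, one_pos, ?_, fun t ht => ?_⟩
    · rw [Function.iterate_one]; exact hstep
    · rcases Nat.le_one_iff_eq_zero_or_eq_one.1 ht with rfl | rfl
      · exact hP
      · rw [Function.iterate_one, hstep]; exact hP'
  | cont q q' p T e b d p' p'' T' T'' hP h hp hT hr ih =>
    have hstep : F.toFrag.step y { st := some q, pos := p, work := T } =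
        { st := some q', pos := p', work := T' } := by
      simp only [Frag.step, M4Frag.toFrag, h, Sum.elim_inl, hp, hT, m4_mv]
      rfl
    obtain ⟨n, hn, h1, h2⟩ := ih
    refine ⟨n + 1, Nat.succ_pos n, ?_, fun t ht => ?_⟩
    · rw [Function.iterate_succ_apply, hstep]; exact h1
    · rcases t with _ | t
      · exact hP
      · rw [Function.iterate_succ_apply, hstep]; exact h2 t (by omega)

/-! ### sequential composition -/

/-- after the exit `e` of `F` continue with `G e`. -/
def M4Frag.bind {K : ℕ} {E E' : Type} [Finite E] (F : M4Frag K E) (G : E → M4Frag K E') :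
    M4Frag K E' where
  Q := F.Q ⊕ (Σ e, (G e).Q)
  fin := by
    have := F.fin
    have : ∀ e, Finite (G e).Q := fun e => (G e).fin
    infer_instance
  entry := Sum.inl F.entry
  δ := fun q a b => match q with
    | Sum.inl q => ((F.δ q a b).1.elim (fun q' => Sum.inl (Sum.inl q'))
        (fun e => Sum.inl (Sum.inr ⟨e, (G e).entry⟩)), (F.δ q a b).2)
    | Sum.inr ⟨e, q⟩ => (((G e).δ q a b).1.elim (fun q' => Sum.inl (Sum.inr ⟨e, q'⟩))
        (fun e' => Sum.inr e'), ((G e).δ q a b).2)

theorem m4_bind_run₂ {K : ℕ} {E E' : Type} [Finite E] (F : M4Frag K E) (G : E → M4Frag K E')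
    {y : Cantor} {P : (ℕ → Fin K → Bool) → Prop} (e : E)
    {q : (G e).Q} {p : ℕ} {T : ℕ → Fin K → Bool} {e' : E'} {p' : ℕ} {T' : ℕ → Fin K → Bool}
    (h : M4Run (G e) y P q p T e' p' T') :
    M4Run (F.bind G) y P (Sum.inr ⟨e, q⟩) p T e' p' T' := by
  induction h with
  | exit q p T e' b d p' T' hP hP' h hp hT =>
    refine .exit _ p T e' b d p' T' hP hP' ?_ hp hT
    simp only [M4Frag.bind, h, Sum.elim_inr]
  | cont q q' p T e' b d p' p'' T' T'' hP h hp hT hr ih =>
    refine .cont _ (Sum.inr ⟨e, q'⟩) p T e' b d p' p'' T' T'' hP ?_ hp hT ih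
    simp only [M4Frag.bind, h, Sum.elim_inl]

theorem m4_bind_run {K : ℕ} {E E' : Type} [Finite E] (F : M4Frag K E) (G : E → M4Frag K E')
    {y : Cantor} {P : (ℕ → Fin K → Bool) → Prop} {e : E}
    {q : F.Q} {p : ℕ} {T : ℕ → Fin K → Bool} {e' : E'} {p' p'' : ℕ}
    {T' T'' : ℕ → Fin K → Bool}
    (h : M4Run F y P q p T e p' T') (h' : M4Run (G e) y P (G e).entry p' T' e' p'' T'') :
    M4Run (F.bind G) y P (Sum.inl q) p T e' p'' T'' := by
  induction h with
  | exit q p T e b d p' T' hP hP' h hp hT =>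
    refine .cont _ (Sum.inr ⟨e, (G e).entry⟩) p T e' b d p' p'' T' T'' hP ?_ hp hT
      (m4_bind_run₂ F G e h')
    simp only [M4Frag.bind, h, Sum.elim_inr]
  | cont q q' p T e b d p' p''' T' T''' hP h hp hT hr ih =>
    refine .cont _ (Sum.inl q') p T e' b d p' p'' T' T'' hP ?_ hp hT (ih h')
    simp only [M4Frag.bind, h, Sum.elim_inl]

theorem m4_bind_run' {K : ℕ} {E E' : Type} [Finite E] (F : M4Frag K E) (G : E → M4Frag K E')
    {y : Cantor} {P : (ℕ → Fin K → Bool) → Prop} {e : E} {G0 : M4Frag K E'} (hG : G e = G0)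
    {q : F.Q} {p : ℕ} {T : ℕ → Fin K → Bool} {e' : E'} {p' p'' : ℕ}
    {T' T'' : ℕ → Fin K → Bool}
    (h : M4Run F y P q p T e p' T') (h' : M4Run G0 y P G0.entry p' T' e' p'' T'') :
    M4Run (F.bind G) y P (Sum.inl q) p T e' p'' T'' := by
  subst hG
  exact m4_bind_run F G h h'

/-! ### the loop -/

/-- while the bit on track `r` of the scanned block is set, execute `F`. -/
def M4Frag.while {K : ℕ} (r : Fin K) (F : M4Frag K Unit) : M4Frag K Unit where
  Q := Option F.Q
  fin := by
    have := F.fin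
    infer_instance
  entry := none
  δ := fun q a b => match q with
    | none => if b r = true then (Sum.inl (some F.entry), b, false) else (Sum.inr (), b, false)
    | some q => ((F.δ q a b).1.elim (fun q' => Sum.inl (some q')) (fun _ => Sum.inl none),
        (F.δ q a b).2)

theorem m4_upd_self {K : ℕ} (T : ℕ → Fin K → Bool) (p : ℕ) : m4_upd T p (T p) = T := by
  funext n
  by_cases h : n = p
  · simp [m4_upd, h]
  · simp [m4_upd, h]

theorem m4_while_body {K : ℕ} (r : Fin K) (F : M4Frag K Unit)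
    {y : Cantor} {P : (ℕ → Fin K → Bool) → Prop} {e e' : Unit}
    {q : F.Q} {p : ℕ} {T : ℕ → Fin K → Bool} {p' p'' : ℕ}
    {T' T'' : ℕ → Fin K → Bool}
    (h : M4Run F y P q p T e p' T') (h' : M4Run (M4Frag.while r F) y P none p' T' e' p'' T'') :
    M4Run (M4Frag.while r F) y P (some q) p T e' p'' T'' := by
  induction h with
  | exit q p T e b d p' T' hP hP' h hp hT =>
    refine .cont _ none p T e' b d p' p'' T' T'' hP ?_ hp hT h'
    simp only [M4Frag.while, h, Sum.elim_inr]
  | cont q q' p T e b d p' p''' T' T''' hP h hp hT hr ih =>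
    refine .cont _ (some q') p T e' b d p' p'' T' T'' hP ?_ hp hT (ih h')
    simp only [M4Frag.while, h, Sum.elim_inl]

theorem m4_while_stop {K : ℕ} (r : Fin K) (F : M4Frag K Unit)
    {y : Cantor} {P : (ℕ → Fin K → Bool) → Prop} {T : ℕ → Fin K → Bool} (hP : P T)
    (h : T 0 r = false) : M4Run (M4Frag.while r F) y P none 0 T () 0 T := by
  refine M4Run.exit (F := M4Frag.while r F) (none : Option F.Q) 0 T () (T 0) false 0 T hP hP ?_
    rfl (m4_upd_self T 0).symm
  simp [M4Frag.while, h]

theorem m4_while_go {K : ℕ} (r : Fin K) (F : M4Frag K Unit)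
    {y : Cantor} {P : (ℕ → Fin K → Bool) → Prop} {T T' T'' : ℕ → Fin K → Bool}
    (h : T 0 r = true) (h1 : M4Run F y P F.entry 0 T () 0 T')
    (h2 : M4Run (M4Frag.while r F) y P none 0 T' () 0 T'') :
    M4Run (M4Frag.while r F) y P none 0 T () 0 T'' := by
  refine M4Run.cont (F := M4Frag.while r F) (none : Option F.Q) (some F.entry) 0 T () (T 0) false
    0 0 T T'' h1.first ?_ rfl (m4_upd_self T 0).symm (m4_while_body r F h1 h2)
  simp [M4Frag.while, h]

/-! ### basic fragments -/

/-- one step in block `0`, with an exit depending on the block. -/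
def m4_test {K : ℕ} {E : Type} (f : (Fin K → Bool) → E) : M4Frag K E where
  Q := Unit
  fin := inferInstance
  entry := ()
  δ := fun _ _ b => (Sum.inr (f b), b, false)

theorem m4_test_run {K : ℕ} {E : Type} (f : (Fin K → Bool) → E) (y : Cantor)
    {P : (ℕ → Fin K → Bool) → Prop} {T : ℕ → Fin K → Bool} (hP : P T) :
    M4Run (m4_test f) y P () 0 T (f (T 0)) 0 T :=
  M4Run.exit (F := m4_test f) () 0 T (f (T 0)) (T 0) false 0 T hP hP rfl rfl
    (m4_upd_self T 0).symm

/-- scan right to the first block where track `r` is `0`, perform the action `f` there and return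
to the block marked on track `o`. -/
def m4_visit {K : ℕ} {E : Type} [Finite E] (r o : Fin K)
    (f : (Fin K → Bool) → (Fin K → Bool) → (Fin K → Bool) × E) : M4Frag K E where
  Q := Option E
  fin := inferInstance
  entry := none
  δ := fun q a b => match q with
    | none => if b r = true then (Sum.inl none, b, true) else
        if b o = true then (Sum.inr (f a b).2, (f a b).1, false)
        else (Sum.inl (some (f a b).2), (f a b).1, false)
    | some e => if b o = true then (Sum.inr e, b, false) else (Sum.inl (some e), b, false)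

theorem m4_visit_ret {K : ℕ} {E : Type} [Finite E] (r o : Fin K)
    (f : (Fin K → Bool) → (Fin K → Bool) → (Fin K → Bool) × E) (y : Cantor)
    {P : (ℕ → Fin K → Bool) → Prop} {T : ℕ → Fin K → Bool} (hP : P T)
    (ho : ∀ n, T n o = decide (n = 0)) (e : E) (p : ℕ) :
    M4Run (m4_visit r o f) y P (some e) p T e 0 T := by
  induction p with
  | zero =>
    refine .exit _ 0 T e (T 0) false 0 T hP hP ?_ rfl (m4_upd_self T 0).symm
    have : T 0 o = true := by simp [ho]
    simp [m4_visit, this]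
  | succ p ih =>
    refine .cont _ (some e) (p + 1) T e (T (p + 1)) false p 0 T T hP ?_ (by simp [m4_mv])
      (m4_upd_self T (p + 1)).symm ih
    have : T (p + 1) o = false := by simp [ho]
    simp [m4_visit, this]

theorem m4_visit_run {K : ℕ} {E : Type} [Finite E] (r o : Fin K)
    (f : (Fin K → Bool) → (Fin K → Bool) → (Fin K → Bool) × E) (y : Cantor)
    {P : (ℕ → Fin K → Bool) → Prop} {T T' : ℕ → Fin K → Bool} (v : ℕ) (e : E) (hP : P T)
    (hP' : P T') (ho : ∀ n, T n o = decide (n = 0)) (hr : ∀ n, T n r = decide (n < v))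
    (hT' : T' = m4_upd T v (f (inBlock K y v) (T v)).1) (he : e = (f (inBlock K y v) (T v)).2)
    (ho' : ∀ n, T' n o = decide (n = 0)) :
    M4Run (m4_visit r o f) y P none 0 T e 0 T' := by
  -- from position `v - k`
  have key : ∀ k p : ℕ, p + k = v → M4Run (m4_visit r o f) y P none p T e 0 T' := by
    intro k
    induction k with
    | zero =>
      intro p hp
      have hp' : p = v := by omega
      subst hp'
      have h1 : T p r = false := by simp [hr]
      rcases Nat.eq_zero_or_pos p with h0 | h0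
      · subst h0
        have h2 : T 0 o = true := by simp [ho]
        refine .exit _ 0 T e (f (inBlock K y 0) (T 0)).1 false 0 T' hP hP' ?_ rfl hT'
        simp [m4_visit, h1, h2, he]
      · obtain ⟨p', rfl⟩ : ∃ p', p = p' + 1 := ⟨p - 1, by omega⟩
        have h2 : T (p' + 1) o = false := by simp [ho]
        refine .cont _ (some e) (p' + 1) T e (f (inBlock K y (p' + 1)) (T (p' + 1))).1 false
          p' 0 T' T' hP ?_ (by simp [m4_mv]) hT' (m4_visit_ret r o f y hP' ho' e p')
        simp [m4_visit, h1, h2, he]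
    | succ k ih =>
      intro p hp
      have h1 : T p r = true := by simp [hr]; omega
      refine .cont _ none p T e (T p) true (p + 1) 0 T T' hP ?_ (by simp [m4_mv])
        (m4_upd_self T p).symm (ih (p + 1) (by omega))
      simp [m4_visit, h1]
  exact key v 0 (by omega)

/-- decrement the number on track `r` -/
def m4_dec {K : ℕ} (r o : Fin K) : M4Frag K Unit where
  Q := Fin 3
  fin := inferInstance
  entry := 0
  δ := fun q _ b =>
    if q = 0 then
      if b r = true then (Sum.inl 0, b, true) else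
        if b o = true then (Sum.inr (), b, false) else (Sum.inl 1, b, false)
    else if q = 1 then
      if b o = true then (Sum.inr (), Function.update b r false, false)
      else (Sum.inl 2, Function.update b r false, false)
    else
      if b o = true then (Sum.inr (), b, false) else (Sum.inl 2, b, false)

theorem m4_dec_ret {K : ℕ} (r o : Fin K) (y : Cantor)
    {P : (ℕ → Fin K → Bool) → Prop} {T : ℕ → Fin K → Bool} (hP : P T)
    (ho : ∀ n, T n o = decide (n = 0)) (p : ℕ) :
    M4Run (m4_dec r o) y P (2 : Fin 3) p T () 0 T := by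
  induction p with
  | zero =>
    refine .exit _ 0 T () (T 0) false 0 T hP hP ?_ rfl (m4_upd_self T 0).symm
    have : T 0 o = true := by simp [ho]
    simp [m4_dec, this]
  | succ p ih =>
    refine .cont _ (2 : Fin 3) (p + 1) T () (T (p + 1)) false p 0 T T hP ?_ (by simp [m4_mv])
      (m4_upd_self T (p + 1)).symm ih
    have : T (p + 1) o = false := by simp [ho]
    simp [m4_dec, this]

theorem m4_dec_run {K : ℕ} (r o : Fin K) (y : Cantor)
    {P : (ℕ → Fin K → Bool) → Prop} {T T' : ℕ → Fin K → Bool} (v : ℕ) (hP : P T)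
    (hP' : P T') (ho : ∀ n, T n o = decide (n = 0)) (hr : ∀ n, T n r = decide (n < v))
    (hT' : T' = if v = 0 then T else m4_upd T (v - 1) (Function.update (T (v - 1)) r false))
    (ho' : ∀ n, T' n o = decide (n = 0)) :
    M4Run (m4_dec r o) y P (0 : Fin 3) 0 T () 0 T' := by
  have key : ∀ k p : ℕ, p + k = v → M4Run (m4_dec r o) y P (0 : Fin 3) p T () 0 T' := by
    intro k
    induction k with
    | zero =>
      intro p hp
      have hp' : p = v := by omega
      subst hp'
      have h1 : T p r = false := by simp [hr]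
      rcases Nat.eq_zero_or_pos p with h0 | h0
      · subst h0
        have h2 : T 0 o = true := by simp [ho]
        rw [if_pos rfl] at hT'
        subst hT'
        refine .exit _ 0 T' () (T' 0) false 0 T' hP hP ?_ rfl (m4_upd_self T' 0).symm
        simp [m4_dec, h1, h2]
      · obtain ⟨p', rfl⟩ : ∃ p', p = p' + 1 := ⟨p - 1, by omega⟩
        have h2 : T (p' + 1) o = false := by simp [ho]
        rw [if_neg (by omega)] at hT'
        simp only [Nat.add_sub_cancel] at hT'
        refine .cont _ (1 : Fin 3) (p' + 1) T () (T (p' + 1)) false p' 0 T T' hP ?_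
          (by simp [m4_mv]) (m4_upd_self T _).symm ?_
        · simp [m4_dec, h1, h2]
        rcases p' with _ | p''
        · have h3 : T 0 o = true := by simp [ho]
          refine .exit _ 0 T () (Function.update (T 0) r false) false 0 T' hP hP' ?_ rfl hT'
          simp [m4_dec, h3]
        · have h3 : T (p'' + 1) o = false := by simp [ho]
          refine .cont _ (2 : Fin 3) (p'' + 1) T () (Function.update (T (p'' + 1)) r false) false
            p'' 0 T' T' hP ?_ (by simp [m4_mv]) hT' (m4_dec_ret r o y hP' ho' p'')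
          simp [m4_dec, h3]
    | succ k ih =>
      intro p hp
      have h1 : T p r = true := by simp [hr]; omega
      refine .cont _ (0 : Fin 3) p T () (T p) true (p + 1) 0 T T' hP ?_ (by simp [m4_mv])
        (m4_upd_self T p).symm (ih (p + 1) (by omega))
      simp [m4_dec, h1]
  exact key v 0 (by omega)

/-! ### representation of memories -/

/-- tracks which may not be written by `c` are equal in `T` and `T'`. -/
def M4Pres (K R : ℕ) (c : Cmd) (T T' : ℕ → Fin K → Bool) : Prop :=
  ∀ (j : Fin K) (i : ℕ), (∀ r ∈ c.wrReg, (j : ℕ) ≠ r) → (∀ a ∈ c.wrArr, (j : ℕ) ≠ R + a) →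
    T' i j = T i j

theorem M4Pres.refl (K R : ℕ) (c : Cmd) (T : ℕ → Fin K → Bool) : M4Pres K R c T T :=
  fun _ _ _ _ => rfl

theorem m4_run_reg (K : ℕ) (y : Cantor) (c : Cmd) (r : ℕ) (hr : r ∉ c.wrReg) (m : Mem) :
    (c.run K y m).reg r = m.reg r := by
  induction c generalizing m with
  | skip => rfl
  | inc r' =>
    have : r ≠ r' := fun h => hr (by simp [Cmd.wrReg, h])
    simp [Cmd.run, Mem.setReg, this]
  | dec r' =>
    have : r ≠ r' := fun h => hr (by simp [Cmd.wrReg, h])
    simp [Cmd.run, Mem.setReg, this]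
  | set a r' v => rfl
  | seq c d ihc ihd =>
    simp only [Cmd.wrReg, Set.mem_union, not_or] at hr
    simp only [Cmd.run]
    rw [ihd hr.2, ihc hr.1]
  | ifz r' c d ihc ihd =>
    simp only [Cmd.wrReg, Set.mem_union, not_or] at hr
    simp only [Cmd.run]
    split_ifs
    · exact ihc hr.1 m
    · exact ihd hr.2 m
  | ifA a r' c d ihc ihd =>
    simp only [Cmd.wrReg, Set.mem_union, not_or] at hr
    simp only [Cmd.run]
    split_ifs
    · exact ihc hr.1 m
    · exact ihd hr.2 m
  | ifY s r' c d ihc ihd =>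
    simp only [Cmd.wrReg, Set.mem_union, not_or] at hr
    simp only [Cmd.run]
    split_ifs
    · exact ihc hr.1 m
    · exact ihd hr.2 m
  | loop r' c ih =>
    simp only [Cmd.wrReg, Set.mem_union, Set.mem_singleton_iff, not_or] at hr
    simp only [Cmd.run]
    generalize m.reg r' = k
    induction k with
    | zero => rfl
    | succ k ihk =>
      rw [Function.iterate_succ_apply', ih hr.2]
      simp only [Mem.setReg, if_neg hr.1]
      exact ihk

variable {K R A : ℕ}

theorem m4_rep_upd_reg (hK : R + A < K) {T : ℕ → Fin K → Bool} {m : Mem}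
    (h : RepMem K R A T m) (r : ℕ) (hr : r < R) (v : ℕ) (T' : ℕ → Fin K → Bool)
    (h1 : ∀ n, T' n ⟨r, by omega⟩ = decide (n < v))
    (h2 : ∀ n (j : Fin K), (j : ℕ) ≠ r → T' n j = T n j) :
    RepMem K R A T' (m.setReg r v) where
  reg := by
    intro r' hr' hK' n
    by_cases hrr : r' = r
    · subst hrr
      simp only [Mem.setReg, if_true]
      exact h1 n
    · simp only [Mem.setReg, if_neg hrr]
      rw [h2 n ⟨r', hK'⟩ hrr]
      exact h.reg r' hr' hK' n
  arr := by
    intro a ha hK' n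
    rw [h2 n ⟨R + a, hK'⟩ (by simp only; omega)]
    exact h.arr a ha hK' n
  org := by
    intro hK' n
    rw [h2 n ⟨R + A, hK'⟩ (by simp only; omega)]
    exact h.org hK' n

theorem m4_rep_upd_arr (hK : R + A < K) {T : ℕ → Fin K → Bool} {m : Mem}
    (h : RepMem K R A T m) (a : ℕ) (ha : a < A) (i : ℕ) (v : Bool) (T' : ℕ → Fin K → Bool)
    (h1 : T' i ⟨R + a, by omega⟩ = v)
    (h2 : ∀ n (j : Fin K), ((j : ℕ) ≠ R + a ∨ n ≠ i) → T' n j = T n j) :
    RepMem K R A T' (m.setArr a i v) where
  reg := by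
    intro r' hr' hK' n
    rw [h2 n ⟨r', hK'⟩ (Or.inl (by simp only; omega))]
    exact h.reg r' hr' hK' n
  arr := by
    intro a' ha' hK' n
    by_cases hn : a' = a ∧ n = i
    · obtain ⟨rfl, rfl⟩ := hn
      simp only [Mem.setArr, and_self, if_true]
      exact h1
    · simp only [Mem.setArr, if_neg hn]
      rw [h2 n ⟨R + a', hK'⟩ (by
        simp only
        by_contra hc
        apply hn
        omega)]
      exact h.arr a' ha' hK' n
  org := by
    intro hK' n
    rw [h2 n ⟨R + A, hK'⟩ (Or.inl (by simp only; omega))]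
    exact h.org hK' n

/-- increment -/
theorem m4_inc_spec (hK : R + A < K) (r : ℕ) (hr : r < R) (y : Cantor)
    {T : ℕ → Fin K → Bool} {m : Mem} (h : RepMem K R A T m) :
    ∃ T', RepMem K R A T' (m.setReg r (m.reg r + 1)) ∧
      (∀ n (j : Fin K), (j : ℕ) ≠ r → T' n j = T n j) ∧
      M4Run (m4_visit (⟨r, by omega⟩ : Fin K) ⟨R + A, hK⟩
        (fun _ b => (Function.update b ⟨r, by omega⟩ true, ()))) y
        (fun T'' => ∀ n (j : Fin K), (j : ℕ) ≠ r → T'' n j = T n j) none 0 T () 0 T' := by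
  set T' : ℕ → Fin K → Bool :=
    m4_upd T (m.reg r) (Function.update (T (m.reg r)) ⟨r, by omega⟩ true) with hT'
  have h2 : ∀ n (j : Fin K), (j : ℕ) ≠ r → T' n j = T n j := by
    intro n j hj
    simp only [hT', m4_upd]
    split_ifs with hn
    · rw [Function.update_of_ne (fun h => hj (by rw [h]))]
      rw [hn]
    · rfl
  have h3 : RepMem K R A T' (m.setReg r (m.reg r + 1)) := by
    refine m4_rep_upd_reg hK h r hr _ T' (fun n => ?_) h2
    simp only [hT', m4_upd]
    split_ifs with hn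
    · simp [hn]
    · rw [h.reg r hr (by omega) n]
      by_cases hlt : n < m.reg r
      · simp [hlt, Nat.lt_succ_of_lt hlt]
      · have : ¬ n < m.reg r + 1 := by omega
        simp [hlt, this]
  refine ⟨T', h3, h2, ?_⟩
  exact m4_visit_run _ _ _ y (m.reg r) () (fun _ _ _ => rfl) h2 (h.org hK)
    (h.reg r hr (by omega)) rfl rfl (h3.org hK)

/-- decrement -/
theorem m4_dec_spec (hK : R + A < K) (r : ℕ) (hr : r < R) (y : Cantor)
    {T : ℕ → Fin K → Bool} {m : Mem} (h : RepMem K R A T m) :
    ∃ T', RepMem K R A T' (m.setReg r (m.reg r - 1)) ∧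
      (∀ n (j : Fin K), (j : ℕ) ≠ r → T' n j = T n j) ∧
      M4Run (m4_dec (⟨r, by omega⟩ : Fin K) ⟨R + A, hK⟩) y
        (fun T'' => ∀ n (j : Fin K), (j : ℕ) ≠ r → T'' n j = T n j) (0 : Fin 3) 0 T () 0 T' := by
  set T' : ℕ → Fin K → Bool := if m.reg r = 0 then T else
    m4_upd T (m.reg r - 1) (Function.update (T (m.reg r - 1)) ⟨r, by omega⟩ false) with hT'
  have h2 : ∀ n (j : Fin K), (j : ℕ) ≠ r → T' n j = T n j := by
    intro n j hj
    simp only [hT']
    split_ifs with h0
    · rfl
    · simp only [m4_upd]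
      split_ifs with hn
      · rw [Function.update_of_ne (fun h => hj (by rw [h]))]
        rw [hn]
      · rfl
  have h3 : RepMem K R A T' (m.setReg r (m.reg r - 1)) := by
    refine m4_rep_upd_reg hK h r hr _ T' (fun n => ?_) h2
    simp only [hT']
    split_ifs with h0
    · rw [h.reg r hr (by omega) n, h0]
    · simp only [m4_upd]
      split_ifs with hn
      · simp [hn]
      · rw [h.reg r hr (by omega) n]
        by_cases hlt : n < m.reg r
        · have : n < m.reg r - 1 := by omega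
          simp [hlt, this]
        · have : ¬ n < m.reg r - 1 := by omega
          simp [hlt, this]
  refine ⟨T', h3, h2, ?_⟩
  exact m4_dec_run _ _ y (m.reg r) (fun _ _ _ => rfl) h2 (h.org hK)
    (h.reg r hr (by omega)) rfl (h3.org hK)

/-- assignment to an array -/
theorem m4_set_spec (hK : R + A < K) (a r : ℕ) (v : Bool) (ha : a < A) (hr : r < R) (y : Cantor)
    {T : ℕ → Fin K → Bool} {m : Mem} (h : RepMem K R A T m) :
    ∃ T', RepMem K R A T' (m.setArr a (m.reg r) v) ∧
      M4Run (m4_visit (⟨r, by omega⟩ : Fin K) ⟨R + A, hK⟩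
        (fun _ b => (Function.update b ⟨R + a, by omega⟩ v, ()))) y
        (fun T'' => ∀ n (j : Fin K), ((j : ℕ) ≠ R + a ∨ n ≠ m.reg r) → T'' n j = T n j)
        none 0 T () 0 T' := by
  set T' : ℕ → Fin K → Bool :=
    m4_upd T (m.reg r) (Function.update (T (m.reg r)) ⟨R + a, by omega⟩ v) with hT'
  have h2 : ∀ n (j : Fin K), ((j : ℕ) ≠ R + a ∨ n ≠ m.reg r) → T' n j = T n j := by
    intro n j hj
    simp only [hT', m4_upd]
    split_ifs with hn
    · have hj' : (j : ℕ) ≠ R + a := by
        rcases hj with hj | hj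
        · exact hj
        · exact absurd hn hj
      rw [Function.update_of_ne (fun h => hj' (by rw [h]))]
      rw [hn]
    · rfl
  have h3 : RepMem K R A T' (m.setArr a (m.reg r) v) := by
    refine m4_rep_upd_arr hK h a ha _ v T' ?_ h2
    simp [hT', m4_upd]
  refine ⟨T', h3, ?_⟩
  exact m4_visit_run _ _ _ y (m.reg r) () (fun _ _ _ => rfl) h2 (h.org hK)
    (h.reg r hr (by omega)) rfl rfl (h3.org hK)

/-- reading at the block addressed by a register -/
theorem m4_read_spec (hK : R + A < K) (r : ℕ) (hr : r < R) (y : Cantor)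
    (f : (Fin K → Bool) → (Fin K → Bool) → Bool)
    {T : ℕ → Fin K → Bool} {m : Mem} (h : RepMem K R A T m) {P : (ℕ → Fin K → Bool) → Prop}
    (hP : P T) :
    M4Run (m4_visit (⟨r, by omega⟩ : Fin K) ⟨R + A, hK⟩ (fun a b => (b, f a b))) y P
        none 0 T (f (inBlock K y (m.reg r)) (T (m.reg r))) 0 T :=
  m4_visit_run _ _ _ y (m.reg r) _ hP hP (h.org hK)
    (h.reg r hr (by omega)) (m4_upd_self _ _).symm rfl (h.org hK)

theorem m4_cmd (hK : R + A < K) (c : Cmd) (hc : c.ok K R A) : ∃ F : M4Frag K Unit,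
    ∀ (y : Cantor) (T : ℕ → Fin K → Bool) (m : Mem), RepMem K R A T m →
      ∃ T', RepMem K R A T' (c.run K y m) ∧ M4Run F y (M4Pres K R c T) F.entry 0 T () 0 T' := by
  induction c with
  | skip =>
    refine ⟨m4_test (fun _ => ()), fun y T m h => ⟨T, h, ?_⟩⟩
    exact m4_test_run (fun _ => ()) y (M4Pres.refl K R _ T)
  | inc r =>
    have hr : r < R := hc
    refine ⟨m4_visit (⟨r, by omega⟩ : Fin K) ⟨R + A, hK⟩
        (fun _ b => (Function.update b ⟨r, by omega⟩ true, ())), fun y T m h => ?_⟩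
    obtain ⟨T', h1, -, h3⟩ := m4_inc_spec hK r hc y h
    refine ⟨T', h1, h3.mono (fun T'' hT'' => ?_)⟩
    intro j i hj _
    exact hT'' i j (hj r (by simp [Cmd.wrReg]))
  | dec r =>
    have hr : r < R := hc
    refine ⟨m4_dec (⟨r, by omega⟩ : Fin K) ⟨R + A, hK⟩, fun y T m h => ?_⟩
    obtain ⟨T', h1, -, h3⟩ := m4_dec_spec hK r hc y h
    refine ⟨T', h1, h3.mono (fun T'' hT'' => ?_)⟩
    intro j i hj _
    exact hT'' i j (hj r (by simp [Cmd.wrReg]))
  | set a r v =>
    have hr : r < R := hc.1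
    have ha : a < A := hc.2
    refine ⟨m4_visit (⟨r, by omega⟩ : Fin K) ⟨R + A, hK⟩
        (fun _ b => (Function.update b ⟨R + a, by omega⟩ v, ())), fun y T m h => ?_⟩
    obtain ⟨T', h1, h3⟩ := m4_set_spec hK a r v hc.2 hc.1 y h
    refine ⟨T', h1, h3.mono (fun T'' hT'' => ?_)⟩
    intro j i _ hj
    exact hT'' i j (Or.inl (hj a (by simp [Cmd.wrArr])))
  | seq c d ihc ihd =>
    obtain ⟨F, hF⟩ := ihc hc.1
    obtain ⟨G, hG⟩ := ihd hc.2
    refine ⟨F.bind (fun _ => G), fun y T m h => ?_⟩
    obtain ⟨T', h1, h2⟩ := hF y T m h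
    obtain ⟨T'', h3, h4⟩ := hG y T' _ h1
    refine ⟨T'', h3, m4_bind_run F _ (h2.mono ?_) (h4.mono ?_)⟩
    · intro T1 hT1 j i hj1 hj2
      exact hT1 j i (fun r hr => hj1 r (Or.inl hr)) (fun a ha => hj2 a (Or.inl ha))
    · intro T1 hT1 j i hj1 hj2
      rw [hT1 j i (fun r hr => hj1 r (Or.inr hr)) (fun a ha => hj2 a (Or.inr ha))]
      exact h2.last j i (fun r hr => hj1 r (Or.inl hr)) (fun a ha => hj2 a (Or.inl ha))
  | ifz r c d ihc ihd =>
    obtain ⟨F, hF⟩ := ihc hc.2.1
    obtain ⟨G, hG⟩ := ihd hc.2.2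
    have hrK : r < K := by have := hc.1; omega
    refine ⟨(m4_test (fun b => b ⟨r, hrK⟩)).bind (fun e => if e = true then G else F),
      fun y T m h => ?_⟩
    have hT0 : T 0 ⟨r, hrK⟩ = decide (0 < m.reg r) := h.reg r hc.1 hrK 0
    have ht := m4_test_run (fun b : Fin K → Bool => b ⟨r, hrK⟩) y
      (P := M4Pres K R (Cmd.ifz r c d) T) (M4Pres.refl K R _ T)
    by_cases h0 : m.reg r = 0
    · obtain ⟨T', h1, h2⟩ := hF y T m h
      have he : T 0 ⟨r, hrK⟩ = false := by rw [hT0, h0]; rfl
      refine ⟨T', by simpa [Cmd.run, h0] using h1, m4_bind_run' _ _ (G0 := F) (by simp [he]) ht ?_⟩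
      refine h2.mono ?_
      intro T1 hT1 j i hj1 hj2
      exact hT1 j i (fun r hr => hj1 r (Or.inl hr)) (fun a ha => hj2 a (Or.inl ha))
    · obtain ⟨T', h1, h2⟩ := hG y T m h
      have he : T 0 ⟨r, hrK⟩ = true := by rw [hT0]; simp; omega
      refine ⟨T', by simpa [Cmd.run, h0] using h1, m4_bind_run' _ _ (G0 := G) (by simp [he]) ht ?_⟩
      refine h2.mono ?_
      intro T1 hT1 j i hj1 hj2
      exact hT1 j i (fun r hr => hj1 r (Or.inr hr)) (fun a ha => hj2 a (Or.inr ha))
  | ifA a r c d ihc ihd =>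
    obtain ⟨F, hF⟩ := ihc hc.2.2.1
    obtain ⟨G, hG⟩ := ihd hc.2.2.2
    have hrK : r < K := by have := hc.1; omega
    have haK : R + a < K := by have := hc.2.1; omega
    refine ⟨(m4_visit (⟨r, hrK⟩ : Fin K) ⟨R + A, hK⟩ (fun _ b => (b, b ⟨R + a, haK⟩))).bind
      (fun e => if e = true then F else G), fun y T m h => ?_⟩
    have hT0 : T (m.reg r) ⟨R + a, haK⟩ = m.arr a (m.reg r) := h.arr a hc.2.1 haK _
    have ht := m4_read_spec hK r hc.1 y (fun _ b => b ⟨R + a, haK⟩) h
      (P := M4Pres K R (Cmd.ifA a r c d) T) (M4Pres.refl K R _ T)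
    by_cases h0 : m.arr a (m.reg r) = true
    · obtain ⟨T', h1, h2⟩ := hF y T m h
      refine ⟨T', by simpa [Cmd.run, h0] using h1, m4_bind_run' _ _ (G0 := F) (by simp [hT0, h0]) ht ?_⟩
      refine h2.mono ?_
      intro T1 hT1 j i hj1 hj2
      exact hT1 j i (fun r hr => hj1 r (Or.inl hr)) (fun a ha => hj2 a (Or.inl ha))
    · obtain ⟨T', h1, h2⟩ := hG y T m h
      refine ⟨T', by simpa [Cmd.run, h0] using h1, m4_bind_run' _ _ (G0 := G) (by simp [hT0, h0]) ht ?_⟩
      refine h2.mono ?_
      intro T1 hT1 j i hj1 hj2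
      exact hT1 j i (fun r hr => hj1 r (Or.inr hr)) (fun a ha => hj2 a (Or.inr ha))
  | ifY s r c d ihc ihd =>
    obtain ⟨F, hF⟩ := ihc hc.2.2.1
    obtain ⟨G, hG⟩ := ihd hc.2.2.2
    have hrK : r < K := by have := hc.1; omega
    have hsK : s < K := hc.2.1
    refine ⟨(m4_visit (⟨r, hrK⟩ : Fin K) ⟨R + A, hK⟩ (fun a b => (b, a ⟨s, hsK⟩))).bind
      (fun e => if e = true then F else G), fun y T m h => ?_⟩
    have ht := m4_read_spec hK r hc.1 y (fun a _ => a ⟨s, hsK⟩) h
      (P := M4Pres K R (Cmd.ifY s r c d) T) (M4Pres.refl K R _ T)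
    have hin : inBlock K y (m.reg r) ⟨s, hsK⟩ = y (K * m.reg r + s) := rfl
    by_cases h0 : y (K * m.reg r + s) = true
    · obtain ⟨T', h1, h2⟩ := hF y T m h
      refine ⟨T', by simpa [Cmd.run, h0] using h1, m4_bind_run' _ _ (G0 := F) (by simp [hin, h0]) ht ?_⟩
      refine h2.mono ?_
      intro T1 hT1 j i hj1 hj2
      exact hT1 j i (fun r hr => hj1 r (Or.inl hr)) (fun a ha => hj2 a (Or.inl ha))
    · obtain ⟨T', h1, h2⟩ := hG y T m h
      refine ⟨T', by simpa [Cmd.run, h0] using h1, m4_bind_run' _ _ (G0 := G) (by simp [hin, h0]) ht ?_⟩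
      refine h2.mono ?_
      intro T1 hT1 j i hj1 hj2
      exact hT1 j i (fun r hr => hj1 r (Or.inr hr)) (fun a ha => hj2 a (Or.inr ha))
  | loop r c ih =>
    obtain ⟨F, hF⟩ := ih hc.2.2
    have hrK : r < K := by have := hc.1; omega
    refine ⟨M4Frag.while ⟨r, hrK⟩ ((m4_dec (⟨r, hrK⟩ : Fin K) ⟨R + A, hK⟩).bind (fun _ => F)),
      fun y T m h => ?_⟩
    have key : ∀ (k : ℕ) (T1 : ℕ → Fin K → Bool) (m1 : Mem), m1.reg r = k →
        RepMem K R A T1 m1 → M4Pres K R (Cmd.loop r c) T T1 →
        ∃ T', RepMem K R A T' ((fun m => c.run K y (m.setReg r (m.reg r - 1)))^[k] m1) ∧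
          M4Run (M4Frag.while ⟨r, hrK⟩
            ((m4_dec (⟨r, hrK⟩ : Fin K) ⟨R + A, hK⟩).bind (fun _ => F))) y
            (M4Pres K R (Cmd.loop r c) T) none 0 T1 () 0 T' := by
      intro k
      induction k with
      | zero =>
        intro T1 m1 hk h1 hp
        refine ⟨T1, h1, m4_while_stop _ _ hp ?_⟩
        rw [h1.reg r hc.1 hrK 0, hk]; rfl
      | succ k ihk =>
        intro T1 m1 hk h1 hp
        obtain ⟨T2, h2, h3, h4⟩ := m4_dec_spec hK r hc.1 y h1
        obtain ⟨T3, h5, h6⟩ := hF y T2 _ h2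
        have hp3 : ∀ T', (∀ n (j : Fin K), (j : ℕ) ≠ r → T' n j = T1 n j) →
            M4Pres K R (Cmd.loop r c) T T' := by
          intro T' hT' j i hj1 hj2
          rw [hT' i j (hj1 r (Or.inl rfl))]
          exact hp j i hj1 hj2
        have hp4 : ∀ T', M4Pres K R c T2 T' → M4Pres K R (Cmd.loop r c) T T' := by
          intro T' hT' j i hj1 hj2
          rw [hT' j i (fun r hr => hj1 r (Or.inr hr)) hj2]
          exact hp3 T2 h3 j i hj1 hj2
        have hreg : (c.run K y (m1.setReg r (m1.reg r - 1))).reg r = k := by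
          rw [m4_run_reg K y c r hc.2.1]
          simp [Mem.setReg, hk]
        obtain ⟨T', h7, h8⟩ := ihk T3 _ hreg h5 (hp4 T3 h6.last)
        refine ⟨T', ?_, m4_while_go _ _ ?_ (m4_bind_run _ _ (h4.mono hp3) (h6.mono hp4)) h8⟩
        · rw [Function.iterate_succ_apply]; exact h7
        · rw [h1.reg r hc.1 hrK 0, hk]; simp
    exact key (m.reg r) T m rfl h (M4Pres.refl K R _ T)

/-! ## M4 : LOOP programs are executed by fragments -/

theorem cmd_frag (K R A : ℕ) (hK : R + A < K) (c : Cmd) (hc : c.ok K R A) : ∃ F : Frag K,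
    ∀ (y : Cantor) (T : ℕ → Fin K → Bool) (m : Mem), RepMem K R A T m →
      ∃ n : ℕ, 0 < n ∧ (F.after y T n).st = none ∧ (F.after y T n).pos = 0 ∧
        RepMem K R A (F.after y T n).work (c.run K y m) ∧
        (∀ t ≤ n, ∀ (j : Fin K) (i : ℕ), (∀ r ∈ c.wrReg, (j : ℕ) ≠ r) →
          (∀ a ∈ c.wrArr, (j : ℕ) ≠ R + a) → (F.after y T t).work i j = T i j) := by
  obtain ⟨F, hF⟩ := m4_cmd hK c hc
  refine ⟨F.toFrag, fun y T m h => ?_⟩
  obtain ⟨T', h1, h2⟩ := hF y T m h
  obtain ⟨n, hn, h3, h4⟩ := m4_toFrag_run h2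
  have h5 : F.toFrag.after y T n = { st := none, pos := 0, work := T' } := h3
  refine ⟨n, hn, by rw [h5], by rw [h5], by rw [h5]; exact h1, fun t ht j i hj1 hj2 => ?_⟩
  exact h4 t ht j i hj1 hj2

/-- in addition for a single array assignment: at all intermediate times only the addressed cell
is changed. -/
theorem set_frag (K R A : ℕ) (hK : R + A < K) (a r : ℕ) (v : Bool) (ha : a < A) (hr : r < R) :
    ∃ F : Frag K, ∀ (y : Cantor) (T : ℕ → Fin K → Bool) (m : Mem), RepMem K R A T m →
      ∃ n : ℕ, 0 < n ∧ (F.after y T n).st = none ∧ (F.after y T n).pos = 0 ∧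
        RepMem K R A (F.after y T n).work (m.setArr a (m.reg r) v) ∧
        (∀ t ≤ n, ∀ (j : Fin K) (i : ℕ), ((j : ℕ) ≠ R + a ∨ i ≠ m.reg r) →
          (F.after y T t).work i j = T i j) := by
  refine ⟨(m4_visit (⟨r, by omega⟩ : Fin K) ⟨R + A, hK⟩
        (fun _ b => (Function.update b ⟨R + a, by omega⟩ v, ()))).toFrag, fun y T m h => ?_⟩
  obtain ⟨T', h1, h2⟩ := m4_set_spec hK a r v ha hr y h
  obtain ⟨n, hn, h3, h4⟩ := m4_toFrag_run h2
  have h5 : (m4_visit (⟨r, by omega⟩ : Fin K) ⟨R + A, hK⟩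
        (fun _ b => (Function.update b ⟨R + a, by omega⟩ v, ()))).toFrag.after y T n =
        { st := none, pos := 0, work := T' } := h3
  refine ⟨n, hn, by rw [h5], by rw [h5], by rw [h5]; exact h1, fun t ht j i hj => ?_⟩
  exact h4 t ht i j hj

end Pool.Agent.HT
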