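import Pool.Agent.Helper85.HT.MachDefs

set_option autoImplicit false

/-!
# Module M5 (core): the block machine of a local process
-/

namespace Pool.Agent.HT

open Ordinal

/-! ### the run of a block machine -/

theorem m5_run_zero (B : BM) (y : Cantor) :
    B.run y 0 = { st := B.start, pos := 0, work := fun _ _ => false } := by
  unfold BM.run; exact Ordinal.limitRecOn_zero _ _ _

theorem m5_run_add_one (B : BM) (y : Cantor) (o : Ordinal.{0}) :
    B.run y (o + 1) = B.step y (B.run y o) := by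
  unfold BM.run; exact Ordinal.limitRecOn_add_one _ _ _ _

theorem m5_run_limit (B : BM) (y : Cantor) {o : Ordinal.{0}} (ho : Order.IsSuccLimit o) :
    B.run y o = { st := B.lim, pos := 0,
                  work := fun n i => limsupBit o (fun a _ => (B.run y a).work n i) } := by
  unfold BM.run; rw [Ordinal.limitRecOn_limit _ _ _ _ ho]

theorem m5_run_nat (B : BM) (y : Cantor) (o : Ordinal.{0}) (k : ℕ) :
    B.run y (o + k) = (B.step y)^[k] (B.run y o) := by
  induction k with
  | zero => simp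
  | succ k ih =>
    rw [Function.iterate_succ_apply', ← ih, ← m5_run_add_one]
    push_cast
    rw [add_assoc]

open Classical in
theorem m5_limsup_true {o : Ordinal.{0}} (f : Ordinal.{0} → Bool) :
    limsupBit o (fun a _ => f a) = true ↔ ∀ a < o, ∃ b, a ≤ b ∧ b < o ∧ f b = true := by
  unfold limsupBit
  rw [decide_eq_true_iff]
  constructor
  · intro h a ha
    obtain ⟨b, hb, h1, h2⟩ := h a ha
    exact ⟨b, h1, hb, h2⟩
  · intro h a ha
    obtain ⟨b, h1, hb, h2⟩ := h a ha
    exact ⟨b, hb, h1, h2⟩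

theorem m5_limsup_const {o : Ordinal.{0}} (f : Ordinal.{0} → Bool) (v : Bool)
    {a : Ordinal.{0}} (ha : a < o) (h : ∀ t, a ≤ t → t < o → f t = v) :
    limsupBit o (fun a _ => f a) = v := by
  cases v with
  | true =>
    rw [m5_limsup_true]
    intro c hc
    exact ⟨max a c, le_max_right _ _, max_lt ha hc, h _ (le_max_left _ _) (max_lt ha hc)⟩
  | false =>
    by_contra hne
    have h1 : limsupBit o (fun a _ => f a) = true := by simpa using hne
    rw [m5_limsup_true] at h1
    obtain ⟨b, h2, h3, h4⟩ := h1 a ha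
    rw [h b h2 h3] at h4
    exact Bool.noConfusion h4

theorem m5_lim_omega (β : Ordinal.{0}) : Order.IsSuccLimit (β + ω) :=
  Ordinal.isSuccLimit_add β Ordinal.isSuccLimit_omega0

/-- times in `[β, β + ω)` -/
theorem m5_time {β t : Ordinal.{0}} (h1 : β ≤ t) (h2 : t < β + ω) : ∃ k : ℕ, t = β + k := by
  obtain ⟨d, rfl⟩ : ∃ d, t = β + d := ⟨t - β, (Ordinal.add_sub_cancel_of_le h1).symm⟩
  have h3 : d < ω := by simpa using h2
  obtain ⟨k, rfl⟩ := Ordinal.lt_omega0.1 h3
  exact ⟨k, rfl⟩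

theorem m5_limit_cell (B : BM) (y : Cantor) (β : Ordinal.{0}) (n : ℕ) (i : Fin B.K) (v : Bool)
    (s : ℕ) (h : ∀ k, s ≤ k → ((B.step y)^[k] (B.run y β)).work n i = v) :
    (B.run y (β + ω)).work n i = v := by
  rw [m5_run_limit B y (m5_lim_omega β)]
  refine m5_limsup_const (fun a => (B.run y a).work n i) v (a := β + s) ?_ ?_
  · exact add_lt_add_of_le_of_lt le_rfl (Ordinal.natCast_lt_omega0 s) 
  · intro t h1 h2
    obtain ⟨k, rfl⟩ := m5_time (le_trans (le_self_add) h1) h2
    have hk : s ≤ k := by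
      have : (s : Ordinal.{0}) ≤ k := by simpa using h1
      exact_mod_cast this
    show (B.run y (β + k)).work n i = v
    rw [m5_run_nat]
    exact h k hk

/-! ### sweeps -/

/-- configurations of a sweep -/
theorem m5_sweep (B : BM) (y : Cantor) (β : Ordinal.{0}) (q : B.Q)
    (g0 g : (Fin B.K → Bool) → (Fin B.K → Bool)) (T : ℕ → Fin B.K → Bool)
    (h0 : B.step y (B.run y β) =
      { st := q, pos := 1, work := fun n => if n = 0 then g0 (T 0) else T n })
    (hq : ∀ i w, B.δ q i w = (q, g w, true)) :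
    (∀ k : ℕ, (B.step y)^[k + 1] (B.run y β) =
      { st := q, pos := k + 1, work := fun n => if n = 0 then g0 (T 0) else if n ≤ k then g (T n) else T n }) ∧
    ∀ n i, (B.run y (β + ω)).work n i = if n = 0 then g0 (T 0) i else g (T n) i := by
  have h1 : ∀ k : ℕ, (B.step y)^[k + 1] (B.run y β) =
      { st := q, pos := k + 1, work := fun n => if n = 0 then g0 (T 0) else if n ≤ k then g (T n) else T n } := by
    intro k
    induction k with
    | zero =>
      rw [zero_add, Function.iterate_one, h0]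
      congr 1
      funext n
      by_cases hn : n = 0
      · simp [hn]
      · simp [hn]
    | succ k ih =>
      rw [Function.iterate_succ_apply', ih]
      unfold BM.step
      simp only [hq]
      congr 1
      funext n
      by_cases hn : n = 0
      · subst hn; simp
      · by_cases hk : n = k + 1
        · subst hk; simp
        · have h2 : (n ≤ k + 1) ↔ n ≤ k := by omega
          simp [hn, hk, h2]
  refine ⟨h1, fun n i => ?_⟩
  refine m5_limit_cell B y β n i _ (n + 1) ?_
  intro k hk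
  obtain ⟨k, rfl⟩ : ∃ k', k = k' + 1 := ⟨k - 1, by omega⟩
  rw [h1 k]
  by_cases hn : n = 0
  · simp [hn]
  · simp only [hn, if_false]
    rw [if_pos (by omega)]

/-! ### reachability with stable cells -/

/-- the step function of a table -/
def m5_step {K : ℕ} {Q : Type} (δ : Q → (Fin K → Bool) → (Fin K → Bool) → Q × (Fin K → Bool) × Bool)
    (y : Cantor) (c : BCfg K Q) : BCfg K Q :=
  let o := δ c.st (inBlock K y c.pos) (c.work c.pos)
  { st := o.1
    pos := if o.2.2 then c.pos + 1 else c.pos - 1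
    work := fun n => if n = c.pos then o.2.1 else c.work n }

/-- `c'` is reached from `c` in a positive number of steps during which the cells of `S` keep their
values. -/
def M5Reach {K : ℕ} {Q : Type}
    (δ : Q → (Fin K → Bool) → (Fin K → Bool) → Q × (Fin K → Bool) × Bool)
    (y : Cantor) (S : ℕ → Fin K → Prop) (c c' : BCfg K Q) : Prop :=
  ∃ N : ℕ, 0 < N ∧ (m5_step δ y)^[N] c = c' ∧
    ∀ k ≤ N, ∀ n j, S n j → ((m5_step δ y)^[k] c).work n j = c.work n j

theorem M5Reach.trans {K : ℕ} {Q : Type}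
    {δ : Q → (Fin K → Bool) → (Fin K → Bool) → Q × (Fin K → Bool) × Bool}
    {y : Cantor} {S : ℕ → Fin K → Prop} {c c' c'' : BCfg K Q}
    (h : M5Reach δ y S c c') (h' : M5Reach δ y S c' c'') : M5Reach δ y S c c'' := by
  obtain ⟨N, hN, h1, h2⟩ := h
  obtain ⟨N', hN', h1', h2'⟩ := h'
  refine ⟨N' + N, by omega, ?_, ?_⟩
  · rw [Function.iterate_add_apply, h1, h1']
  · intro k hk n j hS
    by_cases hkN : k ≤ N
    · exact h2 k hkN n j hS
    · obtain ⟨l, rfl⟩ : ∃ l, k = l + N := ⟨k - N, by omega⟩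
      rw [Function.iterate_add_apply, h1, h2' l (by omega) n j hS, ← h1]
      exact h2 N le_rfl n j hS

theorem M5Reach.mono {K : ℕ} {Q : Type}
    {δ : Q → (Fin K → Bool) → (Fin K → Bool) → Q × (Fin K → Bool) × Bool}
    {y : Cantor} {S S' : ℕ → Fin K → Prop} {c c' : BCfg K Q}
    (h : M5Reach δ y S c c') (hS : ∀ n j, S' n j → S n j) : M5Reach δ y S' c c' := by
  obtain ⟨N, hN, h1, h2⟩ := h
  exact ⟨N, hN, h1, fun k hk n j hS' => h2 k hk n j (hS n j hS')⟩

theorem M5Reach.of_step {K : ℕ} {Q : Type}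
    {δ : Q → (Fin K → Bool) → (Fin K → Bool) → Q × (Fin K → Bool) × Bool}
    {y : Cantor} {q q' : Q} {T : ℕ → Fin K → Bool} (S : ℕ → Fin K → Prop)
    (h : δ q (inBlock K y 0) (T 0) = (q', T 0, false)) :
    M5Reach δ y S { st := q, pos := 0, work := T } { st := q', pos := 0, work := T } := by
  have h1 : m5_step δ y { st := q, pos := 0, work := T } = { st := q', pos := 0, work := T } := by
    unfold m5_step
    simp only [h]
    congr 1
    funext n
    by_cases hn : n = 0
    · simp [hn]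
    · simp [hn]
  refine ⟨1, one_pos, h1, ?_⟩
  intro k hk n j _
  rcases Nat.le_one_iff_eq_zero_or_eq_one.1 hk with rfl | rfl
  · rfl
  · rw [Function.iterate_one, h1]

/-- the execution of a fragment -/
theorem m5_frag {K : ℕ} {Q : Type}
    (δ : Q → (Fin K → Bool) → (Fin K → Bool) → Q × (Fin K → Bool) × Bool)
    (y : Cantor) (F : Frag K) (ι : Option F.Q → Q)
    (hι : ∀ q i w, δ (ι (some q)) i w = (ι (F.δ q i w).1, (F.δ q i w).2.1, (F.δ q i w).2.2))
    (T : ℕ → Fin K → Bool) (n : ℕ) (hst : (F.after y T n).st = none)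
    (S : ℕ → Fin K → Prop)
    (hS : ∀ t ≤ n, ∀ i j, S i j → (F.after y T t).work i j = T i j) :
    M5Reach δ y S { st := ι (some F.entry), pos := 0, work := T }
      { st := ι none, pos := (F.after y T n).pos, work := (F.after y T n).work } := by
  classical
  have hsucc : ∀ t, F.after y T (t + 1) = F.step y (F.after y T t) := by
    intro t
    unfold Frag.after
    rw [Function.iterate_succ_apply']
  have hex : ∃ t, (F.after y T t).st = none := ⟨n, hst⟩
  set n0 := Nat.find hex with hn0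
  have h0 : (F.after y T n0).st = none := Nat.find_spec hex
  have hmin : ∀ t < n0, (F.after y T t).st ≠ none := fun t ht => Nat.find_min hex ht
  have hle : n0 ≤ n := Nat.find_min' hex hst
  have hpos : 0 < n0 := by
    rcases Nat.eq_zero_or_pos n0 with h | h
    · rw [h] at h0
      simp [Frag.after] at h0
    · exact h
  have hconst : ∀ t, n0 ≤ t → F.after y T t = F.after y T n0 := by
    intro t ht
    induction t, ht using Nat.le_induction with
    | base => rfl
    | succ t _ ih =>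
      rw [hsucc, ih]
      unfold Frag.step
      rw [h0]
  have hsim : ∀ k ≤ n0, (m5_step δ y)^[k] { st := ι (some F.entry), pos := 0, work := T } =
      { st := ι (F.after y T k).st, pos := (F.after y T k).pos, work := (F.after y T k).work } := by
    intro k
    induction k with
    | zero => intro _; rfl
    | succ k ih =>
      intro hk
      rw [Function.iterate_succ_apply', ih (by omega), hsucc]
      have hne := hmin k (by omega)
      obtain ⟨q, hq⟩ := Option.ne_none_iff_exists'.1 hne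
      unfold m5_step Frag.step
      rw [hq]
      simp only [hι]
  refine ⟨n0, hpos, ?_, ?_⟩
  · rw [hsim n0 le_rfl, h0, hconst n hle]
  · intro k hk i j hSij
    rw [hsim k hk]
    exact hS k (by omega) i j hSij

/-! ### the machine -/

/-- states of the machine -/
inductive M5Q (Q1 Q2 Q3 : Type) : Type
  | start : M5Q Q1 Q2 Q3
  | lim : M5Q Q1 Q2 Q3
  | clean : M5Q Q1 Q2 Q3
  | copy : M5Q Q1 Q2 Q3
  | f1 (q : Option Q1) : M5Q Q1 Q2 Q3
  | f2 (q : Option Q2) : M5Q Q1 Q2 Q3
  | f3 (q : Option Q3) : M5Q Q1 Q2 Q3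

theorem m5_finite {Q1 Q2 Q3 : Type} (h1 : Finite Q1) (h2 : Finite Q2) (h3 : Finite Q3) :
    Finite (M5Q Q1 Q2 Q3) := by
  let f : (Bool × Bool) ⊕ (Option Q1 ⊕ (Option Q2 ⊕ Option Q3)) → M5Q Q1 Q2 Q3 := fun x =>
    match x with
    | .inl (false, false) => .start
    | .inl (false, true) => .lim
    | .inl (true, false) => .clean
    | .inl (true, true) => .copy
    | .inr (.inl q) => .f1 q
    | .inr (.inr (.inl q)) => .f2 q
    | .inr (.inr (.inr q)) => .f3 q
  refine Finite.of_surjective f ?_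
  intro q
  cases q with
  | start => exact ⟨.inl (false, false), rfl⟩
  | lim => exact ⟨.inl (false, true), rfl⟩
  | clean => exact ⟨.inl (true, false), rfl⟩
  | copy => exact ⟨.inl (true, true), rfl⟩
  | f1 q => exact ⟨.inr (.inl q), rfl⟩
  | f2 q => exact ⟨.inr (.inr (.inl q)), rfl⟩
  | f3 q => exact ⟨.inr (.inr (.inr q)), rfl⟩

/-- clean a block -/
def m5_cl (R : ℕ) (fst : Bool) (w : Fin (R + 6) → Bool) : Fin (R + 6) → Bool := fun j =>
  if (j : ℕ) < R then false else if (j : ℕ) = R + 2 then false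
  else if (j : ℕ) = R + 3 then fst else if (j : ℕ) = R + 4 then false
  else if (j : ℕ) = R + 5 then fst else w j

/-- copy array `2` to array `0` in a block -/
def m5_cp (R : ℕ) (fst : Bool) (w : Fin (R + 6) → Bool) : Fin (R + 6) → Bool := fun j =>
  if (j : ℕ) < R then false else if (j : ℕ) = R then w ⟨R + 2, by omega⟩
  else if (j : ℕ) = R + 2 then false
  else if (j : ℕ) = R + 3 then fst else if (j : ℕ) = R + 4 then false
  else if (j : ℕ) = R + 5 then false else w j

/-- begin the computation -/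
def m5_bc (R : ℕ) (w : Fin (R + 6) → Bool) : Fin (R + 6) → Bool := fun j =>
  if (j : ℕ) = R + 4 then true else if (j : ℕ) = R + 5 then false else w j

/-- the transition table -/
def m5_delta (R : ℕ) (F1 F2 F3 : Frag (R + 6)) : M5Q F1.Q F2.Q F3.Q → (Fin (R + 6) → Bool) →
    (Fin (R + 6) → Bool) → M5Q F1.Q F2.Q F3.Q × (Fin (R + 6) → Bool) × Bool
  | .start, _, w => (.clean, m5_cl R true w, true)
  | .lim, _, w =>
    if w ⟨R + 4, by omega⟩ = true then
      (if w ⟨R + 5, by omega⟩ = true then (.clean, m5_cl R true w, true)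
        else (.copy, m5_cp R true w, true))
    else
      (if w ⟨R + 5, by omega⟩ = true then (.f1 (some F1.entry), m5_bc R w, false)
        else (.clean, m5_cl R true w, true))
  | .clean, _, w => (.clean, m5_cl R false w, true)
  | .copy, _, w => (.copy, m5_cp R false w, true)
  | .f1 (some q), i, w => (.f1 (F1.δ q i w).1, (F1.δ q i w).2.1, (F1.δ q i w).2.2)
  | .f1 none, _, w =>
    (if w ⟨1, by omega⟩ = true then .f2 (some F2.entry) else .f3 (some F3.entry), w, false)
  | .f2 (some q), i, w => (.f2 (F2.δ q i w).1, (F2.δ q i w).2.1, (F2.δ q i w).2.2)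
  | .f2 none, _, w => (.f3 (some F3.entry), w, false)
  | .f3 (some q), i, w => (.f3 (F3.δ q i w).1, (F3.δ q i w).2.1, (F3.δ q i w).2.2)
  | .f3 none, _, w => (.f1 (some F1.entry), w, false)

/-- the block machine -/
def m5_bm (R : ℕ) (F1 F2 F3 : Frag (R + 6)) : BM where
  K := R + 6
  hK := by omega
  Q := M5Q F1.Q F2.Q F3.Q
  fin := m5_finite F1.fin F2.fin F3.fin
  start := .start
  lim := .lim
  δ := m5_delta R F1 F2 F3
  rej := fun w => w ⟨R, by omega⟩

/-- the memory at the beginning of iteration `m` -/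
def m5_mem (W L A1 : ℕ → Bool) (m : ℕ) : Mem where
  reg := fun r => if r = 0 then m else 0
  arr := fun a => if a = 0 then W else if a = 1 then A1
    else if a = 2 then (fun n => decide (n < m) && L n) else fun _ => false

theorem m5_rep_congr {K R A : ℕ} {T : ℕ → Fin K → Bool} {m m' : Mem} (h : RepMem K R A T m)
    (h1 : ∀ r < R, m.reg r = m'.reg r) (h2 : ∀ a < A, m.arr a = m'.arr a) :
    RepMem K R A T m' := by
  refine ⟨?_, ?_, h.org⟩
  · intro r hr hK n
    rw [← h1 r hr]
    exact h.reg r hr hK n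
  · intro a ha hK n
    rw [← h2 a ha]
    exact h.arr a ha hK n

theorem m5_wrReg_lt {K R A : ℕ} (c : Cmd) (h : c.ok K R A) : ∀ r ∈ c.wrReg, r < R := by
  induction c with
  | skip => intro r hr; exact hr.elim
  | inc r => intro r' hr'; rw [Cmd.wrReg, Set.mem_singleton_iff] at hr'; subst hr'; exact h
  | dec r => intro r' hr'; rw [Cmd.wrReg, Set.mem_singleton_iff] at hr'; subst hr'; exact h
  | set a r v => intro r hr; exact hr.elim
  | seq c d ihc ihd =>
    intro r hr
    rcases hr with hr | hr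
    · exact ihc h.1 r hr
    · exact ihd h.2 r hr
  | ifz r c d ihc ihd =>
    intro r' hr
    rcases hr with hr | hr
    · exact ihc h.2.1 r' hr
    · exact ihd h.2.2 r' hr
  | ifA a r c d ihc ihd =>
    intro r' hr
    rcases hr with hr | hr
    · exact ihc h.2.2.1 r' hr
    · exact ihd h.2.2.2 r' hr
  | ifY s r c d ihc ihd =>
    intro r' hr
    rcases hr with hr | hr
    · exact ihc h.2.2.1 r' hr
    · exact ihd h.2.2.2 r' hr
  | loop r c ihc =>
    intro r' hr
    rcases hr with hr | hr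
    · rw [Set.mem_singleton_iff] at hr; subst hr; exact h.1
    · exact ihc h.2.2 r' hr

/-- the command of the fragment `F3` -/
def m5_c3 : Cmd := .seq (.loop 1 .skip) (.inc 0)

theorem m5_c3_run (K : ℕ) (y : Cantor) (μ : Mem) (h : μ.reg 1 = 0 ∨ μ.reg 1 = 1) :
    (m5_c3.run K y μ).arr = μ.arr ∧
    ∀ r, (m5_c3.run K y μ).reg r = if r = 0 then μ.reg 0 + 1 else if r = 1 then 0 else μ.reg r := by
  have h1 : (Cmd.run K y (.loop 1 .skip) μ).arr = μ.arr ∧
      ∀ r, (Cmd.run K y (.loop 1 .skip) μ).reg r = if r = 1 then 0 else μ.reg r := by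
    rcases h with h | h
    · constructor
      · simp [Cmd.run, h]
      · intro r
        by_cases hr : r = 1
        · subst hr; simp [Cmd.run, h]
        · simp [Cmd.run, h, hr]
    · constructor
      · simp [Cmd.run, h, Mem.setReg]
      · intro r
        by_cases hr : r = 1
        · subst hr; simp [Cmd.run, h, Mem.setReg]
        · simp [Cmd.run, h, hr, Mem.setReg]
  constructor
  · show ((Cmd.run K y (.loop 1 .skip) μ).setReg 0 _).arr = μ.arr
    exact h1.1
  · intro r
    show ((Cmd.run K y (.loop 1 .skip) μ).setReg 0 _).reg r = _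
    unfold Mem.setReg
    by_cases hr : r = 0
    · subst hr
      simp [h1.2]
    · simp [hr, h1.2]

/-- what is used about the three fragments -/
structure M5Frags (R : ℕ) (P : LProc) (y : Cantor) (F1 F2 F3 : Frag (R + 6)) : Prop where
  h1 : ∀ (T : ℕ → Fin (R + 6) → Bool) (m : Mem), RepMem (R + 6) R 3 T m →
    (∀ r, r ≠ 0 → m.reg r = 0) →
    ∃ n : ℕ, (F1.after y T n).st = none ∧ (F1.after y T n).pos = 0 ∧
      (∃ m' : Mem, RepMem (R + 6) R 3 (F1.after y T n).work m' ∧
        (∀ r, 2 ≤ r → m'.reg r = 0) ∧ m'.reg 0 = m.reg 0 ∧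
        m'.reg 1 = (if Loc P y (m.arr 0) (m.reg 0) = true then 1 else 0) ∧
        (∀ a, a ≠ 1 → m'.arr a = m.arr a)) ∧
      ∀ t ≤ n, ∀ (i : ℕ) (j : Fin (R + 6)), R ≤ (j : ℕ) → (j : ℕ) ≠ R + 1 →
        (F1.after y T t).work i j = T i j
  h2 : ∀ (T : ℕ → Fin (R + 6) → Bool) (m : Mem), RepMem (R + 6) R 3 T m →
    ∃ n : ℕ, (F2.after y T n).st = none ∧ (F2.after y T n).pos = 0 ∧
      RepMem (R + 6) R 3 (F2.after y T n).work (m.setArr 2 (m.reg 0) true) ∧
      ∀ t ≤ n, ∀ (i : ℕ) (j : Fin (R + 6)), ((j : ℕ) ≠ R + 2 ∨ i ≠ m.reg 0) →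
        (F2.after y T t).work i j = T i j
  h3 : ∀ (T : ℕ → Fin (R + 6) → Bool) (m : Mem), RepMem (R + 6) R 3 T m →
    ∃ n : ℕ, (F3.after y T n).st = none ∧ (F3.after y T n).pos = 0 ∧
      RepMem (R + 6) R 3 (F3.after y T n).work (m5_c3.run (R + 6) y m) ∧
      ∀ t ≤ n, ∀ (i : ℕ) (j : Fin (R + 6)), R ≤ (j : ℕ) → (F3.after y T t).work i j = T i j

/-- the state at the beginning of iteration `m` -/
structure M5It (R : ℕ) {Q : Type} (q : Q) (W L : ℕ → Bool) (m : ℕ) (c : BCfg (R + 6) Q) :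
    Prop where
  st : c.st = q
  pos : c.pos = 0
  rep : ∃ A1 : ℕ → Bool, RepMem (R + 6) R 3 c.work (m5_mem W L A1 m)

/-- one iteration -/
theorem m5_iter {R : ℕ} (hR : 2 ≤ R) {P : LProc} {y : Cantor} {F1 F2 F3 : Frag (R + 6)}
    (hF : M5Frags R P y F1 F2 F3) (W : Cantor) (m : ℕ)
    (c : BCfg (R + 6) (M5Q F1.Q F2.Q F3.Q))
    (hc : M5It R (M5Q.f1 (some F1.entry)) W (Loc P y W) m c) :
    ∃ c', M5Reach (m5_delta R F1 F2 F3) y
      (fun n j => R ≤ (j : ℕ) ∧ (j : ℕ) ≠ R + 1 ∧ ((j : ℕ) = R + 2 → n ≠ m)) c c' ∧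
      M5It R (M5Q.f1 (some F1.entry)) W (Loc P y W) (m + 1) c' := by
  obtain ⟨st, pos, T⟩ := c
  obtain ⟨hst, hpos, A1, hrep⟩ := hc
  simp only at hst hpos hrep
  subst hst hpos
  set S : ℕ → Fin (R + 6) → Prop :=
    fun n j => R ≤ (j : ℕ) ∧ (j : ℕ) ≠ R + 1 ∧ ((j : ℕ) = R + 2 → n ≠ m) with hS
  -- first fragment
  obtain ⟨n1, hst1, hpos1, ⟨μ1, hrep1, hr2, hr0, hr1, ha⟩, hstab1⟩ :=
    hF.h1 T _ hrep (fun r hr => by simp [m5_mem, hr])
  have hr0' : μ1.reg 0 = m := by rw [hr0]; simp [m5_mem]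
  have hr1' : μ1.reg 1 = (if Loc P y W m = true then 1 else 0) := by
    rw [hr1]; simp [m5_mem]
  have hA := m5_frag (m5_delta R F1 F2 F3) y F1 (fun q => M5Q.f1 q) (fun q i w => rfl) T n1 hst1 S
    (fun t ht i j hj => hstab1 t ht i j hj.1 hj.2.1)
  rw [hpos1] at hA
  set T1 := (F1.after y T n1).work with hT1
  have htest : T1 0 ⟨1, by omega⟩ = decide (Loc P y W m = true) := by
    rw [hrep1.reg 1 (by omega) (by omega) 0, hr1']
    by_cases hL : Loc P y W m = true
    · simp [hL]
    · simp [hL]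
  have harr0 : μ1.arr 0 = W := by rw [ha 0 (by omega)]; simp [m5_mem]
  have harr2 : μ1.arr 2 = fun n => decide (n < m) && Loc P y W n := by
    rw [ha 2 (by omega)]; simp [m5_mem]
  -- second fragment and test
  obtain ⟨T2, μ2, hB, hrep2, hq0, hq1, hq2, hb0, hb1, hb2⟩ : ∃ (T2 : ℕ → Fin (R + 6) → Bool)
      (μ2 : Mem), M5Reach (m5_delta R F1 F2 F3) y S
        { st := M5Q.f1 none, pos := 0, work := T1 }
        { st := M5Q.f3 (some F3.entry), pos := 0, work := T2 } ∧
      RepMem (R + 6) R 3 T2 μ2 ∧ μ2.reg 0 = m ∧ (μ2.reg 1 = 0 ∨ μ2.reg 1 = 1) ∧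
      (∀ r, 2 ≤ r → μ2.reg r = 0) ∧ μ2.arr 0 = W ∧ μ2.arr 1 = μ1.arr 1 ∧
      μ2.arr 2 = fun n => decide (n < m + 1) && Loc P y W n := by
    by_cases hL : Loc P y W m = true
    · have hs1 : M5Reach (m5_delta R F1 F2 F3) y S
          { st := M5Q.f1 none, pos := 0, work := T1 }
          { st := M5Q.f2 (some F2.entry), pos := 0, work := T1 } := by
        refine M5Reach.of_step S ?_
        have h2 : T1 0 ⟨1, by omega⟩ = true := by rw [htest]; simp [hL]
        show (if T1 0 ⟨1, by omega⟩ = true then M5Q.f2 (some F2.entry)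
          else M5Q.f3 (some F3.entry), T1 0, false) = _
        rw [if_pos h2]
      obtain ⟨n2, hst2, hpos2, hrep2, hstab2⟩ := hF.h2 T1 _ hrep1
      have hs2 := m5_frag (m5_delta R F1 F2 F3) y F2 (fun q => M5Q.f2 q) (fun q i w => rfl) T1 n2
        hst2 S (fun t ht i j hj => hstab2 t ht i j (by
          by_cases h : (j : ℕ) = R + 2
          · right
            rw [hr0']
            exact hj.2.2 h
          · exact Or.inl h))
      rw [hpos2] at hs2
      have hs3 : M5Reach (m5_delta R F1 F2 F3) y S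
          { st := M5Q.f2 none, pos := 0, work := (F2.after y T1 n2).work }
          { st := M5Q.f3 (some F3.entry), pos := 0, work := (F2.after y T1 n2).work } :=
        M5Reach.of_step S rfl
      refine ⟨_, _, (hs1.trans hs2).trans hs3, hrep2, hr0', ?_, hr2, ?_, ?_, ?_⟩
      · right
        show μ1.reg 1 = 1
        rw [hr1', if_pos hL]
      · funext i
        simp [Mem.setArr, harr0]
      · funext i
        simp [Mem.setArr]
      · funext i
        simp only [Mem.setArr, hr0', harr2, true_and]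
        by_cases hi : i = m
        · subst hi
          simp [hL]
        · have h1 : (i < m + 1) ↔ i < m := by omega
          simp [hi, h1]
    · refine ⟨T1, μ1, ?_, hrep1, hr0', ?_, hr2, harr0, rfl, ?_⟩
      · refine M5Reach.of_step S ?_
        have h2 : ¬ T1 0 ⟨1, by omega⟩ = true := by rw [htest]; simp [hL]
        show (if T1 0 ⟨1, by omega⟩ = true then M5Q.f2 (some F2.entry)
          else M5Q.f3 (some F3.entry), T1 0, false) = _
        rw [if_neg h2]
      · left
        rw [hr1', if_neg hL]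
      · rw [harr2]
        funext i
        by_cases hi : i = m
        · subst hi
          simp [hL]
        · have h1 : (i < m + 1) ↔ i < m := by omega
          simp [h1]
  -- third fragment
  obtain ⟨n3, hst3, hpos3, hrep3, hstab3⟩ := hF.h3 T2 _ hrep2
  have hC := m5_frag (m5_delta R F1 F2 F3) y F3 (fun q => M5Q.f3 q) (fun q i w => rfl) T2 n3 hst3 S
    (fun t ht i j hj => hstab3 t ht i j hj.1)
  rw [hpos3] at hC
  have hD : M5Reach (m5_delta R F1 F2 F3) y S
      { st := M5Q.f3 none, pos := 0, work := (F3.after y T2 n3).work }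
      { st := M5Q.f1 (some F1.entry), pos := 0, work := (F3.after y T2 n3).work } :=
    M5Reach.of_step S rfl
  refine ⟨_, ((hA.trans hB).trans hC).trans hD, rfl, rfl, μ1.arr 1, ?_⟩
  obtain ⟨hc3a, hc3r⟩ := m5_c3_run (R + 6) y μ2 hq1
  refine m5_rep_congr hrep3 ?_ ?_
  · intro r hr
    rw [hc3r, hq0]
    unfold m5_mem
    simp only
    by_cases h0 : r = 0
    · simp [h0]
    · rw [if_neg h0, if_neg h0]
      by_cases h1 : r = 1
      · simp [h1]
      · rw [if_neg h1, hq2 r (by omega)]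
  · intro a ha3
    rw [hc3a]
    unfold m5_mem
    simp only
    interval_cases a
    · simp [hb0]
    · simp [hb1]
    · simp [hb2]

/-- cells which do not change any more -/
theorem m5_stable {R : ℕ} (hR : 2 ≤ R) {P : LProc} {y : Cantor} {F1 F2 F3 : Frag (R + 6)}
    (hF : M5Frags R P y F1 F2 F3) (W : Cantor) (k : ℕ) : ∀ (m : ℕ)
    (c : BCfg (R + 6) (M5Q F1.Q F2.Q F3.Q)),
    M5It R (M5Q.f1 (some F1.entry)) W (Loc P y W) m c →
    ∀ n (j : Fin (R + 6)), R ≤ (j : ℕ) → (j : ℕ) ≠ R + 1 → ((j : ℕ) = R + 2 → n < m) →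
      ((m5_step (m5_delta R F1 F2 F3) y)^[k] c).work n j = c.work n j := by
  induction k using Nat.strong_induction_on with
  | _ k ih =>
    intro m c hc n j h1 h2 h3
    obtain ⟨c', ⟨N, hN, hcc', hst⟩, hc'⟩ := m5_iter hR hF W m c hc
    have h4 : R ≤ (j : ℕ) ∧ (j : ℕ) ≠ R + 1 ∧ ((j : ℕ) = R + 2 → n ≠ m) :=
      ⟨h1, h2, fun h => (h3 h).ne⟩
    by_cases hk : k ≤ N
    · exact hst k hk n j h4
    · obtain ⟨l, rfl⟩ : ∃ l, k = l + N := ⟨k - N, by omega⟩
      rw [Function.iterate_add_apply, hcc', ih l (by omega) (m + 1) c' hc' n j h1 h2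
        (fun h => Nat.lt_succ_of_lt (h3 h)), ← hcc']
      exact hst N le_rfl n j h4

theorem m5_reach_it {R : ℕ} (hR : 2 ≤ R) {P : LProc} {y : Cantor} {F1 F2 F3 : Frag (R + 6)}
    (hF : M5Frags R P y F1 F2 F3) (W : Cantor) (c : BCfg (R + 6) (M5Q F1.Q F2.Q F3.Q))
    (hc : M5It R (M5Q.f1 (some F1.entry)) W (Loc P y W) 0 c) (m : ℕ) :
    ∃ s, M5It R (M5Q.f1 (some F1.entry)) W (Loc P y W) m
      ((m5_step (m5_delta R F1 F2 F3) y)^[s] c) := by
  induction m with
  | zero => exact ⟨0, hc⟩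
  | succ m ih =>
    obtain ⟨s, hs⟩ := ih
    obtain ⟨c', ⟨N, hN, hcc', hst⟩, hc'⟩ := m5_iter hR hF W m _ hs
    refine ⟨N + s, ?_⟩
    rw [Function.iterate_add_apply, hcc']
    exact hc'

/-! ### the three phases of a round -/

theorem m5_bm_step (R : ℕ) (F1 F2 F3 : Frag (R + 6)) (y : Cantor) :
    (m5_bm R F1 F2 F3).step y = m5_step (m5_delta R F1 F2 F3) y := rfl

/-- the compute phase -/
theorem m5_compute {R : ℕ} (hR : 2 ≤ R) {P : LProc} {y : Cantor} {F1 F2 F3 : Frag (R + 6)}
    (hF : M5Frags R P y F1 F2 F3) (W : Cantor) (β : Ordinal.{0}) (T : ℕ → Fin (R + 6) → Bool)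
    (hrun : (m5_bm R F1 F2 F3).run y β = { st := M5Q.lim, pos := 0, work := T })
    (h4 : ∀ n, T n (⟨R + 4, by omega⟩ : Fin (R + 6)) = false) (h5 : ∀ n, T n (⟨R + 5, by omega⟩ : Fin (R + 6)) = decide (n = 0))
    (A1 : ℕ → Bool) (hrep : RepMem (R + 6) R 3 T (m5_mem W (Loc P y W) A1 0)) :
    (∀ k : ℕ, ∀ n, ((m5_bm R F1 F2 F3).run y (β + k)).work n (⟨R, by omega⟩ : Fin (R + 6)) = W n) ∧
    (∀ n, ((m5_bm R F1 F2 F3).run y (β + ω)).work n (⟨R, by omega⟩ : Fin (R + 6)) = W n) ∧
    (∀ n, ((m5_bm R F1 F2 F3).run y (β + ω)).work n (⟨R + 2, by omega⟩ : Fin (R + 6)) = Loc P y W n) ∧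
    (∀ n, ((m5_bm R F1 F2 F3).run y (β + ω)).work n (⟨R + 4, by omega⟩ : Fin (R + 6)) = decide (n = 0)) ∧
    (∀ n, ((m5_bm R F1 F2 F3).run y (β + ω)).work n (⟨R + 5, by omega⟩ : Fin (R + 6)) = false) := by
  set B := m5_bm R F1 F2 F3 with hB
  have hT0 : ∀ n (j : Fin (R + 6)), (j : ℕ) ≠ R + 4 → (j : ℕ) ≠ R + 5 →
      (if n = 0 then m5_bc R (T 0) else T n) j = T n j := by
    intro n j h1 h2
    by_cases hn : n = 0
    · subst hn
      simp [m5_bc, h1, h2]
    · simp [hn]
  set c0 : BCfg (R + 6) (M5Q F1.Q F2.Q F3.Q) :=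
    { st := M5Q.f1 (some F1.entry), pos := 0,
      work := fun n => if n = 0 then m5_bc R (T 0) else T n } with hc0
  have hstep : B.step y (B.run y β) = c0 := by
    rw [hrun]
    show m5_step (m5_delta R F1 F2 F3) y { st := M5Q.lim, pos := 0, work := T } = c0
    unfold m5_step
    have h6 : m5_delta R F1 F2 F3 M5Q.lim (inBlock (R + 6) y 0) (T 0) =
        (M5Q.f1 (some F1.entry), m5_bc R (T 0), false) := by
      show (if T 0 (⟨R + 4, by omega⟩ : Fin (R + 6)) = true then _ else
        (if T 0 (⟨R + 5, by omega⟩ : Fin (R + 6)) = true then _ else _)) = _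
      rw [if_neg (by rw [h4]; simp), if_pos (by rw [h5]; simp)]
    simp only [h6]
    rfl
  have hit0 : M5It R (M5Q.f1 (some F1.entry)) W (Loc P y W) 0 c0 := by
    refine ⟨rfl, rfl, A1, ?_, ?_, ?_⟩
    · intro r hr hK n
      show (if n = 0 then m5_bc R (T 0) else T n) _ = _
      rw [hT0 n _ (by simp; omega) (by simp; omega)]
      exact hrep.reg r hr hK n
    · intro a ha hK n
      show (if n = 0 then m5_bc R (T 0) else T n) _ = _
      rw [hT0 n _ (by simp; omega) (by simp; omega)]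
      exact hrep.arr a ha hK n
    · intro hK n
      show (if n = 0 then m5_bc R (T 0) else T n) _ = _
      rw [hT0 n _ (by simp) (by simp)]
      exact hrep.org hK n
  have hk : ∀ k, (B.step y)^[k + 1] (B.run y β) = (m5_step (m5_delta R F1 F2 F3) y)^[k] c0 := by
    intro k
    rw [Function.iterate_add_apply, Function.iterate_one, hstep]
    rfl
  have hTR : ∀ n, T n (⟨R, by omega⟩ : Fin (R + 6)) = W n := by
    intro n
    have := hrep.arr 0 (by omega) (by omega) n
    simpa [m5_mem] using this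
  have hRk : ∀ k n, ((B.step y)^[k] (B.run y β)).work n (⟨R, by omega⟩ : Fin (R + 6)) = W n := by
    intro k n
    rcases Nat.eq_zero_or_pos k with rfl | hkpos
    · rw [Function.iterate_zero, id, hrun]
      exact hTR n
    · obtain ⟨l, rfl⟩ : ∃ l, k = l + 1 := ⟨k - 1, by omega⟩
      rw [hk l, m5_stable hR hF W l 0 c0 hit0 n (⟨R, by omega⟩ : Fin (R + 6)) le_rfl (by simp) (by simp)]
      show (if n = 0 then m5_bc R (T 0) else T n) _ = _
      rw [hT0 n _ (by simp) (by simp)]
      exact hTR n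
  refine ⟨?_, ?_, ?_, ?_, ?_⟩
  · intro k n
    rw [m5_run_nat]
    exact hRk k n
  · intro n
    exact m5_limit_cell B y β n (⟨R, by omega⟩ : Fin (R + 6)) (W n) 0 (fun k _ => hRk k n)
  · intro n
    obtain ⟨s, hs⟩ := m5_reach_it hR hF W c0 hit0 (n + 1)
    refine m5_limit_cell B y β n (⟨R + 2, by omega⟩ : Fin (R + 6)) (Loc P y W n) (s + 1) ?_
    intro k hks
    obtain ⟨l, rfl⟩ : ∃ l, k = (l + s) + 1 := ⟨k - 1 - s, by omega⟩
    rw [hk, Function.iterate_add_apply]
    have h6 := m5_stable hR hF W l (n + 1) _ hs n (⟨R + 2, by omega⟩ : Fin (R + 6)) (by simp) (by simp)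
      (fun _ => Nat.lt_succ_self n)
    refine h6.trans ?_
    obtain ⟨A, hA⟩ := hs.rep
    have h7 := hA.arr 2 (by omega) (by omega) n
    rw [h7]
    simp [m5_mem]
  · intro n
    refine m5_limit_cell B y β n (⟨R + 4, by omega⟩ : Fin (R + 6)) (decide (n = 0)) 1 ?_
    intro k hks
    obtain ⟨l, rfl⟩ : ∃ l, k = l + 1 := ⟨k - 1, by omega⟩
    rw [hk l]
    have h6 := m5_stable hR hF W l 0 c0 hit0 n (⟨R + 4, by omega⟩ : Fin (R + 6)) (by simp) (by simp) (by simp)
    refine h6.trans ?_
    show (if n = 0 then m5_bc R (T 0) else T n) _ = _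
    by_cases hn : n = 0
    · simp [hn, m5_bc]
    · rw [if_neg hn, h4 n]
      simp [hn]
  · intro n
    refine m5_limit_cell B y β n (⟨R + 5, by omega⟩ : Fin (R + 6)) false 1 ?_
    intro k hks
    obtain ⟨l, rfl⟩ : ∃ l, k = l + 1 := ⟨k - 1, by omega⟩
    rw [hk l]
    have h6 := m5_stable hR hF W l 0 c0 hit0 n (⟨R + 5, by omega⟩ : Fin (R + 6)) (by simp) (by simp) (by simp)
    refine h6.trans ?_
    show (if n = 0 then m5_bc R (T 0) else T n) _ = _
    by_cases hn : n = 0
    · simp [hn, m5_bc]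
    · rw [if_neg hn, h5 n]
      simp [hn]

/-- the state at the beginning of a round -/
structure M5Ready (R : ℕ) (F1 F2 F3 : Frag (R + 6)) (W : Cantor)
    (c : BCfg (R + 6) (M5Q F1.Q F2.Q F3.Q)) : Prop where
  st : c.st = M5Q.start ∨ c.st = M5Q.lim
  pos : c.pos = 0
  a0 : ∀ n, c.work n (⟨R, by omega⟩ : Fin (R + 6)) = W n
  fl : c.work 0 (⟨R + 4, by omega⟩ : Fin (R + 6)) = c.work 0 (⟨R + 5, by omega⟩ : Fin (R + 6))

/-- a round -/
theorem m5_round {R : ℕ} (hR : 2 ≤ R) {P : LProc} {y : Cantor} {F1 F2 F3 : Frag (R + 6)}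
    (hF : M5Frags R P y F1 F2 F3) (W : Cantor) (β : Ordinal.{0})
    (h : M5Ready R F1 F2 F3 W ((m5_bm R F1 F2 F3).run y β)) :
    M5Ready R F1 F2 F3 (Loc P y W) ((m5_bm R F1 F2 F3).run y (β + ω + ω + ω)) ∧
    ((m5_bm R F1 F2 F3).run y (β + ω)).work 0 (⟨R + 5, by omega⟩ : Fin (R + 6)) = true ∧
    ((m5_bm R F1 F2 F3).run y (β + ω + ω)).work 0 (⟨R + 4, by omega⟩ : Fin (R + 6)) = true ∧
    ∀ t, β ≤ t → t < β + ω + ω + ω → ∀ n,
      ((m5_bm R F1 F2 F3).run y t).work n (⟨R, by omega⟩ : Fin (R + 6)) = W n ∨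
      ((m5_bm R F1 F2 F3).run y t).work n (⟨R, by omega⟩ : Fin (R + 6)) = Loc P y W n := by
  set B := m5_bm R F1 F2 F3 with hB
  have hlim : ∀ (γ : Ordinal.{0}) (T' : ℕ → Fin (R + 6) → Bool),
      (∀ n i, (B.run y (γ + ω)).work n i = T' n i) →
      B.run y (γ + ω) = { st := M5Q.lim, pos := 0, work := T' } := by
    intro γ T' hT'
    have h1 : (B.run y (γ + ω)).st = M5Q.lim := by rw [m5_run_limit B y (m5_lim_omega γ)]; rfl
    have h2 : (B.run y (γ + ω)).pos = 0 := by rw [m5_run_limit B y (m5_lim_omega γ)]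
    have h3 : (B.run y (γ + ω)).work = T' := by
      funext n i
      exact hT' n i
    rw [← h1, ← h2, ← h3]
  -- clean phase
  obtain ⟨hst, hpos, ha0, hfl⟩ := h
  set T : ℕ → Fin (R + 6) → Bool := (B.run y β).work with hT
  have hs1 : B.step y (B.run y β) =
      { st := M5Q.clean, pos := 1, work := fun n => if n = 0 then m5_cl R true (T 0) else T n } := by
    show m5_step (m5_delta R F1 F2 F3) y (B.run y β) = _
    unfold m5_step
    rw [hpos]
    have hd : m5_delta R F1 F2 F3 (B.run y β).st (inBlock (R + 6) y 0) (T 0) =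
        (M5Q.clean, m5_cl R true (T 0), true) := by
      rcases hst with hst | hst
      · rw [hst]; rfl
      · rw [hst]
        show (if T 0 (⟨R + 4, by omega⟩ : Fin (R + 6)) = true then
            (if T 0 (⟨R + 5, by omega⟩ : Fin (R + 6)) = true then _ else _) else
            (if T 0 (⟨R + 5, by omega⟩ : Fin (R + 6)) = true then _ else _)) = _
        rw [hfl]
        by_cases h5 : T 0 (⟨R + 5, by omega⟩ : Fin (R + 6)) = true
        · rw [if_pos h5, if_pos h5]
        · rw [if_neg h5, if_neg h5]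
    simp only [← hT, hd]
    rfl
  obtain ⟨hsw1, hsl1⟩ := m5_sweep B y β M5Q.clean (m5_cl R true) (m5_cl R false) T hs1
    (fun i w => rfl)
  have hclR : ∀ b w, m5_cl R b w (⟨R, by omega⟩ : Fin (R + 6)) = w ⟨R, by omega⟩ := by
    intro b w
    simp [m5_cl]
  have hrun1 := hlim β (fun n => if n = 0 then m5_cl R true (T 0) else m5_cl R false (T n))
    (by
      intro n i
      refine (hsl1 n i).trans ?_
      by_cases hn : n = 0
      · simp [hn]
      · simp [hn])
  -- compute phase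
  obtain ⟨hc1, hc2, hc3, hc4, hc5⟩ := m5_compute hR hF W (β + ω) _ hrun1
    (by
      intro n
      by_cases hn : n = 0
      · simp [hn, m5_cl]
      · simp [hn, m5_cl])
    (by
      intro n
      by_cases hn : n = 0
      · simp [hn, m5_cl]
      · simp [hn, m5_cl])
    (fun n => T n ⟨R + 1, by omega⟩)
    (by
      refine ⟨?_, ?_, ?_⟩
      · intro r hr hK n
        by_cases hn : n = 0
        · simp [hn, m5_cl, hr, m5_mem]
        · simp [hn, m5_cl, hr, m5_mem]
      · intro a ha hK n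
        interval_cases a
        · by_cases hn : n = 0
          · subst hn
            simpa [m5_cl, m5_mem] using ha0 0
          · simpa [hn, m5_cl, m5_mem] using ha0 n
        · by_cases hn : n = 0
          · subst hn
            simp [m5_cl, m5_mem]
          · simp [hn, m5_cl, m5_mem]
        · by_cases hn : n = 0
          · subst hn
            simp [m5_cl, m5_mem]
          · simp [hn, m5_cl, m5_mem]
      · intro hK n
        by_cases hn : n = 0
        · simp [hn, m5_cl]
        · simp [hn, m5_cl])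
  -- copy phase
  set T2 : ℕ → Fin (R + 6) → Bool := (B.run y (β + ω + ω)).work with hT2
  have hrun2 := hlim (β + ω) T2 (fun n i => rfl)
  have hs2 : B.step y (B.run y (β + ω + ω)) =
      { st := M5Q.copy, pos := 1, work := fun n => if n = 0 then m5_cp R true (T2 0) else T2 n } := by
    rw [hrun2]
    show m5_step (m5_delta R F1 F2 F3) y { st := M5Q.lim, pos := 0, work := T2 } = _
    unfold m5_step
    have hd : m5_delta R F1 F2 F3 M5Q.lim (inBlock (R + 6) y 0) (T2 0) =
        (M5Q.copy, m5_cp R true (T2 0), true) := by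
      show (if T2 0 (⟨R + 4, by omega⟩ : Fin (R + 6)) = true then
            (if T2 0 (⟨R + 5, by omega⟩ : Fin (R + 6)) = true then _ else _) else
            (if T2 0 (⟨R + 5, by omega⟩ : Fin (R + 6)) = true then _ else _)) = _
      have h4 : T2 0 (⟨R + 4, by omega⟩ : Fin (R + 6)) = true := by
        refine (hc4 0).trans ?_
        simp
      have h5 : ¬ T2 0 (⟨R + 5, by omega⟩ : Fin (R + 6)) = true := by
        have h6 : T2 0 (⟨R + 5, by omega⟩ : Fin (R + 6)) = false := hc5 0
        rw [h6]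
        simp
      rw [if_pos h4, if_neg h5]
    simp only [hd]
    rfl
  obtain ⟨hsw2, hsl2⟩ := m5_sweep B y (β + ω + ω) M5Q.copy (m5_cp R true) (m5_cp R false) T2 hs2
    (fun i w => rfl)
  have hcpR : ∀ b w, m5_cp R b w (⟨R, by omega⟩ : Fin (R + 6)) = w ⟨R + 2, by omega⟩ := by
    intro b w
    simp [m5_cp]
  have hrun3 := hlim (β + ω + ω) (fun n => if n = 0 then m5_cp R true (T2 0) else m5_cp R false (T2 n))
    (by
      intro n i
      refine (hsl2 n i).trans ?_
      by_cases hn : n = 0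
      · simp [hn]
      · simp [hn])
  refine ⟨?_, ?_, ?_, ?_⟩
  · rw [hrun3]
    refine ⟨Or.inr rfl, rfl, ?_, ?_⟩
    · intro n
      by_cases hn : n = 0
      · subst hn
        show m5_cp R true (T2 0) _ = _
        rw [hcpR]
        exact hc3 0
      · show (if n = 0 then m5_cp R true (T2 0) else m5_cp R false (T2 n)) _ = _
        rw [if_neg hn, hcpR]
        exact hc3 n
    · simp [m5_cp]
  · rw [hrun1]
    simp [m5_cl]
  · refine (hc4 0).trans ?_
    simp
  · intro t ht1 ht2 n
    rcases lt_or_ge t (β + ω) with h1 | h1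
    · left
      obtain ⟨k, rfl⟩ := m5_time ht1 h1
      rw [m5_run_nat]
      rcases Nat.eq_zero_or_pos k with rfl | hk
      · exact ha0 n
      · obtain ⟨l, rfl⟩ : ∃ l, k = l + 1 := ⟨k - 1, by omega⟩
        rw [hsw1 l]
        show (if n = 0 then m5_cl R true (T 0) else if n ≤ l then m5_cl R false (T n) else T n) _ = _
        by_cases hn : n = 0
        · subst hn
          rw [if_pos rfl, hclR]
          exact ha0 0
        · rw [if_neg hn]
          by_cases hl : n ≤ l
          · rw [if_pos hl, hclR]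
            exact ha0 n
          · rw [if_neg hl]
            exact ha0 n
    rcases lt_or_ge t (β + ω + ω) with h2 | h2
    · left
      obtain ⟨k, rfl⟩ := m5_time h1 h2
      exact hc1 k n
    · obtain ⟨k, rfl⟩ := m5_time h2 ht2
      rw [m5_run_nat]
      rcases Nat.eq_zero_or_pos k with rfl | hk
      · left
        exact hc2 n
      · obtain ⟨l, rfl⟩ : ∃ l, k = l + 1 := ⟨k - 1, by omega⟩
        rw [hsw2 l]
        show (if n = 0 then m5_cp R true (T2 0) else if n ≤ l then m5_cp R false (T2 n) else T2 n) _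
          = _ ∨ (if n = 0 then m5_cp R true (T2 0) else if n ≤ l then m5_cp R false (T2 n)
            else T2 n) _ = _
        by_cases hn : n = 0
        · subst hn
          right
          rw [if_pos rfl, hcpR]
          exact hc3 0
        · rw [if_neg hn]
          by_cases hl : n ≤ l
          · right
            rw [if_pos hl, hcpR]
            exact hc3 n
          · left
            rw [if_neg hl]
            exact hc2 n

/-! ### the whole run -/

theorem m5_three : (ω * 3 : Ordinal.{0}) = ω + ω + ω := by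
  have h : (3 : Ordinal.{0}) = 1 + 1 + 1 := by norm_num
  rw [h, mul_add, mul_add, mul_one]

theorem m5_succ (ν : Ordinal.{0}) : ω * 3 * (ν + 1) = ω * 3 * ν + ω + ω + ω := by
  rw [mul_add, mul_one]
  conv_lhs => rw [m5_three]
  rw [← m5_three, m5_three, ← add_assoc, ← add_assoc]

theorem m5_pos : (0 : Ordinal.{0}) < ω * 3 := by
  have : (ω * 3 : Ordinal.{0}) ≠ 0 := by
    simp
  exact pos_iff_ne_zero.2 this

/-- round time -/
theorem m5_ready {R : ℕ} (hR : 2 ≤ R) {P : LProc} {y : Cantor} {F1 F2 F3 : Frag (R + 6)}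
    (hF : M5Frags R P y F1 F2 F3) (ν : Ordinal.{0}) :
    M5Ready R F1 F2 F3 (titer (Loc P y) ν) ((m5_bm R F1 F2 F3).run y (ω * 3 * ν)) := by
  induction ν using Ordinal.limitRecOn with
  | zero =>
    rw [mul_zero, m5_run_zero, titer_zero]
    exact ⟨Or.inl rfl, rfl, fun n => rfl, rfl⟩
  | add_one ν ih =>
    rw [m5_succ, titer_add_one]
    exact (m5_round hR hF _ _ ih).1
  | limit ν hν ih =>
    have hlim : Order.IsSuccLimit (ω * 3 * ν) := by
      rw [mul_assoc]
      exact Ordinal.isSuccLimit_mul_left Ordinal.isSuccLimit_omega0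
        (pos_iff_ne_zero.2 (mul_ne_zero (by simp) hν.ne_bot))
    have hsucc : ∀ μ < ν, μ + 1 < ν := fun μ hμ => hν.succ_lt hμ
    rw [m5_run_limit _ y hlim]
    refine ⟨Or.inr rfl, rfl, ?_, ?_⟩
    · intro n
      rw [Bool.eq_iff_iff, titer_limit _ hν n]
      refine (m5_limsup_true (o := ω * 3 * ν) (fun a => ((m5_bm R F1 F2 F3).run y a).work n
        (⟨R, by omega⟩ : Fin (R + 6)))).trans ?_
      constructor
      · intro h μ hμ
        obtain ⟨t, h1, h2, h3⟩ := h (ω * 3 * μ) ((mul_lt_mul_iff_right₀ m5_pos).2 hμ)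
        have h4 : t / (ω * 3) < ν := (Ordinal.lt_mul_iff_div_lt m5_pos.ne').1 h2
        have h5 : μ ≤ t / (ω * 3) := (Ordinal.mul_le_iff_le_div m5_pos.ne').1 h1
        obtain ⟨-, -, -, h6⟩ := m5_round hR hF _ _ (ih _ h4)
        have h7 : t < ω * 3 * (t / (ω * 3)) + ω + ω + ω := by
          rw [← m5_succ]
          exact Ordinal.lt_mul_succ_div t m5_pos.ne'
        rcases h6 t (Ordinal.mul_div_le t _) h7 n with h8 | h8
        · exact ⟨_, h5, h4, h8.symm.trans h3⟩
        · refine ⟨t / (ω * 3) + 1, h5.trans (le_self_add), hsucc _ h4, ?_⟩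
          rw [titer_add_one]
          exact h8.symm.trans h3
      · intro h a ha
        have h4 : a / (ω * 3) < ν := (Ordinal.lt_mul_iff_div_lt m5_pos.ne').1 ha
        obtain ⟨μ, h1, h2, h3⟩ := h _ (hsucc _ h4)
        refine ⟨ω * 3 * μ, ?_, (mul_lt_mul_iff_right₀ m5_pos).2 h2, ((ih μ h2).a0 n).trans h3⟩
        refine le_trans ?_ (mul_le_mul_right h1 (ω * 3))
        exact (Ordinal.lt_mul_succ_div a m5_pos.ne').le
    · have hfl : ∀ a < ω * 3 * ν, ∃ μ < ν, a ≤ ω * 3 * μ ∧ ω * 3 * μ + ω < ω * 3 * ν ∧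
          ω * 3 * μ + ω + ω < ω * 3 * ν := by
        intro a ha
        have h4 : a / (ω * 3) < ν := (Ordinal.lt_mul_iff_div_lt m5_pos.ne').1 ha
        have h5 := hsucc _ h4
        have h6 : ω * 3 * (a / (ω * 3) + 1) + ω + ω < ω * 3 * ν := by
          have h7 : ω * 3 * (a / (ω * 3) + 1 + 1) ≤ ω * 3 * ν :=
            mul_le_mul_right (hsucc _ h5).le (ω * 3)
          rw [m5_succ] at h7
          refine lt_of_lt_of_le ?_ h7
          exact lt_add_of_pos_right _ Ordinal.omega0_pos
        refine ⟨_, h5, (Ordinal.lt_mul_succ_div a m5_pos.ne').le, lt_of_le_of_lt ?_ h6, h6⟩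
        exact le_self_add
      have h4 : limsupBit (ω * 3 * ν) (fun a _ => ((m5_bm R F1 F2 F3).run y a).work 0
          (⟨R + 4, by omega⟩ : Fin (R + 6))) = true := by
        rw [m5_limsup_true]
        intro a ha
        obtain ⟨μ, h1, h2, h3, h4⟩ := hfl a ha
        refine ⟨ω * 3 * μ + ω + ω, h2.trans (le_trans le_self_add le_self_add), h4, ?_⟩
        exact (m5_round hR hF _ _ (ih μ h1)).2.2.1
      have h5 : limsupBit (ω * 3 * ν) (fun a _ => ((m5_bm R F1 F2 F3).run y a).work 0
          (⟨R + 5, by omega⟩ : Fin (R + 6))) = true := by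
        rw [m5_limsup_true]
        intro a ha
        obtain ⟨μ, h1, h2, h3, h4⟩ := hfl a ha
        refine ⟨ω * 3 * μ + ω, h2.trans le_self_add, h3, ?_⟩
        exact (m5_round hR hF _ _ (ih μ h1)).2.1
      exact h4.trans h5.symm

theorem m5_main {R : ℕ} (hR : 2 ≤ R) {P : LProc} {y : Cantor} {F1 F2 F3 : Frag (R + 6)}
    (hF : M5Frags R P y F1 F2 F3) :
    (∃ b : Ordinal.{0}, Order.IsSuccLimit b ∧
      (m5_bm R F1 F2 F3).rej (((m5_bm R F1 F2 F3).run y b).work 0) = true) ↔
      ∃ b, titer (Loc P y) b 0 = true := by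
  constructor
  · rintro ⟨b, -, hb⟩
    obtain ⟨-, -, -, h⟩ := m5_round hR hF (titer (Loc P y) (b / (ω * 3))) _
      (m5_ready hR hF (b / (ω * 3)))
    have h1 : b < ω * 3 * (b / (ω * 3)) + ω + ω + ω := by
      rw [← m5_succ]
      exact Ordinal.lt_mul_succ_div b m5_pos.ne'
    rcases h b (Ordinal.mul_div_le b _) h1 0 with h2 | h2
    · exact ⟨_, h2.symm.trans hb⟩
    · refine ⟨b / (ω * 3) + 1, ?_⟩
      rw [titer_add_one]
      exact h2.symm.trans hb
  · rintro ⟨ν, hν⟩
    have hν0 : ν ≠ 0 := by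
      rintro rfl
      rw [titer_zero] at hν
      exact Bool.noConfusion hν
    refine ⟨ω * 3 * ν, ?_, ?_⟩
    · rw [mul_assoc]
      exact Ordinal.isSuccLimit_mul_left Ordinal.isSuccLimit_omega0
        (pos_iff_ne_zero.2 (mul_ne_zero (by simp) hν0))
    · exact ((m5_ready hR hF ν).a0 0).trans hν

/-- the module M5 from the statements of the modules M2 and M4 -/
theorem m5_core (P : LProc)
    (hbody : ∃ R : ℕ, 2 ≤ R ∧ ∀ K : ℕ, 1 ≤ K → ∃ c : Cmd, c.ok K R 3 ∧
      c.wrArr ⊆ {1} ∧
      ∀ (y : Cantor) (m : Mem), (∀ r, r ≠ 0 → m.reg r = 0) →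
        (∀ r, 2 ≤ r → (c.run K y m).reg r = 0) ∧ (c.run K y m).reg 0 = m.reg 0 ∧
        (c.run K y m).reg 1 = (if Loc P y (m.arr 0) (m.reg 0) = true then 1 else 0) ∧
        (∀ a, a ≠ 1 → (c.run K y m).arr a = m.arr a))
    (hcmd : ∀ (K R A : ℕ) (_ : R + A < K) (c : Cmd) (_ : c.ok K R A), ∃ F : Frag K,
      ∀ (y : Cantor) (T : ℕ → Fin K → Bool) (m : Mem), RepMem K R A T m →
        ∃ n : ℕ, 0 < n ∧ (F.after y T n).st = none ∧ (F.after y T n).pos = 0 ∧
          RepMem K R A (F.after y T n).work (c.run K y m) ∧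
          (∀ t ≤ n, ∀ (j : Fin K) (i : ℕ), (∀ r ∈ c.wrReg, (j : ℕ) ≠ r) →
            (∀ a ∈ c.wrArr, (j : ℕ) ≠ R + a) → (F.after y T t).work i j = T i j))
    (hset : ∀ (K R A : ℕ) (_ : R + A < K) (a r : ℕ) (v : Bool) (_ : a < A) (_ : r < R),
      ∃ F : Frag K, ∀ (y : Cantor) (T : ℕ → Fin K → Bool) (m : Mem), RepMem K R A T m →
        ∃ n : ℕ, 0 < n ∧ (F.after y T n).st = none ∧ (F.after y T n).pos = 0 ∧
          RepMem K R A (F.after y T n).work (m.setArr a (m.reg r) v) ∧
          (∀ t ≤ n, ∀ (j : Fin K) (i : ℕ), ((j : ℕ) ≠ R + a ∨ i ≠ m.reg r) →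
            (F.after y T t).work i j = T i j)) :
    ∃ B : BM, ∀ y : Cantor,
      (∃ b : Ordinal.{0}, Order.IsSuccLimit b ∧ B.rej ((B.run y b).work 0) = true) ↔
        ∃ b, titer (Loc P y) b 0 = true := by
  obtain ⟨R, hR, hb⟩ := hbody
  obtain ⟨c, hok, hwA, hrun⟩ := hb (R + 6) (by omega)
  obtain ⟨F1, h1⟩ := hcmd (R + 6) R 3 (by omega) c hok
  obtain ⟨F2, h2⟩ := hset (R + 6) R 3 (by omega) 2 0 true (by omega) (by omega)
  have hok3 : m5_c3.ok (R + 6) R 3 := by
    refine ⟨⟨by omega, ?_, trivial⟩, ?_⟩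
    · intro h
      exact h
    · show 0 < R
      omega
  obtain ⟨F3, h3⟩ := hcmd (R + 6) R 3 (by omega) m5_c3 hok3
  refine ⟨m5_bm R F1 F2 F3, fun y => m5_main (P := P) hR ⟨?_, ?_, ?_⟩⟩
  · intro T m hrep hreg
    obtain ⟨n, -, hst, hpos, hrep', hstab⟩ := h1 y T m hrep
    obtain ⟨q1, q2, q3, q4⟩ := hrun y m hreg
    refine ⟨n, hst, hpos, ⟨_, hrep', q1, q2, q3, q4⟩, ?_⟩
    intro t ht i j hj1 hj2
    refine hstab t ht j i ?_ ?_
    · intro r hr
      have := m5_wrReg_lt c hok r hr
      omega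
    · intro a ha
      have := hwA ha
      rw [Set.mem_singleton_iff] at this
      subst this
      exact hj2
  · intro T m hrep
    obtain ⟨n, -, hst, hpos, hrep', hstab⟩ := h2 y T m hrep
    exact ⟨n, hst, hpos, hrep', fun t ht i j hj => hstab t ht j i hj⟩
  · intro T m hrep
    obtain ⟨n, -, hst, hpos, hrep', hstab⟩ := h3 y T m hrep
    refine ⟨n, hst, hpos, hrep', ?_⟩
    intro t ht i j hj
    refine hstab t ht j i ?_ ?_
    · intro r hr
      have := m5_wrReg_lt m5_c3 hok3 r hr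
      omega
    · intro a ha
      exfalso
      rcases ha with ha | ha
      · exact ha
      · exact ha

end Pool.Agent.HT
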