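import Pool.Agent.Helper85.HT.M2
import Pool.Agent.Helper85.HT.M4
import Pool.Agent.Helper85.HT.M5Core

set_option autoImplicit false

namespace Pool.Agent.HT

/-! ## M5 : the complete block machine of a local process -/

theorem lproc_bm (P : LProc) : ∃ B : BM, ∀ y : Cantor,
    (∃ b : Ordinal.{0}, Order.IsSuccLimit b ∧ B.rej ((B.run y b).work 0) = true) ↔
      ∃ b, titer (Loc P y) b 0 = true :=
  m5_core P (body_cmd P) cmd_frag set_frag

end Pool.Agent.HT
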