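import Pool.Agent.Helper85.HT.M1
import Pool.Agent.Helper85.HT.M2
import Pool.Agent.Helper85.HT.M3
import Pool.Agent.Helper85.HT.M4
import Pool.Agent.Helper85.HT.M5

set_option autoImplicit false

/-!
# Local processes are run by infinite time Turing machines
-/

namespace Pool.Agent.HT

open Ordinal

theorem lproc_machine (P : LProc) : ∃ p : Prog, ∀ y,
    ((∀ b, titer (Loc P y) b 0 = false) → p.EvOne y ∧ ¬ p.Halts y) ∧
    ((∃ b, titer (Loc P y) b 0 = true) → ¬ p.EvOne y ∧ p.Halts y) := by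
  obtain ⟨B, hB⟩ := lproc_bm P
  obtain ⟨p, hp⟩ := bm_prog B
  refine ⟨p, fun y => ⟨fun h => (hp y).1 (fun b hb => ?_), fun h => (hp y).2 ((hB y).2 h)⟩⟩
  by_contra hne
  obtain ⟨b', hb'⟩ := (hB y).1 ⟨b, hb, by simpa using hne⟩
  rw [h b'] at hb'
  exact Bool.noConfusion hb'

end Pool.Agent.HT
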