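import Pool.Agent.Helper85.HT.Defs2

set_option autoImplicit false

/-!
# Definitions for the machine part (MACH): LOOP programs, block machines, fragments
-/

namespace Pool.Agent.HT

open Ordinal

/-! ### LOOP programs with arrays -/

/-- commands; `set a r v`: `A_a[reg r] := v`; `ifA a r c d`: `if A_a[reg r] then c else d`;
`ifY s r c d`: `if y[K * reg r + s] then c else d`;
`loop r c`: `while reg r ≠ 0 do (dec r; c)`. -/
inductive Cmd : Type
  | skip : Cmd
  | inc (r : ℕ) : Cmd
  | dec (r : ℕ) : Cmd
  | set (a r : ℕ) (v : Bool) : Cmd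
  | seq (c d : Cmd) : Cmd
  | ifz (r : ℕ) (c d : Cmd) : Cmd
  | ifA (a r : ℕ) (c d : Cmd) : Cmd
  | ifY (s r : ℕ) (c d : Cmd) : Cmd
  | loop (r : ℕ) (c : Cmd) : Cmd

/-- memory: registers and arrays of bits -/
structure Mem : Type where
  reg : ℕ → ℕ
  arr : ℕ → ℕ → Bool

/-- change register `r` -/
def Mem.setReg (m : Mem) (r v : ℕ) : Mem :=
  { reg := fun i => if i = r then v else m.reg i, arr := m.arr }

/-- change `A_a[j]` -/
def Mem.setArr (m : Mem) (a j : ℕ) (v : Bool) : Mem :=
  { reg := m.reg, arr := fun b i => if b = a ∧ i = j then v else m.arr b i }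

/-- semantics of commands (block length `K`, input `y`) -/
def Cmd.run (K : ℕ) (y : Cantor) : Cmd → Mem → Mem
  | .skip, m => m
  | .inc r, m => m.setReg r (m.reg r + 1)
  | .dec r, m => m.setReg r (m.reg r - 1)
  | .set a r v, m => m.setArr a (m.reg r) v
  | .seq c d, m => d.run K y (c.run K y m)
  | .ifz r c d, m => if m.reg r = 0 then c.run K y m else d.run K y m
  | .ifA a r c d, m => if m.arr a (m.reg r) = true then c.run K y m else d.run K y m
  | .ifY s r c d, m => if y (K * m.reg r + s) = true then c.run K y m else d.run K y m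
  | .loop r c, m => (fun m => c.run K y (m.setReg r (m.reg r - 1)))^[m.reg r] m

/-- registers which may be written -/
def Cmd.wrReg : Cmd → Set ℕ
  | .skip => ∅
  | .inc r => {r}
  | .dec r => {r}
  | .set _ _ _ => ∅
  | .seq c d => c.wrReg ∪ d.wrReg
  | .ifz _ c d => c.wrReg ∪ d.wrReg
  | .ifA _ _ c d => c.wrReg ∪ d.wrReg
  | .ifY _ _ c d => c.wrReg ∪ d.wrReg
  | .loop r c => {r} ∪ c.wrReg

/-- arrays which may be written -/
def Cmd.wrArr : Cmd → Set ℕ
  | .skip => ∅
  | .inc _ => ∅
  | .dec _ => ∅
  | .set a _ _ => {a}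
  | .seq c d => c.wrArr ∪ d.wrArr
  | .ifz _ c d => c.wrArr ∪ d.wrArr
  | .ifA _ _ c d => c.wrArr ∪ d.wrArr
  | .ifY _ _ c d => c.wrArr ∪ d.wrArr
  | .loop _ c => c.wrArr

/-- loop counters are not changed by the body; registers `< R`, arrays `< A`, offsets `< K`. -/
def Cmd.ok (K R A : ℕ) : Cmd → Prop
  | .skip => True
  | .inc r => r < R
  | .dec r => r < R
  | .set a r _ => r < R ∧ a < A
  | .seq c d => c.ok K R A ∧ d.ok K R A
  | .ifz r c d => r < R ∧ c.ok K R A ∧ d.ok K R A
  | .ifA a r c d => r < R ∧ a < A ∧ c.ok K R A ∧ d.ok K R A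
  | .ifY s r c d => r < R ∧ s < K ∧ c.ok K R A ∧ d.ok K R A
  | .loop r c => r < R ∧ r ∉ c.wrReg ∧ c.ok K R A

/-! ### block machines

One input tape and one work tape, both divided into blocks of `K` cells; the head scans a whole
block.  `rej` is evaluated on the work block `0` at limit stages. -/

structure BM : Type 1 where
  K : ℕ
  hK : 2 ≤ K
  Q : Type
  fin : Finite Q
  start : Q
  lim : Q
  δ : Q → (Fin K → Bool) → (Fin K → Bool) → Q × (Fin K → Bool) × Bool
  rej : (Fin K → Bool) → Bool

structure BCfg (K : ℕ) (Q : Type) : Type where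
  st : Q
  pos : ℕ
  work : ℕ → Fin K → Bool

/-- the input block number `n` -/
def inBlock (K : ℕ) (y : Cantor) (n : ℕ) : Fin K → Bool := fun i => y (K * n + i)

def BM.step (B : BM) (y : Cantor) (c : BCfg B.K B.Q) : BCfg B.K B.Q :=
  let o := B.δ c.st (inBlock B.K y c.pos) (c.work c.pos)
  { st := o.1
    pos := if o.2.2 then c.pos + 1 else c.pos - 1
    work := fun n => if n = c.pos then o.2.1 else c.work n }

/-- the run of a block machine (no halting). -/
noncomputable def BM.run (B : BM) (y : Cantor) (o : Ordinal.{0}) : BCfg B.K B.Q :=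
  Ordinal.limitRecOn (motive := fun _ => BCfg B.K B.Q) o
    { st := B.start, pos := 0, work := fun _ _ => false }
    (fun _ c => B.step y c)
    (fun o _ f => { st := B.lim, pos := 0, work := fun n i => limsupBit o (fun a ha => (f a ha).work n i) })

/-! ### fragments: finite pieces of block machine programs with an exit -/

structure Frag (K : ℕ) : Type 1 where
  Q : Type
  fin : Finite Q
  entry : Q
  δ : Q → (Fin K → Bool) → (Fin K → Bool) → Option Q × (Fin K → Bool) × Bool

/-- one step of a fragment; `none` is the exit state. -/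
def Frag.step {K : ℕ} (F : Frag K) (y : Cantor) (c : BCfg K (Option F.Q)) : BCfg K (Option F.Q) :=
  match c.st with
  | none => c
  | some q =>
    let o := F.δ q (inBlock K y c.pos) (c.work c.pos)
    { st := o.1
      pos := if o.2.2 then c.pos + 1 else c.pos - 1
      work := fun n => if n = c.pos then o.2.1 else c.work n }

/-- the configuration after `t` steps when started in the entry state in block `0`. -/
def Frag.after {K : ℕ} (F : Frag K) (y : Cantor) (T : ℕ → Fin K → Bool) (t : ℕ) :
    BCfg K (Option F.Q) :=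
  (F.step y)^[t] { st := some F.entry, pos := 0, work := T }

/-- Representation of a memory by the tracks of the work tape: `R` register tracks (unary), `A`
array tracks, track `R + A` marks block `0`; the other tracks are free. -/
structure RepMem (K R A : ℕ) (T : ℕ → Fin K → Bool) (m : Mem) : Prop where
  reg : ∀ (r : ℕ) (hr : r < R) (hK : r < K) (n : ℕ), T n ⟨r, hK⟩ = decide (n < m.reg r)
  arr : ∀ (a : ℕ) (ha : a < A) (hK : R + a < K) (n : ℕ), T n ⟨R + a, hK⟩ = m.arr a n
  org : ∀ (hK : R + A < K) (n : ℕ), T n ⟨R + A, hK⟩ = decide (n = 0)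

end Pool.Agent.HT
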