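import Pool.Agent.Helper85.HT.FDefs
import Pool.Agent.Helper85.HT.AR1

set_option autoImplicit false

/-!
# Module R5: the fusion is arithmetical
-/

namespace Pool.Agent.HT

open Ordinal

section
variable {α β γ : Type} [Primcodable α] [Primcodable β] [Primcodable γ]

theorem r5_ex {P : Cantor → Cantor → α → β → Prop}
    (h : ArP (fun y W (z : α × β) => P y W z.1 z.2)) : ArP (fun y W a => ∃ b, P y W a b) :=
  ArP.ex (P := fun y W (z : α × β) => P y W z.1 z.2) h

theorem r5_all {P : Cantor → Cantor → α → β → Prop}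
    (h : ArP (fun y W (z : α × β) => P y W z.1 z.2)) : ArP (fun y W a => ∀ b, P y W a b) :=
  ArP.all (P := fun y W (z : α × β) => P y W z.1 z.2) h

theorem r5_exl {P : Cantor → Cantor → α → β → Prop} {f : α → List β} (hf : Primrec f)
    (h : ArP (fun y W (z : α × β) => P y W z.1 z.2)) :
    ArP (fun y W a => ∃ b ∈ f a, P y W a b) :=
  ArP.exList (P := fun y W (z : α × β) => P y W z.1 z.2) h hf

theorem r5_alll {P : Cantor → Cantor → α → β → Prop} {f : α → List β} (hf : Primrec f)
    (h : ArP (fun y W (z : α × β) => P y W z.1 z.2)) :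
    ArP (fun y W a => ∀ b ∈ f a, P y W a b) :=
  ArP.allList (P := fun y W (z : α × β) => P y W z.1 z.2) h hf

theorem r5_eq {f g : α → β} (hf : Primrec f) (hg : Primrec g) :
    ArP (fun _ _ a => f a = g a) := by
  refine (ArP.primPred (R := fun a => Encodable.encode (f a) = Encodable.encode (g a))
    (Primrec.eq.comp (Primrec.encode.comp hf) (Primrec.encode.comp hg))).congr ?_
  intro y W a
  exact Encodable.encode_inj

theorem r5_le {f g : α → ℕ} (hf : Primrec f) (hg : Primrec g) :
    ArP (fun _ _ a => f a ≤ g a) :=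
  ArP.primPred (Primrec.nat_le.comp hf hg)

theorem r5_lt {f g : α → ℕ} (hf : Primrec f) (hg : Primrec g) :
    ArP (fun _ _ a => f a < g a) :=
  ArP.primPred (Primrec.nat_lt.comp hf hg)

theorem r5_prefix {f g : α → List Bool} (hf : Primrec f) (hg : Primrec g) :
    ArP (fun _ _ a => f a <+: g a) := by
  have h : ArP (fun _ _ (a : α) => ∃ t : List Bool, f a ++ t = g a) :=
    r5_ex (r5_eq (Primrec.list_append.comp (hf.comp Primrec.fst) Primrec.snd)
      (hg.comp Primrec.fst))
  exact h

theorem r5_cmp {f g : α → List Bool} (hf : Primrec f) (hg : Primrec g) :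
    ArP (fun _ _ a => cmpW (f a) (g a)) :=
  ArP.or (r5_prefix hf hg) (r5_prefix hg hf)

/-- primitive recursion with an arithmetical step -/
theorem r5_rec {f : Cantor → Cantor → ℕ → β} {b0 : β}
    {g : Cantor → Cantor → ℕ → β → β} (h0 : ∀ y W, f y W 0 = b0)
    (hs : ∀ y W n, f y W (n + 1) = g y W n (f y W n))
    (hg : ArP (fun y W (x : ℕ × β × β) => g y W x.1 x.2.1 = x.2.2)) :
    ArP (fun y W (x : ℕ × β) => f y W x.1 = x.2) := by
  have key : ArP (fun y W (x : ℕ × β) => ∃ s : List β, s[0]? = some b0 ∧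
      (∀ i : ℕ, i < x.1 → ∃ A B : β, s[i]? = some A ∧ s[i + 1]? = some B ∧ g y W i A = B) ∧
      s[x.1]? = some x.2) := by
    refine r5_ex (ArP.and ?_ (ArP.and ?_ ?_))
    · exact r5_eq (Primrec.list_getElem?.comp Primrec.snd (Primrec.const 0)) (Primrec.const _)
    · refine r5_all (ArP.imp (r5_lt Primrec.snd
        (Primrec.fst.comp (Primrec.fst.comp Primrec.fst))) (r5_ex (r5_ex (ArP.and ?_
        (ArP.and ?_ ?_)))))
      · exact r5_eq (Primrec.list_getElem?.comp
          (Primrec.snd.comp (Primrec.fst.comp (Primrec.fst.comp Primrec.fst)))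
          (Primrec.snd.comp (Primrec.fst.comp Primrec.fst)))
          (Primrec.option_some.comp (Primrec.snd.comp Primrec.fst))
      · exact r5_eq (Primrec.list_getElem?.comp
          (Primrec.snd.comp (Primrec.fst.comp (Primrec.fst.comp Primrec.fst)))
          (Primrec.succ.comp (Primrec.snd.comp (Primrec.fst.comp Primrec.fst))))
          (Primrec.option_some.comp Primrec.snd)
      · exact ArP.comp (f := fun z : ((((ℕ × β) × List β) × ℕ) × β) × β =>
          (z.1.1.2, z.1.2, z.2)) hg
          (Primrec.pair (Primrec.snd.comp (Primrec.fst.comp Primrec.fst))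
            (Primrec.pair (Primrec.snd.comp Primrec.fst) Primrec.snd))
    · exact r5_eq (Primrec.list_getElem?.comp Primrec.snd (Primrec.fst.comp Primrec.fst))
        (Primrec.option_some.comp (Primrec.snd.comp Primrec.fst))
  refine key.congr ?_
  rintro y W ⟨n, b⟩
  constructor
  · rintro ⟨s, h1, h2, h3⟩
    have h : ∀ i ≤ n, s[i]? = some (f y W i) := by
      intro i
      induction i with
      | zero => intro _; rw [h1, h0]
      | succ i ih =>
        intro hi
        obtain ⟨A, B, hA, hB, hAB⟩ := h2 i hi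
        have := ih (by omega)
        rw [this, Option.some.injEq] at hA
        rw [hB, hs, hA, hAB]
    have := h n le_rfl
    rw [this] at h3
    exact Option.some.inj h3
  · intro h
    simp only at h
    refine ⟨(List.range (n + 1)).map (f y W), ?_, ?_, ?_⟩
    · simp [h0]
    · intro i hi
      simp only at hi
      refine ⟨f y W i, f y W (i + 1), ?_, ?_, (hs y W i).symm⟩
      · rw [List.getElem?_map, List.getElem?_range (by omega)]; rfl
      · rw [List.getElem?_map, List.getElem?_range (by omega)]; rfl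
    · simp [h]

end

section
variable {κ : Type} [Primcodable κ]

theorem r5_leastL (Q : List (ℕ × κ) → Prop) (L : List (ℕ × κ)) : leastL Q = L ↔
    (Q L ∧ ∀ L', Encodable.encode L' < Encodable.encode L → ¬ Q L') ∨
    ((¬ ∃ L', Q L') ∧ L = []) := by
  classical
  unfold leastL
  by_cases h : ∃ c : ℕ, ∃ L : List (ℕ × κ), Encodable.encode L = c ∧ Q L
  · rw [dif_pos h]
    have hc := Classical.choose_spec (Nat.find_spec h)
    set M := Classical.choose (Nat.find_spec h) with hM
    have hmin : ∀ L', Encodable.encode L' < Encodable.encode M → ¬ Q L' := by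
      intro L' hL' hQ
      rw [hc.1] at hL'
      exact Nat.find_min h hL' ⟨L', rfl, hQ⟩
    constructor
    · rintro rfl
      exact Or.inl ⟨hc.2, hmin⟩
    · rintro (⟨h1, h2⟩ | ⟨h1, -⟩)
      · rcases lt_trichotomy (Encodable.encode L) (Encodable.encode M) with h3 | h3 | h3
        · exact absurd h1 (hmin _ h3)
        · exact (Encodable.encode_injective h3).symm
        · exact absurd hc.2 (h2 _ h3)
      · exact absurd ⟨_, hc.2⟩ h1
  · rw [dif_neg h]
    have hno : ¬ ∃ L', Q L' := fun ⟨L', hL'⟩ => h ⟨_, L', rfl, hL'⟩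
    constructor
    · rintro rfl
      exact Or.inr ⟨hno, rfl⟩
    · rintro (⟨h1, -⟩ | ⟨-, h2⟩)
      · exact absurd ⟨L, h1⟩ hno
      · exact h2.symm

variable {cnd : Cantor → Cantor → κ → Prop} {tr : Cantor → Cantor → κ → List Bool → Prop}
  {root : κ → List Bool} {dec : Cantor → Cantor → ℕ → κ → Prop}
  {start : Cantor → Cantor → ℕ → κ}

theorem r5_step (h1 : ArP (fun y W (x : κ) => cnd y W x))
    (h2 : ArP (fun y W (x : κ × List Bool) => tr y W x.1 x.2)) (h3 : Primrec root)
    (h4 : ArP (fun y W (x : ℕ × κ) => dec y W x.1 x.2))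
    (h5 : ArP (fun y W (x : ℕ × κ) => start y W x.1 = x.2)) :
    ArP (fun y W (z : ℕ × List (ℕ × κ) × List (ℕ × κ)) =>
      StepF (cnd y W) (tr y W) root (dec y W) (start y W) z.1 z.2.1 z.2.2) := by
  have hsub : ArP (fun y W (x : κ × κ) => ∀ u : List Bool, tr y W x.1 u → tr y W x.2 u) := by
    refine r5_all (ArP.imp ?_ ?_)
    · exact ArP.comp (f := fun z : (κ × κ) × List Bool => (z.1.1, z.2)) h2
        (Primrec.pair (Primrec.fst.comp Primrec.fst) Primrec.snd)
    · exact ArP.comp (f := fun z : (κ × κ) × List Bool => (z.1.2, z.2)) h2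
        (Primrec.pair (Primrec.snd.comp Primrec.fst) Primrec.snd)
  have hsub' : ∀ {α : Type} [Primcodable α] {f g : α → κ}, Primrec f → Primrec g →
      ArP (fun y W a => ∀ u : List Bool, tr y W (f a) u → tr y W (g a) u) := by
    intro α _ f g hf hg
    exact ArP.comp (f := fun z : α => (f z, g z)) hsub (Primrec.pair hf hg)
  have hlen : ∀ {α : Type} [Primcodable α] {f : α → κ}, Primrec f →
      Primrec (fun a => (root (f a)).length) := by
    intro α _ f hf
    exact Primrec.list_length.comp (h3.comp hf)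
  have hst : ∀ {α : Type} [Primcodable α] {f : α → ℕ} {g : α → κ}, Primrec f → Primrec g →
      ArP (fun y W a => (∀ u : List Bool, tr y W (g a) u → tr y W (start y W (f a)) u) ∧
        (root (start y W (f a))).length < (root (g a)).length) := by
    intro α _ f g hf hg
    have : ArP (fun y W (a : α) => ∃ s : κ, start y W (f a) = s ∧
        ((∀ u : List Bool, tr y W (g a) u → tr y W s u) ∧
        (root s).length < (root (g a)).length)) := by
      refine r5_ex (ArP.and ?_ (ArP.and ?_ ?_))
      · exact ArP.comp (f := fun z : α × κ => (f z.1, z.2)) h5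
          (Primrec.pair (hf.comp Primrec.fst) Primrec.snd)
      · exact hsub' (hg.comp Primrec.fst) Primrec.snd
      · exact r5_lt (hlen Primrec.snd) (hlen (hg.comp Primrec.fst))
    refine this.congr ?_
    intro y W a
    constructor
    · rintro ⟨s, rfl, h⟩; exact h
    · intro h; exact ⟨_, rfl, h⟩
  unfold StepF
  -- abbreviations for projections
  have pL : Primrec (fun z : ℕ × List (ℕ × κ) × List (ℕ × κ) => z.2.1) :=
    Primrec.fst.comp Primrec.snd
  have pL' : Primrec (fun z : ℕ × List (ℕ × κ) × List (ℕ × κ) => z.2.2) :=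
    Primrec.snd.comp Primrec.snd
  refine ArP.and ?_ (ArP.and ?_ (ArP.and ?_ ?_))
  · refine r5_alll pL' (ArP.and ?_ (ArP.and ?_ (ArP.and ?_ (ArP.or ?_ ?_))))
    · exact ArP.comp h1 (Primrec.snd.comp Primrec.snd)
    · refine r5_all (ArP.imp (r5_le Primrec.snd (Primrec.fst.comp (Primrec.fst.comp Primrec.fst))) ?_)
      exact ArP.comp (f := fun z : ((ℕ × List (ℕ × κ) × List (ℕ × κ)) × ℕ × κ) × ℕ =>
        (z.2, z.1.2.2)) h4 (Primrec.pair Primrec.snd (Primrec.snd.comp
          (Primrec.snd.comp Primrec.fst)))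
    · exact r5_le (Primrec.fst.comp Primrec.fst) (hlen (Primrec.snd.comp Primrec.snd))
    · refine r5_exl (pL.comp Primrec.fst) (ArP.and ?_ (ArP.and ?_ ?_))
      · exact r5_eq (Primrec.fst.comp Primrec.snd)
          (Primrec.fst.comp (Primrec.snd.comp Primrec.fst))
      · exact hsub' (Primrec.snd.comp (Primrec.snd.comp Primrec.fst))
          (Primrec.snd.comp Primrec.snd)
      · exact r5_lt (hlen (Primrec.snd.comp Primrec.snd))
          (hlen (Primrec.snd.comp (Primrec.snd.comp Primrec.fst)))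
    · refine ArP.and (r5_eq (Primrec.fst.comp Primrec.snd) (Primrec.fst.comp Primrec.fst)) ?_
      exact hst (Primrec.fst.comp Primrec.fst) (Primrec.snd.comp Primrec.snd)
  · refine r5_alll pL (r5_exl (pL'.comp Primrec.fst)
      (r5_exl (pL'.comp (Primrec.fst.comp Primrec.fst)) (ArP.and (ArP.not ?_) (ArP.and ?_
      (ArP.and ?_ (ArP.and ?_ ?_))))))
    · exact r5_eq (Primrec.snd.comp Primrec.fst) Primrec.snd
    · exact r5_eq (Primrec.fst.comp (Primrec.snd.comp Primrec.fst))
        (Primrec.fst.comp (Primrec.snd.comp (Primrec.fst.comp Primrec.fst)))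
    · exact r5_eq (Primrec.fst.comp Primrec.snd)
        (Primrec.fst.comp (Primrec.snd.comp (Primrec.fst.comp Primrec.fst)))
    · exact hsub' (Primrec.snd.comp (Primrec.snd.comp Primrec.fst))
        (Primrec.snd.comp (Primrec.snd.comp (Primrec.fst.comp Primrec.fst)))
    · exact hsub' (Primrec.snd.comp Primrec.snd)
        (Primrec.snd.comp (Primrec.snd.comp (Primrec.fst.comp Primrec.fst)))
  · refine r5_alll pL' (r5_alll (pL'.comp Primrec.fst) (ArP.imp (ArP.not ?_) (ArP.not ?_)))
    · exact r5_eq (Primrec.snd.comp Primrec.fst) Primrec.snd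
    · exact r5_cmp (h3.comp (Primrec.snd.comp (Primrec.snd.comp Primrec.fst)))
        (h3.comp (Primrec.snd.comp Primrec.snd))
  · exact r5_exl pL' (r5_eq (Primrec.fst.comp Primrec.snd) (Primrec.fst.comp Primrec.fst))

theorem r5_Lfus (h1 : ArP (fun y W (x : κ) => cnd y W x))
    (h2 : ArP (fun y W (x : κ × List Bool) => tr y W x.1 x.2)) (h3 : Primrec root)
    (h4 : ArP (fun y W (x : ℕ × κ) => dec y W x.1 x.2))
    (h5 : ArP (fun y W (x : ℕ × κ) => start y W x.1 = x.2)) :
    ArP (fun y W (z : ℕ × List (ℕ × κ)) =>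
      Lfus (cnd y W) (tr y W) root (dec y W) (start y W) z.1 = z.2) := by
  have hs := r5_step h1 h2 h3 h4 h5
  refine r5_rec (f := fun y W n => Lfus (cnd y W) (tr y W) root (dec y W) (start y W) n)
    (b0 := []) (g := fun y W n L => leastL (StepF (cnd y W) (tr y W) root (dec y W)
      (start y W) n L)) (fun y W => rfl) (fun y W n => rfl) ?_
  have key : ArP (fun y W (x : ℕ × List (ℕ × κ) × List (ℕ × κ)) =>
      (StepF (cnd y W) (tr y W) root (dec y W) (start y W) x.1 x.2.1 x.2.2 ∧
        ∀ L' : List (ℕ × κ), Encodable.encode L' < Encodable.encode x.2.2 →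
          ¬ StepF (cnd y W) (tr y W) root (dec y W) (start y W) x.1 x.2.1 L') ∨
      ((¬ ∃ L' : List (ℕ × κ),
        StepF (cnd y W) (tr y W) root (dec y W) (start y W) x.1 x.2.1 L') ∧ x.2.2 = [])) := by
    have hL : ArP (fun y W (z : (ℕ × List (ℕ × κ) × List (ℕ × κ)) × List (ℕ × κ)) =>
        StepF (cnd y W) (tr y W) root (dec y W) (start y W) z.1.1 z.1.2.1 z.2) :=
      ArP.comp (f := fun z : (ℕ × List (ℕ × κ) × List (ℕ × κ)) × List (ℕ × κ) =>
        (z.1.1, z.1.2.1, z.2)) hs
        (Primrec.pair (Primrec.fst.comp Primrec.fst)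
          (Primrec.pair (Primrec.fst.comp (Primrec.snd.comp Primrec.fst)) Primrec.snd))
    refine ArP.or (ArP.and hs (r5_all (ArP.imp ?_ (ArP.not hL))))
      (ArP.and (ArP.not (r5_ex hL)) ?_)
    · exact r5_lt (Primrec.encode.comp Primrec.snd)
        (Primrec.encode.comp (Primrec.snd.comp (Primrec.snd.comp Primrec.fst)))
    · exact r5_eq (Primrec.snd.comp Primrec.snd) (Primrec.const [])
  refine key.congr ?_
  intro y W x
  exact (r5_leastL _ _).symm

theorem r5_Fnode (h1 : ArP (fun y W (x : κ) => cnd y W x))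
    (h2 : ArP (fun y W (x : κ × List Bool) => tr y W x.1 x.2)) (h3 : Primrec root)
    (h4 : ArP (fun y W (x : ℕ × κ) => dec y W x.1 x.2))
    (h5 : ArP (fun y W (x : ℕ × κ) => start y W x.1 = x.2)) :
    ArP (fun y W (x : ℕ × List Bool) =>
      Fnode (cnd y W) (tr y W) root (dec y W) (start y W) x.1 x.2) := by
  have hL := r5_Lfus h1 h2 h3 h4 h5
  have key : ArP (fun y W (x : ℕ × List Bool) => ∀ n : ℕ, x.1 < n →
      ∃ L : List (ℕ × κ), Lfus (cnd y W) (tr y W) root (dec y W) (start y W) n = L ∧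
        ∃ p ∈ L, p.1 = x.1 ∧ tr y W p.2 x.2) := by
    refine r5_all (ArP.imp (r5_lt (Primrec.fst.comp Primrec.fst) Primrec.snd)
      (r5_ex (ArP.and ?_ (r5_exl Primrec.snd (ArP.and ?_ ?_)))))
    · exact ArP.comp (f := fun z : ((ℕ × List Bool) × ℕ) × List (ℕ × κ) => (z.1.2, z.2)) hL
        (Primrec.pair (Primrec.snd.comp Primrec.fst) Primrec.snd)
    · exact r5_eq (Primrec.fst.comp Primrec.snd)
        (Primrec.fst.comp (Primrec.fst.comp (Primrec.fst.comp Primrec.fst)))
    · exact ArP.comp (f := fun z : (((ℕ × List Bool) × ℕ) × List (ℕ × κ)) × ℕ × κ =>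
        (z.2.2, z.1.1.1.2)) h2 (Primrec.pair (Primrec.snd.comp Primrec.snd)
          (Primrec.snd.comp (Primrec.fst.comp (Primrec.fst.comp Primrec.fst))))
  refine key.congr ?_
  rintro y W ⟨j, u⟩
  unfold Fnode
  constructor
  · intro h n hn
    obtain ⟨L, hL, ⟨j', q⟩, hp, hj, ht⟩ := h n hn
    simp only at hj ht
    subst hj
    exact ⟨q, by rw [hL]; exact hp, ht⟩
  · intro h n hn
    obtain ⟨q, hq, ht⟩ := h n hn
    exact ⟨_, rfl, (j, q), hq, rfl, ht⟩

end

/-- the fusion is arithmetical, from the arithmeticity of its ingredients. -/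
theorem r5_fnode
    (h1 : ArP (fun _ W (x : Cnd) => cond (canon W) x))
    (h2 : ArP (fun _ W (x : Cnd × List Bool) => inT (canon W) x.1 x.2))
    (h4 : ArP (fun _ W (x : ℕ × Cnd) => decC (canon W) x.1 x.2))
    (h5 : ArP (fun _ W (x : ℕ × Cnd) => startC (canon W) x.1 = x.2)) :
    ArP (fun _ W (x : ℕ × List Bool) => fnode (canon W) x.1 x.2) :=
  r5_Fnode (cnd := fun _ W => cond (canon W)) (tr := fun _ W => inT (canon W))
    (root := Prod.snd) (dec := fun _ W => decC (canon W))
    (start := fun _ W => startC (canon W)) h1 h2 Primrec.snd h4 h5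

end Pool.Agent.HT
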