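import Pool.Agent.Helper85.HT.Mach
import Pool.Agent.Helper85.HT.AI
import Pool.Agent.Helper85.HT.LP
import Pool.Agent.Helper85.HT.Forc

set_option autoImplicit false

/-!
# The largest thin eventually semidecidable set: assembly
-/

namespace Pool.Agent.HT

open Ordinal

theorem exists_writable_of_inL_lam {x : Cantor} (h : InL x (lam x)) :
    ∃ α, Writable x α ∧ InL x α := by
  obtain ⟨X, hX, hx⟩ := h
  rw [Lset] at hX
  obtain ⟨⟨β, hβ⟩, hX⟩ := Set.mem_iUnion.1 hX
  have hne : {α | Writable x α}.Nonempty := by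
    by_contra hne
    rw [Set.not_nonempty_iff_eq_empty] at hne
    have : lam x = 0 := by
      unfold lam; rw [hne]; simp
    rw [this] at hβ
    exact absurd hβ (by simp)
  obtain ⟨α, hα, hβα⟩ := exists_lt_of_lt_csSup hne (show β < sSup {α | Writable x α} from hβ)
  refine ⟨α, hα, X, ?_, hx⟩
  rw [Lset]
  exact Set.mem_iUnion.2 ⟨⟨β, hβα⟩, hX⟩

theorem main : ∃ A : Set Cantor, EvSemidecidable A ∧ Semidecidable Aᶜ ∧ A.Nonempty ∧
    A.Countable ∧ ∀ x ∈ A, x ∉ S := by
  obtain ⟨G1, hG1, good, hL1, hL2⟩ := lpart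
  obtain ⟨P1, cell, -, hP1⟩ := arith_lproc G1 hG1
  obtain ⟨G0, hG0, hne, hct, σ, hσ, hx⟩ := forc P1
  obtain ⟨P0, cell0, hc0, hP0⟩ := arith_lproc G0 hG0
  obtain ⟨p, hp⟩ := lproc_machine P0
  set X : Set Cantor := {y | ∀ ν, titer (G0 y) ν 0 = false} with hX
  have hXm : ∀ y, y ∈ X ↔ ∀ b, titer (Loc P0 y) b 0 = false := by
    intro y
    constructor
    · intro hy b
      by_contra hb
      have hb' : titer (Loc P0 y) b (cell0 0) = true := by rw [hc0]; simpa using hb
      obtain ⟨ν, -, hν⟩ := (hP0 y 0).2 b hb'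
      rw [hy ν] at hν
      exact Bool.noConfusion hν
    · intro hy ν
      by_contra hb
      have hb' : titer (G0 y) ν 0 = true := by simpa using hb
      obtain ⟨b, hb⟩ := (hP0 y 0).1 ν hb'
      rw [hc0, hy b] at hb
      exact Bool.noConfusion hb
  have hnot : ∀ y, y ∉ X → ∃ b, titer (Loc P0 y) b 0 = true := by
    intro y hy
    rw [hXm] at hy
    push Not at hy
    obtain ⟨b, hb⟩ := hy
    exact ⟨b, by simpa using hb⟩
  refine ⟨X, ⟨p, fun y => ?_⟩, ⟨p, fun y => ?_⟩, hne, hct, ?_⟩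
  · constructor
    · intro hy
      exact ((hp y).1 ((hXm y).1 hy)).1
    · intro hy
      by_contra hyX
      exact ((hp y).2 (hnot y hyX)).1 hy
  · constructor
    · intro hy
      exact ((hp y).2 (hnot y hy)).2
    · intro hy hyX
      exact ((hp y).1 ((hXm y).1 hyX)).2 hy
  · intro x hxX hxS
    obtain ⟨α, hW, hL⟩ := exists_writable_of_inL_lam hxS
    obtain ⟨q, ν, hq⟩ := hL1 x α hW hL
    obtain ⟨b, hb⟩ := (hP1 x (good q)).1 ν hq
    obtain ⟨h1, h2⟩ := hx x hxX
    obtain ⟨b', hb', hbb⟩ := h1 b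
    rw [hbb] at hb
    obtain ⟨r, hr, hrc⟩ := h2 b' hb' (cell (good q))
    apply hr
    have hsub : r ⊆ ⋃ ν : Set.Iic b', {x' | titer (G1 x') ν.1 (good q) = true} := by
      intro x' hx'
      have := hrc x' hx'
      rw [hb] at this
      obtain ⟨ν', hν', h⟩ := (hP1 x' (good q)).2 b' this
      exact Set.mem_iUnion.2 ⟨⟨ν', hν'⟩, h⟩
    have hb1 : b' < ω₁ := hb'.trans hσ
    have : Countable (Set.Iic b') := by
      have h3 : (Set.Iio (b' + 1)).Countable :=
        countable_Iio_iff.2 ((Cardinal.isSuccLimit_omega 1).succ_lt hb1)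
      have h4 : Set.Iic b' = Set.Iio (b' + 1) := by
        ext z; simp
      rw [h4]; exact h3.to_subtype
    refine Set.Countable.mono hsub (Set.countable_iUnion (fun ν' => ?_))
    exact hL2 ν'.1 (lt_of_le_of_lt ν'.2 hb1) q

theorem largest_thin_false : ¬ IsLargestThin {A | EvSemidecidable A} S := by
  rintro ⟨-, -, h⟩
  obtain ⟨A, hA, -, ⟨x, hx⟩, hc, hS⟩ := main
  exact hS x hx (h A hA (fun C _ hCA => hc.mono hCA) hx)

end Pool.Agent.HT
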